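import Mathlib

section

/-!
Complexes with supports over labelled rings: definitions of the algebraic core.
-/

namespace Pool.Agent.MP_f7db47_al.KN

open Matrix

universe v w

/-- A family of additive subgroups of a ring, indexed by pairs of labels. -/
abbrev Fam (A : Type v) [Ring A] (Λ : Type) : Type v := Λ → Λ → AddSubgroup A

/-- Raw complexes: a finite index set with labels and degrees, and two matrices. -/
structure Cx (A : Type v) [Ring A] (Λ : Type) : Type (max 1 v) where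
  J : Type
  [fin : Fintype J]
  [dec : DecidableEq J]
  t : J → Λ × ℤ
  p : Matrix J J A
  D : Matrix J J A

attribute [instance] Cx.fin Cx.dec

variable {A : Type v} [Ring A] {Λ ι : Type}

/-- Matrices of degree `d` with entries in `H`. -/
def Hm (H : Fam A Λ) (d : ℤ) {I J : Type} (s : I → Λ × ℤ) (t : J → Λ × ℤ) (f : Matrix I J A) :
    Prop :=
  ∀ i j, f i j ∈ H (s i).1 (t j).1 ∧ (f i j ≠ 0 → (s i).2 = (t j).2 + d)

/-- The family is closed under products. -/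
def LR (H : Fam A Λ) : Prop := ∀ ⦃a b c : Λ⦄ ⦃x y : A⦄, x ∈ H a b → y ∈ H b c → x * y ∈ H a c

/-- All elements of the monoids are central. -/
def Cen (S : ι → Submonoid A) : Prop := ∀ a, ∀ w ∈ S a, ∀ x, w * x = x * w

/-- All elements of the monoids are units. -/
def Uni (S : ι → Submonoid A) : Prop := ∀ a, ∀ w ∈ S a, IsUnit w

/-- A labelled ring with central monoids that act on it. -/
structure Good (H : Fam A Λ) (S : ι → Submonoid A) : Prop where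
  mul : LR H
  cen : Cen S
  stab : ∀ a, ∀ w ∈ S a, ∀ ⦃i j : Λ⦄ ⦃x : A⦄, x ∈ H i j → w * x ∈ H i j

/-- A graded labelled ring. -/
structure Gr (H : ℕ → Fam A Λ) (S : ι → Submonoid A) : Prop where
  mono : ∀ ⦃k k' : ℕ⦄, k ≤ k' → H k ≤ H k'
  mul : ∀ ⦃k k' : ℕ⦄ ⦃a b c : Λ⦄ ⦃x y : A⦄, x ∈ H k a b → y ∈ H k' b c → x * y ∈ H (k + k') a c
  cen : Cen S
  stab : ∀ a, ∀ w ∈ S a, ∀ ⦃k : ℕ⦄ ⦃i j : Λ⦄ ⦃x : A⦄, x ∈ H k i j → w * x ∈ H k i j

/-- A complex over the idempotent completion of `H`. -/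
structure Ok (H : Fam A Λ) (X : Cx A Λ) : Prop where
  hp : Hm H 0 X.t X.t X.p
  hD : Hm H (-1) X.t X.t X.D
  pp : X.p * X.p = X.p
  pD : X.p * X.D = X.D
  Dp : X.D * X.p = X.D
  DD : X.D * X.D = 0

/-- A map of graded modules of degree `d` from `X` to `Y`. -/
structure Mp (H : Fam A Λ) (d : ℤ) (Y X : Cx A Λ) (f : Matrix Y.J X.J A) : Prop where
  hm : Hm H d Y.t X.t f
  pl : Y.p * f = f
  pr : f * X.p = f

/-- A chain map from `X` to `Y`. -/
structure Ch (H : Fam A Λ) (Y X : Cx A Λ) (f : Matrix Y.J X.J A) : Prop extends Mp H 0 Y X f where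
  cm : Y.D * f = f * X.D

/-- A twisting map for an extension with subcomplex `X` and quotient `Y`. -/
structure Tw (H : Fam A Λ) (X Y : Cx A Λ) (t : Matrix X.J Y.J A) : Prop
    extends Mp H (-1) X Y t where
  cm : X.D * t + t * Y.D = 0

/-- Multiplication by `w` is null-homotopic. -/
def Nul (H : Fam A Λ) (w : A) (X : Cx A Λ) : Prop :=
  ∃ h, Hm H 1 X.t X.t h ∧ X.D * h + h * X.D = w • X.p

/-- The data of a homotopy equivalence. -/
structure HEd (H : Fam A Λ) (X Y : Cx A Λ) (f : Matrix Y.J X.J A) (g : Matrix X.J Y.J A)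
    (h : Matrix X.J X.J A) (k : Matrix Y.J Y.J A) : Prop where
  hf : Ch H Y X f
  hg : Ch H X Y g
  hh : Hm H 1 X.t X.t h
  hk : Hm H 1 Y.t Y.t k
  gf : g * f + (X.D * h + h * X.D) = X.p
  fg : f * g + (Y.D * k + k * Y.D) = Y.p

/-- Homotopy equivalent complexes. -/
def HE (H : Fam A Λ) (X Y : Cx A Λ) : Prop := ∃ f g h k, HEd H X Y f g h k

/-- Torsion for all monoids in `K`. -/
def Tor (H : Fam A Λ) (S : ι → Submonoid A) (K : Finset ι) (X : Cx A Λ) : Prop :=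
  ∀ a ∈ K, ∃ w ∈ S a, Nul H w X

/-- The objects. -/
structure Obj (H : Fam A Λ) (S : ι → Submonoid A) (K : Finset ι) (X : Cx A Λ) : Prop where
  ok : Ok H X
  tor : Tor H S K X

/-- All degrees lie in `W`. -/
def Wd (W : Set ℤ) (X : Cx A Λ) : Prop := ∀ j, (X.t j).2 ∈ W

/-- All degrees are at most `L` in absolute value. -/
abbrev Bd (L : ℕ) (X : Cx A Λ) : Prop := Wd (Set.Icc (-(L : ℤ)) L) X

/-- The idempotent is supported in the degrees in `W`. -/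
def InW (W : Set ℤ) (X : Cx A Λ) : Prop := ∀ i j, X.p i j ≠ 0 → (X.t i).2 ∈ W

namespace Cx

/-- The extension with subcomplex `X`, quotient `Y` and twisting map `t`. -/
@[reducible] def ext (X Y : Cx A Λ) (t : Matrix X.J Y.J A) : Cx A Λ where
  J := X.J ⊕ Y.J
  t := Sum.elim X.t Y.t
  p := fromBlocks X.p 0 0 Y.p
  D := fromBlocks X.D t 0 Y.D

/-- The direct sum. -/
@[reducible] def sum (X Y : Cx A Λ) : Cx A Λ := X.ext Y 0

/-- The shift by `n` (used for `n = 1` and `n = -1`). -/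
@[reducible] def sh (X : Cx A Λ) (n : ℤ) : Cx A Λ where
  J := X.J
  t j := ((X.t j).1, (X.t j).2 + n)
  p := X.p
  D := -X.D

/-- The mapping cone of `f : X → Y`. -/
@[reducible] def cone (Y X : Cx A Λ) (f : Matrix Y.J X.J A) : Cx A Λ := Y.ext (X.sh 1) f

/-- The zero complex. -/
@[reducible] def zero (A : Type v) [Ring A] (Λ : Type) : Cx A Λ where
  J := Empty
  t := Empty.elim
  p := 0
  D := 0

/-- The same index set with other matrices. -/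
@[reducible] def re (X : Cx A Λ) (p D : Matrix X.J X.J A) : Cx A Λ where
  J := X.J
  t := X.t
  p := p
  D := D

/-- The subcomplex given by an idempotent `e`. -/
@[reducible] def sub (X : Cx A Λ) (e : Matrix X.J X.J A) : Cx A Λ := X.re e (X.D * e)

/-- The quotient by the subcomplex given by an idempotent `e`. -/
@[reducible] def quo (X : Cx A Λ) (e : Matrix X.J X.J A) : Cx A Λ :=
  X.re (X.p - e) ((X.p - e) * X.D)

/-- Restriction along a map of index sets. -/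
@[reducible] def res (X : Cx A Λ) {I : Type} [Fintype I] [DecidableEq I] (e : I → X.J) :
    Cx A Λ where
  J := I
  t i := X.t (e i)
  p := X.p.submatrix e e
  D := X.D.submatrix e e

/-- Entrywise image, with new labels. -/
@[reducible] def smap {A' : Type w} [Ring A'] {Λ' : Type} (X : Cx A Λ) (φ : A → A') (π : Λ → Λ') :
    Cx A' Λ' where
  J := X.J
  t j := (π (X.t j).1, (X.t j).2)
  p := X.p.map φ
  D := X.D.map φ

/-- The dual complex along an anti-homomorphism. -/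
@[reducible] def op {A' : Type w} [Ring A'] (X : Cx A Λ) (τ : A → A') : Cx A' Λ where
  J := X.J
  t j := ((X.t j).1, -(X.t j).2)
  p := (X.p.map τ)ᵀ
  D := (X.D.map τ)ᵀ

end Cx

/-- `X` is `X'` extended by zero. -/
def Sub (X' X : Cx A Λ) : Prop :=
  ∃ e : X'.J → X.J, Function.Injective e ∧ (∀ i, X'.t i = X.t (e i)) ∧
    X'.p = X.p.submatrix e e ∧ X'.D = X.D.submatrix e e ∧
    (∀ i j, X.p i j ≠ 0 → i ∈ Set.range e ∧ j ∈ Set.range e) ∧
    ∀ i j, X.D i j ≠ 0 → i ∈ Set.range e ∧ j ∈ Set.range e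

/-- The idempotent `e` defines a subcomplex. -/
structure Cut (H : Fam A Λ) (X : Cx A Λ) (e : Matrix X.J X.J A) : Prop where
  hm : Hm H 0 X.t X.t e
  ee : e * e = e
  pe : X.p * e = e
  ep : e * X.p = e
  De : e * X.D * e = X.D * e

/-- The data of a relation between `X` and `X'` in the Grothendieck group. -/
structure Simd (H : Fam A Λ) (S : ι → Submonoid A) (K : Finset ι) (W : Set ℤ)
    (P Q B : Cx A Λ) (t t' : Matrix P.J Q.J A) : Prop where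
  oP : Obj H S K P
  oQ : Obj H S K Q
  oB : Obj H S K B
  wP : Wd W P
  wQ : Wd W Q
  wB : Wd W B
  ht : Tw H P Q t
  ht' : Tw H P Q t'

/-- Equal classes, with a certificate in the window `W`. -/
def Sim (H : Fam A Λ) (S : ι → Submonoid A) (K : Finset ι) (W : Set ℤ) (X X' : Cx A Λ) : Prop :=
  ∃ P Q B t t', Simd H S K W P Q B t t' ∧ HE H (P.ext Q t) (X.sum B) ∧
    HE H (P.ext Q t') (X'.sum B)

/-- Trivial class, with a certificate in the window `W`. -/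
def Cert (H : Fam A Λ) (S : ι → Submonoid A) (K : Finset ι) (W : Set ℤ) (X : Cx A Λ) : Prop :=
  ∃ P Q B t t', Simd H S K W P Q B t t' ∧ HE H (P.ext Q t) (X.sum B) ∧ HE H (P.ext Q t') B

/-- The Grothendieck group vanishes. -/
def NullAll (H : Fam A Λ) (S : ι → Submonoid A) (K : Finset ι) : Prop :=
  ∀ X, Obj H S K X → Cert H S K Set.univ X

/-- The Grothendieck group of the objects in the window `W`. -/
structure KS (H : Fam A Λ) (S : ι → Submonoid A) (K : Finset ι) (W : Set ℤ) (M : Type w)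
    [AddCommGroup M] where
  cls : Cx A Λ → M
  he : ∀ {X Y}, Obj H S K X → Obj H S K Y → Wd W X → Wd W Y → HE H X Y → cls X = cls Y
  ext : ∀ {X Y t}, Obj H S K X → Obj H S K Y → Wd W X → Wd W Y → Tw H X Y t →
    cls (X.ext Y t) = cls X + cls Y
  zero_iff : ∀ {X}, Obj H S K X → Wd W X → (cls X = 0 ↔ Cert H S K W X)

/-- A matrix valued functor. -/
structure Fn {A' : Type w} [Ring A'] {Λ' : Type} (H : Fam A Λ) (H' : Fam A' Λ') where
  κ : Λ → Type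
  [fin : ∀ a, Fintype (κ a)]
  [dec : ∀ a, DecidableEq (κ a)]
  lab : ∀ a, κ a → Λ'
  F : ∀ a b, A →+ Matrix (κ a) (κ b) A'
  mem : ∀ ⦃a b x⦄, x ∈ H a b → ∀ i j, F a b x i j ∈ H' (lab a i) (lab b j)
  mul : ∀ ⦃a b c x y⦄, x ∈ H a b → y ∈ H b c → F a c (x * y) = F a b x * F b c y

attribute [instance] Fn.fin Fn.dec

namespace Fn

variable {A' : Type w} [Ring A'] {Λ' : Type} {H : Fam A Λ} {H' : Fam A' Λ'} (Φ : Fn H H')

/-- The image of a matrix. -/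
def mat {I J : Type} (s : I → Λ × ℤ) (t : J → Λ × ℤ) (f : Matrix I J A) :
    Matrix (Σ i, Φ.κ (s i).1) (Σ j, Φ.κ (t j).1) A' :=
  fun x y => Φ.F (s x.1).1 (t y.1).1 (f x.1 y.1) x.2 y.2

/-- The image of a complex. -/
@[reducible] def obj (X : Cx A Λ) : Cx A' Λ' where
  J := Σ j, Φ.κ (X.t j).1
  t x := (Φ.lab _ x.2, (X.t x.1).2)
  p := Φ.mat X.t X.t X.p
  D := Φ.mat X.t X.t X.D

/-- Compatibility with the monoids. -/
def Lin (S : ι → Submonoid A) (S' : ι → Submonoid A') : Prop :=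
  ∀ a, ∀ w ∈ S a, ∃ w' ∈ S' a, ∀ ⦃i j x⦄, x ∈ H i j → Φ.F i j (w * x) = w' • Φ.F i j x

end Fn

/-- An entrywise functor. -/
structure Sf {A' : Type w} [Ring A'] {Λ' : Type} (H : Fam A Λ) (H' : Fam A' Λ')
    (S : ι → Submonoid A) (S' : ι → Submonoid A') (φ : A →+ A') (π : Λ → Λ') : Prop where
  mem : ∀ ⦃a b x⦄, x ∈ H a b → φ x ∈ H' (π a) (π b)
  mul : ∀ ⦃a b c x y⦄, x ∈ H a b → y ∈ H b c → φ (x * y) = φ x * φ y
  lin : ∀ a, ∀ w ∈ S a, ∃ w' ∈ S' a, ∀ ⦃i j x⦄, x ∈ H i j → φ (w * x) = w' * φ x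

/-- An entrywise contravariant functor. -/
structure Af {A' : Type w} [Ring A'] (H : Fam A Λ) (H' : Fam A' Λ)
    (S : ι → Submonoid A) (S' : ι → Submonoid A') (τ : A →+ A') : Prop where
  mem : ∀ ⦃a b x⦄, x ∈ H a b → τ x ∈ H' b a
  mul : ∀ x y, τ (x * y) = τ y * τ x
  lin : ∀ a, ∀ w ∈ S a, ∃ w' ∈ S' a, ∀ x, τ (w * x) = w' * τ x

/-- `I` is a two-sided ideal of `H`. -/
structure Idl (I H : Fam A Λ) : Prop where
  le : I ≤ H
  left : ∀ ⦃a b c : Λ⦄ ⦃x y : A⦄, x ∈ H a b → y ∈ I b c → x * y ∈ I a c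
  right : ∀ ⦃a b c : Λ⦄ ⦃x y : A⦄, x ∈ I a b → y ∈ H b c → x * y ∈ I a c

/-- Idempotent left units for finite sets. -/
def LU (I : Fam A Λ) : Prop :=
  ∀ (a : Λ) (T : Finset A), (∀ x ∈ T, ∃ b, x ∈ I a b) →
    ∃ e ∈ I a a, e * e = e ∧ ∀ x ∈ T, e * x = x

/-- `H'` is the localisation of `H` at the monoid `T`. -/
def IsLoc (H : Fam A Λ) (T : Submonoid A) (H' : Fam A Λ) : Prop :=
  ∀ a b x, x ∈ H' a b ↔ ∃ w ∈ T, w * x ∈ H a b

/-- The Grothendieck groups of the localisations vanish for fewer monoids. -/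
def NL (I : Fam A Λ) (S : ι → Submonoid A) (K : Finset ι) : Prop :=
  ∀ a ∈ K, ∃ I', IsLoc I (S a) I' ∧ ∀ K' : Finset ι, K' ⊆ K → a ∉ K' → NullAll I' S K'

/-- Multiplication by `w` is null-homotopic modulo `I`. -/
def NulMod (H I : Fam A Λ) (w : A) (X : Cx A Λ) : Prop :=
  ∃ h, Hm H 1 X.t X.t h ∧ Hm I 0 X.t X.t (w • X.p - (X.D * h + h * X.D))

/-- The double of `F` along `I`. -/
def dbl (F I : Fam A Λ) : Fam (A × A) Λ := fun a b =>
  { carrier := {x | x.1 ∈ F a b ∧ x.2 ∈ F a b ∧ x.2 - x.1 ∈ I a b}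
    zero_mem' := ⟨zero_mem _, zero_mem _, by simp⟩
    add_mem' := fun {x y} h h' => ⟨add_mem h.1 h'.1, add_mem h.2.1 h'.2.1, by
      have := add_mem h.2.2 h'.2.2
      rwa [← add_sub_add_comm] at this⟩
    neg_mem' := fun {x} h => ⟨neg_mem h.1, neg_mem h.2.1, by
      have := neg_mem h.2.2
      rwa [neg_sub'] at this⟩ }

/-- The diagonal monoids. -/
def dS (S : ι → Submonoid A) : ι → Submonoid (A × A) := fun a =>
  (S a).map ((RingHom.id A).prod (RingHom.id A))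

/-- Every complex is equivalent to a complex with the property `Fr`. -/
def Stdz (H : Fam A Λ) (Fr : Cx A Λ → Prop) : Prop :=
  ∀ X, Ok H X → ∃ Y, Ok H Y ∧ Fr Y ∧ HE H X Y

/-- The idempotent is diagonal with entries zero or one. -/
def Std (X : Cx A Λ) : Prop := (∀ i j, i ≠ j → X.p i j = 0) ∧ ∀ i, X.p i i = 1 ∨ X.p i i = 0

/-- Objects over `H` of size `L` with the property `Fr` have certificates over `H'` of
size `L'`. -/
def Qt (H H' : Fam A Λ) (S : ι → Submonoid A) (K : Finset ι) (Fr : Cx A Λ → Prop) (L L' : ℕ) :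
    Prop :=
  ∀ X, Obj H S K X → Bd L X → Fr X → Cert H' S K (Set.Icc (-(L' : ℤ)) L') X

end Pool.Agent.MP_f7db47_al.KN

end

section

/-!
Basic facts about matrices over labelled rings.
-/

namespace Pool.Agent.MP_f7db47_al.KN

open Matrix

universe v

variable {A : Type v} [Ring A] {Λ ι : Type} {H H' : Fam A Λ} {S : ι → Submonoid A}

/-- A central element that acts on `H`. -/
def Sc (H : Fam A Λ) (w : A) : Prop :=
  (∀ x, w * x = x * w) ∧ ∀ ⦃i j : Λ⦄ ⦃x : A⦄, x ∈ H i j → w * x ∈ H i j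

theorem Sc.one : Sc H 1 := ⟨fun x => by simp, fun _ _ _ h => by simpa using h⟩

theorem Sc.mul {w w' : A} (h : Sc H w) (h' : Sc H w') : Sc H (w * w') :=
  ⟨fun x => by rw [mul_assoc, h'.1, ← mul_assoc, h.1, mul_assoc],
    fun _ _ _ hx => by rw [mul_assoc]; exact h.2 (h'.2 hx)⟩

theorem Sc.pow {w : A} (h : Sc H w) (n : ℕ) : Sc H (w ^ n) := by
  induction n with
  | zero => simpa using Sc.one
  | succ n ih => rw [pow_succ]; exact ih.mul h

theorem Good.sc (h : Good H S) {a : ι} {w : A} (hw : w ∈ S a) : Sc H w :=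
  ⟨h.cen a w hw, h.stab a w hw⟩

theorem Gr.sc {𝓗 : ℕ → Fam A Λ} (h : Gr 𝓗 S) {a : ι} {w : A} (hw : w ∈ S a) (k : ℕ) :
    Sc (𝓗 k) w := ⟨h.cen a w hw, fun _ _ _ hx => h.stab a w hw hx⟩

theorem Good.gr (h : Good H S) : Gr (fun _ => H) S :=
  ⟨fun _ _ _ => le_rfl, fun _ _ _ _ _ _ _ hx hy => h.mul hx hy, h.cen,
    fun a w hw _ _ _ _ hx => h.stab a w hw hx⟩

theorem mul_smul_cen {I J K : Type} [Fintype J] {w : A} (hw : ∀ x, w * x = x * w)
    (M : Matrix I J A) (N : Matrix J K A) : M * (w • N) = w • (M * N) := by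
  ext i k
  simp only [Matrix.mul_apply, Matrix.smul_apply, smul_eq_mul, Finset.mul_sum]
  exact Finset.sum_congr rfl fun j _ => by rw [← mul_assoc, ← hw, mul_assoc]

section Hm

variable {d d' : ℤ} {I I' J J' K : Type} {s : I → Λ × ℤ} {s' : I' → Λ × ℤ} {t : J → Λ × ℤ}
  {t' : J' → Λ × ℤ} {u : K → Λ × ℤ} {f g : Matrix I J A}

theorem Hm.zero (s : I → Λ × ℤ) (t : J → Λ × ℤ) : Hm H d s t 0 :=
  fun _ _ => ⟨zero_mem _, fun h => absurd rfl h⟩

theorem Hm.add (h : Hm H d s t f) (h' : Hm H d s t g) : Hm H d s t (f + g) := fun i j =>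
  ⟨add_mem (h i j).1 (h' i j).1, fun e => by
    by_cases e1 : f i j = 0
    · exact (h' i j).2 fun e2 => e (by rw [Matrix.add_apply, e1, e2, add_zero])
    · exact (h i j).2 e1⟩

theorem Hm.neg (h : Hm H d s t f) : Hm H d s t (-f) := fun i j =>
  ⟨neg_mem (h i j).1, fun e => (h i j).2 fun e1 => e (by rw [Matrix.neg_apply, e1, neg_zero])⟩

theorem Hm.sub (h : Hm H d s t f) (h' : Hm H d s t g) : Hm H d s t (f - g) :=
  sub_eq_add_neg f g ▸ h.add h'.neg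

theorem Hm.sum {κ : Type*} (T : Finset κ) {F : κ → Matrix I J A}
    (h : ∀ x ∈ T, Hm H d s t (F x)) : Hm H d s t (∑ x ∈ T, F x) :=
  Finset.sum_induction _ _ (fun _ _ => Hm.add) (Hm.zero _ _) h

theorem Hm.mono (h : Hm H d s t f) (hH : H ≤ H') : Hm H' d s t f :=
  fun i j => ⟨hH _ _ (h i j).1, (h i j).2⟩

theorem Hm.smul {w : A} (hw : Sc H w) (h : Hm H d s t f) : Hm H d s t (w • f) := fun i j =>
  ⟨hw.2 (h i j).1, fun e => (h i j).2 fun e1 => e (by rw [Matrix.smul_apply, e1, smul_zero])⟩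

/-- Products, for three families. -/
theorem Hm.mul3 [Fintype J] {H₁ H₂ H₃ : Fam A Λ}
    (hm : ∀ ⦃a b c : Λ⦄ ⦃x y : A⦄, x ∈ H₁ a b → y ∈ H₂ b c → x * y ∈ H₃ a c) {e : ℤ}
    {g : Matrix J K A} (h : Hm H₁ d s t f) (h' : Hm H₂ d' t u g) (he : e = d + d') :
    Hm H₃ e s u (f * g) := fun i k => by
  rw [Matrix.mul_apply]
  refine ⟨sum_mem fun j _ => hm (h i j).1 (h' j k).1, fun e0 => ?_⟩
  obtain ⟨j, -, hj⟩ := Finset.exists_ne_zero_of_sum_ne_zero e0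
  have h1 := (h i j).2 (left_ne_zero_of_mul hj)
  have h2 := (h' j k).2 (right_ne_zero_of_mul hj)
  omega

theorem Hm.mul [Fintype J] (hH : LR H) {e : ℤ} {g : Matrix J K A} (h : Hm H d s t f)
    (h' : Hm H d' t u g) (he : e = d + d') : Hm H e s u (f * g) := Hm.mul3 hH h h' he

theorem Hm.mul_gr [Fintype J] {𝓗 : ℕ → Fam A Λ} (hH : Gr 𝓗 S) {k k' k'' : ℕ} {e : ℤ}
    {g : Matrix J K A} (h : Hm (𝓗 k) d s t f) (h' : Hm (𝓗 k') d' t u g) (he : e = d + d')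
    (hk : k + k' ≤ k'') : Hm (𝓗 k'') e s u (f * g) :=
  (Hm.mul3 (hH.mul (k := k) (k' := k')) h h' he).mono (hH.mono hk)

theorem Hm.blocks {a : Matrix I J A} {b : Matrix I J' A} {c : Matrix I' J A} {e : Matrix I' J' A}
    (ha : Hm H d s t a) (hb : Hm H d s t' b) (hc : Hm H d s' t c) (he : Hm H d s' t' e) :
    Hm H d (Sum.elim s s') (Sum.elim t t') (fromBlocks a b c e) := by
  rintro (i | i) (j | j)
  exacts [ha i j, hb i j, hc i j, he i j]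

theorem Hm.rows {a : Matrix I J A} {c : Matrix I' J A} (ha : Hm H d s t a) (hc : Hm H d s' t c) :
    Hm H d (Sum.elim s s') t (fromRows a c) := by
  rintro (i | i) j
  exacts [ha i j, hc i j]

theorem Hm.cols {a : Matrix I J A} {b : Matrix I J' A} (ha : Hm H d s t a) (hb : Hm H d s t' b) :
    Hm H d s (Sum.elim t t') (fromCols a b) := by
  rintro i (j | j)
  exacts [ha i j, hb i j]

theorem Hm.submatrix (h : Hm H d s t f) (e : I' → I) (e' : J' → J) :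
    Hm H d (fun i => s (e i)) (fun j => t (e' j)) (f.submatrix e e') := fun _ _ => h _ _

theorem Hm.b11 {M : Matrix (I ⊕ I') (J ⊕ J') A} (h : Hm H d (Sum.elim s s') (Sum.elim t t') M) :
    Hm H d s t M.toBlocks₁₁ := fun i j => h (.inl i) (.inl j)

theorem Hm.b12 {M : Matrix (I ⊕ I') (J ⊕ J') A} (h : Hm H d (Sum.elim s s') (Sum.elim t t') M) :
    Hm H d s t' M.toBlocks₁₂ := fun i j => h (.inl i) (.inr j)

theorem Hm.b21 {M : Matrix (I ⊕ I') (J ⊕ J') A} (h : Hm H d (Sum.elim s s') (Sum.elim t t') M) :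
    Hm H d s' t M.toBlocks₂₁ := fun i j => h (.inr i) (.inl j)

theorem Hm.b22 {M : Matrix (I ⊕ I') (J ⊕ J') A} (h : Hm H d (Sum.elim s s') (Sum.elim t t') M) :
    Hm H d s' t' M.toBlocks₂₂ := fun i j => h (.inr i) (.inr j)

/-- Shifting the degrees of source and target. -/
theorem Hm.shift (h : Hm H d s t f) (m n : ℤ) (he : d' = d + m - n) :
    Hm H d' (fun i => ((s i).1, (s i).2 + m)) (fun j => ((t j).1, (t j).2 + n)) f := fun i j =>
  ⟨(h i j).1, fun e => by have := (h i j).2 e; simp only; omega⟩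

theorem Hm.shift_right (h : Hm H d s t f) (n : ℤ) (he : d' = d - n) :
    Hm H d' s (fun j => ((t j).1, (t j).2 + n)) f := fun i j =>
  ⟨(h i j).1, fun e => by have := (h i j).2 e; simp only; omega⟩

theorem Hm.shift_left (h : Hm H d s t f) (m : ℤ) (he : d' = d + m) :
    Hm H d' (fun i => ((s i).1, (s i).2 + m)) t f := fun i j =>
  ⟨(h i j).1, fun e => by have := (h i j).2 e; simp only; omega⟩

theorem Hm.unshift {m n : ℤ}
    (h : Hm H d' (fun i => ((s i).1, (s i).2 + m)) (fun j => ((t j).1, (t j).2 + n)) f)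
    (he : d' = d + m - n) : Hm H d s t f := fun i j =>
  ⟨(h i j).1, fun e => by have := (h i j).2 e; simp only at this; omega⟩

open Classical in
/-- The projection to a set of indices. -/
noncomputable def ind (A : Type v) [Ring A] {J : Type} [DecidableEq J] (U : Set J) :
    Matrix J J A := diagonal fun j => if j ∈ U then 1 else 0

open Classical in
theorem ind_mul_apply [Fintype I] [DecidableEq I] (U : Set I) (f : Matrix I J A) (i : I) (j : J) :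
    (ind A U * f) i j = if i ∈ U then f i j else 0 := by
  rw [ind, diagonal_mul]
  split_ifs <;> simp

open Classical in
theorem mul_ind_apply [Fintype J] [DecidableEq J] (U : Set J) (f : Matrix I J A) (i : I) (j : J) :
    (f * ind A U) i j = if j ∈ U then f i j else 0 := by
  rw [ind, mul_diagonal]
  split_ifs <;> simp

theorem ind_mul_ind [Fintype I] [DecidableEq I] (U V : Set I) :
    ind A U * ind A V = ind A (U ∩ V) := by
  classical
  ext i j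
  rw [ind_mul_apply, ind, ind, diagonal_apply, diagonal_apply]
  by_cases h1 : i ∈ U <;> by_cases h2 : i ∈ V <;> simp [h1, h2]

theorem Hm.ind_mul [Fintype I] [DecidableEq I] (h : Hm H d s t f) (U : Set I) :
    Hm H d s t (ind A U * f) := fun i j => by
  rw [ind_mul_apply]
  split_ifs
  exacts [h i j, ⟨zero_mem _, fun e => absurd rfl e⟩]

theorem Hm.mul_ind [Fintype J] [DecidableEq J] (h : Hm H d s t f) (U : Set J) :
    Hm H d s t (f * ind A U) := fun i j => by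
  rw [mul_ind_apply]
  split_ifs
  exacts [h i j, ⟨zero_mem _, fun e => absurd rfl e⟩]

end Hm

variable {X Y : Cx A Λ} {K : Finset ι} {W W' : Set ℤ}

theorem Ok.ext {t : Matrix X.J Y.J A} (hX : Ok H X) (hY : Ok H Y) (ht : Tw H X Y t) :
    Ok H (X.ext Y t) where
  hp := Hm.blocks hX.hp (Hm.zero _ _) (Hm.zero _ _) hY.hp
  hD := Hm.blocks hX.hD ht.hm (Hm.zero _ _) hY.hD
  pp := by simp [fromBlocks_multiply, hX.pp, hY.pp]
  pD := by simp [fromBlocks_multiply, hX.pD, hY.pD, ht.pl]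
  Dp := by simp [fromBlocks_multiply, hX.Dp, hY.Dp, ht.pr]
  DD := by simp [fromBlocks_multiply, hX.DD, hY.DD, ht.cm]

theorem Mp.zero (d : ℤ) (X Y : Cx A Λ) : Mp H d X Y 0 :=
  ⟨Hm.zero _ _, Matrix.mul_zero _, Matrix.zero_mul _⟩

theorem Tw.zero (X Y : Cx A Λ) : Tw H X Y 0 := ⟨Mp.zero _ _ _, by simp⟩

theorem Ch.zero (X Y : Cx A Λ) : Ch H X Y 0 := ⟨Mp.zero _ _ _, by simp⟩

theorem Ok.sum (hX : Ok H X) (hY : Ok H Y) : Ok H (X.sum Y) := hX.ext hY (Tw.zero _ _)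

theorem Ok.sh (hX : Ok H X) (n : ℤ) : Ok H (X.sh n) where
  hp := hX.hp.shift n n (by omega)
  hD := hX.hD.neg.shift n n (by omega)
  pp := hX.pp
  pD := by simp [hX.pD]
  Dp := by simp [hX.Dp]
  DD := by simp [hX.DD]

theorem Ok.zero : Ok H (Cx.zero A Λ) :=
  ⟨Hm.zero _ _, Hm.zero _ _, by simp, by simp, by simp, by simp⟩

theorem Ch.tw {f : Matrix Y.J X.J A} (h : Ch H Y X f) : Tw H Y (X.sh 1) f :=
  ⟨⟨h.hm.shift_right 1 (by omega), h.pl, h.pr⟩, by simp [h.cm]⟩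

theorem Tw.ch {f : Matrix Y.J X.J A} (h : Tw H Y X f) : Ch H Y (X.sh (-1)) f :=
  ⟨⟨h.hm.shift_right (-1) (by omega), h.pl, h.pr⟩, by
    simpa [eq_neg_iff_add_eq_zero] using h.cm⟩

theorem Ok.cone {f : Matrix Y.J X.J A} (hY : Ok H Y) (hX : Ok H X) (h : Ch H Y X f) :
    Ok H (Y.cone X f) := hY.ext (hX.sh 1) h.tw

theorem Nul.sh {w : A} (h : Nul H w X) (n : ℤ) : Nul H w (X.sh n) := by
  obtain ⟨s, h1, h2⟩ := h
  exact ⟨-s, h1.neg.shift n n (by omega), by simpa using h2⟩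

theorem Obj.sh (h : Obj H S K X) (n : ℤ) : Obj H S K (X.sh n) :=
  ⟨h.ok.sh n, fun a ha => (h.tor a ha).imp fun _ c => ⟨c.1, c.2.sh n⟩⟩

theorem Nul.zero (w : A) : Nul H w (Cx.zero A Λ) := ⟨0, Hm.zero _ _, by simp⟩

theorem Obj.zero : Obj H S K (Cx.zero A Λ) :=
  ⟨Ok.zero, fun _ _ => ⟨1, one_mem _, Nul.zero _⟩⟩

theorem Nul.smul {w w' : A} (hw : Sc H w') (h : Nul H w X) : Nul H (w' * w) X := by
  obtain ⟨s, h1, h2⟩ := h
  exact ⟨w' • s, h1.smul hw, by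
    rw [mul_smul_cen hw.1, Matrix.smul_mul, ← smul_add, h2, smul_smul]⟩

theorem Nul.tor (h : Nul H 1 X) : Tor H S K X := fun _ _ => ⟨1, one_mem _, h⟩

theorem Ok.mono (h : Ok H X) (hH : H ≤ H') : Ok H' X :=
  ⟨h.hp.mono hH, h.hD.mono hH, h.pp, h.pD, h.Dp, h.DD⟩

theorem Mp.mono {d : ℤ} {f : Matrix Y.J X.J A} (h : Mp H d Y X f) (hH : H ≤ H') :
    Mp H' d Y X f := ⟨h.hm.mono hH, h.pl, h.pr⟩

theorem Ch.mono {f : Matrix Y.J X.J A} (h : Ch H Y X f) (hH : H ≤ H') : Ch H' Y X f :=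
  ⟨h.toMp.mono hH, h.cm⟩

theorem Tw.mono {f : Matrix Y.J X.J A} (h : Tw H Y X f) (hH : H ≤ H') : Tw H' Y X f :=
  ⟨h.toMp.mono hH, h.cm⟩

theorem Nul.mono {w : A} (h : Nul H w X) (hH : H ≤ H') : Nul H' w X :=
  h.imp fun _ c => ⟨c.1.mono hH, c.2⟩

theorem Tor.mono (h : Tor H S K X) (hH : H ≤ H') : Tor H' S K X :=
  fun a ha => (h a ha).imp fun _ c => ⟨c.1, c.2.mono hH⟩

theorem Obj.mono (h : Obj H S K X) (hH : H ≤ H') : Obj H' S K X := ⟨h.ok.mono hH, h.tor.mono hH⟩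

theorem Obj.anti {K' : Finset ι} (h : Obj H S K X) (hK : K' ⊆ K) : Obj H S K' X :=
  ⟨h.ok, fun a ha => h.tor a (hK ha)⟩

theorem HE.mono (h : HE H X Y) (hH : H ≤ H') : HE H' X Y := by
  obtain ⟨f, g, a, b, c⟩ := h
  exact ⟨f, g, a, b, c.hf.mono hH, c.hg.mono hH, c.hh.mono hH, c.hk.mono hH, c.gf, c.fg⟩

theorem Wd.mono (h : Wd W X) (hW : W ⊆ W') : Wd W' X := fun j => hW (h j)

theorem Wd.univ (X : Cx A Λ) : Wd Set.univ X := fun _ => trivial

theorem Wd.ext (h : Wd W X) (h' : Wd W Y) (t : Matrix X.J Y.J A) : Wd W (X.ext Y t) := by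
  rintro (j | j)
  exacts [h j, h' j]

theorem Wd.inW (h : Wd W X) : InW W X := fun i _ _ => h i

theorem exists_bd (X : Cx A Λ) : ∃ L : ℕ, Bd L X := by
  refine ⟨Finset.univ.sup fun j => (X.t j).2.natAbs, fun j => ?_⟩
  have : (X.t j).2.natAbs ≤ Finset.univ.sup fun j => (X.t j).2.natAbs :=
    Finset.le_sup (f := fun j => (X.t j).2.natAbs) (Finset.mem_univ j)
  constructor <;> omega

theorem Cert.mono (h : Cert H S K W X) (hH : H ≤ H') (hW : W ⊆ W') : Cert H' S K W' X := by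
  obtain ⟨P, Q, B, t, t', c, e, e'⟩ := h
  exact ⟨P, Q, B, t, t', ⟨c.oP.mono hH, c.oQ.mono hH, c.oB.mono hH, c.wP.mono hW, c.wQ.mono hW,
    c.wB.mono hW, c.ht.mono hH, c.ht'.mono hH⟩, e.mono hH, e'.mono hH⟩

end Pool.Agent.MP_f7db47_al.KN

end

section

/-!
Controlled families over twisted group rings with coefficients in a subring.
-/

namespace Pool.Agent.MP_f7db47_al.KN

open Matrix

universe v

section Lab

variable {A : Type v} [Ring A] {Λ Λ' ι : Type} {H : Fam A Λ} {H' : Fam A Λ'}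
  {S : ι → Submonoid A} {K : Finset ι} {π : Λ → Λ'} {X Y : Cx A Λ}

/-- The same complex with new labels. -/
@[reducible] def Cx.lab (X : Cx A Λ) (π : Λ → Λ') : Cx A Λ' where
  J := X.J
  t j := (π (X.t j).1, (X.t j).2)
  p := X.p
  D := X.D

theorem Hm.lab (hπ : ∀ ⦃a b x⦄, x ∈ H a b → x ∈ H' (π a) (π b)) {d : ℤ} {I J : Type}
    {s : I → Λ × ℤ} {t : J → Λ × ℤ} {f : Matrix I J A} (h : Hm H d s t f) :
    Hm H' d (fun i => (π (s i).1, (s i).2)) (fun j => (π (t j).1, (t j).2)) f :=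
  fun i j => ⟨hπ (h i j).1, (h i j).2⟩

theorem Ok.lab (hπ : ∀ ⦃a b x⦄, x ∈ H a b → x ∈ H' (π a) (π b)) (h : Ok H X) :
    Ok H' (X.lab π) := ⟨h.hp.lab hπ, h.hD.lab hπ, h.pp, h.pD, h.Dp, h.DD⟩

theorem Nul.lab (hπ : ∀ ⦃a b x⦄, x ∈ H a b → x ∈ H' (π a) (π b)) {w : A} (h : Nul H w X) :
    Nul H' w (X.lab π) := h.imp fun _ c => ⟨c.1.lab hπ, c.2⟩

theorem Obj.lab (hπ : ∀ ⦃a b x⦄, x ∈ H a b → x ∈ H' (π a) (π b)) (h : Obj H S K X) :
    Obj H' S K (X.lab π) :=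
  ⟨h.ok.lab hπ, fun a ha => (h.tor a ha).imp fun _ c => ⟨c.1, c.2.lab hπ⟩⟩

theorem Sub.lab (h : Sub X Y) (π : Λ → Λ') : Sub (X.lab π) (Y.lab π) := by
  obtain ⟨e, h1, h2, h3⟩ := h
  exact ⟨e, h1, fun i => by simp only [h2], h3⟩

end Lab

variable {R : Type v} [Ring R] {G : Type} [Group G] [MulSemiringAction G R] {ι Λ Λ' : Type}

/-- The elements with coefficients in `D` whose support is controlled by `r`. -/
def ctl (D : Subring R) (r : Λ → G → Λ → Prop) : Fam (SkewMonoidAlgebra R G) Λ := fun a b =>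
  { carrier := {x | ∀ g, x.coeff g ∈ D ∧ (x.coeff g ≠ 0 → r a g b)}
    zero_mem' := fun _ => ⟨zero_mem D, fun h => absurd rfl h⟩
    add_mem' := fun {x y} h h' g => by
      rw [SkewMonoidAlgebra.coeff_add, Finsupp.add_apply]
      refine ⟨add_mem (h g).1 (h' g).1, fun e => ?_⟩
      by_cases e1 : x.coeff g = 0
      · exact (h' g).2 fun e2 => e (by rw [e1, e2, add_zero])
      · exact (h g).2 e1
    neg_mem' := fun {x} h g => ⟨neg_mem (h g).1, fun e => (h g).2 fun e1 => e (by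
      rw [SkewMonoidAlgebra.coeff_neg, Finsupp.neg_apply, e1, neg_zero])⟩ }

theorem mem_ctl {D : Subring R} {r : Λ → G → Λ → Prop} {a b : Λ} {x : SkewMonoidAlgebra R G} :
    x ∈ ctl D r a b ↔ ∀ g, x.coeff g ∈ D ∧ (x.coeff g ≠ 0 → r a g b) := Iff.rfl

variable (G) in
/-- The twisted group ring of `D`, as a family with one label. -/
abbrev ful (D : Subring R) : Fam (SkewMonoidAlgebra R G) Unit := ctl D fun _ _ _ => True

theorem ctl_lab {D : Subring R} {r : Λ → G → Λ → Prop} {r' : Λ' → G → Λ' → Prop} {π : Λ' → Λ}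
    (h : ∀ a g b, r' a g b → r (π a) g (π b)) ⦃a b : Λ'⦄ ⦃x : SkewMonoidAlgebra R G⦄
    (hx : x ∈ ctl D r' a b) : x ∈ ctl D r (π a) (π b) :=
  fun g => ⟨(hx g).1, fun e => h _ _ _ ((hx g).2 e)⟩

theorem ctl_ful {D : Subring R} {r : Λ → G → Λ → Prop} ⦃a b : Λ⦄ ⦃x : SkewMonoidAlgebra R G⦄
    (hx : x ∈ ctl D r a b) : x ∈ ful G D ((fun _ => ()) a) ((fun _ => ()) b) :=
  fun g => ⟨(hx g).1, fun _ => trivial⟩

/-- An invariant subring that contains monoids of central scalars. -/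
structure Sca (D : Subring R) (S : ι → Submonoid (SkewMonoidAlgebra R G)) : Prop where
  inv : ∀ (g : G), ∀ x ∈ D, g • x ∈ D
  cen : Cen S
  sc : ∀ a, ∀ w ∈ S a, ∃ c ∈ D, w = SkewMonoidAlgebra.single 1 c

variable {D : Subring R} {S : ι → Submonoid (SkewMonoidAlgebra R G)} {K : Finset ι}

theorem ctl_mul (hD : ∀ (g : G), ∀ x ∈ D, g • x ∈ D) {r₁ r₂ r₃ : Λ → G → Λ → Prop}
    (h : ∀ a g b k c, r₁ a g b → r₂ b k c → r₃ a (g * k) c) ⦃a b c : Λ⦄
    ⦃x y : SkewMonoidAlgebra R G⦄ (hx : x ∈ ctl D r₁ a b) (hy : y ∈ ctl D r₂ b c) :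
    x * y ∈ ctl D r₃ a c := fun g => by
  rw [SkewMonoidAlgebra.coeff_mul_left, SkewMonoidAlgebra.sum_def']
  refine ⟨sum_mem fun k _ => mul_mem (hx k).1 (hD _ _ (hy _).1), fun e => ?_⟩
  obtain ⟨k, -, hk⟩ := Finset.exists_ne_zero_of_sum_ne_zero e
  have h1 := h _ _ _ _ _ ((hx k).2 (left_ne_zero_of_mul hk))
    ((hy (k⁻¹ * g)).2 fun e2 => hk (by rw [e2, smul_zero, mul_zero]))
  rwa [mul_inv_cancel_left] at h1

theorem Sca.stab (h : Sca D S) (r : Λ → G → Λ → Prop) (a : ι) (w : SkewMonoidAlgebra R G)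
    (hw : w ∈ S a) ⦃i j : Λ⦄ ⦃x : SkewMonoidAlgebra R G⦄ (hx : x ∈ ctl D r i j) :
    w * x ∈ ctl D r i j := fun g => by
  obtain ⟨c, hc, rfl⟩ := h.sc a w hw
  rw [SkewMonoidAlgebra.coeff_single_one_mul]
  exact ⟨mul_mem hc (hx g).1, fun e => (hx g).2 (right_ne_zero_of_mul e)⟩

theorem Sca.good (h : Sca D S) : Good (ful G D) S :=
  ⟨ctl_mul h.inv fun _ _ _ _ _ _ _ => trivial, h.cen, h.stab _⟩

variable (D S K) in
/-- All free objects with labels in `Λ`, control `r` and size at most `L` have trivial class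
over the twisted group ring of `D`. -/
def VV (Λ : Type) (r : Λ → G → Λ → Prop) (L : ℕ) : Prop :=
  ∀ X, Obj (ctl D r) S K X → Bd L X → Std X →
    Cert (ful G D) S K Set.univ (X.lab fun _ => ())

theorem VV.pull {r : Λ → G → Λ → Prop} {r' : Λ' → G → Λ' → Prop} {L L' : ℕ} (π : Λ' → Λ)
    (h : ∀ a g b, r' a g b → r (π a) g (π b)) (hL : L' ≤ L) (hV : VV D S K Λ r L) :
    VV D S K Λ' r' L' := fun X hX hB hS =>
  hV (X.lab π) (hX.lab (ctl_lab h))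
    (Wd.mono (X := X.lab π) hB (Set.Icc_subset_Icc (by omega) (by omega))) hS

end Pool.Agent.MP_f7db47_al.KN

end

section

/-!
Extension by zero and reindexing. No closure property of the family is needed.
-/

namespace Pool.Agent.MP_f7db47_al.KN

open Matrix

universe v w

variable {A : Type v} [Ring A] {Λ ι : Type} {H H' I I' : Fam A Λ} {S : ι → Submonoid A}
  {K K' : Finset ι} {W : Set ℤ} {X X' Y Y' Z : Cx A Λ} {w w' : A}

/-- The inclusion and the projection as matrices. -/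
structure a3_Em (H : Fam A Λ) (X' X : Cx A Λ) (E : Matrix X.J X'.J A) (R : Matrix X'.J X.J A) :
    Prop where
  RE : R * E = 1
  p : X.p = E * X'.p * R
  D : X.D = E * X'.D * R
  sm : ∀ (w : A) (M : Matrix X'.J X'.J A), E * (w • M) = w • (E * M)
  lE : ∀ {d : ℤ} {L : Type} {u : L → Λ × ℤ} {M : Matrix X'.J L A},
    Hm H d X'.t u M → Hm H d X.t u (E * M)
  lR : ∀ {d : ℤ} {L : Type} {u : L → Λ × ℤ} {M : Matrix X.J L A},
    Hm H d X.t u M → Hm H d X'.t u (R * M)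
  rE : ∀ {d : ℤ} {L : Type} {u : L → Λ × ℤ} {M : Matrix L X.J A},
    Hm H d u X.t M → Hm H d u X'.t (M * E)
  rR : ∀ {d : ℤ} {L : Type} {u : L → Λ × ℤ} {M : Matrix L X'.J A},
    Hm H d u X'.t M → Hm H d u X.t (M * R)

theorem a3_em (H : Fam A Λ) (h : Sub X' X) : ∃ E R, a3_Em H X' X E R := by
  obtain ⟨e, he, ht, hp, hD, sp, sD⟩ := h
  let E : Matrix X.J X'.J A := of fun i j => if i = e j then 1 else 0
  let R : Matrix X'.J X.J A := of fun i j => if j = e i then 1 else 0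
  have rE : ∀ {L : Type} (M : Matrix L X.J A) i j, (M * E) i j = M i (e j) := fun M i j => by
    simp [E, mul_apply]
  have lR : ∀ {L : Type} (M : Matrix X.J L A) i j, (R * M) i j = M (e i) j := fun M i j => by
    simp [R, mul_apply]
  have lE : ∀ {L : Type} (M : Matrix X'.J L A) i j, (E * M) (e i) j = M i j := fun M i j => by
    simp [E, mul_apply, he.eq_iff]
  have rR : ∀ {L : Type} (M : Matrix L X'.J A) i j, (M * R) i (e j) = M i j := fun M i j => by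
    simp [R, mul_apply, he.eq_iff]
  have lE0 : ∀ {L : Type} (M : Matrix X'.J L A) i j, i ∉ Set.range e → (E * M) i j = 0 :=
    fun M i j hi => Finset.sum_eq_zero fun k _ => by
      simp [E, show i ≠ e k from fun c => hi ⟨k, c.symm⟩]
  have rR0 : ∀ {L : Type} (M : Matrix L X'.J A) i j, j ∉ Set.range e → (M * R) i j = 0 :=
    fun M i j hi => Finset.sum_eq_zero fun k _ => by
      simp [R, show j ≠ e k from fun c => hi ⟨k, c.symm⟩]
  have key : ∀ M : Matrix X.J X.J A, (∀ i j, M i j ≠ 0 → i ∈ Set.range e ∧ j ∈ Set.range e) →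
      M = E * M.submatrix e e * R := fun M hM => by
    ext i j
    by_cases hj : j ∈ Set.range e
    · obtain ⟨b, rfl⟩ := hj
      rw [rR]
      by_cases hi : i ∈ Set.range e
      · obtain ⟨a, rfl⟩ := hi
        rw [lE, submatrix_apply]
      · rw [lE0 _ _ _ hi]
        exact by_contra fun c => hi (hM _ _ c).1
    · rw [rR0 _ _ _ hj]
      exact by_contra fun c => hj (hM _ _ c).2
  refine ⟨E, R, ?_, hp ▸ key _ sp, hD ▸ key _ sD, fun w M => ?_, fun hM i j => ?_,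
    fun hM i j => ?_, fun hM i j => ?_, fun hM i j => ?_⟩
  · ext i j
    simp [lR, E, he.eq_iff, one_apply]
  · ext i j
    by_cases hi : i ∈ Set.range e
    · obtain ⟨a, rfl⟩ := hi
      rw [lE, Matrix.smul_apply, Matrix.smul_apply, lE]
    · rw [lE0 _ _ _ hi, Matrix.smul_apply, lE0 _ _ _ hi, smul_zero]
  · by_cases hi : i ∈ Set.range e
    · obtain ⟨a, rfl⟩ := hi
      rw [lE, ← ht]
      exact hM a j
    · rw [lE0 _ _ _ hi]
      exact ⟨zero_mem _, fun c => absurd rfl c⟩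
  · rw [lR, ht]
    exact hM _ _
  · rw [rE, ht]
    exact hM _ _
  · by_cases hj : j ∈ Set.range e
    · obtain ⟨a, rfl⟩ := hj
      rw [rR, ← ht]
      exact hM i a
    · rw [rR0 _ _ _ hj]
      exact ⟨zero_mem _, fun c => absurd rfl c⟩

section
variable {E : Matrix X.J X'.J A} {R : Matrix X'.J X.J A} (c : a3_Em H X' X E R)
include c

theorem a3_Em.can {L : Type} (M : Matrix X'.J L A) : R * (E * M) = M := by
  rw [← Matrix.mul_assoc, c.RE, Matrix.one_mul]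

theorem a3_Em.sand (M : Matrix X'.J X'.J A) : R * (E * M * R) * E = M := by
  simp only [Matrix.mul_assoc, c.can, c.RE, Matrix.mul_one]

theorem a3_Em.pE : X.p * E = E * X'.p := by
  rw [c.p, Matrix.mul_assoc, c.RE, Matrix.mul_one]

theorem a3_Em.DE : X.D * E = E * X'.D := by
  rw [c.D, Matrix.mul_assoc, c.RE, Matrix.mul_one]

theorem a3_Em.Rp : R * X.p = X'.p * R := by rw [c.p, Matrix.mul_assoc E, c.can]

theorem a3_Em.RD : R * X.D = X'.D * R := by rw [c.D, Matrix.mul_assoc E, c.can]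

theorem a3_Em.up (h : Matrix X'.J X'.J A) :
    X.D * (E * h * R) + E * h * R * X.D = E * (X'.D * h + h * X'.D) * R := by
  rw [c.D]
  simp only [Matrix.mul_assoc, c.can, Matrix.mul_add, Matrix.add_mul]

theorem a3_Em.down (h : Matrix X.J X.J A) :
    X'.D * (R * h * E) + R * h * E * X'.D = R * (X.D * h + h * X.D) * E := by
  rw [c.D]
  simp only [Matrix.mul_assoc, c.can, c.RE, Matrix.mul_add, Matrix.add_mul, Matrix.mul_one]

theorem a3_Em.mul_iff {a b d : Matrix X'.J X'.J A} :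
    a * b = d ↔ E * a * R * (E * b * R) = E * d * R := by
  have e : E * a * R * (E * b * R) = E * (a * b) * R := by simp only [Matrix.mul_assoc, c.can]
  rw [e]
  exact ⟨fun h => by rw [h], fun h => by rw [← c.sand (a * b), h, c.sand]⟩

theorem a3_Em.hm_iff {d : ℤ} {a : Matrix X'.J X'.J A} :
    Hm H d X'.t X'.t a ↔ Hm H d X.t X.t (E * a * R) :=
  ⟨fun h => c.rR (c.lE h), fun h => c.sand a ▸ c.rE (c.lR h)⟩

end

theorem a3_symm (h : HE H X Y) : HE H Y X := by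
  obtain ⟨f, g, a, b, c⟩ := h
  exact ⟨g, f, b, a, c.hg, c.hf, c.hk, c.hh, c.fg, c.gf⟩

theorem Sub.refl (X : Cx A Λ) : Sub X X :=
  ⟨id, Function.injective_id, fun _ => rfl, rfl, rfl, fun i j _ => ⟨⟨i, rfl⟩, j, rfl⟩,
    fun i j _ => ⟨⟨i, rfl⟩, j, rfl⟩⟩

theorem Sub.trans (h : Sub X Y) (h' : Sub Y Z) : Sub X Z := by
  obtain ⟨e, he, ht, hp, hD, sp, sD⟩ := h
  obtain ⟨e', he', ht', hp', hD', sp', sD'⟩ := h'
  refine ⟨e' ∘ e, he'.comp he, fun i => (ht i).trans (ht' _), by rw [hp, hp']; rfl,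
    by rw [hD, hD']; rfl, fun i j c => ?_, fun i j c => ?_⟩
  · obtain ⟨⟨a, rfl⟩, b, rfl⟩ := sp' i j c
    obtain ⟨⟨a, rfl⟩, b, rfl⟩ := sp a b (by rw [hp']; exact c)
    exact ⟨⟨a, rfl⟩, b, rfl⟩
  · obtain ⟨⟨a, rfl⟩, b, rfl⟩ := sD' i j c
    obtain ⟨⟨a, rfl⟩, b, rfl⟩ := sD a b (by rw [hD']; exact c)
    exact ⟨⟨a, rfl⟩, b, rfl⟩

theorem Sub.of_equiv (e : X'.J ≃ X.J) (ht : ∀ i, X'.t i = X.t (e i))
    (hp : X'.p = X.p.submatrix e e) (hD : X'.D = X.D.submatrix e e) : Sub X' X ∧ Sub X X' :=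
  ⟨⟨e, e.injective, ht, hp, hD, fun i j _ => ⟨e.surjective i, e.surjective j⟩,
      fun i j _ => ⟨e.surjective i, e.surjective j⟩⟩,
    e.symm, e.symm.injective, fun i => by rw [ht, e.apply_symm_apply], by simp [hp], by simp [hD],
      fun i j _ => ⟨e.symm.surjective i, e.symm.surjective j⟩,
      fun i j _ => ⟨e.symm.surjective i, e.symm.surjective j⟩⟩

theorem Sub.ok_iff (h : Sub X' X) : Ok H X' ↔ Ok H X := by
  obtain ⟨E, R, c⟩ := a3_em H h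
  have z : E * (0 : Matrix X'.J X'.J A) * R = 0 := by simp
  constructor
  · intro o
    refine ⟨?_, ?_, ?_, ?_, ?_, ?_⟩ <;> simp only [c.p, c.D]
    exacts [c.hm_iff.1 o.hp, c.hm_iff.1 o.hD, c.mul_iff.1 o.pp, c.mul_iff.1 o.pD,
      c.mul_iff.1 o.Dp, (c.mul_iff.1 o.DD).trans z]
  · rintro ⟨a1, a2, a3, a4, a5, a6⟩
    simp only [c.p, c.D] at a1 a2 a3 a4 a5 a6
    exact ⟨c.hm_iff.2 a1, c.hm_iff.2 a2, c.mul_iff.2 a3, c.mul_iff.2 a4, c.mul_iff.2 a5,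
      c.mul_iff.2 (a6.trans z.symm)⟩

theorem Sub.nul_iff (h : Sub X' X) : Nul H w X' ↔ Nul H w X := by
  obtain ⟨E, R, c⟩ := a3_em H h
  have e : w • X.p = E * (w • X'.p) * R := by rw [c.sm, Matrix.smul_mul, ← c.p]
  constructor
  · rintro ⟨s, h1, h2⟩
    exact ⟨E * s * R, c.hm_iff.1 h1, by rw [c.up, h2, e]⟩
  · rintro ⟨s, h1, h2⟩
    exact ⟨R * s * E, c.rE (c.lR h1), by rw [c.down, h2, e, c.sand]⟩

theorem Sub.obj_iff (h : Sub X' X) : Obj H S K X' ↔ Obj H S K X :=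
  ⟨fun o => ⟨h.ok_iff.1 o.ok, fun a ha => (o.tor a ha).imp fun _ c => ⟨c.1, h.nul_iff.1 c.2⟩⟩,
    fun o => ⟨h.ok_iff.2 o.ok, fun a ha => (o.tor a ha).imp fun _ c => ⟨c.1, h.nul_iff.2 c.2⟩⟩⟩

theorem Sub.he_left (h : Sub X' X) : HE H X' Y ↔ HE H X Y := by
  obtain ⟨E, R, c⟩ := a3_em H h
  constructor
  · rintro ⟨f, g, s, k, hf, hg, hs, hk, gf, fg⟩
    refine ⟨f * R, E * g, E * s * R, k, ⟨⟨c.rR hf.hm, ?_, ?_⟩, ?_⟩, ⟨⟨c.lE hg.hm, ?_, ?_⟩, ?_⟩,
      c.hm_iff.1 hs, hk, ?_, ?_⟩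
    · rw [← Matrix.mul_assoc, hf.pl]
    · rw [Matrix.mul_assoc, c.Rp, ← Matrix.mul_assoc, hf.pr]
    · rw [← Matrix.mul_assoc, hf.cm, Matrix.mul_assoc, Matrix.mul_assoc, c.RD]
    · rw [← Matrix.mul_assoc, c.pE, Matrix.mul_assoc, hg.pl]
    · rw [Matrix.mul_assoc, hg.pr]
    · rw [← Matrix.mul_assoc, c.DE, Matrix.mul_assoc, Matrix.mul_assoc, hg.cm]
    · rw [c.up, c.p, ← gf]
      simp only [Matrix.mul_assoc, Matrix.mul_add, Matrix.add_mul]
    · rw [Matrix.mul_assoc, c.can, fg]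
  · rintro ⟨f, g, s, k, hf, hg, hs, hk, gf, fg⟩
    refine ⟨f * E, R * g, R * s * E, k, ⟨⟨c.rE hf.hm, ?_, ?_⟩, ?_⟩, ⟨⟨c.lR hg.hm, ?_, ?_⟩, ?_⟩,
      c.rE (c.lR hs), hk, ?_, ?_⟩
    · rw [← Matrix.mul_assoc, hf.pl]
    · rw [Matrix.mul_assoc, ← c.pE, ← Matrix.mul_assoc, hf.pr]
    · rw [← Matrix.mul_assoc, hf.cm, Matrix.mul_assoc, Matrix.mul_assoc, c.DE]
    · rw [← Matrix.mul_assoc, ← c.Rp, Matrix.mul_assoc, hg.pl]
    · rw [Matrix.mul_assoc, hg.pr]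
    · rw [← Matrix.mul_assoc, ← c.RD, Matrix.mul_assoc, Matrix.mul_assoc, hg.cm]
    · rw [c.down, ← c.sand X'.p, ← c.p, ← gf]
      simp only [Matrix.mul_assoc, Matrix.mul_add, Matrix.add_mul]
    · have e : E * (R * g) = g := by
        rw [← hg.pl, ← Matrix.mul_assoc R, c.Rp, c.p]
        simp only [Matrix.mul_assoc]
      rw [Matrix.mul_assoc, e, fg]

theorem Sub.he_right (h : Sub X' X) : HE H Y X' ↔ HE H Y X :=
  ⟨fun c => a3_symm (h.he_left.1 (a3_symm c)), fun c => a3_symm (h.he_left.2 (a3_symm c))⟩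

theorem Sub.he (h : Sub X' X) (hX : Ok H X) : HE H X' X :=
  have c : Ch H X X X.p := ⟨⟨hX.hp, hX.pp, hX.pp⟩, hX.Dp.trans hX.pD.symm⟩
  h.he_left.2 ⟨X.p, X.p, 0, 0, c, c, Hm.zero _ _, Hm.zero _ _, by simp [hX.pp], by simp [hX.pp]⟩

theorem Sub.sum (h : Sub X' X) (h' : Sub Y' Y) : Sub (X'.sum Y') (X.sum Y) := by
  obtain ⟨e, he, ht, hp, hD, sp, sD⟩ := h
  obtain ⟨e', he', ht', hp', hD', sp', sD'⟩ := h'
  have key : ∀ (M : Matrix X.J X.J A) (N : Matrix Y.J Y.J A),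
      (∀ i j, M i j ≠ 0 → i ∈ Set.range e ∧ j ∈ Set.range e) →
      (∀ i j, N i j ≠ 0 → i ∈ Set.range e' ∧ j ∈ Set.range e') → ∀ i j,
      fromBlocks M 0 0 N i j ≠ 0 →
        i ∈ Set.range (Sum.map e e') ∧ j ∈ Set.range (Sum.map e e') := by
    rintro M N hM hN (i | i) (j | j) c
    · obtain ⟨⟨a, rfl⟩, b, rfl⟩ := hM i j c
      exact ⟨⟨.inl a, rfl⟩, .inl b, rfl⟩
    · exact absurd rfl c
    · exact absurd rfl c
    · obtain ⟨⟨a, rfl⟩, b, rfl⟩ := hN i j c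
      exact ⟨⟨.inr a, rfl⟩, .inr b, rfl⟩
  refine ⟨Sum.map e e', he.sumMap he', ?_, ?_, ?_, key _ _ sp sp', key _ _ sD sD'⟩
  · rintro (i | i)
    exacts [ht i, ht' i]
  · simp only [hp, hp']
    ext (i | i) (j | j) <;> rfl
  · simp only [hD, hD']
    ext (i | i) (j | j) <;> rfl

theorem Sub.cert_iff (h : Sub X' X) : Cert H S K W X' ↔ Cert H S K W X :=
  ⟨fun ⟨P, Q, B, t, t', c, e, e'⟩ =>
      ⟨P, Q, B, t, t', c, (h.sum (Sub.refl B)).he_right.1 e, e'⟩,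
    fun ⟨P, Q, B, t, t', c, e, e'⟩ =>
      ⟨P, Q, B, t, t', c, (h.sum (Sub.refl B)).he_right.2 e, e'⟩⟩

theorem Sub.wd (h : Sub X' X) (hW : Wd W X) : Wd W X' := by
  obtain ⟨e, -, ht, -⟩ := h
  exact fun j => ht j ▸ hW (e j)

/-- Restriction to a set of indices that supports the idempotent. -/
theorem Sub.res (hX : Ok H X) (U : X.J → Prop) [DecidablePred U]
    (hU : ∀ i j, X.p i j ≠ 0 → U i ∧ U j) : Sub (X.res (Subtype.val : {j // U j} → X.J)) X := by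
  refine ⟨Subtype.val, Subtype.val_injective, fun _ => rfl, rfl, rfl, fun i j c =>
    ⟨⟨⟨i, (hU i j c).1⟩, rfl⟩, ⟨j, (hU i j c).2⟩, rfl⟩, fun i j c => ⟨⟨⟨i, ?_⟩, rfl⟩, ⟨j, ?_⟩, rfl⟩⟩
  · rw [← hX.pD, mul_apply] at c
    obtain ⟨k, -, hk⟩ := Finset.exists_ne_zero_of_sum_ne_zero c
    exact (hU _ _ (left_ne_zero_of_mul hk)).1
  · rw [← hX.Dp, mul_apply] at c
    obtain ⟨k, -, hk⟩ := Finset.exists_ne_zero_of_sum_ne_zero c
    exact (hU _ _ (right_ne_zero_of_mul hk)).2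

theorem trim (hX : Ok H X) (hW : InW W X) : ∃ X', Wd W X' ∧ Sub X' X := by
  classical
  refine ⟨X.res (Subtype.val : {j // (X.t j).2 ∈ W} → X.J), fun j => j.2,
    Sub.res hX (fun j => (X.t j).2 ∈ W) fun i j c => ⟨hW i j c, ?_⟩⟩
  have := (hX.hp i j).2 c
  rw [add_zero] at this
  exact this ▸ hW i j c

theorem Std.trim (hX : Ok H X) (h : Std X) : ∃ X', Sub X' X ∧ X'.p = 1 := by
  classical
  refine ⟨_, Sub.res hX (fun j => X.p j j = 1) fun i j c => ?_, ?_⟩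
  · obtain rfl : i = j := by_contra fun e => c (h.1 i j e)
    exact ⟨(h.2 i).resolve_right c, (h.2 i).resolve_right c⟩
  · ext i j
    by_cases e : i = j
    · rw [e, one_apply_eq]
      exact j.2
    · rw [one_apply_ne e]
      exact h.1 _ _ fun c => e (Subtype.ext c)

theorem Stdz.one (h : Stdz H Std) : Stdz H fun Y => Y.p = 1 := by
  intro X hX
  obtain ⟨Y, o, s, e⟩ := h X hX
  obtain ⟨Y', c, c'⟩ := s.trim o
  exact ⟨Y', c.ok_iff.2 o, c', c.he_right.2 e⟩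

theorem sub_sum_comm (X Y : Cx A Λ) : Sub (X.sum Y) (Y.sum X) :=
  (Sub.of_equiv (X' := X.sum Y) (X := Y.sum X) (Equiv.sumComm _ _) (by rintro (i | i) <;> rfl)
    (by ext (i | i) (j | j) <;> rfl) (by ext (i | i) (j | j) <;> rfl)).1

theorem sub_sum_assoc (X Y Z : Cx A Λ) :
    Sub ((X.sum Y).sum Z) (X.sum (Y.sum Z)) ∧ Sub (X.sum (Y.sum Z)) ((X.sum Y).sum Z) :=
  Sub.of_equiv (Equiv.sumAssoc _ _ _) (by rintro ((i | i) | i) <;> rfl)
    (by ext ((i | i) | i) ((j | j) | j) <;> rfl) (by ext ((i | i) | i) ((j | j) | j) <;> rfl)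

theorem sub_zero_sum (X : Cx A Λ) : Sub X ((Cx.zero A Λ).sum X) ∧ Sub X (X.sum (Cx.zero A Λ)) :=
  ⟨(Sub.of_equiv (X := (Cx.zero A Λ).sum X) (Equiv.emptySum Empty _).symm (fun _ => rfl) rfl
      rfl).1,
    (Sub.of_equiv (X := X.sum (Cx.zero A Λ)) (Equiv.sumEmpty _ Empty).symm (fun _ => rfl) rfl
      rfl).1⟩

theorem sub_sh_sh (X : Cx A Λ) (n : ℤ) : Sub X ((X.sh n).sh (-n)) :=
  (Sub.of_equiv (X' := X) (X := (X.sh n).sh (-n)) (Equiv.refl X.J) (fun _ => by simp) rfl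
    (by simp)).1

theorem sub_ext_assoc (t : Matrix X.J Y.J A) (a : Matrix X.J Z.J A) (b : Matrix Y.J Z.J A) :
    Sub ((X.ext Y t).ext Z (fromRows a b)) (X.ext (Y.ext Z b) (fromCols t a)) ∧
    Sub (X.ext (Y.ext Z b) (fromCols t a)) ((X.ext Y t).ext Z (fromRows a b)) :=
  Sub.of_equiv (Equiv.sumAssoc _ _ _) (by rintro ((i | i) | i) <;> rfl)
    (by ext ((i | i) | i) ((j | j) | j) <;> rfl) (by ext ((i | i) | i) ((j | j) | j) <;> rfl)

theorem sub_ext_sum (t : Matrix X.J Y.J A) (t' : Matrix X'.J Y'.J A) :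
    Sub ((X.sum X').ext (Y.sum Y') (fromBlocks t 0 0 t')) ((X.ext Y t).sum (X'.ext Y' t')) :=
  (Sub.of_equiv (X' := (X.sum X').ext (Y.sum Y') (fromBlocks t 0 0 t'))
    (X := (X.ext Y t).sum (X'.ext Y' t')) (Equiv.sumSumSumComm _ _ _ _)
    (by rintro ((i | i) | (i | i)) <;> rfl)
    (by ext ((i | i) | (i | i)) ((j | j) | (j | j)) <;> rfl)
    (by ext ((i | i) | (i | i)) ((j | j) | (j | j)) <;> rfl)).1

theorem a3_rows {t : Matrix X.J Y.J A} {a : Matrix X.J Z.J A} {b : Matrix Y.J Z.J A} :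
    Tw H (X.ext Y t) Z (fromRows a b) ↔
      (Mp H (-1) X Z a ∧ X.D * a + t * b + a * Z.D = 0) ∧ Tw H Y Z b := by
  have z : (0 : Matrix (X.J ⊕ Y.J) Z.J A) = fromRows 0 0 := fromRows_zero.symm
  have ad : ∀ (a a' : Matrix X.J Z.J A) (b b' : Matrix Y.J Z.J A),
      fromRows a b + fromRows a' b' = fromRows (a + a') (b + b') := fun _ _ _ _ => by
    ext (i | i) j <;> rfl
  constructor
  · rintro ⟨⟨h1, h2, h3⟩, h4⟩
    simp only [fromBlocks_mul_fromRows, fromRows_mul, ad, z, fromRows_ext_iff, Matrix.zero_mul,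
      add_zero, zero_add] at h2 h3 h4
    exact ⟨⟨⟨fun i j => h1 (.inl i) j, h2.1, h3.1⟩, h4.1⟩,
      ⟨fun i j => h1 (.inr i) j, h2.2, h3.2⟩, h4.2⟩
  · rintro ⟨⟨h1, h2⟩, h3⟩
    refine ⟨⟨h1.hm.rows h3.hm, ?_, ?_⟩, ?_⟩ <;>
      simp only [fromBlocks_mul_fromRows, fromRows_mul, ad, z, fromRows_ext_iff, Matrix.zero_mul,
        add_zero, zero_add]
    exacts [⟨h1.pl, h3.pl⟩, ⟨h1.pr, h3.pr⟩, ⟨h2, h3.cm⟩]

theorem a3_cols {t : Matrix X.J Y.J A} {a : Matrix X.J Z.J A} {b : Matrix Y.J Z.J A} :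
    Tw H X (Y.ext Z b) (fromCols t a) ↔
      (Mp H (-1) X Z a ∧ X.D * a + t * b + a * Z.D = 0) ∧ Tw H X Y t := by
  have z : (0 : Matrix X.J (Y.J ⊕ Z.J) A) = fromCols 0 0 := fromCols_zero.symm
  have ad : ∀ (a a' : Matrix X.J Y.J A) (b b' : Matrix X.J Z.J A),
      fromCols a b + fromCols a' b' = fromCols (a + a') (b + b') := fun _ _ _ _ => by
    ext i (j | j) <;> rfl
  constructor
  · rintro ⟨⟨h1, h2, h3⟩, h4⟩
    simp only [fromCols_mul_fromBlocks, mul_fromCols, ad, z, fromCols_ext_iff, Matrix.mul_zero,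
      add_zero, zero_add, ← add_assoc] at h2 h3 h4
    exact ⟨⟨⟨fun i j => h1 i (.inr j), h2.2, h3.2⟩, h4.2⟩,
      ⟨fun i j => h1 i (.inl j), h2.1, h3.1⟩, h4.1⟩
  · rintro ⟨⟨h1, h2⟩, h3⟩
    refine ⟨⟨h3.hm.cols h1.hm, ?_, ?_⟩, ?_⟩ <;>
      simp only [fromCols_mul_fromBlocks, mul_fromCols, ad, z, fromCols_ext_iff, Matrix.mul_zero,
        add_zero, zero_add, ← add_assoc]
    exacts [⟨h3.pl, h1.pl⟩, ⟨h3.pr, h1.pr⟩, ⟨h3.cm, h2⟩]

theorem tw_rows {t : Matrix X.J Y.J A} {a : Matrix X.J Z.J A} {b : Matrix Y.J Z.J A}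
    (ht : Tw H X Y t) (h : Tw H (X.ext Y t) Z (fromRows a b)) :
    Tw H Y Z b ∧ Tw H X (Y.ext Z b) (fromCols t a) :=
  ⟨(a3_rows.1 h).2, a3_cols.2 ⟨(a3_rows.1 h).1, ht⟩⟩

theorem tw_cols {t : Matrix X.J Y.J A} {a : Matrix X.J Z.J A} {b : Matrix Y.J Z.J A}
    (hb : Tw H Y Z b) (h : Tw H X (Y.ext Z b) (fromCols t a)) :
    Tw H X Y t ∧ Tw H (X.ext Y t) Z (fromRows a b) :=
  ⟨(a3_cols.1 h).2, a3_rows.2 ⟨(a3_cols.1 h).1, hb⟩⟩

theorem tw_sum {t : Matrix X.J Y.J A} {t' : Matrix X'.J Y'.J A} (h : Tw H X Y t)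
    (h' : Tw H X' Y' t') : Tw H (X.sum X') (Y.sum Y') (fromBlocks t 0 0 t') :=
  ⟨⟨Hm.blocks h.hm (Hm.zero _ _) (Hm.zero _ _) h'.hm, by simp [fromBlocks_multiply, h.pl, h'.pl],
    by simp [fromBlocks_multiply, h.pr, h'.pr]⟩,
    by simp [fromBlocks_multiply, fromBlocks_add, h.cm, h'.cm]⟩

end Pool.Agent.MP_f7db47_al.KN

end

section

/-!
Homotopy equivalences.
-/

namespace Pool.Agent.MP_f7db47_al.KN

open Matrix

universe v w

variable {A : Type v} [Ring A] {Λ ι : Type} {H H' I I' : Fam A Λ} {S : ι → Submonoid A}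
  {K K' : Finset ι} {W : Set ℤ} {X X' Y Y' Z : Cx A Λ} {w w' : A}

theorem a2_mp {H₁ H₂ H₃ : Fam A Λ}
    (hm : ∀ ⦃a b c : Λ⦄ ⦃x y : A⦄, x ∈ H₁ a b → y ∈ H₂ b c → x * y ∈ H₃ a c) {d d' e : ℤ}
    {g : Matrix Z.J Y.J A} {f : Matrix Y.J X.J A} (hg : Mp H₁ d Z Y g) (hf : Mp H₂ d' Y X f)
    (he : e = d + d') : Mp H₃ e Z X (g * f) :=
  ⟨Hm.mul3 hm hg.hm hf.hm he, by rw [← Matrix.mul_assoc, hg.pl], by rw [Matrix.mul_assoc, hf.pr]⟩

theorem a2_ch {H₁ H₂ H₃ : Fam A Λ}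
    (hm : ∀ ⦃a b c : Λ⦄ ⦃x y : A⦄, x ∈ H₁ a b → y ∈ H₂ b c → x * y ∈ H₃ a c)
    {g : Matrix Z.J Y.J A} {f : Matrix Y.J X.J A} (hg : Ch H₁ Z Y g) (hf : Ch H₂ Y X f) :
    Ch H₃ Z X (g * f) :=
  ⟨a2_mp hm hg.toMp hf.toMp (by omega), by
    rw [← Matrix.mul_assoc, hg.cm, Matrix.mul_assoc, hf.cm, Matrix.mul_assoc]⟩

theorem a2_smul (hw : Sc H w) {d : ℤ} {f : Matrix Y.J X.J A} (hf : Mp H d Y X f) :
    Mp H d Y X (w • f) :=
  ⟨hf.hm.smul hw, by rw [mul_smul_cen hw.1, hf.pl], by rw [Matrix.smul_mul, hf.pr]⟩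

/-- The boundary of a conjugated homotopy. -/
theorem a2_conj {g : Matrix Z.J Y.J A} {s : Matrix Y.J Y'.J A} {f : Matrix Y'.J X.J A}
    (hg : Z.D * g = g * Y.D) (hf : Y'.D * f = f * X.D) :
    Z.D * (g * s * f) + g * s * f * X.D = g * (Y.D * s + s * Y'.D) * f := by
  rw [Matrix.mul_add, Matrix.add_mul, Matrix.mul_assoc (g * s), ← hf, ← Matrix.mul_assoc Z.D,
    ← Matrix.mul_assoc Z.D, hg]
  simp only [Matrix.mul_assoc]

theorem a2_half {f : Matrix Y.J X.J A} {g : Matrix X.J Y.J A} {f' : Matrix Z.J Y.J A}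
    {g' : Matrix Y.J Z.J A} {h : Matrix X.J X.J A} {h' : Matrix Y.J Y.J A}
    (hf : Y.D * f = f * X.D) (hg : X.D * g = g * Y.D) (hp : g * Y.p = g)
    (e : g * f + (X.D * h + h * X.D) = X.p) (e' : g' * f' + (Y.D * h' + h' * Y.D) = Y.p) :
    g * g' * (f' * f) + (X.D * (h + g * h' * f) + (h + g * h' * f) * X.D) = X.p := by
  have e1 := a2_conj (s := h') hg hf
  have e2 : g * g' * (f' * f) + g * (Y.D * h' + h' * Y.D) * f = g * f := by
    rw [← Matrix.mul_assoc (g * g'), Matrix.mul_assoc g g', ← Matrix.add_mul, ← Matrix.mul_add, e',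
      hp]
  rw [Matrix.mul_add, Matrix.add_mul, ← e, ← e2, ← e1]
  abel

theorem a2_blk {f : Matrix Y.J X.J A} {f' : Matrix Y'.J X'.J A} (hf : Ch H Y X f)
    (hf' : Ch H Y' X' f') : Ch H (Y.sum Y') (X.sum X') (fromBlocks f 0 0 f') :=
  ⟨⟨Hm.blocks hf.hm (Hm.zero _ _) (Hm.zero _ _) hf'.hm,
    by simp [fromBlocks_multiply, hf.pl, hf'.pl], by simp [fromBlocks_multiply, hf.pr, hf'.pr]⟩,
    by simp [fromBlocks_multiply, hf.cm, hf'.cm]⟩

theorem a2_sum (h : HE H X Y) (h' : HE H X' Y') : HE H (X.sum X') (Y.sum Y') := by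
  obtain ⟨f, g, a, b, c⟩ := h
  obtain ⟨f', g', a', b', c'⟩ := h'
  exact ⟨_, _, fromBlocks a 0 0 a', fromBlocks b 0 0 b', a2_blk c.hf c'.hf, a2_blk c.hg c'.hg,
    Hm.blocks c.hh (Hm.zero _ _) (Hm.zero _ _) c'.hh,
    Hm.blocks c.hk (Hm.zero _ _) (Hm.zero _ _) c'.hk,
    by simp [fromBlocks_multiply, fromBlocks_add, c.gf, c'.gf],
    by simp [fromBlocks_multiply, fromBlocks_add, c.fg, c'.fg]⟩

theorem a2_sh {f : Matrix Y.J X.J A} (hf : Ch H Y X f) (n : ℤ) : Ch H (Y.sh n) (X.sh n) f :=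
  ⟨⟨hf.hm.shift n n (by omega), hf.pl, hf.pr⟩, by simp [hf.cm]⟩

theorem Ch.id (h : Ok H X) : Ch H X X X.p := ⟨⟨h.hp, h.pp, h.pp⟩, h.Dp.trans h.pD.symm⟩

theorem Mp.comp (hH : LR H) {d d' e : ℤ} {g : Matrix Z.J Y.J A} {f : Matrix Y.J X.J A}
    (hg : Mp H d Z Y g) (hf : Mp H d' Y X f) (he : e = d + d') : Mp H e Z X (g * f) :=
  a2_mp hH hg hf he

theorem Ch.comp (hH : LR H) {g : Matrix Z.J Y.J A} {f : Matrix Y.J X.J A} (hg : Ch H Z Y g)
    (hf : Ch H Y X f) : Ch H Z X (g * f) := a2_ch hH hg hf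

theorem Ch.smul (hw : Sc H w) {f : Matrix Y.J X.J A} (hf : Ch H Y X f) : Ch H Y X (w • f) :=
  ⟨a2_smul hw hf.toMp, by rw [mul_smul_cen hw.1, Matrix.smul_mul, hf.cm]⟩

theorem Tw.smul (hw : Sc H w) {f : Matrix Y.J X.J A} (hf : Tw H Y X f) : Tw H Y X (w • f) :=
  ⟨a2_smul hw hf.toMp, by rw [mul_smul_cen hw.1, Matrix.smul_mul, ← smul_add, hf.cm, smul_zero]⟩

theorem Tw.comp_left (hH : LR H) {f : Matrix X'.J X.J A} {t : Matrix X.J Y.J A}
    (hf : Ch H X' X f) (ht : Tw H X Y t) : Tw H X' Y (f * t) :=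
  ⟨a2_mp hH hf.toMp ht.toMp (by omega), by
    rw [← Matrix.mul_assoc, hf.cm, Matrix.mul_assoc, Matrix.mul_assoc, ← Matrix.mul_add, ht.cm,
      Matrix.mul_zero]⟩

theorem Tw.comp_right (hH : LR H) {g : Matrix Y.J Y'.J A} {t : Matrix X.J Y.J A}
    (ht : Tw H X Y t) (hg : Ch H Y Y' g) : Tw H X Y' (t * g) :=
  ⟨a2_mp hH ht.toMp hg.toMp (by omega), by
    rw [Matrix.mul_assoc, ← hg.cm, ← Matrix.mul_assoc, ← Matrix.mul_assoc, ← Matrix.add_mul, ht.cm,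
      Matrix.zero_mul]⟩

theorem HE.of_iso {f : Matrix Y.J X.J A} {g : Matrix X.J Y.J A} (hf : Ch H Y X f)
    (hg : Ch H X Y g) (h1 : g * f = X.p) (h2 : f * g = Y.p) : HE H X Y :=
  ⟨f, g, 0, 0, hf, hg, Hm.zero _ _, Hm.zero _ _, by simp [h1], by simp [h2]⟩

theorem HE.refl (h : Ok H X) : HE H X X := HE.of_iso (Ch.id h) (Ch.id h) h.pp h.pp

theorem HE.symm (h : HE H X Y) : HE H Y X := by
  obtain ⟨f, g, a, b, c⟩ := h
  exact ⟨g, f, b, a, c.hg, c.hf, c.hk, c.hh, c.fg, c.gf⟩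

theorem HE.trans_gr {𝓗 : ℕ → Fam A Λ} (hH : Gr 𝓗 S) {k : ℕ} (h : HE (𝓗 k) X Y)
    (h' : HE (𝓗 k) Y Z) : HE (𝓗 (3 * k)) X Z := by
  obtain ⟨f, g, a, b, c⟩ := h
  obtain ⟨f', g', a', b', c'⟩ := h'
  have m1 : 𝓗 k ≤ 𝓗 (3 * k) := hH.mono (by omega)
  have m2 : 𝓗 (k + k) ≤ 𝓗 (3 * k) := hH.mono (by omega)
  have m3 : 𝓗 (k + k + k) ≤ 𝓗 (3 * k) := hH.mono (by omega)
  exact ⟨f' * f, g * g', a + g * a' * f, b' + f' * b * g',
    (a2_ch (@hH.mul k k) c'.hf c.hf).mono m2, (a2_ch (@hH.mul k k) c.hg c'.hg).mono m2,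
    (c.hh.mono m1).add ((Hm.mul3 (@hH.mul (k + k) k)
      (Hm.mul3 (@hH.mul k k) c.hg.hm c'.hh rfl) c.hf.hm (by omega)).mono m3),
    (c'.hk.mono m1).add ((Hm.mul3 (@hH.mul (k + k) k)
      (Hm.mul3 (@hH.mul k k) c'.hf.hm c.hk rfl) c'.hg.hm (by omega)).mono m3),
    a2_half c.hf.cm c.hg.cm c.hg.pr c.gf c'.gf, a2_half c'.hg.cm c'.hf.cm c'.hf.pr c'.fg c.fg⟩

theorem HE.trans (hH : LR H) (h : HE H X Y) (h' : HE H Y Z) : HE H X Z :=
  HE.trans_gr (𝓗 := fun _ => H) (S := fun a : Empty => a.elim) (k := 0)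
    ⟨fun _ _ _ => le_rfl, fun _ _ _ _ _ _ _ hx hy => hH hx hy, fun a => a.elim,
      fun a => a.elim⟩ h h'

/-- A chain map with a left and a right homotopy inverse. -/
theorem HE.of_lr (hH : LR H) {f : Matrix Y.J X.J A} {g g' : Matrix X.J Y.J A}
    {h : Matrix X.J X.J A} {k : Matrix Y.J Y.J A} (hf : Ch H Y X f) (hg : Ch H X Y g)
    (hg' : Ch H X Y g') (hh : Hm H 1 X.t X.t h) (hk : Hm H 1 Y.t Y.t k)
    (h1 : g * f + (X.D * h + h * X.D) = X.p) (h2 : f * g' + (Y.D * k + k * Y.D) = Y.p) :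
    ∃ k', HEd H X Y f g h k' := by
  refine ⟨k + f * h * g' - f * g * k, hf, hg, hh, (hk.add (Hm.mul3 hH
    (Hm.mul3 hH hf.hm hh rfl) hg'.hm (by omega))).sub (Hm.mul3 hH
      (Hm.mul3 hH hf.hm hg.hm rfl) hk (by omega)), h1, ?_⟩
  have e1 := a2_conj (s := h) hf.cm hg'.cm
  have e2 : Y.D * (f * g * k) + f * g * k * Y.D = f * g * (Y.D * k + k * Y.D) := by
    rw [← Matrix.mul_assoc, (hf.comp hH hg).cm, Matrix.mul_add]
    simp only [Matrix.mul_assoc]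
  rw [eq_sub_of_add_eq' h1, Matrix.mul_sub, Matrix.sub_mul, hf.pr] at e1
  rw [eq_sub_of_add_eq' h2, Matrix.mul_sub, (hf.comp hH hg).pr] at e2
  have e3 : f * g * (f * g') = f * (g * f) * g' := by simp only [Matrix.mul_assoc]
  rw [Matrix.mul_sub, Matrix.sub_mul, Matrix.mul_add, Matrix.add_mul, ← h2,
    eq_sub_of_add_eq e1, eq_sub_of_add_eq e2, e3]
  abel

theorem Nul.he (hH : LR H) (hw : Sc H w) (h : Nul H w X) (e : HE H X Y) : Nul H w Y := by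
  obtain ⟨s, h1, h2⟩ := h
  obtain ⟨f, g, a, b, c⟩ := e
  refine ⟨f * s * g + w • b, (Hm.mul3 hH (Hm.mul3 hH c.hf.hm h1 rfl) c.hg.hm (by omega)).add
    (c.hk.smul hw), ?_⟩
  have e1 := a2_conj (s := s) c.hf.cm c.hg.cm
  rw [h2, mul_smul_cen hw.1, c.hf.pr, Matrix.smul_mul] at e1
  rw [Matrix.mul_add, Matrix.add_mul, mul_smul_cen hw.1, Matrix.smul_mul, ← c.fg, smul_add,
    smul_add, ← e1]
  abel

theorem Obj.he (hH : Good H S) (h : Obj H S K X) (hY : Ok H Y) (e : HE H X Y) : Obj H S K Y :=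
  ⟨hY, fun a ha => (h.tor a ha).imp fun _ c => ⟨c.1, c.2.he hH.mul (hH.sc c.1) e⟩⟩

/-- The homotopy can be chosen compatible with the idempotent. -/
theorem Nul.sand (hH : LR H) (hX : Ok H X) (hw : ∀ x, w * x = x * w) (h : Nul H w X) :
    ∃ s, Mp H 1 X X s ∧ X.D * s + s * X.D = w • X.p := by
  obtain ⟨s, h1, h2⟩ := h
  refine ⟨X.p * s * X.p, ⟨Hm.mul3 hH (Hm.mul3 hH hX.hp h1 rfl) hX.hp (by omega), ?_, ?_⟩, ?_⟩
  · rw [← Matrix.mul_assoc, ← Matrix.mul_assoc, hX.pp]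
  · rw [Matrix.mul_assoc, hX.pp]
  · rw [a2_conj (Ch.id hX).cm (Ch.id hX).cm, h2, mul_smul_cen hw, hX.pp, Matrix.smul_mul, hX.pp]

theorem Nul.he_zero (h : Nul H 1 X) : HE H X (Cx.zero A Λ) := by
  obtain ⟨s, h1, h2⟩ := h
  exact ⟨0, 0, s, 0, Ch.zero _ _, Ch.zero _ _, h1, Hm.zero _ _, by simpa using h2, by simp⟩

theorem HE.nul_of_zero (h : HE H X (Cx.zero A Λ)) : Nul H 1 X := by
  obtain ⟨f, g, a, b, c⟩ := h
  refine ⟨a, c.hh, ?_⟩
  have e : g * f = 0 := by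
    ext i j
    simp [Matrix.mul_apply]
  have := c.gf
  rwa [e, zero_add, ← one_smul A X.p] at this

theorem HE.sh (h : HE H X Y) (n : ℤ) : HE H (X.sh n) (Y.sh n) := by
  obtain ⟨f, g, a, b, c⟩ := h
  exact ⟨f, g, -a, -b, a2_sh c.hf n, a2_sh c.hg n, c.hh.neg.shift n n (by omega),
    c.hk.neg.shift n n (by omega), by simpa using c.gf, by simpa using c.fg⟩

theorem HE.sum_left (h : HE H X Y) (hZ : Ok H Z) : HE H (X.sum Z) (Y.sum Z) :=
  a2_sum h (HE.refl hZ)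

theorem HE.sum_right (h : HE H X Y) (hZ : Ok H Z) : HE H (Z.sum X) (Z.sum Y) :=
  a2_sum (HE.refl hZ) h

theorem HE.sum (h : HE H X Y) (h' : HE H X' Y') : HE H (X.sum X') (Y.sum Y') := a2_sum h h'

end Pool.Agent.MP_f7db47_al.KN

end

section

/-!
Extensions: two out of three.
-/

namespace Pool.Agent.MP_f7db47_al.KN

open Matrix

universe v w

variable {A : Type v} [Ring A] {Λ ι : Type} {H H' I I' : Fam A Λ} {S : ι → Submonoid A}
  {K K' : Finset ι} {W : Set ℤ} {X X' Y Y' Z : Cx A Λ} {w w' : A}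

variable {t : Matrix X.J Y.J A}

theorem a4_neg (ht : Tw H X Y t) : X.D * t = -(t * Y.D) := eq_neg_of_add_eq_zero_left ht.cm

theorem Nul.ext (hH : LR H) (hw : Sc H w) (hw' : Sc H w') (ht : Tw H X Y t) (h : Nul H w X)
    (h' : Nul H w' Y) : Nul H (w * w') (X.ext Y t) := by
  obtain ⟨a, a1, a2⟩ := h
  obtain ⟨b, b1, b2⟩ := h'
  refine ⟨fromBlocks (w' • a) (-(a * t * b)) 0 (w • b), Hm.blocks (a1.smul hw')
    (((a1.mul hH ht.hm (e := 0) (by omega)).mul hH b1 (by omega)).neg) (Hm.zero _ _)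
    (b1.smul hw), ?_⟩
  have e1 : X.D * a = w • X.p - a * X.D := eq_sub_of_add_eq a2
  have e2 : b * Y.D = w' • Y.p - Y.D * b := eq_sub_of_add_eq' b2
  have e3 : X.D * (a * t * b) = w • (t * b) + a * t * Y.D * b := by
    rw [← Matrix.mul_assoc, ← Matrix.mul_assoc, e1, Matrix.sub_mul, Matrix.sub_mul,
      Matrix.smul_mul, Matrix.smul_mul, ht.pl, Matrix.mul_assoc a X.D t, a4_neg ht]
    simp [Matrix.mul_assoc]
  have e4 : a * t * b * Y.D = w' • (a * t) - a * t * Y.D * b := by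
    rw [Matrix.mul_assoc (a * t) b, e2, Matrix.mul_sub, mul_smul_cen hw'.1,
      Matrix.mul_assoc a t Y.p, ht.pr]
    simp [Matrix.mul_assoc]
  simp only [fromBlocks_multiply, fromBlocks_add, fromBlocks_smul, fromBlocks_inj]
  refine ⟨?_, ?_, by simp, ?_⟩
  · rw [mul_smul_cen hw'.1, Matrix.smul_mul, Matrix.mul_zero, Matrix.mul_zero, add_zero, add_zero,
      ← smul_add, a2, smul_smul, hw.1]
  · rw [Matrix.mul_neg, Matrix.neg_mul, e3, e4, mul_smul_cen hw.1, Matrix.smul_mul, smul_zero]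
    abel
  · rw [mul_smul_cen hw.1, Matrix.smul_mul, Matrix.zero_mul, Matrix.zero_mul, zero_add, zero_add,
      ← smul_add, b2, smul_smul]

theorem a4_blocks (h : Nul H w (X.ext Y t)) :
    ∃ (a : Matrix X.J X.J A) (c : Matrix Y.J X.J A) (d : Matrix Y.J Y.J A),
      Hm H 1 X.t X.t a ∧ Hm H 1 Y.t X.t c ∧ Hm H 1 Y.t Y.t d ∧
      X.D * a + a * X.D = w • X.p - t * c ∧ c * X.D = -(Y.D * c) ∧
      Y.D * d + d * Y.D = w • Y.p - c * t := by
  obtain ⟨M, m1, m2⟩ := h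
  refine ⟨M.toBlocks₁₁, M.toBlocks₂₁, M.toBlocks₂₂, m1.b11, m1.b21, m1.b22, ?_⟩
  rw [← fromBlocks_toBlocks M] at m2
  simp only [fromBlocks_multiply, fromBlocks_add, fromBlocks_smul, fromBlocks_inj,
    Matrix.zero_mul, Matrix.mul_zero, add_zero, zero_add, smul_zero] at m2
  obtain ⟨e1, -, e3, e4⟩ := m2
  refine ⟨?_, eq_neg_of_add_eq_zero_right e3, ?_⟩
  · rw [← e1]; abel
  · rw [← e4]; abel

theorem Nul.left (hH : LR H) (hw' : Sc H w') (ht : Tw H X Y t) (h : Nul H w (X.ext Y t))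
    (h' : Nul H w' Y) : Nul H (w' * w) X := by
  obtain ⟨a, c, d, a1, c1, -, e1, e2, -⟩ := a4_blocks h
  obtain ⟨s, s1, s2⟩ := h'
  refine ⟨w' • a - t * s * c, (a1.smul hw').sub
    ((ht.hm.mul hH s1 (e := 0) (by omega)).mul hH c1 (by omega)), ?_⟩
  have e3 : X.D * (t * s * c) = -(t * (Y.D * s) * c) := by
    rw [← Matrix.mul_assoc, ← Matrix.mul_assoc, a4_neg ht]
    simp [Matrix.mul_assoc]
  have e4 : t * s * c * X.D = -(t * (s * Y.D) * c) := by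
    rw [Matrix.mul_assoc _ c, e2]
    simp [Matrix.mul_assoc]
  have e5 : t * (Y.D * s) * c + t * (s * Y.D) * c = w' • (t * c) := by
    rw [← Matrix.add_mul, ← Matrix.mul_add, s2, mul_smul_cen hw'.1, ht.pr, Matrix.smul_mul]
  have e6 : w' • (X.D * a) + w' • (a * X.D) = (w' * w) • X.p - w' • (t * c) := by
    rw [← smul_add, e1, smul_sub, smul_smul]
  rw [Matrix.mul_sub, Matrix.sub_mul, mul_smul_cen hw'.1, Matrix.smul_mul, e3, e4,
    eq_sub_iff_add_eq.mp e6 |>.symm, ← e5]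
  abel

theorem Nul.right (hH : LR H) (hw' : Sc H w') (ht : Tw H X Y t) (h : Nul H w (X.ext Y t))
    (h' : Nul H w' X) : Nul H (w' * w) Y := by
  obtain ⟨a, c, d, -, c1, d1, -, e2, e1⟩ := a4_blocks h
  obtain ⟨s, s1, s2⟩ := h'
  refine ⟨w' • d - c * s * t, (d1.smul hw').sub
    ((c1.mul hH s1 (e := 2) (by omega)).mul hH ht.hm (by omega)), ?_⟩
  have e2' : Y.D * c = -(c * X.D) := by rw [e2, neg_neg]
  have e0 : t * Y.D = -(X.D * t) := by rw [a4_neg ht, neg_neg]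
  have e3 : Y.D * (c * s * t) = -(c * (X.D * s) * t) := by
    rw [← Matrix.mul_assoc, ← Matrix.mul_assoc, e2']
    simp [Matrix.mul_assoc]
  have e4 : c * s * t * Y.D = -(c * (s * X.D) * t) := by
    rw [Matrix.mul_assoc _ t, e0]
    simp [Matrix.mul_assoc]
  have e5 : c * (X.D * s) * t + c * (s * X.D) * t = w' • (c * t) := by
    rw [← Matrix.add_mul, ← Matrix.mul_add, s2, mul_smul_cen hw'.1, Matrix.smul_mul,
      Matrix.mul_assoc, ht.pl]
  have e6 : w' • (Y.D * d) + w' • (d * Y.D) = (w' * w) • Y.p - w' • (c * t) := by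
    rw [← smul_add, e1, smul_sub, smul_smul]
  rw [Matrix.mul_sub, Matrix.sub_mul, mul_smul_cen hw'.1, Matrix.smul_mul, e3, e4,
    eq_sub_iff_add_eq.mp e6 |>.symm, ← e5]
  abel

theorem Obj.ext (hH : Good H S) (ht : Tw H X Y t) (h : Obj H S K X) (h' : Obj H S K Y) :
    Obj H S K (X.ext Y t) := by
  refine ⟨h.ok.ext h'.ok ht, fun a ha => ?_⟩
  obtain ⟨u, hu, e⟩ := h.tor a ha
  obtain ⟨u', hu', e'⟩ := h'.tor a ha
  exact ⟨u * u', mul_mem hu hu', Nul.ext hH.mul (hH.sc hu) (hH.sc hu') ht e e'⟩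

theorem Obj.sum (hH : Good H S) (h : Obj H S K X) (h' : Obj H S K Y) : Obj H S K (X.sum Y) :=
  Obj.ext hH (Tw.zero _ _) h h'

theorem Obj.left (hH : Good H S) (ht : Tw H X Y t) (hX : Ok H X) (h : Obj H S K (X.ext Y t))
    (h' : Obj H S K Y) : Obj H S K X := by
  refine ⟨hX, fun a ha => ?_⟩
  obtain ⟨u, hu, e⟩ := h.tor a ha
  obtain ⟨u', hu', e'⟩ := h'.tor a ha
  exact ⟨u' * u, mul_mem hu' hu, Nul.left hH.mul (hH.sc hu') ht e e'⟩

theorem Obj.right (hH : Good H S) (ht : Tw H X Y t) (hY : Ok H Y) (h : Obj H S K (X.ext Y t))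
    (h' : Obj H S K X) : Obj H S K Y := by
  refine ⟨hY, fun a ha => ?_⟩
  obtain ⟨u, hu, e⟩ := h.tor a ha
  obtain ⟨u', hu', e'⟩ := h'.tor a ha
  exact ⟨u' * u, mul_mem hu' hu, Nul.right hH.mul (hH.sc hu') ht e e'⟩

theorem he_ext_left (hH : LR H) (hX : Ok H X) (hY : Ok H Y) (ht : Tw H X Y t) (h : Nul H 1 Y) :
    HE H (X.ext Y t) X := by
  obtain ⟨s, s1, s2⟩ := Nul.sand hH hY (fun x => by simp) h
  rw [one_smul] at s2
  have e1 : X.p * (t * s) = t * s := by rw [← Matrix.mul_assoc, ht.pl]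
  have e2 : t * s * Y.p = t * s := by rw [Matrix.mul_assoc, s1.pr]
  have e3 : -(X.D * (t * s)) = t + -(t * s * Y.D) := by
    rw [← Matrix.mul_assoc, a4_neg ht, Matrix.neg_mul, neg_neg, Matrix.mul_assoc,
      eq_sub_of_add_eq s2, Matrix.mul_sub, ht.pr, Matrix.mul_assoc, sub_eq_add_neg]
  refine ⟨fromCols X.p (-(t * s)), fromRows X.p 0, fromBlocks 0 0 0 s, 0,
    ⟨⟨Hm.cols hX.hp (ht.hm.mul hH s1.hm (by omega)).neg, ?_, ?_⟩, ?_⟩,
    ⟨⟨Hm.rows hX.hp (Hm.zero _ _), ?_, ?_⟩, ?_⟩,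
    Hm.blocks (Hm.zero _ _) (Hm.zero _ _) (Hm.zero _ _) s1.hm, Hm.zero _ _, ?_, ?_⟩
  · simp [mul_fromCols, hX.pp, e1]
  · simp [fromCols_mul_fromBlocks, hX.pp, e2]
  · simp [mul_fromCols, fromCols_mul_fromBlocks, hX.pD, hX.Dp, ht.pl, e3]
  · simp [fromBlocks_mul_fromRows, hX.pp]
  · simp [fromRows_mul, hX.pp]
  · simp [fromBlocks_mul_fromRows, fromRows_mul, hX.pD, hX.Dp]
  · rw [fromRows_mul_fromCols]
    simp [fromBlocks_multiply, fromBlocks_add, hX.pp, e1, s2]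
  · simp [fromCols_mul_fromRows, hX.pp]

theorem he_ext_right (hH : LR H) (hX : Ok H X) (hY : Ok H Y) (ht : Tw H X Y t) (h : Nul H 1 X) :
    HE H (X.ext Y t) Y := by
  obtain ⟨s, s1, s2⟩ := Nul.sand hH hX (fun x => by simp) h
  rw [one_smul] at s2
  have e0 : t * Y.D = -(X.D * t) := by rw [a4_neg ht, neg_neg]
  have e1 : X.p * (s * t) = s * t := by rw [← Matrix.mul_assoc, s1.pl]
  have e2 : s * t * Y.p = s * t := by rw [Matrix.mul_assoc, ht.pr]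
  have e3 : -(X.D * (s * t)) + t = -(s * t * Y.D) := by
    rw [Matrix.mul_assoc s, e0, Matrix.mul_neg, neg_neg, ← Matrix.mul_assoc s,
      eq_sub_of_add_eq' s2, Matrix.sub_mul, ht.pl, Matrix.mul_assoc, neg_add_eq_sub]
  refine ⟨fromCols 0 Y.p, fromRows (-(s * t)) Y.p, fromBlocks s 0 0 0, 0,
    ⟨⟨Hm.cols (Hm.zero _ _) hY.hp, ?_, ?_⟩, ?_⟩,
    ⟨⟨Hm.rows (s1.hm.mul hH ht.hm (by omega)).neg hY.hp, ?_, ?_⟩, ?_⟩,
    Hm.blocks s1.hm (Hm.zero _ _) (Hm.zero _ _) (Hm.zero _ _), Hm.zero _ _, ?_, ?_⟩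
  · simp [mul_fromCols, hY.pp]
  · simp [fromCols_mul_fromBlocks, hY.pp]
  · simp [mul_fromCols, fromCols_mul_fromBlocks, hY.pD, hY.Dp]
  · simp [fromBlocks_mul_fromRows, hY.pp, e1]
  · simp [fromRows_mul, hY.pp, e2]
  · simp [fromBlocks_mul_fromRows, fromRows_mul, hY.pD, hY.Dp, ht.pr, e3]
  · rw [fromRows_mul_fromCols]
    simp [fromBlocks_multiply, fromBlocks_add, hY.pp, e2, s2]
  · simp [fromCols_mul_fromRows, hY.pp]

end Pool.Agent.MP_f7db47_al.KN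

end

section

/-!
Extensions and homotopy equivalences.
-/

namespace Pool.Agent.MP_f7db47_al.KN

open Matrix

universe v w

variable {A : Type v} [Ring A] {Λ ι : Type} {H H' I I' : Fam A Λ} {S : ι → Submonoid A}
  {K K' : Finset ι} {W : Set ℤ} {X X' Y Y' Z : Cx A Λ} {w w' : A}

/-- Triangular chain maps between extensions. -/
theorem a5_tri {a : Matrix X'.J X.J A} {b : Matrix Y'.J Y.J A} {u : Matrix X'.J Y.J A}
    {t : Matrix X.J Y.J A} {t' : Matrix X'.J Y'.J A} (ha : Ch H X' X a) (hb : Ch H Y' Y b)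
    (hu : Mp H 0 X' Y u) (e : X'.D * u + t' * b = a * t + u * Y.D) :
    Ch H (X'.ext Y' t') (X.ext Y t) (fromBlocks a u 0 b) :=
  ⟨⟨Hm.blocks ha.hm hu.hm (Hm.zero _ _) hb.hm,
    by simp [fromBlocks_multiply, ha.pl, hb.pl, hu.pl],
    by simp [fromBlocks_multiply, ha.pr, hb.pr, hu.pr]⟩,
    by simp [fromBlocks_multiply, ha.cm, hb.cm, e]⟩

theorem a5_add {d : ℤ} {a b : Matrix Y.J X.J A} (ha : Mp H d Y X a) (hb : Mp H d Y X b) :
    Mp H d Y X (a + b) :=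
  ⟨ha.hm.add hb.hm, by rw [Matrix.mul_add, ha.pl, hb.pl], by rw [Matrix.add_mul, ha.pr, hb.pr]⟩

theorem a5_neg {d : ℤ} {a : Matrix Y.J X.J A} (ha : Mp H d Y X a) : Mp H d Y X (-a) :=
  ⟨ha.hm.neg, by rw [Matrix.mul_neg, ha.pl], by rw [Matrix.neg_mul, ha.pr]⟩

theorem a5_sub {d : ℤ} {a b : Matrix Y.J X.J A} (ha : Mp H d Y X a) (hb : Mp H d Y X b) :
    Mp H d Y X (a - b) := sub_eq_add_neg a b ▸ a5_add ha (a5_neg hb)

theorem a5_half (hH : LR H) (hX : Ok H X) {c h : Matrix X.J X.J A} (hh : Hm H 1 X.t X.t h)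
    (hc : X.p * c * X.p = c) (e : c + (X.D * h + h * X.D) = X.p) :
    Mp H 1 X X (X.p * h * X.p) ∧
      c + (X.D * (X.p * h * X.p) + X.p * h * X.p * X.D) = X.p := by
  refine ⟨⟨Hm.mul hH (Hm.mul hH hX.hp hh rfl) hX.hp (by omega), ?_, ?_⟩, ?_⟩
  · rw [← Matrix.mul_assoc, ← Matrix.mul_assoc, hX.pp]
  · rw [Matrix.mul_assoc, hX.pp]
  · have e1 := congrArg (fun M => X.p * M * X.p) e
    simp only [mul_add, add_mul, hc, hX.pp] at e1
    rw [← mul_assoc, hX.pD, mul_assoc X.p, mul_assoc h, hX.Dp] at e1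
    rw [← mul_assoc, ← mul_assoc, hX.Dp, mul_assoc _ X.p X.D, hX.pD, mul_assoc X.p]
    exact e1

/-- The homotopies can be chosen compatible with the idempotents. -/
theorem a5_sand (hH : LR H) (hX : Ok H X) (hY : Ok H Y) {f : Matrix Y.J X.J A}
    {g : Matrix X.J Y.J A} {h : Matrix X.J X.J A} {k : Matrix Y.J Y.J A}
    (e : HEd H X Y f g h k) :
    ∃ h' k', HEd H X Y f g h' k' ∧ Mp H 1 X X h' ∧ Mp H 1 Y Y k' := by
  have h1 := a5_half hH hX e.hh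
    (by rw [← Matrix.mul_assoc, e.hg.pl, Matrix.mul_assoc, e.hf.pr]) e.gf
  have h2 := a5_half hH hY e.hk
    (by rw [← Matrix.mul_assoc, e.hf.pl, Matrix.mul_assoc, e.hg.pr]) e.fg
  exact ⟨_, _, ⟨e.hf, e.hg, h1.1.hm, h2.1.hm, h1.2, h2.2⟩, h1.1, h2.1⟩

/-- The difference of the two homotopies is a cycle. -/
theorem a5_cyc {f : Matrix Y.J X.J A} {g : Matrix X.J Y.J A} {h : Matrix X.J X.J A}
    {k : Matrix Y.J Y.J A} (e : HEd H X Y f g h k) :
    Y.D * (f * h - k * f) = -((f * h - k * f) * X.D) := by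
  have h1 : f * (X.D * h + h * X.D) = f - f * (g * f) := by
    rw [eq_sub_iff_add_eq', ← Matrix.mul_add, e.gf, e.hf.pr]
  have h2 : (Y.D * k + k * Y.D) * f = f - f * (g * f) := by
    rw [eq_sub_iff_add_eq', ← Matrix.mul_assoc, ← Matrix.add_mul, e.fg, e.hf.pl]
  have h3 := h1.trans h2.symm
  have h4 : f * (X.D * h) = Y.D * (f * h) := by
    rw [← Matrix.mul_assoc, ← e.hf.cm, Matrix.mul_assoc]
  rw [eq_neg_iff_add_eq_zero]
  simp only [Matrix.mul_sub, Matrix.sub_mul, Matrix.mul_add, Matrix.add_mul, Matrix.mul_assoc,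
    e.hf.cm, h4] at h3 ⊢
  rw [sub_add_sub_comm, h3, sub_self]

variable {t : Matrix X.J Y.J A}

theorem ext_congr_left (hH : LR H) (hX : Ok H X) (hX' : Ok H X') (hY : Ok H Y)
    {f : Matrix X'.J X.J A} {g : Matrix X.J X'.J A}
    {h : Matrix X.J X.J A} {k : Matrix X'.J X'.J A} (e : HEd H X X' f g h k) (ht : Tw H X Y t) :
    HE H (X.ext Y t) (X'.ext Y (f * t)) := by
  obtain ⟨h, k, e, hh, hk⟩ := a5_sand hH hX hX' e
  have d1 : t * Y.D = -(X.D * t) := eq_neg_of_add_eq_zero_right ht.cm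
  have m1 : Mp H 0 X Y (-(h * t)) := a5_neg (Mp.comp hH hh ht.toMp (by omega))
  have q1 : X.D * (-(h * t)) + t * Y.p = g * (f * t) + -(h * t) * Y.D := by
    have := congrArg (· * t) e.gf
    simp only [Matrix.add_mul, Matrix.mul_assoc, ht.pl] at this
    rw [ht.pr, Matrix.neg_mul, Matrix.mul_assoc, d1, Matrix.mul_neg, Matrix.mul_neg, neg_neg,
      neg_add_eq_iff_eq_add, add_left_comm, this]
  obtain ⟨c, hc, m2, d2⟩ : ∃ c, c = (f * h - k * f) * t ∧ Mp H 0 X' Y c ∧ X'.D * c = c * Y.D :=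
    ⟨_, rfl, Mp.comp hH (a5_sub (Mp.comp hH e.hf.toMp hh rfl) (Mp.comp hH hk e.hf.toMp (by omega)))
      ht.toMp (by omega), by
        rw [← Matrix.mul_assoc, a5_cyc e, Matrix.mul_assoc _ t, d1, Matrix.mul_neg,
          Matrix.neg_mul, Matrix.mul_assoc]⟩
  have F := a5_tri (t := t) (t' := f * t) e.hf (Ch.id hY) (Mp.zero 0 _ _)
    (by simp [Matrix.mul_assoc, ht.pr])
  have G := a5_tri e.hg (Ch.id hY) m1 q1
  have G' := a5_tri (t := f * t) (t' := t) e.hg (Ch.id hY)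
    (a5_add m1 (Mp.comp hH e.hg.toMp m2 (by omega))) (by
      rw [Matrix.mul_add, Matrix.add_mul, add_right_comm, q1, ← Matrix.mul_assoc X.D, e.hg.cm,
        Matrix.mul_assoc g X'.D, d2, Matrix.mul_assoc g c, add_assoc])
  obtain ⟨k', r⟩ := HE.of_lr hH (h := fromBlocks h 0 0 0) (k := fromBlocks k (k * c) 0 0) F G G'
    (Hm.blocks hh.hm (Hm.zero _ _) (Hm.zero _ _) (Hm.zero _ _))
    (Hm.blocks hk.hm (Hm.mul hH hk.hm m2.hm (by omega)) (Hm.zero _ _) (Hm.zero _ _))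
    (by simp [fromBlocks_multiply, fromBlocks_add, e.gf, hY.pp, Matrix.mul_assoc, ht.pr])
    (by
      have h1 := congrArg (· * c) e.fg
      simp only [Matrix.add_mul, Matrix.mul_assoc, m2.pl, d2] at h1
      have h2 : f * (h * t) = c + k * (f * t) := by
        rw [hc, Matrix.sub_mul, Matrix.mul_assoc, Matrix.mul_assoc, sub_add_cancel]
      simp only [fromBlocks_multiply, fromBlocks_add, Matrix.mul_zero, Matrix.zero_mul, add_zero,
        zero_add, neg_zero, e.fg, hY.pp, Matrix.mul_add, Matrix.mul_neg, Matrix.mul_assoc, h2]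
      congr 1
      refine Eq.trans ?_ (sub_eq_zero.2 h1)
      abel)
  exact ⟨_, _, _, _, r⟩

theorem ext_congr_right (hH : LR H) (hX : Ok H X) (hY : Ok H Y) (hY' : Ok H Y')
    {f : Matrix Y'.J Y.J A} {g : Matrix Y.J Y'.J A}
    {h : Matrix Y.J Y.J A} {k : Matrix Y'.J Y'.J A} (e : HEd H Y Y' f g h k) (ht : Tw H X Y t) :
    HE H (X.ext Y t) (X.ext Y' (t * g)) := by
  obtain ⟨h, k, e, hh, hk⟩ := a5_sand hH hY hY' e
  have e' : HEd H Y' Y g f k h := ⟨e.hg, e.hf, e.hk, e.hh, e.fg, e.gf⟩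
  have d1 : X.D * t = -(t * Y.D) := eq_neg_of_add_eq_zero_left ht.cm
  have m1 : Mp H 0 X Y (-(t * h)) := a5_neg (Mp.comp hH ht.toMp hh (by omega))
  have q1 : X.D * (-(t * h)) + t * g * f = X.p * t + -(t * h) * Y.D := by
    have := congrArg (t * ·) e.gf
    simp only [Matrix.mul_add, ht.pr] at this
    rw [ht.pl, Matrix.mul_neg, ← Matrix.mul_assoc, d1, Matrix.neg_mul, Matrix.neg_mul, neg_neg,
      Matrix.mul_assoc, Matrix.mul_assoc, Matrix.mul_assoc, eq_add_neg_iff_add_eq, add_comm (t * _),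
      add_assoc, this]
  obtain ⟨c, hc, m2, d2⟩ : ∃ c, c = -(t * (g * k - h * g)) ∧ Mp H 0 X Y' c ∧
      X.D * c = c * Y'.D :=
    ⟨_, rfl, a5_neg (Mp.comp hH ht.toMp
      (a5_sub (Mp.comp hH e.hg.toMp hk rfl) (Mp.comp hH hh e.hg.toMp (by omega))) (by omega)), by
        rw [Matrix.mul_neg, ← Matrix.mul_assoc, d1, Matrix.neg_mul, Matrix.mul_assoc, a5_cyc e',
          Matrix.mul_neg, neg_neg, Matrix.neg_mul, Matrix.mul_assoc]⟩
  have G := a5_tri (t := t * g) (t' := t) (Ch.id hX) e.hg (Mp.zero 0 _ _)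
    (by simp [← Matrix.mul_assoc, ht.pl])
  have F := a5_tri (Ch.id hX) e.hf m1 q1
  have F' := a5_tri (t := t) (t' := t * g) (Ch.id hX) e.hf
    (a5_add m1 (Mp.comp hH m2 e.hf.toMp (by omega))) (by
      rw [Matrix.mul_add, Matrix.add_mul, add_right_comm, q1, ← Matrix.mul_assoc X.D, d2,
        Matrix.mul_assoc c Y'.D, e.hf.cm, Matrix.mul_assoc c f, add_assoc])
  obtain ⟨k', r⟩ := HE.of_lr hH (h := fromBlocks 0 (c * k) 0 k) (k := fromBlocks 0 0 0 h) G F' F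
    (Hm.blocks (Hm.zero _ _) (Hm.mul hH m2.hm hk.hm (by omega)) (Hm.zero _ _) hk.hm)
    (Hm.blocks (Hm.zero _ _) (Hm.zero _ _) (Hm.zero _ _) hh.hm)
    (by
      have h1 := congrArg (c * ·) e.fg
      simp only [Matrix.mul_add, m2.pr] at h1
      have h2 : t * (h * g) = c + t * (g * k) := by
        rw [hc, Matrix.mul_sub, neg_sub, sub_add_cancel]
      have h3 : X.D * (c * k) = c * (Y'.D * k) := by rw [← Matrix.mul_assoc, d2, Matrix.mul_assoc]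
      simp only [fromBlocks_multiply, fromBlocks_add, Matrix.mul_zero, Matrix.zero_mul, add_zero,
        zero_add, e.fg, hX.pp, Matrix.add_mul, Matrix.neg_mul, Matrix.mul_assoc, h2, h3]
      congr 1
      refine Eq.trans ?_ (sub_eq_zero.2 h1)
      abel)
    (by simp [fromBlocks_multiply, fromBlocks_add, e.gf, hX.pp, ← Matrix.mul_assoc, ht.pl])
  exact HE.symm ⟨_, _, _, _, r⟩

theorem ext_congr (hH : LR H) (hX : Ok H X) (hX' : Ok H X') (hY : Ok H Y) (hY' : Ok H Y')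
    (e : HE H X X') (e' : HE H Y Y') (ht : Tw H X Y t) :
    ∃ t', Tw H X' Y' t' ∧ HE H (X.ext Y t) (X'.ext Y' t') := by
  obtain ⟨f, g, h, k, e⟩ := e
  obtain ⟨f', g', h', k', e'⟩ := e'
  have h1 := Tw.comp_left hH e.hf ht
  exact ⟨_, Tw.comp_right hH h1 e'.hg, (ext_congr_left hH hX hX' hY e ht).trans hH
    (ext_congr_right hH hX' hY hY' e' h1)⟩

/-- Homotopic twisting maps give isomorphic extensions. -/
theorem ext_htpy (hH : LR H) (hX : Ok H X) (hY : Ok H Y) {s : Matrix X.J Y.J A}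
    (hs : Mp H 0 X Y s) (ht : Tw H X Y t) :
    Tw H X Y (t + (X.D * s - s * Y.D)) ∧
      HE H (X.ext Y t) (X.ext Y (t + (X.D * s - s * Y.D))) := by
  have m : Mp H (-1) X Y (t + (X.D * s - s * Y.D)) := a5_add ht.toMp (a5_sub
    (Mp.comp hH ⟨hX.hD, hX.pD, hX.Dp⟩ hs (by omega))
    (Mp.comp hH hs ⟨hY.hD, hY.pD, hY.Dp⟩ (by omega)))
  refine ⟨⟨m, ?_⟩, HE.of_iso (a5_tri (Ch.id hX) (Ch.id hY) (a5_neg hs) ?_)
    (a5_tri (Ch.id hX) (Ch.id hY) hs ?_) ?_ ?_⟩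
  · rw [Matrix.mul_add, Matrix.add_mul, add_add_add_comm, ht.cm, Matrix.mul_sub, Matrix.sub_mul,
      ← Matrix.mul_assoc, hX.DD, Matrix.mul_assoc s, hY.DD, Matrix.mul_assoc]
    simp
  · rw [m.pr, ht.pl, Matrix.mul_neg, Matrix.neg_mul]
    abel
  · rw [m.pl, ht.pr]
    abel
  · simp [fromBlocks_multiply, hX.pp, hY.pp, hs.pl, hs.pr]
  · simp [fromBlocks_multiply, hX.pp, hY.pp, hs.pl, hs.pr]

end Pool.Agent.MP_f7db47_al.KN

end

section

/-!
Mapping cones.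
-/

namespace Pool.Agent.MP_f7db47_al.KN

open Matrix

universe v w

variable {A : Type v} [Ring A] {Λ ι : Type} {H H' I I' : Fam A Λ} {S : ι → Submonoid A}
  {K K' : Finset ι} {W : Set ℤ} {X X' Y Y' Z : Cx A Λ} {w w' : A}

variable {f : Matrix Y.J X.J A}

theorem a6_cols_add {I J J' : Type} (a a' : Matrix I J A) (b b' : Matrix I J' A) :
    fromCols a b + fromCols a' b' = fromCols (a + a') (b + b') := by
  ext i (j | j) <;> rfl

theorem a6_rows_add {I I' J : Type} (a a' : Matrix I J A) (b b' : Matrix I' J A) :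
    fromRows a b + fromRows a' b' = fromRows (a + a') (b + b') := by
  ext (i | i) j <;> rfl

theorem a6_smul (hX : Ok H X) (hw : ∀ x, w * x = x * w) : Nul H w (X.cone X (w • X.p)) :=
  ⟨fromBlocks 0 0 X.p 0, Hm.blocks (Hm.zero _ _) (Hm.zero _ _) (hX.hp.shift_left 1 (by omega))
    (Hm.zero _ _), by
    simp [fromBlocks_multiply, fromBlocks_add, fromBlocks_smul, mul_smul_cen hw, hX.pp, hX.pD,
      hX.Dp]⟩

theorem a6_id (hX : Ok H X) : Nul H 1 (X.cone X X.p) := by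
  simpa only [one_smul] using a6_smul (w := 1) hX fun x => by simp

theorem a6_blocks (hH : LR H) (hX : Ok H X) (hY : Ok H Y) {t : Matrix X.J Y.J A}
    (ht : Tw H X Y t) (h : Nul H 1 (X.ext Y t)) :
    ∃ a c d, Hm H 1 X.t X.t a ∧ Mp H 1 Y X c ∧ Hm H 1 Y.t Y.t d ∧
      t * c + (X.D * a + a * X.D) = X.p ∧ Y.D * c + c * X.D = 0 ∧
      c * t + (Y.D * d + d * Y.D) = Y.p := by
  obtain ⟨s, ⟨h1, h2, h3⟩, h4⟩ := h.sand hH (hX.ext hY ht) fun x => by simp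
  rw [← fromBlocks_toBlocks s] at h2 h3 h4
  simp only [fromBlocks_multiply, fromBlocks_add, fromBlocks_inj, one_smul, Matrix.zero_mul,
    Matrix.mul_zero, add_zero, zero_add] at h2 h3 h4
  refine ⟨_, _, _, h1.b11, ⟨h1.b21, h2.2.2.1, h3.2.2.1⟩, h1.b22, ?_, h4.2.2.1, ?_⟩
  · rw [← h4.1]
    abel
  · rw [← h4.2.2.2]
    abel

theorem cone_nul (hH : LR H) (hX : Ok H X) (hY : Ok H Y) {g : Matrix X.J Y.J A}
    {h : Matrix X.J X.J A} {k : Matrix Y.J Y.J A} (e : HEd H X Y f g h k) :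
    Nul H 1 (Y.cone X f) := by
  have h1 := ext_congr_left hH hX hY (hX.sh 1) e (Ch.id hX).tw
  rw [e.hf.pr] at h1
  exact (a6_id hX).he hH Sc.one h1

theorem he_of_cone (hH : LR H) (hX : Ok H X) (hY : Ok H Y) (hf : Ch H Y X f)
    (h : Nul H 1 (Y.cone X f)) : ∃ g h k, HEd H X Y f g h k := by
  obtain ⟨a, c, d, h1, h2, h3, h4, h5, h6⟩ := a6_blocks hH hY (hX.sh 1) hf.tw h
  refine ⟨c, -d, a, hf, ⟨⟨fun i j => ⟨(h2.hm i j).1, fun e => ?_⟩, h2.pl, h2.pr⟩, ?_⟩,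
    h3.neg.unshift (by omega), h1, by simpa using h6, h4⟩
  · have := (h2.hm i j).2 e
    simp only at this
    omega
  · simpa [neg_add_eq_zero] using h5

theorem cone_smul (hX : Ok H X) (hw : Sc H w) : Nul H w (X.cone X (w • X.p)) :=
  a6_smul hX hw.1

theorem cone_rot (hX : Ok H X) (hY : Ok H Y) (hf : Ch H Y X f) :
    Tw H X (Y.cone X f) (fromCols 0 X.p) ∧ HE H (X.ext (Y.cone X f) (fromCols 0 X.p)) Y := by
  refine ⟨⟨⟨Hm.cols (Hm.zero _ _) (hX.hp.shift_right 1 (by omega)), ?_, ?_⟩, ?_⟩,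
    fromCols (-f) (fromCols Y.p 0), fromRows 0 (fromRows Y.p 0),
    fromBlocks 0 0 (fromRows 0 X.p) 0, 0,
    ⟨⟨Hm.cols hf.hm.neg (Hm.cols hY.hp (Hm.zero _ _)), ?_, ?_⟩, ?_⟩,
    ⟨⟨Hm.rows (Hm.zero _ _) (Hm.rows hY.hp (Hm.zero _ _)), ?_, ?_⟩, ?_⟩,
    Hm.blocks (Hm.zero _ _) (Hm.zero _ _)
      (Hm.rows (Hm.zero _ _) (hX.hp.shift_left 1 (by omega))) (Hm.zero _ _), Hm.zero _ _, ?_, ?_⟩
  all_goals
    simp [fromBlocks_multiply, fromBlocks_add, mul_fromCols, fromRows_mul,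
      fromCols_mul_fromRows, fromCols_mul_fromBlocks, fromBlocks_mul_fromRows, a6_cols_add,
      a6_rows_add, hX.pp, hX.pD, hX.Dp, hY.pp, hY.pD, hY.Dp, hf.pl, hf.pr, hf.cm]
  ext (i | i | i) (j | j | j) <;> simp

theorem cone_sum (hH : LR H) (hX : Ok H X) (hY : Ok H Y) (hZ : Ok H Z) (e : HE H Z (X.sum Y)) :
    ∃ g, Ch H Z Y g ∧ HE H (Z.cone Y g) X := by
  obtain ⟨g, f, h, k, e⟩ := e.symm
  have hi : Ch H (X.sum Y) Y (fromRows 0 Y.p) := by
    refine ⟨⟨Hm.rows (Hm.zero _ _) hY.hp, ?_, ?_⟩, ?_⟩ <;>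
      simp [fromRows_mul, fromBlocks_mul_fromRows, hY.pp, hY.pD, hY.Dp]
  refine ⟨_, e.hf.comp hH hi,
    (ext_congr_left hH (hX.sum hY) hZ (hY.sh 1) e hi.tw).symm.trans hH ?_⟩
  exact (sub_ext_assoc (Z := Y.sh 1) 0 0 Y.p).1.he_left.2 (he_ext_left hH hX (hY.cone hY (Ch.id hY))
    (tw_rows (Tw.zero X Y) hi.tw).2 (a6_id hY))

/-- If an extension is contractible, then the quotient is the shift of the subcomplex. -/
theorem he_of_ext_nul (hH : LR H) (hX : Ok H X) (hY : Ok H Y) {t : Matrix X.J Y.J A}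
    (ht : Tw H X Y t) (h : Nul H 1 (X.ext Y t)) : HE H (X.sh 1) Y := by
  obtain ⟨a, c, d, h1, h2, h3, h4, h5, h6⟩ := a6_blocks hH hX hY ht h
  exact ⟨c, t, -a, d, ⟨⟨h2.hm.shift_right 1 (by omega), h2.pl, h2.pr⟩, by
      simpa [eq_neg_iff_add_eq_zero] using h5⟩,
    ⟨⟨ht.hm.shift_left 1 (by omega), ht.pl, ht.pr⟩, by
      simpa [neg_eq_iff_add_eq_zero] using ht.cm⟩,
    h1.neg.shift 1 1 (by omega), h3, by simpa using h4, h6⟩

/-- Changing subcomplex and quotient of an extension by the same complex `Z`. -/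
theorem ext_mod (hH : LR H) (hX : Ok H X) (hY : Ok H Y) (hZ : Ok H Z) {τ : Matrix X.J Y.J A}
    {g : Matrix Y.J Z.J A} (hτ : Tw H X Y τ) (hg : Tw H Y Z g) :
    Tw H X (Z.sh (-1)) (-(τ * g)) ∧
    Tw H (X.ext (Z.sh (-1)) (-(τ * g))) (Y.ext Z g) (fromBlocks τ 0 0 Z.p) ∧
    HE H ((X.ext (Z.sh (-1)) (-(τ * g))).ext (Y.ext Z g) (fromBlocks τ 0 0 Z.p)) (X.ext Y τ) := by
  have e1 : X.D * τ = -(τ * Y.D) := eq_neg_of_add_eq_zero_left hτ.cm
  have e2 : Y.D * g = -(g * Z.D) := eq_neg_of_add_eq_zero_left hg.cm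
  have e3 := (hτ.toMp.comp hH hg.toMp (e := -2) rfl)
  refine ⟨⟨⟨e3.hm.neg.shift_right (-1) (by omega), ?_, ?_⟩, ?_⟩,
    ⟨⟨Hm.blocks hτ.hm (Hm.zero _ _) (Hm.zero _ _) (hZ.hp.shift_left (-1) (by omega)), ?_, ?_⟩, ?_⟩,
    fromCols (fromBlocks X.p 0 0 (-g)) (fromBlocks 0 0 Y.p 0),
    fromRows (fromBlocks X.p 0 0 0) (fromBlocks 0 Y.p 0 0),
    fromBlocks 0 0 (fromBlocks 0 0 0 Z.p) 0, 0,
    ⟨⟨Hm.cols (Hm.blocks hX.hp (Hm.zero _ _) (Hm.zero _ _) (hg.hm.neg.shift_right (-1) (by omega)))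
      (Hm.blocks (Hm.zero _ _) (Hm.zero _ _) hY.hp (Hm.zero _ _)), ?_, ?_⟩, ?_⟩,
    ⟨⟨Hm.rows (Hm.blocks hX.hp (Hm.zero _ _) (Hm.zero _ _) (Hm.zero _ _))
      (Hm.blocks (Hm.zero _ _) hY.hp (Hm.zero _ _) (Hm.zero _ _)), ?_, ?_⟩, ?_⟩,
    Hm.blocks (Hm.zero _ _) (Hm.zero _ _) (Hm.blocks (Hm.zero _ _) (Hm.zero _ _) (Hm.zero _ _)
      (hZ.hp.shift_right (-1) (by omega))) (Hm.zero _ _), Hm.zero _ _, ?_, ?_⟩
  · simp [e3.pl]
  · simp [e3.pr]
  · rw [Matrix.mul_neg, ← Matrix.mul_assoc, e1, Matrix.neg_mul, Matrix.mul_assoc, e2]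
    simp [Matrix.mul_assoc]
  all_goals
    simp [fromBlocks_multiply, fromBlocks_add, mul_fromCols, fromRows_mul,
      fromCols_mul_fromRows, fromCols_mul_fromBlocks, fromBlocks_mul_fromRows,
      hX.pp, hX.pD, hX.Dp, hY.pp, hY.pD, hY.Dp, hZ.pp, hZ.pD, hZ.Dp, hτ.pl, hτ.pr,
      hg.pl, hg.pr, e1, e2, e3.pl, e3.pr]

end Pool.Agent.MP_f7db47_al.KN

end

section

/-!
Splitting off summands, and the perturbation lemma.
-/

namespace Pool.Agent.MP_f7db47_al.KN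

open Matrix

universe v w

variable {A : Type v} [Ring A] {Λ ι : Type} {H H' I I' : Fam A Λ} {S : ι → Submonoid A}
  {K K' : Finset ι} {W : Set ℤ} {X X' Y Y' Z : Cx A Λ} {w w' : A}

theorem spl (hH : LR H) (hX : Ok H X) {s ε : Matrix X.J X.J A} (hs : Mp H 1 X X s)
    (hε : ε = X.D * s + s * X.D) (h : ε * ε = ε) :
    Ok H (X.re (X.p - ε) (X.D - X.D * ε)) ∧ HE H X (X.re (X.p - ε) (X.D - X.D * ε)) := by
  have h0 : Hm H 0 X.t X.t ε :=
    hε ▸ (hX.hD.mul hH hs.hm (by omega)).add (hs.hm.mul hH hX.hD (by omega))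
  have h1 : X.p * ε = ε := by rw [hε, mul_add, ← mul_assoc, ← mul_assoc, hX.pD, hs.pl]
  have h2 : ε * X.p = ε := by rw [hε, add_mul, mul_assoc, mul_assoc, hX.Dp, hs.pr]
  have h3 : ε * X.D = X.D * ε := by
    rw [hε, mul_add, add_mul, ← mul_assoc X.D X.D, hX.DD, mul_assoc s, hX.DD, zero_mul, mul_zero,
      zero_add, add_zero, mul_assoc]
  have hq : Hm H 0 X.t X.t (X.p - ε) := hX.hp.sub h0
  have qq : (X.p - ε) * (X.p - ε) = X.p - ε := by
    rw [mul_sub, sub_mul, sub_mul, hX.pp, h1, h2, h, sub_self, sub_zero]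
  have pq : X.p * (X.p - ε) = X.p - ε := by rw [mul_sub, hX.pp, h1]
  have qp : (X.p - ε) * X.p = X.p - ε := by rw [sub_mul, hX.pp, h2]
  have Dq : X.D * (X.p - ε) = X.D - X.D * ε := by rw [mul_sub, hX.Dp]
  have qD : (X.p - ε) * X.D = X.D - X.D * ε := by rw [sub_mul, hX.pD, h3]
  have e1 : (X.p - ε) * (X.D - X.D * ε) = X.D - X.D * ε := by rw [← qD, ← mul_assoc, qq]
  have e2 : (X.D - X.D * ε) * (X.p - ε) = X.D - X.D * ε := by rw [← Dq, mul_assoc, qq]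
  have e3 : (X.D - X.D * ε) * (X.D - X.D * ε) = 0 := by
    nth_rewrite 1 [← qD]
    rw [← Dq, mul_assoc, ← mul_assoc X.D, hX.DD, zero_mul, mul_zero]
  refine ⟨⟨hq, hX.hD.sub (hX.hD.mul hH h0 (by omega)), qq, e1, e2, e3⟩, X.p - ε, X.p - ε, s, 0,
    ⟨⟨hq, qq, qp⟩, e2.trans qD.symm⟩, ⟨⟨hq, pq, qq⟩, Dq.trans e1.symm⟩, hs.hm, Hm.zero _ _, ?_, ?_⟩
  · rw [qq, ← hε, sub_add_cancel]
  · simpa using qq

/-- Cancellation of the bottom degree. -/
theorem cancel_bot (hH : LR H) (hX : Ok H X) {a b : ℤ} (hW : Wd (Set.Icc a b) X)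
    {s : Matrix X.J X.J A} (hs : Hm H 1 X.t X.t s)
    (h : X.D * s * ind A {j | (X.t j).2 = a} = X.p * ind A {j | (X.t j).2 = a}) :
    ∃ Y, Ok H Y ∧ Wd (Set.Icc (a + 1) b) Y ∧ HE H X Y := by
  set π := ind A {j | (X.t j).2 = a} with hπ
  have ππ : π * π = π := by rw [hπ, ind_mul_ind, Set.inter_self]
  have pπ : π * X.p = X.p * π := by
    ext i j
    rw [hπ, ind_mul_apply, mul_ind_apply]
    by_cases e : X.p i j = 0
    · simp [e]
    · have := (hX.hp i j).2 e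
      by_cases e' : (X.t j).2 = a <;> simp [this, e']
  have πs : π * s = 0 := by
    ext i j
    rw [hπ, ind_mul_apply, Matrix.zero_apply]
    split_ifs with e
    · by_contra e'
      have h1 := (hs i j).2 e'
      have h2 := (hW j).1
      have h3 : (X.t i).2 = a := e
      omega
    · rfl
  have Dπ : X.D * π = 0 := by
    ext i j
    rw [hπ, mul_ind_apply, Matrix.zero_apply]
    split_ifs with e
    · by_contra e'
      have h1 := (hX.hD i j).2 e'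
      have h2 := (hW i).1
      have h3 : (X.t j).2 = a := e
      omega
    · rfl
  have hs' : Mp H 1 X X (X.p * s * π * X.p) :=
    ⟨((hX.hp.mul hH hs (e := 1) (by omega)).mul_ind _).mul hH hX.hp (by omega),
      by simp only [← mul_assoc, hX.pp], by rw [mul_assoc _ X.p, hX.pp]⟩
  have e1 : X.D * (X.p * s * π * X.p) = π * X.p := by
    rw [← mul_assoc, ← mul_assoc, ← mul_assoc, hX.Dp, h, ← pπ, mul_assoc, hX.pp]
  have e2 : π * (X.p * s * π * X.p) = 0 := by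
    rw [← mul_assoc, ← mul_assoc, ← mul_assoc, pπ, mul_assoc X.p, πs, mul_zero, zero_mul, zero_mul]
  have e3 : π * X.p * (π * X.p) = π * X.p := by
    rw [← mul_assoc, mul_assoc π, ← pπ, ← mul_assoc, ππ, mul_assoc, hX.pp]
  have e4 : X.p * s * π * X.p * (π * X.p) = X.p * s * π * X.p := by
    rw [mul_assoc _ π, mul_assoc _ (π * X.p), e3]
  generalize X.p * s * π * X.p = s' at hs' e1 e2 e4
  obtain ⟨h1, h2⟩ := spl hH hX hs' rfl (by
    rw [e1, add_mul, mul_add, mul_add, e3, ← mul_assoc (π * X.p), mul_assoc π, hs'.pl, e2,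
      zero_mul, add_zero, mul_assoc s', ← mul_assoc X.D π, Dπ, zero_mul, mul_zero, zero_add,
      mul_assoc s', ← mul_assoc X.D, e1, ← mul_assoc, e4])
  have e5 : π * (X.p - (X.D * s' + s' * X.D)) = 0 := by
    rw [e1, mul_sub, mul_add, ← mul_assoc, ← mul_assoc, ππ, e2, zero_mul, add_zero, sub_self]
  obtain ⟨Y, h3, h4⟩ := trim (W := Set.Icc (a + 1) b) h1 fun i j e => by
    have h5 : (X.t i).2 ≠ a := fun e' => e (by
      have h6 := congrFun (congrFun e5 i) j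
      rwa [hπ, ind_mul_apply, if_pos (show i ∈ {j | (X.t j).2 = a} from e')] at h6)
    have h6 := hW i
    exact ⟨by have := h6.1; show a + 1 ≤ (X.t i).2; omega, h6.2⟩
  exact ⟨Y, h4.ok_iff.2 h1, h3, h4.he_right.2 h2⟩

theorem tri (hH : LR H) (hX : Ok H X) {e : Matrix X.J X.J A} (he : Cut H X e) :
    Ok H (X.sub e) ∧ Ok H (X.quo e) ∧ Tw H (X.sub e) (X.quo e) (e * X.D * (X.p - e)) ∧
      HE H X ((X.sub e).ext (X.quo e) (e * X.D * (X.p - e))) := by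
  have hq : Hm H 0 X.t X.t (X.p - e) := hX.hp.sub he.hm
  have qq : (X.p - e) * (X.p - e) = X.p - e := by
    rw [mul_sub, sub_mul, sub_mul, hX.pp, he.pe, he.ep, he.ee, sub_self, sub_zero]
  have pq : X.p * (X.p - e) = X.p - e := by rw [mul_sub, hX.pp, he.pe]
  have qp : (X.p - e) * X.p = X.p - e := by rw [sub_mul, hX.pp, he.ep]
  have eq : e * (X.p - e) = 0 := by rw [mul_sub, he.ep, he.ee, sub_self]
  have qe : (X.p - e) * e = 0 := by rw [sub_mul, he.pe, he.ee, sub_self]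
  have qDq : (X.p - e) * X.D * (X.p - e) = (X.p - e) * X.D := by
    rw [mul_sub, mul_assoc _ _ X.p, hX.Dp, sub_mul, sub_mul, hX.pD, he.De, sub_self, sub_zero]
  have eDe : e * (X.D * e) = X.D * e := by rw [← mul_assoc, he.De]
  have DeD : X.D * e * (X.D * e) = 0 := by rw [mul_assoc, eDe, ← mul_assoc, hX.DD, zero_mul]
  have eDq : e * X.D * (X.p - e) = e * X.D - X.D * e := by
    rw [mul_sub, mul_assoc _ _ X.p, hX.Dp, he.De]
  have et : e * (e * X.D * (X.p - e)) = e * X.D * (X.p - e) := by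
    rw [← mul_assoc, ← mul_assoc, he.ee]
  have tq : e * X.D * (X.p - e) * (X.p - e) = e * X.D * (X.p - e) := by rw [mul_assoc _ _ (X.p - e), qq]
  have qqD : (X.p - e) * ((X.p - e) * X.D) = (X.p - e) * X.D := by rw [← mul_assoc, qq]
  have Dee : X.D * e * e = X.D * e := by rw [mul_assoc, he.ee]
  refine ⟨⟨he.hm, hX.hD.mul hH he.hm (by omega), he.ee, eDe, Dee, DeD⟩,
    ⟨hq, hq.mul hH hX.hD (by omega), qq, qqD, qDq, ?_⟩,
    ⟨⟨(he.hm.mul hH hX.hD (e := -1) (by omega)).mul hH hq (by omega), et, tq⟩, ?_⟩,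
    HE.of_iso (f := fromRows e (X.p - e)) (g := fromCols e (X.p - e))
      ⟨⟨he.hm.rows hq, ?_, ?_⟩, ?_⟩ ⟨⟨he.hm.cols hq, ?_, ?_⟩, ?_⟩ ?_ ?_⟩
  · show (X.p - e) * X.D * ((X.p - e) * X.D) = 0
    rw [← mul_assoc, qDq, mul_assoc, hX.DD, mul_zero]
  · show X.D * e * (e * X.D * (X.p - e)) + e * X.D * (X.p - e) * ((X.p - e) * X.D) = 0
    rw [mul_assoc X.D, et, ← mul_assoc _ (X.p - e), tq, eDq, mul_sub, sub_mul, mul_assoc e, hX.DD,
      ← mul_assoc X.D X.D, hX.DD, zero_mul, mul_zero, sub_zero, zero_sub, mul_assoc,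
      add_neg_cancel]
  · simp [fromBlocks_mul_fromRows, he.ee, qq]
  · simp [fromRows_mul, he.ep, qp]
  · rw [fromBlocks_mul_fromRows, fromRows_mul, Dee, tq, eDq, qDq, Matrix.zero_mul, zero_add,
      add_sub_cancel]
  · simp [mul_fromCols, he.pe, pq]
  · simp [fromCols_mul_fromBlocks, he.ee, qq]
  · rw [fromCols_mul_fromBlocks, mul_fromCols, eDe, et, qqD, Matrix.mul_zero, add_zero, ← qDq,
      ← add_mul, ← add_mul, add_sub_cancel, hX.pD]
  · rw [fromCols_mul_fromRows, he.ee, qq, add_sub_cancel]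
  · rw [fromRows_mul_fromCols, he.ee, qq, eq, qe]

theorem a7_conj (hH : LR H) (hX : Ok H X) {P E : Matrix X.J X.J A} (hP : Hm H 0 X.t X.t P)
    (PP : P * P = P) (h1 : X.p * P * X.p = X.p) (h2 : P * X.p * P = P) (hE : E = P * X.D * P) :
    HE H X (X.re P E) := by
  refine HE.of_iso (f := P * X.p) (g := X.p * P)
    ⟨⟨hP.mul hH hX.hp (by omega), by rw [← mul_assoc, PP], by rw [mul_assoc, hX.pp]⟩, ?_⟩
    ⟨⟨hX.hp.mul hH hP (by omega), by rw [← mul_assoc, hX.pp], by rw [mul_assoc, PP]⟩, ?_⟩ ?_ ?_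
  · show E * (P * X.p) = P * X.p * X.D
    have h3 : X.D * P * X.p = X.D := by
      rw [← hX.Dp, mul_assoc X.D, mul_assoc X.D, h1]
    rw [hE, ← mul_assoc, mul_assoc _ P P, PP, mul_assoc P X.p, hX.pD, mul_assoc P, mul_assoc P, h3]
  · show X.D * (X.p * P) = X.p * P * E
    have h3 : X.p * P * X.D = X.D := by
      rw [← hX.pD, ← mul_assoc, h1]
    rw [hE, ← mul_assoc, ← mul_assoc, ← mul_assoc, mul_assoc _ P P, PP, hX.Dp, h3]
  · rw [← mul_assoc, mul_assoc _ P P, PP, h1]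
  · show P * X.p * (X.p * P) = P
    rw [← mul_assoc, mul_assoc _ X.p X.p, hX.pp, h2]

theorem a7_blocks (hH : LR H) {n m : Matrix X.J Y.J A}
    (h : Ok H ((X.sum Y).re (fromBlocks X.p n 0 Y.p) (fromBlocks X.D m 0 Y.D))) :
    Ok H X ∧ Ok H Y ∧ Tw H X Y (X.p * m * Y.p) ∧
      HE H ((X.sum Y).re (fromBlocks X.p n 0 Y.p) (fromBlocks X.D m 0 Y.D))
        (X.ext Y (X.p * m * Y.p)) := by
  have pp := h.pp
  have pD := h.pD
  have Dp := h.Dp
  have DD := h.DD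
  rw [← fromBlocks_zero] at DD
  simp only [fromBlocks_multiply, fromBlocks_inj, Matrix.mul_zero, Matrix.zero_mul, add_zero,
    zero_add, true_and] at pp pD Dp DD
  have hX : Ok H X := ⟨h.hp.b11, h.hD.b11, pp.1, pD.1, Dp.1, DD.1⟩
  have hY : Ok H Y := ⟨h.hp.b22, h.hD.b22, pp.2.2, pD.2.2, Dp.2.2, DD.2.2⟩
  have hm : Hm H (-1) X.t Y.t m := h.hD.b12
  have e1 : X.p * n * Y.p = 0 := by
    have h1 := congrArg (X.p * ·) pp.2.1
    simp only [Matrix.mul_add, ← Matrix.mul_assoc, pp.1] at h1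
    exact add_eq_left.1 h1
  refine ⟨hX, hY, ⟨⟨(hX.hp.mul hH hm (e := -1) (by omega)).mul hH hY.hp (by omega),
    by simp only [← Matrix.mul_assoc, pp.1], by rw [Matrix.mul_assoc _ Y.p, pp.2.2]⟩, ?_⟩,
    a7_conj hH h (P := fromBlocks X.p 0 0 Y.p) (hX.sum hY).hp (hX.sum hY).pp ?_ ?_ ?_⟩
  · have h1 : X.D * m = -(m * Y.D) := eq_neg_of_add_eq_zero_left DD.2.1
    have h2 : X.p * (m * Y.D) = m * Y.D := by
      rw [← neg_neg (m * Y.D), ← h1, Matrix.mul_neg, ← Matrix.mul_assoc, pD.1]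
    rw [← Matrix.mul_assoc, ← Matrix.mul_assoc, Dp.1, h1, Matrix.mul_assoc _ Y.p, pD.2.2,
      Matrix.mul_assoc X.p, h2, Matrix.neg_mul, Matrix.mul_assoc, Dp.2.2, neg_add_cancel]
  · simp [fromBlocks_multiply, Matrix.mul_assoc, pp.1, pp.2.2, pp.2.1]
  · simp [fromBlocks_multiply, pp.1, pp.2.2, e1]
  · simp [fromBlocks_multiply, pD.1, pD.2.2, Dp.1, Dp.2.2]

/-- A block triangular complex is an extension of its diagonal blocks. -/
theorem tri_res (hH : LR H) (hX : Ok H X) (U : X.J → Prop) [DecidablePred U]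
    (hp : ∀ i j, ¬U i → U j → X.p i j = 0) (hD : ∀ i j, ¬U i → U j → X.D i j = 0) :
    Ok H (X.res (Subtype.val : {j // U j} → X.J)) ∧
      Ok H (X.res (Subtype.val : {j // ¬U j} → X.J)) ∧
      ∃ t, Tw H (X.res (Subtype.val : {j // U j} → X.J)) (X.res (Subtype.val : {j // ¬U j} → X.J)) t ∧
        HE H X ((X.res (Subtype.val : {j // U j} → X.J)).ext
          (X.res (Subtype.val : {j // ¬U j} → X.J)) t) := by
  have hS : Sub (((X.res (Subtype.val : {j // U j} → X.J)).sum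
      (X.res (Subtype.val : {j // ¬U j} → X.J))).re
      (fromBlocks (X.res (Subtype.val : {j // U j} → X.J)).p (X.p.submatrix Subtype.val Subtype.val)
        0 (X.res (Subtype.val : {j // ¬U j} → X.J)).p)
      (fromBlocks (X.res (Subtype.val : {j // U j} → X.J)).D (X.D.submatrix Subtype.val Subtype.val)
        0 (X.res (Subtype.val : {j // ¬U j} → X.J)).D)) X := by
    refine (Sub.of_equiv (Equiv.sumCompl U) ?_ ?_ ?_).1
    · rintro (i | i) <;> rfl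
    · ext (i | i) (j | j)
      exacts [rfl, rfl, (hp _ _ i.2 j.2).symm, rfl]
    · ext (i | i) (j | j)
      exacts [rfl, rfl, (hD _ _ i.2 j.2).symm, rfl]
  obtain ⟨h1, h2, h3, h4⟩ := a7_blocks hH (hS.ok_iff.2 hX)
  exact ⟨h1, h2, _, h3, hS.he_left.1 h4⟩

/-- An idempotent that is only compatible with `p` on one side. -/
theorem Cut.of_left (hH : LR H) (hX : Ok H X) {e : Matrix X.J X.J A} (hm : Hm H 0 X.t X.t e)
    (ee : e * e = e) (pe : X.p * e = e) (De : e * X.D * e = X.D * e) : Cut H X (e * X.p) where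
  hm := hm.mul hH hX.hp (by omega)
  ee := by rw [← mul_assoc, mul_assoc e X.p e, pe, ee]
  pe := by rw [← mul_assoc, pe]
  ep := by rw [mul_assoc, hX.pp]
  De := by rw [mul_assoc e, hX.pD, ← mul_assoc, De, mul_assoc]

theorem retract (hH : LR H) (hX : Ok H X) (hY : Ok H Y) {i : Matrix X.J Y.J A}
    {r : Matrix Y.J X.J A} (hi : Ch H X Y i) (hr : Ch H Y X r) (h : r * i = Y.p) :
    Ok H (X.quo (i * r)) ∧ HE H X (Y.sum (X.quo (i * r))) ∧
      ∀ w, (∀ x, w * x = x * w) → Nul H w X → Nul H w (X.quo (i * r)) := by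
  have hm : Hm H 0 X.t X.t (i * r) := hi.hm.mul hH hr.hm (by omega)
  have ei : i * r * i = i := by rw [Matrix.mul_assoc, h, hi.pr]
  have re : r * (i * r) = r := by rw [← Matrix.mul_assoc, h, hr.pl]
  have ee : i * r * (i * r) = i * r := by rw [← Matrix.mul_assoc, ei]
  have pe : X.p * (i * r) = i * r := by rw [← Matrix.mul_assoc, hi.pl]
  have ep : i * r * X.p = i * r := by rw [Matrix.mul_assoc, hr.pr]
  have eD : i * r * X.D = X.D * (i * r) := by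
    rw [← Matrix.mul_assoc, hi.cm, Matrix.mul_assoc, Matrix.mul_assoc, hr.cm]
  have hq := (tri hH hX ⟨hm, ee, pe, ep, by rw [eD, mul_assoc, ee]⟩).2.1
  have qq : (X.p - i * r) * (X.p - i * r) = X.p - i * r := hq.pp
  have pq : X.p * (X.p - i * r) = X.p - i * r := by rw [mul_sub, hX.pp, pe]
  have qp : (X.p - i * r) * X.p = X.p - i * r := by rw [sub_mul, hX.pp, ep]
  have qD : (X.p - i * r) * X.D = X.D * (X.p - i * r) := by
    rw [mul_sub, sub_mul, hX.pD, hX.Dp, eD]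
  have rq : r * (X.p - i * r) = 0 := by rw [Matrix.mul_sub, hr.pr, re, sub_self]
  have qi : (X.p - i * r) * i = 0 := by rw [Matrix.sub_mul, hi.pl, ei, sub_self]
  have hq' : Hm H 0 X.t X.t (X.p - i * r) := hq.hp
  have e1 : (X.p - i * r) * X.D * (X.p - i * r) = (X.p - i * r) * X.D := hq.Dp
  have e2 : (X.p - i * r) * ((X.p - i * r) * X.D) = (X.p - i * r) * X.D := hq.pD
  refine ⟨hq, HE.of_iso (f := fromRows r (X.p - i * r)) (g := fromCols i (X.p - i * r))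
    ⟨⟨hr.hm.rows hq', ?_, ?_⟩, ?_⟩ ⟨⟨hi.hm.cols hq', ?_, ?_⟩, ?_⟩ ?_ ?_, ?_⟩
  · simp [fromBlocks_mul_fromRows, hr.pl, qq]
  · simp [fromRows_mul, hr.pr, qp]
  · simp [fromBlocks_mul_fromRows, fromRows_mul, hr.cm, e1]
  · simp [mul_fromCols, hi.pl, pq]
  · simp [fromCols_mul_fromBlocks, hi.pr, qq]
  · rw [fromCols_mul_fromBlocks, mul_fromCols, hi.cm, e2, qD, Matrix.mul_zero, Matrix.mul_zero,
      add_zero, zero_add]
  · rw [fromCols_mul_fromRows, qq, add_sub_cancel]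
  · rw [fromRows_mul_fromCols, h, qq, rq, qi]
  · rintro w hw ⟨s, h1, h2⟩
    refine ⟨(X.p - i * r) * s * (X.p - i * r),
      (hq'.mul hH h1 (e := 1) (by omega)).mul hH hq' (by omega), ?_⟩
    show (X.p - i * r) * X.D * ((X.p - i * r) * s * (X.p - i * r)) +
      (X.p - i * r) * s * (X.p - i * r) * ((X.p - i * r) * X.D) = w • (X.p - i * r)
    generalize X.p - i * r = q at *
    rw [← mul_assoc, ← mul_assoc, e1, mul_assoc _ q, e2, qD, ← qD, mul_assoc q X.D, qD,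
      ← mul_assoc (q * s), mul_assoc q s, ← add_mul, ← mul_add, h2, mul_smul_cen hw, qp,
      smul_mul_assoc, qq]

theorem pert_gr {𝓗 : ℕ → Fam A Λ} (hH : Gr 𝓗 S) (hw : ∀ k, Sc (𝓗 k) w) {k m : ℕ}
    {h N : Matrix X.J X.J A} (hDD : X.D * X.D = 0) (pD : X.p * X.D = X.D) (Dp : X.D * X.p = X.D)
    (hh : Hm (𝓗 k) 1 X.t X.t h) (hN : Hm (𝓗 k) 0 X.t X.t N) (pN : X.p * N = N)
    (e : X.D * h + h * X.D = w • X.p + N) (hm : N ^ (m + 1) = 0) :
    Nul (𝓗 ((m + 1) * k)) (w ^ (m + 1)) X := by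
  have hc := (hw 0).1
  have c : Commute X.D N := by
    have h1 : X.D * (X.D * h + h * X.D) = (X.D * h + h * X.D) * X.D := by
      rw [mul_add, add_mul, ← mul_assoc, hDD, mul_assoc h, hDD, zero_mul, mul_zero, zero_add,
        add_zero, mul_assoc]
    rw [e, mul_add, add_mul, mul_smul_cen hc, Dp, smul_mul_assoc, pD] at h1
    exact add_left_cancel h1
  have key : ∀ n : ℕ, Hm (𝓗 ((n + 1) * k)) 0 X.t X.t ((-N) ^ (n + 1)) ∧
      ∃ s, Hm (𝓗 ((n + 1) * k)) 1 X.t X.t s ∧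
        X.D * s + s * X.D = w ^ (n + 1) • X.p - (-N) ^ (n + 1) := by
    intro n
    induction n with
    | zero =>
      simp only [zero_add, one_mul, pow_one, sub_neg_eq_add]
      exact ⟨hN.neg, h, hh, e⟩
    | succ n ih =>
      obtain ⟨h1, s, h2, h3⟩ := ih
      have hk : k + (n + 1) * k ≤ (n + 1 + 1) * k := le_of_eq (by ring)
      have h4 : X.p * (-N) ^ (n + 1) = (-N) ^ (n + 1) := by
        rw [pow_succ', ← mul_assoc, mul_neg, pN]
      refine ⟨pow_succ' (-N) (n + 1) ▸ hN.neg.mul_gr hH h1 (by omega) hk,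
        w • s + h * (-N) ^ (n + 1), ((h2.smul (hw _)).mono (hH.mono (by omega))).add
          (hh.mul_gr hH h1 (by omega) hk), ?_⟩
      rw [mul_add, add_mul, mul_smul_cen hc, smul_mul_assoc, add_add_add_comm, ← smul_add, h3,
        mul_assoc h, ← (c.neg_right.pow_right (n + 1)).eq, ← mul_assoc, ← mul_assoc, ← add_mul, e,
        add_mul, smul_mul_assoc, h4, smul_sub, smul_smul, ← pow_succ', pow_succ' (-N) (n + 1),
        neg_mul]
      abel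
  obtain ⟨-, s, h1, h2⟩ := key m
  rw [neg_pow, hm, mul_zero, sub_zero] at h2
  exact ⟨s, h1, h2⟩

theorem pert (hH : LR H) (hX : Ok H X) (hw : Sc H w) {m : ℕ} {h N : Matrix X.J X.J A}
    (hh : Hm H 1 X.t X.t h) (hN : Hm H 0 X.t X.t N) (pN : X.p * N = N)
    (e : X.D * h + h * X.D = w • X.p + N) (hm : N ^ (m + 1) = 0) : Nul H (w ^ (m + 1)) X :=
  pert_gr (S := (Empty.elim : Empty → Submonoid A)) (𝓗 := fun _ => H) (k := 0)
    ⟨fun _ _ _ => le_rfl, fun _ _ _ _ _ _ _ hx hy => hH hx hy, fun a => a.elim, fun a => a.elim⟩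
    (fun _ => hw) hX.DD hX.pD hX.Dp hh hN pN e hm

end Pool.Agent.MP_f7db47_al.KN

end

section

/-!
Entrywise functors. No closure property of the families is needed.
-/

namespace Pool.Agent.MP_f7db47_al.KN

open Matrix

universe v w

variable {A : Type v} [Ring A] {Λ ι : Type} {H H' I I' : Fam A Λ} {S : ι → Submonoid A}
  {K K' : Finset ι} {W : Set ℤ} {X X' Y Y' Z : Cx A Λ} {w w' : A}
  {A' : Type w} [Ring A'] {Λ' : Type} {G : Fam A' Λ'} {S' : ι → Submonoid A'}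

variable {φ : A →+ A'} {π : Λ → Λ'}

theorem Hm.sf (hφ : Sf H G S S' φ π) {d : ℤ} {J₁ J₂ : Type} {s : J₁ → Λ × ℤ} {t : J₂ → Λ × ℤ}
    {f : Matrix J₁ J₂ A} (hf : Hm H d s t f) :
    Hm G d (fun i => (π (s i).1, (s i).2)) (fun j => (π (t j).1, (t j).2)) (f.map φ) :=
  fun i j => ⟨hφ.mem (hf i j).1, fun e => (hf i j).2 fun e1 =>
    e (by rw [Matrix.map_apply, e1, map_zero])⟩

theorem Sf.map_mul (hφ : Sf H G S S' φ π) {d d' : ℤ} {J₁ J₂ J₃ : Type} [Fintype J₂]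
    {s : J₁ → Λ × ℤ} {t : J₂ → Λ × ℤ} {u : J₃ → Λ × ℤ} {f : Matrix J₁ J₂ A} {g : Matrix J₂ J₃ A}
    (hf : Hm H d s t f) (hg : Hm H d' t u g) : (f * g).map φ = f.map φ * g.map φ := by
  ext i k
  simp only [Matrix.map_apply, Matrix.mul_apply, map_sum]
  exact Finset.sum_congr rfl fun j _ => hφ.mul (hf i j).1 (hg j k).1

theorem a10_add {I J : Type} (f g : Matrix I J A) : (f + g).map φ = f.map φ + g.map φ :=
  Matrix.map_add φ (map_add φ) f g

theorem a10_zero {I J : Type} : (0 : Matrix I J A).map φ = 0 := Matrix.map_zero φ (map_zero φ)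

theorem a10_mp (hφ : Sf H G S S' φ π) {d : ℤ} {f : Matrix Y.J X.J A} (hY : Ok H Y) (hX : Ok H X)
    (h : Mp H d Y X f) : Mp G d (Y.smap φ π) (X.smap φ π) (f.map φ) :=
  ⟨h.hm.sf hφ, by rw [← hφ.map_mul hY.hp h.hm, h.pl], by rw [← hφ.map_mul h.hm hX.hp, h.pr]⟩

theorem a10_nul (hφ : Sf H G S S' φ π) (hX : Ok H X) {v : A'}
    (hw : ∀ ⦃i j x⦄, x ∈ H i j → φ (w * x) = v * φ x) (h : Nul H w X) :
    Nul G v (X.smap φ π) := by
  obtain ⟨s, h1, h2⟩ := h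
  refine ⟨s.map φ, h1.sf hφ, ?_⟩
  rw [← hφ.map_mul hX.hD h1, ← hφ.map_mul h1 hX.hD, ← a10_add, h2]
  ext i j
  exact hw (hX.hp i j).1

theorem Ok.sf (hφ : Sf H G S S' φ π) (h : Ok H X) : Ok G (X.smap φ π) :=
  ⟨h.hp.sf hφ, h.hD.sf hφ, by rw [← hφ.map_mul h.hp h.hp, h.pp],
    by rw [← hφ.map_mul h.hp h.hD, h.pD], by rw [← hφ.map_mul h.hD h.hp, h.Dp],
    by rw [← hφ.map_mul h.hD h.hD, h.DD, a10_zero]⟩

theorem Ch.sf (hφ : Sf H G S S' φ π) {f : Matrix Y.J X.J A} (hY : Ok H Y) (hX : Ok H X)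
    (h : Ch H Y X f) : Ch G (Y.smap φ π) (X.smap φ π) (f.map φ) :=
  ⟨a10_mp hφ hY hX h.toMp, by rw [← hφ.map_mul hY.hD h.hm, ← hφ.map_mul h.hm hX.hD, h.cm]⟩

theorem Tw.sf (hφ : Sf H G S S' φ π) {f : Matrix Y.J X.J A} (hY : Ok H Y) (hX : Ok H X)
    (h : Tw H Y X f) : Tw G (Y.smap φ π) (X.smap φ π) (f.map φ) :=
  ⟨a10_mp hφ hY hX h.toMp, by
    rw [← hφ.map_mul hY.hD h.hm, ← hφ.map_mul h.hm hX.hD, ← a10_add, h.cm, a10_zero]⟩

theorem HE.sf (hφ : Sf H G S S' φ π) (hX : Ok H X) (hY : Ok H Y) (h : HE H X Y) :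
    HE G (X.smap φ π) (Y.smap φ π) := by
  obtain ⟨f, g, a, b, c⟩ := h
  refine ⟨f.map φ, g.map φ, a.map φ, b.map φ, c.hf.sf hφ hY hX, c.hg.sf hφ hX hY, c.hh.sf hφ,
    c.hk.sf hφ, ?_, ?_⟩
  · rw [← hφ.map_mul c.hg.hm c.hf.hm, ← hφ.map_mul hX.hD c.hh, ← hφ.map_mul c.hh hX.hD,
      ← a10_add, ← a10_add, c.gf]
  · rw [← hφ.map_mul c.hf.hm c.hg.hm, ← hφ.map_mul hY.hD c.hk, ← hφ.map_mul c.hk hY.hD,
      ← a10_add, ← a10_add, c.fg]

theorem Nul.sf_one (hφ : Sf H G S S' φ π) (hX : Ok H X) (h : Nul H 1 X) :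
    Nul G 1 (X.smap φ π) :=
  a10_nul hφ hX (fun _ _ _ _ => by rw [one_mul, one_mul]) h

theorem Obj.sf (hφ : Sf H G S S' φ π) (h : Obj H S K X) : Obj G S' K (X.smap φ π) :=
  ⟨h.ok.sf hφ, fun a ha => by
    obtain ⟨w, hw, hn⟩ := h.tor a ha
    obtain ⟨v, hv, e⟩ := hφ.lin a w hw
    exact ⟨v, hv, a10_nul hφ h.ok e hn⟩⟩

theorem smap_ext (t : Matrix X.J Y.J A) :
    (X.ext Y t).smap φ π = (X.smap φ π).ext (Y.smap φ π) (t.map φ) := by
  simp only [Cx.smap, Cx.ext, fromBlocks_map, a10_zero]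
  congr 1
  funext j
  cases j <;> rfl

theorem Cert.sf (hφ : Sf H G S S' φ π) (hX : Ok H X) (h : Cert H S K W X) :
    Cert G S' K W (X.smap φ π) := by
  obtain ⟨P, Q, B, t, t', c, e, e'⟩ := h
  have e1 := e.sf hφ (c.oP.ok.ext c.oQ.ok c.ht) (hX.sum c.oB.ok)
  have e2 := e'.sf hφ (c.oP.ok.ext c.oQ.ok c.ht') c.oB.ok
  rw [smap_ext, smap_ext, a10_zero] at e1
  rw [smap_ext] at e2
  exact ⟨P.smap φ π, Q.smap φ π, B.smap φ π, t.map φ, t'.map φ,
    ⟨c.oP.sf hφ, c.oQ.sf hφ, c.oB.sf hφ, c.wP, c.wQ, c.wB, c.ht.sf hφ c.oP.ok c.oQ.ok,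
      c.ht'.sf hφ c.oP.ok c.oQ.ok⟩, e1, e2⟩

theorem a10_lift {G : Fam A' Λ} (hs : ∀ a b, ∀ y ∈ G a b, ∃ x ∈ H a b, φ x = y)
    (hi : Function.Injective φ) {d : ℤ} {I J : Type} {s : I → Λ × ℤ} {t : J → Λ × ℤ}
    {f' : Matrix I J A'} (h : Hm G d s t f') : ∃ f, Hm H d s t f ∧ f.map φ = f' := by
  choose f h1 h2 using fun i j => hs _ _ _ (h i j).1
  refine ⟨Matrix.of f, fun i j => ⟨h1 i j, fun e => (h i j).2 fun e1 => e (hi ?_)⟩,
    Matrix.ext h2⟩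
  rw [map_zero, ← e1]
  exact h2 i j

/-- Lifting along an injective functor that is onto on the families. -/
theorem Ok.lift {G : Fam A' Λ} (hφ : Sf H G S S' φ id) (hi : Function.Injective φ)
    (hs : ∀ a b, ∀ y ∈ G a b, ∃ x ∈ H a b, φ x = y) {Y : Cx A' Λ} (h : Ok G Y) :
    ∃ X : Cx A Λ, Ok H X ∧ X.smap φ id = Y := by
  obtain ⟨p, hp, ep⟩ := a10_lift hs hi h.hp
  obtain ⟨D, hD, eD⟩ := a10_lift hs hi h.hD
  have inj : ∀ {f g : Matrix Y.J Y.J A}, f.map φ = g.map φ → f = g := fun e =>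
    Matrix.map_injective hi e
  refine ⟨⟨Y.J, Y.t, p, D⟩, ⟨hp, hD, inj ?_, inj ?_, inj ?_, inj ?_⟩, ?_⟩
  · rw [hφ.map_mul hp hp, ep, h.pp]
  · rw [hφ.map_mul hp hD, ep, eD, h.pD]
  · rw [hφ.map_mul hD hp, ep, eD, h.Dp]
  · rw [hφ.map_mul hD hD, eD, h.DD, a10_zero]
  · change (⟨Y.J, Y.t, p.map φ, D.map φ⟩ : Cx A' Λ) = Y
    rw [ep, eD]

theorem Obj.lift {G : Fam A' Λ} (hφ : Sf H G S S' φ id) (hi : Function.Injective φ)
    (hs : ∀ a b, ∀ y ∈ G a b, ∃ x ∈ H a b, φ x = y)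
    (hS : ∀ a, ∀ w' ∈ S' a, ∃ w ∈ S a, ∀ ⦃i j x⦄, x ∈ H i j → φ (w * x) = w' * φ x) {Y : Cx A' Λ}
    (h : Obj G S' K Y) : ∃ X : Cx A Λ, Obj H S K X ∧ X.smap φ id = Y := by
  obtain ⟨X, hX, rfl⟩ := h.ok.lift hφ hi hs
  refine ⟨X, ⟨hX, fun a ha => ?_⟩, rfl⟩
  obtain ⟨v, hv, s', h1, h2⟩ := h.tor a ha
  obtain ⟨w, hw, e⟩ := hS a v hv
  obtain ⟨s, h3, rfl⟩ := a10_lift hs hi h1
  have h4 : Hm H 1 X.t X.t s := h3
  refine ⟨w, hw, s, h4, Matrix.map_injective hi ?_⟩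
  change (X.D * s + s * X.D).map φ = (w • X.p).map φ
  rw [a10_add, hφ.map_mul hX.hD h4, hφ.map_mul h4 hX.hD]
  refine h2.trans ?_
  ext i j
  exact (e (hX.hp i j).1).symm

theorem NullAll.pull {G : Fam A' Λ} (hφ : Sf H G S S' φ id) (hi : Function.Injective φ)
    (hs : ∀ a b, ∀ y ∈ G a b, ∃ x ∈ H a b, φ x = y)
    (hS : ∀ a, ∀ w' ∈ S' a, ∃ w ∈ S a, ∀ ⦃i j x⦄, x ∈ H i j → φ (w * x) = w' * φ x)
    (h : NullAll H S K) : NullAll G S' K := fun Y hY => by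
  obtain ⟨X, hX, rfl⟩ := hY.lift hφ hi hs hS
  exact (h X hX).sf hφ hX.ok

end Pool.Agent.MP_f7db47_al.KN

end

section

/-!
Three general tools: additive invariants, lifting along functors, free models.
-/

namespace Pool.Agent.MP_f7db47_al.KN

open Matrix

universe v w

variable {A : Type v} [Ring A] {Λ ι : Type} {H : Fam A Λ} {S : ι → Submonoid A}
  {K : Finset ι} {W : Set ℤ} {X Y : Cx A Λ}

section Inv

variable {M : Type w} [AddCommGroup M] {κ : Cx A Λ → M}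

theorem o1_he (hH : Good H S)
    (hx : ∀ X Y t, Obj H S K X → Obj H S K Y → Tw H X Y t → κ (X.ext Y t) = κ X + κ Y)
    (h0 : ∀ X, Ok H X → Nul H 1 X → κ X = 0) (hX : Obj H S K X) (hY : Obj H S K Y)
    (e : HE H X Y) : κ X = κ Y := by
  obtain ⟨f, g, h, k, e⟩ := e
  have h1 := h0 _ (hY.ok.cone hX.ok e.hf) (cone_nul hH.mul hX.ok hY.ok e)
  have h2 := h0 _ (hX.ok.cone hX.ok (Ch.id hX.ok)) (by
    have := cone_smul hX.ok (Sc.one (H := H))
    rwa [one_smul] at this)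
  rw [hx _ _ _ hY (hX.sh 1) e.hf.tw] at h1
  rw [hx _ _ _ hX (hX.sh 1) (Ch.id hX.ok).tw] at h2
  exact add_right_cancel (h2.trans h1.symm)

/-- Additive invariants vanish on objects with a certificate. -/
theorem Cert.inv (hH : Good H S)
    (hx : ∀ X Y t, Obj H S K X → Obj H S K Y → Tw H X Y t → κ (X.ext Y t) = κ X + κ Y)
    (h0 : ∀ X, Ok H X → Nul H 1 X → κ X = 0) (hX : Obj H S K X) (h : Cert H S K W X) :
    κ X = 0 := by
  obtain ⟨P, Q, B, t, t', d, e, e'⟩ := h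
  have h1 := o1_he hH hx h0 (d.oP.ext hH d.ht d.oQ) (hX.sum hH d.oB) e
  have h2 := o1_he hH hx h0 (d.oP.ext hH d.ht' d.oQ) d.oB e'
  rw [hx _ _ _ d.oP d.oQ d.ht, hx _ _ _ hX d.oB (Tw.zero _ _)] at h1
  rw [hx _ _ _ d.oP d.oQ d.ht', h1] at h2
  exact add_eq_right.1 h2

end Inv

section Pull

variable {A' : Type w} [Ring A'] {G : Fam A' Λ} {S' : ι → Submonoid A'} {φ : A →+ A'}

theorem o1_lift (hi : ∀ a b, ∀ x ∈ H a b, φ x = 0 → x = 0)
    (hs : ∀ a b, ∀ y ∈ G a b, ∃ x ∈ H a b, φ x = y) {d : ℤ} {J : Type} {s : J → Λ × ℤ}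
    {f : Matrix J J A'} (hf : Hm G d s s f) : ∃ f', Hm H d s s f' ∧ f'.map φ = f := by
  choose f' h1 h2 using fun i j => hs _ _ _ (hf i j).1
  exact ⟨f', fun i j => ⟨h1 i j, fun c => (hf i j).2 fun e => c (hi _ _ _ (h1 i j)
    ((h2 i j).trans e))⟩, Matrix.ext h2⟩

theorem o1_inj (hi : ∀ a b, ∀ x ∈ H a b, φ x = 0 → x = 0) {d d' : ℤ} {J : Type} {s : J → Λ × ℤ}
    {f g : Matrix J J A} (hf : Hm H d s s f) (hg : Hm H d' s s g) (h : f.map φ = g.map φ) :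
    f = g := Matrix.ext fun i j => sub_eq_zero.1 (hi _ _ _ (sub_mem (hf i j).1 (hg i j).1) (by
      rw [map_sub, sub_eq_zero]
      exact congrFun (congrFun h i) j))

/-- Vanishing passes along a functor that is bijective on the families. -/
theorem NullAll.pull' (hH : Good H S) (hφ : Sf H G S S' φ id)
    (hi : ∀ a b, ∀ x ∈ H a b, φ x = 0 → x = 0) (hs : ∀ a b, ∀ y ∈ G a b, ∃ x ∈ H a b, φ x = y)
    (hS : ∀ a, ∀ w' ∈ S' a, ∃ w ∈ S a, ∀ ⦃i j x⦄, x ∈ H i j → φ (w * x) = w' * φ x)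
    (h : NullAll H S K) : NullAll G S' K := by
  rintro ⟨J, t, p, D⟩ ⟨hY, hT⟩
  obtain ⟨p, hp, rfl⟩ := o1_lift (s := t) (f := p) hi hs hY.hp
  obtain ⟨D, hD, rfl⟩ := o1_lift (s := t) (f := D) hi hs hY.hD
  let X : Cx A Λ := ⟨J, t, p, D⟩
  have hX : Ok H X := ⟨hp, hD,
    o1_inj hi (hp.mul hH.mul hp rfl) hp ((hφ.map_mul hp hp).trans hY.pp),
    o1_inj hi (hp.mul hH.mul hD rfl) hD ((hφ.map_mul hp hD).trans hY.pD),
    o1_inj hi (hD.mul hH.mul hp rfl) hD ((hφ.map_mul hD hp).trans hY.Dp),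
    o1_inj hi (hD.mul hH.mul hD rfl) (Hm.zero (d := 0) _ _)
      ((hφ.map_mul hD hD).trans (hY.DD.trans (Matrix.map_zero _ (map_zero φ)).symm))⟩
  refine Cert.sf hφ hX (h X ⟨hX, fun a ha => ?_⟩)
  obtain ⟨w', hw', k, hk, e⟩ := hT a ha
  obtain ⟨w, hw, hw2⟩ := hS a w' hw'
  obtain ⟨k, hk', rfl⟩ := o1_lift (s := t) (f := k) hi hs hk
  refine ⟨w, hw, k, hk', o1_inj hi ((hD.mul hH.mul hk' (e := 0) rfl).add
    (hk'.mul hH.mul hD rfl)) (hp.smul (hH.sc hw)) ?_⟩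
  rw [Matrix.map_add _ (map_add φ), hφ.map_mul hD hk', hφ.map_mul hk' hD]
  exact e.trans (Matrix.ext fun i j => (hw2 (hp i j).1).symm)

end Pull

section Free

/-- All idempotent matrices are stably free. -/
def SFree (H : Fam A Unit) : Prop :=
  ∀ (J : Type) [Fintype J] [DecidableEq J] (p : Matrix J J A), (∀ i j, p i j ∈ H () ()) →
    p * p = p → ∃ (E : Type) (_ : Fintype E) (_ : DecidableEq E) (r : ℕ)
      (f : Matrix (J ⊕ E) (Fin r) A) (g : Matrix (Fin r) (J ⊕ E) A), (∀ i j, f i j ∈ H () ()) ∧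
      (∀ i j, g i j ∈ H () ()) ∧ f * g = fromBlocks p 0 0 1 ∧ g * f = 1

variable {H : Fam A Unit} {X : Cx A Unit}

theorem o1_one (hH : LR H) (h1 : 1 ∈ H () ()) (hF : SFree H) (hX : Ok H X) {a : ℤ}
    (hW : ∀ j, (X.t j).2 = a) : ∃ Y, Ok H Y ∧ Y.p = 1 ∧ HE H X Y := by
  obtain ⟨E, _, _, r, f, g, hf, hg, e1, e2⟩ := hF X.J X.p (fun i j => (hX.hp i j).1) hX.pp
  have hD : X.D = 0 := Matrix.ext fun i j => by
    by_contra c
    have := (hX.hD i j).2 c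
    rw [hW, hW] at this
    omega
  have ok : ∀ (E : Type) [Fintype E] [DecidableEq E], Ok H ⟨E, fun _ => ((), a), 1, 0⟩ :=
    fun E _ _ => ⟨fun i j => ⟨by
      change (1 : Matrix E E A) i j ∈ _
      rw [Matrix.one_apply]
      split_ifs
      exacts [h1, zero_mem _], fun _ => (add_zero a).symm⟩, Hm.zero _ _, mul_one _, mul_zero _,
      zero_mul _, mul_zero _⟩
  let Z : Cx A Unit := ⟨E, fun _ => ((), a), 1, 0⟩
  let Y : Cx A Unit := ⟨Fin r, fun _ => ((), a), 1, 0⟩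
  have hZ : Ok H Z := ok E
  have hY : Ok H Y := ok _
  have hd : ∀ j, ((X.sum Z).t j).2 = a := by
    rintro (j | j)
    exacts [hW j, rfl]
  have hD' : (X.sum Z).D = 0 := by
    change fromBlocks X.D 0 0 0 = 0
    rw [hD, fromBlocks_zero]
  have e3 : HE H (X.sum Z) Y := HE.of_iso (f := g) (g := f)
    ⟨⟨fun i j => ⟨hg i j, fun _ => ((add_zero _).trans (hd j)).symm⟩, Matrix.one_mul _, by
      change g * fromBlocks X.p 0 0 1 = g
      rw [← e1, ← Matrix.mul_assoc, e2, Matrix.one_mul]⟩, by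
      rw [hD', Matrix.mul_zero]
      exact Matrix.zero_mul _⟩
    ⟨⟨fun i j => ⟨hf i j, fun _ => (hd i).trans (add_zero _).symm⟩, by
      change fromBlocks X.p 0 0 1 * f = f
      rw [← e1, Matrix.mul_assoc, e2, Matrix.mul_one], Matrix.mul_one _⟩, by
      rw [hD', Matrix.zero_mul]
      exact (Matrix.mul_zero _).symm⟩ e1 e2
  obtain ⟨k, hk, e4⟩ := cone_sum hH hX hZ hY e3.symm
  exact ⟨Y.cone Z k, hY.cone hZ hk, fromBlocks_one, e4.symm⟩

/-- Every complex is equivalent to a free complex. -/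
theorem stdz_of (hH : LR H) (h1 : 1 ∈ H () ()) (hF : SFree H) : Stdz H fun Y => Y.p = 1 := by
  have key : ∀ (n : ℕ) (a : ℤ) (X : Cx A Unit), Ok H X → Wd (Set.Ico a (a + n)) X →
      ∃ Y, Ok H Y ∧ Y.p = 1 ∧ HE H X Y := by
    intro n
    induction n with
    | zero =>
      intro a X hX hW
      exact o1_one hH h1 hF hX (a := a) fun j => by
        have := hW j
        simp at this
    | succ n ih =>
      intro a X hX hW
      obtain ⟨h2, h3, t, ht, e⟩ := tri_res hH hX (fun j => (X.t j).2 = a)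
        (fun i j hi hj => by
          by_contra c
          exact hi (by rw [(hX.hp i j).2 c, hj, add_zero]))
        (fun i j _ hj => by
          by_contra c
          have := (hX.hD i j).2 c
          have := (hW i).1
          omega)
      obtain ⟨Y, a1, a2, a3⟩ := o1_one hH h1 hF h2 (a := a) fun j => j.2
      obtain ⟨Y', b1, b2, b3⟩ := ih (a + 1) _ h3 fun j => by
        have c1 := hW j.1
        have c2 := j.2
        simp only [Set.mem_Ico] at c1 ⊢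
        push_cast at c1
        omega
      obtain ⟨t', c1, c2⟩ := ext_congr hH h2 a1 h3 b1 a3 b3 ht
      refine ⟨_, a1.ext b1 c1, ?_, e.trans hH c2⟩
      change fromBlocks Y.p 0 0 Y'.p = 1
      rw [a2, b2, fromBlocks_one]
  intro X hX
  obtain ⟨L, hL⟩ := exists_bd X
  exact key (2 * L + 1) (-L) X hX (hL.mono fun x hx => by
    simp only [Set.mem_Ico, Set.mem_Icc] at hx ⊢
    push_cast
    omega)

end Free

end Pool.Agent.MP_f7db47_al.KN

end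

section

/-!
The relation `Sim`.
-/

namespace Pool.Agent.MP_f7db47_al.KN

open Matrix

universe v w

variable {A : Type v} [Ring A] {Λ ι : Type} {H H' I I' : Fam A Λ} {S : ι → Submonoid A}
  {K K' : Finset ι} {W : Set ℤ} {X X' Y Y' Z : Cx A Λ} {w w' : A}

theorem Sim.symm (h : Sim H S K W X Y) : Sim H S K W Y X := by
  obtain ⟨P, Q, B, t, t', c, e, e'⟩ := h
  exact ⟨P, Q, B, t', t, ⟨c.oP, c.oQ, c.oB, c.wP, c.wQ, c.wB, c.ht', c.ht⟩, e', e⟩

theorem a8a_wd : Wd W (Cx.zero A Λ) := fun j => j.elim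

theorem Sim.of_he (hH : Good H S) (hX : Obj H S K X) (hW : Wd W X) (hY : Ok H Y) (e : HE H X Y) :
    Sim H S K W X Y :=
  ⟨X, Cx.zero A Λ, Cx.zero A Λ, 0, 0,
    ⟨hX, Obj.zero, Obj.zero, hW, a8a_wd, a8a_wd, Tw.zero _ _, Tw.zero _ _⟩,
    HE.refl (hX.ok.sum Ok.zero), e.sum_left Ok.zero⟩

theorem Sim.trans (hH : Good H S) (hX : Ok H X) (hY : Obj H S K Y) (hW : Wd W Y) (hZ : Ok H Z)
    (h : Sim H S K W X Y) (h' : Sim H S K W Y Z) : Sim H S K W X Z := by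
  obtain ⟨P, Q, B, t, t', c, e, e'⟩ := h
  obtain ⟨P', Q', B', s, s', d, f, f'⟩ := h'
  refine ⟨P.sum P', Q.sum Q', B.sum (Y.sum B'), fromBlocks t 0 0 s, fromBlocks t' 0 0 s',
    ⟨c.oP.sum hH d.oP, c.oQ.sum hH d.oQ, c.oB.sum hH (hY.sum hH d.oB), c.wP.ext d.wP _,
      c.wQ.ext d.wQ _, c.wB.ext (hW.ext d.wB _) _, tw_sum c.ht d.ht, tw_sum c.ht' d.ht'⟩,
    (sub_ext_sum t s).he_left.2 ((sub_sum_assoc X B (Y.sum B')).1.he_right.1 (e.sum f)),
    (sub_ext_sum t' s').he_left.2 (Sub.he_right ?_ |>.1 (e'.sum f'))⟩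
  exact ((sub_sum_comm _ _).trans (sub_sum_assoc Z B' (Y.sum B)).1).trans
    ((Sub.refl Z).sum (((sub_sum_comm _ _).trans ((sub_sum_comm Y B).sum (Sub.refl B'))).trans
      (sub_sum_assoc B Y B').1))

theorem Sim.sum (hH : Good H S) (hX : Ok H X) (hY : Ok H Y) (hZ : Obj H S K Z) (hW : Wd W Z)
    (h : Sim H S K W X Y) : Sim H S K W (X.sum Z) (Y.sum Z) := by
  obtain ⟨P, Q, B, t, t', c, e, e'⟩ := h
  have h0 : HE H (Z.sum (Cx.zero A Λ)) Z := (sub_zero_sum Z).2.he_left.1 (HE.refl hZ.ok)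
  have h1 : ∀ U : Cx A Λ, Sub ((U.sum B).sum Z) ((U.sum Z).sum B) := fun U =>
    ((sub_sum_assoc U B Z).1.trans ((Sub.refl U).sum (sub_sum_comm B Z))).trans
      (sub_sum_assoc U Z B).2
  exact ⟨P.sum Z, Q.sum (Cx.zero A Λ), B, fromBlocks t 0 0 0, fromBlocks t' 0 0 0,
    ⟨c.oP.sum hH hZ, c.oQ.sum hH Obj.zero, c.oB, c.wP.ext hW _, c.wQ.ext a8a_wd _, c.wB,
      tw_sum c.ht (Tw.zero _ _), tw_sum c.ht' (Tw.zero _ _)⟩,
    (sub_ext_sum t 0).he_left.2 ((h1 X).he_right.1 (e.sum h0)),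
    (sub_ext_sum t' 0).he_left.2 ((h1 Y).he_right.1 (e'.sum h0))⟩

theorem Sim.cancel (hH : Good H S) (hZ : Obj H S K Z) (hW : Wd W Z)
    (h : Sim H S K W (X.sum Z) (Y.sum Z)) : Sim H S K W X Y := by
  obtain ⟨P, Q, B, t, t', c, e, e'⟩ := h
  exact ⟨P, Q, Z.sum B, t, t', ⟨c.oP, c.oQ, hZ.sum hH c.oB, c.wP, c.wQ, hW.ext c.wB _, c.ht, c.ht'⟩,
    (sub_sum_assoc X Z B).1.he_right.1 e, (sub_sum_assoc Y Z B).1.he_right.1 e'⟩

theorem Sim.ext (hH : Good H S) (hX : Obj H S K X) (hY : Obj H S K Y) (wX : Wd W X) (wY : Wd W Y)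
    {t : Matrix X.J Y.J A} (ht : Tw H X Y t) : Sim H S K W (X.ext Y t) (X.sum Y) :=
  ⟨X, Y, Cx.zero A Λ, t, 0, ⟨hX, hY, Obj.zero, wX, wY, a8a_wd, ht, Tw.zero _ _⟩,
    (sub_zero_sum _).2.he_right.1 (HE.refl (hX.ok.ext hY.ok ht)),
    (sub_zero_sum _).2.he_right.1 (HE.refl (hX.ok.sum hY.ok))⟩

theorem sim_zero_iff : Sim H S K W X (Cx.zero A Λ) ↔ Cert H S K W X := by
  constructor
  · rintro ⟨P, Q, B, t, t', c, e, e'⟩
    exact ⟨P, Q, B, t, t', c, e, (sub_zero_sum B).1.he_right.2 e'⟩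
  · rintro ⟨P, Q, B, t, t', c, e, e'⟩
    exact ⟨P, Q, B, t, t', c, e, (sub_zero_sum B).1.he_right.1 e'⟩

theorem Cert.he_gr {𝓗 : ℕ → Fam A Λ} (hH : Gr 𝓗 S) {k : ℕ} (h : Cert (𝓗 k) S K W Y)
    (e : HE (𝓗 k) X Y) : Cert (𝓗 (3 * k)) S K W X := by
  obtain ⟨P, Q, B, t, t', c, f, f'⟩ := h
  have m : 𝓗 k ≤ 𝓗 (3 * k) := hH.mono (by omega)
  exact ⟨P, Q, B, t, t', ⟨c.oP.mono m, c.oQ.mono m, c.oB.mono m, c.wP, c.wQ, c.wB, c.ht.mono m,
    c.ht'.mono m⟩, f.trans_gr hH (e.symm.sum_left c.oB.ok), f'.mono m⟩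

theorem Cert.he (hH : LR H) (h : Cert H S K W Y) (e : HE H X Y) : Cert H S K W X := by
  obtain ⟨P, Q, B, t, t', c, f, f'⟩ := h
  exact ⟨P, Q, B, t, t', c, f.trans hH (e.symm.sum_left c.oB.ok), f'⟩

end Pool.Agent.MP_f7db47_al.KN

end

section

/-!
The Grothendieck group.
-/

namespace Pool.Agent.MP_f7db47_al.KN

open Matrix

universe v w

variable {A : Type v} [Ring A] {Λ ι : Type} {H H' I I' : Fam A Λ} {S : ι → Submonoid A}
  {K K' : Finset ι} {W : Set ℤ} {X X' Y Y' Z : Cx A Λ} {w w' : A}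

theorem a8_wd_zero (W : Set ℤ) : Wd W (Cx.zero A Λ) := fun j => j.elim

/-- The objects in the window. -/
abbrev a8_O (H : Fam A Λ) (S : ι → Submonoid A) (K : Finset ι) (W : Set ℤ) : Type (max 1 v) :=
  {X : Cx A Λ // Obj H S K X ∧ Wd W X}

/-- The relation on the objects in the window. -/
def a8_setoid (hH : Good H S) (K : Finset ι) (W : Set ℤ) : Setoid (a8_O H S K W) where
  r X Y := Sim H S K W X.1 Y.1
  iseqv :=
    ⟨fun X => Sim.of_he hH X.2.1 X.2.2 X.2.1.ok (HE.refl X.2.1.ok), fun h => h.symm,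
      fun {X Y Z} h h' => Sim.trans hH X.2.1.ok Y.2.1 Y.2.2 Z.2.1.ok h h'⟩

/-- The sum of objects in the window. -/
def a8_add (hH : Good H S) (X Y : a8_O H S K W) : a8_O H S K W :=
  ⟨X.1.sum Y.1, Obj.sum hH X.2.1 Y.2.1, X.2.2.ext Y.2.2 _⟩

theorem a8_of_he (hH : Good H S) {X Y : a8_O H S K W} (e : HE H X.1 Y.1) :
    (a8_setoid hH K W).r X Y := Sim.of_he hH X.2.1 X.2.2 Y.2.1.ok e

theorem a8_comm (hH : Good H S) (X Y : a8_O H S K W) :
    (a8_setoid hH K W).r (a8_add hH X Y) (a8_add hH Y X) :=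
  a8_of_he hH ((sub_sum_comm X.1 Y.1).he (a8_add hH Y X).2.1.ok)

theorem a8_left (hH : Good H S) {X Y : a8_O H S K W} (Z : a8_O H S K W)
    (h : (a8_setoid hH K W).r X Y) : (a8_setoid hH K W).r (a8_add hH X Z) (a8_add hH Y Z) :=
  Sim.sum hH X.2.1.ok Y.2.1.ok Z.2.1 Z.2.2 h

/-- The monoid of classes. -/
def a8_Q (hH : Good H S) (K : Finset ι) (W : Set ℤ) : Type (max 1 v) :=
  Quotient (a8_setoid hH K W)

/-- The class of an object. -/
def a8_mk (hH : Good H S) (X : a8_O H S K W) : a8_Q hH K W := Quotient.mk _ X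

theorem a8_ind (hH : Good H S) {P : a8_Q hH K W → Prop} (h : ∀ X, P (a8_mk hH X))
    (x : a8_Q hH K W) : P x := Quotient.inductionOn x h

theorem a8_eq (hH : Good H S) {X Y : a8_O H S K W} :
    a8_mk hH X = a8_mk hH Y ↔ Sim H S K W X.1 Y.1 := Quotient.eq

instance a8_instAdd (hH : Good H S) (K : Finset ι) (W : Set ℤ) : Add (a8_Q hH K W) :=
  ⟨Quotient.map₂ (a8_add hH) fun X X' h Y Y' h' =>
    (a8_setoid hH K W).trans (a8_left hH Y h) <|
      (a8_setoid hH K W).trans (a8_comm hH X' Y) <|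
        (a8_setoid hH K W).trans (a8_left hH X' h') (a8_comm hH Y' X')⟩

instance a8_instZero (hH : Good H S) (K : Finset ι) (W : Set ℤ) : Zero (a8_Q hH K W) :=
  ⟨a8_mk hH ⟨Cx.zero A Λ, Obj.zero, a8_wd_zero W⟩⟩

theorem a8_mk_add (hH : Good H S) (X Y : a8_O H S K W) :
    a8_mk hH X + a8_mk hH Y = a8_mk hH (a8_add hH X Y) := rfl

theorem a8_zero (hH : Good H S) :
    (0 : a8_Q hH K W) = a8_mk hH ⟨Cx.zero A Λ, Obj.zero, a8_wd_zero W⟩ := rfl

theorem a8_add_comm (hH : Good H S) (x y : a8_Q hH K W) : x + y = y + x := by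
  induction x using a8_ind hH with
  | h X =>
    induction y using a8_ind hH with
    | h Y => exact (a8_eq hH).2 (a8_comm hH X Y)

theorem a8_add_zero (hH : Good H S) (x : a8_Q hH K W) : x + 0 = x := by
  induction x using a8_ind hH with
  | h X =>
    rw [a8_zero, a8_mk_add]
    exact ((a8_eq hH).2 (a8_of_he hH ((sub_zero_sum X.1).2.he
      (a8_add hH X ⟨Cx.zero A Λ, Obj.zero, a8_wd_zero W⟩).2.1.ok))).symm

instance a8_inst (hH : Good H S) (K : Finset ι) (W : Set ℤ) :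
    AddCancelCommMonoid (a8_Q hH K W) where
  add_assoc x y z := by
    induction x using a8_ind hH with
    | h X =>
      induction y using a8_ind hH with
      | h Y =>
        induction z using a8_ind hH with
        | h Z =>
          exact (a8_eq hH).2 (a8_of_he hH ((sub_sum_assoc X.1 Y.1 Z.1).1.he
            (a8_add hH X (a8_add hH Y Z)).2.1.ok))
  zero_add x := by rw [a8_add_comm, a8_add_zero]
  add_zero := a8_add_zero hH
  nsmul := nsmulRec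
  add_comm := a8_add_comm hH
  add_left_cancel x y z h := by
    induction x using a8_ind hH with
    | h X =>
      induction y using a8_ind hH with
      | h Y =>
        induction z using a8_ind hH with
        | h Z =>
          have h' : a8_mk hH Y + a8_mk hH X = a8_mk hH Z + a8_mk hH X := by
            rw [a8_add_comm hH (a8_mk hH Y), a8_add_comm hH (a8_mk hH Z)]
            exact h
          exact (a8_eq hH).2 (Sim.cancel hH X.2.1 X.2.2 ((a8_eq hH).1 h'))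

open Classical in
/-- The class in the Grothendieck group. -/
noncomputable def a8_cls (hH : Good H S) (K : Finset ι) (W : Set ℤ) (X : Cx A Λ) :
    Algebra.GrothendieckAddGroup (a8_Q hH K W) :=
  if h : Obj H S K X ∧ Wd W X then Algebra.GrothendieckAddGroup.of (a8_mk hH ⟨X, h⟩) else 0

theorem a8_cls_eq (hH : Good H S) (hX : Obj H S K X) (wX : Wd W X) :
    a8_cls hH K W X = Algebra.GrothendieckAddGroup.of (a8_mk hH ⟨X, hX, wX⟩) :=
  dif_pos ⟨hX, wX⟩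

theorem exists_KS (hH : Good H S) (K : Finset ι) (W : Set ℤ) :
    ∃ (M : Type (max 1 v)) (_ : AddCommGroup M), Nonempty (KS H S K W M) := by
  refine ⟨Algebra.GrothendieckAddGroup (a8_Q hH K W), inferInstance, ⟨⟨a8_cls hH K W, ?_, ?_, ?_⟩⟩⟩
  · intro X Y hX hY wX wY e
    rw [a8_cls_eq hH hX wX, a8_cls_eq hH hY wY]
    exact congrArg _ ((a8_eq hH).2 (Sim.of_he hH hX wX hY.ok e))
  · intro X Y t hX hY wX wY ht
    rw [a8_cls_eq hH hX wX, a8_cls_eq hH hY wY, a8_cls_eq hH (Obj.ext hH ht hX hY) (wX.ext wY t),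
      ← map_add, a8_mk_add]
    exact congrArg _ ((a8_eq hH).2 (Sim.ext hH hX hY wX wY ht))
  · intro X hX wX
    rw [a8_cls_eq hH hX wX, ← map_zero (Algebra.GrothendieckAddGroup.of (M := a8_Q hH K W)),
      Algebra.GrothendieckAddGroup.of_injective.eq_iff, a8_zero, a8_eq, sim_zero_iff]

variable {M : Type w} [AddCommGroup M] (E : KS H S K W M)

theorem KS.sum (hX : Obj H S K X) (hY : Obj H S K Y) (wX : Wd W X) (wY : Wd W Y) :
    E.cls (X.sum Y) = E.cls X + E.cls Y := E.ext hX hY wX wY (Tw.zero _ _)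

theorem KS.nul (hX : Ok H X) (wX : Wd W X) (h : Nul H 1 X) : E.cls X = 0 := by
  have z : Obj H S K (Cx.zero A Λ) := Obj.zero
  have w0 : Wd W (Cx.zero A Λ) := a8_wd_zero W
  have e1 := E.sum z z w0 w0
  have s := (sub_zero_sum (Cx.zero A Λ)).1
  have e2 := E.he z (s.obj_iff.1 z) w0 (w0.ext w0 _) (s.he (Ok.zero.sum Ok.zero))
  have e3 : E.cls (Cx.zero A Λ) = 0 := by
    rw [← e2] at e1
    exact left_eq_add.1 e1
  rw [E.he ⟨hX, h.tor⟩ z wX w0 h.he_zero, e3]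

theorem KS.sh (hH : Good H S) (hX : Obj H S K X) (wX : Wd W X) (wX' : Wd W (X.sh 1)) :
    E.cls (X.sh 1) = -E.cls X := by
  have hf : Ch H X X ((1 : A) • X.p) := (Ch.id hX.ok).smul Sc.one
  have e1 := E.ext hX (hX.sh 1) wX wX' hf.tw
  have e2 := E.nul (hX.ok.cone hX.ok hf) (wX.ext wX' _) (cone_smul hX.ok Sc.one)
  exact eq_neg_of_add_eq_zero_right (e1.symm.trans e2)

theorem KS.he_ext (hH : Good H S) (hX : Obj H S K X) (hY : Obj H S K Y) (hZ : Obj H S K Z)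
    (wX : Wd W X) (wY : Wd W Y) (wZ : Wd W Z) {t : Matrix X.J Y.J A} (ht : Tw H X Y t)
    (e : HE H (X.ext Y t) Z) : E.cls Z = E.cls X + E.cls Y :=
  (E.he (Obj.ext hH ht hX hY) hZ (wX.ext wY t) wZ e).symm.trans (E.ext hX hY wX wY ht)

theorem Cert.ext (hH : Good H S) (hX : Obj H S K X) (hY : Obj H S K Y) (wX : Wd W X)
    (wY : Wd W Y) {t : Matrix X.J Y.J A} (ht : Tw H X Y t) (h : Cert H S K W X)
    (h' : Cert H S K W Y) : Cert H S K W (X.ext Y t) := by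
  obtain ⟨M, _, ⟨E⟩⟩ := exists_KS hH K W
  rw [← E.zero_iff (Obj.ext hH ht hX hY) (wX.ext wY t), E.ext hX hY wX wY ht,
    (E.zero_iff hX wX).2 h, (E.zero_iff hY wY).2 h', add_zero]

theorem Cert.of_nul (hH : Good H S) (hX : Ok H X) (wX : Wd W X) (h : Nul H 1 X) :
    Cert H S K W X := by
  obtain ⟨M, _, ⟨E⟩⟩ := exists_KS hH K W
  exact (E.zero_iff ⟨hX, h.tor⟩ wX).1 (E.nul hX wX h)

end Pool.Agent.MP_f7db47_al.KN

end

section

/-!
Duality.
-/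

namespace Pool.Agent.MP_f7db47_al.KN

open Matrix

universe v w

variable {A : Type v} [Ring A] {Λ ι : Type} {H H' I I' : Fam A Λ} {S : ι → Submonoid A}
  {K K' : Finset ι} {W : Set ℤ} {X X' Y Y' Z : Cx A Λ} {w w' : A}
  {A' : Type w} [Ring A'] {S' : ι → Submonoid A'}

variable {G : Fam A' Λ} {τ : A →+ A'}

theorem a10b_mul (hτ : Af H G S S' τ) {P Q R : Type} [Fintype Q] (f : Matrix P Q A)
    (g : Matrix Q R A) : (g.map τ)ᵀ * (f.map τ)ᵀ = ((f * g).map τ)ᵀ := by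
  ext k i
  simp only [Matrix.mul_apply, transpose_apply, Matrix.map_apply, map_sum, hτ.mul]

theorem a10b_add {P Q : Type} (f g : Matrix P Q A) :
    (f.map τ)ᵀ + (g.map τ)ᵀ = ((f + g).map τ)ᵀ := by
  ext k i
  simp only [Matrix.add_apply, transpose_apply, Matrix.map_apply, map_add]

theorem a10b_zero {P Q : Type} : ((0 : Matrix P Q A).map τ)ᵀ = 0 := by
  ext k i
  simp only [Matrix.zero_apply, transpose_apply, Matrix.map_apply, map_zero]

theorem a10b_hm (hτ : Af H G S S' τ) {d : ℤ} {P Q : Type} {s : P → Λ × ℤ} {t : Q → Λ × ℤ}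
    {f : Matrix P Q A} (h : Hm H d s t f) :
    Hm G d (fun j => ((t j).1, -(t j).2)) (fun i => ((s i).1, -(s i).2)) (f.map τ)ᵀ := fun j i =>
  ⟨hτ.mem (h i j).1, fun e => by
    have := (h i j).2 fun e1 => e (by rw [transpose_apply, Matrix.map_apply, e1, map_zero])
    simp only
    omega⟩

theorem a10b_mp (hτ : Af H G S S' τ) {d : ℤ} {f : Matrix Y.J X.J A} (h : Mp H d Y X f) :
    Mp G d (X.op τ) (Y.op τ) (f.map τ)ᵀ :=
  ⟨a10b_hm hτ h.hm, by rw [a10b_mul hτ, h.pr], by rw [a10b_mul hτ, h.pl]⟩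

theorem a10b_ch (hτ : Af H G S S' τ) {f : Matrix Y.J X.J A} (h : Ch H Y X f) :
    Ch G (X.op τ) (Y.op τ) (f.map τ)ᵀ :=
  ⟨a10b_mp hτ h.toMp, by rw [a10b_mul hτ, a10b_mul hτ, h.cm]⟩

theorem a10b_tw (hτ : Af H G S S' τ) {f : Matrix X.J Y.J A} (h : Tw H X Y f) :
    Tw G (Y.op τ) (X.op τ) (f.map τ)ᵀ :=
  ⟨a10b_mp hτ h.toMp, by
    rw [a10b_mul hτ, a10b_mul hτ, a10b_add, add_comm, h.cm, a10b_zero]⟩

theorem Ok.op (hτ : Af H G S S' τ) (h : Ok H X) : Ok G (X.op τ) where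
  hp := a10b_hm hτ h.hp
  hD := a10b_hm hτ h.hD
  pp := by rw [a10b_mul hτ, h.pp]
  pD := by rw [a10b_mul hτ, h.Dp]
  Dp := by rw [a10b_mul hτ, h.pD]
  DD := by rw [a10b_mul hτ, h.DD, a10b_zero]

theorem Obj.op (hτ : Af H G S S' τ) (h : Obj H S K X) : Obj G S' K (X.op τ) := by
  refine ⟨h.ok.op hτ, fun a ha => ?_⟩
  obtain ⟨u, hu, s, h1, h2⟩ := h.tor a ha
  obtain ⟨u', hu', h3⟩ := hτ.lin a u hu
  refine ⟨u', hu', (s.map τ)ᵀ, a10b_hm hτ h1, ?_⟩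
  rw [a10b_mul hτ, a10b_mul hτ, a10b_add, add_comm, h2]
  ext k i
  exact h3 _

theorem HE.op (hτ : Af H G S S' τ) (h : HE H X Y) : HE G (X.op τ) (Y.op τ) := by
  obtain ⟨f, g, a, b, c⟩ := h
  refine ⟨(g.map τ)ᵀ, (f.map τ)ᵀ, (a.map τ)ᵀ, (b.map τ)ᵀ, a10b_ch hτ c.hg, a10b_ch hτ c.hf,
    a10b_hm hτ c.hh, a10b_hm hτ c.hk, ?_, ?_⟩
  · rw [a10b_mul hτ, a10b_mul hτ, a10b_mul hτ, a10b_add, a10b_add, add_comm (a * X.D), c.gf]
  · rw [a10b_mul hτ, a10b_mul hτ, a10b_mul hτ, a10b_add, a10b_add, add_comm (b * Y.D), c.fg]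

theorem Wd.op {a b : ℤ} (h : Wd (Set.Icc a b) X) : Wd (Set.Icc (-b) (-a)) (X.op τ) := fun j =>
  ⟨neg_le_neg (h j).2, neg_le_neg (h j).1⟩

theorem a10b_ext (X Y : Cx A Λ) (t : Matrix X.J Y.J A) :
    Sub ((Y.op τ).ext (X.op τ) (t.map τ)ᵀ) ((X.ext Y t).op τ) := by
  refine (Sub.of_equiv (X' := (Y.op τ).ext (X.op τ) (t.map τ)ᵀ) (X := (X.ext Y t).op τ)
    (Equiv.sumComm Y.J X.J) ?_ ?_ ?_).1
  · rintro (i | i) <;> rfl
  · ext (i | i) (j | j)
    exacts [rfl, (map_zero τ).symm, (map_zero τ).symm, rfl]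
  · ext (i | i) (j | j)
    exacts [rfl, rfl, (map_zero τ).symm, rfl]

theorem a10b_sum (X Y : Cx A Λ) : Sub ((X.op τ).sum (Y.op τ)) ((X.sum Y).op τ) := by
  refine (Sub.of_equiv (X' := (X.op τ).sum (Y.op τ)) (X := (X.sum Y).op τ)
    (Equiv.refl (X.J ⊕ Y.J)) ?_ ?_ ?_).1
  · rintro (i | i) <;> rfl
  · ext (i | i) (j | j)
    exacts [rfl, (map_zero τ).symm, (map_zero τ).symm, rfl]
  · ext (i | i) (j | j)
    exacts [rfl, (map_zero τ).symm, (map_zero τ).symm, rfl]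

theorem Cert.op (hτ : Af H G S S' τ) {a b : ℤ} (h : Cert H S K (Set.Icc a b) X) :
    Cert G S' K (Set.Icc (-b) (-a)) (X.op τ) := by
  obtain ⟨P, Q, B, t, t', c, e, e'⟩ := h
  exact ⟨Q.op τ, P.op τ, B.op τ, (t.map τ)ᵀ, (t'.map τ)ᵀ,
    ⟨c.oQ.op hτ, c.oP.op hτ, c.oB.op hτ, c.wQ.op, c.wP.op, c.wB.op, a10b_tw hτ c.ht,
      a10b_tw hτ c.ht'⟩,
    (a10b_ext P Q t).he_left.2 ((a10b_sum X B).he_right.2 (e.op hτ)),
    (a10b_ext P Q t').he_left.2 (e'.op hτ)⟩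

theorem op_op {τ' : A' →+ A} (h : ∀ x, τ' (τ x) = x) : (X.op τ).op τ' = X := by
  have e : ∀ M : Matrix X.J X.J A, (((M.map τ)ᵀ).map τ')ᵀ = M := fun M => by
    ext i j
    exact h _
  cases X
  simp only [Cx.op, neg_neg, e]

/-- The opposite labelled ring. -/
theorem exists_op (hH : Good H S) :
    ∃ (G : Fam Aᵐᵒᵖ Λ) (S' : ι → Submonoid Aᵐᵒᵖ) (τ : A →+ Aᵐᵒᵖ) (τ' : Aᵐᵒᵖ →+ A),
      Good G S' ∧ Af H G S S' τ ∧ Af G H S' S τ' ∧ ∀ x, τ' (τ x) = x := by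
  refine ⟨fun a b => (H b a).comap (MulOpposite.opAddEquiv (α := A)).symm.toAddMonoidHom,
    fun a => (S a).op, (MulOpposite.opAddEquiv (α := A)).toAddMonoidHom,
    (MulOpposite.opAddEquiv (α := A)).symm.toAddMonoidHom, ⟨?_, ?_, ?_⟩, ⟨?_, ?_, ?_⟩,
    ⟨?_, ?_, ?_⟩, fun _ => rfl⟩
  · intro a b c x y hx hy
    exact hH.mul (x := y.unop) (y := x.unop) hy hx
  · intro a u hu x
    exact MulOpposite.unop_injective (hH.cen a u.unop hu x.unop).symm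
  · intro a u hu i j x hx
    have e : u.unop * x.unop ∈ H j i := hH.stab a u.unop hu hx
    rw [hH.cen a u.unop hu] at e
    exact e
  · intro a b x hx
    exact hx
  · intro x y
    rfl
  · intro a u hu
    exact ⟨MulOpposite.op u, hu, fun x => congrArg MulOpposite.op (hH.cen a u hu x)⟩
  · intro a b x hx
    exact hx
  · intro x y
    rfl
  · intro a u hu
    exact ⟨u.unop, hu, fun x => (hH.cen a u.unop hu x.unop).symm⟩

end Pool.Agent.MP_f7db47_al.KN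

end

section

/-!
Matrix valued functors. No closure property of the families is needed.
-/

namespace Pool.Agent.MP_f7db47_al.KN

open Matrix

universe v w

variable {A : Type v} [Ring A] {Λ ι : Type} {H H' I I' : Fam A Λ} {S : ι → Submonoid A}
  {K K' : Finset ι} {W : Set ℤ} {X X' Y Y' Z : Cx A Λ} {w w' : A}
  {A' : Type w} [Ring A'] {Λ' : Type} {G : Fam A' Λ'} {S' : ι → Submonoid A'}

variable (Φ : Fn H G)

section

variable {d d' : ℤ} {J₁ J₂ J₃ : Type} {s : J₁ → Λ × ℤ} {t : J₂ → Λ × ℤ} {u : J₃ → Λ × ℤ}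

theorem Fn.mat_zero : Φ.mat s t 0 = 0 := by
  ext x y
  simp [Fn.mat]

theorem Fn.mat_add (f g : Matrix J₁ J₂ A) : Φ.mat s t (f + g) = Φ.mat s t f + Φ.mat s t g := by
  ext x y
  simp [Fn.mat]

theorem Fn.mat_neg (f : Matrix J₁ J₂ A) : Φ.mat s t (-f) = -Φ.mat s t f := by
  ext x y
  simp [Fn.mat]

theorem Fn.mat_mul [Fintype J₂] {f : Matrix J₁ J₂ A} {g : Matrix J₂ J₃ A} (hf : Hm H d s t f)
    (hg : Hm H d' t u g) : Φ.mat s u (f * g) = Φ.mat s t f * Φ.mat t u g := by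
  ext x y
  rw [Matrix.mul_apply, Fintype.sum_sigma, Fn.mat, Matrix.mul_apply, map_sum, Matrix.sum_apply]
  refine Finset.sum_congr rfl fun j _ => ?_
  rw [Φ.mul (hf x.1 j).1 (hg j y.1).1, Matrix.mul_apply]
  rfl

theorem Hm.fn {f : Matrix J₁ J₂ A} (hf : Hm H d s t f) :
    Hm G d (fun x : Σ i, Φ.κ (s i).1 => (Φ.lab _ x.2, (s x.1).2))
      (fun x : Σ i, Φ.κ (t i).1 => (Φ.lab _ x.2, (t x.1).2)) (Φ.mat s t f) := fun x y =>
  ⟨Φ.mem (hf x.1 y.1).1 _ _, fun e => (hf x.1 y.1).2 fun e1 => e (by simp [Fn.mat, e1])⟩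

theorem a9_smul {w : A} {w' : A'} {f : Matrix J₁ J₂ A} (hf : Hm H d s t f)
    (h : ∀ ⦃i j x⦄, x ∈ H i j → Φ.F i j (w * x) = w' • Φ.F i j x) :
    Φ.mat s t (w • f) = w' • Φ.mat s t f := by
  ext x y
  rw [Fn.mat, Matrix.smul_apply, smul_eq_mul, h (hf x.1 y.1).1]
  rfl

end

theorem Ok.fn (h : Ok H X) : Ok G (Φ.obj X) where
  hp := h.hp.fn Φ
  hD := h.hD.fn Φ
  pp := by rw [← Φ.mat_mul h.hp h.hp, h.pp]
  pD := by rw [← Φ.mat_mul h.hp h.hD, h.pD]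
  Dp := by rw [← Φ.mat_mul h.hD h.hp, h.Dp]
  DD := by rw [← Φ.mat_mul h.hD h.hD, h.DD, Φ.mat_zero]

theorem a9_mp {d : ℤ} {f : Matrix Y.J X.J A} (hY : Ok H Y) (hX : Ok H X) (h : Mp H d Y X f) :
    Mp G d (Φ.obj Y) (Φ.obj X) (Φ.mat Y.t X.t f) where
  hm := h.hm.fn Φ
  pl := by rw [← Φ.mat_mul hY.hp h.hm, h.pl]
  pr := by rw [← Φ.mat_mul h.hm hX.hp, h.pr]

theorem Ch.fn {f : Matrix Y.J X.J A} (hY : Ok H Y) (hX : Ok H X) (h : Ch H Y X f) :
    Ch G (Φ.obj Y) (Φ.obj X) (Φ.mat Y.t X.t f) :=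
  ⟨a9_mp Φ hY hX h.toMp, by rw [← Φ.mat_mul hY.hD h.hm, ← Φ.mat_mul h.hm hX.hD, h.cm]⟩

theorem Tw.fn {f : Matrix Y.J X.J A} (hY : Ok H Y) (hX : Ok H X) (h : Tw H Y X f) :
    Tw G (Φ.obj Y) (Φ.obj X) (Φ.mat Y.t X.t f) :=
  ⟨a9_mp Φ hY hX h.toMp, by
    rw [← Φ.mat_mul hY.hD h.hm, ← Φ.mat_mul h.hm hX.hD, ← Φ.mat_add, h.cm, Φ.mat_zero]⟩

theorem HE.fn (hX : Ok H X) (hY : Ok H Y) (h : HE H X Y) : HE G (Φ.obj X) (Φ.obj Y) := by
  obtain ⟨f, g, a, b, c⟩ := h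
  refine ⟨_, _, _, _, c.hf.fn Φ hY hX, c.hg.fn Φ hX hY, c.hh.fn Φ, c.hk.fn Φ, ?_, ?_⟩
  · rw [← Φ.mat_mul c.hg.hm c.hf.hm, ← Φ.mat_mul hX.hD c.hh, ← Φ.mat_mul c.hh hX.hD,
      ← Φ.mat_add, ← Φ.mat_add, c.gf]
  · rw [← Φ.mat_mul c.hf.hm c.hg.hm, ← Φ.mat_mul hY.hD c.hk, ← Φ.mat_mul c.hk hY.hD,
      ← Φ.mat_add, ← Φ.mat_add, c.fg]

theorem Obj.fn (hΦ : Φ.Lin S S') (h : Obj H S K X) : Obj G S' K (Φ.obj X) := by
  refine ⟨h.ok.fn Φ, fun a ha => ?_⟩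
  obtain ⟨w, hw, s, h1, h2⟩ := h.tor a ha
  obtain ⟨w', hw', e⟩ := hΦ a w hw
  refine ⟨w', hw', _, h1.fn Φ, ?_⟩
  rw [← Φ.mat_mul h.ok.hD h1, ← Φ.mat_mul h1 h.ok.hD, ← Φ.mat_add, h2, a9_smul Φ h.ok.hp e]

theorem Wd.fn (h : Wd W X) : Wd W (Φ.obj X) := fun x => h x.1

theorem sub_fn_ext (t : Matrix X.J Y.J A) :
    Sub (Φ.obj (X.ext Y t)) ((Φ.obj X).ext (Φ.obj Y) (Φ.mat X.t Y.t t)) ∧
    Sub ((Φ.obj X).ext (Φ.obj Y) (Φ.mat X.t Y.t t)) (Φ.obj (X.ext Y t)) := by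
  refine Sub.of_equiv (Equiv.sumSigmaDistrib fun j => Φ.κ (Sum.elim X.t Y.t j).1) ?_ ?_ ?_
  · rintro ⟨i | i, a⟩ <;> rfl
  · ext ⟨i | i, a⟩ ⟨j | j, b⟩
    · rfl
    · exact congrFun₂ (map_zero (Φ.F _ _)) a b
    · exact congrFun₂ (map_zero (Φ.F _ _)) a b
    · rfl
  · ext ⟨i | i, a⟩ ⟨j | j, b⟩
    · rfl
    · rfl
    · exact congrFun₂ (map_zero (Φ.F _ _)) a b
    · rfl

theorem Cert.fn (hΦ : Φ.Lin S S') (hX : Ok H X) (h : Cert H S K W X) :
    Cert G S' K W (Φ.obj X) := by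
  obtain ⟨P, Q, B, t, t', c, e, e'⟩ := h
  have o1 := c.oP.ok.ext c.oQ.ok c.ht
  have o2 := c.oP.ok.ext c.oQ.ok c.ht'
  have s0 := (sub_fn_ext Φ (0 : Matrix X.J B.J A)).1
  rw [Φ.mat_zero] at s0
  exact ⟨Φ.obj P, Φ.obj Q, Φ.obj B, _, _, ⟨c.oP.fn Φ hΦ, c.oQ.fn Φ hΦ, c.oB.fn Φ hΦ, c.wP.fn Φ,
    c.wQ.fn Φ, c.wB.fn Φ, c.ht.fn Φ c.oP.ok c.oQ.ok, c.ht'.fn Φ c.oP.ok c.oQ.ok⟩,
    (sub_fn_ext Φ t).1.he_left.1 (s0.he_right.1 (e.fn Φ o1 (hX.sum c.oB.ok))),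
    (sub_fn_ext Φ t').1.he_left.1 (e'.fn Φ o2 c.oB.ok)⟩

end Pool.Agent.MP_f7db47_al.KN

end
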