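import Pool.Agent.Mg.Ff7db47n.N1

section

/-!
The Eilenberg swindle.
-/

namespace Pool.Agent.MP_f7db47_al.KN

open Matrix

universe v w

variable {A : Type v} [Ring A] {Λ ι : Type} {H H' I I' : Fam A Λ} {S : ι → Submonoid A}
  {K K' : Finset ι} {W : Set ℤ} {X X' Y Y' Z : Cx A Λ} {w w' : A}

theorem a17_right {d : ℤ} {J₁ J₂ : Type} [Fintype J₂] [DecidableEq J₂] {s : J₁ → Λ × ℤ}
    {t : J₂ → Λ × ℤ} {f : Matrix J₁ J₂ A} (h : Hm H d s t f) {c : A}
    (hc : ∀ ⦃i j x⦄, x ∈ H i j → c * x ∈ H i j ∧ x * c ∈ H i j) :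
    Hm H d s t (f * (diagonal fun _ => c : Matrix J₂ J₂ A) : Matrix J₁ J₂ A) := fun i j => by
  rw [mul_diagonal]
  exact ⟨(hc (h i j).1).2, fun e => (h i j).2 (left_ne_zero_of_mul e)⟩

theorem a17_left {d : ℤ} {J₁ J₂ : Type} [Fintype J₁] [DecidableEq J₁] {s : J₁ → Λ × ℤ}
    {t : J₂ → Λ × ℤ} {f : Matrix J₁ J₂ A} (h : Hm H d s t f) {c : A}
    (hc : ∀ ⦃i j x⦄, x ∈ H i j → c * x ∈ H i j ∧ x * c ∈ H i j) :
    Hm H d s t ((diagonal fun _ => c : Matrix J₁ J₁ A) * f : Matrix J₁ J₂ A) := fun i j => by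
  rw [diagonal_mul]
  exact ⟨(hc (h i j).1).1, fun e => (h i j).2 (right_ne_zero_of_mul e)⟩

theorem swindle (hH : Good H S) {σ : A →+ A} (hσ : Sf H H S S σ id) (hm : ∀ x y, σ (x * y) = σ x * σ y)
    {a₀ b₀ a₁ b₁ : A} (m : ∀ c ∈ ({a₀, b₀, a₁, b₁} : Set A), ∀ ⦃i j x⦄, x ∈ H i j →
      c * x ∈ H i j ∧ x * c ∈ H i j)
    (h0 : a₀ * b₀ = 1) (h1 : a₁ * b₁ = σ 1) (h01 : a₀ * b₁ = 0)
    (he : ∀ x, σ x = b₀ * x * a₀ + b₁ * σ x * a₁) : NullAll H S K := by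
  intro X hX
  have s1 : ∀ x, σ x * σ 1 = σ x := fun x => by rw [← hm, mul_one]
  have s2 : ∀ x, σ 1 * σ x = σ x := fun x => by rw [← hm, one_mul]
  have z0 : σ 1 * a₁ * b₀ = 0 := by
    have e1 : σ 1 * b₀ = b₀ + b₁ * (σ 1 * a₁ * b₀) := by
      conv_lhs => rw [he 1]
      rw [add_mul, mul_one, mul_assoc b₀, h0, mul_one]
      simp only [mul_assoc]
    have e2 : σ 1 * b₁ = b₁ * σ 1 := by
      conv_lhs => rw [he 1]
      rw [add_mul, mul_one, mul_assoc b₀, h01, mul_zero, zero_add, mul_assoc, h1, mul_assoc, s1]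
    have e3 : σ 1 * b₀ = σ 1 * b₀ + b₁ * (σ 1 * a₁ * b₀) := by
      conv_lhs => rw [← s1 1, mul_assoc, e1, mul_add, ← mul_assoc (σ 1) b₁, e2, mul_assoc b₁,
        ← mul_assoc (σ 1), ← mul_assoc (σ 1), s1]
    have e4 : b₁ * (σ 1 * a₁ * b₀) = 0 := by simpa using e3
    have e5 : a₁ * (b₁ * (σ 1 * a₁ * b₀)) = 0 := by rw [e4, mul_zero]
    rwa [← mul_assoc, h1, ← mul_assoc, ← mul_assoc, s1] at e5
  have z1 : ∀ x, σ x * a₁ * b₀ = 0 := fun x => by
    rw [← s1 x, mul_assoc (σ x), mul_assoc (σ x), z0, mul_zero]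
  have r0 : ∀ x, a₀ * σ x = x * a₀ := fun x => by
    rw [he x, mul_add, ← mul_assoc, ← mul_assoc, h0, one_mul, ← mul_assoc, ← mul_assoc, h01,
      zero_mul, zero_mul, add_zero]
  have l0 : ∀ x, σ x * b₀ = b₀ * x := fun x => by
    conv_lhs => rw [he x]
    rw [add_mul, mul_assoc (b₀ * x), h0, mul_one, mul_assoc b₁, mul_assoc b₁, z1, mul_zero,
      add_zero]
  have l1 : ∀ x, σ x * b₁ = b₁ * σ x := fun x => by
    conv_lhs => rw [he x]
    rw [add_mul, mul_assoc (b₀ * x), h01, mul_zero, zero_add, mul_assoc, h1, mul_assoc, s1]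
  have r1 : ∀ y x, σ y * a₁ * σ x = σ y * σ x * a₁ := fun y x => by
    conv_lhs => rw [he x]
    rw [mul_add, ← mul_assoc, ← mul_assoc, z1, zero_mul, zero_mul, zero_add, ← mul_assoc,
      ← mul_assoc, mul_assoc (σ y) a₁, h1, s1]
  set A0 : Matrix X.J X.J A := diagonal fun _ => a₀ with hA0
  set A1 : Matrix X.J X.J A := diagonal fun _ => a₁ with hA1
  set B0 : Matrix X.J X.J A := diagonal fun _ => b₀ with hB0
  set B1 : Matrix X.J X.J A := diagonal fun _ => b₁ with hB1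
  have R0 : ∀ M : Matrix X.J X.J A, A0 * M.map σ = M * A0 := fun M => by
    ext i j; rw [hA0, diagonal_mul, mul_diagonal, map_apply, r0]
  have L0 : ∀ M : Matrix X.J X.J A, M.map σ * B0 = B0 * M := fun M => by
    ext i j; rw [hB0, diagonal_mul, mul_diagonal, map_apply, l0]
  have L1 : ∀ M : Matrix X.J X.J A, M.map σ * B1 = B1 * M.map σ := fun M => by
    ext i j; rw [hB1, diagonal_mul, mul_diagonal, map_apply, l1]
  have R1 : ∀ N M : Matrix X.J X.J A, N.map σ * A1 * M.map σ = N.map σ * M.map σ * A1 :=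
    fun N M => by
      ext i j
      rw [hA1, mul_diagonal, Matrix.mul_apply, Matrix.mul_apply, Finset.sum_mul]
      exact Finset.sum_congr rfl fun k _ => by rw [mul_diagonal, map_apply, map_apply, r1]
  have H0 : A0 * B0 = 1 := by rw [hA0, hB0, diagonal_mul_diagonal]; simp only [h0, diagonal_one]
  have H01 : A0 * B1 = 0 := by rw [hA0, hB1, diagonal_mul_diagonal]; simp only [h01, diagonal_zero]
  have Z1 : ∀ N : Matrix X.J X.J A, N.map σ * A1 * B0 = 0 := fun N => by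
    ext i j; rw [hA1, hB0, mul_diagonal, mul_diagonal, map_apply, z1, Matrix.zero_apply]
  have H1 : ∀ N : Matrix X.J X.J A, N.map σ * A1 * B1 = N.map σ := fun N => by
    ext i j; rw [hA1, hB1, mul_diagonal, mul_diagonal, map_apply, mul_assoc, h1, s1]
  have HE' : ∀ M : Matrix X.J X.J A, B0 * M * A0 + B1 * M.map σ * A1 = M.map σ := fun M => by
    ext i j
    rw [Matrix.add_apply, hA0, hA1, hB0, hB1, mul_diagonal, mul_diagonal, diagonal_mul,
      diagonal_mul, map_apply, ← he]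
  have hY : Obj H S K (X.smap σ id) := hX.sf hσ
  have pp : X.p.map σ * X.p.map σ = X.p.map σ := hY.ok.pp
  have pD : X.p.map σ * X.D.map σ = X.D.map σ := hY.ok.pD
  have Dp : X.D.map σ * X.p.map σ = X.D.map σ := hY.ok.Dp
  have hp : Hm H 0 X.t X.t (X.p.map σ) := hY.ok.hp
  have hf : Ch H (X.sum (X.smap σ id)) (X.smap σ id) (fromRows (X.p * A0) (X.p.map σ * A1)) := by
    refine ⟨⟨Hm.rows (a17_right hX.ok.hp (m _ (by simp))) (a17_right hp (m _ (by simp))), ?_, ?_⟩,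
      ?_⟩
    · show fromBlocks X.p 0 0 (X.p.map σ) * fromRows (X.p * A0) (X.p.map σ * A1) =
        fromRows (X.p * A0) (X.p.map σ * A1)
      rw [fromBlocks_mul_fromRows, Matrix.zero_mul, Matrix.zero_mul, add_zero, zero_add,
        ← Matrix.mul_assoc, ← Matrix.mul_assoc, hX.ok.pp, pp]
    · show fromRows (X.p * A0) (X.p.map σ * A1) * X.p.map σ =
        fromRows (X.p * A0) (X.p.map σ * A1)
      rw [fromRows_mul, R1, pp, Matrix.mul_assoc, R0, ← Matrix.mul_assoc, hX.ok.pp]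
    · show fromBlocks X.D 0 0 (X.D.map σ) * _ = _ * X.D.map σ
      rw [fromBlocks_mul_fromRows, Matrix.zero_mul, Matrix.zero_mul, add_zero, zero_add,
        ← Matrix.mul_assoc, ← Matrix.mul_assoc, hX.ok.Dp, Dp, fromRows_mul, R1, pD,
        Matrix.mul_assoc X.p, R0, ← Matrix.mul_assoc, hX.ok.pD]
  have hg : Ch H (X.smap σ id) (X.sum (X.smap σ id)) (fromCols (B0 * X.p) (B1 * X.p.map σ)) := by
    refine ⟨⟨Hm.cols (a17_left hX.ok.hp (m _ (by simp))) (a17_left hp (m _ (by simp))), ?_, ?_⟩,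
      ?_⟩
    · show X.p.map σ * fromCols (B0 * X.p) (B1 * X.p.map σ) =
        fromCols (B0 * X.p) (B1 * X.p.map σ)
      rw [mul_fromCols, ← Matrix.mul_assoc, ← Matrix.mul_assoc, L0, L1, Matrix.mul_assoc,
        Matrix.mul_assoc, hX.ok.pp, pp]
    · show fromCols (B0 * X.p) (B1 * X.p.map σ) * fromBlocks X.p 0 0 (X.p.map σ) =
        fromCols (B0 * X.p) (B1 * X.p.map σ)
      rw [fromCols_mul_fromBlocks, Matrix.mul_zero, Matrix.mul_zero, add_zero, zero_add,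
        Matrix.mul_assoc, Matrix.mul_assoc, hX.ok.pp, pp]
    · show X.D.map σ * _ = _ * fromBlocks X.D 0 0 (X.D.map σ)
      rw [fromCols_mul_fromBlocks, Matrix.mul_zero, Matrix.mul_zero, add_zero, zero_add,
        mul_fromCols, ← Matrix.mul_assoc, ← Matrix.mul_assoc, L0, L1, Matrix.mul_assoc,
        Matrix.mul_assoc, Matrix.mul_assoc, Matrix.mul_assoc, hX.ok.Dp, Dp, hX.ok.pD, pD]
  have e : HE H (X.smap σ id) (X.sum (X.smap σ id)) := by
    refine HE.of_iso hf hg ?_ ?_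
    · show _ = X.p.map σ
      rw [fromCols_mul_fromRows, ← Matrix.mul_assoc, ← Matrix.mul_assoc, Matrix.mul_assoc B0,
        Matrix.mul_assoc B1, hX.ok.pp, pp, HE']
    · show _ = fromBlocks X.p 0 0 (X.p.map σ)
      rw [fromRows_mul_fromCols, ← Matrix.mul_assoc, ← Matrix.mul_assoc, ← Matrix.mul_assoc,
        ← Matrix.mul_assoc, Z1, H1, Matrix.mul_assoc X.p A0 B0, Matrix.mul_assoc X.p A0 B1, H0,
        H01, Matrix.mul_one, Matrix.mul_zero, Matrix.zero_mul, Matrix.zero_mul, hX.ok.pp, pp]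
  obtain ⟨M, _, ⟨E⟩⟩ := exists_KS hH K Set.univ
  have c1 := E.he hY (hX.sum hH hY) (Wd.univ _) (Wd.univ _) e
  rw [E.sum hX hY (Wd.univ _) (Wd.univ _)] at c1
  exact (E.zero_iff hX (Wd.univ _)).1 (by simpa using c1)

end Pool.Agent.MP_f7db47_al.KN

end

section

/-!
Koszul complexes.
-/

namespace Pool.Agent.MP_f7db47_al.KN

open Matrix

universe v w

variable {A : Type v} [Ring A] {Λ ι : Type} {H H' I I' : Fam A Λ} {S : ι → Submonoid A}
  {K K' : Finset ι} {W : Set ℤ} {X X' Y Y' Z : Cx A Λ} {w w' : A}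

theorem a11_obj [DecidableEq ι] (hI : Good I S) {a : ι} (hw : w ∈ S a) (hX : Obj I S K X) :
    Obj I S (insert a K) (X.cone X (w • X.p)) := by
  have h := Obj.ext hI ((Ch.id hX.ok).smul (hI.sc hw)).tw hX (hX.sh 1)
  refine ⟨h.ok, fun b hb => ?_⟩
  rcases Finset.mem_insert.1 hb with rfl | hb
  · exact ⟨w, hw, cone_smul hX.ok (hI.sc hw)⟩
  · exact h.tor b hb

theorem a11_inc (hX : Ok I X) (w : A) : Ch I (X.cone X (w • X.p)) X (fromRows X.p 0) where
  hm := Hm.rows hX.hp (Hm.zero _ _)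
  pl := by simp [fromBlocks_mul_fromRows, hX.pp]
  pr := by simp [fromRows_mul, hX.pp]
  cm := by simp [fromBlocks_mul_fromRows, fromRows_mul, hX.pD, hX.Dp]

theorem a11_wd {c d : ℤ} (h : Wd (Set.Icc c d) X) (f : Matrix X.J X.J A) :
    Wd (Set.Icc c (d + 1)) (X.cone X f) := by
  rintro (j | j)
  · have := h j
    exact ⟨this.1, this.2.trans (by omega)⟩
  · have := h j
    exact ⟨this.1.trans (by simp), by simpa using this.2⟩

theorem a11_map (hH : LR H) (hw : ∀ x, w * x = x * w) {s : Matrix Y.J Y.J A}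
    (hs : Hm H 1 Y.t Y.t s) (hp : Y.p * s = s) (hD : Y.D * s + s * Y.D = w • Y.p)
    {f : Matrix Y.J X.J A} (hf : Ch H Y X f) :
    Ch H Y (X.cone X (w • X.p)) (fromCols f (s * f)) where
  hm := Hm.cols hf.hm ((hs.mul hH hf.hm (e := 1) (by omega)).shift_right 1 (by omega))
  pl := by rw [mul_fromCols, hf.pl, ← Matrix.mul_assoc, hp]
  pr := by simp [fromCols_mul_fromBlocks, hf.pr, Matrix.mul_assoc]
  cm := by
    have e : Y.D * (s * f) = f * (w • X.p) + s * f * -X.D := by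
      rw [mul_smul_cen hw, hf.pr, Matrix.mul_neg, Matrix.mul_assoc, ← hf.cm, ← Matrix.mul_assoc,
        ← Matrix.mul_assoc, ← sub_eq_add_neg, eq_sub_iff_add_eq, ← Matrix.add_mul, hD,
        Matrix.smul_mul, hf.pl]
    rw [mul_fromCols, fromCols_mul_fromBlocks, e, hf.cm, Matrix.mul_zero, add_zero]

theorem a11_ext (hH : LR H) (hw : Sc H w) (hw' : Sc H w') {t : Matrix X.J Y.J A}
    (ht : Tw H X Y t) {h : Matrix X.J X.J A} {h' : Matrix Y.J Y.J A} (m : Mp H 1 X X h)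
    (e : X.D * h + h * X.D = w • X.p) (m' : Mp H 1 Y Y h') (e' : Y.D * h' + h' * Y.D = w' • Y.p)
    {a : Matrix X.J Z.J A} {f : Matrix Y.J Z.J A} (hf : Ch H (X.ext Y t) Z (fromRows a f)) :
    ∃ b, Ch H (X.ext Y t) (Z.cone Z ((w * w') • Z.p))
      (fromRows b (fromCols f ((w • h') * f))) := by
  have key := a11_map (Y := X.ext Y t) hH (hw.mul hw').1
    (s := fromBlocks (w' • h) (-(h * t * h')) 0 (w • h'))
    (Hm.blocks (m.hm.smul hw') ((m.hm.mul hH ht.hm (e := 0) (by omega)).mul hH m'.hm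
      (by omega)).neg (Hm.zero _ _) (m'.hm.smul hw)) ?_ ?_ hf
  · refine ⟨fromCols a ((w' • h) * a + -(h * t * h') * f), ?_⟩
    convert key using 1
    rw [fromBlocks_mul_fromRows, Matrix.zero_mul, zero_add]
    ext (i | i) (j | j) <;> rfl
  · simp only [fromBlocks_multiply, Matrix.mul_zero, Matrix.zero_mul, add_zero, zero_add,
      mul_smul_cen hw.1, mul_smul_cen hw'.1, Matrix.mul_neg, ← Matrix.mul_assoc, m.pl, m'.pl,
      smul_zero, neg_zero]
  · have e1 : X.D * h = w • X.p - h * X.D := eq_sub_of_add_eq e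
    have e2 : h' * Y.D = w' • Y.p - Y.D * h' := eq_sub_of_add_eq' e'
    have e3 : X.D * t = -(t * Y.D) := eq_neg_of_add_eq_zero_left ht.cm
    have e4 : X.D * (h * t * h') = w • (t * h') + h * t * (Y.D * h') := by
      rw [← Matrix.mul_assoc, ← Matrix.mul_assoc, e1, Matrix.sub_mul, Matrix.smul_mul, ht.pl,
        Matrix.mul_assoc h, e3]
      simp only [Matrix.mul_neg, sub_neg_eq_add, Matrix.add_mul, Matrix.smul_mul, Matrix.mul_assoc]
    have e5 : h * t * h' * Y.D = w' • (h * t) - h * t * (Y.D * h') := by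
      rw [Matrix.mul_assoc (h * t), e2, Matrix.mul_sub, mul_smul_cen hw'.1,
        Matrix.mul_assoc h t Y.p, ht.pr]
    simp only [fromBlocks_multiply, fromBlocks_add, fromBlocks_smul, Matrix.mul_zero,
      Matrix.zero_mul, add_zero, zero_add, smul_zero, mul_smul_cen hw.1, mul_smul_cen hw'.1,
      Matrix.smul_mul, Matrix.mul_neg, Matrix.neg_mul, e4, e5, ← smul_add, e, e', smul_smul,
      neg_zero, ← hw.1 w']
    congr 1
    abel

/-- A map to a torsion complex extends over a Koszul complex. -/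
theorem kos (hI : Good I S) (hH : Good H S) (hle : I ≤ H) (K : Finset ι) {P : Cx A Λ}
    (hP : Ok I P) (hY : Obj H S K Y) {f : Matrix Y.J P.J A} (hf : Ch H Y P f) :
    ∃ (P' : Cx A Λ) (f' : Matrix Y.J P'.J A) (i : Matrix P'.J P.J A), Obj I S K P' ∧
      Ch H Y P' f' ∧ Ch I P' P i ∧ f' * i = f ∧
      ∀ a b : ℤ, Wd (Set.Icc a b) P → Wd (Set.Icc a (b + K.card)) P' := by
  classical
  induction K using Finset.induction_on with
  | empty =>
    exact ⟨P, f, P.p, ⟨hP, fun _ h => absurd h (Finset.notMem_empty _)⟩, hf, Ch.id hP, hf.pr,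
      fun a b h => by simpa using h⟩
  | insert x K hx ih =>
    obtain ⟨P', f', i, h1, h2, h3, h4, h5⟩ := ih (hY.anti (Finset.subset_insert x K))
    obtain ⟨w, hw, hn⟩ := hY.tor x (Finset.mem_insert_self x K)
    obtain ⟨s, m, e⟩ := hn.sand hH.mul hY.ok (hH.cen x w hw)
    refine ⟨P'.cone P' (w • P'.p), fromCols f' (s * f'), fromRows P'.p 0 * i, a11_obj hI hw h1,
      a11_map hH.mul (hH.cen x w hw) m.hm m.pl e h2, (a11_inc h1.ok w).comp hI.mul h3, ?_,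
      fun a b h => ?_⟩
    · rw [← Matrix.mul_assoc, fromCols_mul_fromRows, h2.pr, Matrix.mul_zero, add_zero, h4]
    · rw [Finset.card_insert_of_notMem hx, Nat.cast_add, Nat.cast_one, ← add_assoc]
      exact a11_wd (h5 a b h) _

/-- The same for two extensions with the same quotient. -/
theorem kos2 (hH : Good H S) (K : Finset ι) {P : Cx A Λ} (hP : Ok H P) (hX : Obj H S K X)
    (hY : Obj H S K Y) {t t' : Matrix X.J Y.J A} (ht : Tw H X Y t) (ht' : Tw H X Y t')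
    {a a' : Matrix X.J P.J A} {f : Matrix Y.J P.J A} (hf : Ch H (X.ext Y t) P (fromRows a f))
    (hf' : Ch H (X.ext Y t') P (fromRows a' f)) :
    ∃ (P' : Cx A Λ) (b b' : Matrix X.J P'.J A) (g : Matrix Y.J P'.J A) (i : Matrix P'.J P.J A),
      Obj H S K P' ∧ Ch H (X.ext Y t) P' (fromRows b g) ∧ Ch H (X.ext Y t') P' (fromRows b' g) ∧
      Ch H P' P i ∧ g * i = f ∧
      ∀ c d : ℤ, Wd (Set.Icc c d) P → Wd (Set.Icc c (d + K.card)) P' := by
  classical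
  have pr : ∀ {Q : Cx A Λ} {b : Matrix X.J Q.J A} {g : Matrix Y.J Q.J A},
      Ch H (X.ext Y t) Q (fromRows b g) → g * Q.p = g := by
    intro Q b g h
    have := h.pr
    rw [fromRows_mul] at this
    exact ((fromRows_ext_iff _ _ _ _).1 this).2
  induction K using Finset.induction_on with
  | empty =>
    exact ⟨P, a, a', f, P.p, ⟨hP, fun _ h => absurd h (Finset.notMem_empty _)⟩, hf, hf', Ch.id hP,
      pr hf, fun a b h => by simpa using h⟩
  | insert x K hx ih =>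
    obtain ⟨P', b, b', g, i, h1, h2, h2', h3, h4, h5⟩ :=
      ih (hX.anti (Finset.subset_insert x K)) (hY.anti (Finset.subset_insert x K))
    obtain ⟨w, hw, hn⟩ := hX.tor x (Finset.mem_insert_self x K)
    obtain ⟨w', hw', hn'⟩ := hY.tor x (Finset.mem_insert_self x K)
    obtain ⟨s, m, e⟩ := hn.sand hH.mul hX.ok (hH.cen x w hw)
    obtain ⟨s', m', e'⟩ := hn'.sand hH.mul hY.ok (hH.cen x w' hw')
    obtain ⟨c, hc⟩ := a11_ext hH.mul (hH.sc hw) (hH.sc hw') ht m e m' e' h2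
    obtain ⟨c', hc'⟩ := a11_ext hH.mul (hH.sc hw) (hH.sc hw') ht' m e m' e' h2'
    refine ⟨P'.cone P' ((w * w') • P'.p), c, c', _, fromRows P'.p 0 * i,
      a11_obj hH (mul_mem hw hw') h1, hc, hc', (a11_inc h1.ok _).comp hH.mul h3, ?_,
      fun a b h => ?_⟩
    · rw [← Matrix.mul_assoc, fromCols_mul_fromRows, pr h2, Matrix.mul_zero, add_zero, h4]
    · rw [Finset.card_insert_of_notMem hx, Nat.cast_add, Nat.cast_one, ← add_assoc]
      exact a11_wd (h5 a b h) _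

end Pool.Agent.MP_f7db47_al.KN

end

section

/-!
Complexes over an ideal.
-/

namespace Pool.Agent.MP_f7db47_al.KN

open Matrix

universe v w

variable {A : Type v} [Ring A] {Λ ι : Type} {H H' I I' : Fam A Λ} {S : ι → Submonoid A}
  {K K' : Finset ι} {W : Set ℤ} {X X' Y Y' Z : Cx A Λ} {w w' : A}

theorem a12a_com (hX : Ok H X) (s : Matrix X.J X.J A) :
    X.D * (X.p * s) + X.p * s * X.D = X.p * (X.D * s + s * X.D) := by
  rw [Matrix.mul_add, ← Matrix.mul_assoc, ← Matrix.mul_assoc, ← Matrix.mul_assoc, hX.Dp, hX.pD]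

theorem Mp.idl_left (hI : Idl I H) {d : ℤ} {f : Matrix Y.J X.J A} (hY : Hm I 0 Y.t Y.t Y.p)
    (h : Mp H d Y X f) : Mp I d Y X f :=
  ⟨h.pl ▸ Hm.mul3 hI.right hY h.hm (zero_add d).symm, h.pl, h.pr⟩

theorem Mp.idl_right (hI : Idl I H) {d : ℤ} {f : Matrix Y.J X.J A} (hX : Hm I 0 X.t X.t X.p)
    (h : Mp H d Y X f) : Mp I d Y X f :=
  ⟨h.pr ▸ Hm.mul3 hI.left h.hm hX (add_zero d).symm, h.pl, h.pr⟩

theorem Idl.lr (hI : Idl I H) : LR I := fun _ _ _ _ _ hx hy => hI.left (hI.le _ _ hx) hy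

theorem Ok.idl (hI : Idl I H) (hp : Hm I 0 X.t X.t X.p) (h : Ok H X) : Ok I X :=
  ⟨hp, h.pD ▸ Hm.mul3 hI.right hp h.hD (zero_add _).symm, h.pp, h.pD, h.Dp, h.DD⟩

theorem Nul.idl (hH : LR H) (hI : Idl I H) (hX : Ok I X) (hw : ∀ x, w * x = x * w)
    (h : Nul H w X) : Nul I w X := by
  obtain ⟨s, h1, h2⟩ := h
  have _ := hH
  exact ⟨X.p * s, Hm.mul3 hI.right hX.hp h1 rfl, by
    rw [a12a_com hX, h2, mul_smul_cen hw, hX.pp]⟩

theorem Obj.idl (hH : Good H S) (hI : Idl I H) (hp : Hm I 0 X.t X.t X.p) (h : Obj H S K X) :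
    Obj I S K X :=
  ⟨h.ok.idl hI hp, fun a ha => (h.tor a ha).imp fun w c =>
    ⟨c.1, c.2.idl hH.mul hI (h.ok.idl hI hp) (hH.cen a w c.1)⟩⟩

theorem HE.idl (hH : LR H) (hI : Idl I H) (hX : Ok I X) (hY : Ok I Y) (h : HE H X Y) :
    HE I X Y := by
  obtain ⟨f, g, a, b, c⟩ := h
  have _ := hH
  refine ⟨f, g, X.p * a, Y.p * b, ⟨c.hf.toMp.idl_left hI hY.hp, c.hf.cm⟩,
    ⟨c.hg.toMp.idl_left hI hX.hp, c.hg.cm⟩, Hm.mul3 hI.right hX.hp c.hh rfl,
    Hm.mul3 hI.right hY.hp c.hk rfl, ?_, ?_⟩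
  · rw [a12a_com hX, ← c.hg.pl, Matrix.mul_assoc, ← Matrix.mul_add, c.gf, hX.pp]
  · rw [a12a_com hY, ← c.hf.pl, Matrix.mul_assoc, ← Matrix.mul_add, c.fg, hY.pp]

theorem NulMod.he (hH : LR H) (hI : Idl I H) (hw : Sc H w) (h : NulMod H I w X) (e : HE H X Y) :
    NulMod H I w Y := by
  obtain ⟨f, g, a, b, c⟩ := e
  obtain ⟨s, h1, h2⟩ := h
  refine ⟨f * s * g + w • b,
    ((c.hf.hm.mul hH h1 (e := 1) rfl).mul hH c.hg.hm rfl).add (c.hk.smul hw), ?_⟩
  have e1 : w • Y.p - (Y.D * (f * s * g + w • b) + (f * s * g + w • b) * Y.D)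
      = f * (w • X.p - (X.D * s + s * X.D)) * g := by
    have a1 : Y.D * (f * s * g) = f * (X.D * s) * g := by
      simp only [← Matrix.mul_assoc, c.hf.cm]
    have a2 : f * s * g * Y.D = f * (s * X.D) * g := by
      simp only [Matrix.mul_assoc, c.hg.cm]
    rw [Matrix.mul_add, Matrix.add_mul, a1, a2, mul_smul_cen hw.1, Matrix.smul_mul,
      Matrix.mul_sub, Matrix.sub_mul, Matrix.mul_add, Matrix.add_mul, mul_smul_cen hw.1,
      c.hf.pr, Matrix.smul_mul, ← c.fg, smul_add, smul_add]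
    abel
  rw [e1]
  exact Hm.mul3 hI.right (Hm.mul3 hI.left c.hf.hm h2 (e := 0) rfl) c.hg.hm rfl

theorem NulMod.ext (hI : Idl I H) (hw : Sc I w) {t : Matrix X.J Y.J A} (ht : Tw H X Y t)
    (hY : Ok I Y) (h : NulMod H I w X) : NulMod H I w (X.ext Y t) := by
  obtain ⟨s, h1, h2⟩ := h
  refine ⟨fromBlocks s 0 0 0, Hm.blocks h1 (Hm.zero _ _) (Hm.zero _ _) (Hm.zero _ _), ?_⟩
  have e1 : w • (X.ext Y t).p - ((X.ext Y t).D * fromBlocks s 0 0 0
      + fromBlocks s 0 0 0 * (X.ext Y t).D)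
      = fromBlocks (w • X.p - (X.D * s + s * X.D)) (-(s * t)) 0 (w • Y.p) := by
    simp only [fromBlocks_multiply, fromBlocks_smul, fromBlocks_add, sub_eq_add_neg,
      fromBlocks_neg]
    simp
  rw [e1]
  exact Hm.blocks h2 (Hm.mul3 hI.left h1 (ht.toMp.idl_right hI hY.hp).hm rfl).neg (Hm.zero _ _)
    (hY.hp.smul hw)

theorem NulMod.quo (hH : LR H) {I₁ I₂ : Fam A Λ} (h1 : Idl I₁ H) (h2 : Idl I₂ H)
    (h21 : ∀ ⦃a b c : Λ⦄ ⦃x y : A⦄, x ∈ I₂ a b → y ∈ I₁ b c → x * y ∈ I a c) (hX : Ok H X)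
    (hw : ∀ x, w * x = x * w) {e : Matrix X.J X.J A} (he : Cut H X e) (e1 : Hm I₁ 0 X.t X.t e)
    (e2 : Hm I₂ 0 X.t X.t (X.p - e)) (h : Nul H w X) : NulMod H I w (X.quo e) := by
  obtain ⟨s, h3, h4⟩ := h
  have hq : Hm H 0 X.t X.t (X.p - e) := hX.hp.sub he.hm
  refine ⟨(X.p - e) * s * (X.p - e), (hq.mul hH h3 (e := 1) rfl).mul hH hq rfl, ?_⟩
  have a1 : (X.p - e) * X.p = X.p - e := by rw [sub_mul, hX.pp, he.ep]
  have a2 : (X.p - e) * (X.p - e) = X.p - e := by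
    rw [mul_sub, a1, sub_mul, he.pe, he.ee, sub_self, sub_zero]
  have a3 : (X.p - e) * X.D * (X.p - e) = (X.p - e) * X.D := by
    rw [mul_sub, mul_assoc, hX.Dp, sub_mul _ _ X.D, sub_mul, hX.pD, he.De, sub_self, sub_zero]
  have a4 : e * X.D = X.D - (X.p - e) * X.D := by rw [sub_mul, hX.pD, sub_sub_cancel]
  have e3 : w • (X.quo e).p - ((X.quo e).D * ((X.p - e) * s * (X.p - e))
      + (X.p - e) * s * (X.p - e) * (X.quo e).D)
      = (X.p - e) * s * (e * (X.D * (X.p - e))) := by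
    show w • (X.p - e) - ((X.p - e) * X.D * ((X.p - e) * s * (X.p - e))
      + (X.p - e) * s * (X.p - e) * ((X.p - e) * X.D)) = _
    rw [← mul_assoc e, a4]
    generalize X.p - e = q at a1 a2 a3 ⊢
    have b1 : w • q = q * (X.D * s + s * X.D) * q := by
      rw [h4, mul_smul_cen hw, a1, smul_mul_assoc, a2]
    have b2 : q * X.D * (q * s * q) = q * X.D * s * q := by
      simp only [← mul_assoc, a3]
    have b3 : q * s * q * (q * X.D) = q * s * (q * X.D * q) := by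
      rw [a3, mul_assoc (q * s), ← mul_assoc q q, a2]
    rw [b1, b2, b3]
    noncomm_ring
  rw [e3]
  exact Hm.mul3 h21 (Hm.mul3 h2.right e2 h3 (e := 1) rfl)
    (Hm.mul3 h1.right e1 (hX.hD.mul hH hq (e := -1) rfl) (e := -1) rfl) rfl

/-- Left units for all columns of a matrix, degree by degree. -/
theorem LU.mat (h : LU I) {J J' : Type} [Fintype J] [DecidableEq J] [Fintype J'] {d : ℤ}
    {s : J → Λ × ℤ} {t : J' → Λ × ℤ} {f : Matrix J J' A} (hf : Hm I d s t f) :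
    ∃ e : Matrix J J A, Hm I 0 s s e ∧ e * e = e ∧ e * f = f ∧ ∀ i j, i ≠ j → e i j = 0 := by
  classical
  have h1 : ∀ i, ∃ e ∈ I (s i).1 (s i).1, e * e = e ∧ ∀ j, e * f i j = f i j := fun i => by
    obtain ⟨e, a1, a2, a3⟩ := h (s i).1 (Finset.univ.image (f i)) fun x hx => by
      obtain ⟨j, -, rfl⟩ := Finset.mem_image.1 hx
      exact ⟨_, (hf i j).1⟩
    exact ⟨e, a1, a2, fun j => a3 _ (Finset.mem_image_of_mem _ (Finset.mem_univ j))⟩
  choose e a1 a2 a3 using h1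
  refine ⟨diagonal e, fun i j => ?_, ?_, ?_, fun i j => diagonal_apply_ne e⟩
  · by_cases hij : i = j
    · subst hij
      rw [diagonal_apply_eq]
      exact ⟨a1 i, fun _ => (add_zero _).symm⟩
    · rw [diagonal_apply_ne e hij]
      exact ⟨zero_mem _, fun c => absurd rfl c⟩
  · rw [diagonal_mul_diagonal]
    exact congrArg _ (funext a2)
  · ext i j
    rw [diagonal_mul, a3]

end Pool.Agent.MP_f7db47_al.KN

end

section

/-!
A complex over the double: both components have a common quotient.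
-/

namespace Pool.Agent.MP_f7db47_al.KN

open Matrix

universe v w

variable {A : Type v} [Ring A] {Λ ι : Type} {H H' I I' : Fam A Λ} {S : ι → Submonoid A}
  {K K' : Finset ι} {W : Set ℤ} {X X' Y Y' Z : Cx A Λ} {w w' : A}

theorem mem_dS {a : ι} {x : A × A} : x ∈ dS S a ↔ ∃ w ∈ S a, (w, w) = x := Iff.rfl

theorem dS_cen (h : Cen S) : Cen (dS S) := by
  rintro a _ ⟨w, hw, rfl⟩ x
  exact Prod.ext (h a w hw x.1) (h a w hw x.2)

theorem dbl_good (hH : Good H S) (hI : Good I S) (hid : Idl I H) : Good (dbl H I) (dS S) where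
  mul a b c x y hx hy := ⟨hH.mul hx.1 hy.1, hH.mul hx.2.1 hy.2.1, by
    have := add_mem (hid.left hx.2.1 hy.2.2) (hid.right hx.2.2 hy.1)
    rwa [mul_sub, sub_mul, sub_add_sub_cancel] at this⟩
  cen := dS_cen hH.cen
  stab := by
    rintro a _ ⟨w, hw, rfl⟩ i j x hx
    refine ⟨hH.stab a w hw hx.1, hH.stab a w hw hx.2.1, ?_⟩
    have := hI.stab a w hw hx.2.2
    rwa [mul_sub] at this

theorem sf_fst_dbl : Sf (dbl H I) H (dS S) S (AddMonoidHom.fst A A) id :=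
  ⟨fun _ _ _ h => h.1, fun _ _ _ _ _ _ _ => rfl, by
    rintro a _ ⟨w, hw, rfl⟩
    exact ⟨w, hw, fun _ _ _ _ => rfl⟩⟩

theorem sf_snd_dbl : Sf (dbl H I) H (dS S) S (AddMonoidHom.snd A A) id :=
  ⟨fun _ _ _ h => h.2.1, fun _ _ _ _ _ _ _ => rfl, by
    rintro a _ ⟨w, hw, rfl⟩
    exact ⟨w, hw, fun _ _ _ _ => rfl⟩⟩

theorem sf_inr_dbl (hid : Idl I H) : Sf I (dbl H I) S (dS S) (AddMonoidHom.inr A A) id :=
  ⟨fun _ _ _ h => ⟨zero_mem _, hid.le _ _ h, by simpa using h⟩,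
    fun _ _ _ _ _ _ _ => by simp, fun a w hw => ⟨(w, w), ⟨w, hw, rfl⟩, fun _ _ _ _ => by simp⟩⟩

/-- A diagonal idempotent over the ideal that is stable under two differentials. -/
theorem LU.stable (hid : Idl I H) (hu : LU I) {J : Type} [Fintype J] [DecidableEq J]
    {s : J → Λ × ℤ} {D₁ D₂ R : Matrix J J A} (h1 : Hm H (-1) s s D₁) (h2 : Hm H (-1) s s D₂)
    (hR : Hm I (-1) s s R) :
    ∃ e : Matrix J J A, Hm I 0 s s e ∧ e * e = e ∧ e * D₁ * e = D₁ * e ∧ e * D₂ * e = D₂ * e ∧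
      e * R = R := by
  classical
  have key : ∀ (n : ℕ) (c : ℤ), (∀ j, (s j).2 < c + n) → ∃ e : J → A,
      (∀ j, e j ∈ I (s j).1 (s j).1 ∧ e j * e j = e j) ∧ ∀ i, c ≤ (s i).2 → ∀ j,
        e i * (D₁ i j * e j) = D₁ i j * e j ∧ e i * (D₂ i j * e j) = D₂ i j * e j ∧
        e i * R i j = R i j := by
    intro n
    induction n with
    | zero => exact fun c h => ⟨0, fun _ => ⟨zero_mem _, by simp⟩,
        fun i hi => absurd (h i) (by omega)⟩
    | succ n ih =>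
      intro c h
      obtain ⟨e, e1, e2⟩ := ih (c + 1) fun j => by have := h j; omega
      have : ∀ i, ∃ x ∈ I (s i).1 (s i).1, x * x = x ∧ ∀ j,
          x * (D₁ i j * e j) = D₁ i j * e j ∧ x * (D₂ i j * e j) = D₂ i j * e j ∧
          x * R i j = R i j := by
        intro i
        obtain ⟨x, x1, x2, x3⟩ := hu (s i).1 (Finset.univ.image (fun j => D₁ i j * e j) ∪
            Finset.univ.image (fun j => D₂ i j * e j) ∪ Finset.univ.image (fun j => R i j)) (by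
          simp only [Finset.mem_union, Finset.mem_image, Finset.mem_univ, true_and]
          rintro _ ((⟨j, rfl⟩ | ⟨j, rfl⟩) | ⟨j, rfl⟩)
          exacts [⟨_, hid.left (h1 i j).1 (e1 j).1⟩, ⟨_, hid.left (h2 i j).1 (e1 j).1⟩,
            ⟨_, (hR i j).1⟩])
        exact ⟨x, x1, x2, fun j => ⟨x3 _ (by simp), x3 _ (by simp), x3 _ (by simp)⟩⟩
      choose x x1 x2 x3 using this
      refine ⟨fun j => if (s j).2 = c then x j else e j, fun j => ?_, fun i hi j => ?_⟩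
      · dsimp only
        split_ifs
        exacts [⟨x1 j, x2 j⟩, e1 j]
      · have k : ∀ {D : Matrix J J A}, Hm H (-1) s s D → ∀ y : A,
            y * (D i j * e j) = D i j * e j →
            y * (D i j * if (s j).2 = c then x j else e j) =
              D i j * if (s j).2 = c then x j else e j := by
          intro D hD y hy
          split_ifs with hj
          · have : D i j = 0 := by
              by_contra h0
              have := (hD i j).2 h0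
              omega
            simp [this]
          · exact hy
        dsimp only
        by_cases hc : (s i).2 = c
        · rw [if_pos hc]
          exact ⟨k h1 _ (x3 i j).1, k h2 _ (x3 i j).2.1, (x3 i j).2.2⟩
        · rw [if_neg hc]
          have := e2 i (by omega) j
          exact ⟨k h1 _ this.1, k h2 _ this.2.1, this.2.2⟩
  let L : ℕ := Finset.univ.sup fun j => (s j).2.natAbs
  have hL : ∀ j, (s j).2.natAbs ≤ L := fun j =>
    Finset.le_sup (f := fun j => (s j).2.natAbs) (Finset.mem_univ j)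
  obtain ⟨e, e1, e2⟩ := key (2 * L + 1) (-L) fun j => by have := hL j; push_cast; omega
  have e3 := fun i => e2 i (by have := hL i; omega)
  refine ⟨diagonal e, fun i j => ?_, ?_, ?_, ?_, ?_⟩
  · by_cases h : i = j
    · subst h
      simpa using (e1 i).1
    · simp [diagonal_apply_ne _ h]
  · rw [diagonal_mul_diagonal]
    exact congrArg diagonal (funext fun j => (e1 j).2)
  · ext i j
    simpa [mul_assoc] using (e3 i j).1
  · ext i j
    simpa [mul_assoc] using (e3 i j).2.1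
  · ext i j
    simpa using (e3 i j).2.2

theorem a16_inc {τ : Matrix X.J Y.J A} (hX : Ok H X) :
    Ch H (X.ext Y τ) X (fromRows X.p 0) :=
  ⟨⟨Hm.rows hX.hp (Hm.zero _ _), by simp [fromBlocks_mul_fromRows, hX.pp],
    by simp [fromRows_mul, hX.pp]⟩, by simp [fromBlocks_mul_fromRows, fromRows_mul, hX.pD, hX.Dp]⟩

/-- The cone of the inclusion of the subcomplex is the quotient. -/
theorem a16_quo {τ : Matrix X.J Y.J A} (hX : Ok H X) (hY : Ok H Y) (ht : Tw H X Y τ) :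
    HE H ((X.ext Y τ).ext (((X.sh 1).sh 1).sh (-1)) (fromRows X.p 0)) Y := by
  refine ⟨fromCols (fromCols 0 Y.p) 0, fromRows (fromRows 0 Y.p) (-τ),
    fromBlocks 0 0 (fromCols X.p 0) 0, 0,
    ⟨⟨Hm.cols (Hm.cols (Hm.zero _ _) hY.hp) (Hm.zero _ _), ?_, ?_⟩, ?_⟩,
    ⟨⟨Hm.rows (Hm.rows (Hm.zero _ _) hY.hp) fun i j => ⟨neg_mem (ht.hm i j).1, fun h => ?_⟩,
      ?_, ?_⟩, ?_⟩,
    Hm.blocks (Hm.zero _ _) (Hm.zero _ _) (Hm.cols (fun i j => ⟨(hX.hp i j).1, fun h => ?_⟩)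
      (Hm.zero _ _)) (Hm.zero _ _), Hm.zero _ _, ?_, ?_⟩
  · simp [mul_fromCols, hY.pp]
  · simp [fromCols_mul_fromBlocks, hY.pp]
  · simp [fromCols_mul_fromBlocks, mul_fromCols, fromCols_mul_fromRows, hY.pD, hY.Dp]
  · have := (ht.hm i j).2 (by simpa using h)
    simp only
    omega
  · simp [fromBlocks_mul_fromRows, hY.pp, ht.pl]
  · simp [fromRows_mul, hY.pp, ht.pr]
  · have := eq_neg_of_add_eq_zero_left ht.cm
    simp only [fromBlocks_mul_fromRows, fromRows_mul, hY.pD, hY.Dp, ht.pr, Matrix.mul_neg, ht.pl,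
      Matrix.neg_mul, this]
    ext ((i | i) | i) j <;> simp
  · have := (hX.hp i j).2 h
    simp only
    omega
  · simp only [fromBlocks_multiply, fromBlocks_add, fromCols_mul_fromBlocks,
      fromCols_mul_fromRows, mul_fromCols]
    ext ((i | i) | i) ((j | j) | j) <;> simp [hX.pp, hY.pp, hX.pD, hX.Dp, ht.pl, ht.pr]
  · simp [fromCols_mul_fromRows, hY.pp]

/-- The quotient of a torsion complex by a subcomplex over `I` can be made torsion. -/
theorem a16_fill (hH : Good H S) (hI : Good I S) (hle : I ≤ H) {τ : Matrix X.J Y.J A}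
    (hX : Ok I X) (hY : Ok H Y) (ht : Tw H X Y τ) (hC : Obj H S K (X.ext Y τ)) :
    ∃ Z g, Ok I Z ∧ Tw H Y Z g ∧ Obj H S K (Y.ext Z g) := by
  have hX' := hX.mono hle
  obtain ⟨P, f, i, hP, hf, hi, e, -⟩ := kos hI hH hle K hX hC (a16_inc hX')
  have hg : Tw I (P.sh 1) ((X.sh 1).sh 1) (-i) :=
    ⟨⟨hi.hm.neg.shift_left 1 rfl |>.shift_right 1 rfl |>.shift_right 1 (by omega),
      by simp [hi.pl], by simp [hi.pr]⟩, by simp [hi.cm]⟩
  have hZ : Ok I ((P.sh 1).ext ((X.sh 1).sh 1) (-i)) := (hP.ok.sh 1).ext ((hX.sh 1).sh 1) hg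
  obtain ⟨m1, m2, m3⟩ := ext_mod hH.mul hC.ok ((hP.ok.sh 1).mono hle) ((hX'.sh 1).sh 1) hf.tw
    (hg.mono hle)
  have e' : -(f * -i) = fromRows X.p 0 := by simp [e]
  rw [e'] at m1 m2 m3
  have o1 := hC.ok.ext (((hX'.sh 1).sh 1).sh (-1)) m1
  obtain ⟨g, g1, g2⟩ := ext_congr hH.mul o1 hY (hZ.mono hle) (hZ.mono hle) (a16_quo hX' hY ht)
    (HE.refl (hZ.mono hle)) m2
  exact ⟨_, g, hZ, g1, (Obj.ext hH hf.tw hC ((hP.sh 1).mono hle)).he hH
    (hY.ext (hZ.mono hle) g1) (m3.symm.trans hH.mul g2)⟩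

theorem a16_side (hH : Good H S) (hid : Idl I H) {τ : Matrix X.J Y.J A} {C : Cx A Λ}
    (hX : Ok I X) (hY : Ok H Y) (ht : Tw H X Y τ) (hC : Obj H S K C) (e : HE H C (X.ext Y τ))
    {g : Matrix Y.J Z.J A} (hZ : Ok I Z) (hg : Tw H Y Z g) (hQ : Obj H S K (Y.ext Z g)) :
    ∃ (T : Cx A Λ) (σ : Matrix T.J (Y.ext Z g).J A), Obj I S K T ∧ Tw H T (Y.ext Z g) σ ∧
      HE H (T.ext (Y.ext Z g) σ) C := by
  have hX' := hX.mono hid.le
  obtain ⟨m1, m2, m3⟩ := ext_mod hH.mul hX' hY (hZ.mono hid.le) ht hg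
  have o1 := hX'.ext ((hZ.mono hid.le).sh (-1)) m1
  have e2 := m3.trans hH.mul e.symm
  exact ⟨_, _, (Obj.left hH m2 o1 (hC.he hH (o1.ext hQ.ok m2) e2.symm) hQ).idl hH hid
    (Hm.blocks hX.hp (Hm.zero _ _) (Hm.zero _ _) (hZ.sh (-1)).hp), m2, e2⟩

theorem exc_core (hH : Good H S) (hI : Good I S) (hid : Idl I H) (hu : LU I)
    {C : Cx (A × A) Λ} (hC : Obj (dbl H I) (dS S) K C) (hp : C.p = 1) :
    ∃ (T₁ T₂ Q : Cx A Λ) (τ₁ : Matrix T₁.J Q.J A) (τ₂ : Matrix T₂.J Q.J A),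
      Obj I S K T₁ ∧ Obj I S K T₂ ∧ Obj H S K Q ∧ Tw H T₁ Q τ₁ ∧ Tw H T₂ Q τ₂ ∧
      HE H (T₁.ext Q τ₁) (C.smap (AddMonoidHom.fst A A) id) ∧
      HE H (T₂.ext Q τ₂) (C.smap (AddMonoidHom.snd A A) id) := by
  have h1 := hC.sf (sf_fst_dbl (H := H) (I := I) (S := S))
  have h2 := hC.sf (sf_snd_dbl (H := H) (I := I) (S := S))
  set C₁ := C.smap (AddMonoidHom.fst A A) id with hC₁
  set C₂ := C.smap (AddMonoidHom.snd A A) id with hC₂
  have p1 : C₁.p = 1 := by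
    rw [hC₁]; simp only [hp]; exact Matrix.map_one _ rfl rfl
  have p2 : C₂.p = 1 := by
    rw [hC₂]; simp only [hp]; exact Matrix.map_one _ rfl rfl
  have hR : Hm I (-1) C₁.t C₁.t (C₂.D - C₁.D) := fun i j => ⟨(hC.ok.hD i j).1.2.2, fun h =>
    (hC.ok.hD i j).2 fun h0 => h (by
      change (C.D i j).2 - (C.D i j).1 = 0
      simp [h0])⟩
  obtain ⟨e, e1, e2, e3, e4, e5⟩ := hu.stable hid h1.ok.hD h2.ok.hD hR
  have c1 : Cut H C₁ e := ⟨e1.mono hid.le, e2, by simp [p1], by simp [p1], e3⟩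
  have c2 : Cut H C₂ e := ⟨e1.mono hid.le, e2, by simp [p2], by simp [p2], e4⟩
  obtain ⟨a1, a2, a3, a4⟩ := tri hH.mul h1.ok c1
  obtain ⟨b1, b2, b3, b4⟩ := tri hH.mul h2.ok c2
  have q : C₂.quo e = C₁.quo e := by
    have k1 : C₂.p - e = C₁.p - e := by rw [p1, p2]
    have k2 : (C₂.p - e) * C₂.D = (C₁.p - e) * C₁.D := by
      rw [p1, p2, ← sub_eq_zero, ← Matrix.mul_sub, Matrix.sub_mul, e5, Matrix.one_mul, sub_self]
    change C₁.re (C₂.p - e) ((C₂.p - e) * C₂.D) = _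
    rw [k2, k1]
  have s1 := a1.idl hid e1
  have s2 := b1.idl hid e1
  obtain ⟨Z, g, hZ, hg, hQ⟩ := a16_fill hH hI hid.le s1 a2 a3 (h1.he hH (a1.ext a2 a3) a4)
  obtain ⟨T₁, σ₁, t1, t2, t3⟩ := a16_side hH hid s1 a2 a3 h1 a4 hZ hg hQ
  obtain ⟨τ, b3', b4'⟩ : ∃ τ, Tw H (C₂.sub e) (C₁.quo e) τ ∧
      HE H C₂ ((C₂.sub e).ext (C₁.quo e) τ) := q ▸ ⟨_, b3, b4⟩
  obtain ⟨T₂, σ₂, u1, u2, u3⟩ := a16_side hH hid s2 a2 b3' h2 b4' hZ hg hQ
  exact ⟨T₁, T₂, _, σ₁, σ₂, t1, u1, hQ, t2, u2, t3, u3⟩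

end Pool.Agent.MP_f7db47_al.KN

end

section

/-!
Pairs of filtered complexes with the same graded pieces.
-/

namespace Pool.Agent.MP_f7db47_al.KN

open Matrix

universe v w

variable {A : Type v} [Ring A] {Λ ι : Type} {H H' I I' : Fam A Λ} {S : ι → Submonoid A}
  {K K' : Finset ι} {W : Set ℤ} {X X' Y Y' Z : Cx A Λ} {w w' : A}

/-- Pairs of triangular matrices with the same diagonal blocks. -/
def trg (H : Fam A Λ) : Fam (A × A) (Λ × ℤ) := fun a b =>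
  { carrier := {x | x.1 ∈ H a.1 b.1 ∧ x.2 ∈ H a.1 b.1 ∧ (a.2 = b.2 → x.1 = x.2) ∧
      (b.2 < a.2 → x = 0)}
    zero_mem' := ⟨zero_mem _, zero_mem _, fun _ => rfl, fun _ => rfl⟩
    add_mem' := fun {x y} h h' => ⟨add_mem h.1 h'.1, add_mem h.2.1 h'.2.1,
      fun e => by rw [Prod.fst_add, Prod.snd_add, h.2.2.1 e, h'.2.2.1 e],
      fun e => by rw [h.2.2.2 e, h'.2.2.2 e, add_zero]⟩
    neg_mem' := fun {x} h => ⟨neg_mem h.1, neg_mem h.2.1,
      fun e => by rw [Prod.fst_neg, Prod.snd_neg, h.2.2.1 e],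
      fun e => by rw [h.2.2.2 e, neg_zero]⟩ }

theorem trg_mul {H₁ H₂ H₃ : Fam A Λ}
    (hm : ∀ ⦃a b c : Λ⦄ ⦃x y : A⦄, x ∈ H₁ a b → y ∈ H₂ b c → x * y ∈ H₃ a c)
    ⦃a b c : Λ × ℤ⦄ ⦃x y : A × A⦄ (hx : x ∈ trg H₁ a b) (hy : y ∈ trg H₂ b c) :
    x * y ∈ trg H₃ a c := by
  refine ⟨hm hx.1 hy.1, hm hx.2.1 hy.2.1, fun e => ?_, fun e => ?_⟩
  · rcases lt_trichotomy a.2 b.2 with h | h | h
    · rw [hy.2.2.2 (e ▸ h), mul_zero]; rfl
    · rw [Prod.fst_mul, Prod.snd_mul, hx.2.2.1 h, hy.2.2.1 (h ▸ e)]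
    · rw [hx.2.2.2 h, zero_mul]; rfl
  · by_cases h : b.2 < a.2
    · rw [hx.2.2.2 h, zero_mul]
    · rw [hy.2.2.2 (by omega), mul_zero]

theorem trg_good (hH : Good H S) : Good (trg H) (dS S) where
  mul := trg_mul hH.mul
  cen := dS_cen hH.cen
  stab := by
    rintro a _ ⟨w, hw, rfl⟩ i j x hx
    exact ⟨hH.stab a w hw hx.1, hH.stab a w hw hx.2.1, fun e => congrArg (w * ·) (hx.2.2.1 e),
      fun e => by rw [hx.2.2.2 e, mul_zero]⟩

theorem trg_idl (hid : Idl I H) : Idl (trg I) (trg H) :=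
  ⟨fun _ _ _ h => ⟨hid.le _ _ h.1, hid.le _ _ h.2.1, h.2.2⟩, trg_mul hid.left, trg_mul hid.right⟩

theorem trg_lu (hu : LU I) : LU (trg I) := by
  classical
  intro a T hT
  obtain ⟨e, e1, e2, e3⟩ := hu a.1 (T.image Prod.fst ∪ T.image Prod.snd) (by
    simp only [Finset.mem_union, Finset.mem_image]
    rintro _ (⟨x, hx, rfl⟩ | ⟨x, hx, rfl⟩)
    · exact let ⟨b, hb⟩ := hT x hx; ⟨b.1, hb.1⟩
    · exact let ⟨b, hb⟩ := hT x hx; ⟨b.1, hb.2.1⟩)
  exact ⟨(e, e), ⟨e1, e1, fun _ => rfl, fun h => absurd h (lt_irrefl _)⟩, Prod.ext e2 e2,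
    fun x hx => Prod.ext (e3 _ (Finset.mem_union_left _ (Finset.mem_image_of_mem _ hx)))
      (e3 _ (Finset.mem_union_right _ (Finset.mem_image_of_mem _ hx)))⟩

theorem sf_fst_trg : Sf (trg H) H (dS S) S (AddMonoidHom.fst A A) Prod.fst :=
  ⟨fun _ _ _ h => h.1, fun _ _ _ _ _ _ _ => rfl, by
    rintro a _ ⟨w, hw, rfl⟩
    exact ⟨w, hw, fun _ _ _ _ => rfl⟩⟩

theorem sf_snd_trg : Sf (trg H) H (dS S) S (AddMonoidHom.snd A A) Prod.fst :=
  ⟨fun _ _ _ h => h.2.1, fun _ _ _ _ _ _ _ => rfl, by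
    rintro a _ ⟨w, hw, rfl⟩
    exact ⟨w, hw, fun _ _ _ _ => rfl⟩⟩

theorem sf_diag_trg (n : ℤ) :
    Sf H (trg H) S (dS S) ((AddMonoidHom.id A).prod (AddMonoidHom.id A)) fun a => (a, n) :=
  ⟨fun _ _ _ h => ⟨h, h, fun _ => rfl, fun h => absurd h (lt_irrefl _)⟩,
    fun _ _ _ _ _ _ _ => rfl, fun _ w hw => ⟨(w, w), ⟨w, hw, rfl⟩, fun _ _ _ _ => rfl⟩⟩

theorem a16_sub_mul {J : Type} [Fintype J] (U : J → Prop) [DecidablePred U] (M N : Matrix J J A)
    (h : ∀ i j k, U i → ¬U j → U k → M i j * N j k = 0) :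
    M.submatrix (Subtype.val : {j // U j} → J) (Subtype.val : {j // U j} → J) *
      N.submatrix (Subtype.val : {j // U j} → J) (Subtype.val : {j // U j} → J) =
      (M * N).submatrix Subtype.val Subtype.val := by
  ext i k
  simp only [Matrix.mul_apply, submatrix_apply]
  rw [← Finset.sum_subtype (Finset.univ.filter U) (by simp) (fun j => M i j * N j k)]
  exact Finset.sum_subset (Finset.subset_univ _) fun j _ hj => h _ _ _ i.2 (by simpa using hj) k.2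

theorem a16_res_tor {T : Cx (A × A) (Λ × ℤ)} (hT : Obj (trg H) (dS S) K T) (U : T.J → Prop)
    [DecidablePred U]
    (hU : ∀ i j k, U i → ¬U j → U k → (T.t j).1.2 < (T.t i).1.2 ∨ (T.t k).1.2 < (T.t j).1.2) :
    Tor (trg H) (dS S) K (T.res (Subtype.val : {j // U j} → T.J)) := by
  intro a ha
  obtain ⟨w, hw, h, h1, h2⟩ := hT.tor a ha
  refine ⟨w, hw, h.submatrix Subtype.val Subtype.val, h1.submatrix _ _, ?_⟩
  have k : ∀ {d d' : ℤ} {M N : Matrix T.J T.J (A × A)}, Hm (trg H) d T.t T.t M →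
      Hm (trg H) d' T.t T.t N → ∀ i j k, U i → ¬U j → U k → M i j * N j k = 0 := by
    intro d d' M N hM hN i j k a b c
    rcases hU i j k a b c with h | h
    · rw [(hM i j).1.2.2.2 h, zero_mul]
    · rw [(hN j k).1.2.2.2 h, mul_zero]
  dsimp only
  rw [a16_sub_mul U _ _ (k hT.ok.hD h1), a16_sub_mul U _ _ (k h1 hT.ok.hD)]
  exact Matrix.ext fun i j => congrFun (congrFun h2 i.1) j.1

theorem trg_cls (hH : Good H S) {M : Type w} [AddCommGroup M] (E : KS H S K Set.univ M)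
    {T : Cx (A × A) (Λ × ℤ)} (hT : Obj (trg H) (dS S) K T) :
    E.cls (T.smap (AddMonoidHom.fst A A) Prod.fst) =
      E.cls (T.smap (AddMonoidHom.snd A A) Prod.fst) := by
  classical
  have one : ∀ T : Cx (A × A) (Λ × ℤ), Ok (trg H) T → (∀ i j, (T.t i).1.2 = (T.t j).1.2) →
      T.smap (AddMonoidHom.fst A A) Prod.fst = T.smap (AddMonoidHom.snd A A) Prod.fst := by
    intro T hT h
    have e1 : T.p.map (AddMonoidHom.fst A A) = T.p.map (AddMonoidHom.snd A A) :=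
      Matrix.ext fun i j => (hT.hp i j).1.2.2.1 (h i j)
    have e2 : T.D.map (AddMonoidHom.fst A A) = T.D.map (AddMonoidHom.snd A A) :=
      Matrix.ext fun i j => (hT.hD i j).1.2.2.1 (h i j)
    unfold Cx.smap
    rw [e1, e2]
  induction hn : Fintype.card T.J using Nat.strong_induction_on generalizing T with
  | _ n ih =>
    by_cases h : ∀ i j, (T.t i).1.2 = (T.t j).1.2
    · rw [one T hT.ok h]
    push Not at h
    obtain ⟨i₀, j₀, h0⟩ := h
    obtain ⟨m, -, hm⟩ := Finset.exists_min_image Finset.univ (fun j => (T.t j).1.2)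
      ⟨i₀, Finset.mem_univ _⟩
    have hm' := fun j => hm j (Finset.mem_univ j)
    let U : T.J → Prop := fun j => (T.t j).1.2 = (T.t m).1.2
    have lt : ∀ i j, ¬U i → U j → (T.t j).1.2 < (T.t i).1.2 := fun i j a b => by
      have := hm' i
      simp only [U] at a b
      omega
    obtain ⟨a1, a2, t, a3, a4⟩ := tri_res (trg_good hH).mul hT.ok U
      (fun i j a b => (hT.ok.hp i j).1.2.2.2 (lt i j a b))
      (fun i j a b => (hT.ok.hD i j).1.2.2.2 (lt i j a b))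
    have o1 : Obj (trg H) (dS S) K _ := ⟨a1, a16_res_tor hT U fun i j k _ b c => .inr (lt j k b c)⟩
    have o2 : Obj (trg H) (dS S) K _ := ⟨a2, a16_res_tor hT (fun j => ¬U j)
      fun i j k a b _ => .inl (lt i j a (not_not.1 b))⟩
    have key : ∀ {φ : A × A →+ A}, Sf (trg H) H (dS S) S φ Prod.fst →
        E.cls (T.smap φ Prod.fst) = E.cls ((T.res (Subtype.val : {j // U j} → T.J)).smap φ
          Prod.fst) + E.cls ((T.res (Subtype.val : {j // ¬U j} → T.J)).smap φ Prod.fst) := by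
      intro φ hφ
      have := (a4.sf hφ hT.ok (a1.ext a2 a3)).symm
      rw [smap_ext] at this
      exact E.he_ext hH (o1.sf hφ) (o2.sf hφ) (hT.sf hφ) (Wd.univ _) (Wd.univ _) (Wd.univ _)
        (a3.sf hφ a1 a2) this
    rw [key sf_fst_trg, key sf_snd_trg, one _ a1 fun i j => i.2.trans j.2.symm,
      ih _ ?_ o2 rfl]
    rw [← hn]
    exact Fintype.card_subtype_lt (x := m) (fun h => h rfl)

/-- Two twisting maps give a twisting map of pairs. -/
theorem tw_trg {X Y : Cx (A × A) (Λ × ℤ)} (h : ∀ i j, (X.t i).1.2 < (Y.t j).1.2)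
    {t₁ t₂ : Matrix X.J Y.J A}
    (h1 : Tw H (X.smap (AddMonoidHom.fst A A) Prod.fst) (Y.smap (AddMonoidHom.fst A A) Prod.fst) t₁)
    (h2 : Tw H (X.smap (AddMonoidHom.snd A A) Prod.fst) (Y.smap (AddMonoidHom.snd A A) Prod.fst) t₂) :
    Tw (trg H) X Y (Matrix.of fun i j => (t₁ i j, t₂ i j)) := by
  have k : ∀ {M N : Matrix X.J Y.J (A × A)}, M.map (RingHom.fst A A) = N.map (RingHom.fst A A) →
      M.map (RingHom.snd A A) = N.map (RingHom.snd A A) → M = N := fun a b =>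
    Matrix.ext fun i j => Prod.ext (congrFun (congrFun a i) j) (congrFun (congrFun b i) j)
  refine ⟨⟨fun i j => ⟨⟨(h1.hm i j).1, (h2.hm i j).1, fun e => absurd e (h i j).ne,
    fun e => absurd e (h i j).not_gt⟩, fun e => ?_⟩, k ?_ ?_, k ?_ ?_⟩, k ?_ ?_⟩
  · by_cases e1 : t₁ i j = 0
    · exact (h2.hm i j).2 fun e2 => e (Prod.ext e1 e2)
    · exact (h1.hm i j).2 e1
  · rw [Matrix.map_mul]; exact h1.pl
  · rw [Matrix.map_mul]; exact h2.pl
  · rw [Matrix.map_mul]; exact h1.pr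
  · rw [Matrix.map_mul]; exact h2.pr
  · rw [Matrix.map_add _ (map_add _), Matrix.map_mul, Matrix.map_mul]; exact h1.cm
  · rw [Matrix.map_add _ (map_add _), Matrix.map_mul, Matrix.map_mul]; exact h2.cm

end Pool.Agent.MP_f7db47_al.KN

end

section

/-!
Excision for the double along an ideal.
-/

namespace Pool.Agent.MP_f7db47_al.KN

open Matrix

universe v w

variable {A : Type v} [Ring A] {Λ ι : Type} {H H' I I' : Fam A Λ} {S : ι → Submonoid A}
  {K K' : Finset ι} {W : Set ℤ} {X X' Y Y' Z : Cx A Λ} {w w' : A}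

theorem a16_fin (hH : Good H S) (hI : Good I S) (hid : Idl I H) {M : Type w} [AddCommGroup M]
    (E : KS I S K Set.univ M) {T₁ T₂ Q C₁ C₂ : Cx A Λ} {τ₁ : Matrix T₁.J Q.J A}
    {τ₂ : Matrix T₂.J Q.J A} (o1 : Obj I S K T₁) (o2 : Obj I S K T₂) (hQ : Ok H Q)
    (t1 : Tw H T₁ Q τ₁) (t2 : Tw H T₂ Q τ₂) (e1 : HE H (T₁.ext Q τ₁) C₁)
    (e2 : HE H (T₂.ext Q τ₂) C₂) (n1 : Nul H 1 C₁) (hY : Obj I S K Y) (e3 : HE H C₂ Y) :
    E.cls Y = E.cls T₂ - E.cls T₁ := by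
  have a1 := o1.ok.mono hid.le
  have a2 := o2.ok.mono hid.le
  have e4 := he_of_ext_nul hH.mul a1 hQ t1 (n1.he hH.mul Sc.one e1.symm)
  obtain ⟨t, b1, b2⟩ := ext_congr hH.mul a2 a2 hQ (a1.sh 1) (HE.refl a2) e4.symm t2
  have b3 : Tw I T₂ (T₁.sh 1) t := ⟨b1.toMp.idl_left hid o2.ok.hp, b1.cm⟩
  have e5 := (b2.symm.trans hH.mul (e2.trans hH.mul e3)).idl hH.mul hid
    (o2.ok.ext (o1.ok.sh 1) b3) hY.ok
  rw [E.he_ext hI o2 (o1.sh 1) hY (Wd.univ _) (Wd.univ _) (Wd.univ _) b3 e5,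
    E.sh hI o1 (Wd.univ _) (Wd.univ _), sub_eq_add_neg]

theorem sf_swap : Sf (trg (dbl H I)) (dbl (trg H) (trg I)) (dS (dS S)) (dS (dS S))
    (AddEquiv.prodProdProdComm A A A A).toAddMonoidHom id := by
  refine ⟨?_, fun _ _ _ _ _ _ _ => rfl, ?_⟩
  · rintro a b ⟨⟨x, y⟩, z, u⟩ ⟨h1, h2, h3, h4⟩
    refine ⟨⟨h1.1, h2.1, fun e => congrArg Prod.fst (h3 e), fun e => ?_⟩,
      ⟨h1.2.1, h2.2.1, fun e => congrArg Prod.snd (h3 e), fun e => ?_⟩,
      ⟨h1.2.2, h2.2.2, fun e => congrArg (fun p : A × A => p.2 - p.1) (h3 e), fun e => ?_⟩⟩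
    all_goals
      have := h4 e
      simp only [Prod.mk_eq_zero] at this
      obtain ⟨⟨rfl, rfl⟩, rfl, rfl⟩ := this
      simp
  · rintro a _ ⟨_, ⟨w, hw, rfl⟩, rfl⟩
    exact ⟨((w, w), w, w), ⟨(w, w), ⟨w, hw, rfl⟩, rfl⟩, fun _ _ _ _ => rfl⟩

/-- Two iterated extensions with the same three pieces form an object over the pairs. -/
theorem a16_pair (hH : Good H S) {P Q B : Cx A Λ} (hP : Obj H S K P) (hQ : Obj H S K Q)
    (hB : Obj H S K B) (p1 : P.p = 1) (q1 : Q.p = 1) (b1 : B.p = 1) {u u' : Matrix P.J Q.J A}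
    (hu : Tw H P Q u) (hu' : Tw H P Q u') {g g' : Matrix (P.J ⊕ Q.J) B.J A}
    (hg : Tw H (P.ext Q u) B g) (hg' : Tw H (P.ext Q u') B g') :
    ∃ C : Cx (A × A) (Λ × ℤ), Obj (trg H) (dS S) K C ∧ C.p = 1 ∧
      C.smap (AddMonoidHom.fst A A) Prod.fst = (P.ext Q u).ext B g ∧
      C.smap (AddMonoidHom.snd A A) Prod.fst = (P.ext Q u').ext B g' := by
  let δ := (AddMonoidHom.id A).prod (AddMonoidHom.id A)
  have t1 : Tw (trg H) (P.smap δ fun a => (a, (0 : ℤ))) (Q.smap δ fun a => (a, (1 : ℤ)))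
      (Matrix.of fun i j => (u i j, u' i j)) := tw_trg (fun _ _ => zero_lt_one) hu hu'
  have o1 := Obj.ext (trg_good hH) t1 (hP.sf (sf_diag_trg 0)) (hQ.sf (sf_diag_trg 1))
  have tr : ∀ (X : Cx A Λ) (s : X.J → Λ × ℤ) (p D : Matrix X.J X.J A), s = X.t → p = X.p →
      D = X.D → ∀ {t : Matrix X.J B.J A}, Tw H X B t →
      Tw H ⟨X.J, s, p, D⟩ B t ∧ (Cx.mk X.J s p D).ext B t = X.ext B t := by
    rintro X _ _ _ rfl rfl rfl t h
    exact ⟨h, rfl⟩
  set R := (P.smap δ fun a => (a, (0 : ℤ))).ext (Q.smap δ fun a => (a, (1 : ℤ)))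
    (Matrix.of fun i j => (u i j, u' i j))
  have f1 := tr (P.ext Q u) (R.smap (AddMonoidHom.fst A A) Prod.fst).t
    (R.smap (AddMonoidHom.fst A A) Prod.fst).p (R.smap (AddMonoidHom.fst A A) Prod.fst).D
    (by funext j; rcases j with j | j <;> rfl) (by ext (i | i) (j | j) <;> rfl)
    (by ext (i | i) (j | j) <;> rfl) hg
  have f2 := tr (P.ext Q u') (R.smap (AddMonoidHom.snd A A) Prod.fst).t
    (R.smap (AddMonoidHom.snd A A) Prod.fst).p (R.smap (AddMonoidHom.snd A A) Prod.fst).D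
    (by funext j; rcases j with j | j <;> rfl) (by ext (i | i) (j | j) <;> rfl)
    (by ext (i | i) (j | j) <;> rfl) hg'
  have t2 : Tw (trg H) R (B.smap δ fun a => (a, (2 : ℤ))) (Matrix.of fun i j => (g i j, g' i j)) :=
    tw_trg (by rintro (i | i) j; exacts [zero_lt_two, one_lt_two]) f1.1 f2.1
  refine ⟨_, Obj.ext (trg_good hH) t2 o1 (hB.sf (sf_diag_trg 2)), ?_,
    (smap_ext _).trans f1.2, (smap_ext _).trans f2.2⟩
  have k : ∀ (J : Type) [DecidableEq J], (1 : Matrix J J A).map δ = 1 := fun J _ =>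
    Matrix.map_one _ rfl rfl
  change fromBlocks (fromBlocks (P.p.map δ) 0 0 (Q.p.map δ)) 0 0 (B.p.map δ) = 1
  simp only [p1, q1, b1, k, fromBlocks_one]

theorem exc (hH : Good H S) (hI : Good I S) (hid : Idl I H) (hu : LU I)
    (hstd : Stdz (dbl H I) fun Y => Y.p = 1)
    (hP : NullAll (dbl H I) (dS S) K) : NullAll I S K := by
  intro X hX
  have hG := dbl_good hH hI hid
  have oX := hX.sf (sf_inr_dbl (S := S) hid)
  obtain ⟨P₀, Q₀, B₀, t, t', c, e, e'⟩ := hP _ oX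
  obtain ⟨P, p1, p2, p3⟩ := hstd P₀ c.oP.ok
  obtain ⟨Q, q1, q2, q3⟩ := hstd Q₀ c.oQ.ok
  obtain ⟨B, b1, b2, b3⟩ := hstd B₀ c.oB.ok
  obtain ⟨u, u1, u2⟩ := ext_congr hG.mul c.oP.ok p1 c.oQ.ok q1 p3 q3 c.ht
  obtain ⟨u', v1, v2⟩ := ext_congr hG.mul c.oP.ok p1 c.oQ.ok q1 p3 q3 c.ht'
  obtain ⟨g, g1, g2⟩ := cone_sum hG.mul oX.ok b1 (p1.ext q1 u1)
    (u2.symm.trans hG.mul (e.trans hG.mul (b3.sum_right oX.ok)))
  obtain ⟨g', _, _, _, d⟩ := (v2.symm.trans hG.mul (e'.trans hG.mul b3)).symm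
  have n' := cone_nul hG.mul b1 (p1.ext q1 v1) d
  have k1 := (p1.ext q1 u1).cone b1 g1
  have k2 := (p1.ext q1 v1).cone b1 d.hf
  obtain ⟨C, oC, pC, c1, c2⟩ := a16_pair hG (c.oP.he hG p1 p3) (c.oQ.he hG q1 q3)
    ((c.oB.he hG b1 b3).sh 1) p2 q2 b2 u1 v1 g1.tw d.hf.tw
  obtain ⟨T₁, T₂, R, τ₁, τ₂, o1, o2, oR, t1, t2, h1, h2⟩ := exc_core (trg_good hH) (trg_good hI)
    (trg_idl hid) (trg_lu hu) (oC.sf sf_swap) (by
      simp only [pC]; exact Matrix.map_one _ rfl rfl)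
  obtain ⟨M, _, ⟨E⟩⟩ := exists_KS hI K Set.univ
  have side : ∀ {φ : A × A →+ A}, Sf (trg H) H (dS S) S φ Prod.fst →
      Sf (trg I) I (dS S) S φ Prod.fst → ∀ Y, Obj I S K Y →
      Nul H 1 (((C.smap (AddEquiv.prodProdProdComm A A A A).toAddMonoidHom id).smap
        (AddMonoidHom.fst _ _) id).smap φ Prod.fst) →
      HE H (((C.smap (AddEquiv.prodProdProdComm A A A A).toAddMonoidHom id).smap
        (AddMonoidHom.snd _ _) id).smap φ Prod.fst) Y →
      E.cls Y = E.cls (T₂.smap φ Prod.fst) - E.cls (T₁.smap φ Prod.fst) := by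
    intro φ f1 f2 Y hY n e
    have a1 := o1.ok.mono (trg_idl hid).le
    have a2 := o2.ok.mono (trg_idl hid).le
    have oS := (oC.sf sf_swap).ok
    have x1 := h1.sf f1 (a1.ext oR.ok t1) (oS.sf (sf_fst_dbl (S := dS S)))
    have x2 := h2.sf f1 (a2.ext oR.ok t2) (oS.sf (sf_snd_dbl (S := dS S)))
    rw [smap_ext] at x1 x2
    exact a16_fin hH hI hid E (o1.sf f2) (o2.sf f2) (oR.ok.sf f1) (t1.sf f1 a1 oR.ok)
      (t2.sf f1 a2 oR.ok) x1 x2 n hY e
  have s1 := side sf_fst_trg sf_fst_trg X hX (by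
    change Nul H 1 ((C.smap (AddMonoidHom.fst _ _) Prod.fst).smap (AddMonoidHom.fst A A) id)
    rw [c1]
    refine Nul.he hH.mul Sc.one ⟨0, Hm.zero _ _, ?_⟩
      (g2.sf (sf_fst_dbl (S := S)) k1 oX.ok).symm
    ext i j
    simp) (by
    change HE H ((C.smap (AddMonoidHom.fst _ _) Prod.fst).smap (AddMonoidHom.snd A A) id) X
    rw [c1]
    exact g2.sf (sf_snd_dbl (S := S)) k1 oX.ok)
  have s2 := side sf_snd_trg sf_snd_trg _ Obj.zero (by
    change Nul H 1 ((C.smap (AddMonoidHom.snd _ _) Prod.fst).smap (AddMonoidHom.fst A A) id)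
    rw [c2]
    exact n'.sf_one (sf_fst_dbl (S := S)) k2) (by
    change HE H ((C.smap (AddMonoidHom.snd _ _) Prod.fst).smap (AddMonoidHom.snd A A) id) _
    rw [c2]
    exact (n'.sf_one (sf_snd_dbl (S := S)) k2).he_zero)
  rw [← trg_cls hI E o1, ← trg_cls hI E o2, ← s1, E.nul Ok.zero (Wd.univ _) (Nul.zero _)] at s2
  exact (E.zero_iff hX (Wd.univ _)).1 s2.symm

end Pool.Agent.MP_f7db47_al.KN

end

section

/-!
Covers of the bottom degree.
-/

namespace Pool.Agent.MP_f7db47_al.KN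

open Matrix

universe v w

variable {A : Type v} [Ring A] {Λ ι : Type} {H H' I I' : Fam A Λ} {S : ι → Submonoid A}
  {K K' : Finset ι} {W : Set ℤ} {X X' Y Y' Z : Cx A Λ} {w w' : A}

/-- `κ : P → X` is a cover and `X₀` is its cone with the degree `a` removed. -/
structure Cov (H : Fam A Λ) (S : ι → Submonoid A) (K : Finset ι) (a b : ℤ) (X P X₀ : Cx A Λ)
    (κ : Matrix X.J P.J A) : Prop where
  oP : Obj H S K P
  wP : Wd (Set.Icc (a + 1) b) (P.sh 1)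
  ch : Ch H X P κ
  o0 : Obj H S K X₀
  w0 : Wd (Set.Icc (a + 1) b) X₀
  he : HE H (X.cone P κ) X₀

variable {a b : ℤ}

/-- The part of degree `a`, with zero differential. -/
@[reducible] def a15a_bot (X : Cx A Λ) (a : ℤ) : Cx A Λ where
  J := {j : X.J // (X.t j).2 = a}
  t j := X.t j.1
  p := X.p.submatrix Subtype.val Subtype.val
  D := 0

theorem a15a_mul (hX : Ok H X) (a : ℤ) (i j : X.J) (hj : (X.t j).2 = a) :
    ∑ k : {j : X.J // (X.t j).2 = a}, X.p i k.1 * X.p k.1 j = X.p i j := by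
  conv_rhs => rw [← hX.pp, Matrix.mul_apply]
  refine Fintype.sum_of_injective Subtype.val Subtype.val_injective _ _ (fun k hk => ?_)
    fun _ => rfl
  by_contra h0
  have := (hX.hp k j).2 (right_ne_zero_of_mul h0)
  exact hk ⟨⟨k, by omega⟩, rfl⟩

theorem a15a_ok (hX : Ok H X) (a : ℤ) : Ok H (a15a_bot X a) where
  hp := hX.hp.submatrix _ _
  hD := Hm.zero _ _
  pp := by
    ext i j
    exact a15a_mul hX a i.1 j.1 j.2
  pD := Matrix.mul_zero _
  Dp := Matrix.zero_mul _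
  DD := Matrix.zero_mul _

theorem a15a_ch (hX : Ok H X) (hW : Wd (Set.Icc a b) X) :
    Ch H X (a15a_bot X a) (X.p.submatrix id Subtype.val) where
  hm := hX.hp.submatrix id Subtype.val
  pl := by
    ext i j
    conv_rhs => rw [← hX.pp]
    rfl
  pr := by
    ext i j
    exact a15a_mul hX a i j.1 j.2
  cm := by
    ext i j
    have h1 : (X.D * X.p.submatrix id (Subtype.val : {j : X.J // (X.t j).2 = a} → X.J)) i j =
        X.D i j.1 := by
      conv_rhs => rw [← hX.Dp]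
      rfl
    rw [h1, Matrix.mul_zero, Matrix.zero_apply]
    by_contra h0
    have h2 := (hX.hD i j.1).2 h0
    have h3 := (hW i).1
    have h4 := j.2
    omega

theorem exists_cov (hH : Good H S) (hab : a + K.card + 1 ≤ b) (hX : Obj H S K X)
    (hW : Wd (Set.Icc a b) X) : ∃ P X₀ κ, Cov H S K a b X P X₀ κ := by
  obtain ⟨P, κ, i, hP, hκ, hi, hf, hw⟩ :=
    kos hH hH le_rfl K (a15a_ok hX.ok a) hX (a15a_ch hX.ok hW)
  have wP : Wd (Set.Icc a (a + K.card)) P := hw a a fun j => ⟨j.2.ge, j.2.le⟩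
  have wP' : Wd (Set.Icc (a + 1) b) (P.sh 1) := fun j => by
    have h1 := (wP j).1
    have h2 := (wP j).2
    constructor <;> simp only <;> omega
  have oC : Obj H S K (X.cone P κ) := Obj.ext hH hκ.tw hX (hP.sh 1)
  have wC : Wd (Set.Icc a b) (X.cone P κ) :=
    hW.ext (wP'.mono (Set.Icc_subset_Icc (by omega) le_rfl)) _
  let g : Matrix (a15a_bot X a).J X.J A := X.p.submatrix Subtype.val id
  have hg : Hm H 0 (a15a_bot X a).t X.t g := hX.ok.hp.submatrix Subtype.val id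
  have hs : Hm H 1 (X.cone P κ).t (X.cone P κ).t (fromBlocks 0 0 (i * g) 0) :=
    Hm.blocks (Hm.zero _ _) (Hm.zero _ _)
      ((hi.hm.mul hH.mul hg (e := 0) (by omega)).shift_left 1 (by omega)) (Hm.zero _ _)
  have hD : P.D * (i * g) = 0 := by
    rw [← Matrix.mul_assoc, hi.cm]
    simp
  obtain ⟨Y, hY, wY, e⟩ := cancel_bot hH.mul oC.ok wC hs (by
    ext x y
    rw [mul_ind_apply, mul_ind_apply]
    split_ifs with hy
    · rcases y with y | y
      · rcases x with x | x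
        · simp only [fromBlocks_multiply, Matrix.mul_zero, zero_add, fromBlocks_apply₁₁]
          rw [← Matrix.mul_assoc, hf]
          exact a15a_mul hX.ok a x y hy
        · simp [fromBlocks_multiply, hD]
      · have h1 := (wP' y).1
        have h2 : ((P.sh 1).t y).2 = a := hy
        omega
    · rfl)
  exact ⟨P, Y, κ, hP, wP', hκ, oC.he hH hY e, wY, e⟩

theorem a15a_tw {u : Matrix X.J Z.J A} (hu : Tw H X Z u) (t : Matrix X.J Y.J A) :
    Tw H (X.ext Y t) Z (fromRows u 0) where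
  hm := Hm.rows hu.hm (Hm.zero _ _)
  pl := by simp [fromBlocks_mul_fromRows, hu.pl]
  pr := by simp [fromRows_mul, hu.pr]
  cm := by
    have := hu.cm
    ext (i | i) j
    · simpa [fromBlocks_mul_fromRows, fromRows_mul] using congrFun (congrFun this i) j
    · simp [fromBlocks_mul_fromRows, fromRows_mul]

theorem a15a_swap (t : Matrix X.J Y.J A) (u : Matrix X.J Z.J A) :
    Sub ((X.ext Y t).ext Z (fromRows u 0)) ((X.ext Z u).ext Y (fromRows t 0)) := by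
  refine (Sub.of_equiv (X' := (X.ext Y t).ext Z (fromRows u 0))
    (X := (X.ext Z u).ext Y (fromRows t 0))
    ((Equiv.sumAssoc _ _ _).trans (((Equiv.refl _).sumCongr (Equiv.sumComm _ _)).trans
      (Equiv.sumAssoc _ _ _).symm)) ?_ ?_ ?_).1
  · rintro ((i | i) | i) <;> rfl
  · ext ((i | i) | i) ((j | j) | j) <;> rfl
  · ext ((i | i) | i) ((j | j) | j) <;> rfl

/-- The lemma of Schanuel. -/
theorem Cov.schanuel (hH : Good H S) {M : Type w} [AddCommGroup M]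
    (E : KS H S K (Set.Icc (a + 1) b) M) (hX : Ok H X) (hY : Ok H Y) (e : HE H X Y)
    {P Q X₀ Y₀ : Cx A Λ} {κ : Matrix X.J P.J A} {κ' : Matrix Y.J Q.J A}
    (h : Cov H S K a b X P X₀ κ) (h' : Cov H S K a b Y Q Y₀ κ') :
    E.cls X₀ + E.cls (Q.sh 1) = E.cls Y₀ + E.cls (P.sh 1) := by
  obtain ⟨f, g, s, k, e⟩ := e
  have oP := h.oP.sh 1
  have oQ := h'.oP.sh 1
  have t1 : Tw H Y (P.sh 1) (f * κ) := Tw.comp_left hH.mul e.hf h.ch.tw
  have t2 : Tw H Y (Q.sh 1) κ' := h'.ch.tw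
  have e1 : HE H (Y.ext (P.sh 1) (f * κ)) X₀ :=
    (ext_congr_left hH.mul hX hY oP.ok e h.ch.tw).symm.trans hH.mul h.he
  obtain ⟨u, hu, e2⟩ := ext_congr hH.mul (hY.ext oP.ok t1) h.o0.ok oQ.ok oQ.ok e1 (HE.refl oQ.ok)
    (a15a_tw (Y := P.sh 1) t2 (f * κ))
  obtain ⟨u', hu', e3⟩ := ext_congr hH.mul (hY.ext oQ.ok t2) h'.o0.ok oP.ok oP.ok h'.he
    (HE.refl oP.ok) (a15a_tw (Y := Q.sh 1) t1 κ')
  have e4 : HE H (X₀.ext (Q.sh 1) u) (Y₀.ext (P.sh 1) u') :=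
    e2.symm.trans hH.mul ((a15a_swap (Y := P.sh 1) (Z := Q.sh 1) (f * κ) κ').he_left.2 e3)
  rw [← E.ext h.o0 oQ h.w0 h'.wP hu, ← E.ext h'.o0 oP h'.w0 h.wP hu']
  exact E.he (Obj.ext hH hu h.o0 oQ) (Obj.ext hH hu' h'.o0 oP) (h.w0.ext h'.wP _)
    (h'.w0.ext h.wP _) e4

theorem Cov.sum (hH : Good H S) (hX : Obj H S K X) (hW : Wd (Set.Icc (a + 1) b) X) (hY : Ok H Y)
    {Q Y₀ : Cx A Λ} {κ : Matrix Y.J Q.J A} (h : Cov H S K a b Y Q Y₀ κ) :
    Cov H S K a b (X.sum Y) Q (X.sum Y₀) (fromRows 0 κ) where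
  oP := h.oP
  wP := h.wP
  ch :=
    { hm := Hm.rows (Hm.zero _ _) h.ch.hm
      pl := by simp [fromBlocks_mul_fromRows, h.ch.pl]
      pr := by simp [fromRows_mul, h.ch.pr]
      cm := by simp [fromBlocks_mul_fromRows, fromRows_mul, h.ch.cm] }
  o0 := Obj.sum hH hX h.o0
  w0 := hW.ext h.w0 _
  he := by
    have h1 := (sub_ext_assoc (X := X) (Y := Y) (Z := Q.sh 1) 0 0 κ).1
    rw [fromCols_zero] at h1
    exact h1.he_left.2 (h.he.sum_right hX.ok)

end Pool.Agent.MP_f7db47_al.KN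

end

section

/-!
The horseshoe lemma for covers.
-/

namespace Pool.Agent.MP_f7db47_al.KN

open Matrix

universe v w

variable {A : Type v} [Ring A] {Λ ι : Type} {H H' I I' : Fam A Λ} {S : ι → Submonoid A}
  {K K' : Finset ι} {W : Set ℤ} {X X' Y Y' Z : Cx A Λ} {w w' : A}

theorem a15b_low {a b : ℤ} (wX : Wd (Set.Icc a b) X) {J : Type} {u : J → Λ × ℤ}
    (hu : ∀ j, (u j).2 = a) {M : Matrix X.J J A} (h : Hm H (-1) X.t u M) : M = 0 := by
  ext i j
  by_contra e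
  have h1 := (h i j).2 e
  have h2 := (wX i).1
  have h3 := hu j
  omega

theorem a15b_sub (hY : Ok H Y) (a : ℤ) (i j : Y.J) (hj : (Y.t j).2 = a) :
    ∑ k : {j // (Y.t j).2 = a}, Y.p i k * Y.p k j = Y.p i j := by
  rw [← Finset.sum_subtype (Finset.univ.filter fun j => (Y.t j).2 = a) (by simp)
    fun k => Y.p i k * Y.p k j, Finset.sum_filter_of_ne, ← Matrix.mul_apply, hY.pp]
  intro k _ e
  have := (hY.hp k j).2 (right_ne_zero_of_mul e)
  omega

theorem a15b_bot (hH : Good H S) {a b : ℤ} (hab : a + K.card + 1 ≤ b) (hX : Obj H S K X)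
    (hY : Obj H S K Y) (wX : Wd (Set.Icc a b) X) (wY : Wd (Set.Icc a b) Y)
    {t t' : Matrix X.J Y.J A} (ht : Tw H X Y t) (ht' : Tw H X Y t') :
    ∃ (Q Y₀ : Cx A Λ) (c c' : Matrix X.J Q.J A) (g : Matrix Y.J Q.J A),
      Ch H (X.ext Y t) Q (fromRows c g) ∧ Ch H (X.ext Y t') Q (fromRows c' g) ∧
      Cov H S K a b Y Q Y₀ g := by
  let P : Cx A Λ := (Y.re Y.p 0).res (Subtype.val : {j // (Y.t j).2 = a} → Y.J)
  let f : Matrix Y.J P.J A := Y.p.submatrix id Subtype.val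
  have hf : Hm H 0 Y.t P.t f := hY.ok.hp.submatrix id Subtype.val
  have PD : P.D = 0 := rfl
  have hP : Ok H P := ⟨hY.ok.hp.submatrix _ _, Hm.zero _ _,
    Matrix.ext fun i j => a15b_sub hY.ok a i j j.2, Matrix.mul_zero _, Matrix.zero_mul _,
    Matrix.mul_zero _⟩
  have pf : Y.p * f = f := Matrix.ext fun i j => congrFun₂ hY.ok.pp i j
  have fp : f * P.p = f := Matrix.ext fun i j => a15b_sub hY.ok a i j j.2
  have Df : Y.D * f = 0 := a15b_low wY (fun j => j.2) (hY.ok.hD.mul hH.mul hf rfl)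
  have ch : ∀ {s : Matrix X.J Y.J A}, Tw H X Y s → Ch H (X.ext Y s) P (fromRows 0 f) := by
    intro s hs
    have sf : s * f = 0 := a15b_low wX (fun j => j.2) (hs.hm.mul hH.mul hf rfl)
    exact ⟨⟨(Hm.zero _ _).rows hf, by simp [fromBlocks_mul_fromRows, pf],
      by simp [fromRows_mul, fp]⟩, by simp [fromBlocks_mul_fromRows, PD, sf, Df]⟩
  obtain ⟨Q, c, c', g, i, oQ, h1, h2, hi, gi, wQ⟩ :=
    kos2 hH K hP hX hY ht ht' (ch ht) (ch ht')
  have wQ1 : Wd (Set.Icc (a + 1) b) (Q.sh 1) := fun j => by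
    have := wQ a a (fun j => ⟨j.2.ge, j.2.le⟩) j
    exact ⟨by have := this.1; simp only; omega, by have := this.2; simp only; omega⟩
  have tg : Tw H Y (Q.sh 1) g := (tw_rows ht h1.tw).1
  have oC : Obj H S K (Y.cone Q g) := hY.ext hH tg (oQ.sh 1)
  let r : Matrix P.J Y.J A := Y.p.submatrix Subtype.val id
  have hr : Hm H 0 P.t Y.t r := hY.ok.hp.submatrix Subtype.val id
  have Di : Q.D * i = 0 := by rw [hi.cm, PD, Matrix.mul_zero]
  obtain ⟨Y₀, o0, w0, e0⟩ := cancel_bot hH.mul oC.ok (a := a) (b := b)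
    (wY.ext (wQ1.mono (Set.Icc_subset_Icc_left (by omega))) g)
    (s := fromBlocks 0 0 (i * r) 0) (Hm.blocks (Hm.zero _ _) (Hm.zero _ _)
      ((hi.hm.mul hH.mul hr rfl).shift_left 1 rfl) (Hm.zero _ _)) (by
      have e : (Y.cone Q g).D * fromBlocks 0 0 (i * r) (0 : Matrix Q.J Q.J A) =
          fromBlocks (f * r) 0 0 0 := by
        simp [fromBlocks_multiply, ← Matrix.mul_assoc, gi, Di]
      rw [e]
      ext k j
      rw [mul_ind_apply, mul_ind_apply]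
      split_ifs with hj
      · rcases j with j | j
        · rcases k with k | k
          · exact a15b_sub hY.ok a k j hj
          · rfl
        · have h3 := (wQ1 j).1
          have h4 : ((Q.sh 1).t j).2 = a := hj
          omega
      · rfl)
  refine ⟨Q, Y₀, c, c', g, h1, h2, oQ, wQ1, ⟨⟨fun k j => h1.hm (.inr k) j, tg.pl, tg.pr⟩, ?_⟩,
    oC.he hH o0 e0, w0, e0⟩
  simpa [add_neg_eq_zero] using tg.cm

theorem a15b_cov (hH : Good H S) {a b : ℤ} (hX : Obj H S K X) (hY : Obj H S K Y)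
    {t : Matrix X.J Y.J A} (ht : Tw H X Y t) {P Q X₀ Y₀ : Cx A Λ} {κ : Matrix X.J P.J A}
    {c : Matrix X.J Q.J A} {g : Matrix Y.J Q.J A} (h : Cov H S K a b X P X₀ κ)
    (h' : Cov H S K a b Y Q Y₀ g) (hc : Ch H (X.ext Y t) Q (fromRows c g)) :
    ∃ τ, Tw H X₀ Y₀ τ ∧
      Cov H S K a b (X.ext Y t) (P.sum Q) (X₀.ext Y₀ τ) (fromBlocks κ c 0 g) := by
  have u := (tw_rows ht hc.tw).2
  have T : Tw H (X.cone P κ) (Y.cone Q g) (fromRows (fromCols t c) 0) :=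
    ⟨⟨u.hm.rows (Hm.zero _ _), by simp [fromBlocks_mul_fromRows, u.pl],
      by rw [fromRows_mul, u.pr, Matrix.zero_mul]⟩, by
      rw [fromRows_mul, Matrix.zero_mul, fromBlocks_mul_fromRows]
      ext (i | i) j
      · simpa using congrFun₂ u.cm i j
      · simp⟩
  obtain ⟨τ, hτ, e⟩ := ext_congr hH.mul (hX.ok.cone h.oP.ok h.ch) h.o0.ok
    (hY.ok.cone h'.oP.ok h'.ch) h'.o0.ok h.he h'.he T
  refine ⟨τ, hτ, h.oP.sum hH h'.oP, ?_, ?_, h.o0.ext hH hτ h'.o0, h.w0.ext h'.w0 τ, ?_⟩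
  · rintro (j | j)
    exacts [h.wP j, h'.wP j]
  · have c1 := hc.pl
    have c2 := hc.pr
    have c3 := hc.cm
    simp only [fromBlocks_mul_fromRows, fromRows_mul, fromRows_ext_iff, Matrix.zero_mul, add_zero,
      zero_add] at c1 c2 c3
    exact ⟨⟨Hm.blocks h.ch.hm (fun i j => hc.hm (.inl i) j) (Hm.zero _ _) h'.ch.hm,
      by simp [fromBlocks_multiply, h.ch.pl, c1.1, c1.2],
      by simp [fromBlocks_multiply, h.ch.pr, c2.1, c2.2]⟩,
      by simp [fromBlocks_multiply, h.ch.cm, c3.1, c3.2]⟩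
  · refine (Sub.of_equiv (Equiv.sumSumSumComm _ _ _ _) ?_ ?_ ?_).1.he_left.2 e
    · rintro ((i | i) | (i | i)) <;> rfl
    · ext ((i | i) | (i | i)) ((j | j) | (j | j)) <;> rfl
    · ext ((i | i) | (i | i)) ((j | j) | (j | j)) <;> first | rfl | exact neg_zero

theorem horseshoe (hH : Good H S) {a b : ℤ} (hab : a + K.card + 1 ≤ b) (hX : Obj H S K X)
    (hY : Obj H S K Y) (wX : Wd (Set.Icc a b) X) (wY : Wd (Set.Icc a b) Y)
    {t t' : Matrix X.J Y.J A} (ht : Tw H X Y t) (ht' : Tw H X Y t') :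
    ∃ (P X₀ Y₀ : Cx A Λ) (τ τ' : Matrix X₀.J Y₀.J A) (κ κ' : Matrix (X.J ⊕ Y.J) P.J A),
      Obj H S K X₀ ∧ Obj H S K Y₀ ∧ Wd (Set.Icc (a + 1) b) X₀ ∧ Wd (Set.Icc (a + 1) b) Y₀ ∧
      Tw H X₀ Y₀ τ ∧ Tw H X₀ Y₀ τ' ∧ Cov H S K a b (X.ext Y t) P (X₀.ext Y₀ τ) κ ∧
      Cov H S K a b (X.ext Y t') P (X₀.ext Y₀ τ') κ' := by
  obtain ⟨P, X₀, κ, h⟩ := exists_cov hH hab hX wX
  obtain ⟨Q, Y₀, c, c', g, h1, h2, h'⟩ := a15b_bot hH hab hX hY wX wY ht ht'
  obtain ⟨τ, k1, k2⟩ := a15b_cov hH hX hY ht h h' h1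
  obtain ⟨τ', k3, k4⟩ := a15b_cov hH hX hY ht' h h' h2
  exact ⟨P.sum Q, X₀, Y₀, τ, τ', _, _, h.o0, h'.o0, h.w0, h'.w0, k1, k3, k2, k4⟩

end Pool.Agent.MP_f7db47_al.KN

end

section

/-!
Certificates of bounded length.
-/

namespace Pool.Agent.MP_f7db47_al.KN

open Matrix

universe v w

variable {A : Type v} [Ring A] {Λ ι : Type} {H H' I I' : Fam A Λ} {S : ι → Submonoid A}
  {K K' : Finset ι} {W : Set ℤ} {X X' Y Y' Z : Cx A Λ} {w w' : A}

theorem window_bot (hH : Good H S) {a b : ℤ} (hab : a + K.card + 1 ≤ b) (hX : Obj H S K X)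
    (hW : Wd (Set.Icc (a + 1) b) X) (h : Cert H S K (Set.Icc a b) X) :
    Cert H S K (Set.Icc (a + 1) b) X := by
  obtain ⟨P, Q, B, t, t', d, e1, e2⟩ := h
  obtain ⟨R, P₀, Q₀, τ, τ', κ, κ', oP, oQ, wP, wQ, h1, h2, c1, c2⟩ :=
    horseshoe hH hab d.oP d.oQ d.wP d.wQ d.ht d.ht'
  obtain ⟨R', B₀, β, c⟩ := exists_cov hH hab d.oB d.wB
  obtain ⟨M, _, ⟨E⟩⟩ := exists_KS hH K (Set.Icc (a + 1) b)
  have s1 := Cov.schanuel hH E (d.oP.ok.ext d.oQ.ok d.ht) (hX.ok.sum d.oB.ok) e1 c1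
    (Cov.sum hH hX hW d.oB.ok c)
  have s2 := Cov.schanuel hH E (d.oP.ok.ext d.oQ.ok d.ht') d.oB.ok e2 c2 c
  rw [E.ext oP oQ wP wQ h1, E.sum hX c.o0 hW c.w0] at s1
  rw [E.ext oP oQ wP wQ h2, s1, add_left_inj, add_eq_right] at s2
  exact (E.zero_iff hX hW).1 s2

theorem window_top (hH : Good H S) {a b : ℤ} (hab : a + K.card + 1 ≤ b) (hX : Obj H S K X)
    (hW : Wd (Set.Icc a (b - 1)) X) (h : Cert H S K (Set.Icc a b) X) :
    Cert H S K (Set.Icc a (b - 1)) X := by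
  obtain ⟨G, S', τ, τ', hG, h1, h2, h3⟩ := exists_op hH
  have h4 := hW.op (τ := τ)
  rw [show -(b - 1) = -b + 1 by ring] at h4
  have h5 := (window_bot hG (by omega) (hX.op h1) h4 (h.op h1)).op h2
  rwa [op_op h3, neg_neg, show -(-b + 1) = b - 1 by ring] at h5

theorem a15_step (hH : Good H S) {L : ℕ} (hX : Obj H S K X) (hL : Bd L X) (m : ℕ)
    (h : Cert H S K (Set.Icc (-((L + K.card + 1 + m : ℕ) : ℤ)) ((L + K.card + 1 + m : ℕ) : ℤ)) X) :
    Cert H S K (Set.Icc (-((L + K.card + 1 : ℕ) : ℤ)) ((L + K.card + 1 : ℕ) : ℤ)) X := by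
  induction m with
  | zero => exact h
  | succ m ih =>
    have h1 := window_bot hH (by omega) hX (hL.mono (Set.Icc_subset_Icc (by omega) (by omega))) h
    have h2 := window_top hH (by omega) hX (hL.mono (Set.Icc_subset_Icc (by omega) (by omega))) h1
    exact ih (h2.mono le_rfl (Set.Icc_subset_Icc (by omega) (by omega)))

theorem window (hH : Good H S) {L : ℕ} (hX : Obj H S K X) (hL : Bd L X)
    (h : Cert H S K Set.univ X) :
    Cert H S K (Set.Icc (-((L + K.card + 1 : ℕ) : ℤ)) ((L + K.card + 1 : ℕ) : ℤ)) X := by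
  obtain ⟨P, Q, B, t, t', d, e1, e2⟩ := h
  obtain ⟨L1, h1⟩ := exists_bd P
  obtain ⟨L2, h2⟩ := exists_bd Q
  obtain ⟨L3, h3⟩ := exists_bd B
  exact a15_step hH hX hL (L1 + L2 + L3) ⟨P, Q, B, t, t', ⟨d.oP, d.oQ, d.oB,
    h1.mono (Set.Icc_subset_Icc (by omega) (by omega)),
    h2.mono (Set.Icc_subset_Icc (by omega) (by omega)),
    h3.mono (Set.Icc_subset_Icc (by omega) (by omega)), d.ht, d.ht'⟩, e1, e2⟩

end Pool.Agent.MP_f7db47_al.KN

end

section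

/-!
Complexes that are contractible modulo an ideal.
-/

namespace Pool.Agent.MP_f7db47_al.KN

open Matrix

universe v w

variable {A : Type v} [Ring A] {Λ ι : Type} {H H' I I' : Fam A Λ} {S : ι → Submonoid A}
  {K K' : Finset ι} {W : Set ℤ} {X X' Y Y' Z : Cx A Λ} {w w' : A}

theorem a12_comm {f : Matrix X.J X.J A} (hf : Hm H 0 X.t X.t f) (a : ℤ) :
    ind A {j | (X.t j).2 = a} * f = f * ind A {j | (X.t j).2 = a} := by
  ext i j
  rw [ind_mul_apply, mul_ind_apply]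
  by_cases h : f i j = 0
  · simp [h]
  · have := (hf i j).2 h
    by_cases h1 : (X.t j).2 = a <;> simp [this, h1]

theorem a12_bot (hX : Ok H X) {a b : ℤ} (hW : Wd (Set.Icc a b) X) :
    X.D * ind A {j | (X.t j).2 = a} = 0 := by
  ext i j
  rw [mul_ind_apply]
  split_ifs with h
  · by_contra h0
    have h1 := (hX.hD i j).2 h0
    have h2 := (hW i).1
    have h3 : (X.t j).2 = a := h
    omega
  · rfl

theorem a12_EF {J : Type} [Fintype J] [DecidableEq J] (U : J → Prop) [DecidablePred U]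
    {E : Matrix J {j // U j} A} {F : Matrix {j // U j} J A}
    (hE : E = (1 : Matrix J J A).submatrix id Subtype.val)
    (hF : F = (1 : Matrix J J A).submatrix Subtype.val id) : E * F = ind A {j | U j} := by
  subst hE hF
  ext i j
  rw [Matrix.mul_apply, ind, diagonal_apply]
  by_cases h : U i
  · rw [Finset.sum_eq_single ⟨i, h⟩]
    · simp [one_apply, h]
    · rintro ⟨k, hk⟩ _ hne
      have : i ≠ k := fun e => hne (Subtype.ext e.symm)
      simp [one_apply, this]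
    · simp
  · rw [Finset.sum_eq_zero]
    · simp [h]
    · rintro ⟨k, hk⟩ _
      have : i ≠ k := fun e => h (e ▸ hk)
      simp [one_apply, this]

theorem a12_E {J J' T : Type} [Fintype J] [DecidableEq J] (e : T → J) (M : Matrix J' J A) :
    M * (1 : Matrix J J A).submatrix id e = M.submatrix id e := by
  ext i j
  simp [Matrix.mul_apply, one_apply]

theorem a12_F {J J' T : Type} [Fintype J] [DecidableEq J] (e : T → J) (M : Matrix J J' A) :
    (1 : Matrix J J A).submatrix e id * M = M.submatrix e id := by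
  ext i j
  simp [Matrix.mul_apply, one_apply]

theorem a12_step (hH : LR H) (hI : Idl I H) (hu : LU I) (hX : Ok H X) (h : NulMod H I 1 X)
    {a b : ℤ} (hab : a + 1 ≤ b) (hW : Wd (Set.Icc a b) X) :
    ∃ (Y : Cx A Λ) (i : Matrix X.J Y.J A), Ok I Y ∧ Ch H X Y i ∧
      ∃ Z, Ok H Z ∧ Wd (Set.Icc (a + 1) b) Z ∧ HE H (X.cone Y i) Z := by
  classical
  obtain ⟨h, hh, hr⟩ := h
  rw [one_smul] at hr
  obtain ⟨u, hu1, uu, ur, -⟩ := hu.mat hr
  have hD := a12_bot hX hW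
  have cu := a12_comm hu1 a
  have cr := a12_comm hr a
  have hEF := a12_EF (A := A) (fun j => (X.t j).2 = a) rfl rfl
  have hqE : ind A {j | (X.t j).2 = a} * (1 : Matrix X.J X.J A).submatrix id
      (Subtype.val : {j // (X.t j).2 = a} → X.J) = (1 : Matrix X.J X.J A).submatrix id
        Subtype.val := by
    ext i j
    rw [ind_mul_apply]
    split_ifs with h1
    · rfl
    · have : i ≠ j.1 := fun e => h1 (e ▸ j.2)
      simp [one_apply, this]
  have qq : ind A {j | (X.t j).2 = a} * ind A {j | (X.t j).2 = a} = ind A {j | (X.t j).2 = a} := by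
    rw [ind_mul_ind, Set.inter_self]
  have m1 : Hm I 0 (fun j : {j // (X.t j).2 = a} => X.t j) (fun j : {j // (X.t j).2 = a} => X.t j)
      ((1 : Matrix X.J X.J A).submatrix Subtype.val id *
        (u * (1 : Matrix X.J X.J A).submatrix id Subtype.val)) := by
    rw [a12_E, a12_F]
    exact hu1.submatrix _ _
  have m2 : Hm H 0 X.t (fun j : {j // (X.t j).2 = a} => X.t j)
      (X.p * u * (1 : Matrix X.J X.J A).submatrix id Subtype.val) := by
    rw [a12_E]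
    exact (Hm.mul hH hX.hp (hu1.mono hI.le) rfl).submatrix id _
  have m3 : Hm H 0 (fun j : {j // (X.t j).2 = a} => X.t j) X.t
      ((1 : Matrix X.J X.J A).submatrix Subtype.val id * (X.p - (X.D * h + h * X.D))) := by
    rw [a12_F]
    exact (hr.mono hI.le).submatrix _ id
  have hq1 : ind A {j : X.J ⊕ {j // (X.t j).2 = a} | (Sum.elim X.t
      (fun j : {j // (X.t j).2 = a} => ((X.t j).1, (X.t j).2 + 1)) j).2 = a} =
      fromBlocks (ind A {j | (X.t j).2 = a}) 0 0 0 := by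
    ext (i | i) (j | j)
    · by_cases h1 : (X.t i).2 = a <;> simp [ind, diagonal_apply, h1]
    · simp [ind]
    · simp [ind]
    · simp [ind, diagonal_apply, i.2]
  generalize ind A {j | (X.t j).2 = a} = q at hD cu cr hEF hqE qq hq1
  generalize (1 : Matrix X.J X.J A).submatrix id (Subtype.val : {j // (X.t j).2 = a} → X.J) = E
    at hEF hqE m1 m2
  generalize (1 : Matrix X.J X.J A).submatrix (Subtype.val : {j // (X.t j).2 = a} → X.J) id = F
    at hEF m1 m3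
  have k1 : u * E * (F * (u * E)) = u * E := by
    rw [Matrix.mul_assoc, ← Matrix.mul_assoc E, hEF, ← Matrix.mul_assoc q, cu, Matrix.mul_assoc,
      hqE, ← Matrix.mul_assoc, uu]
  let Y : Cx A Λ := ⟨{j // (X.t j).2 = a}, fun j => X.t j, F * (u * E), 0⟩
  have hY : Ok I Y := ⟨m1, Hm.zero _ _, by
    change F * (u * E) * (F * (u * E)) = F * (u * E)
    rw [Matrix.mul_assoc, k1], Matrix.mul_zero _, Matrix.zero_mul _, Matrix.mul_zero _⟩
  have hi : Ch H X Y (X.p * u * E) := ⟨⟨m2, by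
    rw [← Matrix.mul_assoc, ← Matrix.mul_assoc, hX.pp], by
    change X.p * u * E * (F * (u * E)) = _
    rw [Matrix.mul_assoc X.p, Matrix.mul_assoc X.p, k1]⟩, by
    change _ = X.p * u * E * (0 : Matrix Y.J Y.J A)
    rw [Matrix.mul_zero, ← Matrix.mul_assoc, ← Matrix.mul_assoc, hX.Dp, ← hqE,
      ← Matrix.mul_assoc, Matrix.mul_assoc X.D, ← cu, ← Matrix.mul_assoc, hD, Matrix.zero_mul,
      Matrix.zero_mul]⟩
  refine ⟨Y, _, hY, hi, cancel_bot hH (hX.cone (hY.mono hI.le) hi) (Wd.ext hW (fun j => ?_) _)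
    (s := fromBlocks h 0 (F * (X.p - (X.D * h + h * X.D))) 0)
    (Hm.blocks hh (Hm.zero _ _) (m3.shift_left 1 rfl) (Hm.zero _ _)) ?_⟩
  · have := j.2
    change (X.t j).2 + 1 ∈ _
    constructor <;> omega
  · have k2 : (X.D * h + X.p * u * E * (F * (X.p - (X.D * h + h * X.D)))) * q = X.p * q := by
      rw [Matrix.mul_assoc (X.p * u), ← Matrix.mul_assoc E, hEF, cr, Matrix.add_mul,
        Matrix.mul_assoc (X.p * u), Matrix.mul_assoc _ q, qq, Matrix.mul_assoc X.p,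
        ← Matrix.mul_assoc u, ur, Matrix.sub_mul, Matrix.add_mul, Matrix.mul_assoc h, hD,
        Matrix.mul_zero, add_zero, Matrix.mul_sub, ← Matrix.mul_assoc, hX.pp, ← Matrix.mul_assoc,
        ← Matrix.mul_assoc, hX.pD]
      abel
    refine (congrArg _ hq1).trans (Eq.trans ?_ (congrArg _ hq1).symm)
    change fromBlocks X.D (X.p * u * E) 0 (-(0 : Matrix Y.J Y.J A)) * _ * _ =
      fromBlocks X.p 0 0 (F * (u * E)) * _
    simp only [fromBlocks_multiply, Matrix.mul_zero, Matrix.zero_mul, add_zero, neg_zero, k2]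

theorem a12_ind (hH : LR H) (hI : Idl I H) (hu : LU I) (n : ℕ) : ∀ (a : ℤ) (X : Cx A Λ), Ok H X →
    Wd (Set.Icc a (a + n)) X → NulMod H I 1 X → ∃ M, Ok I M ∧ HE H X M := by
  induction n with
  | zero =>
    intro a X hX hW ⟨h, _, hr⟩
    have hD : X.D = 0 := by
      ext i j
      by_contra h0
      have h1 := (hX.hD i j).2 h0
      have h2 := (hW i).1
      have h3 := (hW j).2
      omega
    rw [hD, Matrix.mul_zero, Matrix.zero_mul, add_zero, sub_zero, one_smul] at hr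
    exact ⟨X, hX.idl hI hr, HE.refl hX⟩
  | succ n ih =>
    intro a X hX hW h
    obtain ⟨Y, i, hY, hi, Z, hZ, wZ, e⟩ := a12_step hH hI hu hX h (by omega) hW
    have hY' := hY.mono hI.le
    obtain ⟨M, hM, e'⟩ := ih (a + 1) Z hZ (by rwa [add_assoc, add_comm 1, ← Nat.cast_succ])
      ((h.ext hI Sc.one hi.tw (hY.sh 1)).he hH hI Sc.one e)
    obtain ⟨t0, e0⟩ := cone_rot hY' hX hi
    obtain ⟨t, ht, e1⟩ := ext_congr hH hY' hY' (hX.cone hY' hi) (hM.mono hI.le) (HE.refl hY')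
      (e.trans hH e') t0
    exact ⟨Y.ext M t, hY.ext hM ⟨ht.toMp.idl_left hI hY.hp, ht.cm⟩, e0.symm.trans hH e1⟩

theorem ran (hH : LR H) (hI : Idl I H) (hu : LU I) (hX : Ok H X) (h : NulMod H I 1 X) :
    ∃ M, Ok I M ∧ HE H X M := by
  obtain ⟨L, hL⟩ := exists_bd X
  refine a12_ind hH hI hu (2 * L) (-L) X hX (hL.mono (Set.Icc_subset_Icc_right ?_)) h
  omega

end Pool.Agent.MP_f7db47_al.KN

end

section

/-!
Localisations.
-/

namespace Pool.Agent.MP_f7db47_al.KN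

open Matrix

universe v w

variable {A : Type v} [Ring A] {Λ ι : Type} {H H' I I' : Fam A Λ} {S : ι → Submonoid A}
  {K K' : Finset ι} {W : Set ℤ} {X X' Y Y' Z : Cx A Λ} {w w' : A}

variable {a : ι}

theorem a13a_swap {u : A} (hu : ∀ x, u * x = x * u) (y x : A) : y * (u * x) = u * (y * x) := by
  rw [← mul_assoc, ← hu, mul_assoc]

theorem a13a_mul {u : A} (hu : ∀ x, u * x = x * u) (y x z : A) :
    y * u * (x * z) = y * x * (u * z) := by
  rw [mul_assoc, mul_assoc, a13a_swap hu x z]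

theorem exists_loc (hH : Good H S) (a : ι) : ∃ H', IsLoc H (S a) H' := by
  refine ⟨fun i j =>
    { carrier := {x | ∃ w ∈ S a, w * x ∈ H i j}
      zero_mem' := ⟨1, one_mem _, by simp⟩
      add_mem' := ?_
      neg_mem' := ?_ }, fun _ _ _ => Iff.rfl⟩
  · rintro x y ⟨u, hu, hx⟩ ⟨u', hu', hy⟩
    refine ⟨u * u', mul_mem hu hu', ?_⟩
    rw [mul_add, mul_assoc, mul_assoc, a13a_swap (hH.cen a u' hu') u x]
    exact add_mem (hH.stab a u' hu' hx) (hH.stab a u hu hy)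
  · rintro x ⟨u, hu, hx⟩
    exact ⟨u, hu, by rw [mul_neg]; exact neg_mem hx⟩

theorem IsLoc.le (h : IsLoc H (S a) H') : H ≤ H' :=
  fun i j x hx => (h i j x).2 ⟨1, one_mem _, by rwa [one_mul]⟩

theorem a13a_mul3 {H₁ H₂ H₃ H₁' H₂' H₃' : Fam A Λ} (hc : Cen S)
    (hm : ∀ ⦃a b c : Λ⦄ ⦃x y : A⦄, x ∈ H₁ a b → y ∈ H₂ b c → x * y ∈ H₃ a c)
    (h₁ : IsLoc H₁ (S a) H₁') (h₂ : IsLoc H₂ (S a) H₂') (h₃ : IsLoc H₃ (S a) H₃') ⦃i j k : Λ⦄
    ⦃x y : A⦄ (hx : x ∈ H₁' i j) (hy : y ∈ H₂' j k) : x * y ∈ H₃' i k := by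
  obtain ⟨u, hu, hx⟩ := (h₁ _ _ _).1 hx
  obtain ⟨u', hu', hy⟩ := (h₂ _ _ _).1 hy
  refine (h₃ _ _ _).2 ⟨u * u', mul_mem hu hu', ?_⟩
  rw [a13a_mul (hc a u' hu')]
  exact hm hx hy

theorem IsLoc.good (hH : Good H S) (h : IsLoc H (S a) H') : Good H' S := by
  refine ⟨a13a_mul3 hH.cen hH.mul h h h, hH.cen, fun b u hu i j x hx => ?_⟩
  obtain ⟨u', hu', hx⟩ := (h _ _ _).1 hx
  refine (h _ _ _).2 ⟨u', hu', ?_⟩
  rw [a13a_swap (hH.cen b u hu)]
  exact hH.stab b u hu hx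

theorem IsLoc.idl (hH : Good H S) (hI : Idl I H) (h : IsLoc H (S a) H') (h' : IsLoc I (S a) I') :
    Idl I' H' := by
  refine ⟨fun i j x hx => ?_, a13a_mul3 hH.cen hI.left h h' h', a13a_mul3 hH.cen hI.right h' h h'⟩
  obtain ⟨u, hu, hx⟩ := (h' _ _ _).1 hx
  exact (h _ _ _).2 ⟨u, hu, hI.le _ _ hx⟩

theorem IsLoc.lu (hI : Good I S) (hU : Uni S) (hu : LU I) (h : IsLoc I (S a) I') : LU I' := by
  classical
  intro c T hT
  have h1 : ∀ x : T, ∃ u ∈ S a, ∃ b, u * x.1 ∈ I c b := fun x => by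
    obtain ⟨b, hb⟩ := hT x.1 x.2
    obtain ⟨u, hu, hx⟩ := (h _ _ _).1 hb
    exact ⟨u, hu, b, hx⟩
  choose u h2 h3 using h1
  obtain ⟨e, e1, e2, e3⟩ := hu c (Finset.univ.image fun x : T => u x * x.1) (by
    intro y hy
    obtain ⟨x, -, rfl⟩ := Finset.mem_image.1 hy
    exact h3 x)
  refine ⟨e, h.le _ _ e1, e2, fun x hx => ?_⟩
  have e4 := e3 _ (Finset.mem_image_of_mem _ (Finset.mem_univ (⟨x, hx⟩ : T)))
  rw [a13a_swap (hI.cen a _ (h2 _))] at e4
  exact (hU a _ (h2 ⟨x, hx⟩)).mul_left_cancel e4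

theorem IsLoc.clear (hH : Good H S) (hU : Uni S) (h : IsLoc H (S a) H') {J J' : Type} [Finite J]
    [Finite J'] {d : ℤ} {s : J → Λ × ℤ} {t : J' → Λ × ℤ} {f : Matrix J J' A}
    (hf : Hm H' d s t f) : ∃ w ∈ S a, Hm H d s t (w • f) := by
  classical
  have h1 : ∀ T : Finset (J × J'), ∃ w ∈ S a, ∀ p ∈ T,
      w * f p.1 p.2 ∈ H (s p.1).1 (t p.2).1 := by
    intro T
    induction T using Finset.induction_on with
    | empty => exact ⟨1, one_mem _, fun p hp => absurd hp (Finset.notMem_empty p)⟩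
    | insert q T _ ih =>
      obtain ⟨u, hu, h2⟩ := ih
      obtain ⟨u', hu', h3⟩ := (h _ _ _).1 (hf q.1 q.2).1
      refine ⟨u * u', mul_mem hu hu', fun p hp => ?_⟩
      rw [mul_assoc]
      rcases Finset.mem_insert.1 hp with rfl | hp
      · exact hH.stab a u hu h3
      · rw [a13a_swap (hH.cen a u' hu')]
        exact hH.stab a u' hu' (h2 p hp)
  have := Fintype.ofFinite (J × J')
  obtain ⟨u, hu, h2⟩ := h1 Finset.univ
  exact ⟨u, hu, fun i j => ⟨h2 (i, j) (Finset.mem_univ _),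
    fun e => (hf i j).2 fun e1 => e (by rw [Matrix.smul_apply, e1, smul_zero])⟩⟩

theorem a13a_inv (hH : Good H S) (h : IsLoc H (S a) H') (hw : w ∈ S a) (e : w' * w = 1) :
    Sc H' w' := by
  have hc := hH.cen a w hw
  have e' : w * w' = 1 := by rw [hc, e]
  refine ⟨fun x => ?_, fun i j x hx => ?_⟩
  · calc w' * x = w' * (x * (w * w')) := by rw [e', mul_one]
      _ = w' * w * (x * w') := by rw [a13a_swap hc x w', mul_assoc]
      _ = x * w' := by rw [e, one_mul]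
  · obtain ⟨u, hu, hx⟩ := (h _ _ _).1 hx
    refine (h _ _ _).2 ⟨u * w, mul_mem hu hw, ?_⟩
    rwa [mul_assoc, ← mul_assoc w, e', one_mul]

theorem IsLoc.inv (hH : Good H S) (hU : Uni S) (h : IsLoc H (S a) H') (hw : w ∈ S a) :
    ∃ w', w' * w = 1 ∧ Sc H' w' := by
  obtain ⟨w', e⟩ := (hU a w hw).exists_left_inv
  exact ⟨w', e, a13a_inv hH h hw e⟩

theorem IsLoc.nul (hH : Good H S) (hU : Uni S) (h : IsLoc H (S a) H') (hX : Nul H' 1 X) :
    ∃ w ∈ S a, Nul H w X := by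
  obtain ⟨s, h1, h2⟩ := hX
  obtain ⟨u, hu, h3⟩ := h.clear hH hU h1
  refine ⟨u, hu, u • s, h3, ?_⟩
  rw [mul_smul_cen (hH.cen a u hu), Matrix.smul_mul, ← smul_add, h2, one_smul]

theorem IsLoc.nulMod (hH : Good H S) (hI : Good I S) (hU : Uni S) (h : IsLoc H (S a) H')
    (h' : IsLoc I (S a) I') (hw : w ∈ S a) (hX : NulMod H I w X) : NulMod H' I' 1 X := by
  obtain ⟨s, h1, h2⟩ := hX
  obtain ⟨u, e, hu⟩ := h.inv hH hU hw
  refine ⟨u • s, (h1.mono h.le).smul hu, ?_⟩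
  have h3 := (h2.mono h'.le).smul (a13a_inv hI h' hw e)
  rwa [smul_sub, smul_smul, e, smul_add, ← mul_smul_cen hu.1, ← Matrix.smul_mul] at h3

theorem a13a_zpow {u : Aˣ} (h : Sc H (u : A)) (h' : Sc H ((u⁻¹ : Aˣ) : A)) (n : ℤ) :
    Sc H ((u ^ n : Aˣ) : A) := by
  obtain ⟨k, rfl | rfl⟩ := n.eq_nat_or_neg
  · rw [zpow_natCast, Units.val_pow_eq_pow_val]
    exact h.pow k
  · rw [_root_.zpow_neg, zpow_natCast, ← inv_pow, Units.val_pow_eq_pow_val]
    exact h'.pow k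

theorem a13a_hm {J J' : Type} [Fintype J] [DecidableEq J] {d : ℤ} {s : J → Λ × ℤ}
    {t : J' → Λ × ℤ} {f : Matrix J J' A} {c : J → A} (hc : ∀ i, Sc H (c i))
    (hf : Hm H d s t f) : Hm H d s t (diagonal c * f) := fun i j => by
  rw [diagonal_mul]
  exact ⟨(hc i).2 (hf i j).1, fun e => (hf i j).2 (right_ne_zero_of_mul e)⟩

theorem a13a_comm {J : Type} [Fintype J] [DecidableEq J] {d : ℤ} {s : J → Λ × ℤ}
    {f : Matrix J J A} {c : ℤ → A} (hc : ∀ n, Sc H (c n)) {x : A}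
    (hx : ∀ n, c (n + d) = x * c n) (hf : Hm H d s s f) :
    diagonal (fun i => c (s i).2) * f = (x • f) * diagonal fun i => c (s i).2 := by
  ext i j
  rw [diagonal_mul, mul_diagonal, Matrix.smul_apply, smul_eq_mul]
  by_cases e : f i j = 0
  · simp [e]
  · rw [(hf i j).2 e, hx, mul_assoc, mul_assoc, (hc _).1]

theorem he_scale (hX : Ok H X) (hw : Sc H w) (hw' : Sc H w') (h : w' * w = 1) :
    Ok H (X.re X.p (w • X.D)) ∧ HE H X (X.re X.p (w • X.D)) := by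
  have pD : X.p * w • X.D = w • X.D := by rw [mul_smul_cen hw.1, hX.pD]
  have Dp : (w • X.D) * X.p = w • X.D := by rw [Matrix.smul_mul, hX.Dp]
  refine ⟨⟨hX.hp, hX.hD.smul hw, hX.pp, pD, Dp, ?_⟩, ?_⟩
  · change (w • X.D) * (w • X.D) = 0
    rw [mul_smul_cen hw.1, Matrix.smul_mul, hX.DD, smul_zero, smul_zero]
  obtain ⟨u, rfl, rfl⟩ : ∃ u : Aˣ, (u : A) = w ∧ ((u⁻¹ : Aˣ) : A) = w' :=
    ⟨⟨w, w', by rw [hw.1, h], h⟩, rfl, rfl⟩
  have hc := a13a_zpow hw hw'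
  obtain ⟨C, hC⟩ : ∃ C, C = diagonal fun i => ((u ^ (-(X.t i).2) : Aˣ) : A) := ⟨_, rfl⟩
  obtain ⟨C', hC'⟩ : ∃ C', C' = diagonal fun i => ((u ^ (X.t i).2 : Aˣ) : A) := ⟨_, rfl⟩
  have e1 : C * C' = 1 := by
    rw [hC, hC', diagonal_mul_diagonal, ← diagonal_one]
    congr 1
    funext i
    rw [← Units.val_mul, ← _root_.zpow_add, neg_add_cancel, zpow_zero, Units.val_one]
  have e2 : C' * C = 1 := by
    rw [hC, hC', diagonal_mul_diagonal, ← diagonal_one]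
    congr 1
    funext i
    rw [← Units.val_mul, ← _root_.zpow_add, add_neg_cancel, zpow_zero, Units.val_one]
  have e3 : C * X.p = X.p * C := by
    have := a13a_comm (c := fun n => ((u ^ (-n) : Aˣ) : A)) (fun n => hc _) (x := 1)
      (fun n => by rw [add_zero, one_mul]) hX.hp
    rwa [one_smul, ← hC] at this
  have e4 : C' * X.p = X.p * C' := by
    have := a13a_comm (c := fun n => ((u ^ n : Aˣ) : A)) hc (x := 1)
      (fun n => by rw [add_zero, one_mul]) hX.hp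
    rwa [one_smul, ← hC'] at this
  have e5 : C * X.D = ((u : A) • X.D) * C := by
    have := a13a_comm (c := fun n => ((u ^ (-n) : Aˣ) : A)) (fun n => hc _) (x := u)
      (fun n => by rw [neg_add, neg_neg, add_comm, _root_.zpow_one_add, Units.val_mul]) hX.hD
    rwa [← hC] at this
  have e6 : X.D * C' = C' * ((u : A) • X.D) := by
    calc X.D * C' = C' * (C * X.D) * C' := by rw [← Matrix.mul_assoc, e2, Matrix.one_mul]
      _ = _ := by rw [e5, Matrix.mul_assoc, Matrix.mul_assoc, e1, Matrix.mul_one]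
  have pC : ∀ B : Matrix X.J X.J A, B * X.p = X.p * B → X.p * (B * X.p) = B * X.p := by
    intro B hB
    rw [← Matrix.mul_assoc, ← hB, Matrix.mul_assoc, hX.pp]
  have Cp : ∀ B : Matrix X.J X.J A, B * X.p * X.p = B * X.p := by
    intro B
    rw [Matrix.mul_assoc, hX.pp]
  refine ⟨C * X.p, C' * X.p, 0, 0, ⟨⟨?_, pC C e3, Cp C⟩, ?_⟩, ⟨⟨?_, pC C' e4, Cp C'⟩, ?_⟩,
    Hm.zero _ _, Hm.zero _ _, ?_, ?_⟩
  · rw [hC]
    exact a13a_hm (fun i => hc _) hX.hp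
  · change ((u : A) • X.D) * (C * X.p) = C * X.p * X.D
    rw [← Matrix.mul_assoc, ← e5, Matrix.mul_assoc, Matrix.mul_assoc, hX.Dp, hX.pD]
  · rw [hC']
    exact a13a_hm (fun i => hc _) hX.hp
  · change X.D * (C' * X.p) = C' * X.p * ((u : A) • X.D)
    rw [← Matrix.mul_assoc, e6, Matrix.mul_assoc, Matrix.mul_assoc, Dp, pD]
  · rw [Matrix.mul_assoc, pC C e3, ← Matrix.mul_assoc, e2]
    simp
  · change C * X.p * (C' * X.p) + _ = X.p
    rw [Matrix.mul_assoc, pC C' e4, ← Matrix.mul_assoc, e1]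
    simp

theorem a13a_ch (hX : Ok H X) (hY : Ok H Y) (hw : Sc H w) {t : Matrix X.J Y.J A}
    (ht : Tw H X Y t) :
    Ch H (X.ext Y (w • t)) (X.ext Y t) (fromBlocks (w • X.p) 0 0 Y.p) := by
  refine ⟨⟨Hm.blocks (hX.hp.smul hw) (Hm.zero _ _) (Hm.zero _ _) hY.hp, ?_, ?_⟩, ?_⟩
  · simp [fromBlocks_multiply, mul_smul_cen hw.1, hX.pp, hY.pp]
  · simp [fromBlocks_multiply, hX.pp, hY.pp]
  · simp [fromBlocks_multiply, mul_smul_cen hw.1, hX.pD, hX.Dp, hY.pD, hY.Dp, ht.pl, ht.pr]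

theorem he_scale_tw (hX : Ok H X) (hY : Ok H Y) (hw : Sc H w) (hw' : Sc H w') (h : w' * w = 1)
    {t : Matrix X.J Y.J A} (ht : Tw H X Y t) : HE H (X.ext Y t) (X.ext Y (w • t)) := by
  have h' : w * w' = 1 := by rw [hw.1, h]
  have ht' : Tw H X Y (w • t) :=
    ⟨⟨ht.hm.smul hw, by rw [mul_smul_cen hw.1, ht.pl], by rw [Matrix.smul_mul, ht.pr]⟩, by
      rw [mul_smul_cen hw.1, Matrix.smul_mul, ← smul_add, ht.cm, smul_zero]⟩
  have h2 := a13a_ch hX hY hw' ht'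
  rw [smul_smul, h, one_smul] at h2
  refine ⟨_, _, 0, 0, a13a_ch hX hY hw ht, h2, Hm.zero _ _, Hm.zero _ _, ?_, ?_⟩
  · simp [fromBlocks_multiply, mul_smul_cen hw.1, hX.pp, hY.pp, smul_smul, h']
  · simp [fromBlocks_multiply, mul_smul_cen hw'.1, hX.pp, hY.pp, smul_smul, h]

end Pool.Agent.MP_f7db47_al.KN

end

section

/-!
Lifting complexes from a localisation.
-/

namespace Pool.Agent.MP_f7db47_al.KN

open Matrix

universe v w

variable {A : Type v} [Ring A] {Λ ι : Type} {H H' I I' : Fam A Λ} {S : ι → Submonoid A}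
  {K K' : Finset ι} {W : Set ℤ} {X X' Y Y' Z : Cx A Λ} {w w' : A}

variable {a : ι}

/-- Complexes that come from `I`. -/
def Lf (I I' : Fam A Λ) (S : ι → Submonoid A) (K : Finset ι) (X : Cx A Λ) : Prop :=
  ∃ Z, Obj I S K Z ∧ HE I' X Z

theorem a13_he (hH : LR I') (h : Lf I I' S K Y) (e : HE I' X Y) : Lf I I' S K X :=
  h.imp fun _ c => ⟨c.1, e.trans hH c.2⟩

theorem a13_self (hle : I ≤ I') (h : Obj I S K X) : Lf I I' S K X :=
  ⟨X, h, HE.refl (h.ok.mono hle)⟩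

theorem a13_dense (hI : Good I S) (hU : Uni S) (hu : LU I) (h : IsLoc I (S a) I')
    (hX : Obj I' S K X) (hD : Hm I (-1) X.t X.t X.D) :
    ∃ X', Obj I' S K X' ∧ Lf I I' S K (X.sum X') := by
  have hI' := IsLoc.good hI h
  have o := hX.ok
  obtain ⟨w, hw, h1⟩ := IsLoc.clear hI hU h o.hp
  obtain ⟨w', h2, -⟩ := IsLoc.inv hI hU h hw
  obtain ⟨u, u1, u2, u3, -⟩ := hu.mat h1
  have up : u * X.p = X.p := by
    have := congrArg (fun M => w' • M) u3
    simpa only [mul_smul_cen (hI.cen a w hw), smul_smul, h2, one_smul] using this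
  have uD : u * X.D = X.D := by rw [← o.pD, ← Matrix.mul_assoc, up]
  have hY : Ok I (X.re u (X.D * u)) :=
    ⟨u1, Hm.mul hI.mul hD u1 (by omega), u2, by rw [← Matrix.mul_assoc, uD],
      by rw [Matrix.mul_assoc, u2],
      by rw [Matrix.mul_assoc, ← Matrix.mul_assoc u, uD, ← Matrix.mul_assoc, o.DD, Matrix.zero_mul]⟩
  have hi : Ch I' (X.re u (X.D * u)) X X.p :=
    ⟨⟨o.hp, up, o.pp⟩, by rw [Matrix.mul_assoc, up, o.Dp, o.pD]⟩
  have hr : Ch I' X (X.re u (X.D * u)) (X.p * u) :=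
    ⟨⟨Hm.mul hI'.mul o.hp (u1.mono h.le) (by omega), by rw [← Matrix.mul_assoc, o.pp],
      by rw [Matrix.mul_assoc, u2]⟩, by
      rw [← Matrix.mul_assoc, o.Dp, Matrix.mul_assoc, ← Matrix.mul_assoc u, uD,
        ← Matrix.mul_assoc, o.pD]⟩
  obtain ⟨P, f, i, p1, p2, p3, p4, -⟩ := kos hI hI' h.le K hY hX hr
  obtain ⟨q1, q2, q3⟩ := retract hI'.mul (p1.ok.mono h.le) o
    (Ch.comp hI'.mul (p3.mono h.le) hi) p2
    (by rw [← Matrix.mul_assoc, p4, Matrix.mul_assoc, up, o.pp])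
  exact ⟨_, ⟨q1, fun b hb => (p1.tor b hb).imp fun c hc =>
    ⟨hc.1, q3 c (hI.cen b c hc.1) (hc.2.mono h.le)⟩⟩, P, p1, q2.symm⟩

theorem Lf.dense (hI : Good I S) (hU : Uni S) (hu : LU I) (h : IsLoc I (S a) I')
    (hX : Obj I' S K X) : ∃ X', Obj I' S K X' ∧ Lf I I' S K (X.sum X') := by
  have hI' := IsLoc.good hI h
  obtain ⟨w, hw, h1⟩ := IsLoc.clear hI hU h hX.ok.hD
  obtain ⟨w', h2, h3⟩ := IsLoc.inv hI hU h hw
  obtain ⟨o, e⟩ := he_scale hX.ok (hI'.sc hw) h3 h2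
  obtain ⟨X', h4, h5⟩ := a13_dense hI hU hu h (hX.he hI' o e) h1
  exact ⟨X', h4, a13_he hI'.mul h5 (e.sum_left h4.ok)⟩

theorem Lf.ext (hI : Good I S) (hU : Uni S) (h : IsLoc I (S a) I') (hX : Ok I' X) (hY : Ok I' Y)
    {t : Matrix X.J Y.J A} (ht : Tw I' X Y t) (h1 : Lf I I' S K X) (h2 : Lf I I' S K Y) :
    Lf I I' S K (X.ext Y t) := by
  have hI' := IsLoc.good hI h
  obtain ⟨P, p1, p2⟩ := h1
  obtain ⟨Q, q1, q2⟩ := h2
  obtain ⟨t', t1, t2⟩ := ext_congr hI'.mul hX (p1.ok.mono h.le) hY (q1.ok.mono h.le) p2 q2 ht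
  obtain ⟨w, hw, h3⟩ := IsLoc.clear hI hU h t1.hm
  obtain ⟨w', h4, h5⟩ := IsLoc.inv hI hU h hw
  have t3 := t1.smul (hI'.sc hw)
  exact ⟨_, Obj.ext hI ⟨⟨h3, t3.pl, t3.pr⟩, t3.cm⟩ p1 q1, t2.trans hI'.mul
    (he_scale_tw (p1.ok.mono h.le) (q1.ok.mono h.le) (hI'.sc hw) h5 h4 t1)⟩

theorem Lf.cancel (hI : Good I S) (hU : Uni S) (h : IsLoc I (S a) I') (hX : Ok I' X)
    (hY : Ok I' Y) (h1 : Lf I I' S K (X.sum Y)) (h2 : Lf I I' S K Y) : Lf I I' S K X := by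
  have hI' := IsLoc.good hI h
  obtain ⟨P, p1, p2⟩ := h1
  obtain ⟨Q, q1, q2⟩ := h2
  obtain ⟨g, g1, g2⟩ := cone_sum hI'.mul hX (q1.ok.mono h.le) (p1.ok.mono h.le)
    (p2.symm.trans hI'.mul (q2.sum_right hX))
  exact a13_he hI'.mul (Lf.ext hI hU h (p1.ok.mono h.le) ((q1.ok.mono h.le).sh 1) g1.tw
    (a13_self h.le p1) (a13_self h.le (q1.sh 1))) g2.symm

theorem lift (hI : Good I S) (hU : Uni S) (hu : LU I) (h : IsLoc I (S a) I')
    (hX : Obj I' S K X) (hc : Cert I' S K W X) : Lf I I' S K X := by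
  have hI' := IsLoc.good hI h
  obtain ⟨P, Q, B, t, t', c, e, e'⟩ := hc
  obtain ⟨P', p1, p2⟩ := Lf.dense hI hU hu h c.oP
  obtain ⟨Q', q1, q2⟩ := Lf.dense hI hU hu h c.oQ
  have hR := p1.ok.sum q1.ok
  have key : ∀ (s : Matrix P.J Q.J A) (Y : Cx A Λ), Tw I' P Q s → HE I' (P.ext Q s) Y →
      Lf I I' S K (Y.sum (P'.sum Q')) := fun s Y hs he =>
    a13_he hI'.mul (Lf.ext hI hU h (c.oP.ok.sum p1.ok) (c.oQ.ok.sum q1.ok)
      (tw_sum hs (Tw.zero P' Q')) p2 q2)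
      (((sub_ext_sum s 0).he_left.2 (he.sum_left hR)).symm)
  exact Lf.cancel hI hU h hX.ok (c.oB.ok.sum hR)
    (a13_he hI'.mul (key t _ c.ht e)
      ((sub_sum_assoc X B _).2.he ((hX.ok.sum c.oB.ok).sum hR))) (key t' _ c.ht' e')

end Pool.Agent.MP_f7db47_al.KN

end

section

/-!
Approximation by complexes over an ideal.
-/

namespace Pool.Agent.MP_f7db47_al.KN

open Matrix

universe v w

variable {A : Type v} [Ring A] {Λ ι : Type} {H H' I I' : Fam A Λ} {S : ι → Submonoid A}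
  {K K' : Finset ι} {W : Set ℤ} {X X' Y Y' Z : Cx A Λ} {w w' : A}

theorem approx_step [DecidableEq ι] (hH : Good H S) (hI : Good I S) (hU : Uni S) (hid : Idl I H)
    (hu : LU I) {a : ι} (h' : IsLoc I (S a) I') (hN : NullAll I' S K) (hX : Obj H S K X)
    (hw : w ∈ S a) (h : NulMod H I w X) :
    ∃ Z t, Ok I Z ∧ Tw H X Z t ∧ Obj H S (insert a K) (X.ext Z t) := by
  obtain ⟨H', hl⟩ := exists_loc hH a
  have hH' : Good H' S := hl.good hH
  have hid' : Idl I' H' := hl.idl hH hid h'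
  have hX' : Obj H' S K X := hX.mono hl.le
  obtain ⟨M, hM, e⟩ := ran hH'.mul hid' (h'.lu hI hU hu) hX'.ok (hl.nulMod hH hI hU h' hw h)
  have hMo : Obj I' S K M := (hX'.he hH' (hM.mono hid'.le) e).idl hH' hid' hM.hp
  obtain ⟨Z, hZ, e'⟩ := lift hI hU hu h' hMo (hN M hMo)
  obtain ⟨f, g, s, k, c⟩ := (e.trans hH'.mul (e'.mono hid'.le)).symm
  obtain ⟨u, hu1, hf⟩ := hl.clear hH hU c.hf.hm
  obtain ⟨u', huu, hu'⟩ := hl.inv hH hU hu1
  have hsc : Sc H' u := hH'.sc hu1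
  have hf' : Ch H' X Z (u • f) := c.hf.smul hsc
  have hfH : Ch H X Z (u • f) := ⟨⟨hf, hf'.pl, hf'.pr⟩, hf'.cm⟩
  have hZH : Obj H S K Z := hZ.mono hid.le
  have c' : HEd H' Z X (u • f) (u' • g) s k := by
    refine ⟨hf', c.hg.smul hu', c.hh, c.hk, ?_, ?_⟩
    · rw [mul_smul_cen hsc.1, Matrix.smul_mul, smul_smul, hsc.1, huu, one_smul]
      exact c.gf
    · rw [mul_smul_cen hu'.1, Matrix.smul_mul, smul_smul, huu, one_smul]
      exact c.fg
  obtain ⟨u₂, hu₂, hn⟩ := hl.nul hH hU (cone_nul hH'.mul (hZH.ok.mono hl.le) hX'.ok c')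
  have ho : Obj H S K (X.ext (Z.sh 1) (u • f)) := hX.ext hH hfH.tw (hZH.sh 1)
  refine ⟨Z.sh 1, u • f, hZ.ok.sh 1, hfH.tw, ho.ok, fun b hb => ?_⟩
  rcases Finset.mem_insert.1 hb with rfl | hb
  · exact ⟨u₂, hu₂, hn⟩
  · exact ho.tor b hb

theorem approx (hH : Good H S) (hI : Good I S) (hU : Uni S) (hid : Idl I H) (hu : LU I)
    (hL : NL I S K) (hX : Ok H X) (h : ∀ a ∈ K, ∃ w ∈ S a, NulMod H I w X) :
    ∃ Z t, Ok I Z ∧ Tw H X Z t ∧ Obj H S K (X.ext Z t) := by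
  classical
  suffices key : ∀ T : Finset ι, T ⊆ K →
      ∃ Z t, Ok I Z ∧ Tw H X Z t ∧ Obj H S T (X.ext Z t) from key K Finset.Subset.rfl
  intro T
  induction T using Finset.induction_on with
  | empty =>
    exact fun _ => ⟨Cx.zero A Λ, 0, Ok.zero, Tw.zero _ _, hX.ext Ok.zero (Tw.zero _ _),
      fun a ha => absurd ha (Finset.notMem_empty a)⟩
  | insert a T ha ih =>
    intro hT
    have haK : a ∈ K := hT (Finset.mem_insert_self a T)
    have hTK : T ⊆ K := (Finset.subset_insert a T).trans hT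
    obtain ⟨Z, t, hZ, ht, ho⟩ := ih hTK
    obtain ⟨I', h', hN⟩ := hL a haK
    obtain ⟨w, hw, hn⟩ := h a haK
    obtain ⟨Z', t', hZ', ht', ho'⟩ := approx_step hH hI hU hid hu h' (hN T hTK ha) ho hw
      (hn.ext hid (hI.sc hw) ht hZ)
    obtain ⟨c, b, rfl⟩ : ∃ c b, t' = fromRows c b := ⟨_, _, (fromRows_toRows t').symm⟩
    obtain ⟨hb, hc⟩ := tw_rows ht ht'
    exact ⟨Z.ext Z' b, fromCols t c, hZ.ext hZ' ⟨hb.toMp.idl_left hid hZ.hp, hb.cm⟩, hc,
      (sub_ext_assoc t c b).1.obj_iff.1 ho'⟩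

end Pool.Agent.MP_f7db47_al.KN

end

section

/-!
Cutting a complex into two pieces.
-/

namespace Pool.Agent.MP_f7db47_al.KN

open Matrix

universe v w

variable {A : Type v} [Ring A] {Λ ι : Type} {H H' I I' : Fam A Λ} {S : ι → Submonoid A}
  {K K' : Finset ι} {W : Set ℤ} {X X' Y Y' Z : Cx A Λ} {w w' : A}

theorem cut {I₁ I₂ : Fam A Λ} (hH : Good H S) (hI : Good I S) (hU : Uni S) (hid : Idl I H)
    (h1 : Idl I₁ H) (h2 : Idl I₂ H) (l1 : I ≤ I₁) (l2 : I ≤ I₂)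
    (h21 : ∀ ⦃a b c : Λ⦄ ⦃x y : A⦄, x ∈ I₂ a b → y ∈ I₁ b c → x * y ∈ I a c) (hu : LU I)
    (hL : NL I S K) {Fr : Cx A Λ → Prop} (hFr : Stdz I Fr) (hX : Obj H S K X)
    {e : Matrix X.J X.J A} (he : Cut H X e) (e1 : Hm I₁ 0 X.t X.t e)
    (e2 : Hm I₂ 0 X.t X.t (X.p - e)) :
    ∃ (Z : Cx A Λ) (t₁ : Matrix X.J Z.J A) (t₂ : Matrix X.J Z.J A)
      (τ : Matrix (X.J ⊕ Z.J) (X.J ⊕ Z.J) A), Fr Z ∧
      Obj I₁ S K ((X.sub e).ext (Z.sh (-1)) t₁) ∧ Obj I₂ S K ((X.quo e).ext Z t₂) ∧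
      Tw H ((X.sub e).ext (Z.sh (-1)) t₁) ((X.quo e).ext Z t₂) τ ∧
      HE H (((X.sub e).ext (Z.sh (-1)) t₁).ext ((X.quo e).ext Z t₂) τ) X := by
  obtain ⟨o1, o2, tw, h0⟩ := tri hH.mul hX.ok he
  obtain ⟨Z₀, t, z0, t0, ob⟩ := approx hH hI hU hid hu hL o2 fun a ha => by
    obtain ⟨w, hw, h⟩ := hX.tor a ha
    exact ⟨w, hw, NulMod.quo hH.mul h1 h2 h21 hX.ok (hH.cen a w hw) he e1 e2 h⟩
  obtain ⟨Z, z1, fr, hz⟩ := hFr Z₀ z0
  obtain ⟨f, g, h, k, hz⟩ := hz.mono hid.le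
  have z2 := z1.mono hid.le
  have t1 := t0.comp_right hH.mul hz.hg
  have b2 := ob.he hH (o2.ext z2 t1) (ext_congr_right hH.mul o2 (z0.mono hid.le) z2 hz t0)
  obtain ⟨m1, m2, m3⟩ := ext_mod hH.mul o1 o2 z2 tw t1
  have k1 := o1.ext (z2.sh (-1)) m1
  have m4 := m3.trans hH.mul h0.symm
  have b1 := Obj.left hH m2 k1 (hX.he hH (k1.ext b2.ok m2) m4.symm) b2
  exact ⟨Z, _, _, _, fr,
    b1.idl hH h1 (Hm.blocks e1 (Hm.zero _ _) (Hm.zero _ _) ((z1.sh (-1)).hp.mono l1)),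
    b2.idl hH h2 (Hm.blocks e2 (Hm.zero _ _) (Hm.zero _ _) (z1.hp.mono l2)), m2, m4⟩

end Pool.Agent.MP_f7db47_al.KN

end
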