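import Pool.Agent.Mg.Ff7db47.G75c999
import Pool.Agent.Mg.Ff7db47.G4b3290

section

/-!
Theories without tame extensions: definitions.
-/

namespace Pool.Agent.MP_f7db47_al.VD

open GN GF VC

/-- A property of groups over `G₀` with the basic closure properties. -/
structure Thy0 (G₀ : Type) [Group G₀] where
  Q : ∀ (G : Type) [Group G], (G →* G₀) → Prop
  sub : ∀ {G H : Type} [Group G] [Group H] {i : H →* G₀} (f : G →* H), Function.Injective f →
    Q H i → Q G (i.comp f)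
  loc : ∀ {G : Type} [Group G] {i : G →* G₀},
    (∀ K : Subgroup G, K.FG → Q K (i.comp K.subtype)) → Q G i
  flow : ∀ {Γ G : Type} [Group Γ] [Group G] {i : G →* G₀} {Fam : Set (Subgroup Γ)},
    HasPack Γ Fam → ∀ f : G →* Γ, (∀ (B : Subgroup Γ) (φ : B →* MZ),
      (∀ g, φ g = 1 → IsOfFinOrder g) → Q (B.comap f) (i.comp (B.comap f).subtype)) →
    (∀ B ∈ Fam, Q (B.comap f) (i.comp (B.comap f).subtype)) → Q G i

/-- The further closure properties. -/
structure Full {G₀ : Type} [Group G₀] (T : Thy0 G₀) : Prop where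
  fh : T.Q PUnit.{1} 1 → ∀ (N : ℕ) (G : Type) [Group G] (i : G →* G₀),
    (∀ (r : ℕ) (S₀ : Finset G) (π : ℕ), π.Prime →
      FHD (fun K => T.Q K (i.comp K.subtype)) N r S₀ π) → T.Q G i
  gl : ∀ {G A : Type} [Group G] [CommRing A] {i : G →* G₀} {n : ℕ} (f : G →* GL (Fin n) A),
    (∀ (H : Subgroup G) (φ : H →* MZ), (∀ g : H, φ g = 1 → QU (f g).val) →
      T.Q H (i.comp H.subtype)) → T.Q G i
  prodZ : ∀ {G : Type} [Group G] {i : G →* G₀}, T.Q G i →
    T.Q (G × MZ) (i.comp (MonoidHom.fst G MZ))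
  colim : ∀ {G : Type} [Group G] {i : G →* G₀},
    (∀ S : Finset G, ∃ (G' : Type) (_ : Group G') (q : G' →* G) (s : G → G'),
      (∀ g ∈ S, q (s g) = g) ∧ (∀ g ∈ S, ∀ h ∈ S, g * h ∈ S → s (g * h) = s g * s h) ∧
      T.Q G' (i.comp q)) → T.Q G i

/-- A class of theories. -/
abbrev Cls : Type 1 := ∀ (G₀ : Type) [Group G₀], Thy0 G₀ → Prop

/-- The fibred reduction to finite-by-cyclic subgroups holds for `Γ`, for theories in `P`. -/
def FJP (P : Cls) (Γ : Type) [Group Γ] : Prop :=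
  ∀ (G₀ : Type) [Group G₀] (T : Thy0 G₀), P G₀ T →
    ∀ (G : Type) [Group G] (i : G →* G₀) (f : G →* Γ),
      (∀ B : Subgroup Γ, IsVC B → T.Q (B.comap f) (i.comp (B.comap f).subtype)) → T.Q G i

/-- The fibred reduction for full theories. -/
abbrev FJ (Γ : Type) [Group Γ] : Prop := FJP (fun _ _ T => Full T) Γ

/-- The wreath product of a group with a symmetric group. -/
@[ext] structure WrG (H Y : Type) where
  b : Y → H
  σ : Equiv.Perm Y

namespace WrG

variable {H Y : Type} [Group H]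

instance : Mul (WrG H Y) := ⟨fun x y => ⟨fun i => x.b i * y.b (x.σ⁻¹ i), x.σ * y.σ⟩⟩

instance : One (WrG H Y) := ⟨⟨1, 1⟩⟩

instance : Inv (WrG H Y) := ⟨fun x => ⟨fun i => (x.b (x.σ i))⁻¹, x.σ⁻¹⟩⟩

theorem mul_b (x y : WrG H Y) (i : Y) : (x * y).b i = x.b i * y.b (x.σ⁻¹ i) := rfl

theorem mul_σ (x y : WrG H Y) : (x * y).σ = x.σ * y.σ := rfl

theorem one_b (i : Y) : (1 : WrG H Y).b i = 1 := rfl

theorem one_σ : (1 : WrG H Y).σ = 1 := rfl

theorem inv_b (x : WrG H Y) (i : Y) : (x⁻¹).b i = (x.b (x.σ i))⁻¹ := rfl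

theorem inv_σ (x : WrG H Y) : (x⁻¹).σ = x.σ⁻¹ := rfl

instance : Group (WrG H Y) :=
  Group.ofLeftAxioms
    (fun x y z => WrG.ext (funext fun i => by simp [mul_b, mul_σ, mul_assoc]) (mul_assoc _ _ _))
    (fun x => WrG.ext (funext fun i => by simp [mul_b, one_b, one_σ]) (one_mul _))
    fun x => WrG.ext (funext fun i => by simp [mul_b, inv_b, inv_σ, one_b]) (inv_mul_cancel _)

end WrG

/-- The restricted wreath product of an abelian group with `ℤ`. -/
@[ext] structure Lamp (k : Type) [Zero k] where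
  f : ℤ →₀ k
  e : ℤ

namespace Lamp

variable {k : Type} [AddCommGroup k]

/-- The shift. -/
noncomputable def sh (e : ℤ) (f : ℤ →₀ k) : ℤ →₀ k := f.equivMapDomain (Equiv.addRight e)

theorem sh_apply (e : ℤ) (f : ℤ →₀ k) (j : ℤ) : sh e f j = f (j - e) := by
  simp [sh, sub_eq_add_neg]

noncomputable instance : Mul (Lamp k) := ⟨fun x y => ⟨x.f + sh x.e y.f, x.e + y.e⟩⟩

instance : One (Lamp k) := ⟨⟨0, 0⟩⟩

noncomputable instance : Inv (Lamp k) := ⟨fun x => ⟨-sh (-x.e) x.f, -x.e⟩⟩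

theorem mul_f (x y : Lamp k) (j : ℤ) : (x * y).f j = x.f j + y.f (j - x.e) := by
  rw [← sh_apply]
  rfl

theorem mul_e (x y : Lamp k) : (x * y).e = x.e + y.e := rfl

theorem one_f (j : ℤ) : (1 : Lamp k).f j = 0 := rfl

theorem one_e : (1 : Lamp k).e = 0 := rfl

theorem inv_f (x : Lamp k) (j : ℤ) : (x⁻¹).f j = -x.f (j + x.e) := by
  rw [← sub_neg_eq_add, ← sh_apply]
  rfl

theorem inv_e (x : Lamp k) : (x⁻¹).e = -x.e := rfl

noncomputable instance : Group (Lamp k) :=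
  Group.ofLeftAxioms
    (fun x y z => Lamp.ext (Finsupp.ext fun j => by simp [mul_f, mul_e, add_assoc, sub_sub])
      (add_assoc _ _ _))
    (fun x => Lamp.ext (Finsupp.ext fun j => by simp [mul_f, one_f, one_e]) (zero_add _))
    fun x => Lamp.ext (Finsupp.ext fun j => by simp [mul_f, inv_f, inv_e, one_f])
      (neg_add_cancel _)

end Lamp

end Pool.Agent.MP_f7db47_al.VD

end

section

/-!
Closure properties.
-/

namespace Pool.Agent.MP_f7db47_al.VD

open GN GF VC Function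

section

variable {G H G₀ : Type} [Group G] [Group H] [Group G₀] (T : Thy0 G₀)

theorem Thy0.sub' {i : G →* G₀} {i' : H →* G₀} (f : G →* H) (hf : Function.Injective f)
    (e : ∀ g, i g = i' (f g)) (h : T.Q H i') : T.Q G i := by
  rw [show i = i'.comp f from MonoidHom.ext e]
  exact T.sub f hf h

theorem Thy0.le {i : G →* G₀} {K K' : Subgroup G} (h : K ≤ K')
    (h' : T.Q K' (i.comp K'.subtype)) : T.Q K (i.comp K.subtype) :=
  T.sub' (Subgroup.inclusion h) (Subgroup.inclusion_injective h) (fun _ => rfl) h'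

theorem Thy0.top {i : G →* G₀} {K : Subgroup G} (h : ∀ g, g ∈ K)
    (h' : T.Q K (i.comp K.subtype)) : T.Q G i :=
  T.sub' ((MonoidHom.id G).codRestrict K h) (fun _ _ e => congrArg Subtype.val e)
    (fun _ => rfl) h'

end

variable {Γ Γ' : Type} [Group Γ] [Group Γ'] {P : Cls}

theorem FJP.comap {B : Subgroup Γ} (hB : FJP P B) {G₀ : Type} [Group G₀] (T : Thy0 G₀)
    (hT : P G₀ T) {G : Type} [Group G] (i : G →* G₀) (f : G →* Γ)
    (h : ∀ C : Subgroup Γ, IsVC C → T.Q (C.comap f) (i.comp (C.comap f).subtype)) :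
    T.Q (B.comap f) (i.comp (B.comap f).subtype) := by
  refine hB G₀ T hT _ _ (f.subgroupComap B) fun C hC => ?_
  let e := (C.equivMapOfInjective B.subtype B.subtype_injective).symm
  exact T.sub' (((B.comap f).subtype.comp (C.comap (f.subgroupComap B)).subtype).codRestrict
    ((C.map B.subtype).comap f) fun x => ⟨f.subgroupComap B x.1, x.2, rfl⟩)
    (fun x y e => Subtype.ext (Subtype.ext (Subtype.ext_iff.1 e :))) (fun _ => rfl)
    (h _ (hC.sub e.toMonoidHom e.injective))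

theorem FJP.sub (j : Γ' →* Γ) (hj : Injective j) (h : FJP P Γ) : FJP P Γ' := by
  intro G₀ _ T hT G _ i f H
  exact h G₀ T hT G i (j.comp f) fun B hB => H (B.comap j) (hB.sub (j.subgroupComap B)
    fun x y e => Subtype.ext (hj (congrArg Subtype.val e)))

theorem FJP.le {K K' : Subgroup Γ} (h : K ≤ K') (h' : FJP P K') : FJP P K :=
  h'.sub (Subgroup.inclusion h) (Subgroup.inclusion_injective h)

theorem FJP.of_vc (h : IsVC Γ) : FJP P Γ := by
  intro G₀ _ T _ G _ i f H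
  exact T.top (K := (⊤ : Subgroup Γ).comap f) (fun _ => trivial)
    (H ⊤ (h.sub _ (Subgroup.subtype_injective _)))

theorem FJP.ext (p : Γ →* Γ') (h : FJP P Γ')
    (h' : ∀ B : Subgroup Γ', IsVC B → FJP P (B.comap p)) : FJP P Γ := by
  intro G₀ _ T hT G _ i f H
  exact h G₀ T hT G i (p.comp f) fun B hB => (h' B hB).comap T hT i f H

theorem FJP.loc (h : ∀ K : Subgroup Γ, K.FG → FJP P K) : FJP P Γ := by
  intro G₀ _ T hT G _ i f H
  exact T.loc fun K hK => T.le (Subgroup.le_comap_map f K) ((h _ (FJc_fg hK f)).comap T hT i f H)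

theorem FJP.flow {Fam : Set (Subgroup Γ)} (hP : HasPack Γ Fam)
    (hc : ∀ (B : Subgroup Γ) (φ : B →* MZ), (∀ g, φ g = 1 → IsOfFinOrder g) → FJP P B)
    (hF : ∀ B ∈ Fam, FJP P B) : FJP P Γ := by
  intro G₀ _ T hT G _ i f H
  exact T.flow hP f (fun B φ hφ => (hc B φ hφ).comap T hT i f H)
    fun B hB => (hF B hB).comap T hT i f H

theorem FJ.fh (N : ℕ)
    (h : ∀ (r : ℕ) (S₀ : Finset Γ) (π : ℕ), π.Prime → FHD (fun K => FJ K) N r S₀ π) : FJ Γ := by
  intro G₀ _ T hT G _ i f H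
  classical
  exact hT.fh (T.sub' (1 : PUnit.{1} →* (⊥ : Subgroup Γ).comap f)
    (fun _ _ _ => rfl) (fun _ => (map_one _).symm) (H ⊥ IsVC.of_finite)) N G i
    fun r S₀ π hπ => (h r (S₀.image f) π hπ).pull f
      (fun _ hg => Finset.mem_image_of_mem f hg) fun _ hK => hK.comap T hT i f H

theorem FJ.gl {A : Type} [CommRing A] {n : ℕ} (f : Γ →* GL (Fin n) A)
    (h : ∀ (H : Subgroup Γ) (φ : H →* MZ), (∀ g : H, φ g = 1 → QU (f g).val) → FJ H) :
    FJ Γ := by
  intro G₀ _ T hT G _ i p H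
  refine hT.gl (f.comp p) fun K φ hφ =>
    T.le (Subgroup.le_comap_map p K) (FJP.comap ?_ T hT i p H)
  by_cases hk : (p.subgroupMap K).ker ≤ φ.ker
  · have hs := p.subgroupMap_surjective K
    refine h _ ((p.subgroupMap K).liftOfSurjective hs ⟨φ, hk⟩) fun g hg => ?_
    obtain ⟨x, rfl⟩ := hs g
    rw [MonoidHom.liftOfRightInverse_comp_apply] at hg
    exact hφ x hg
  · obtain ⟨y, hy, hy'⟩ := SetLike.not_le_iff_exists.1 hk
    have e : p y = 1 := congrArg Subtype.val hy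
    refine h _ 1 ?_
    rintro ⟨_, x, hx, rfl⟩ -
    refine FJc_qu (a := (φ y).toAdd) hy' ?_
    have := hφ ((⟨x, hx⟩ : K) ^ (φ y).toAdd * y ^ (-(φ ⟨x, hx⟩).toAdd)) (by
      apply Multiplicative.toAdd.injective
      simp [mul_comm])
    simpa [e] using this

theorem vc_map (q : Γ →* Γ') (B : Subgroup Γ) (h : IsVC B) : IsVC (B.map q) := by
  obtain ⟨φ, hφ⟩ := h
  have hs := q.subgroupMap_surjective B
  by_cases hk : (q.subgroupMap B).ker ≤ φ.ker
  · refine ⟨(q.subgroupMap B).liftOfSurjective hs ⟨φ, hk⟩, ?_⟩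
    refine Finite.of_surjective (α := φ.ker) (fun x => ⟨q.subgroupMap B x.1, ?_⟩) ?_
    · rw [MonoidHom.mem_ker, MonoidHom.liftOfRightInverse_comp_apply]
      exact x.2
    · rintro ⟨y, hy⟩
      obtain ⟨x, rfl⟩ := hs y
      rw [MonoidHom.mem_ker, MonoidHom.liftOfRightInverse_comp_apply] at hy
      exact ⟨⟨x, hy⟩, rfl⟩
  · obtain ⟨y, hy, hy'⟩ := SetLike.not_le_iff_exists.1 hk
    have h0 : (φ y).toAdd ≠ 0 := hy'
    have : Finite (B.map q) := by
      have hb := (vc_ball φ hφ (|(φ y).toAdd| : ℤ)).to_subtype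
      refine Finite.of_surjective (α := {g | |dg φ g| ≤ ((|(φ y).toAdd| : ℤ) : ℝ)})
        (fun x => q.subgroupMap B x.1) fun z => ?_
      obtain ⟨x, rfl⟩ := hs z
      refine ⟨⟨x * y ^ (-((φ x).toAdd / (φ y).toAdd)), ?_⟩, ?_⟩
      · have e : (φ (x * y ^ (-((φ x).toAdd / (φ y).toAdd)))).toAdd =
            (φ x).toAdd % (φ y).toAdd := by
          rw [map_mul, map_zpow, toAdd_mul, toAdd_zpow, Int.emod_def, smul_eq_mul]
          ring
        change |(((φ _).toAdd : ℤ) : ℝ)| ≤ _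
        rw [e, ← Int.cast_abs, Int.cast_le, abs_of_nonneg (Int.emod_nonneg _ h0)]
        exact (Int.emod_lt_abs _ h0).le
      · change q.subgroupMap B (x * y ^ _) = _
        rw [map_mul, map_zpow, show q.subgroupMap B y = 1 from hy, one_zpow, mul_one]
    exact IsVC.of_finite

theorem FJ.colim (h : ∀ S : Finset Γ, ∃ (Δ Δ' : Type) (_ : Group Δ) (_ : Group Δ') (J : Γ →* Δ)
      (q : Δ' →* Δ) (s : Δ → Δ') (M : Set Δ), Injective J ∧ (∀ g ∈ S, J g ∈ M) ∧
      (∀ x ∈ M, q (s x) = x) ∧ (∀ x ∈ M, ∀ y ∈ M, x * y ∈ M → s (x * y) = s x * s y) ∧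
      (∀ z, q z = 1 → IsOfFinOrder z → z = 1) ∧ FJ Δ') : FJ Γ := by
  intro G₀ _ T hT G _ i f H
  classical
  refine hT.colim fun S => ?_
  obtain ⟨Δ, Δ', _, _, J, q, s, M, hJ, hS, h1, h2, h3, h4⟩ := h (S.image f)
  have hM : ∀ g ∈ S, J (f g) ∈ M := fun g hg => hS _ (Finset.mem_image_of_mem f hg)
  let G' : Subgroup (G × Δ') :=
    ((J.comp f).comp (MonoidHom.fst _ _)).eqLocus (q.comp (MonoidHom.snd _ _))
  refine ⟨G', inferInstance, (MonoidHom.fst _ _).comp G'.subtype,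
    fun g => if hg : g ∈ S then ⟨(g, s (J (f g))), (h1 _ (hM g hg)).symm⟩ else 1,
    fun g hg => by simp only [dif_pos hg]; rfl, fun g hg g' hg' hm => ?_, ?_⟩
  · simp only [dif_pos hg, dif_pos hg', dif_pos hm]
    refine Subtype.ext (Prod.ext rfl ?_)
    change s (J (f (g * g'))) = s (J (f g)) * s (J (f g'))
    have h5 := hM _ hm
    rw [map_mul, map_mul] at h5 ⊢
    exact h2 _ (hM g hg) _ (hM g' hg') h5
  refine h4 G₀ T hT G' _ ((MonoidHom.snd _ _).comp G'.subtype) fun B hB => ?_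
  have hC : IsVC ((B.map q).comap J) := (vc_map q B hB).sub (J.subgroupComap _)
    fun x y e => Subtype.ext (hJ (congrArg Subtype.val e))
  obtain ⟨φ, hφ⟩ := hB
  let p := ((MonoidHom.snd _ _).comp G'.subtype).subgroupComap B
  refine T.sub' (MonoidHom.prod ((((MonoidHom.fst _ _).comp G'.subtype).comp
    (Subgroup.subtype _)).codRestrict (((B.map q).comap J).comap f)
      fun x => ⟨x.1.1.2, x.2, x.1.2.symm⟩) (φ.comp p))
    ((injective_iff_map_eq_one _).2 fun x hx => ?_) (fun _ => rfl) (hT.prodZ (H _ hC))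
  have e1 : x.1.1.1 = 1 := congrArg (fun z => z.1.1) hx
  have e2 : φ (p x) = 1 := congrArg Prod.snd hx
  have e3 : q x.1.1.2 = 1 := by
    have h5 : J (f x.1.1.1) = q x.1.1.2 := x.1.2
    rw [← h5, e1, map_one, map_one]
  have e4 : IsOfFinOrder (⟨p x, e2⟩ : φ.ker) := isOfFinOrder_of_finite _
  exact Subtype.ext (Subtype.ext (Prod.ext e1
    (h3 _ e3 ((B.subtype.comp φ.ker.subtype).isOfFinOrder e4))))

end Pool.Agent.MP_f7db47_al.VD

end

section

/-!
Virtually abelian groups.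
-/

namespace Pool.Agent.MP_f7db47_al.VD

open GN GF VC Function

variable {P : Cls}

theorem fj_wr (ι : Type) [Fintype ι] : FJP P (Wr ι) := by
  refine FJP.flow (wr_pack ι) (fun B φ h => FJP.of_vc ⟨φ, ?_⟩) fun B hB => hB.elim
  refine Finite.of_injective (((Vab_perm ι).comp B.subtype).comp φ.ker.subtype)
    ((injective_iff_map_eq_one _).2 fun x hx => Subtype.ext (Subtype.ext ?_))
  exact Vab_tors hx (B.subtype.isOfFinOrder (h x.1 x.2))

theorem fj_vab {Γ : Type} [Group Γ] (U : Subgroup Γ) (hU : U.FiniteIndex)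
    (hc : ∀ a ∈ U, ∀ b ∈ U, a * b = b * a) : FJP P Γ := by
  refine FJP.loc fun K hK => ?_
  have : Group.FG K := (Group.fg_iff_subgroup_fg K).2 hK
  obtain ⟨V, n, θ, hV, hθ, hn⟩ := Vab_ab (M := U.subgroupOf K) inferInstance
    fun a b => Subtype.ext (Subtype.ext (hc _ a.2 _ b.2))
  let e := V.equivMapOfInjective _ (U.subgroupOf K).subtype_injective
  have : (V.map (U.subgroupOf K).subtype).FiniteIndex := ⟨by
    rw [Subgroup.index_map_subtype]
    exact mul_ne_zero hV.index_ne_zero Subgroup.FiniteIndex.index_ne_zero⟩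
  obtain ⟨j, hj⟩ := exists_wr _ (θ.comp e.symm.toMonoidHom) (hθ.comp e.symm.injective) hn
  have := Fintype.ofFinite ((K ⧸ V.map (U.subgroupOf K).subtype) × Fin n)
  exact FJP.sub j hj (fj_wr _)

end Pool.Agent.MP_f7db47_al.VD

end

section

/-!
Extensions with torsion free abelian kernel of finite rank.
-/

namespace Pool.Agent.MP_f7db47_al.VD

open GN GF VC

section

open Matrix

theorem Aff_ker {V ι : Type} [Group V] [Fintype ι] [DecidableEq ι] {Z : Subring ℚ}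
    (L : V →* GLZ Z ι) (ψ : V →* MZ) (hψ : Finite ψ.ker) : FJ (ψ.comp (Aff.lin L)).ker := by
  let φ : (ψ.comp (Aff.lin L)).ker →* ψ.ker :=
    ((Aff.lin L).comp (ψ.comp (Aff.lin L)).ker.subtype).codRestrict ψ.ker fun x => x.2
  refine fj_vab φ.ker inferInstance fun a ha b hb => Subtype.ext ?_
  have ha' : a.1.g = 1 := congrArg Subtype.val ha
  have hb' : b.1.g = 1 := congrArg Subtype.val hb
  refine Aff.ext ?_ ?_
  · change (a.1 * b.1).a = (b.1 * a.1).a
    rw [Aff.mul_a, Aff.mul_a, ha', hb', Aff.mulVec_one, Aff.mulVec_one, add_comm]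
  · change (a.1 * b.1).g = (b.1 * a.1).g
    rw [Aff.mul_g, Aff.mul_g, ha', hb']

theorem fj_aff {q : ℕ} (hq : 0 < q) {V ι : Type} [Group V] [Fintype ι] [DecidableEq ι]
    (L : V →* GLZ (ZQ q) ι) (ψ : V →* MZ) (hψ : Finite ψ.ker)
    (h : ∀ g, ψ g ≠ 1 → ((L g).1.val - 1).det ≠ 0) : FJ (Aff L) := by
  classical
  obtain ⟨N, hN⟩ := aff_deep hq L ψ hψ
  refine FJ.fh (max N 2) fun r S₀ π hπ => ?_
  obtain ⟨l₀, hl₀, hcirc⟩ := circle (ψ.comp (Aff.lin L)) r S₀
  obtain ⟨c, hc⟩ := gl_card ι π hπ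
  obtain ⟨T, hT, horb⟩ := orb_abs ψ hψ π hπ c l₀
  obtain ⟨p₁, hp₁⟩ := red_ne (T.image fun g => ((L g).1.val - 1).det) (by
    intro a ha
    obtain ⟨g, hg, rfl⟩ := Finset.mem_image.1 ha
    exact h g (hT g hg))
  obtain ⟨p₀, hp₀⟩ := hN r S₀
  obtain ⟨p, hp, hle, hcard⟩ := hc (max (max p₀ p₁) (q + 1))
  have : Fact p.Prime := ⟨hp⟩
  have hpq : ¬ p ∣ q := fun hd => by
    have := Nat.le_of_dvd hq hd
    omega
  obtain ⟨f, -, hf⟩ := exists_redL L hpq
  obtain ⟨σ₀, hσ₀⟩ := exists_act L hpq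
  obtain ⟨s, l, hl, hbad⟩ := horb (GL ι (ZMod p)) f (fun x => (x.val - 1).det = 0) hcard
    Aff_bad fun g hg => by
      rw [hf]
      exact hp₁ p (by omega) _ (Finset.mem_image_of_mem _ hg)
  choose σ hσ hσ' using fun i => hcirc (l i) (hl i).1
  refine ⟨s, ι → ZMod p, inferInstance, σ₀, fun i => ZMod (l i), fun i => ?_, σ,
    (hp₀ p (by omega) hpq σ₀ hσ₀).mono (fun K hK => FJP.of_vc hK) (le_max_left _ _),
    fun i => (hσ' i).mono (fun K hK => FJP.le hK (Aff_ker L ψ hψ)) (le_max_right _ _),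
    fun i => ?_, fun g => ?_⟩
  · have : NeZero (l i) := ⟨by have := (hl i).1; omega⟩
    infer_instance
  · rw [Nat.card_zmod]
    exact (hl i).2
  · by_cases hb : ((f g.g).val - 1).det = 0
    · obtain ⟨i, hi⟩ := hbad g.g hb
      exact Or.inr ⟨i, hσ i g hi⟩
    · rw [hf] at hb
      exact Or.inl (act_fix L hpq hσ₀ g hb)

end

open Function

theorem lin_ker {Γ U : Type} [Group Γ] [AddCommGroup U] [Module ℚ U] (D : Lin Γ U) :
    FJ D.ψ.ker :=
  fj_vab (D.A.subgroupOf D.ψ.ker) ⟨D.idx⟩ fun _ ha _ hb => Subtype.ext (D.comm ha hb)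

theorem lin_hyp {Γ U : Type} [Group Γ] [AddCommGroup U] [Module ℚ U] (D : Lin Γ U)
    [FiniteDimensional ℚ U]
    (h : ∀ g, D.ψ g ≠ 1 → ∀ u, D.L g u = u → u = 0) : FJ Γ := by
  classical
  by_cases h0 : ∀ g, D.ψ g = 1
  · exact FJP.sub ((MonoidHom.id Γ).codRestrict D.ψ.ker h0)
      (fun _ _ e => congrArg Subtype.val e) (lin_ker D)
  obtain ⟨g, hg⟩ := not_forall.1 h0
  obtain ⟨m, hm, hc⟩ := D.central
  have h1 : D.ψ (g ^ m) ≠ 1 := fun e => hg (by
    have e1 := congrArg Multiplicative.toAdd e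
    rw [map_pow, toAdd_pow, toAdd_one, smul_eq_zero_iff_right hm.ne'] at e1
    exact toAdd_eq_zero.1 e1)
  have h2 : Injective ((D.L (g ^ m) : U →ₗ[ℚ] U) - LinearMap.id : U →ₗ[ℚ] U) :=
    (injective_iff_map_eq_zero _).2 fun u hu => h _ h1 u (sub_eq_zero.1 hu)
  obtain ⟨b, b1, b2⟩ := D.cocycle (hc g) ⟨h2, LinearMap.injective_iff_surjective.1 h2⟩
  have b0 : b 1 = 0 := by rw [b2 1 D.A.one_mem, D.e_one]
  have := D.normal
  let B := Module.finBasis ℚ U
  let L := QuotientGroup.lift D.A (Hyp_mat D B) fun a ha => Units.ext (by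
    change LinearMap.toMatrix B B (D.L a : U →ₗ[ℚ] U) = 1
    rw [D.triv a ha, LinearEquiv.coe_toLinearMap_one, LinearMap.toMatrix_id])
  let ψ := QuotientGroup.lift D.A D.ψ D.le
  have hψ : (ψ.ker : Set (Γ ⧸ D.A)).Finite := by
    have : Finite (D.ψ.ker ⧸ D.A.subgroupOf D.ψ.ker) := Nat.finite_of_card_ne_zero D.idx
    refine (Set.finite_range fun x : D.ψ.ker ⧸ D.A.subgroupOf D.ψ.ker =>
      (QuotientGroup.mk x.out.1 : Γ ⧸ D.A)).subset fun y hy => ?_
    obtain ⟨γ, rfl⟩ := QuotientGroup.mk_surjective y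
    refine ⟨QuotientGroup.mk ⟨γ, hy⟩, QuotientGroup.eq.2 ?_⟩
    exact Subgroup.mem_subgroupOf.1 (QuotientGroup.eq.1 (QuotientGroup.out_eq'
      (QuotientGroup.mk ⟨γ, hy⟩ : D.ψ.ker ⧸ D.A.subgroupOf D.ψ.ker)))
  refine FJP.loc fun K hK => ?_
  obtain ⟨F, hF⟩ := BMain_land ((Group.fg_iff_subgroup_fg K).2 hK) ((Hyp_mat D B).comp K.subtype)
  obtain ⟨S, hS⟩ := hK
  obtain ⟨q, hq, hZ⟩ := exists_ZQ (F ∪ (S ×ˢ Finset.univ).image fun p => B.repr (b p.1) p.2)
  have hL : ∀ γ ∈ K, Hyp_mat D B γ ∈ GLZ (ZQ q) _ := fun γ hγ =>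
    hF _ (fun a ha => hZ a (Finset.mem_union_left _ ha)) ⟨γ, hγ⟩
  have hv : ∀ γ ∈ K, ∀ u, (∀ i, B.repr u i ∈ ZQ q) → ∀ i, B.repr (D.L γ u) i ∈ ZQ q :=
    fun γ hγ u hu i => by
      rw [← Hyp_mat_mulVec]
      exact (ZQ q).sum_mem (t := Finset.univ) fun j _ => mul_mem ((hL γ hγ).1 i j) (hu j)
  have hb : ∀ γ ∈ K, ∀ i, B.repr (b γ) i ∈ ZQ q := by
    intro γ hγ
    rw [← hS] at hγ hv
    induction hγ using Subgroup.closure_induction with
    | mem x hx =>
      exact fun i => hZ _ (Finset.mem_union_right _ (Finset.mem_image.2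
        ⟨(x, i), Finset.mem_product.2 ⟨hx, Finset.mem_univ _⟩, rfl⟩))
    | one =>
      intro i
      rw [b0, map_zero]
      exact zero_mem _
    | mul x y hx _ ihx ihy =>
      intro i
      rw [b1, map_add]
      exact add_mem (ihx i) (hv x hx _ ihy i)
    | inv x hx ih =>
      intro i
      have e := b1 x⁻¹ x
      rw [inv_mul_cancel, b0, eq_comm, add_eq_zero_iff_eq_neg] at e
      rw [e, map_neg]
      exact neg_mem (hv _ (inv_mem hx) _ ih i)
  let V := K.map (QuotientGroup.mk' D.A)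
  let L' : V →* GLZ (ZQ q) _ := (L.comp V.subtype).codRestrict _ (by
    rintro ⟨_, γ, hγ, rfl⟩
    exact hL γ hγ)
  let j : K →* Aff L' := MonoidHom.mk'
    (fun γ => ⟨B.repr (b γ), hb γ γ.2, ⟨QuotientGroup.mk γ.1, γ.1, γ.2, rfl⟩⟩) fun γ δ =>
      Aff.ext (by
        change ⇑(B.repr (b (γ * δ))) = B.repr (b γ) + (Hyp_mat D B γ).val.mulVec (B.repr (b δ))
        rw [Hyp_mat_mulVec, b1, map_add]
        rfl) rfl
  refine FJP.sub j ((injective_iff_map_eq_one j).2 fun γ e => ?_)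
    (fj_aff hq L' (ψ.comp V.subtype) ?_ ?_)
  · have e1 : γ.1 ∈ D.A := (QuotientGroup.eq_one_iff _).1 (congrArg (fun x => x.g.1) e)
    have e2 : B.repr (b γ) = 0 := DFunLike.coe_injective (congrArg Aff.a e)
    rw [map_eq_zero_iff _ B.repr.injective, b2 _ e1] at e2
    exact Subtype.ext (D.inj _ e1 e2)
  · have := hψ.to_subtype
    exact Finite.of_injective (fun x : (ψ.comp V.subtype).ker => (⟨x.1.1, x.2⟩ : ψ.ker))
      fun x y e => Subtype.ext (Subtype.ext (Subtype.mk.inj e))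
  · rintro ⟨_, γ, hγ, rfl⟩ e
    exact Hyp_det D B (h γ e)

theorem Lin3_top {Γ U : Type} [Group Γ] [AddCommGroup U] [Module ℚ U] (D : Lin Γ U) {t : Γ}
    (h1 : D.ψ t ≠ 1) (ht : ∀ γ, t * γ * t⁻¹ * γ⁻¹ ∈ D.A) (hL : ∀ u, D.L t u = u) : FJ Γ := by
  have := D.normal
  have hc : ∀ a ∈ D.A, Commute t a := fun a ha => by
    have := D.e_inj (D.normal.conj_mem a ha t) ha (by rw [D.conj t a ha, hL])
    exact mul_inv_eq_iff_eq_mul.1 this
  have hq : ∀ γ : Γ ⧸ D.A, Commute (QuotientGroup.mk' D.A t) γ := fun γ => by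
    obtain ⟨γ, rfl⟩ := QuotientGroup.mk'_surjective D.A γ
    have : QuotientGroup.mk' D.A (t * γ * t⁻¹ * γ⁻¹) = 1 := (QuotientGroup.eq_one_iff _).2 (ht γ)
    rw [map_mul, map_mul, map_mul, map_inv, map_inv] at this
    exact commutatorElement_eq_one_iff_commute.1 this
  have hn : (Subgroup.zpowers (QuotientGroup.mk' D.A t)).Normal := ⟨by
    rintro _ ⟨n, rfl⟩ g
    refine ⟨n, ?_⟩
    simp only
    rw [← ((hq g).zpow_left n).eq, mul_inv_cancel_right]⟩
  set H := (Subgroup.zpowers (QuotientGroup.mk' D.A t)).comap (QuotientGroup.mk' D.A) with hH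
  have hm : ∀ x, x ∈ H ↔ ∃ n : ℤ, (t ^ n)⁻¹ * x ∈ D.A := fun x => by
    rw [hH, Subgroup.mem_comap, Subgroup.mem_zpowers_iff]
    refine exists_congr fun n => ?_
    rw [← map_zpow]
    exact QuotientGroup.eq
  have hAH : D.A ≤ H := fun a ha => (hm a).2 ⟨0, by simpa using ha⟩
  refine fj_vab H ⟨?_⟩ ?_
  · have e1 : H.relIndex D.ψ.ker ≠ 0 :=
      ne_zero_of_dvd_ne_zero D.idx (Subgroup.relIndex_dvd_of_le_left _ hAH)
    have e2 : ((Subgroup.zpowers (D.ψ t)).comap D.ψ).index ≠ 0 := by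
      rw [Subgroup.index_comap]
      have : (Subgroup.zpowers (D.ψ t)).FiniteIndex := ⟨Lin3_zp _ h1⟩
      exact Subgroup.FiniteIndex.index_ne_zero (H := Subgroup.subgroupOf _ _)
    have e3 : (Subgroup.zpowers (D.ψ t)).comap D.ψ ≤ D.ψ.ker ⊔ H := by
      rintro x ⟨n, hn⟩
      have : x = (x * (t ^ n)⁻¹) * t ^ n := by group
      rw [this]
      refine Subgroup.mul_mem_sup ?_ ((hm _).2 ⟨n, by simp⟩)
      rw [MonoidHom.mem_ker, map_mul, map_inv, map_zpow, ← hn]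
      simp
    rw [← Subgroup.relIndex_mul_index (le_sup_right : H ≤ D.ψ.ker ⊔ H),
      Subgroup.relIndex_sup_right]
    exact mul_ne_zero e1 (ne_zero_of_dvd_ne_zero e2 (Subgroup.index_dvd_of_le e3))
  · intro x hx y hy
    obtain ⟨n, hn⟩ := (hm x).1 hx
    obtain ⟨k, hk⟩ := (hm y).1 hy
    have ex : x = t ^ n * ((t ^ n)⁻¹ * x) := by group
    have ey : y = t ^ k * ((t ^ k)⁻¹ * y) := by group
    have : Commute (t ^ n * ((t ^ n)⁻¹ * x)) (t ^ k * ((t ^ k)⁻¹ * y)) :=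
      Commute.mul_left
        (Commute.mul_right ((Commute.refl t).zpow_zpow n k) ((hc _ hk).zpow_left n))
        (Commute.mul_right ((hc _ hn).zpow_left k).symm (D.comm hn hk))
    rw [← ex, ← ey] at this
    exact this

theorem Lin3_ind (n : ℕ) : ∀ (Γ U : Type) [Group Γ] [AddCommGroup U] [Module ℚ U]
    [FiniteDimensional ℚ U], Lin Γ U → Module.finrank ℚ U = n → FJ Γ := by
  induction n using Nat.strong_induction_on with
  | _ n ih =>
  intro Γ U _ _ _ _ D hn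
  by_cases h : ∀ g, D.ψ g ≠ 1 → ∀ u, D.L g u = u → u = 0
  · exact lin_hyp D h
  push Not at h
  obtain ⟨g, hg, u, hu, hu0⟩ := h
  obtain ⟨m, hm, hc⟩ := D.central
  have h1 : D.ψ (g ^ m) ≠ 1 := by
    rw [map_pow]
    intro h
    apply hg
    have := congrArg Multiplicative.toAdd h
    simp only [toAdd_pow, toAdd_one, nsmul_eq_mul, mul_eq_zero, Nat.cast_eq_zero] at this
    exact this.resolve_left hm.ne'
  have hcm : ∀ γ v, D.L (g ^ m) (D.L γ v) = D.L γ (D.L (g ^ m) v) := fun γ v => by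
    have h2 := D.triv _ (hc g γ)
    rw [map_mul, map_mul, map_mul, map_inv, map_inv] at h2
    have h3 : Commute (D.L (g ^ m)) (D.L γ) := commutatorElement_eq_one_iff_commute.1 h2
    exact congrArg (fun f : U ≃ₗ[ℚ] U => f v) h3.eq
  let W : Submodule ℚ U := LinearMap.eqLocus (D.L (g ^ m)).toLinearMap LinearMap.id
  have mW : ∀ v, v ∈ W ↔ D.L (g ^ m) v = v := fun v => Iff.rfl
  have hW : ∀ γ, ∀ v ∈ W, D.L γ v ∈ W := fun γ v hv => by
    rw [mW] at hv ⊢
    rw [hcm, hv]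
  have huW : u ∈ W := by
    rw [mW]
    clear h1 hcm hW mW hc hm W
    induction m with
    | zero => simp
    | succ k ihk => rw [pow_succ, map_mul, LinearEquiv.mul_apply, hu, ihk]
  by_cases hT : W = ⊤
  · exact Lin3_top D h1 (hc g) fun v => (mW v).1 (hT ▸ Submodule.mem_top)
  obtain ⟨Γ', _, p, hp, ⟨D'⟩⟩ := D.quot W hW
  have hpos : 0 < Module.finrank ℚ W :=
    Module.finrank_pos_iff_exists_ne_zero.2 ⟨⟨u, huW⟩, fun h => hu0 (congrArg Subtype.val h)⟩
  refine FJP.ext p (ih _ ?_ Γ' (U ⧸ W) D' rfl) fun B hB => ?_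
  · have := Submodule.finrank_quotient_add_finrank W
    omega
  · obtain ⟨D''⟩ := Lin3_res D W hW p hp B hB
    exact ih _ (hn ▸ Submodule.finrank_lt hT) _ W D'' rfl

theorem fj_lin_fin (Γ U : Type) [Group Γ] [AddCommGroup U] [Module ℚ U] [FiniteDimensional ℚ U]
    (D : Lin Γ U) : FJ Γ :=
  Lin3_ind _ Γ U D rfl

end Pool.Agent.MP_f7db47_al.VD

end

section

/-!
Wreath products.
-/

namespace Pool.Agent.MP_f7db47_al.VD

open GN GF VC Function

namespace WrG

variable {H H' X Y Z Γ : Type} [Group H] [Group H'] [Group Γ]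

/-- Functoriality. -/
def map (f : H →* H') (Y : Type) : WrG H Y →* WrG H' Y :=
  MonoidHom.mk' (fun x => ⟨fun y => f (x.b y), x.σ⟩) fun x y =>
    WrG.ext (funext fun i => map_mul f _ _) rfl

/-- The permutation part. -/
def perm (H Y : Type) [Group H] : WrG H Y →* Equiv.Perm Y :=
  MonoidHom.mk' WrG.σ fun _ _ => rfl

/-- The coordinates on the base group. -/
def co (y : Y) : (perm H Y).ker →* H :=
  MonoidHom.mk' (fun x => x.1.b y) fun x x' => by
    have h : x.1.σ = 1 := x.2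
    change (x.1 * x'.1).b y = _
    rw [mul_b, h, inv_one, Equiv.Perm.one_apply]

theorem map_inj {f : H →* H'} (hf : Injective f) : Injective (map f Y) :=
  fun _ _ e => WrG.ext (funext fun y => hf (congrArg (fun z => z.b y) e))
    (congrArg (fun z : WrG H' Y => z.σ) e)

/-- Iterated wreath products. -/
def assoc (H X Y : Type) [Group H] : WrG (WrG H X) Y →* WrG H (Y × X) :=
  MonoidHom.mk' (fun x => ⟨fun p => (x.b p.1).b p.2,
    Equiv.prodShear x.σ fun y => (x.b (x.σ y)).σ⟩) fun x y => by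
    refine WrG.ext (funext fun p => ?_) (Equiv.ext fun p => ?_)
    · simp [mul_b, Equiv.Perm.inv_def, Equiv.prodShear]
    · simp [mul_b, mul_σ, Equiv.prodShear]

theorem assoc_inj [Nonempty X] : Injective (assoc H X Y) := by
  refine (injective_iff_map_eq_one _).2 fun x hx => ?_
  obtain ⟨z₀⟩ := ‹Nonempty X›
  have h1 : x.σ = 1 := Equiv.ext fun y => congrArg (fun w : WrG H (Y × X) => (w.σ (y, z₀)).1) hx
  refine WrG.ext (funext fun y => WrG.ext (funext fun z => ?_) (Equiv.ext fun z => ?_)) h1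
  · exact congrArg (fun w : WrG H (Y × X) => w.b (y, z)) hx
  · have h2 : (x.b (x.σ y)).σ z = z := congrArg (fun w : WrG H (Y × X) => (w.σ (y, z)).2) hx
    rwa [h1] at h2

/-- Induction from a subgroup. -/
def ind (U : Subgroup Γ) (σ : Γ →* Equiv.Perm X) (s : X → Γ)
    (h : ∀ g x, (s x)⁻¹ * g * s ((σ g)⁻¹ x) ∈ U) (θ : U →* (Z → H)) : Γ →* WrG H (X × Z) :=
  MonoidHom.mk' (fun g => ⟨fun p => θ ⟨_, h g p.1⟩ p.2, Equiv.prodCongr (σ g) (Equiv.refl _)⟩)
    fun g g' => by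
    refine WrG.ext (funext fun p => ?_) (Equiv.ext fun p => ?_)
    · have e : (⟨_, h (g * g') p.1⟩ : U) = ⟨_, h g p.1⟩ * ⟨_, h g' ((σ g)⁻¹ p.1)⟩ :=
        Subtype.ext (by
          simp only [Subgroup.coe_mul, map_mul, mul_inv_rev, Equiv.Perm.mul_apply, mul_assoc,
            mul_inv_cancel_left])
      change θ ⟨_, h (g * g') p.1⟩ p.2 = _
      rw [e, map_mul]
      rfl
    · change Prod.map (σ (g * g')) id p = _
      rw [map_mul]
      rfl

theorem ind_ker [Nonempty Z] {U : Subgroup Γ} {σ : Γ →* Equiv.Perm X} {s : X → Γ}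
    {h : ∀ g x, (s x)⁻¹ * g * s ((σ g)⁻¹ x) ∈ U} {θ : U →* (Z → H)} {g : Γ}
    (hg : ind U σ s h θ g = 1) (x : X) : ∃ hx : (s x)⁻¹ * g * s x ∈ U, θ ⟨_, hx⟩ = 1 := by
  obtain ⟨z₀⟩ := ‹Nonempty Z›
  have h1 : σ g = 1 := Equiv.ext fun y => congrArg (fun w : WrG H (X × Z) => (w.σ (y, z₀)).1) hg
  have h2 : θ ⟨_, h g x⟩ = 1 := funext fun z => congrArg (fun w : WrG H (X × Z) => w.b (x, z)) hg
  have h3 := h g x
  have e : (s x)⁻¹ * g * s ((σ g)⁻¹ x) = (s x)⁻¹ * g * s x := by rw [h1]; rfl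
  refine ⟨e ▸ h3, ?_⟩
  rw [← h2]
  congr 2
  exact e.symm

end WrG

theorem FJ.gl' {Γ A M : Type} [Group Γ] [CommRing A] [AddCommGroup M] [Module A M]
    [Module.Free A M] [Module.Finite A M] (ρ : Γ →* Module.End A M)
    (h : ∀ (H : Subgroup Γ) (φ : H →* MZ),
      (∀ g : H, φ g = 1 → ∃ m : ℕ, 0 < m ∧ IsNilpotent (ρ g ^ m - 1)) → FJ H) : FJ Γ := by
  classical
  cases subsingleton_or_nontrivial A
  · have : Subsingleton M := Module.subsingleton A M
    exact (h ⊤ 1 fun g _ => ⟨1, one_pos, 0, Subsingleton.elim _ _⟩).sub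
      Subgroup.topEquiv.symm.toMonoidHom (MulEquiv.injective _)
  let e := LinearMap.toMatrixAlgEquiv (Module.finBasis A M)
  refine FJ.gl (e.toMonoidHom.comp ρ).toHomUnits fun H φ hφ => h H φ fun g hg => ?_
  obtain ⟨m, hm, h1⟩ := hφ g hg
  refine ⟨m, hm, (IsNilpotent.map_iff (f := e) e.injective).1 ?_⟩
  rw [map_sub, map_pow, map_one]
  exact h1

/-- The induced representation. -/
noncomputable def indRep {E A : Type} [Group E] [CommRing A] {n : ℕ} (f : E →* GL (Fin n) A)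
    (Y : Type) : WrG E Y →* Module.End A (Y → Fin n → A) where
  toFun x := LinearMap.pi fun y => (Matrix.toLin' (f (x.b y)).val).comp (LinearMap.proj (x.σ⁻¹ y))
  map_one' := by
    refine LinearMap.ext fun v => funext fun y => ?_
    simp [WrG.one_b, WrG.one_σ]
  map_mul' x x' := by
    refine LinearMap.ext fun v => funext fun y => ?_
    simp [WrG.mul_b, WrG.mul_σ]

theorem indRep_qu {E A Y : Type} [Group E] [CommRing A] {n : ℕ} (f : E →* GL (Fin n) A)
    (x : (WrG.perm E Y).ker) (h : ∃ m : ℕ, 0 < m ∧ IsNilpotent (indRep f Y x ^ m - 1)) (y : Y) :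
    QU (f (WrG.co y x)).val := by
  classical
  obtain ⟨m, hm, k, hk⟩ := h
  refine ⟨m, hm, k, ?_⟩
  rw [← map_pow, ← Subgroup.coe_pow] at hk
  rw [← Units.val_pow_eq_pow_val, ← map_pow, ← map_pow]
  generalize x ^ m = z at hk
  have h1 : z.1.σ = 1 := z.2
  have key : ∀ (j : ℕ) (v : Y → Fin n → A),
      ((indRep f Y z - 1) ^ j) v y = (((f (WrG.co y z)).val - 1) ^ j).mulVec (v y) := by
    intro j
    induction j with
    | zero => simp
    | succ j ih =>
      intro v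
      rw [pow_succ, pow_succ, Module.End.mul_apply, ih, ← Matrix.mulVec_mulVec, Matrix.sub_mulVec,
        Matrix.one_mulVec]
      congr 1
      change (f (z.1.b y)).val.mulVec (v (z.1.σ⁻¹ y)) - v y = _
      rw [h1]
      rfl
  refine Matrix.ext_of_mulVec_single fun i => ?_
  have h2 := key k (fun _ => Pi.single i 1)
  rw [hk] at h2
  rw [← h2, Matrix.zero_mulVec]
  rfl

theorem fj_wrG {E C A : Type} [Group E] [Group C] [CommRing A] {n : ℕ} (f : E →* GL (Fin n) A)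
    (π : E →* C) (hC : {c : C | IsOfFinOrder c}.Finite)
    (h : ∀ g, QU (f g).val → IsOfFinOrder (π g) ∧ (π g = 1 → g = 1)) (Y : Type) [Finite Y] :
    FJ (WrG E Y) := by
  refine FJ.gl' (indRep f Y) fun H φ hφ => FJP.of_vc ⟨φ, ?_⟩
  let j : φ.ker →* WrG E Y := H.subtype.comp φ.ker.subtype
  refine (MonoidHom.finite_iff_finite_ker_range ((WrG.perm E Y).comp j)).2 ⟨?_, inferInstance⟩
  have h1 := fun (x : ((WrG.perm E Y).comp j).ker) y =>
    h _ (indRep_qu f ⟨j x, x.2⟩ (hφ x.1.1 x.1.2) y)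
  have := hC.to_subtype
  let j' : ((WrG.perm E Y).comp j).ker →* (WrG.perm E Y).ker :=
    (j.comp (Subgroup.subtype _)).codRestrict _ fun x => x.2
  refine Finite.of_injective (fun x y => (⟨_, (h1 x y).1⟩ : {c : C | IsOfFinOrder c}))
    fun x x' e => ?_
  refine mul_inv_eq_one.1 (Subtype.ext (Subtype.ext (Subtype.ext
    (WrG.ext (funext fun y => (h1 _ y).2 ?_) (x * x'⁻¹).2))))
  have e1 : π (WrG.co y (j' x)) = π (WrG.co y (j' x')) := congrArg Subtype.val (congrFun e y)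
  change π (WrG.co y (j' (x * x'⁻¹))) = 1
  rw [map_mul, map_mul, map_mul, map_inv, map_inv, map_inv, e1, mul_inv_cancel]

end Pool.Agent.MP_f7db47_al.VD

end

section

/-!
A representation of the free product of an abelian group with the integers.
-/

namespace Pool.Agent.MP_f7db47_al.VD

open GN GF VC Function Monoid Matrix

section

variable {C D : Type} [Group C] [Group D]

/-- The product of a list of pairs. -/
def wd (l : List (C × D)) : Coprod C D := (l.map fun p => Coprod.inl p.1 * Coprod.inr p.2).prod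

theorem wd_nil : wd ([] : List (C × D)) = 1 := rfl

theorem wd_cons (p : C × D) (l : List (C × D)) :
    wd (p :: l) = Coprod.inl p.1 * Coprod.inr p.2 * wd l := by simp [wd]

theorem wd_append (l l' : List (C × D)) : wd (l ++ l') = wd l * wd l' := by simp [wd]

theorem exists_wd (g : Coprod C D) : ∃ l, g = wd l := by
  induction g using Coprod.induction_on with
  | inl c => exact ⟨[(c, 1)], by simp [wd]⟩
  | inr d => exact ⟨[(1, d)], by simp [wd]⟩
  | mul x y hx hy =>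
    obtain ⟨l, rfl⟩ := hx
    obtain ⟨l', rfl⟩ := hy
    exact ⟨_, (wd_append l l').symm⟩

theorem conj_swap {G : Type} [Group G] (a b : G) : IsConj (a * b) (b * a) :=
  isConj_iff.2 ⟨b, by group⟩

theorem wd_tri (n : ℕ) : ∀ l : List (C × D), l.length = n → (∃ c, IsConj (Coprod.inl c) (wd l)) ∨
    (∃ d, IsConj (Coprod.inr d) (wd l)) ∨
    ∃ l', l' ≠ [] ∧ (∀ p ∈ l', p.1 ≠ 1 ∧ p.2 ≠ 1) ∧ IsConj (wd l') (wd l) := by
  induction n using Nat.strong_induction_on with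
  | _ n ih =>
  intro l hl
  by_cases h : ∀ p ∈ l, p.1 ≠ 1 ∧ p.2 ≠ 1
  · by_cases h0 : l = []
    · exact Or.inl ⟨1, by rw [h0, wd_nil, map_one]⟩
    · exact Or.inr (Or.inr ⟨l, h0, h, IsConj.refl _⟩)
  obtain ⟨p, hp⟩ := not_forall.1 h
  obtain ⟨hp, hp'⟩ := Classical.not_imp.1 hp
  obtain ⟨l₁, l₂, rfl⟩ := List.append_of_mem hp
  have h1 : IsConj (wd (p :: (l₂ ++ l₁))) (wd (l₁ ++ p :: l₂)) := by
    rw [← List.cons_append, wd_append, wd_append]
    exact conj_swap _ _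
  have h2 : (l₂ ++ l₁).length + 1 = n := by
    rw [← hl]
    simp only [List.length_append, List.length_cons]
    omega
  generalize l₂ ++ l₁ = m at h1 h2
  have h3 : ∀ m' : List (C × D), m'.length < n → IsConj (wd m') (wd (p :: m)) →
      (∃ c, IsConj (Coprod.inl c) (wd (l₁ ++ p :: l₂))) ∨
      (∃ d, IsConj (Coprod.inr d) (wd (l₁ ++ p :: l₂))) ∨
      ∃ l', l' ≠ [] ∧ (∀ p ∈ l', p.1 ≠ 1 ∧ p.2 ≠ 1) ∧ IsConj (wd l') (wd (l₁ ++ p :: l₂)) :=
    fun m' hm hc => (ih _ hm m' rfl).imp (fun ⟨c, h⟩ => ⟨c, (h.trans hc).trans h1⟩)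
      (Or.imp (fun ⟨c, h⟩ => ⟨c, (h.trans hc).trans h1⟩)
        fun ⟨c, h, h', h''⟩ => ⟨c, h, h', (h''.trans hc).trans h1⟩)
  by_cases e1 : p.1 = 1
  · rcases List.eq_nil_or_concat m with rfl | ⟨m', a, rfl⟩
    · exact Or.inr (Or.inl ⟨p.2, by simpa [wd, e1] using h1⟩)
    · refine h3 (m' ++ [(a.1, a.2 * p.2)]) (by simp at h2 ⊢; omega) ?_
      rw [wd_cons, e1, map_one, one_mul]
      refine IsConj.trans (b := wd (m'.concat a) * Coprod.inr p.2) ?_ (conj_swap _ _)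
      rw [show wd (m' ++ [(a.1, a.2 * p.2)]) = wd (m'.concat a) * Coprod.inr p.2 by
        simp [wd, mul_assoc]]
  have e2 : p.2 = 1 := by_contra fun e2 => hp' ⟨e1, e2⟩
  rcases m with _ | ⟨a, m'⟩
  · exact Or.inl ⟨p.1, by simpa [wd, e2] using h1⟩
  · refine h3 ((p.1 * a.1, a.2) :: m') (by simp at h2 ⊢; omega) ?_
    rw [show wd ((p.1 * a.1, a.2) :: m') = wd (p :: a :: m') by simp [wd, e2, mul_assoc]]

end

section

variable {K Γ₀ : Type} [CommRing K] [LinearOrderedCommGroupWithZero Γ₀] (v : Valuation K Γ₀)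

/-- One column dominates. -/
def Big (j : Fin 2) (w : Matrix (Fin 2) (Fin 2) K) : Prop :=
  ∃ γ, 1 < γ ∧ (∀ i, v (w i j) = γ) ∧ ∀ i l, l ≠ j → v (w i l) < γ

variable {v} {M : Matrix (Fin 2) (Fin 2) K} {d : Fin 2 → K}

theorem Big.base (hM : ∀ i l, v (M i l) = 1) (hne : v (d 0) ≠ v (d 1))
    (h1 : 1 < max (v (d 0)) (v (d 1))) : ∃ j, Big v j (M * diagonal d) := by
  rcases lt_or_gt_of_ne hne with h | h
  · refine ⟨1, v (d 1), by rwa [max_eq_right h.le] at h1, fun i => by simp [hM], fun i l hl => ?_⟩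
    obtain rfl : l = 0 := by omega
    simpa [hM] using h
  · refine ⟨0, v (d 0), by rwa [max_eq_left h.le] at h1, fun i => by simp [hM], fun i l hl => ?_⟩
    obtain rfl : l = 1 := by omega
    simpa [hM] using h

theorem Big.step (hM : ∀ i l, v (M i l) = 1) (hne : v (d 0) ≠ v (d 1))
    (h1 : 1 < max (v (d 0)) (v (d 1))) {j : Fin 2} {w : Matrix (Fin 2) (Fin 2) K}
    (h : Big v j w) : Big v j (M * diagonal d * w) := by
  obtain ⟨γ, h2, h3, h4⟩ := h
  have h0 : 0 < γ := zero_lt_one.trans h2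
  have e : ∀ i l, (M * diagonal d * w) i l = M i 0 * d 0 * w 0 l + M i 1 * d 1 * w 1 l :=
    fun i l => by simp [Matrix.mul_apply (M := M * diagonal d)]
  refine ⟨max (v (d 0)) (v (d 1)) * γ, one_lt_mul_of_lt_of_le h1 h2.le, fun i => ?_,
    fun i l hl => ?_⟩
  · rw [e, v.map_add_of_distinct_val (by simpa [hM, h3, h0.ne'] using hne)]
    simp [hM, h3, max_mul]
  · rw [e]
    refine v.map_add_lt ?_ ?_
    · simp only [map_mul, hM, one_mul]
      exact mul_lt_mul_of_le_of_lt_of_nonneg_of_pos (le_max_left _ _) (h4 _ l hl) zero_le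
        (zero_lt_one.trans h1)
    · simp only [map_mul, hM, one_mul]
      exact mul_lt_mul_of_le_of_lt_of_nonneg_of_pos (le_max_right _ _) (h4 _ l hl) zero_le
        (zero_lt_one.trans h1)

theorem val_two : v 2 ≤ 1 := by
  rw [← one_add_one_eq_two]
  exact v.map_add_le (by simp) (by simp)

theorem Big.trace {j : Fin 2} {w : Matrix (Fin 2) (Fin 2) K} (h : Big v j w) : w.trace ≠ 2 := by
  obtain ⟨γ, h2, h3, h4⟩ := h
  intro e
  have h5 : v w.trace = γ := by
    rw [trace_fin_two]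
    fin_cases j
    · exact (v.map_add_eq_of_lt_left ((h4 1 1 (by simp)).trans_eq (h3 0).symm)).trans (h3 0)
    · exact (v.map_add_eq_of_lt_right ((h4 0 0 (by simp)).trans_eq (h3 1).symm)).trans (h3 1)
  rw [e] at h5
  exact absurd (h5 ▸ val_two) (not_le.2 h2)

end

/-- Matrices with eigenvalues `z` and `1`. -/
noncomputable def ell : ℂ →* Matrix (Fin 2) (Fin 2) ℂ where
  toFun z := !![(2 * z + 1) / 3, (z - 1) / 3; 2 * (z - 1) / 3, (z + 2) / 3]
  map_one' := by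
    ext i j
    fin_cases i <;> fin_cases j <;> norm_num
  map_mul' z w := by
    ext i j
    fin_cases i <;> fin_cases j <;> simp [Matrix.mul_apply] <;> ring

/-- Diagonal matrices. -/
noncomputable def hyp : MZ →* Matrix (Fin 2) (Fin 2) (RatFunc ℂ) where
  toFun n := diagonal ![RatFunc.X ^ n.toAdd, RatFunc.X ^ (-n.toAdd)]
  map_one' := by
    ext i j
    fin_cases i <;> fin_cases j <;> simp
  map_mul' z w := by
    rw [diagonal_mul_diagonal]
    congr 1
    ext i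
    have h : (RatFunc.X : RatFunc ℂ) ≠ 0 := RatFunc.X_ne_zero
    fin_cases i <;> simp [zpow_add₀ h, mul_comm]

theorem exists_rep {C : Type} [CommGroup C] (χ : C →* ℂ) (hi : Injective χ)
    (hχ : ∀ c, χ c ≠ -2) : ∃ f : Coprod C MZ →* GL (Fin 2) (RatFunc ℂ),
    ∀ g, QU (f g).val → IsOfFinOrder (Coprod.fst g) ∧ (Coprod.fst g = 1 → g = 1) := by
  classical
  let v := RatFunc.inftyValuation ℂ
  let M : C →* Matrix (Fin 2) (Fin 2) (RatFunc ℂ) :=
    (RatFunc.C (K := ℂ)).mapMatrix.toMonoidHom.comp (ell.comp χ)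
  let F := Coprod.lift M hyp
  have hM : ∀ c, c ≠ 1 → ∀ i l, v (M c i l) = 1 := fun c hc i l => by
    refine RatFunc.inftyValuation.C ℂ (k := ell (χ c) i l) ?_
    have h1 : χ c - 1 ≠ 0 := sub_ne_zero.2 fun e => hc (hi (e.trans χ.map_one.symm))
    have h2 : χ c + 2 ≠ 0 := fun e => hχ c (eq_neg_of_add_eq_zero_left e)
    have h3 : 2 * χ c + 1 ≠ 0 := fun e => hχ c⁻¹ (by
      have h4 : χ c * χ c⁻¹ = 1 := by rw [← map_mul, mul_inv_cancel, map_one]
      linear_combination χ c⁻¹ * e - 2 * h4)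
    fin_cases i <;> fin_cases l <;> simp [ell, h1, h2, h3]
  have hd : ∀ n : ℤ, n ≠ 0 → v (RatFunc.X ^ n) ≠ v (RatFunc.X ^ (-n)) ∧
      1 < max (v (RatFunc.X ^ n)) (v (RatFunc.X ^ (-n))) := fun n hn => by
    rw [RatFunc.inftyValuation.X_zpow, RatFunc.inftyValuation.X_zpow, ← WithZero.exp_zero,
      lt_max_iff, WithZero.exp_lt_exp, WithZero.exp_lt_exp, Ne, WithZero.exp_inj]
    omega
  have hs : ∀ l : List (C × MZ), (∀ p ∈ l, p.1 ≠ 1 ∧ p.2 ≠ 1) → ∀ j w, Big v j w →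
      Big v j (F (wd l) * w) := by
    intro l hl j w hw
    induction l with
    | nil => simpa [wd_nil] using hw
    | cons p l ih =>
      obtain ⟨h1, h2⟩ := hl p List.mem_cons_self
      rw [wd_cons, map_mul, mul_assoc, map_mul]
      exact Big.step (hM _ h1) (hd _ h2).1 (hd _ h2).2
        (ih fun q hq => hl q (List.mem_cons_of_mem _ hq))
  refine ⟨F.toHomUnits, fun g ⟨m, hm, h⟩ => ?_⟩
  have h1 : ∀ g', IsConj g' g → (F (g' ^ m)).trace = 2 := fun g' hg => by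
    obtain ⟨c, hc⟩ := isConj_iff.1 (hg.pow m)
    have h2 := (isNilpotent_trace_of_isNilpotent h).eq_zero
    rw [← Units.val_pow_eq_pow_val, ← map_pow, ← hc, map_mul, map_mul, map_inv, Units.val_mul,
      Units.val_mul, trace_sub, trace_units_conj, trace_one, sub_eq_zero] at h2
    exact h2
  obtain ⟨l, rfl⟩ := exists_wd g
  rcases wd_tri _ l rfl with ⟨c, hc⟩ | ⟨n, hn⟩ | ⟨l', h2, h3, h4⟩
  · have e1 : c = Coprod.fst (wd l) := isConj_iff_eq.1 (Coprod.fst.map_isConj hc)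
    have h2 := h1 _ hc
    rw [← map_pow, Coprod.lift_apply_inl, trace_fin_two] at h2
    have h3 : RatFunc.C ((2 * χ (c ^ m) + 1) / 3 + (χ (c ^ m) + 2) / 3) = RatFunc.C (2 : ℂ) := by
      rw [map_add, map_ofNat]
      exact h2
    have h4 := RatFunc.C_injective h3
    refine ⟨e1 ▸ isOfFinOrder_iff_pow_eq_one.2 ⟨m, hm, hi ?_⟩, fun e => ?_⟩
    · rw [map_one]
      linear_combination h4
    · rw [e1, e, map_one] at hc
      exact isConj_one_right.1 hc
  · have h2 := h1 _ hn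
    rw [← map_pow, Coprod.lift_apply_inr] at h2
    have h3 : n ^ m = 1 := by_contra fun e => by
      have h4 : RatFunc.X ^ (n ^ m).toAdd + RatFunc.X ^ (-(n ^ m).toAdd) = (2 : RatFunc ℂ) := by
        rw [← h2, trace_fin_two]
        rfl
      have h5 := v.map_add_of_distinct_val (hd (n ^ m).toAdd e).1
      rw [h4] at h5
      exact absurd (h5 ▸ val_two) (not_le.2 (hd (n ^ m).toAdd e).2)
    rw [(pow_eq_one_iff_left hm.ne').1 h3, map_one] at hn
    rw [isConj_one_right.1 hn]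
    exact ⟨by simp, fun _ => rfl⟩
  · obtain ⟨l₁, p, rfl⟩ := (List.eq_nil_or_concat l').resolve_left h2
    rw [List.concat_eq_append] at h3 h4
    obtain ⟨h5, h6⟩ := h3 p (by simp)
    obtain ⟨j, hj⟩ := Big.base (d := ![_, _]) (hM _ h5) (hd _ h6).1 (hd _ h6).2
    have h7 : Big v j (F (wd (l₁ ++ [p]))) := by
      rw [wd_append, map_mul, wd_cons, wd_nil, mul_one, map_mul]
      exact hs l₁ (fun q hq => h3 q (by simp [hq])) j _ hj
    have h8 : ∀ k : ℕ, Big v j (F (wd (l₁ ++ [p]) ^ (k + 1))) := fun k => by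
      induction k with
      | zero => simpa using h7
      | succ k ih =>
        rw [pow_succ', map_mul]
        exact hs _ h3 j _ ih
    obtain ⟨k, rfl⟩ := Nat.exists_eq_add_one_of_ne_zero hm.ne'
    exact absurd (h1 _ h4) (h8 k).trace

end Pool.Agent.MP_f7db47_al.VD

end

section

/-!
Lamplighter groups.
-/

namespace Pool.Agent.MP_f7db47_al.VD

open GN GF VC Function Monoid

namespace Lamp

variable {k : Type} [AddCommGroup k]

variable (k) in
/-- The translations. -/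
noncomputable def tr : MZ →* Lamp k :=
  MonoidHom.mk' (fun n => ⟨0, n.toAdd⟩) fun _ _ =>
    Lamp.ext (Finsupp.ext fun j => by simp [mul_f]) rfl

variable (k) in
/-- The covering by a free product. -/
noncomputable def cov : Coprod (Multiplicative k) MZ →* Lamp k :=
  Coprod.lift (MonoidHom.mk' (fun c => ⟨Finsupp.single 0 c.toAdd, 0⟩) fun _ _ =>
    Lamp.ext (Finsupp.ext fun j => by simp [mul_f]) rfl) (tr k)

theorem cov_fst (z : Coprod (Multiplicative k) MZ) (h : cov k z = 1) : Coprod.fst z = 1 := by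
  let τ : Lamp k →* Multiplicative k :=
    MonoidHom.mk' (fun x => Multiplicative.ofAdd (x.f.sum fun _ c => c)) fun x y => by
      change Multiplicative.ofAdd ((x.f + sh x.e y.f).sum fun _ c => c) = _
      rw [Finsupp.sum_add_index' (fun _ => rfl) (fun _ _ _ => rfl), sh, Finsupp.sum_equivMapDomain]
      rfl
  have e : τ.comp (cov k) = Coprod.fst := Coprod.hom_ext
    (MonoidHom.ext fun c => by simp [τ, cov]) (MonoidHom.ext fun n => by simp [τ, cov, tr])
  rw [← e, MonoidHom.comp_apply, h, map_one]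

/-- A word with one letter from the first factor. -/
def wrd (j : ℤ) (c : k) (e : ℤ) : Coprod (Multiplicative k) MZ :=
  Coprod.inr (Multiplicative.ofAdd j) * Coprod.inl (Multiplicative.ofAdd c) *
    Coprod.inr (Multiplicative.ofAdd (e - j))

/-- The local section. -/
noncomputable def sec (x : Lamp k) : Coprod (Multiplicative k) MZ :=
  wrd (x.f.support.sum id) (x.f (x.f.support.sum id)) x.e

theorem wrd_zero (j e : ℤ) : wrd j (0 : k) e = Coprod.inr (Multiplicative.ofAdd e) := by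
  rw [wrd, ofAdd_zero, map_one, mul_one, ← map_mul, ← ofAdd_add, add_sub_cancel]

theorem sec_eq {x : Lamp k} {j : ℤ} {c : k} (h : x.f = Finsupp.single j c) :
    sec x = wrd j c x.e := by
  by_cases hc : c = 0
  · rw [sec, h, hc, Finsupp.single_zero, Finsupp.zero_apply, wrd_zero, wrd_zero]
  · rw [sec, h, Finsupp.support_single _ hc, Finset.sum_singleton, id,
      Finsupp.single_eq_same]

theorem cov_sec {x : Lamp k} (h : ∃ j c, x.f = Finsupp.single j c) : cov k (sec x) = x := by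
  obtain ⟨j, c, h⟩ := h
  rw [sec_eq h, wrd, map_mul, map_mul]
  change (⟨0, j⟩ * ⟨Finsupp.single 0 c, 0⟩ * ⟨0, x.e - j⟩ : Lamp k) = x
  refine Lamp.ext (Finsupp.ext fun i => ?_) ?_
  · simp [mul_f, h, Finsupp.single_apply, eq_sub_iff_add_eq]
  · simp [mul_e]

theorem sec_mul {x y : Lamp k} (hx : ∃ j c, x.f = Finsupp.single j c)
    (hy : ∃ j c, y.f = Finsupp.single j c) (h : ∃ j c, (x * y).f = Finsupp.single j c) :
    sec (x * y) = sec x * sec y := by
  obtain ⟨j, c, hx⟩ := hx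
  obtain ⟨j', c', hy⟩ := hy
  have e : (x * y).f = Finsupp.single j c + Finsupp.single (j' + x.e) c' := Finsupp.ext fun i => by
    simp [mul_f, hx, hy, Finsupp.single_apply, eq_sub_iff_add_eq]
  rw [sec_eq hx, sec_eq hy]
  by_cases hc : c = 0
  · rw [hc, Finsupp.single_zero, zero_add] at e
    rw [sec_eq e, hc, wrd_zero, wrd, wrd, mul_e, ← mul_assoc, ← mul_assoc, ← map_mul, ← ofAdd_add,
      add_comm x.e j', show x.e + y.e - (j' + x.e) = y.e - j' by ring]
  by_cases hc' : c' = 0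
  · rw [hc', Finsupp.single_zero, add_zero] at e
    rw [sec_eq e, hc', wrd_zero, wrd, wrd, mul_e, show x.e + y.e - j = x.e - j + y.e by ring,
      ofAdd_add, map_mul, ← mul_assoc]
  have hj : j' + x.e = j := by
    obtain ⟨i, a, h⟩ := h
    by_contra hj
    rw [e] at h
    have h1 := DFunLike.congr_fun h j
    have h2 := DFunLike.congr_fun h (j' + x.e)
    rw [Finsupp.add_apply, Finsupp.single_eq_same, Finsupp.single_eq_of_ne' hj, add_zero] at h1
    rw [Finsupp.add_apply, Finsupp.single_eq_same, Finsupp.single_eq_of_ne hj, zero_add] at h2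
    exact hj (((Finsupp.single_apply_ne_zero.1 (h2 ▸ hc')).1).trans
      (Finsupp.single_apply_ne_zero.1 (h1 ▸ hc)).1.symm)
  rw [hj, ← Finsupp.single_add] at e
  have e1 : (Coprod.inr (Multiplicative.ofAdd (x.e - j)) : Coprod (Multiplicative k) MZ) *
      Coprod.inr (Multiplicative.ofAdd j') = 1 := by
    rw [← map_mul, ← ofAdd_add, show x.e - j + j' = 0 by omega, ofAdd_zero, map_one]
  rw [sec_eq e, wrd, wrd, wrd, mul_e, show x.e + y.e - j = y.e - j' by omega, ofAdd_add, map_mul]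
  simp only [mul_assoc]
  rw [← mul_assoc (Coprod.inr (Multiplicative.ofAdd (x.e - j))), e1, one_mul]

variable (k) in
/-- The elements whose shift is divisible by `m`. -/
def sub (m : ℕ) : Subgroup (Lamp k) where
  carrier := {x | (m : ℤ) ∣ x.e}
  one_mem' := dvd_zero _
  mul_mem' := dvd_add
  inv_mem' := fun h => (dvd_neg.2 h :)

/-- Splitting into residue classes. -/
noncomputable def spl (m : ℕ) (hm : 0 < m) : sub k m →* (Fin m → Lamp k) :=
  MonoidHom.mk' (fun x r => ⟨x.1.f.comapDomain (fun j => m * j + r)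
    (fun _ _ _ _ e => mul_left_cancel₀ (Nat.cast_ne_zero.2 hm.ne') (add_right_cancel e)),
    x.1.e / m⟩) fun x y => funext fun r => by
    refine Lamp.ext (Finsupp.ext fun j => ?_) (Int.add_ediv_of_dvd_left x.2)
    change (x.1 * y.1).f (m * j + r) = _
    rw [mul_f, Pi.mul_apply, mul_f]
    change _ = x.1.f (m * j + r) + y.1.f (m * (j - x.1.e / m) + r)
    rw [mul_sub, Int.mul_ediv_cancel' x.2]
    congr 2
    ring

theorem spl_inj (m : ℕ) (hm : 0 < m) (x : sub k m) (h : spl m hm x = 1) : x = 1 := by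
  have h0 : (0 : ℤ) < m := by exact_mod_cast hm
  refine Subtype.ext (Lamp.ext (Finsupp.ext fun j => ?_) ?_)
  · have h1 := Int.emod_nonneg j h0.ne'
    have h2 := Int.emod_lt_of_pos j h0
    have h3 : x.1.f (m * (j / m) + ((j % m).toNat : ℕ)) = 0 :=
      congrArg (fun z : Fin m → Lamp k => (z ⟨(j % m).toNat, by omega⟩).f (j / m)) h
    rwa [Int.toNat_of_nonneg h1, Int.mul_ediv_add_emod] at h3
  · have h3 : x.1.e / m = 0 := congrArg (fun z : Fin m → Lamp k => (z ⟨0, hm⟩).e) h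
    rw [← Int.mul_ediv_cancel' x.2, h3, mul_zero]
    rfl

theorem exists_emb (S : Finset (Lamp k)) : ∃ (X : Type) (_ : Finite X) (_ : Nonempty X)
    (J : Lamp k →* WrG (Lamp k) X), Injective J ∧
    ∀ g ∈ S, ∀ x, ∃ j c, ((J g).b x).f = Finsupp.single j c := by
  classical
  obtain ⟨R, hR⟩ : ∃ R : ℕ, ∀ g ∈ S, ∀ j, g.f j ≠ 0 → |j| ≤ R := by
    refine ⟨(S.biUnion fun g => g.f.support).sup Int.natAbs, fun g hg j hj => ?_⟩
    rw [Int.abs_eq_natAbs, Nat.cast_le]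
    exact Finset.le_sup (f := Int.natAbs)
      (Finset.mem_biUnion.2 ⟨g, hg, Finsupp.mem_support_iff.2 hj⟩)
  obtain ⟨m, hm⟩ : ∃ m, m = 2 * R + 1 := ⟨_, rfl⟩
  have h0 : 0 < m := by omega
  have : NeZero m := ⟨h0.ne'⟩
  let σ : Lamp k →* Equiv.Perm (ZMod m) :=
    MonoidHom.mk' (fun g => Equiv.addLeft (g.e : ZMod m)) fun x y => Equiv.ext fun z => by
      simp [mul_e]
  let s : ZMod m → Lamp k := fun x => ⟨0, x.val⟩
  have h : ∀ g x, (s x)⁻¹ * g * s ((σ g)⁻¹ x) ∈ sub k m := fun g x => by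
    refine (ZMod.intCast_zmod_eq_zero_iff_dvd _ m).1 ?_
    simp [mul_e, inv_e, s, σ]
  refine ⟨ZMod m × Fin m, inferInstance, inferInstance, WrG.ind _ σ s h (spl m h0),
    (injective_iff_map_eq_one _).2 fun g hg => ?_, fun g hg x => ?_⟩
  · obtain ⟨h1, h2⟩ := WrG.ind_ker hg 0
    have h3 : (s 0)⁻¹ * g * s 0 = 1 := congrArg Subtype.val (spl_inj m h0 _ h2)
    rwa [mul_assoc, inv_mul_eq_one, right_eq_mul] at h3
  refine Finsupp.card_support_le_one'.1 (Finset.card_le_one.2 fun a ha b hb => ?_)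
  have e : ∀ j, (((WrG.ind _ σ s h (spl m h0)) g).b x).f j = g.f (m * j + x.2 + x.1.val) := by
    intro j
    change ((s x.1)⁻¹ * g * s _).f (m * j + x.2) = _
    simp [mul_f, inv_f, inv_e, s]
  rw [Finsupp.mem_support_iff, e] at ha hb
  have h1 := abs_le.1 (hR g hg _ ha)
  have h2 := abs_le.1 (hR g hg _ hb)
  have h3 : (m : ℤ) = 2 * R + 1 := by exact_mod_cast hm
  rcases lt_trichotomy a b with h4 | h4 | h4
  · nlinarith
  · exact h4
  · nlinarith

end Lamp

theorem fj_lamp {k : Type} [AddCommGroup k] (χ : Multiplicative k →* ℂ) (hi : Injective χ)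
    (hχ : ∀ c, χ c ≠ -2) (hC : {c : Multiplicative k | IsOfFinOrder c}.Finite) (Y : Type)
    [Finite Y] : FJ (WrG (Lamp k) Y) := by
  classical
  obtain ⟨f, hf⟩ := exists_rep χ hi hχ
  have := Fintype.ofFinite Y
  refine FJ.colim fun S => ?_
  obtain ⟨X, _, _, J, hJ, hS⟩ := Lamp.exists_emb ((S ×ˢ Finset.univ).image fun p => p.1.b p.2)
  refine ⟨_, _, inferInstance, inferInstance, (WrG.assoc _ X Y).comp (WrG.map J Y),
    WrG.map (Lamp.cov k) (Y × X), fun x => ⟨fun y => Lamp.sec (x.b y), x.σ⟩,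
    {x | ∀ y, ∃ j c, (x.b y).f = Finsupp.single j c}, WrG.assoc_inj.comp (WrG.map_inj hJ),
    fun g hg y => hS (g.b y.1) (Finset.mem_image.2 ⟨(g, y.1), by simp [hg], rfl⟩) y.2,
    fun x hx => WrG.ext (funext fun y => Lamp.cov_sec (hx y)) rfl,
    fun x hx y hy hxy => WrG.ext (funext fun i => Lamp.sec_mul (hx i) (hy _) (hxy i)) rfl,
    fun z hz hz' => ?_, fj_wrG f Coprod.fst hC hf _⟩
  have h1 : z.σ = 1 := congrArg (fun w : WrG (Lamp k) (Y × X) => w.σ) hz
  refine WrG.ext (funext fun y => (hf _ ?_).2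
    (Lamp.cov_fst _ (congrArg (fun w : WrG (Lamp k) (Y × X) => w.b y) hz))) h1
  have h2 : IsOfFinOrder (⟨z, h1⟩ : (WrG.perm _ (Y × X)).ker) :=
    (Subgroup.subtype_injective _).isOfFinOrder_iff.1 hz'
  obtain ⟨m, hm, h3⟩ := isOfFinOrder_iff_pow_eq_one.1 ((f.comp (WrG.co y)).isOfFinOrder h2)
  refine ⟨m, hm, ?_⟩
  rw [← Units.val_pow_eq_pow_val, show f (z.b y) ^ m = 1 from h3, Units.val_one, sub_self]
  exact IsNilpotent.zero

end Pool.Agent.MP_f7db47_al.VD

end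

section

/-!
Finitely generated modules over Laurent polynomial rings.
-/

namespace Pool.Agent.MP_f7db47_al.VD

open GN GF VC Function

theorem Mod_dom (R M : Type) [CommRing R] [IsDomain R] [AddCommGroup M] [Module R M]
    [Module.Finite R M] : ∃ (ι : Type) (_ : Finite ι) (a : R) (Λ : M →ₗ[R] (ι →₀ R)),
    a ≠ 0 ∧ ∀ x, Λ x = 0 → a • x = 0 := by
  classical
  obtain ⟨n, s, hs⟩ := Module.Finite.exists_fin (R := R) (M := M)
  obtain ⟨I, h1, h2⟩ := exists_maximal_linearIndepOn R s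
  have h3 : ∀ i, ∃ a : R, a ≠ 0 ∧ a • s i ∈ Submodule.span R (Set.range fun x : I => s x) := by
    intro i
    by_cases hi : i ∈ I
    · exact ⟨1, one_ne_zero, by rw [one_smul]; exact Submodule.subset_span ⟨⟨i, hi⟩, rfl⟩⟩
    · simpa only [Set.image_eq_range s I] using h2 i hi
  choose a ha ha' using h3
  have h4 : ∀ x, LinearMap.lsmul R M (∏ i, a i) x ∈
      Submodule.span R (Set.range fun x : I => s x) := fun x => by
    have hx : x ∈ Submodule.span R (Set.range s) := hs ▸ Submodule.mem_top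
    refine (Submodule.map_span_le _ _ _).2 ?_ (Submodule.mem_map_of_mem hx)
    rintro _ ⟨i, rfl⟩
    rw [LinearMap.lsmul_apply, Fintype.prod_eq_prod_compl_mul i, mul_smul]
    exact Submodule.smul_mem _ _ (ha' i)
  refine ⟨I, inferInstance, ∏ i, a i, (LinearIndependent.repr h1).comp
    ((LinearMap.lsmul R M (∏ i, a i)).codRestrict _ h4), Finset.prod_ne_zero_iff.2 fun i _ => ha i,
    fun x hx => ?_⟩
  exact congrArg Subtype.val (LinearMap.ker_eq_bot'.1 (LinearIndependent.repr_ker h1) _ hx)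

theorem Mod_fin {k : Type} [Field k] {a : LaurentPolynomial k} (ha : a ≠ 0) :
    Module.Finite k (LaurentPolynomial k ⧸ (LaurentPolynomial k) ∙ a) := by
  have := IsLocalization.isDedekindDomain (Polynomial k) (M := Submonoid.powers Polynomial.X)
    (powers_le_nonZeroDivisors_of_noZeroDivisors Polynomial.X_ne_zero) (LaurentPolynomial k)
  refine (Module.finite_iff_krullDimLE_zero k _).2
    (Ideal.krullDimLE_zero_quotient_iff_forall_minimalPrimes_isMaximal.2 fun J hJ => ?_)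
  exact hJ.1.1.isMaximal fun e => ha (by
    have h := hJ.1.2 (Submodule.mem_span_singleton_self a)
    rwa [e] at h)

theorem exists_fun {k U : Type} [Field k] [AddCommGroup U] [Module k U]
    (ρ : MZ →* Module.End k U) (F : Set U) (hF : F.Finite) :
    ∃ (ι : Type) (_ : Finite ι) (M : AddSubgroup U) (V : Submodule k U) (Λ : M →+ ι → ℤ →₀ k)
      (h : ∀ z, ∀ u ∈ M, ρ z u ∈ M), FiniteDimensional k V ∧ F ⊆ M ∧
      (∀ z (u : M) i j, Λ ⟨_, h z u u.2⟩ i j = Λ u i (j - z.toAdd)) ∧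
      ∀ u, Λ u = 0 → u.1 ∈ V := by
  let _ : Module (LaurentPolynomial k) U :=
    Module.compHom U (AddMonoidAlgebra.lift k (Module.End k U) ℤ ρ).toRingHom
  have hs : ∀ (r : LaurentPolynomial k) (u : U),
      r • u = AddMonoidAlgebra.lift k (Module.End k U) ℤ ρ r u := fun _ _ => rfl
  have : IsScalarTower k (LaurentPolynomial k) U :=
    ⟨fun c r u => by rw [hs, hs, map_smul, LinearMap.smul_apply]⟩
  have hT : ∀ (z : MZ) (u : U),
      ρ z u = (AddMonoidAlgebra.single z.toAdd 1 : LaurentPolynomial k) • u := fun z u => by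
    rw [hs, AddMonoidAlgebra.lift_single, one_smul]
    rfl
  let M := Submodule.span (LaurentPolynomial k) F
  have : Module.Finite (LaurentPolynomial k) M := Module.Finite.span_of_finite _ hF
  obtain ⟨ι, _, a, Λ, ha, hΛ⟩ := Mod_dom (LaurentPolynomial k) M
  have := Mod_fin ha
  have : IsNoetherianRing (LaurentPolynomial k) := Algebra.FiniteType.isNoetherianRing k _
  let W := Submodule.torsionBy (LaurentPolynomial k) M a
  have : Module.Finite (LaurentPolynomial k ⧸ (LaurentPolynomial k) ∙ a) W :=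
    Module.Finite.of_restrictScalars_finite (LaurentPolynomial k) _ _
  have : Module.Finite k W :=
    Module.Finite.trans (LaurentPolynomial k ⧸ (LaurentPolynomial k) ∙ a) W
  refine ⟨ι, inferInstance, M.toAddSubgroup,
    LinearMap.range ((M.subtype.comp W.subtype).restrictScalars k),
    AddMonoidHom.mk' (fun u i => (Λ u i).coeff) fun u u' => ?_,
    fun z u hu => hT z u ▸ M.smul_mem _ hu, inferInstance, Submodule.subset_span,
    fun z u i j => ?_, fun u hu => ⟨⟨u, hΛ u (Finsupp.ext fun i => ?_)⟩, rfl⟩⟩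
  · funext i
    exact congrArg (fun x : ι →₀ LaurentPolynomial k => (x i).coeff) (Λ.map_add u u')
  · have e := Λ.map_smul (AddMonoidAlgebra.single z.toAdd 1 : LaurentPolynomial k) u
    change (Λ _ i).coeff j = (Λ u i).coeff _
    rw [sub_eq_neg_add, ← one_mul ((Λ u i).coeff _), ← AddMonoidAlgebra.coeff_single_mul_apply,
      ← smul_eq_mul, ← Finsupp.smul_apply, ← e]
    congr 4
    exact Subtype.ext (hT z u)
  · exact AddMonoidAlgebra.coeff_eq_zero.1 (congrFun hu i)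

end Pool.Agent.MP_f7db47_al.VD

end

section

/-!
Maps to wreath products of lamplighter groups.
-/

namespace Pool.Agent.MP_f7db47_al.VD

open GN GF VC Function

variable {Γ : Type} [Group Γ]

/-- The subgroup generated by `A` and an element that normalises it. -/
def Ex (A : Subgroup Γ) (t : Γ) (h : ∀ n : ℤ, ∀ a ∈ A, t ^ n * a * (t ^ n)⁻¹ ∈ A) :
    Subgroup Γ where
  carrier := {g | ∃ n : ℤ, g * (t ^ n)⁻¹ ∈ A}
  one_mem' := ⟨0, by simp⟩
  mul_mem' := by
    rintro g g' ⟨n, hn⟩ ⟨m, hm⟩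
    refine ⟨n + m, ?_⟩
    rw [show g * g' * (t ^ (n + m))⁻¹ =
      g * (t ^ n)⁻¹ * (t ^ n * (g' * (t ^ m)⁻¹) * (t ^ n)⁻¹) by group]
    exact A.mul_mem hn (h n _ hm)
  inv_mem' := by
    rintro g ⟨n, hn⟩
    refine ⟨-n, ?_⟩
    rw [show g⁻¹ * (t ^ (-n))⁻¹ = t ^ (-n) * (g * (t ^ n)⁻¹)⁻¹ * (t ^ (-n))⁻¹ by group]
    exact h _ _ (A.inv_mem hn)

variable {ψ : Γ →* MZ} {A : Subgroup Γ} {t : Γ}

theorem Ex_zero (ht : ψ t ≠ 1) {n : ℤ} (h : ψ (t ^ n) = 1) : n = 0 := by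
  have h1 : n * (ψ t).toAdd = 0 := by simpa using congrArg Multiplicative.toAdd h
  exact (mul_eq_zero.1 h1).resolve_right ht

theorem Ex_idx (hi : A.relIndex ψ.ker ≠ 0) (ht : ψ t ≠ 1)
    (h : ∀ n : ℤ, ∀ a ∈ A, t ^ n * a * (t ^ n)⁻¹ ∈ A) : (Ex A t h).FiniteIndex := by
  let P := (Subgroup.zpowers (ψ t)).comap ψ
  have e2 : P.index ≠ 0 := by
    rw [Subgroup.index_comap]
    have : (Subgroup.zpowers (ψ t)).FiniteIndex := ⟨Lin3_zp _ ht⟩
    exact Subgroup.FiniteIndex.index_ne_zero (H := Subgroup.subgroupOf _ _)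
  have : Finite (Γ ⧸ P) := Nat.finite_of_card_ne_zero e2
  have : Finite (ψ.ker ⧸ A.subgroupOf ψ.ker) := Nat.finite_of_card_ne_zero hi
  have : Finite (Γ ⧸ Ex A t h) := by
    refine Finite.of_surjective (fun x : (Γ ⧸ P) × (ψ.ker ⧸ A.subgroupOf ψ.ker) =>
      ((x.1.out * x.2.out.1 : Γ) : Γ ⧸ Ex A t h)) fun y => ?_
    obtain ⟨g, rfl⟩ := QuotientGroup.mk_surjective y
    obtain ⟨n, hn⟩ : (g : Γ ⧸ P).out⁻¹ * g ∈ P := QuotientGroup.eq.1 (QuotientGroup.out_eq' _)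
    have h1 : (g : Γ ⧸ P).out⁻¹ * g * (t ^ n)⁻¹ ∈ ψ.ker := by
      rw [MonoidHom.mem_ker, map_mul, map_inv, map_zpow, ← hn]
      simp
    let κ : ψ.ker ⧸ A.subgroupOf ψ.ker := QuotientGroup.mk ⟨_, h1⟩
    have h2 : κ.out.1⁻¹ * ((g : Γ ⧸ P).out⁻¹ * g * (t ^ n)⁻¹) ∈ A :=
      Subgroup.mem_subgroupOf.1 (QuotientGroup.eq.1 (QuotientGroup.out_eq' κ))
    exact ⟨(g, κ), QuotientGroup.eq.2 ⟨n, by simpa only [mul_inv_rev, mul_assoc] using h2⟩⟩
  exact Subgroup.finiteIndex_of_finite_quotient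

theorem exists_gens [Group.FG Γ] (hA : A.Normal) (hle : A ≤ ψ.ker) (hi : A.relIndex ψ.ker ≠ 0)
    (ht : ψ t ≠ 1) : ∃ F : Set Γ, F.Finite ∧ F ⊆ A ∧ ∀ M : Subgroup Γ, M ≤ A → F ⊆ M →
      (∀ n : ℤ, ∀ a ∈ M, t ^ n * a * (t ^ n)⁻¹ ∈ M) → A ≤ M := by
  have h : ∀ n : ℤ, ∀ a ∈ A, t ^ n * a * (t ^ n)⁻¹ ∈ A := fun n a ha => hA.conj_mem a ha _
  have := Ex_idx hi ht h
  obtain ⟨S, hS, hS'⟩ := (Subgroup.fg_iff _).1 ((Group.fg_iff_subgroup_fg (Ex A t h)).1
    (Subgroup.fg_of_index_ne_zero _))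
  have h1 : ∀ g : S, ∃ n : ℤ, g * (t ^ n)⁻¹ ∈ A := fun g =>
    (hS ▸ Subgroup.subset_closure g.2 : g.1 ∈ Ex A t h)
  choose ν hν using h1
  have := hS'.to_subtype
  refine ⟨Set.range fun g : S => g * (t ^ ν g)⁻¹, Set.finite_range _,
    by rintro _ ⟨g, rfl⟩; exact hν g, fun M hM hF hc a ha => ?_⟩
  have h2 : Ex A t h ≤ Ex M t hc := by
    rw [← hS, Subgroup.closure_le]
    exact fun g hg => ⟨ν ⟨g, hg⟩, hF ⟨⟨g, hg⟩, rfl⟩⟩
  obtain ⟨n, hn⟩ := h2 (⟨0, by simpa using ha⟩ : a ∈ Ex A t h)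
  have h3 : ψ (a * (t ^ n)⁻¹) = 1 := hle (hM hn)
  rw [map_mul, show ψ a = 1 from hle ha, one_mul, map_inv, inv_eq_one] at h3
  simpa [Ex_zero ht h3] using hn

theorem exists_lamp [Group.FG Γ] {k U : Type} [Field k] [AddCommGroup U] [Module k U]
    (hA : A.Normal) (hle : A ≤ ψ.ker) (hi : A.relIndex ψ.ker ≠ 0) (ht : ψ t ≠ 1)
    (L : Γ →* Module.End k U) (e : Γ → U) (h1 : ∀ a ∈ A, ∀ b ∈ A, e (a * b) = e a + e b)
    (h2 : ∀ γ, ∀ a ∈ A, e (γ * a * γ⁻¹) = L γ (e a)) :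
    ∃ (Y : Type) (_ : Finite Y) (p : Γ →* WrG (Lamp k) Y) (V : Submodule k U),
      FiniteDimensional k V ∧ ∀ g ∈ p.ker, g ∈ A ∧ e g ∈ V := by
  have h : ∀ n : ℤ, ∀ a ∈ A, t ^ n * a * (t ^ n)⁻¹ ∈ A := fun n a ha => hA.conj_mem a ha _
  have := Ex_idx hi ht h
  obtain ⟨F, f1, f2, f3⟩ := exists_gens hA hle hi ht
  obtain ⟨ι, _, M, V, Λ, hρ, hV, g1, g2, g3⟩ :=
    exists_fun (L.comp (zpowersHom Γ t)) (e '' F) (f1.image e)
  let ε : A →* Multiplicative U :=
    MonoidHom.mk' (fun a => Multiplicative.ofAdd (e a)) fun a b => h1 a a.2 b b.2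
  have hM : ∀ a ∈ A, e a ∈ M := fun a ha => by
    obtain ⟨b, hb, rfl⟩ := f3 ((M.toSubgroup.comap ε).map A.subtype) (Subgroup.map_subtype_le _)
      (fun x hx => ⟨⟨x, f2 hx⟩, g1 ⟨x, hx, rfl⟩, rfl⟩) (by
        rintro n _ ⟨b, hb, rfl⟩
        refine ⟨⟨_, h n b b.2⟩, ?_, rfl⟩
        change e _ ∈ M
        rw [h2 _ _ b.2]
        exact hρ (Multiplicative.ofAdd n) _ hb) ha
    exact hb
  choose ν hν using fun g : Ex A t h => g.2
  have hu : ∀ (g : Ex A t h) (n : ℤ), g.1 * (t ^ n)⁻¹ ∈ A → ν g = n := fun g n hn => by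
    have h3 : ψ ((g.1 * (t ^ ν g)⁻¹)⁻¹ * (g.1 * (t ^ n)⁻¹)) = 1 :=
      hle (A.mul_mem (A.inv_mem (hν g)) hn)
    rw [show (g.1 * (t ^ ν g)⁻¹)⁻¹ * (g.1 * (t ^ n)⁻¹) = t ^ (ν g - n) by group] at h3
    exact sub_eq_zero.1 (Ex_zero ht h3)
  have e1 : ∀ g g' : Ex A t h, (g * g').1 * (t ^ (ν g + ν g'))⁻¹ =
      g.1 * (t ^ ν g)⁻¹ * (t ^ ν g * (g'.1 * (t ^ ν g')⁻¹) * (t ^ ν g)⁻¹) := fun g g' => by
    rw [Subgroup.coe_mul]
    group
  have e2 : ∀ g g', ν (g * g') = ν g + ν g' := fun g g' =>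
    hu _ _ (e1 g g' ▸ A.mul_mem (hν g) (h _ _ (hν g')))
  let θ : Ex A t h →* (Option ι → Lamp k) :=
    MonoidHom.mk' (fun g i => ⟨i.elim 0 (Λ ⟨_, hM _ (hν g)⟩), ν g⟩) fun g g' => funext fun i => by
      refine Lamp.ext (Finsupp.ext fun j => ?_) (e2 g g')
      rw [Pi.mul_apply, Lamp.mul_f]
      rcases i with _ | i
      · exact (add_zero _).symm
      have e3 : (⟨_, hM _ (hν (g * g'))⟩ : M) = ⟨_, hM _ (hν g)⟩ +
          ⟨_, hρ (Multiplicative.ofAdd (ν g)) _ (hM _ (hν g'))⟩ := Subtype.ext (by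
        change e _ = e _ + L (t ^ ν g) (e _)
        rw [e2, e1, h1 _ (hν g) _ (h _ _ (hν g')), h2 _ _ (hν g')])
      change Λ _ i j = Λ _ i j + Λ _ i (j - ν g)
      rw [e3, map_add, Pi.add_apply, Finsupp.add_apply,
        g2 (Multiplicative.ofAdd (ν g)) ⟨_, hM _ (hν g')⟩]
      rfl
  refine ⟨(Γ ⧸ Ex A t h) × Option ι, inferInstance, WrG.ind (Ex A t h) (MulAction.toPermHom Γ _)
    Quotient.out (fun g c => by rw [← map_inv]; exact Vab_mem _ g c) θ, V, hV, fun g hg => ?_⟩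
  let c : Γ ⧸ Ex A t h := ((1 : Γ) : Γ ⧸ Ex A t h)
  obtain ⟨h3, h4⟩ := WrG.ind_ker ((MonoidHom.normal_ker _).conj_mem g hg c.out) c
  have h5 : c.out⁻¹ * (c.out * g * c.out⁻¹) * c.out = g := by group
  have h6 : ν ⟨_, h3⟩ = 0 := congrArg (fun z : Option ι → Lamp k => (z none).e) h4
  have h7 := hν ⟨_, h3⟩
  have h8 := g3 ⟨_, hM _ h7⟩
    (funext fun i => congrArg (fun z : Option ι → Lamp k => (z (some i)).f) h4)
  simp only [h6, zpow_zero, inv_one, mul_one] at h7 h8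
  rw [h5] at h7 h8
  exact ⟨h7, h8⟩

end Pool.Agent.MP_f7db47_al.VD

end

section

/-!
Extensions with abelian kernel.
-/

namespace Pool.Agent.MP_f7db47_al.VD

open GN GF VC Function

variable {Γ Γ' : Type} [Group Γ] [Group Γ']

theorem fj_lampQ (Y : Type) [Finite Y] : FJ (WrG (Lamp ℚ) Y) := by
  refine fj_lamp ⟨⟨fun q => (Real.exp (q.toAdd : ℚ) : ℂ), by simp⟩, fun a b => by
    simp [Complex.exp_add]⟩ (fun a b e => ?_) (fun c e => ?_)
    ((Set.finite_singleton 1).subset fun c hc => by_contra fun e =>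
      isMulTorsionFree_iff_not_isOfFinOrder.1 inferInstance e hc) Y
  · exact Multiplicative.toAdd.injective
      (Rat.cast_injective (Real.exp_injective (Complex.ofReal_injective e)))
  · have h : Real.exp (c.toAdd : ℚ) = -2 := Complex.ofReal_injective (e.trans (by simp))
    linarith [Real.exp_pos (c.toAdd : ℚ)]

theorem fj_lampP (π : ℕ) [Fact π.Prime] (Y : Type) [Finite Y] : FJ (WrG (Lamp (ZMod π)) Y) := by
  refine fj_lamp ZMod.stdAddChar.toMonoidHom
    (ZMod.injective_stdAddChar.comp Multiplicative.toAdd.injective) (fun c e => ?_)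
    (Set.toFinite _) Y
  have h := congrArg norm e
  rw [AddChar.toMonoidHom_apply, ZMod.stdAddChar_apply, Circle.norm_coe] at h
  norm_num at h

theorem fj_triv (p : Γ →* Γ') (φ : Γ' →* MZ) (hφ : Finite φ.ker)
    (hc : ∀ a ∈ p.ker, ∀ b ∈ p.ker, a * b = b * a) (h : ∀ g, φ.comp p g = 1) : FJ Γ := by
  refine fj_vab p.ker ⟨?_⟩ hc
  have h1 := ker_idx p φ hφ
  rwa [show (φ.comp p).ker = ⊤ from eq_top_iff.2 fun g _ => h g, Subgroup.relIndex_top_right] at h1

theorem ker_le (p : Γ →* Γ') (φ : Γ' →* MZ) : p.ker ≤ (φ.comp p).ker := fun a ha => by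
  change φ (p a) = 1
  rw [show p a = 1 from ha, map_one]

theorem fj_lin [Group.FG Γ] {U : Type} [AddCommGroup U] [Module ℚ U] (D : Lin Γ U) : FJ Γ := by
  by_cases h0 : ∀ g, D.ψ g = 1
  · exact FJP.sub ((MonoidHom.id Γ).codRestrict D.ψ.ker h0)
      (fun _ _ e => congrArg Subtype.val e) (lin_ker D)
  obtain ⟨t, ht⟩ := not_forall.1 h0
  obtain ⟨Y, _, p, V, _, hp⟩ := exists_lamp D.normal D.le D.idx ht
    (LinearEquiv.automorphismGroup.toLinearMapMonoidHom.comp D.L) D.e D.add D.conj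
  refine FJP.ext p (fj_lampQ Y) fun B ⟨φ, hφ⟩ => ?_
  have hk : ∀ a ∈ (p.subgroupComap B).ker, a.1 ∈ p.ker := fun a ha => congrArg Subtype.val ha
  let D' : Lin (B.comap p) U :=
    ⟨φ.comp (p.subgroupComap B), (p.subgroupComap B).ker, D.L.comp (Subgroup.subtype _),
      fun a => D.e a, inferInstance, ker_le _ φ, ker_idx _ φ hφ,
      fun a ha b hb => D.add _ (hp _ (hk a ha)).1 _ (hp _ (hk b hb)).1,
      fun a ha h => Subtype.ext (D.inj _ (hp _ (hk a ha)).1 h),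
      fun γ a ha => D.conj _ _ (hp _ (hk a ha)).1, fun a ha => D.triv _ (hp _ (hk a ha)).1⟩
  let W := Submodule.span ℚ (D'.e '' D'.A)
  have hV : W ≤ V := Submodule.span_le.2 (by
    rintro _ ⟨a, ha, rfl⟩
    exact (hp _ (hk a ha)).2)
  have := Submodule.finiteDimensional_of_le hV
  have e : (D'.AW W).comap (MonoidHom.id _) = D'.A :=
    le_antisymm (fun a ha => ha.1) fun a ha => ⟨ha, Submodule.subset_span ⟨a, ha, rfl⟩⟩
  obtain ⟨E⟩ := D'.restrict (MonoidHom.id _) injective_id W (fun γ u hu => by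
    refine (Submodule.map_span_le (D'.L γ).toLinearMap _ W).2 ?_ (Submodule.mem_map_of_mem hu)
    rintro _ ⟨a, ha, rfl⟩
    exact Submodule.subset_span ⟨_, D'.normal.conj_mem a ha γ, D'.conj γ a ha⟩) D'.ψ
    (e ▸ D'.le) (e ▸ D'.idx)
  exact fj_lin_fin _ W E

theorem fj_tf (p : Γ →* Γ') (h : IsVC Γ') (hc : ∀ a ∈ p.ker, ∀ b ∈ p.ker, a * b = b * a)
    (ht : ∀ a ∈ p.ker, IsOfFinOrder a → a = 1) : FJ Γ := by
  obtain ⟨φ, hφ⟩ := h
  refine FJP.loc fun K hK => ?_
  have := (Group.fg_iff_subgroup_fg K).2 hK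
  obtain ⟨U, _, _, ⟨D⟩⟩ := exists_lin (φ.comp (p.comp K.subtype)) (p.comp K.subtype).ker
    inferInstance (ker_le _ φ) (ker_idx _ φ hφ) (fun a ha b hb => Subtype.ext (hc _ ha _ hb))
    fun a ha h => Subtype.ext (ht _ ha (K.subtype.isOfFinOrder h))
  exact fj_lin D

theorem exists_lampP [Group.FG Γ] (π : ℕ) [Fact π.Prime] {U : Type} [AddCommGroup U]
    [Module (ZMod π) U] {ψ : Γ →* MZ} {A : Subgroup Γ} {t : Γ} (hA : A.Normal)
    (hle : A ≤ ψ.ker) (hi : A.relIndex ψ.ker ≠ 0) (ht : ψ t ≠ 1) (c : Γ → U →+ U)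
    (c1 : ∀ x, c 1 x = x) (c2 : ∀ g h x, c (g * h) x = c g (c h x)) (e : Γ → U)
    (h1 : ∀ a ∈ A, ∀ b ∈ A, e (a * b) = e a + e b)
    (h2 : ∀ γ, ∀ a ∈ A, e (γ * a * γ⁻¹) = c γ (e a)) :
    ∃ (Y : Type) (_ : Finite Y) (p : Γ →* WrG (Lamp (ZMod π)) Y) (V : Set U),
      Finite V ∧ ∀ g ∈ p.ker, g ∈ A ∧ e g ∈ V := by
  let L : Γ →* Module.End (ZMod π) U :=
    { toFun := fun g => (c g).toZModLinearMap π
      map_one' := LinearMap.ext c1
      map_mul' := fun g h => LinearMap.ext (c2 g h) }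
  obtain ⟨Y, _, q, V, _, hq⟩ := exists_lamp (k := ZMod π) hA hle hi ht L e h1 h2
  exact ⟨Y, inferInstance, q, V, (Module.finite_of_finite (ZMod π) : Finite V), hq⟩

theorem fj_elem_fg [Group.FG Γ] (π : ℕ) [Fact π.Prime] (p : Γ →* Γ') (h : IsVC Γ')
    (hc : ∀ a ∈ p.ker, ∀ b ∈ p.ker, a * b = b * a) (hπ : ∀ a ∈ p.ker, a ^ π = 1) : FJ Γ := by
  classical
  obtain ⟨φ, hφ⟩ := h
  by_cases h0 : ∀ g, φ.comp p g = 1
  · exact fj_triv p φ hφ hc h0
  obtain ⟨t, ht⟩ := not_forall.1 h0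
  let _ : CommGroup p.ker :=
    { (inferInstance : Group p.ker) with mul_comm := fun a b => Subtype.ext (hc a a.2 b b.2) }
  let e : Γ → Additive p.ker := fun g => if h : g ∈ p.ker then Additive.ofMul ⟨g, h⟩ else 0
  have he (a : Γ) (ha : a ∈ p.ker) : e a = Additive.ofMul ⟨a, ha⟩ := dif_pos ha
  let _ : Module (ZMod π) (Additive p.ker) := AddCommGroup.zmodModule fun x =>
    congrArg Additive.ofMul (Subtype.ext (hπ _ x.toMul.2) : x.toMul ^ π = 1)
  obtain ⟨Y, _, q, V, _, hq⟩ := exists_lampP π (U := Additive p.ker)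
    p.normal_ker (ker_le p φ) (ker_idx p φ hφ) ht
    (fun g => MonoidHom.toAdditive (MulAut.conjNormal (H := p.ker) g).toMonoidHom)
    (fun a => by simp) (fun g h a => by rw [map_mul]; rfl) e
    (fun a ha b hb => by rw [he a ha, he b hb, he _ (mul_mem ha hb)]; rfl)
    fun γ a ha => by rw [he a ha, he _ (p.normal_ker.conj_mem a ha γ)]; rfl
  refine FJP.ext q (fj_lampP π Y) fun B ⟨χ, hχ⟩ => FJP.of_vc ⟨χ.comp (q.subgroupComap B), ?_⟩
  have hk : ∀ a ∈ (q.subgroupComap B).ker, a.1 ∈ q.ker := fun a ha => congrArg Subtype.val ha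
  have : Finite ((q.subgroupComap B).ker.subgroupOf (χ.comp (q.subgroupComap B)).ker) := by
    refine Finite.of_injective (fun a => (⟨_, (hq _ (hk _ a.2)).2⟩ : V)) fun a b h => ?_
    have h1 : e a.1.1.1 = e b.1.1.1 := congrArg Subtype.val h
    rw [he a.1.1.1 (hq _ (hk _ a.2)).1, he b.1.1.1 (hq _ (hk _ b.2)).1] at h1
    exact Subtype.ext (Subtype.ext (Subtype.ext (congrArg (fun x => x.toMul.1) h1)))
  have : Finite (_ ⧸ (q.subgroupComap B).ker.subgroupOf (χ.comp (q.subgroupComap B)).ker) :=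
    Nat.finite_of_card_ne_zero (ker_idx _ χ hχ)
  exact Finite.of_subgroup_quotient ((q.subgroupComap B).ker.subgroupOf _)

theorem fj_step (p : Γ →* Γ') (hc : ∀ a ∈ p.ker, ∀ b ∈ p.ker, a * b = b * a) (N : Subgroup Γ)
    [N.Normal] (hN : N ≤ p.ker)
    (h1 : (∀ a ∈ (QuotientGroup.lift N p hN).ker, ∀ b ∈ (QuotientGroup.lift N p hN).ker,
      a * b = b * a) → FJ (Γ ⧸ N))
    (h2 : ∀ (K : Subgroup Γ) (B : Type) [Group B] (q : K →* B), IsVC B → (∀ a ∈ q.ker, a.1 ∈ N) →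
      (∀ a ∈ q.ker, ∀ b ∈ q.ker, a * b = b * a) → FJ K) : FJ Γ := by
  refine FJP.ext (QuotientGroup.mk' N) (h1 fun a ha b hb => ?_) fun B hB => ?_
  · obtain ⟨a, rfl⟩ := QuotientGroup.mk'_surjective N a
    obtain ⟨b, rfl⟩ := QuotientGroup.mk'_surjective N b
    rw [← map_mul, ← map_mul, hc a ha b hb]
  have hk : ∀ a ∈ ((QuotientGroup.mk' N).subgroupComap B).ker, a.1 ∈ N := fun a ha =>
    (QuotientGroup.eq_one_iff _).1 (congrArg Subtype.val ha)
  exact h2 _ B _ hB hk fun a ha b hb => Subtype.ext (hc _ (hN (hk a ha)) _ (hN (hk b hb)))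

theorem fj_exp (n : ℕ) : n ≠ 0 → ∀ (Γ Γ' : Type) [Group Γ] [Group Γ'] (p : Γ →* Γ'), IsVC Γ' →
    (∀ a ∈ p.ker, ∀ b ∈ p.ker, a * b = b * a) → (∀ a ∈ p.ker, a ^ n = 1) → FJ Γ := by
  induction n using induction_on_primes with
  | zero => exact fun h => (h rfl).elim
  | one =>
    exact fun _ Γ Γ' _ _ p h _ hn => FJP.of_vc
      (h.sub p ((injective_iff_map_eq_one p).2 fun a ha => by simpa using hn a ha))
  | prime_mul π n hπ ih =>
    intro h0 Γ Γ' _ _ p h hc hn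
    let N : Subgroup Γ :=
      { carrier := {a | a ∈ p.ker ∧ a ^ π = 1}
        one_mem' := ⟨one_mem _, one_pow _⟩
        mul_mem' := fun {a b} ha hb => ⟨mul_mem ha.1 hb.1, by
          rw [Commute.mul_pow (hc a ha.1 b hb.1), ha.2, hb.2, mul_one]⟩
        inv_mem' := fun ha => ⟨inv_mem ha.1, by rw [inv_pow, ha.2, inv_one]⟩ }
    have hN : N.Normal := ⟨fun a ha g => ⟨p.normal_ker.conj_mem a ha.1 g, by
      rw [conj_pow, ha.2, mul_one, mul_inv_cancel]⟩⟩
    have : Fact π.Prime := ⟨hπ⟩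
    refine fj_step p hc N (fun a ha => ha.1)
      (fun h1 => ih (right_ne_zero_of_mul h0) _ _ _ h h1 fun a ha => ?_)
      fun K B _ q hB h1 h2 => FJP.loc fun M hM => ?_
    · obtain ⟨a, rfl⟩ := QuotientGroup.mk'_surjective N a
      rw [← map_pow]
      exact (QuotientGroup.eq_one_iff _).2
        ⟨pow_mem (show a ∈ p.ker from ha) n, by rw [← pow_mul, mul_comm, hn a ha]⟩
    · have := (Group.fg_iff_subgroup_fg M).2 hM
      exact fj_elem_fg π (q.comp M.subtype) hB (fun a ha b hb => Subtype.ext (h2 _ ha _ hb))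
        fun a ha => Subtype.ext (Subtype.ext (h1 _ ha).2)

theorem fj_tors_fg [Group.FG Γ] (p : Γ →* Γ') (h : IsVC Γ')
    (hc : ∀ a ∈ p.ker, ∀ b ∈ p.ker, a * b = b * a) (ht : ∀ a ∈ p.ker, IsOfFinOrder a) :
    FJ Γ := by
  obtain ⟨φ, hφ⟩ := h
  by_cases h0 : ∀ g, φ.comp p g = 1
  · exact fj_triv p φ hφ hc h0
  obtain ⟨t, h1⟩ := not_forall.1 h0
  obtain ⟨F, f1, f2, f3⟩ := exists_gens p.normal_ker (ker_le p φ) (ker_idx p φ hφ) h1
  let n := ∏ a ∈ f1.toFinset, orderOf a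
  refine fj_exp n (Finset.prod_ne_zero_iff.2 fun a ha =>
    (ht a (f2 (f1.mem_toFinset.1 ha))).orderOf_pos.ne') _ _ p ⟨φ, hφ⟩ hc fun a ha => ?_
  exact (f3
    { carrier := {a | a ∈ p.ker ∧ a ^ n = 1}
      one_mem' := ⟨one_mem _, one_pow _⟩
      mul_mem' := fun {a b} ha hb => ⟨mul_mem ha.1 hb.1, by
        rw [Commute.mul_pow (hc a ha.1 b hb.1), ha.2, hb.2, mul_one]⟩
      inv_mem' := fun ha => ⟨inv_mem ha.1, by rw [inv_pow, ha.2, inv_one]⟩ }
    (fun a ha => ha.1)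
    (fun a ha => ⟨f2 ha, orderOf_dvd_iff_pow_eq_one.1
      (Finset.dvd_prod_of_mem _ (f1.mem_toFinset.2 ha))⟩)
    (fun m a ha => ⟨p.normal_ker.conj_mem a ha.1 _, by
      rw [conj_pow, ha.2, mul_one, mul_inv_cancel]⟩) ha).2

theorem fj_abvc (p : Γ →* Γ') (h : IsVC Γ') (hc : ∀ a ∈ p.ker, ∀ b ∈ p.ker, a * b = b * a) :
    FJ Γ := by
  let N : Subgroup Γ :=
    { carrier := {a | a ∈ p.ker ∧ IsOfFinOrder a}
      one_mem' := ⟨one_mem _, IsOfFinOrder.one⟩
      mul_mem' := fun {a b} ha hb =>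
        ⟨mul_mem ha.1 hb.1, Commute.isOfFinOrder_mul (hc a ha.1 b hb.1) ha.2 hb.2⟩
      inv_mem' := fun ha => ⟨inv_mem ha.1, ha.2.inv⟩ }
  have hN : N.Normal := ⟨fun a ha g => ⟨p.normal_ker.conj_mem a ha.1 g,
    (MulAut.conj g).toMonoidHom.isOfFinOrder ha.2⟩⟩
  refine fj_step p hc N (fun a ha => ha.1) (fun h1 => fj_tf _ h h1 fun a ha h2 => ?_)
    fun K B _ q hB h1 h2 => FJP.loc fun M hM => ?_
  · obtain ⟨a, rfl⟩ := QuotientGroup.mk'_surjective N a
    obtain ⟨n, hn, e⟩ := isOfFinOrder_iff_pow_eq_one.1 h2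
    rw [← map_pow] at e
    exact (QuotientGroup.eq_one_iff a).2
      ⟨ha, (((QuotientGroup.eq_one_iff _).1 e).2.of_pow hn.ne')⟩
  · have := (Group.fg_iff_subgroup_fg M).2 hM
    exact fj_tors_fg (q.comp M.subtype) hB (fun a ha b hb => Subtype.ext (h2 _ ha _ hb))
      fun a ha => M.subtype_injective.isOfFinOrder_iff.1
        (K.subtype_injective.isOfFinOrder_iff.1 (h1 _ ha).2)

end Pool.Agent.MP_f7db47_al.VD

end

section

/-!
Linear groups and their extensions with virtually solvable kernel.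
-/

namespace Pool.Agent.MP_f7db47_al.VD

open GN GF VC Function

variable {Γ Γ' : Type} [Group Γ] [Group Γ']

theorem fj_der (h : FJ Γ') (d : ℕ) : ∀ (Γ : Type) [Group Γ] (p : Γ →* Γ'),
    derivedSeries p.ker d = ⊥ → FJ Γ := by
  induction d with
  | zero =>
    intro Γ _ p hp
    refine h.sub p ((injective_iff_map_eq_one p).2 fun a ha => ?_)
    have : (⟨a, ha⟩ : p.ker) ∈ derivedSeries p.ker 0 := Subgroup.mem_top _
    rw [hp] at this
    exact congrArg Subtype.val (Subgroup.mem_bot.1 this)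
  | succ d ih =>
    intro Γ _ p hp
    let A := (derivedSeries p.ker d).map p.ker.subtype
    have hA : A.Normal := inferInstance
    have hle : A ≤ p.ker := Subgroup.map_subtype_le _
    let p' := QuotientGroup.lift A p hle
    let π : p.ker →* p'.ker := ((QuotientGroup.mk' A).comp p.ker.subtype).codRestrict _ fun x => x.2
    have hπ : Surjective π := by
      rintro ⟨x, hx⟩
      obtain ⟨x, rfl⟩ := QuotientGroup.mk'_surjective A x
      exact ⟨⟨x, hx⟩, rfl⟩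
    refine FJP.ext (QuotientGroup.mk' A) (ih _ p' ?_) fun B hB =>
      fj_abvc ((QuotientGroup.mk' A).subgroupComap B) hB ?_
    · rw [← map_derivedSeries_eq hπ, Subgroup.map_eq_bot_iff]
      exact fun x hx => Subtype.ext ((QuotientGroup.eq_one_iff _).2 ⟨x, hx, rfl⟩)
    · rw [ker_res, QuotientGroup.ker_mk']
      rintro a ⟨x, hx, ha⟩ b ⟨y, hy, hb⟩
      have h1 := Subgroup.commutator_mem_commutator hx hy
      rw [← derivedSeries_succ, hp, Subgroup.mem_bot, commutatorElement_eq_one_iff_mul_comm] at h1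
      refine Subtype.ext ?_
      change (a : Γ) * b = b * a
      have h2 := congrArg p.ker.subtype h1
      rwa [map_mul, map_mul, ha, hb] at h2

theorem fj_solv_ext (p : Γ →* Γ') (h : FJ Γ') (hs : Group.IsSolvable p.ker) : FJ Γ := by
  obtain ⟨d, hd⟩ := hs
  exact fj_der h d Γ p hd

theorem fj_nsz (ψ : Γ →* MZ) (N : Subgroup Γ) (hN : N.Normal) (hU : N ≤ ψ.ker)
    (hi : N.relIndex ψ.ker ≠ 0) (hs : Group.IsSolvable N) : FJ Γ := by
  refine fj_solv_ext (QuotientGroup.mk' N) (FJP.of_vc ⟨QuotientGroup.lift N ψ hU, ?_⟩)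
    (by rwa [QuotientGroup.ker_mk'])
  have h := idx_quot N N ψ.ker (QuotientGroup.lift N ψ hU) rfl hi
  rw [QuotientGroup.map_mk'_self, Subgroup.relIndex_bot_left] at h
  exact Nat.finite_of_card_ne_zero h

theorem fj_vsz (ψ : Γ →* MZ) (U : Subgroup Γ) (hU : U ≤ ψ.ker) (hi : U.relIndex ψ.ker ≠ 0)
    (hs : Group.IsSolvable U) : FJ Γ := by
  obtain ⟨N, h1, h2, h3, h4⟩ := exists_rad ψ.ker U ψ.normal_ker hU hi hs
  exact fj_nsz ψ N h1 h2 h3 h4

theorem fj_vsolv_ext (p : Γ →* Γ') (h : FJ Γ') (U : Subgroup Γ) (hU : U ≤ p.ker)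
    (hi : U.relIndex p.ker ≠ 0) (hs : Group.IsSolvable U) : FJ Γ := by
  refine FJP.ext p h fun B ⟨φ, hφ⟩ => ?_
  have h1 : p.ker ≤ B.comap p := Subgroup.ker_le_comap p B
  have h2 : U.subgroupOf (B.comap p) ≤ (p.subgroupComap B).ker := by
    rw [ker_res]
    exact fun x hx => hU hx
  refine fj_vsz (φ.comp (p.subgroupComap B)) (U.subgroupOf _)
    (h2.trans fun x hx => ?_) (Subgroup.relIndex_ne_zero_trans ?_ (ker_idx _ φ hφ))
    (Group.isSolvable_of_isSolvable_injective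
      (f := (Subgroup.subgroupOfEquivOfLe (hU.trans h1)).toMonoidHom) (MulEquiv.injective _))
  · change φ (p.subgroupComap B x) = 1
    rw [show p.subgroupComap B x = 1 from hx, map_one]
  · rwa [ker_res, Subgroup.relIndex_subgroupOf h1]

theorem fj_GL (A : Type) [CommRing A] (n : ℕ) : FJ (GL (Fin n) A) := by
  refine FJ.gl (MonoidHom.id _) fun H φ h => FJP.loc fun K hK => ?_
  have := (Group.fg_iff_subgroup_fg K).2 hK
  obtain ⟨S, h1, h2, h3⟩ := virt_solv (H.subtype.comp K.subtype) (φ.comp K.subtype)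
    (fun g hg _ => Subtype.ext (Subtype.ext hg)) fun g hg => h g hg
  refine fj_nsz 1 S h1 (fun _ _ => rfl) ?_ h3
  rw [MonoidHom.ker_one, Subgroup.relIndex_top_right]
  exact h2.index_ne_zero

theorem fj_slin {A : Type} [CommRing A] {n : ℕ} (p : Γ →* GL (Fin n) A) (U : Subgroup Γ)
    (hU : U ≤ p.ker) (hi : U.relIndex p.ker ≠ 0) (hs : Group.IsSolvable U) : FJ Γ :=
  fj_vsolv_ext p (fj_GL A n) U hU hi hs

theorem fj_lie (E : Type) [NormedAddCommGroup E] [NormedSpace ℝ E]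
    [FiniteDimensional ℝ E] (L : Type) [TopologicalSpace L] [ChartedSpace E L] [Group L]
    [LieGroup (modelWithCornersSelf ℝ E) 1 L] [Finite (ConnectedComponents L)] : FJ L := by
  obtain ⟨n, f, hf⟩ := GL.exists_ad E L
  have := topologicalGroup_of_lieGroup (modelWithCornersSelf ℝ E) 1 (G := L)
  obtain ⟨L₀, h0, h1⟩ := GL.exists_comp L
  refine fj_slin f (L₀ ⊓ f.ker) inf_le_right ?_ (Group.isSolvable_of_comm fun a b =>
    Subtype.ext (hf a a.2.2 b (h1 b b.2.1)))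
  rw [Subgroup.inf_relIndex_right]
  exact Subgroup.FiniteIndex.index_ne_zero

end Pool.Agent.MP_f7db47_al.VD

end
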