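import Pool.Agent.Mg.Ff7db47.G75c999
import Pool.Agent.Mg.Ff7db47.Gb2cb31
import Pool.Agent.Mg.Ff7db47.G1d14a0
import Pool.Agent.Mg.Ff7db47.Ga1b68d
import Pool.Agent.Mg.Ff7db47.G9a930f
import Pool.Agent.Mg.Ff7db47.G7b930a

section

/-!
Transfers in all degrees: definitions.
-/

namespace Pool.Agent.MP_f7db47_al.KN

open GN GF

/-- The nonempty cliques. -/
def Cel {Λ V : Type} (K : Λ → Finset V) (Adj : Λ → V → V → Prop) : Type :=
  {x : Λ × Finset V // Clq (Adj x.1) (K x.1) x.2 ∧ x.2.Nonempty}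

/-- A tower of carriers: cycles of level `t` bound in level `t + 1`. -/
structure Tow {G Λ V : Type} [Group G] [LinearOrder V] (F : GN.FR G (Λ × Finset V))
    (K : Λ → Finset V) (Adj : Λ → V → V → Prop) (n : ℕ) : Prop where
  dim : ∀ a σ, Clq (Adj a) (K a) σ → σ.card ≤ n
  acyc : ∀ a, Acyc (Adj a) (K a)
  face : ∀ a σ τ, τ ⊆ σ → F.rel 0 (a, τ) 1 (a, σ)
  fill : ∀ t a g b σ, Clq (Adj b) (K b) σ → σ.Nonempty →
    ∃ s : Finset V → (Finset V →₀ ℤ), ∀ τ, Clq (Adj a) (K a) τ → F.rel t (a, τ) g (b, σ) →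
      (∀ ρ, s τ ρ ≠ 0 → Clq (Adj a) (K a) ρ ∧ ρ.card = τ.card + 1 ∧
        F.rel (t + 1) (a, ρ) g (b, σ)) ∧ bd (s τ) + lin s (bd1 τ) = Finsupp.single τ 1

/-- An abstract vanishing property. `V Λ r L` says that all objects with labels in `Λ`, control
`r` and length at most `L` are trivial. -/
structure VT (G : Type) [Group G] (Q : Subgroup G → Prop) where
  V : ∀ Λ : Type, (Λ → G → Λ → Prop) → ℕ → Prop
  pull : ∀ {Λ Λ' : Type} {r : Λ → G → Λ → Prop} {r' : Λ' → G → Λ' → Prop} {L L' : ℕ}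
    (π : Λ' → Λ), (∀ a g b, r' a g b → r (π a) g (π b)) → L' ≤ L → V Λ r L → V Λ' r' L'
  tr : ∀ n : ℕ, ∃ c : ℕ, ∀ (Λ W : Type) [LinearOrder W] (F : GN.FR G (Λ × Finset W))
    (K : Λ → Finset W) (Adj : Λ → W → W → Prop) (L : ℕ), Tow F K Adj n →
    V (Cel K Adj) (fun x g y => F.rel c x.1 g y.1) (L + n) →
    V Λ (fun a g b => F.rel 1 (a, ∅) g (b, ∅)) L
  van : ∀ N k L : ℕ, ∃ r : ℕ, ∀ (Λ ι : Type) [Fintype ι] (S : ι → Spi G Λ),
    Fintype.card ι ≤ N → (∀ i a, 0 < (S i).ht a → Q ((S i).leg.grp a)) →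
    (∀ a, ∃ i, r ≤ (S i).ht a) → V Λ (fun a g b => ∀ i, (S i).rel k a g b) L
  swan : ∀ (S : Finset G) (L : ℕ), (∀ π : ℕ, π.Prime → ∃ (s : ℕ) (X₀ : Type) (_ : Finite X₀)
    (σ₀ : G →* Equiv.Perm X₀) (X : Fin s → Type) (_ : ∀ i, Finite (X i))
    (σ : ∀ i, G →* Equiv.Perm (X i)), V X₀ (fun x g y => g ∈ S ∧ σ₀ g y = x) L ∧
    (∀ i, V (X i) (fun x g y => g ∈ S ∧ σ i g y = x) L) ∧ (∀ i, ¬ π ∣ Nat.card (X i)) ∧
    ∀ g, (∃! x, σ₀ g x = x) ∨ ∃ i, σ i g = 1) → V Unit (fun _ g _ => g ∈ S) L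

/-- All objects are trivial. -/
def VT.All {G : Type} [Group G] {Q : Subgroup G → Prop} (T : VT G Q) : Prop :=
  ∀ (S : Finset G) (L : ℕ), T.V Unit (fun _ g _ => g ∈ S) L

/-- Properties of groups over `G₀`. -/
abbrev Pp (G₀ : Type) [Group G₀] : Type 1 := ∀ (G : Type) [Group G], (G →* G₀) → Prop

variable {G₀ : Type} [Group G₀]

/-- The property for a subgroup. -/
abbrev Pp.on (Q : Pp G₀) {G : Type} [Group G] (i : G →* G₀) (H : Subgroup G) : Prop :=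
  Q H (i.comp H.subtype)

/-- Passage to subgroups. -/
def Pp.Sub (Q : Pp G₀) : Prop :=
  ∀ {G H : Type} [Group G] [Group H] {i : H →* G₀} (f : G →* H), Function.Injective f →
    Q H i → Q G (i.comp f)

/-- Passage from finitely generated subgroups. -/
def Pp.Loc (Q : Pp G₀) : Prop :=
  ∀ {G : Type} [Group G] {i : G →* G₀}, (∀ K : Subgroup G, K.FG → Q.on i K) → Q G i

/-- The statement on flow spaces. -/
def Pp.Flow (Q : Pp G₀) : Prop :=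
  ∀ {Γ G : Type} [Group Γ] [Group G] {i : G →* G₀} {Fam : Set (Subgroup Γ)},
    HasPack Γ Fam → ∀ f : G →* Γ, (∀ (B : Subgroup Γ) (φ : B →* MZ),
      (∀ g, φ g = 1 → IsOfFinOrder g) → Q.on i (B.comap f)) →
    (∀ B ∈ Fam, Q.on i (B.comap f)) → Q G i

/-- The statement on actions on lattices. -/
def Pp.Lat2 (Q : Pp G₀) : Prop :=
  ∀ {G : Type} [Group G] {i : G →* G₀} {ι : Type} [Fintype ι] (P : ι → Pl) (n : ℕ)
    (ρ : ∀ l, G →* (P l).A n) {F κ : Type} [Field F] [Fintype κ] [DecidableEq κ]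
    (k : Subfield F) (f : G →* Matrix κ κ F),
    (∀ g : G, (∀ l, ∃ Y, Pl.Lat Y ∧ Pl.ac (ρ l g) Y = Y) → (f g).trace ∈ k) →
    (∀ H : Subgroup G, (∀ g ∈ ⁅H, H⁆, (f g).trace ∈ k) → Q.on i H) → Q G i

/-- The statement of Farrell and Hsiang. -/
def Pp.Fh (Q : Pp G₀) : Prop :=
  Q PUnit.{1} 1 → ∀ (N : ℕ) (G : Type) [Group G] (i : G →* G₀),
    (∀ (r : ℕ) (S₀ : Finset G) (π : ℕ), π.Prime → VC.FHD (Q.on i) N r S₀ π) → Q G i

/-- The statement on abelian quotients. -/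
def Pp.Abq (Q : Pp G₀) : Prop :=
  ∀ {G A : Type} [Group G] [CommGroup A] {i : G →* G₀}, (∀ q : A, IsOfFinOrder q → q = 1) →
    ∀ φ : G →* A, (∀ (H : Subgroup G) (ψ : H →* MZ), (∀ x : H, ψ x = 1 → φ x = 1) → Q.on i H) →
    Q G i

/-- The statement on linear groups. -/
def Pp.Gl (Q : Pp G₀) : Prop :=
  ∀ {G A : Type} [Group G] [CommRing A] {i : G →* G₀} {n : ℕ} (f : G →* GL (Fin n) A),
    (∀ (H : Subgroup G) (φ : H →* MZ), (∀ g : H, φ g = 1 → QU (f g).val) → Q.on i H) → Q G i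

/-- The property `Q` can be reduced to an abstract vanishing property when `Q₀` holds. -/
def Pp.Red (Q Q₀ : Pp G₀) : Prop :=
  Q PUnit.{1} 1 → ∀ (G : Type) [Group G] (i : G →* G₀), Q₀ G i →
    (∀ (Δ : Type) [Group Δ] (p : Δ →* G),
      (∀ K : Subgroup G, Q.on i K → Q.on (i.comp p) (K.comap p)) →
      ∀ T : VT Δ (Q.on (i.comp p)), T.All) → Q G i

end Pool.Agent.MP_f7db47_al.KN

end

section

/-!
The tower of boxes.
-/

namespace Pool.Agent.MP_f7db47_al.KN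

open GN GN.Pl

variable {G : Type} [Group G] {bl : Bl G} {C : ℕ} {P : Pl} {n : ℕ}

/-- All members of `τ` lie in the box around `σ`, with a common shift. -/
def XG1_R (bl : Bl G) (m e : ℕ) (c : ℤ) (g : G) (τ σ : Finset (G → ℤ)) : Prop :=
  ∃ δ : ℤ, ∀ x ∈ τ, ∀ s ∈ bl.B (m - e), g⁻¹ * s ∈ bl.B (m - e) →
    (∃ η ∈ σ, η (g⁻¹ * s) ≤ x s + δ) ∧ ∃ η ∈ σ, x s + δ ≤ η (g⁻¹ * s) + c

theorem XG1_face {m e : ℕ} {τ σ : Finset (G → ℤ)} (h : τ ⊆ σ) : XG1_R bl m e 0 1 τ σ :=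
  ⟨0, fun x hx s _ _ => ⟨⟨x, h hx, by simp⟩, x, h hx, by simp⟩⟩

theorem XG1_mono {m e e' : ℕ} {c c' : ℤ} {g : G} {τ σ : Finset (G → ℤ)} (he : e ≤ e')
    (hc : c ≤ c') (h : XG1_R bl m e c g τ σ) : XG1_R bl m e' c' g τ σ := by
  obtain ⟨δ, h⟩ := h
  have h3 : m - e' ≤ m - e := by omega
  refine ⟨δ, fun x hx s s1 s2 => ?_⟩
  obtain ⟨h1, η, b1, b2⟩ := h x hx s (bl.mono h3 s1) (bl.mono h3 s2)
  exact ⟨h1, η, b1, by omega⟩

theorem XG1_comp {m e e' : ℕ} {c c' : ℤ} {g g' : G} {τ σ ρ : Finset (G → ℤ)} (he : e + e' ≤ m)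
    (hg : g ∈ bl.B e) (hg' : g' ∈ bl.B e') (h : XG1_R bl m e c g τ σ)
    (h' : XG1_R bl m e' c' g' σ ρ) : XG1_R bl m (e + e') (c + c') (g * g') τ ρ := by
  obtain ⟨δ, h⟩ := h
  obtain ⟨δ', h'⟩ := h'
  refine ⟨δ + δ', fun x hx s s1 s2 => ?_⟩
  have e1 : g'⁻¹ * (g⁻¹ * s) = (g * g')⁻¹ * s := by group
  have e2 : g⁻¹ * s = g' * ((g * g')⁻¹ * s) := by group
  obtain ⟨⟨η₁, d1, d2⟩, η₂, d3, d4⟩ := h x hx s (bl.mono (by omega) s1)
    (e2 ▸ bl.mono (by omega) (bl.mul hg' s2))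
  have s3 : g⁻¹ * s ∈ bl.B (m - e') := bl.mono (by omega) (bl.mul (bl.inv hg) s1)
  have s4 : g'⁻¹ * (g⁻¹ * s) ∈ bl.B (m - e') := e1 ▸ bl.mono (by omega) s2
  obtain ⟨⟨η₃, d5, d6⟩, -⟩ := h' η₁ d1 _ s3 s4
  obtain ⟨-, η₄, d7, d8⟩ := h' η₂ d3 _ s3 s4
  rw [e1] at d6 d8
  exact ⟨⟨η₃, d5, by omega⟩, η₄, d7, by omega⟩

theorem XG1_sub {m e : ℕ} {c : ℤ} {g : G} {K τ σ : Finset (G → ℤ)} (hK : τ ⊆ K)
    (h : XG1_R bl m e c g τ σ) : τ ⊆ NCar_Box bl m K g e c σ := by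
  obtain ⟨δ, h⟩ := h
  exact fun x hx => NCar_mem_Box.2 ⟨hK hx, δ, fun s hs =>
    h x hx s (NCar_mem_Fx.1 hs).1 (NCar_mem_Fx.1 hs).2⟩

theorem XG1_clq (a : Ac G bl C P n) {q m e : ℕ} (hq : 0 < q) {W : P.S n} {c : ℤ} {g : G}
    {ρ σ : Finset (G → ℤ)} (h : Clq (AdjT (bl.B m)) (NCar_Box bl m (a.Kv q W m) g e c σ) ρ)
    (hne : ρ.Nonempty) : XG1_R bl m e (c + 1) g ρ σ := by
  obtain ⟨η₀, c1, c2⟩ := NCar_least a hq ⟨h.1.trans NCar_Box_sub, h.2⟩ hne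
  obtain ⟨-, δ, c3⟩ := NCar_mem_Box.1 (h.1 c1)
  refine ⟨δ, fun x hx s s1 s2 => ?_⟩
  obtain ⟨⟨η₁, d1, d2⟩, η₂, d3, d4⟩ := c3 s (NCar_mem_Fx.2 ⟨s1, s2⟩)
  have f1 := c2 x hx s (bl.mono (Nat.sub_le _ _) s1)
  exact ⟨⟨η₁, d1, by omega⟩, η₂, d3, by omega⟩

theorem XG1_contr {V : Type} [LinearOrder V] {Adj : V → V → Prop} {K : Finset V}
    (h : Acyc Adj K) : ∃ s : Finset V → (Finset V →₀ ℤ), ∀ σ, Clq Adj K σ →
      Ch Adj K (σ.card + 1) (s σ) ∧ bd (s σ) + lin s (bd1 σ) = Finsupp.single σ 1 := by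
  obtain ⟨o, s, ⟨h1, h2⟩, h3⟩ := GF.FTr2_contr h
  refine ⟨s, fun σ hσ => ?_⟩
  rcases σ.eq_empty_or_nonempty with rfl | hne
  · rw [h2]
    refine ⟨CExt_ch_single ⟨Finset.singleton_subset_iff.2 h1, by simp⟩ rfl, ?_⟩
    rw [CExt_bd_single, CExt_bd1_empty, map_zero, add_zero]
    simp [bd1, Finset.filter_singleton]
  · exact h3 σ hσ hne

theorem tow_gn (a : Ac G bl C P n) (o : LinearOrder (G → ℤ)) {J : Type} (F : GN.FR G J)
    (hF : F.Good bl) (h : J → ℕ) (W : J → P.S n) {q m U k : ℕ} (hq : 0 < q) (hk : 0 < k)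
    (hl : ∀ {t x g y}, F.rel t x g y → h y ≤ h x + t) (hm : ∀ x, 2 * h x ≤ m) (hU : m ≤ U)
    (hW : ∀ x, 0 < h x → W x ≠ ⊥)
    (htr : ∀ {t x g y}, F.rel t x g y → t < h x → t < h y → ∃ u, a.Tr U g (W x) (W y) u) :
    ∃ F' : GN.FR G (J × Finset (G → ℤ)),
      @Tow G J (G → ℤ) _ o F' (fun j => a.Kn q m (h j) (W j)) (fun _ => AdjT (bl.B m)) (n + 1) ∧
      (∀ i g j, F.rel k i g j → F'.rel 1 (i, ∅) g (j, ∅)) ∧
      ∀ t i τ g j σ x y, F'.rel t (i, τ) g (j, σ) →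
        Clq (AdjT (bl.B m)) (a.Kn q m (h j) (W j)) σ → x ∈ τ → y ∈ σ →
        F.rel ((t + 1) * k) i g j ∧ ((t + 1) * k < h i → (t + 1) * k < h j →
          ∃ δ, HC bl m ((t + 1) * k) g x y δ) := by
  have hac : ∀ j, @Acyc (G → ℤ) o (AdjT (bl.B m)) (a.Kn q m (h j) (W j)) := fun j =>
    @Dism.acyc _ o _ (adjT_symm _) _ (NCar_dism_Kn a hq (hW j))
  have h0 : ∀ j, F.rel (0 * k) j 1 j := fun j => F.mono (Nat.zero_le _) (F.refl j)
  refine ⟨⟨fun t x g y => F.rel (t * k) x.1 g y.1 ∧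
    (t * k < h x.1 → t * k < h y.1 → XG1_R bl m (t * k) t g x.2 y.2),
    fun x => ⟨h0 _, fun _ _ => XG1_face subset_rfl⟩, fun {t t' x g y} ht h1 => ?_,
    fun {t t' x g y g' z} h1 h2 => ?_⟩, ?_, fun i g j h1 => ?_,
    fun t i τ g j σ x y h1 h2 hx hy => ?_⟩
  · have e := Nat.mul_le_mul_right k ht
    exact ⟨F.mono e h1.1, fun a1 a2 => XG1_mono e (by exact_mod_cast ht)
      (h1.2 (by omega) (by omega))⟩
  · rw [add_mul, Nat.cast_add]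
    refine ⟨F.comp h1.1 h2.1, fun a1 a2 => ?_⟩
    have b1 := hl (hF.symm h1.1)
    have b2 := hl h2.1
    have b3 := hm x.1
    exact XG1_comp (by omega) (hF.ball h1.1) (hF.ball h2.1) (h1.2 (by omega) (by omega))
      (h2.2 (by omega) (by omega))
  · refine @Tow.mk G J (G → ℤ) _ o _ _ _ _ (fun j σ h1 => ?_) hac
      (fun j σ τ h1 => ⟨h0 _, fun _ _ => XG1_face h1⟩) fun t i g j σ h2 h3 => ?_
    · by_cases h0 : 0 < h j
      · rw [NCar_Kn a _ h0] at h1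
        exact (a.clq_card hq h1).trans (Nat.le_succ n)
      · have h2 := h1.1
        rw [Ac.Kn, if_neg h0] at h2
        exact (Finset.card_le_card h2).trans (by simp)
    · have e : (t + 1) * k = t * k + k := Nat.succ_mul t k
      by_cases h4 : F.rel (t * k) i g j ∧ t * k < h i ∧ t * k < h j
      · obtain ⟨h1, a1, a2⟩ := h4
        obtain ⟨u, hu⟩ := htr h1 a1 a2
        have h5 := hm i
        rw [NCar_Kn a _ (by omega)] at h2 ⊢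
        obtain ⟨s, hs⟩ := @XG1_contr _ o _ _ (@Dism.acyc _ o _ (adjT_symm _) _
          (NCar_dism_box a hq hU (hW i (by omega)) hu (e := t * k)
            (bl.mono (by omega) (hF.ball h1)) h2.1 h3 (Int.natCast_nonneg t)))
        refine ⟨s, fun τ c1 c2 => ?_⟩
        obtain ⟨c3, c4⟩ := hs τ ⟨XG1_sub c1.1 (c2.2 a1 a2), c1.2⟩
        refine ⟨fun ρ hρ => ?_, c4⟩
        obtain ⟨c5, c6⟩ := c3 ρ hρ
        have c7 : ρ.Nonempty := Finset.card_pos.1 (by omega)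
        exact ⟨⟨c5.1.trans NCar_Box_sub, c5.2⟩, c6, F.mono (by omega) h1, fun _ _ =>
          XG1_mono (by omega) (by push_cast; rfl) (XG1_clq a hq c5 c7)⟩
      · obtain ⟨s, hs⟩ := @XG1_contr _ o _ _ (hac i)
        refine ⟨s, fun τ c1 c2 => ⟨fun ρ hρ => ?_, (hs τ c1).2⟩⟩
        obtain ⟨c5, c6⟩ := (hs τ c1).1 ρ hρ
        exact ⟨c5, c6, F.mono (by omega) c2.1, fun a1 a2 =>
          absurd ⟨c2.1, lt_of_le_of_lt (by omega) a1, lt_of_le_of_lt (by omega) a2⟩ h4⟩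
  · exact ⟨F.mono (one_mul k).ge h1, fun _ _ => ⟨0, fun x hx => absurd hx (by simp)⟩⟩
  · have e : (t + 1) * k = t * k + k := Nat.succ_mul t k
    have e2 : t + 1 ≤ (t + 1) * k := Nat.le_mul_of_pos_right _ hk
    refine ⟨F.mono (by omega) h1.1, fun a1 a2 => ?_⟩
    rw [NCar_Kn a _ (by omega)] at h2
    obtain ⟨η₀, -, c2⟩ := NCar_least a hq h2 ⟨y, hy⟩
    obtain ⟨δ, x2⟩ := XG1_mono (e' := (t + 1) * k) (by omega) le_rfl
      (h1.2 (lt_of_le_of_lt (by omega) a1) (lt_of_le_of_lt (by omega) a2))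
    refine ⟨-δ, fun s s1 s2 => ?_⟩
    obtain ⟨⟨η₁, d1, d2⟩, η₂, d3, d4⟩ := x2 x hx s s1 s2
    have s3 := bl.mono (Nat.sub_le _ _) s2
    have f1 := c2 η₁ d1 _ s3
    have f2 := c2 η₂ d3 _ s3
    have f3 := c2 y hy _ s3
    rw [abs_le]
    generalize (t + 1) * k = r at e2 ⊢
    omega

end Pool.Agent.MP_f7db47_al.KN

end

section

/-!
The tree of windows.
-/

namespace Pool.Agent.MP_f7db47_al.KN

open GN GN.Pl GZ

theorem XG2_step {G : Type} [Group G] {Q : Subgroup G → Prop} (T : VT G Q) (n : ℕ) :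
    ∃ c : ℕ, 0 < c ∧ ∀ (ι : Type) [Fintype ι]
    (P : ι → Pl) (bl : Bl G) (C β cδ U' : ℕ) (a : ∀ l, Ac G bl C (P l) n) (p : Par),
    p.OK n C U' → n * (C + 6) ≤ cδ → ∀ (J : Type) [Fintype J] (F : GN.FR G J),
    F.Good bl → ∀ (ν : Nd P n β J) (l : ι), ν.Inv a F p.Rt p.X cδ p.U → 0 < ν.rk l →
    ∀ k : ℕ, 0 < k →
    ∃ (J' : Type) (_ : Fintype J') (π : J' → J) (F' : GN.FR G J')
      (ch : Fin n × Fin (n + 1) × Fin n → Nd P n β J'), F'.Good bl ∧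
      (∀ t x g y, F'.rel t x g y → F.rel t (π x) g (π y)) ∧
      Fintype.card J' ≤
        Fintype.card J * ((2 * (p.q * C * p.m) + 1) ^ bl.s₀ ^ p.m + 1) ^ (n + 1) ∧
      (∀ c, (ch c).Inv a F' p.Rt p.X cδ U' ∧ (ch c).r = ν.r - 1) ∧
      (∀ x, 0 < ν.h (π x) → ∃ c, ν.h (π x) / 2 ≤ (ch c).h x) ∧
      ∀ L, T.V J' (F'.rel (c * k)) (L + (n + 1)) → T.V J (F.rel k) L := by
  obtain ⟨c, ht⟩ := T.tr (n + 1)
  refine ⟨c + 1, by omega, fun ι _ P bl C β cδ U' a p hp hcδ J _ F hF ν l hν hl k hk => ?_⟩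
  classical
  let o : LinearOrder (G → ℤ) := linearOrderOfSTO WellOrderingRel
  have hm : ∀ x, 2 * ν.h x ≤ p.m := fun x => by
    have := hν.hle x
    have := hp.m1
    omega
  obtain ⟨F₁, hF₁, hr⟩ := exists_ext
    (Λ' := {x : J × (G → ℤ) // x.2 ∈ (a l).Kn p.q p.m (ν.h x.1) (ν.W x.1 l)}) F hF ν.h p.m hν.lip
    (fun x => by have := hm x; omega) (fun x => x.1.1) fun x => x.1.2
  obtain ⟨F₂, hT, h1, h2⟩ := tow_gn (a l) o F hF ν.h (fun x => ν.W x l) hp.q0 hk hν.lip hm hp.u1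
    (fun x hx e => by
      have := hν.rank x l hx
      rw [e, finrank_bot] at this
      omega)
    (fun h h1 h2 => by
      obtain ⟨δ, -, -, h3⟩ := hν.close h h1 h2
      obtain ⟨u, h4, -⟩ := h3 l
      exact ⟨u, h4⟩)
  let J' : Type := @CMainP J (G → ℤ) _ o (fun j => (a l).Kn p.q p.m (ν.h j) (ν.W j l))
    fun _ => AdjT (bl.B p.m)
  let lab : J' → {x : J × (G → ℤ) // x.2 ∈ (a l).Kn p.q p.m (ν.h x.1) (ν.W x.1 l)} :=
    @CMainL J (G → ℤ) _ _ o _ _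
  have hη : ∀ x, 0 < ν.h (lab x).1.1 → (lab x).1.2 ∈ (a l).Kv p.q (ν.W (lab x).1.1 l) p.m :=
    fun x hx => by
      have := (lab x).2
      rwa [Ac.Kn, if_pos hx] at this
  refine ⟨J', inferInstance, fun x => (lab x).1.1, F₁.pull lab,
    fun t => ν.child a p l (fun x => (lab x).1.1) (fun x => (lab x).1.2) t.1 t.2.1 t.2.2,
    ⟨fun h => hF₁.symm h, fun h => hF₁.ball h⟩, fun t x g y h => ((hr _ _ _ _).1 h).1,
    @CMain_card_P J (G → ℤ) _ _ o _ _ _ _ (@Tow.dim _ _ _ _ o _ _ _ _ hT)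
      fun j => card_Kn (a l) _ _ _ _,
    fun t => ⟨Nd.child_inv (F' := F₁.pull lab) (π := fun x => (lab x).1.1)
      (η := fun x => (lab x).1.2) hp hcδ hF hν hl (fun t x g y h => (hr _ _ _ _).1 h) hη t.1.2
      (Nat.lt_succ_iff.1 t.2.1.2) _, rfl⟩, fun x hx => ?_, fun L hV => ?_⟩
  · obtain ⟨τ, hτ, κ, hκ, d, hd, h⟩ := Nd.child_cover (π := fun x => (lab x).1.1)
      (η := fun x => (lab x).1.2) hp hν (hη x hx)
    exact ⟨(⟨τ, hτ⟩, ⟨κ, Nat.lt_succ_of_le hκ⟩, ⟨d, hd⟩), h⟩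
  · let j : Cel (fun j => (a l).Kn p.q p.m (ν.h j) (ν.W j l)) (fun _ => AdjT (bl.B p.m)) → J' :=
      fun x => ⟨x.1, (@CMain_mem_P J (G → ℤ) _ _ o _ _ _).2
        ⟨Finset.mem_univ _, (@CMain_mem_S _ o _ _ _).2 x.2⟩⟩
    refine T.pull id h1 le_rfl (@ht J (G → ℤ) o F₂ _ _ L hT (T.pull j (fun x g y h => ?_) le_rfl hV))
    exact (hr _ _ _ _).2 (h2 c x.1.1 x.1.2 g y.1.1 y.1.2 _ _ h y.2.1
      (@CMainL_mem J (G → ℤ) _ _ o _ _ (j x)) (@CMainL_mem J (G → ℤ) _ _ o _ _ (j y)))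

theorem XG2_tree {G : Type} [Group G] {Q : Subgroup G → Prop} (T : VT G Q) (n β : ℕ) :
    ∃ kf Nf e : ℕ, ∀ (ι : Type) [Fintype ι]
    (P : ι → Pl) (bl : Bl G) (C cδ Rt X R₀ Mb Mf Lf : ℕ) (a : ∀ l, Ac G bl C (P l) n) (Uf : ℕ → ℕ)
    (p : ℕ → Par), (∀ r, (p r).OK n C (Uf r) ∧ (p r).Rt = Rt ∧ (p r).X = X ∧
      (p r).U = Uf (r + 1)) → n * (C + 6) ≤ cδ → 0 < R₀ → 0 < Mb →
    (∀ r < β, ((2 * ((p r).q * C * (p r).m) + 1) ^ bl.s₀ ^ (p r).m + 1) ^ (n + 1) ≤ Mb) →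
    (∀ (J N : Type) [Fintype J] [Fintype N] (F : GN.FR G J) (ν : N → Nd P n β J),
      F.Good bl → Fintype.card N ≤ Nf →
      Fintype.card J ≤ Mf → (∀ i, (ν i).Inv a F Rt X cδ (Uf (ν i).r) ∧ ∀ l, (ν i).rk l = 0) →
      (∀ x, ∃ i, R₀ ≤ (ν i).h x) → T.V J (F.rel kf) Lf) →
    ∀ (J : Type) [Fintype J] (F : GN.FR G J) (ν : Nd P n β J) (L : ℕ),
      F.Good bl → Fintype.card J * Mb ^ e ≤ Mf → L + (n + 1) * e ≤ Lf →
      ν.Inv a F Rt X cδ (Uf ν.r) → (∀ x, 2 ^ β * R₀ ≤ ν.h x) → T.V J (F.rel 1) L := by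
  classical
  obtain ⟨c, hc, hstep⟩ := XG2_step T n
  refine ⟨c ^ NTree_cost (n * ((n + 1) * n)) β,
    1 + n * ((n + 1) * n) * NTree_cost (n * ((n + 1) * n)) β,
    NTree_cost (n * ((n + 1) * n)) β, ?_⟩
  intro ι _ P bl C cδ Rt X R₀ Mb Mf Lf a Uf p hp hcδ hR hMb hM H
  generalize hkf : c ^ NTree_cost (n * ((n + 1) * n)) β = kf at H
  generalize hNf : 1 + n * ((n + 1) * n) * NTree_cost (n * ((n + 1) * n)) β = Nf at H
  have key : ∀ (s : ℕ) (J N : Type) [Fintype J] [Fintype N] (F : GN.FR G J)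
      (ν : N → Nd P n β J) (k L : ℕ), F.Good bl → 0 < k →
      ∑ i, NTree_cost (n * ((n + 1) * n)) (ν i).r ≤ s → k * c ^ s ≤ kf →
      Fintype.card N + n * ((n + 1) * n) * s ≤ Nf → Fintype.card J * Mb ^ s ≤ Mf →
      L + (n + 1) * s ≤ Lf →
      (∀ i, (ν i).Inv a F Rt X cδ (Uf (ν i).r)) → (∀ x, ∃ i, 2 ^ (ν i).r * R₀ ≤ (ν i).h x) →
      T.V J (F.rel k) L := by
    intro s
    induction s using Nat.strong_induction_on with
    | _ s ih =>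
    intro J N _ _ F ν k L hF hk hs hkc hN hJ hL hI hcov
    by_cases h0 : ∀ i l, (ν i).rk l = 0
    · have hk' : k ≤ kf := (Nat.le_mul_of_pos_right k (pow_pos hc s)).trans hkc
      refine T.pull id (fun _ _ _ h => F.mono hk' h) ((Nat.le_add_right _ _).trans hL)
        (H J N F ν hF ((Nat.le_add_right _ _).trans hN)
        ((Nat.le_mul_of_pos_right _ (pow_pos hMb s)).trans hJ) (fun i => ⟨hI i, h0 i⟩)
        fun x => ?_)
      obtain ⟨i, hi⟩ := hcov x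
      exact ⟨i, (Nat.le_mul_of_pos_left R₀ (pow_pos two_pos _)).trans hi⟩
    · push Not at h0
      obtain ⟨i, l, hl⟩ := h0
      have hl' : 0 < (ν i).rk l := Nat.pos_of_ne_zero hl
      have h1 : (ν i).rk l ≤ (ν i).r :=
        (Finset.single_le_sum (f := (ν i).rk) (fun _ _ => Nat.zero_le _)
          (Finset.mem_univ l)).trans (hI i).rks
      obtain ⟨r, hr⟩ : ∃ r, (ν i).r = r + 1 := ⟨(ν i).r - 1, by omega⟩
      have hrβ : r < β := by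
        have := (hI i).rle
        omega
      obtain ⟨hOK, hRt, hX, hU⟩ := hp r
      have hIi : (ν i).Inv a F (p r).Rt (p r).X cδ (p r).U := by
        rw [hRt, hX, hU, ← hr]
        exact hI i
      obtain ⟨J', _, π, F', ch, hF', hrel, hcard, hch, hcov', hT⟩ :=
        hstep ι P bl C β cδ (Uf r) a (p r) hOK hcδ J F hF (ν i) l hIi hl' k hk
      have hchr : ∀ c, (ch c).r = r := fun c => by rw [(hch c).2, hr, Nat.add_sub_cancel]
      rw [Fintype.sum_eq_add_sum_subtype_ne _ i, hr] at hs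
      have hcost : NTree_cost (n * ((n + 1) * n)) (r + 1) =
          1 + n * ((n + 1) * n) * NTree_cost (n * ((n + 1) * n)) r := rfl
      rw [hcost] at hs
      obtain ⟨s', rfl⟩ : ∃ s', s = s' + 1 := ⟨s - 1, by omega⟩
      refine hT L (ih s' (Nat.lt_succ_self s') J' ({i' // i' ≠ i} ⊕ Fin n × Fin (n + 1) × Fin n) F'
        (Sum.elim (fun i' => (ν i'.1).pull π) ch) (c * k) (L + (n + 1)) hF' (Nat.mul_pos hc hk)
        ?_ ?_ ?_ ?_ (by rw [Nat.mul_succ] at hL; omega) ?_ ?_)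
      · rw [Fintype.sum_sum_type]
        simp only [Sum.elim_inl, Sum.elim_inr, hchr, Finset.sum_const, Finset.card_univ,
          Fintype.card_prod, Fintype.card_fin, smul_eq_mul]
        have e : ∑ i' : {i' // i' ≠ i}, NTree_cost (n * ((n + 1) * n)) ((ν i'.1).pull π).r =
            ∑ i' : {i' // i' ≠ i}, NTree_cost (n * ((n + 1) * n)) (ν i'.1).r := rfl
        rw [e]
        omega
      · calc c * k * c ^ s' = k * c ^ (s' + 1) := by ring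
          _ ≤ kf := hkc
      · have e : Fintype.card {i' // i' ≠ i} ≤ Fintype.card N := Fintype.card_subtype_le _
        rw [Fintype.card_sum, Fintype.card_prod, Fintype.card_prod, Fintype.card_fin,
          Fintype.card_fin]
        rw [Nat.mul_succ] at hN
        omega
      · calc Fintype.card J' * Mb ^ s' ≤ Fintype.card J * Mb * Mb ^ s' :=
              Nat.mul_le_mul_right _ (hcard.trans (Nat.mul_le_mul_left _ (hM r hrβ)))
          _ = Fintype.card J * Mb ^ (s' + 1) := by ring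
          _ ≤ Mf := hJ
      · rintro (i' | c')
        · exact (hI i'.1).pull hrel
        · have h2 := (hch c').1
          rw [hRt, hX] at h2
          simp only [Sum.elim_inr, hchr]
          exact h2
      · intro x
        obtain ⟨j, hj⟩ := hcov (π x)
        by_cases hji : j = i
        · subst hji
          rw [hr, pow_succ] at hj
          have hpos : 0 < 2 ^ r * R₀ := Nat.mul_pos (pow_pos two_pos r) hR
          have e : 2 ^ r * 2 * R₀ = 2 * (2 ^ r * R₀) := by ring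
          obtain ⟨c', hc'⟩ := hcov' x (by omega)
          refine ⟨Sum.inr c', ?_⟩
          simp only [Sum.elim_inr, hchr]
          omega
        · exact ⟨Sum.inl ⟨j, hji⟩, hj⟩
  intro J _ F ν L hF hJ hL hI hcov
  refine key (NTree_cost (n * ((n + 1) * n)) β) J Unit F (fun _ => ν) 1 L hF one_pos ?_ ?_ ?_
    hJ hL (fun _ => hI) fun x => ⟨(), ?_⟩
  · rw [Fintype.sum_unique]
    exact NTree_mono _ hI.rle
  · rw [one_mul, hkf]
  · rw [Fintype.card_unit, hNf]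
  · exact (Nat.mul_le_mul_right _ (Nat.pow_le_pow_right two_pos hI.rle)).trans (hcov x)

theorem XG2_fin {G : Type} [Group G] {Q : Subgroup G → Prop} (T : VT G Q) (β d Nf k cδ Lf : ℕ) :
    ∃ R₀ : ℕ, 0 < R₀ ∧ ∀ c : ℕ, ∃ X : ℕ,
    ∀ (ι : Type) [Fintype ι] (P : ι → Pl) (n : ℕ) (bl : Bl G) (C Rt : ℕ)
    (a : ∀ l, Ac G bl C (P l) n) (Uf : ℕ → ℕ),
    Nice G (fun g => ∀ l, ∃ Y, Lat Y ∧ ac ((a l).ρ g) Y = Y) Q d →
    ∀ (J N : Type) [Fintype J] [Fintype N] (F : GN.FR G J) (ν : N → Nd P n β J),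
      F.Good bl → Fintype.card N ≤ Nf →
      Fintype.card J ≤ 2 ^ 2 ^ (c * (X + 1)) →
      (∀ i, (ν i).Inv a F Rt X cδ (Uf (ν i).r) ∧ ∀ l, (ν i).rk l = 0) →
      (∀ x, ∃ i, R₀ ≤ (ν i).h x) → T.V J (F.rel k) Lf := by
  obtain ⟨r, hr⟩ := T.van (Nf * ((d + 1) * (9 ^ β + 1))) (2 * k + 1) Lf
  refine ⟨2 * r + 1, by omega, fun c => ?_⟩
  obtain ⟨X, hX⟩ := win2 β d (cδ * (k + 1)) r c
  refine ⟨X, ?_⟩
  intro ι _ P n bl C Rt a Uf hQ J N _ _ F ν hF hN hJ hν hcov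
  let _ := NFin2_act P n fun l => (a l).ρ
  have hW : ∀ i j l, 0 < (ν i).h j → ∀ e, sc e (La ((ν i).W j l)) = ⊥ := fun i j l hj e =>
    NFin_bot (((hν i).1.rank j l hj).trans ((hν i).2 l)) e
  have hS := fun i => hX G (∀ l, (P l).L n) J _ _ hQ hJ (ν i).Z (fun j => 0 < (ν i).h j) (by
    intro j hj v hv g hγ l
    refine ⟨(ν i).Z j v l, ?_, congrFun hγ l⟩
    obtain ⟨e, h2, h3⟩ := (hν i).1.lat j v l hj hv
    rw [hW i j l hj, sup_bot_eq] at h2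
    exact ⟨e, h2, h3⟩)
  choose S hS1 hS2 hS3 using hS
  let S' : N × Fin (d + 1) × Fin (9 ^ β + 1) → Spi G J := fun x =>
    ⟨(S x.1 x.2).leg, fun j => min ((ν x.1).h j / 2) ((S x.1 x.2).ht j)⟩
  have key : ∀ x g y, F.rel k x g y → ∀ i, (S' i).rel (2 * k + 1) x g y := by
    rintro x g y hxy ⟨i, q⟩
    have l1 := (hν i).1.lip hxy
    have l2 := (hν i).1.lip (hF.symm hxy)
    by_cases hc : k < (ν i).h x ∧ k < (ν i).h y
    · obtain ⟨δ, hδ, -, hu⟩ := (hν i).1.close hxy hc.1 hc.2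
      obtain ⟨b1, b2, b3⟩ := hS3 i x y g δ hδ (fun v hv hv' => by
          funext l
          obtain ⟨u, -, hu'⟩ := hu l
          have h2 := hu' v hv hv' ⊥ (hW i x l (by omega) _).le bot_le
          rw [map_bot, bot_sup_eq, bot_sup_eq] at h2
          exact h2) q
      refine ⟨?_, ?_, fun hl => ?_⟩
      · simp only [S']
        omega
      · simp only [S']
        omega
      · have := b3 hl
        simp only [S']
        omega
    · refine ⟨?_, ?_, fun _ => ?_⟩ <;> simp only [S'] <;> omega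
  refine T.pull id key le_rfl (hr J (N × Fin (d + 1) × Fin (9 ^ β + 1)) S' ?_ ?_ ?_)
  · rw [Fintype.card_prod, Fintype.card_prod, Fintype.card_fin, Fintype.card_fin]
    exact Nat.mul_le_mul_right _ hN
  · rintro ⟨i, q⟩ j hj
    simp only [S'] at hj
    exact hS2 i q j (by omega) (by omega)
  · intro j
    obtain ⟨i, hi⟩ := hcov j
    obtain ⟨q, hq⟩ := hS1 i j
    refine ⟨(i, q), ?_⟩
    simp only [S']
    omega

theorem VT.nice {G : Type} [Group G] {Q : Subgroup G → Prop} (T : VT G Q) {ι : Type} [Fintype ι]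
    (P : ι → Pl) (n : ℕ) (ρ : ∀ l, G →* (P l).A n) {d : ℕ}
    (hN : Nice G (fun g => ∀ l, ∃ Y, Lat Y ∧ ac (ρ l g) Y = Y) Q d) : T.All := by
  classical
  intro S L
  obtain ⟨bl, C, a, hS, ha⟩ := exists_bl S P n ρ
  let F : GN.FR G Unit := ⟨fun t _ g _ => g ∈ bl.B t, fun _ => bl.one, bl.mono, bl.mul⟩
  obtain ⟨kf, Nf, e, ht⟩ := XG2_tree T n (Fintype.card ι * n)
  obtain ⟨R₀, hR, hf⟩ := XG2_fin T (Fintype.card ι * n) d Nf kf (n * (C + 6)) (L + (n + 1) * e)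
  obtain ⟨c, hc⟩ := exists_pars n C (2 ^ (Fintype.card ι * n) * R₀) (Fintype.card ι * n) bl.s₀
  obtain ⟨c', hc'⟩ := exists_exp (Fintype.card Unit) c e
  obtain ⟨X, hX⟩ := hf c'
  obtain ⟨Uf, p, hp, hq⟩ := hc X
  exact T.pull id (fun _ _ _ h => hS h) le_rfl
    (ht ι P bl C _ _ X R₀ _ _ _ a Uf p hp le_rfl hR (by positivity) hq
    (hX ι P n bl C _ a Uf (by simpa only [ha] using hN))
    Unit F ⟨Fintype.card ι * n, fun _ => n, fun _ => 0, fun _ => _, fun _ _ => ⊤, fun _ _ _ => ⊥⟩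
    L ⟨bl.inv, id⟩ (hc' X) le_rfl (Nd.root_inv a F _ X _ _) fun _ => le_rfl)

end Pool.Agent.MP_f7db47_al.KN

end

section

/-!
Chain contractions along a family of homotopies.
-/

namespace Pool.Agent.MP_f7db47_al.KN

open GN GF

theorem XF1_uc {X : Type} [MetricSpace X] {D : Set X} (hc : IsCompact D) {H : X → ℝ → X → X}
    (hH : ContinuousOn (fun z : X × ℝ × X => H z.1 z.2.1 z.2.2) (D ×ˢ Set.Icc 0 1 ×ˢ D))
    {e : ℝ} (he : 0 < e) : ∃ d, (0 < d ∧ d ≤ e) ∧ ∀ p ∈ D, ∀ u ∈ Set.Icc (0 : ℝ) 1,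
      ∀ u' ∈ Set.Icc (0 : ℝ) 1, ∀ y ∈ D, ∀ y' ∈ D, |u - u'| ≤ d → dist y y' ≤ d →
        dist (H p u y) (H p u' y') ≤ e := by
  obtain ⟨δ, hδ, h⟩ := Metric.uniformContinuousOn_iff_le.1
    ((hc.prod (isCompact_Icc.prod hc)).uniformContinuousOn_of_continuous hH) e he
  refine ⟨min δ e, ⟨lt_min hδ he, min_le_right _ _⟩, fun p hp u hu u' hu' y hy y' hy' h1 h2 => ?_⟩
  refine h (p, u, y) ⟨hp, hu, hy⟩ (p, u', y') ⟨hp, hu', hy'⟩ ?_
  exact max_le (by rw [dist_self]; exact hδ.le) ((max_le h1 h2).trans (min_le_left _ _))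

theorem XF1_glue {V : Type} [LinearOrder V] {K B : Finset V} {Adj : V → V → Prop}
    {C : Finset V → Finset V} {ψ : Finset V → (Finset V →₀ ℤ)} (hB : Acyc Adj B)
    (hψ : FChain_Ap K Adj (fun _ => B) ψ)
    (hh : FChain_Hp K Adj C ψ fun σ => Finsupp.single σ 1) :
    ∃ s : Finset V → (Finset V →₀ ℤ), ∀ τ, Clq Adj K τ →
      (∀ ρ, s τ ρ ≠ 0 → ρ.card = τ.card + 1 ∧ (Clq Adj B ρ ∨ (τ.Nonempty ∧ Clq Adj (C τ) ρ))) ∧
      bd (s τ) + lin s (bd1 τ) = Finsupp.single τ 1 := by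
  obtain ⟨o, s0, ⟨ho, hs0⟩, hs⟩ := FTr2_contr hB
  obtain ⟨h, h0, hh⟩ := hh
  have hs' : ∀ σ, Clq Adj B σ → Ch Adj B (σ.card + 1) (s0 σ) ∧
      bd (s0 σ) = Finsupp.single σ 1 + (-1 : ℤ) • lin s0 (bd1 σ) := by
    intro σ hσ
    rcases σ.eq_empty_or_nonempty with rfl | hne
    · rw [hs0]
      refine ⟨CExt_ch_single ⟨Finset.singleton_subset_iff.2 ho, by simp⟩ rfl, ?_⟩
      rw [CExt_bd_single, CExt_bd1_empty, map_zero, smul_zero, add_zero]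
      simp [bd1, Finset.filter_singleton]
    · refine ⟨(hs σ hσ hne).1, ?_⟩
      rw [← (hs σ hσ hne).2, neg_one_smul, add_neg_cancel_right]
  have hψ' : ∀ τ, Clq Adj K τ → Ch Adj B τ.card (ψ τ) ∧ bd (ψ τ) = lin ψ (bd1 τ) := by
    intro τ hτ
    rcases τ.eq_empty_or_nonempty with rfl | hne
    · rw [hψ.1]
      refine ⟨CExt_ch_single ⟨Finset.empty_subset _, by simp⟩ rfl, ?_⟩
      rw [CExt_bd_single, CExt_bd1_empty, map_zero]
    · exact hψ.2 τ hτ hne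
  have hh' : ∀ τ, Clq Adj K τ → bd (h τ) + lin h (bd1 τ) = Finsupp.single τ 1 - ψ τ := by
    intro τ hτ
    rcases τ.eq_empty_or_nonempty with rfl | hne
    · rw [h0, CExt_bd1_empty, map_zero, map_zero, hψ.1, sub_self, add_zero]
    · exact (hh τ hτ hne).2
  refine ⟨fun τ => h τ + (1 : ℤ) • lin s0 (ψ τ), fun τ hτ => ⟨fun ρ hρ => ?_, ?_⟩⟩
  · by_cases h1 : h τ ρ = 0
    · have h2 : lin s0 (ψ τ) ρ ≠ 0 := fun h2 => hρ (by simp [h1, h2])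
      have h3 : Ch Adj B (τ.card + 1) (lin s0 (ψ τ)) := CExt_ch_lin fun σ hσ => by
        obtain ⟨h4, h5⟩ := (hψ' τ hτ).1 σ hσ
        rw [← h5]
        exact (hs' σ h4).1
      exact ⟨(h3 ρ h2).2, Or.inl (h3 ρ h2).1⟩
    · rcases τ.eq_empty_or_nonempty with rfl | hne
      · exact absurd (by rw [h0]; rfl) h1
      · exact ⟨((hh τ hτ hne).1 ρ h1).2, Or.inr ⟨hne, ((hh τ hτ hne).1 ρ h1).1⟩⟩
  · have h4 : bd (lin s0 (ψ τ)) =
        lin (fun σ => Finsupp.single σ 1) (ψ τ) + (-1 : ℤ) • lin s0 (bd (ψ τ)) :=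
      CExt_bd_lin fun σ hσ => (hs' σ ((hψ' τ hτ).1 σ hσ).1).2
    rw [CExt_lin_add_smul, map_add, one_smul, one_smul, add_add_add_comm, hh' τ hτ, h4,
      CExt_lin_id, (hψ' τ hτ).2, ← CExt_map_lin, neg_one_smul, neg_add_cancel_right,
      sub_add_cancel]

theorem XF1_core {F : Type} [Fintype F] {D : Set (F → ℝ)} (hc : IsCompact D)
    (hne : D.Nonempty) {n : ℕ} (hT : TropC D n) {H : (F → ℝ) → ℝ → (F → ℝ) → F → ℝ}
    (hm : ∀ p ∈ D, ∀ u ∈ Set.Icc (0 : ℝ) 1, ∀ y ∈ D, H p u y ∈ D)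
    (hH : ContinuousOn (fun z : (F → ℝ) × ℝ × (F → ℝ) => H z.1 z.2.1 z.2.2)
      (D ×ˢ Set.Icc 0 1 ×ˢ D))
    (h0 : ∀ p ∈ D, ∀ y ∈ D, H p 0 y = p) (h1 : ∀ p ∈ D, ∀ y ∈ D, H p 1 y = y) {η : ℝ}
    (hη : 0 < η) :
    ∃ (V : Type) (_ : LinearOrder V) (K : Finset V) (Adj : V → V → Prop) (pt : V → F → ℝ),
      (∀ σ, Clq Adj K σ → σ.card ≤ n + 1) ∧ Acyc Adj K ∧ (∀ x ∈ K, pt x ∈ D) ∧
      (∀ x ∈ K, ∀ y ∈ K, Adj x y → dist (pt x) (pt y) ≤ η) ∧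
      ∀ p ∈ D, ∃ s : Finset V → (Finset V →₀ ℤ), ∀ τ, Clq Adj K τ →
        (∀ ρ, s τ ρ ≠ 0 → Clq Adj K ρ ∧ ρ.card = τ.card + 1 ∧ ∀ z ∈ ρ, dist (pt z) p ≤ η ∨
          ∃ y ∈ τ, ∃ u ∈ Set.Icc (0 : ℝ) 1, dist (pt z) (H p u (pt y)) ≤ η) ∧
        bd (s τ) + lin s (bd1 τ) = Finsupp.single τ 1 := by
  classical
  obtain ⟨d, ⟨hd0, hd1⟩, hd⟩ := XF1_uc hc hH (e := η / 3) (by positivity)
  obtain ⟨ρ, ⟨hρ0, hρ1⟩, hρ⟩ := XF1_uc hc hH (half_pos hd0)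
  obtain ⟨V, _, K, Adj, pt, hG⟩ := exists_grid hc.isBounded hT ρ hρ0
  have z0 : (0 : ℝ) ∈ Set.Icc (0 : ℝ) 1 := ⟨le_rfl, zero_le_one⟩
  have hclq : ∀ σ, Clq Adj K σ → ∀ y ∈ σ, ∀ y' ∈ σ, dist (pt y) (pt y') ≤ ρ := by
    intro σ hσ y hy y' hy'
    rcases eq_or_ne y y' with rfl | e
    · rw [dist_self]
      exact hρ0.le
    · exact hG.adj y (hσ.1 hy) y' (hσ.1 hy') (hσ.2 y hy y' hy' e)
  refine ⟨V, inferInstance, K, Adj, pt, hG.dim, ?_, hG.mem,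
    fun x hx y hy h => (hG.adj x hx y hy h).trans (by linarith), fun p hp => ?_⟩
  · obtain ⟨R, hR⟩ := hc.isBounded.exists_norm_le
    obtain ⟨x, hx⟩ := hne
    obtain ⟨z, hz, -⟩ := hG.near x hx
    exact hG.box (fun _ => -R) (fun _ => R) K (fun z => ⟨fun h => ⟨h, fun i =>
      abs_le.1 ((norm_le_pi_norm (pt z) i).trans (hR _ (hG.mem z h)))⟩, fun h => h.1⟩) ⟨z, hz⟩
  have hosc : ∀ u ∈ Set.Icc (0 : ℝ) 1, ∀ σ, Clq Adj K σ → ∀ y ∈ σ, ∀ y' ∈ σ,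
      dist (H p u (pt y)) (H p u (pt y')) ≤ d / 2 := fun u hu σ hσ y hy y' hy' =>
    hρ p hp u hu u hu _ (hG.mem y (hσ.1 hy)) _ (hG.mem y' (hσ.1 hy'))
      (by rw [sub_self, abs_zero]; exact hρ0.le) (hclq σ hσ y hy y' hy')
  have hex : ∀ u ∈ Set.Icc (0 : ℝ) 1,
      ∃ ψ, FChain_Ap K Adj (FChain_B K pt (fun y => H p u (pt y)) d) ψ := by
    intro u hu
    obtain ⟨ψ, h⟩ := FChain_ex hG hρ0.le (fun y hy => hm p hp u hu _ (hG.mem y hy)) (hosc u hu)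
    exact ⟨ψ, FChain_ap_mono h fun σ hσ _ => FChain_B_le hσ.1 fun y _ => by
      rw [dist_self]
      linarith⟩
  obtain ⟨ψ0, hψ0⟩ := hex 0 z0
  obtain ⟨C, hC⟩ : ∃ C : Finset V → Finset V, ∀ σ x, x ∈ C σ ↔ x ∈ K ∧ ∀ y ∈ σ,
      ∃ u ∈ Set.Icc (0 : ℝ) 1, dist (pt x) (H p u (pt y)) ≤ η :=
    ⟨fun σ => K.filter _, fun σ x => Finset.mem_filter⟩
  have hBC : ∀ u ∈ Set.Icc (0 : ℝ) 1, ∀ r ≤ η, ∀ σ,
      FChain_B K pt (fun y => H p u (pt y)) r σ ⊆ C σ :=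
    fun u hu r hr σ z hz => (hC _ _).2 ⟨(FChain_mem_B.1 hz).1, fun y hy =>
      ⟨u, hu, ((FChain_mem_B.1 hz).2 y hy).trans hr⟩⟩
  have hstep : ∀ u ∈ Set.Icc (0 : ℝ) 1, ∀ u' ∈ Set.Icc (0 : ℝ) 1,
      |u' - u| ≤ d → ∀ χ ψ, FChain_Ap K Adj (FChain_B K pt (fun y => H p u' (pt y)) d) χ →
        FChain_Ap K Adj (FChain_B K pt (fun y => H p u (pt y)) (d + η / 3)) ψ →
          FChain_Hp K Adj C χ ψ := fun u hu u' hu' h χ ψ h2 h3 =>
    FChain_hp_mono (FChain_hp hG hρ0.le (fun y hy => hm p hp u hu _ (hG.mem y hy))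
      (hosc u hu) (by linarith) (FChain_ap_mono h2 fun σ hσ _ =>
        FChain_B_le hσ.1 fun y hy => add_le_add le_rfl (hd p hp u' hu' u hu _ (hG.mem y hy)
          _ (hG.mem y hy) h (by rw [dist_self]; exact hd0.le))) h3)
      fun σ _ _ => hBC u hu _ (by linarith) σ
  have hind : ∀ m : ℕ, ∀ u ∈ Set.Icc (0 : ℝ) 1, u ≤ m * d →
      ∀ ψ, FChain_Ap K Adj (FChain_B K pt (fun y => H p u (pt y)) (d + η / 3)) ψ →
        FChain_Hp K Adj C ψ0 ψ := by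
    intro m
    induction m with
    | zero =>
      intro u hu h ψ hψ
      rw [Nat.cast_zero, zero_mul] at h
      exact hstep u hu 0 z0 (abs_le.2 ⟨by linarith, by linarith [hu.1]⟩) _ _ hψ0 hψ
    | succ m ih =>
      intro u hu h ψ hψ
      rw [Nat.cast_succ, add_mul, one_mul] at h
      have hu' : max (u - d) 0 ∈ Set.Icc (0 : ℝ) 1 :=
        ⟨le_max_right _ _, max_le (by linarith [hu.2]) zero_le_one⟩
      obtain ⟨χ, hχ⟩ := hex _ hu'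
      refine FChain_hp_trans (ih _ hu' (max_le (by linarith) (by positivity)) χ
        (FChain_ap_mono hχ fun σ hσ _ => FChain_B_le hσ.1 fun y _ => ?_))
        (hstep u hu _ hu' (abs_le.2 ⟨?_, ?_⟩) χ ψ hχ hψ)
      · rw [dist_self]
        linarith
      · linarith [le_max_left (u - d) 0]
      · linarith [max_le (by linarith : u - d ≤ u) hu.1]
  obtain ⟨m, hm'⟩ := exists_nat_ge (1 / d)
  have hh := hind m 1 ⟨zero_le_one, le_rfl⟩ ((div_le_iff₀ hd0).1 hm') _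
    (FChain_ap_id fun σ hσ z hz => FChain_mem_B.2 ⟨hσ.1 hz, fun y hy => by
      rw [h1 p hp _ (hG.mem y (hσ.1 hy))]
      linarith [hclq σ hσ z hz y hy]⟩)
  obtain ⟨z₀, hz₀, -⟩ := hG.near p hp
  have hB : Acyc Adj (FChain_Car K pt (fun _ => p) d {z₀}) :=
    FChain_car_acyc hG (fun _ _ => hp) (by linarith) _
      ⟨Finset.singleton_subset_iff.2 hz₀, by simp⟩ (Finset.singleton_nonempty _)
  have hB' : ∀ z ∈ FChain_Car K pt (fun _ => p) d {z₀}, z ∈ K ∧ dist (pt z) p ≤ η := by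
    intro z hz
    have h := FChain_mem_B.1 (FChain_car_sub (w := 0) hd0.le (fun _ _ _ _ => (dist_self _).le) hz)
    exact ⟨h.1, (h.2 z₀ (Finset.mem_singleton_self _)).trans (by linarith)⟩
  obtain ⟨s, hs⟩ := XF1_glue hB (FChain_ap_mono hψ0 fun σ hσ ⟨y, hy⟩ z hz => by
    have h := FChain_mem_B.1 hz
    refine FChain_mem h.1 (Finset.mem_singleton_self z₀) ?_
    have h2 := h.2 y hy
    rwa [h0 p hp _ (hG.mem y (hσ.1 hy))] at h2) hh
  refine ⟨s, fun τ hτ => ⟨fun ρ' hρ' => ?_, (hs τ hτ).2⟩⟩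
  obtain ⟨h2, h3 | ⟨⟨y, hy⟩, h3⟩⟩ := (hs τ hτ).1 ρ' hρ'
  · exact ⟨⟨fun z hz => (hB' z (h3.1 hz)).1, h3.2⟩, h2, fun z hz => Or.inl (hB' z (h3.1 hz)).2⟩
  · exact ⟨⟨fun z hz => ((hC _ _).1 (h3.1 hz)).1, h3.2⟩, h2,
      fun z hz => Or.inr ⟨y, hy, ((hC _ _).1 (h3.1 hz)).2 y hy⟩⟩

theorem exists_contr {X F : Type} [MetricSpace X] [Fintype F] {D : Set X} (hc : IsCompact D)
    (hne : D.Nonempty) {e : X → F → ℝ} (he : ContinuousOn e D) (hinj : Set.InjOn e D) {n : ℕ}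
    (hT : TropC (e '' D) n) {H : X → ℝ → X → X}
    (hm : ∀ p ∈ D, ∀ u ∈ Set.Icc (0 : ℝ) 1, ∀ y ∈ D, H p u y ∈ D)
    (hH : ContinuousOn (fun z : X × ℝ × X => H z.1 z.2.1 z.2.2) (D ×ˢ Set.Icc 0 1 ×ˢ D))
    (h0 : ∀ p ∈ D, ∀ y ∈ D, H p 0 y = p) (h1 : ∀ p ∈ D, ∀ y ∈ D, H p 1 y = y) {η : ℝ}
    (hη : 0 < η) :
    ∃ (V : Type) (_ : LinearOrder V) (K : Finset V) (Adj : V → V → Prop) (pt : V → X),
      (∀ σ, Clq Adj K σ → σ.card ≤ n + 1) ∧ Acyc Adj K ∧ (∀ x ∈ K, pt x ∈ D) ∧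
      (∀ x ∈ K, ∀ y ∈ K, Adj x y → dist (pt x) (pt y) ≤ η) ∧
      ∀ p ∈ D, ∃ s : Finset V → (Finset V →₀ ℤ), ∀ τ, Clq Adj K τ →
        (∀ ρ, s τ ρ ≠ 0 → Clq Adj K ρ ∧ ρ.card = τ.card + 1 ∧ ∀ z ∈ ρ, dist (pt z) p ≤ η ∨
          ∃ y ∈ τ, ∃ u ∈ Set.Icc (0 : ℝ) 1, dist (pt z) (H p u (pt y)) ≤ η) ∧
        bd (s τ) + lin s (bd1 τ) = Finsupp.single τ 1 := by
  have : Nonempty X := hne.nonempty
  obtain ⟨inv, hinv⟩ : ∃ inv : (F → ℝ) → X, ∀ x ∈ D, inv (e x) = x :=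
    ⟨Function.invFunOn e D, fun x hx => hinj.leftInvOn_invFunOn hx⟩
  have hmi : ∀ y ∈ e '' D, inv y ∈ D := by
    rintro _ ⟨x, hx, rfl⟩
    rwa [hinv x hx]
  have hei : ∀ y ∈ e '' D, e (inv y) = y := by
    rintro _ ⟨x, hx, rfl⟩
    rw [hinv x hx]
  have hD' : IsCompact (e '' D) := hc.image_of_continuousOn he
  have hci : ContinuousOn inv (e '' D) := by
    refine continuousOn_iff_isClosed.2 fun t ht => ⟨e '' (t ∩ D),
      ((hc.inter_left ht).image_of_continuousOn (he.mono Set.inter_subset_right)).isClosed, ?_⟩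
    ext y
    constructor
    · rintro ⟨h, x, hx, rfl⟩
      rw [Set.mem_preimage, hinv x hx] at h
      exact ⟨⟨x, ⟨h, hx⟩, rfl⟩, x, hx, rfl⟩
    · rintro ⟨⟨x, hx, rfl⟩, h⟩
      exact ⟨by rw [Set.mem_preimage, hinv x hx.2]; exact hx.1, h⟩
  obtain ⟨δ, hδ, hu⟩ :=
    Metric.uniformContinuousOn_iff_le.1 (hD'.uniformContinuousOn_of_continuous hci) η hη
  have hcont : ContinuousOn (fun z : (F → ℝ) × ℝ × (F → ℝ) => e (H (inv z.1) z.2.1 (inv z.2.2)))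
      ((e '' D) ×ˢ Set.Icc 0 1 ×ˢ (e '' D)) := by
    refine he.comp (f := fun z : (F → ℝ) × ℝ × (F → ℝ) => H (inv z.1) z.2.1 (inv z.2.2)) ?_
      fun z hz => hm _ (hmi _ hz.1) _ hz.2.1 _ (hmi _ hz.2.2)
    exact hH.comp (f := fun z : (F → ℝ) × ℝ × (F → ℝ) => (inv z.1, z.2.1, inv z.2.2))
      ((hci.comp continuousOn_fst fun z hz => hz.1).prodMk
        ((continuous_fst.comp continuous_snd).continuousOn.prodMk
          (hci.comp (continuous_snd.comp continuous_snd).continuousOn fun z hz => hz.2.2)))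
      fun z hz => ⟨hmi _ hz.1, hz.2.1, hmi _ hz.2.2⟩
  obtain ⟨V, _, K, Adj, pt, hdim, hac, hpt, hadj, hs⟩ := XF1_core hD' (hne.image e) hT
    (H := fun p u y => e (H (inv p) u (inv y)))
    (fun p hp u hu' y hy => ⟨_, hm _ (hmi p hp) u hu' _ (hmi y hy), rfl⟩) hcont
    (fun p hp y hy => by rw [h0 _ (hmi p hp) _ (hmi y hy), hei p hp])
    (fun p hp y hy => by rw [h1 _ (hmi p hp) _ (hmi y hy), hei y hy]) hδ
  have hn : ∀ z ∈ K, ∀ x ∈ D, dist (pt z) (e x) ≤ δ → dist (inv (pt z)) x ≤ η := by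
    intro z hz x hx h
    have h2 := hu _ (hpt z hz) _ ⟨x, hx, rfl⟩ h
    rwa [hinv x hx] at h2
  refine ⟨V, inferInstance, K, Adj, fun x => inv (pt x), hdim, hac, fun x hx => hmi _ (hpt x hx),
    fun x hx y hy h => hu _ (hpt x hx) _ (hpt y hy) (hadj x hx y hy h), fun p hp => ?_⟩
  obtain ⟨s, hs⟩ := hs (e p) ⟨p, hp, rfl⟩
  refine ⟨s, fun τ hτ => ⟨fun ρ hρ => ?_, (hs τ hτ).2⟩⟩
  obtain ⟨h2, h3, h4⟩ := (hs τ hτ).1 ρ hρ
  refine ⟨h2, h3, fun z hz => ?_⟩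
  rcases h4 z hz with h5 | ⟨y, hy, u, hu', h5⟩
  · exact Or.inl (hn z (h2.1 hz) p hp h5)
  · rw [hinv p hp] at h5
    exact Or.inr ⟨y, hy, u, hu',
      hn z (h2.1 hz) _ (hm p hp u hu' _ (hmi _ (hpt y (hτ.1 hy)))) h5⟩

end Pool.Agent.MP_f7db47_al.KN

end

section

/-!
The tower of tubes.
-/

namespace Pool.Agent.MP_f7db47_al.KN

open GN GF Metric

/-- The point `x` is near the ray from the base point to `w`. -/
def XF2_near {S : Sp} (h : S.Geo) (a b : ℝ) (x w : S.X) : Prop :=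
  ∃ l : ℝ, 0 ≤ l ∧ l ≤ 1 ∧ 1 - a ≤ l ∧ dist x (h.ln S.o w l) ≤ b

theorem XF2_near.mono {S : Sp} {h : S.Geo} {a b a' b' : ℝ} {x w : S.X}
    (hx : XF2_near h a b x w) (ha : a ≤ a') (hb : b ≤ b') : XF2_near h a' b' x w := by
  obtain ⟨l, l0, l1, l2, l3⟩ := hx
  exact ⟨l, l0, l1, by linarith, l3.trans hb⟩

theorem XF2_near.move {S : Sp} {h : S.Geo} {a b d : ℝ} {x w w' : S.X}
    (hx : XF2_near h a b x w) (hw : dist w w' ≤ d) : XF2_near h a (b + d) x w' := by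
  obtain ⟨l, l0, l1, l2, l3⟩ := hx
  refine ⟨l, l0, l1, l2, ?_⟩
  have e1 := h.ln_conv S.o w S.o w' l0 l1
  rw [dist_self, mul_zero, zero_add] at e1
  have e2 : l * dist w w' ≤ dist w w' := mul_le_of_le_one_left dist_nonneg l1
  have e3 := dist_triangle x (h.ln S.o w l) (h.ln S.o w' l)
  linarith

theorem XF2_comp {S : Sp} {h : S.Geo} {G : Type} [Group G] {ρ : G →* Equiv.Perm S.X}
    (hρ : S.Isom ρ) (g : G) {a b a' b' d : ℝ} {x y w : S.X} (hd : dist (ρ g S.o) S.o ≤ d)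
    (hx : XF2_near h a b x (ρ g y)) (hy : XF2_near h a' b' y w) :
    XF2_near h (a + a') (b + (b' + a' * d)) x (ρ g w) := by
  obtain ⟨m, m0, m1, m2, m3⟩ := hy
  have e1 : dist (ρ g y) (h.ln (ρ g S.o) (ρ g w) m) ≤ b' := by
    rw [← h.ln_smul hρ g _ _ m0 m1, hρ.iso]
    exact m3
  have e2 := h.ln_conv (ρ g S.o) (ρ g w) S.o (ρ g w) m0 m1
  rw [dist_self, mul_zero, add_zero] at e2
  have e3 : (1 - m) * dist (ρ g S.o) S.o ≤ a' * d :=
    mul_le_mul (by linarith) hd dist_nonneg (by linarith)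
  have e4 := dist_triangle (ρ g y) (h.ln (ρ g S.o) (ρ g w) m) (h.ln S.o (ρ g w) m)
  obtain ⟨l, l0, l1, l2, l3⟩ :=
    hx.move (w' := h.ln S.o (ρ g w) m) (d := b' + a' * d) (by linarith)
  rw [h.ln_ln _ _ m l0 l1] at l3
  refine ⟨m * l, mul_nonneg m0 l0, mul_le_one₀ m1 l0 l1, ?_, l3⟩
  nlinarith [mul_nonneg (sub_nonneg.2 m1) (sub_nonneg.2 l1)]

theorem XF2_mid {S : Sp} {h : S.Geo} {a b d l0 u : ℝ} {x w z : S.X} (h0 : 0 ≤ l0) (h1 : l0 ≤ 1)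
    (h2 : 1 - a ≤ l0) (hx : XF2_near h a b x w) (u0 : 0 ≤ u) (u1 : u ≤ 1)
    (hz : dist z (h.ln (h.ln S.o w l0) x u) ≤ d) : XF2_near h a (d + b) z w := by
  obtain ⟨l, a0, a1, a2, a3⟩ := hx
  have e1 := h.ln_eq (h.aff _ (h.ln_mem S.o w) (l - l0) l0) u0 u1
  simp only [mul_zero, zero_add, mul_one, sub_add_cancel] at e1
  have e2 := h.ln_conv (h.ln S.o w l0) x (h.ln S.o w l0) (h.ln S.o w l) u0 u1
  rw [dist_self, mul_zero, zero_add, e1] at e2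
  have e3 : u * dist x (h.ln S.o w l) ≤ dist x (h.ln S.o w l) :=
    mul_le_of_le_one_left dist_nonneg u1
  have e4 := dist_triangle z (h.ln (h.ln S.o w l0) x u) (h.ln S.o w ((l - l0) * u + l0))
  have v := sub_nonneg.2 u1
  refine ⟨(l - l0) * u + l0, ?_, ?_, ?_, by linarith⟩
  · nlinarith [mul_nonneg a0 u0, mul_nonneg h0 v]
  · nlinarith [mul_nonneg (sub_nonneg.2 a1) u0, mul_nonneg (sub_nonneg.2 h1) v]
  · nlinarith [mul_nonneg (sub_nonneg.2 a2) u0, mul_nonneg (sub_nonneg.2 h2) v]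

/-- The filtered relation of tubes. -/
def XF2_FR {S : Sp} (h : S.Geo) {G : Type} [Group G] {ρ : G →* Equiv.Perm S.X} (hρ : S.Isom ρ)
    {C η r : ℝ} (hC : 0 ≤ C) (hη : 0 < η) (hr : 0 < r) (hCr : C * C ≤ 2 * η * r) {V : Type}
    (pt : V → S.X) : GN.FR G (Unit × Finset V) where
  rel t a g b := dist (ρ g S.o) S.o ≤ t * C ∧
    ∀ x ∈ a.2, ∃ y ∈ b.2, XF2_near h (t * C / r) (t ^ 2 * η) (pt x) (ρ g (pt y))
  refl a := by
    refine ⟨by simp, fun x hx => ⟨x, hx, 1, zero_le_one, le_rfl, by simp, ?_⟩⟩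
    simp [h.ln_one]
  mono := by
    intro k k' a g b hk hab
    have hk' : (k : ℝ) ≤ k' := by exact_mod_cast hk
    have e1 : (k : ℝ) * C ≤ k' * C := mul_le_mul_of_nonneg_right hk' hC
    refine ⟨hab.1.trans e1, fun x hx => ?_⟩
    obtain ⟨y, hy, hxy⟩ := hab.2 x hx
    exact ⟨y, hy, hxy.mono (div_le_div_of_nonneg_right e1 hr.le) (by gcongr)⟩
  comp := by
    intro k k' a g b g' c hab hbc
    refine ⟨?_, fun x hx => ?_⟩
    · have e1 := dist_triangle (ρ g (ρ g' S.o)) (ρ g S.o) S.o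
      rw [hρ.iso] at e1
      rw [map_mul, Equiv.Perm.mul_apply, Nat.cast_add]
      linarith [hab.1, hbc.1]
    · obtain ⟨y, hy, hxy⟩ := hab.2 x hx
      obtain ⟨z, hz, hyz⟩ := hbc.2 y hy
      refine ⟨z, hz, ?_⟩
      rw [map_mul, Equiv.Perm.mul_apply, Nat.cast_add]
      refine (XF2_comp hρ g hab.1 hxy hyz).mono (le_of_eq (by ring)) ?_
      have e1 : C * C / r ≤ 2 * η := by rwa [div_le_iff₀ hr]
      have e2 : (k' : ℝ) * C / r * (k * C) = k * k' * (C * C / r) := by ring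
      have e3 : (k : ℝ) * k' * (C * C / r) ≤ k * k' * (2 * η) :=
        mul_le_mul_of_nonneg_left e1 (by positivity)
      rw [e2]
      linarith

theorem XF2_ball {S : Sp} (h : S.Geo) {r d : ℝ} (hr : 0 < r) {w : S.X}
    (hw : dist w S.o ≤ r + d) : h.ln S.o w (max 0 (1 - d / r)) ∈ closedBall S.o r := by
  rw [mem_closedBall, FHa_dist h _ (le_max_left _ _)]
  rcases le_total 0 (1 - d / r) with h1 | h1
  · rw [max_eq_right h1]
    refine (mul_le_mul_of_nonneg_left hw h1).trans ?_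
    have e1 : (1 - d / r) * (r + d) = r - d ^ 2 / r := by
      field_simp
      ring
    have e2 : 0 ≤ d ^ 2 / r := by positivity
    linarith
  · rw [max_eq_left h1, zero_mul]
    exact hr.le

theorem tow_flow {S : Sp} (hS : S.Good) {n : ℕ} (hn : S.Fine n) {G : Type} [Group G]
    {ρ : G →* Equiv.Perm S.X} (hρ : S.Isom ρ) {C η : ℝ} {r : ℕ} (hC : 0 ≤ C) (hη : 0 < η)
    (hr : 0 < r) (hCr : C * C ≤ 2 * η * r) :
    ∃ (V : Type) (_ : LinearOrder V) (K : Finset V) (Adj : V → V → Prop) (pt : V → S.X)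
      (F : GN.FR G (Unit × Finset V)), Tow F (fun _ => K) (fun _ => Adj) (n + 1) ∧
      (∀ x ∈ K, pt x ∈ closedBall S.o r) ∧
      (∀ g, dist (ρ g S.o) S.o ≤ C → F.rel 1 ((), ∅) g ((), ∅)) ∧
      ∀ (t : ℕ) τ g σ x y, F.rel t ((), τ) g ((), σ) → Clq Adj K σ → x ∈ τ → y ∈ σ →
        dist (ρ g S.o) S.o ≤ t * C ∧ ∃ l : ℝ, 0 ≤ l ∧ l ≤ 1 ∧ 1 - t * C / r ≤ l ∧
          dist (pt x) (hS.geo.ln S.o (ρ g (pt y)) l) ≤ (t ^ 2 + 1) * η := by
  have h := hS.geo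
  have hr' : (0 : ℝ) < r := by exact_mod_cast hr
  obtain ⟨F, _, e, he, hinj, hT⟩ := hn r hr
  obtain ⟨V, _, K, Adj, pt, hdim, hac, hpt, hadj, hs⟩ := exists_contr (hS.cpt S.o r)
    ⟨S.o, mem_closedBall_self hr'.le⟩ he hinj hT (H := fun p u y => hS.geo.ln p y u)
    (fun p hp u hu y hy => by
      have e1 := hS.geo.ln_pt p y S.o hu.1 hu.2
      rw [mem_closedBall] at hp hy ⊢
      have e2 := mul_le_mul_of_nonneg_left hp (sub_nonneg.2 hu.2)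
      have e3 := mul_le_mul_of_nonneg_left hy hu.1
      linarith)
    (hS.geo.ln_cont.comp (f := fun z : S.X × ℝ × S.X => ((z.1, z.2.2), z.2.1))
      (Continuous.continuousOn (by fun_prop)) fun z hz => ⟨Set.mem_univ _, hz.2.1⟩)
    (fun p _ y _ => hS.geo.ln_zero p y) (fun p _ y _ => hS.geo.ln_one p y) (half_pos hη)
  have hcl : ∀ σ, Clq Adj K σ → ∀ g, ∀ y ∈ σ, ∀ y' ∈ σ,
      dist (ρ g (pt y)) (ρ g (pt y')) ≤ η / 2 := by
    intro σ hσ g y hy y' hy'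
    rw [hρ.iso]
    by_cases hyy : y = y'
    · rw [hyy, dist_self]
      exact (half_pos hη).le
    · exact hadj y (hσ.1 hy) y' (hσ.1 hy') (hσ.2 y hy y' hy' hyy)
  refine ⟨V, inferInstance, K, Adj, pt, XF2_FR hS.geo hρ hC hη hr' hCr pt,
    ⟨fun _ => hdim, fun _ => hac, ?_, ?_⟩, hpt, ?_, ?_⟩
  · intro a σ τ hτ
    have e1 := (XF2_FR hS.geo hρ hC hη hr' hCr pt).refl (a, τ)
    refine ⟨e1.1, fun x hx => ?_⟩
    obtain ⟨y, hy, hxy⟩ := e1.2 x hx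
    exact ⟨y, hτ hy, hxy⟩
  · rintro t a g b σ hσ ⟨y0, hy0⟩
    by_cases hg : dist (ρ g S.o) S.o ≤ t * C
    swap
    · exact ⟨0, fun τ _ hτ => absurd hτ.1 hg⟩
    have hw : dist (ρ g (pt y0)) S.o ≤ r + t * C := by
      have e1 := dist_triangle (ρ g (pt y0)) (ρ g S.o) S.o
      rw [hρ.iso] at e1
      have e2 := mem_closedBall.1 (hpt y0 (hσ.1 hy0))
      linarith
    have ht : (0 : ℝ) ≤ t := Nat.cast_nonneg t
    have hq : 0 ≤ (t : ℝ) * C / r := by positivity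
    have hl1 : max 0 (1 - (t : ℝ) * C / r) ≤ 1 := max_le zero_le_one (by linarith)
    have hc1 : (t : ℝ) * C ≤ ((t + 1 : ℕ) : ℝ) * C := by
      rw [Nat.cast_succ]
      linarith
    have hc2 : η / 2 + ((t : ℝ) ^ 2 * η + η / 2) ≤ ((t + 1 : ℕ) : ℝ) ^ 2 * η := by
      rw [Nat.cast_succ]
      nlinarith [mul_nonneg ht hη.le]
    obtain ⟨s, hs⟩ := hs _ (XF2_ball hS.geo hr' hw)
    refine ⟨s, fun τ hτ hrel => ⟨fun π hπ => ?_, (hs τ hτ).2⟩⟩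
    obtain ⟨p1, p2, p3⟩ := (hs τ hτ).1 π hπ
    refine ⟨p1, p2, hg.trans hc1, fun z hz => ⟨y0, hy0, ?_⟩⟩
    refine XF2_near.mono (a := t * C / r) ?_ (div_le_div_of_nonneg_right hc1 hr'.le) hc2
    rcases p3 z hz with p4 | ⟨x, hx, u, hu, p4⟩
    · refine ⟨_, le_max_left _ _, hl1, le_max_right _ _, p4.trans ?_⟩
      have : 0 ≤ (t : ℝ) ^ 2 * η := by positivity
      linarith
    · obtain ⟨y, hy, hxy⟩ := hrel.2 x hx
      exact XF2_mid (le_max_left _ _) hl1 (le_max_right _ _)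
        (hxy.move (hcl σ hσ g y hy y0 hy0)) hu.1 hu.2 p4
  · intro g hg
    exact ⟨by simpa using hg, fun x hx => absurd hx (Finset.notMem_empty x)⟩
  · intro t τ g σ x y hrel hσ hx hy
    obtain ⟨y', hy', hxy⟩ := hrel.2 x hx
    exact ⟨hrel.1, (hxy.move (hcl σ hσ g y' hy' y hy)).mono le_rfl (by linarith)⟩

end Pool.Agent.MP_f7db47_al.KN

end

section

/-!
Control of tubes over the flow space.
-/

namespace Pool.Agent.MP_f7db47_al.KN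

open GN GF Metric

theorem control2 {S : Sp} (h : S.Geo) {G : Type} [Group G] {ρ : G →* Equiv.Perm S.X}
    (hρ : S.Isom ρ) {C κ ε : ℝ} (hC : 0 ≤ C) (hκ : 0 < κ) (hε : 0 < ε) (r₀ : ℝ) :
    ∃ (r : ℕ) (L : ℝ), 0 < r ∧ r₀ ≤ r ∧ ∀ g, dist (ρ g S.o) S.o ≤ C →
      ∀ x ∈ closedBall S.o r, ∀ y ∈ closedBall S.o r, ∀ l : ℝ, 0 ≤ l → l ≤ 1 → 1 - C / r ≤ l →
        dist x (h.ln S.o (ρ g y) l) ≤ ε → ∃ s : ℝ, |s| ≤ 8 * C ∧
          ∀ t, dist (h.ctl r L x (t + s)) (ρ g (h.ctl r L y t)) ≤ 4 * ε * Real.exp (κ * |t|) := by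
  have hε2 : 0 < 2 * ε := by positivity
  have hL0 : 0 < 4 / (2 * ε * κ ^ 2) := by positivity
  obtain ⟨L, hL⟩ : ∃ L : ℝ, L = 4 / (2 * ε * κ ^ 2) + 8 * C := ⟨_, rfl⟩
  have hLp : 0 < L := by linarith
  obtain ⟨r, hr⟩ := exists_nat_ge (2 * L + 10 * C * L / ε + |r₀|)
  have hq : 0 ≤ 10 * C * L / ε := by positivity
  have ha := abs_nonneg r₀
  have hr1 : 2 * L ≤ r := by linarith
  have hr0 : (0 : ℝ) < r := by linarith
  have hr2 : 10 * C * L ≤ ε * r := by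
    have : 10 * C * L / ε ≤ r := by linarith
    rw [div_le_iff₀ hε] at this
    linarith
  refine ⟨r, L, by exact_mod_cast hr0, by linarith [le_abs_self r₀],
    fun g hg x hx y hy l l0 l1 hl hxy => ?_⟩
  have q0 : 1 - 4 * C / r ≤ l := by
    have a1 : 0 ≤ C / r := by positivity
    have a2 : 4 * C / r = 4 * (C / r) := by ring
    linarith
  obtain ⟨s, hs, hst⟩ := FHb_num hC hr0 hL0.le hL hr1 hr2 q0 l1
  refine ⟨s, hs, fun t => ?_⟩
  rw [show 4 * ε = 2 * (2 * ε) by ring]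
  refine FHb_tail (a := fun t => h.ctl r L x (t + s)) (b := fun t => ρ g (h.ctl r L y t)) hκ hε2
    (fun t => ?_) (fun t => ?_) (fun t ht => ?_) t
  · simpa using FHb_lip h hr0 L hx (t + s) (0 + s)
  · have := FHb_lip h hr0 L hy 0 t
    rw [← hρ.iso g] at this
    simpa using this
  · obtain ⟨ht0, ht1⟩ := abs_le.mp ht
    have a0 : 0 ≤ ((r : ℝ) - L + t) / r := div_nonneg (by linarith) hr0.le
    have a1 : ((r : ℝ) - L + t) / r ≤ 1 := by rw [div_le_one hr0]; linarith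
    obtain ⟨b0, b1, b2⟩ := hst t ht
    have hv : dist (ρ g S.o) (ρ g y) ≤ r := by
      rw [hρ.iso, dist_comm]
      exact hy
    have e1 := FHb_core h S.o S.o (ρ g S.o) (ρ g y) (((r : ℝ) - L + t) / r)
      (by rwa [dist_self]) hg hv zero_le_one le_rfl l0 l1 b0 b1
    rw [← h.ln_smul hρ g S.o y a0 a1, h.ln_one, one_mul] at e1
    have e2 := h.ln_conv S.o x S.o (h.ln S.o (ρ g y) l) b0 b1
    rw [dist_self, mul_zero, zero_add] at e2
    have e3 := e2.trans ((mul_le_of_le_one_left dist_nonneg b1).trans hxy)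
    have e4 := (dist_triangle _ _ _).trans (add_le_add e3 (e1.trans b2))
    rw [two_mul]
    exact e4

end Pool.Agent.MP_f7db47_al.KN

end

section

/-!
The flow space theorem and the method of Farrell and Hsiang for abstract vanishing properties.
-/

namespace Pool.Agent.MP_f7db47_al.KN

open GN GF

variable {G : Type} [Group G] {Q : Subgroup G → Prop} (T : VT G Q)

theorem VT.van2 (hQ : ∀ H H' : Subgroup G, H' ≤ H → Q H → Q H') (N k L : ℕ) : ∃ r : ℕ,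
    ∀ (Λ ι : Type) [Finite ι] (S : ι → Spi G Λ), (∀ a, {i | 0 < (S i).ht a}.ncard ≤ N) →
      (∀ i a, 0 < (S i).ht a → Q ((S i).leg.grp a)) → (∀ a, ∃ i, r ≤ (S i).ht a) →
      T.V Λ (fun a g b => ∀ i, (S i).rel k a g b) L := by
  obtain ⟨r, hr⟩ := T.van N (4 * k) L
  refine ⟨N * r + 1, fun Λ ι _ S hN hS hc => ?_⟩
  refine T.pull id (fun a g b hg => ?_) le_rfl
    (hr Λ (Fin N) (fun q => FVan_S S id q) (by simp) (fun q j hj => ?_) fun j => ?_)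
  · exact fun q => FVan_rel (l := id) hg q.1
  · have a1 : ¬ FVan_u (fun i => (S i).ht j) q ≤ FVan_u (fun i => (S i).ht j) (q + 1) :=
      not_le.2 (Nat.sub_pos_iff_lt.1 hj)
    rw [FVan_le, not_le] at a1
    obtain ⟨i, hi⟩ := Set.nonempty_of_ncard_ne_zero (Nat.zero_lt_of_lt a1).ne'
    exact hQ _ _ (fun g hg => hg.2 i hi) (hS i j (Nat.zero_lt_of_lt hi))
  · obtain ⟨i, hi⟩ := hc j
    exact FVan_cover (hN j) hi

theorem VT.flow (hQ : ∀ H H' : Subgroup G, H' ≤ H → Q H → Q H') {Γ : Type} [Group Γ]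
    {Fam : Set (Subgroup Γ)} (hP : HasPack Γ Fam) (f : G →* Γ)
    (hc : ∀ (B : Subgroup Γ) (φ : B →* MZ), (∀ g, φ g = 1 → IsOfFinOrder g) → Q (B.comap f))
    (hF : ∀ B ∈ Fam, Q (B.comap f)) : T.All := by
  classical
  obtain ⟨S, hS, ⟨Pk⟩⟩ := hP
  intro S₀ L
  let ρ' : G →* Equiv.Perm S.X := Pk.ρ.comp f
  have hρ : S.Isom ρ' := ⟨fun γ x y => Pk.iso (f γ) x y, fun γ c hc => Pk.line (f γ) c hc⟩
  obtain ⟨C, hC0, hC1, -⟩ := FMain_bound S₀ fun g => dist (ρ' g S.o) S.o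
  obtain ⟨Y, _, _, F, ev, hE⟩ := exists_flow hS Pk.toAct
  obtain ⟨N, hN⟩ := Pack.spiders hS.geo Pk hE
  obtain ⟨n, hn⟩ := hS.fine
  obtain ⟨c, hc3⟩ := T.tr (n + 1)
  obtain ⟨r, hr⟩ := T.van2 hQ N 1 (L + (n + 1))
  have hcC : 0 ≤ (c : ℝ) * C := by positivity
  obtain ⟨ε, hε, ι, _, Tt, hT1, hT2, hT3, hT4⟩ := hN (8 * (c * C)) r (by positivity)
  obtain ⟨η, hη, hηε⟩ : ∃ η : ℝ, 0 < η ∧ ((c : ℝ) ^ 2 + 1) * η = ε / 4 :=
    ⟨ε / 4 / ((c : ℝ) ^ 2 + 1), by positivity, by field_simp⟩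
  obtain ⟨r0, L0, hr0, hCr, hct⟩ := control2 hS.geo hρ hcC hE.pos
    (show 0 < ε / 4 by positivity) (C * C / (2 * η))
  have hr0' : (0 : ℝ) < r0 := by exact_mod_cast hr0
  have hCr' : C * C ≤ 2 * η * r0 := by
    rw [div_le_iff₀ (by positivity)] at hCr
    linarith
  obtain ⟨W, _, K, Adj, pt, Fr, hTow, hpt, hrel1, hrel⟩ := tow_flow hS hn hρ hC0 hη hr0 hCr'
  have hk0 : ∀ x ∈ Metric.closedBall S.o (r0 : ℝ), ∃ y : Y, ev y = hS.geo.ctl r0 L0 x :=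
    fun x hx => hE.surj _ (hS.geo.ctl_mem hr0' L0 hx).1 (hS.geo.ctl_mem hr0' L0 hx).2
  have ho : S.o ∈ Metric.closedBall S.o (r0 : ℝ) := Metric.mem_closedBall_self hr0'.le
  have : Nonempty Y := ⟨(hk0 _ ho).choose⟩
  choose! k hk using hk0
  have hY := hr Y ι (fun i => (Tt i).pull f id) hT1 (fun i y hy => by
    obtain ⟨B₀, hB₀, hB⟩ := hT3 i y hy
    refine hQ (B₀.comap f) _ (fun x hx => hB₀ hx) ?_
    rcases hB with hB | ⟨φ, hφ⟩
    · exact hF B₀ hB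
    · exact hc B₀ φ hφ) hT4
  have h4 : 4 * (ε / 4) = ε := by ring
  refine T.pull (fun _ => ()) (fun _ g _ hg => hrel1 g (hC1 g hg)) le_rfl
    (hc3 Unit W Fr (fun _ => K) (fun _ => Adj) L hTow ?_)
  refine T.pull (fun x => k (pt (x.1.2.min' x.2.2))) (fun x g y hxy i => ?_) le_rfl hY
  have hx := hpt _ (x.2.1.1 (x.1.2.min'_mem x.2.2))
  have hy := hpt _ (y.2.1.1 (y.1.2.min'_mem y.2.2))
  obtain ⟨a1, l, a2, a3, a4, a5⟩ := hrel c x.1.2 g y.1.2 _ _ hxy y.2.1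
    (x.1.2.min'_mem x.2.2) (y.1.2.min'_mem y.2.2)
  obtain ⟨s, hs, hs'⟩ := hct g a1 _ hx _ hy l a2 a3 a4 (a5.trans hηε.le)
  refine hT2 i (k _) (f g) (k _) ⟨s, hs, ?_⟩
  rw [hE.dist_le]
  intro t
  rw [hE.flow, hE.smul, hk _ hx, hk _ hy, ← h4]
  exact hs' t

theorem VT.fh (hQ : ∀ H H' : Subgroup G, H' ≤ H → Q H → Q H') (N : ℕ)
    (h : ∀ (r : ℕ) (S₀ : Finset G) (π : ℕ), π.Prime → VC.FHD Q N r S₀ π) : T.All := by
  intro S₀ L
  obtain ⟨r, hr⟩ := T.van2 hQ N 1 L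
  have key : ∀ {X : Type} (σ : G →* Equiv.Perm X), VC.Ctrl Q N r S₀ σ →
      T.V X (fun x g y => g ∈ S₀ ∧ σ g y = x) L := by
    rintro X σ ⟨ι, _, S, c1, c2, c3, c4⟩
    refine T.pull id (fun x g y hg i => ?_) le_rfl (hr X ι S c1 c2 c3)
    obtain ⟨h1, rfl⟩ := hg
    exact c4 g h1 y i
  refine T.swan S₀ L fun π hπ => ?_
  obtain ⟨n, X₀, i₀, σ₀, X, i₁, σ, c0, c1, c2, c3⟩ := h r S₀ π hπ
  exact ⟨n, X₀, i₀, σ₀, X, i₁, σ, key σ₀ c0, fun i => key (σ i) (c1 i), c2, c3⟩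

end Pool.Agent.MP_f7db47_al.KN

end

section

/-!
From abstract vanishing properties to properties of groups.
-/

namespace Pool.Agent.MP_f7db47_al.KN

open GN GF

variable {G₀ : Type} [Group G₀] {Q Q₀ : Pp G₀}

theorem XR_unit (hs : Q.Sub) {G : Type} [Group G] {i : G →* G₀} (h : Q G i) : Q PUnit.{1} 1 := by
  have h1 := hs (1 : PUnit.{1} →* G) (fun _ _ _ => Subsingleton.elim _ _) h
  rwa [show i.comp (1 : PUnit.{1} →* G) = 1 from MonoidHom.ext fun _ => map_one i] at h1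

theorem XR_le (hs : Q.Sub) {G : Type} [Group G] (i : G →* G₀) (H H' : Subgroup G) (h : H' ≤ H)
    (hq : Q.on i H) : Q.on i H' :=
  hs (Subgroup.inclusion h) (Subgroup.inclusion_injective h) hq

theorem Pp.Red.flow (hR : Q.Red Q₀) (hle : ∀ (G : Type) [Group G] (i : G →* G₀), Q G i → Q₀ G i)
    (hs : Q.Sub) (h0 : Q₀.Flow) : Q.Flow := by
  intro Γ G _ _ i Fam hP f hc hF
  refine hR (XR_unit hs (hc ⊥ 1 fun g _ => ?_)) G i
    (h0 hP f (fun B φ hφ => hle _ _ (hc B φ hφ)) fun B hB => hle _ _ (hF B hB))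
    fun Δ _ p hp T => ?_
  · rw [Subsingleton.elim g 1]
    exact IsOfFinOrder.one
  · exact T.flow (XR_le hs _) hP (f.comp p) (fun B φ hφ => hp _ (hc B φ hφ))
      fun B hB => hp _ (hF B hB)

theorem Pp.Red.lat2 (hR : Q.Red Q₀) (hle : ∀ (G : Type) [Group G] (i : G →* G₀), Q G i → Q₀ G i)
    (hs : Q.Sub) (h0 : Q₀.Lat2) : Q.Lat2 := by
  intro G _ i ι _ P n ρ F κ _ _ _ k f hE hH
  refine hR (XR_unit hs (hH ⊥ fun g hg => ?_)) G i
    (h0 P n ρ k f hE fun H h => hle _ _ (hH H h)) fun Δ _ p hp T => ?_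
  · rw [Subgroup.commutator_bot_left, Subgroup.mem_bot] at hg
    rw [hg, map_one, Matrix.trace_one]
    exact natCast_mem k _
  · refine T.nice P n (fun l => (ρ l).comp p) (d := Fintype.card κ * Fintype.card κ)
      ⟨fun K => Module.finrank F (GZ.spn (f.comp p) K), GZ.finrank_spn_bound _,
        fun s h => GZ.finrank_spn_le _ h, fun h hq => XR_le hs _ _ _ h hq,
        fun K K' S h1 h2 h3 h4 h5 h6 => ?_⟩
    refine XR_le hs _ _ _ (Subgroup.le_comap_map p _) (hp _ (hH _ ?_))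
    rw [← Subgroup.map_commutator]
    rintro _ ⟨g, hg, rfl⟩
    exact GZ.trace_commutator k (f.comp p) h1 h3 (fun x hx => hE (p x) (h2 x hx)) h4 h5 h6 g hg

theorem Pp.Red.fh (hR : Q.Red Q₀) (hle : ∀ (G : Type) [Group G] (i : G →* G₀), Q G i → Q₀ G i)
    (hs : Q.Sub) (h0 : Q₀.Fh) : Q.Fh := by
  classical
  intro h1 N G _ i h
  refine hR h1 G i (h0 (hle _ _ h1) N G i fun r S₀ π hπ => ?_) fun Δ _ p hp T => ?_
  · exact (h r S₀ π hπ).pull (MonoidHom.id G) (fun _ hg => hg) fun K hK => hle _ _ hK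
  · exact T.fh (XR_le hs _) N fun r S₀ π hπ =>
      (h r (S₀.image p) π hπ).pull p (fun _ hg => Finset.mem_image_of_mem p hg) hp

end Pool.Agent.MP_f7db47_al.KN

end
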