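import Pool.Agent.Mg.Ff7db47n.N1
import Pool.Agent.Mg.Ff7db47.G0882a1
import Pool.Agent.Mg.Ff7db47.Gcfb1bc
import Pool.Agent.Mg.Ff7db47.Ge4af1c
import Pool.Agent.Mg.Ff7db47n.N4
import Pool.Agent.Mg.Ff7db47.G3f6dcb
import Pool.Agent.Mg.Ff7db47.Ga43823
import Pool.Agent.Mg.Ff7db47.G75c999
import Pool.Agent.Mg.Ff7db47.Ge15caa

section

/-!
Complexes with supports over twisted group rings: definitions.
-/

namespace Pool.Agent.MP_f7db47_al.KN

open Matrix GN

universe v w

/-- Coefficients: a family of subrings of a ring `R` that is closed under localisation. -/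
structure Coef (ι : Type) (κ : Type w) (R : Type v) [Ring R] where
  D : κ → Subring R
  u : ι → R
  unit : ∀ a, IsUnit (u a)
  cen : ∀ a x, u a * x = x * u a
  mem : ∀ a I, u a ∈ D I
  loc : ∀ a I, ∃ I', ∀ x, x ∈ D I' ↔ ∃ s : ℕ, u a ^ s * x ∈ D I

variable {ι : Type} {κ : Type w} {R : Type v} [Ring R] {G : Type} [Group G]
  [MulSemiringAction G R] {Λ : Type}

/-- The coefficients are invariant under the action. -/
class Coef.Inv (C : Coef ι κ R) (G : Type) [Group G] [MulSemiringAction G R] : Prop where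
  D : ∀ I (g : G), ∀ x ∈ C.D I, g • x ∈ C.D I
  u : ∀ a (g : G), g • C.u a = C.u a

instance (C : Coef ι κ R) [h : C.Inv G] (I : κ) : IsInvariantSubring G (C.D I) :=
  ⟨fun g x hx => h.D I g x hx⟩

/-- The monoids generated by the central units. -/
noncomputable def Coef.S (C : Coef ι κ R) (G : Type) [Group G] [MulSemiringAction G R] :
    ι → Submonoid (SkewMonoidAlgebra R G) :=
  fun a => Submonoid.powers (SkewMonoidAlgebra.single 1 (C.u a))

theorem dg_pow (c : R) (n : ℕ) :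
    (SkewMonoidAlgebra.single (1 : G) c) ^ n = SkewMonoidAlgebra.single 1 (c ^ n) := by
  induction n with
  | zero => rw [pow_zero, pow_zero]; rfl
  | succ n ih => rw [pow_succ, ih, SkewMonoidAlgebra.single_mul_single, one_smul, one_mul, pow_succ]

theorem Coef.sca (C : Coef ι κ R) [h : C.Inv G] (I : κ) : Sca (C.D I) (C.S G) where
  inv := h.D I
  cen := by
    rintro a _ ⟨n, rfl⟩ x
    refine (Commute.pow_left (?_ : _ * _ = _ * _) n).eq
    induction x using TW.Sk.induction_linear with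
    | zero => simp
    | add x y hx hy => rw [mul_add, add_mul, hx, hy]
    | single g r =>
      rw [SkewMonoidAlgebra.single_mul_single, SkewMonoidAlgebra.single_mul_single, one_smul,
        h.u, one_mul, mul_one, C.cen]
  sc := by
    rintro a _ ⟨n, rfl⟩
    exact ⟨C.u a ^ n, pow_mem (C.mem a I) n, dg_pow _ n⟩

theorem Coef.uni (C : Coef ι κ R) : Uni (C.S G) := by
  rintro a _ ⟨n, rfl⟩
  obtain ⟨c, hc⟩ := C.unit a
  refine IsUnit.pow n ⟨⟨SkewMonoidAlgebra.single 1 (C.u a), SkewMonoidAlgebra.single 1 (↑c⁻¹ : R),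
    ?_, ?_⟩, rfl⟩ <;>
    rw [SkewMonoidAlgebra.single_mul_single, one_smul, one_mul, ← hc]
  · rw [c.mul_inv]; rfl
  · rw [c.inv_mul]; rfl

/-- The families given by a filtered relation. -/
theorem Coef.gr (C : Coef ι κ R) [C.Inv G] (I : κ) (F : GN.FR G Λ) :
    Gr (fun k => ctl (C.D I) (F.rel k)) (C.S G) where
  mono _ _ h _ _ _ hx g := ⟨(hx g).1, fun e => F.mono h ((hx g).2 e)⟩
  mul _ _ := ctl_mul (C.sca I).inv fun _ _ _ _ _ => F.comp
  cen := (C.sca I).cen
  stab a w hw _ := (C.sca I).stab _ a w hw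

/-- The family given by a groupoid. -/
theorem Coef.good (C : Coef ι κ R) [C.Inv G] (I : κ) (B : Gpd G Λ) :
    Good (ctl (C.D I) B.r) (C.S G) :=
  ⟨ctl_mul (C.sca I).inv fun _ _ _ _ _ => B.trans, (C.sca I).cen, (C.sca I).stab _⟩

theorem one_mem_ctl (D : Subring R) {r : Λ → G → Λ → Prop} {a : Λ} (h : r a 1 a) :
    (1 : SkewMonoidAlgebra R G) ∈ ctl D r a a := fun g => by
  classical
  rw [SkewMonoidAlgebra.one_def, SkewMonoidAlgebra.coeff_single_apply]
  split_ifs with e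
  · exact ⟨one_mem D, fun _ => e ▸ h⟩
  · exact ⟨zero_mem D, fun c => absurd rfl c⟩

theorem Coef.isLoc (C : Coef ι κ R) (a : ι) (I : κ) : ∃ I', ∀ (Λ : Type) (r : Λ → G → Λ → Prop),
    IsLoc (ctl (C.D I) r) (C.S G a) (ctl (C.D I') r) := by
  obtain ⟨I', h⟩ := C.loc a I
  refine ⟨I', fun Λ r i j x => ⟨fun hx => ?_, ?_⟩⟩
  · choose s hs using fun g => (h _).1 (hx g).1
    refine ⟨_, ⟨x.coeff.support.sup s, rfl⟩, fun g => ?_⟩
    beta_reduce
    rw [dg_pow, SkewMonoidAlgebra.coeff_single_one_mul]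
    refine ⟨?_, fun e => (hx g).2 (right_ne_zero_of_mul e)⟩
    by_cases e : x.coeff g = 0
    · rw [e, mul_zero]
      exact zero_mem _
    · obtain ⟨m, hm⟩ := Nat.exists_eq_add_of_le' (Finset.le_sup (f := s) (Finsupp.mem_support_iff.2 e))
      rw [hm, pow_add, mul_assoc]
      exact mul_mem (pow_mem (C.mem a I) m) (hs g)
  · rintro ⟨_, ⟨n, rfl⟩, hx⟩ g
    have e := hx g
    beta_reduce at e
    rw [dg_pow, SkewMonoidAlgebra.coeff_single_one_mul] at e
    exact ⟨(h _).2 ⟨n, e.1⟩, fun c => e.2 fun d => c (((C.unit a).pow n).mul_right_eq_zero.1 d)⟩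

/-- Vanishing for a subgroup, inside the ring of the big group. -/
def NZs (C : Coef ι κ R) (H : Subgroup G) : Prop :=
  ∀ (I : κ) (K : Finset ι), NullAll (ctl (C.D I) fun (_ : Unit) (g : G) _ => g ∈ H) (C.S G) K

/-- The property of a subgroup that is used for blocks and legs. -/
def QG (C : Coef ι κ R) [C.Inv G] (H : Subgroup G) : Prop :=
  (∀ I, TW.QQ (C.D I) H) ∧ ∀ H' ≤ H, NZs C H'

theorem QG.le {C : Coef ι κ R} [C.Inv G] {H H' : Subgroup G} (h : QG C H) (hH : H' ≤ H) :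
    QG C H' :=
  ⟨fun I => (h.1 I).sub (Subgroup.inclusion hH) (Subgroup.inclusion_injective hH),
    fun _ c => h.2 _ (c.trans hH)⟩

variable (G) in
/-- Controlled standard forms over `N` spiders. -/
def SN (C : Coef ι κ R) [C.Inv G] (N : ℕ) : Prop :=
  ∀ (I : κ) (k L : ℕ), ∃ k' : ℕ, ∀ (Λ : Type) (B : Gpd G Λ) (S : Fin N → Spi G Λ),
    (∀ a, QG C (B.grp a)) → ∀ X, Ok (ctl (C.D I) ((CR B S).rel k)) X → Bd L X →
      ∃ Y, Ok (ctl (C.D I) ((CR B S).rel k')) Y ∧ Std Y ∧ Bd (L + 1) Y ∧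
        HE (ctl (C.D I) ((CR B S).rel k')) X Y

variable (G) in
/-- Controlled certificates over `N` spiders. -/
def QN (C : Coef ι κ R) [C.Inv G] (N : ℕ) : Prop :=
  ∀ (I : κ) (K : Finset ι) (k L : ℕ), ∃ k' L' : ℕ, ∀ (Λ : Type) (B : Gpd G Λ)
    (S : Fin N → Spi G Λ), (∀ a, QG C (B.grp a)) →
      Qt (ctl (C.D I) ((CR B S).rel k)) (ctl (C.D I) ((CR B S).rel k')) (C.S G) K Std L L'

variable (G) in
/-- The vanishing statement for `N` spiders. -/
def VN (C : Coef ι κ R) [C.Inv G] (N : ℕ) : Prop :=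
  ∀ (I : κ) (K : Finset ι) (k L : ℕ), ∃ r : ℕ, ∀ (Λ : Type) (S : Fin N → Spi G Λ),
    (∀ i a, 0 < (S i).ht a → QG C ((S i).leg.grp a)) → (∀ a, ∃ i, r ≤ (S i).ht a) →
      VV (C.D I) (C.S G) K Λ (fun a g b => ∀ i, (S i).rel k a g b) L

end Pool.Agent.MP_f7db47_al.KN

end

section

/-!
The extension lemma for matrices over twisted group rings.
-/

namespace Pool.Agent.MP_f7db47_al.TW

open Matrix

universe v

section Act

variable {I M N : Type*} [Fintype I] [AddCommGroup M] [AddCommGroup N]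

/-- Integer matrices act on vectors. -/
def XA_act (Z : Matrix I I ℤ) (v : I → M) : I → M := fun z => ∑ x, Z z x • v x

theorem XA_mul (Z Z' : Matrix I I ℤ) (v : I → M) :
    XA_act (Z * Z') v = XA_act Z (XA_act Z' v) := by
  funext z
  simp only [XA_act, Matrix.mul_apply, Finset.sum_smul, Finset.smul_sum, mul_smul]
  exact Finset.sum_comm

theorem XA_add (Z Z' : Matrix I I ℤ) (v : I → M) :
    XA_act (Z + Z') v = XA_act Z v + XA_act Z' v := by
  funext z
  simp only [XA_act, Matrix.add_apply, add_smul, Finset.sum_add_distrib, Pi.add_apply]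

theorem XA_zero (Z : Matrix I I ℤ) : XA_act Z (0 : I → M) = 0 := by
  funext z
  simp [XA_act]

theorem XA_map (φ : M →+ N) (Z : Matrix I I ℤ) (v : I → M) :
    XA_act Z (fun x => φ (v x)) = fun z => φ (XA_act Z v z) := by
  funext z
  simp only [XA_act, map_sum, map_zsmul]

theorem XA_sum {ι : Type*} (s : Finset ι) (Z : Matrix I I ℤ) (v : ι → I → M) :
    XA_act Z (∑ g ∈ s, v g) = ∑ g ∈ s, XA_act Z (v g) := by
  funext z
  simp only [XA_act, Finset.sum_apply, Finset.smul_sum]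
  exact Finset.sum_comm

end Act

variable {R : Type v} [Ring R] {G : Type} [Group G] [MulSemiringAction G R] {I : Type} [Fintype I]
  [DecidableEq I]

/-- Cells with a boundary matrix and a tower of carriers. -/
structure XCx (F : GN.FR G I) (β : I → ℤ) (f : I → ℕ) (d : Matrix I I ℤ) (n : ℕ) : Prop where
  dd : d * d = 0
  sup : ∀ x y, d x y ≠ 0 → F.rel 0 x 1 y ∧ β x = β y ∧ f x + 1 = f y
  dim : ∀ x, f x ≤ n
  fill : ∀ t y g, f y ≠ 0 → ∃ Z : Matrix I I ℤ, ∀ x, F.rel t x g y →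
    (∀ z, Z z x ≠ 0 → F.rel (t + 1) z g y ∧ β z = β x ∧ f z = f x + 1) ∧
      ∀ z, (d * Z + Z * d) z x = (1 : Matrix I I ℤ) z x

variable (R G) in
/-- An integer matrix, read over the twisted group ring. -/
noncomputable def zm (d : Matrix I I ℤ) : Matrix I I (SkewMonoidAlgebra R G) :=
  (Int.castRingHom _).mapMatrix d

theorem zm_mul_apply (d : Matrix I I ℤ) (M : Matrix I I (SkewMonoidAlgebra R G)) (x y : I) :
    (zm R G d * M) x y = XA_act d (fun z => M z y) x := by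
  simp [zm, XA_act, Matrix.mul_apply]

theorem mul_zm_apply (d : Matrix I I ℤ) (M : Matrix I I (SkewMonoidAlgebra R G)) (x y : I) :
    (M * zm R G d) x y = ∑ z, d z y • M x z := by
  simp only [zm, Matrix.mul_apply, RingHom.mapMatrix_apply, Matrix.map_apply, eq_intCast,
    zsmul_eq_mul]
  exact Finset.sum_congr rfl fun z _ => (Int.cast_comm _ _).symm

theorem XA_sup {S : Set G} {x : SkewMonoidAlgebra R G} {k : ℤ} (h : k ≠ 0 → Sup S x) :
    Sup S (k • x) := by
  by_cases h0 : k = 0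
  · rw [h0, zero_zsmul]
    exact sup_zero _
  · let K : AddSubgroup (SkewMonoidAlgebra R G) :=
      { carrier := {x | Sup S x}
        add_mem' := fun hx hy => Sup.add hx hy
        zero_mem' := sup_zero _
        neg_mem' := fun hx => Sup.neg hx }
    exact K.zsmul_mem (h h0) k

theorem zm_sup {S : I → I → Set G} {d : Matrix I I ℤ} (h : ∀ x y, d x y ≠ 0 → 1 ∈ S x y) :
    MSup2 S (zm R G d) := fun x y => by
  have e : zm R G d x y = d x y • (1 : SkewMonoidAlgebra R G) := by simp [zm]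
  rw [e]
  exact XA_sup fun h0 => sup_one (h x y h0)

variable {F : GN.FR G I} {β : I → ℤ} {f : I → ℕ} {d : Matrix I I ℤ} {n : ℕ}

theorem XCx.col (h : XCx F β f d n) {t : ℕ} {y : I} (hy : f y ≠ 0) {b c : ℤ}
    {v : I → SkewMonoidAlgebra R G}
    (hv : ∀ x, Sup {g | F.rel t x g y ∧ β x = β y + b ∧ (f x : ℤ) = f y + c} (v x))
    (h0 : XA_act d v = 0) : ∃ w : I → SkewMonoidAlgebra R G, XA_act d w = v ∧ ∀ x,
      Sup {g | (F.rel (t + 1) x g y ∧ β x = β y + b ∧ (f x : ℤ) = f y + (c + 1)) ∧ f x ≠ 0}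
        (w x) := by
  classical
  choose Z hZ using fun g => h.fill t y g hy
  have hne : ∀ g x, pr {g} (v x) ≠ 0 → (v x).coeff g ≠ 0 := fun g x h1 h2 => h1 (by
    ext k
    rw [coeff_pr]
    split_ifs with h3
    · rw [Set.mem_singleton_iff.1 h3, h2]
      rfl
    · rfl)
  refine ⟨∑ g ∈ Finset.univ.biUnion fun x => (v x).coeff.support,
    XA_act (Z g) fun x => pr {g} (v x), ?_, fun z => ?_⟩
  · rw [XA_sum]
    have e : ∀ g, XA_act d (XA_act (Z g) fun x => pr {g} (v x)) = fun x => pr {g} (v x) := by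
      intro g
      have e1 : XA_act (Z g * d) (fun x => pr {g} (v x)) = 0 := by
        rw [XA_mul, XA_map, h0]
        simp only [Pi.zero_apply, map_zero]
        exact XA_zero (Z g)
      rw [← XA_mul, ← add_zero (XA_act _ _), ← e1, ← XA_add]
      funext z
      rw [XA_act, Finset.sum_congr rfl fun x _ => show _ = (1 : Matrix I I ℤ) z x • pr {g} (v x) by
        by_cases h1 : pr {g} (v x) = 0
        · rw [h1, zsmul_zero, zsmul_zero]
        · rw [(hZ g x (hv x g (hne g x h1)).1).2 z]]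
      simp [Matrix.one_apply]
    simp only [e]
    funext x
    ext k
    rw [Finset.sum_apply, show ∀ y : SkewMonoidAlgebra R G, y.coeff =
      SkewMonoidAlgebra.coeffAddEquiv y from fun _ => rfl, map_sum, Finsupp.finsetSum_apply]
    change ∑ c ∈ _, (pr {c} (v x)).coeff k = (v x).coeff k
    simp only [coeff_pr, Set.mem_singleton_iff, Finset.sum_ite_eq, Finset.mem_biUnion,
      Finset.mem_univ, true_and, Finsupp.mem_support_iff, ite_eq_left_iff]
    exact fun h1 => (not_not.1 fun h2 => h1 ⟨x, h2⟩).symm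
  · rw [Finset.sum_apply]
    refine sup_sum _ _ fun g _ => sup_sum _ _ fun x _ => XA_sup fun h1 k hk => ?_
    obtain rfl : k = g := sup_pr {g} _ k hk
    obtain ⟨a1, a2, a3⟩ := (hv x).pr k hk
    obtain ⟨b1, b2, b3⟩ := (hZ k x a1).1 z h1
    exact ⟨⟨b1, by omega, by omega⟩, by omega⟩

/-- Homogeneous matrices of level `t` that vanish on the cells of dimension zero. -/
def Lv (F : GN.FR G I) (β : I → ℤ) (f : I → ℕ) (t : ℕ) (b c : ℤ)
    (M : Matrix I I (SkewMonoidAlgebra R G)) : Prop :=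
  MSup2 (fun x y => {g | (F.rel t x g y ∧ β x = β y + b ∧ (f x : ℤ) = f y + c) ∧ f y ≠ 0}) M

theorem XCx.ext_aux (h : XCx F β f d n) (b c : ℤ) (m : ℕ) : ∀ (t : ℕ)
    (ψ : Matrix I I (SkewMonoidAlgebra R G)), Lv F β f t b c ψ → zm R G d * ψ = ψ * zm R G d →
    (∀ x y, f y + m ≤ n → ψ x y = 0) → ∃ X, Lv F β f (t + m) b (c + 1) X ∧
      (∀ x y, f x = 0 → X x y = 0) ∧ zm R G d * X + X * zm R G d = ψ := by
  induction m with
  | zero =>
    intro t ψ _ _ h0
    refine ⟨0, msup2_zero _, fun _ _ _ => rfl, ?_⟩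
    ext1 x y
    rw [h0 x y (h.dim y), Matrix.mul_zero, Matrix.zero_mul, add_zero]
    rfl
  | succ m ih =>
    intro t ψ hψ hc h0
    have key : ∀ y, ∃ w : I → SkewMonoidAlgebra R G,
        (f y + m = n → XA_act d w = fun x => ψ x y) ∧ ∀ x,
        Sup {g | ((F.rel (t + 1) x g y ∧ β x = β y + b ∧ (f x : ℤ) = f y + (c + 1)) ∧ f y ≠ 0) ∧
          f x ≠ 0 ∧ f y + m = n} (w x) := by
      intro y
      by_cases h1 : f y + m = n ∧ f y ≠ 0
      · obtain ⟨w, h2, h3⟩ := h.col h1.2 (v := fun x => ψ x y)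
          (fun x => (hψ x y).mono fun g hg => hg.1) (funext fun x => by
            rw [← zm_mul_apply, hc, mul_zm_apply]
            refine Finset.sum_eq_zero fun z _ => ?_
            by_cases h4 : d z y = 0
            · rw [h4, zero_zsmul]
            · rw [h0 x z (by have := (h.sup z y h4).2.2; omega), zsmul_zero])
        exact ⟨w, fun _ => h2, fun x => (h3 x).mono fun g hg => ⟨⟨hg.1, h1.2⟩, hg.2, h1.1⟩⟩
      · refine ⟨0, fun h2 => ?_, fun _ => sup_zero _⟩
        rw [XA_zero]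
        funext x
        exact ((hψ x y).eq_zero (sup_univ _) fun g hg _ => h1 ⟨h2, hg.2⟩).symm
    choose w hw1 hw2 using key
    let W : Matrix I I (SkewMonoidAlgebra R G) := fun x y => w y x
    have hW0 : ∀ x y, f x = 0 ∨ f y + m ≠ n → W x y = 0 := fun x y h1 =>
      (hw2 y x).eq_zero (sup_univ _) fun g hg _ => h1.elim hg.2.1 fun h2 => h2 hg.2.2
    have hW : Lv F β f (t + 1) b (c + 1) W := fun x y => (hw2 y x).mono fun g hg => hg.1
    have hd : MSup2 (fun x y => {g | F.rel 0 x g y ∧ β x = β y ∧ f x + 1 = f y}) (zm R G d) :=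
      zm_sup h.sup
    have hdd : zm R G d * zm R G d = 0 := by rw [zm, ← map_mul, h.dd, map_zero]
    obtain ⟨X, h1, h2, h3⟩ := ih (t + 1) (ψ - (zm R G d * W + W * zm R G d))
      (MSup2.sub (hψ.mono fun x y g hg => ⟨⟨F.mono (Nat.le_succ t) hg.1.1, hg.1.2⟩, hg.2⟩)
        (MSup2.add (hd.mul hW fun x y z g hg g' hg' =>
          ⟨⟨F.mono (by omega) (F.comp hg.1 hg'.1.1), by have := hg.2.1; have := hg'.1.2.1; omega,
            by have := hg.2.2; have := hg'.1.2.2; omega⟩, hg'.2⟩)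
          (MSup2.mul hW hd fun x y z g hg g' hg' =>
          ⟨⟨F.mono (by omega) (F.comp hg.1.1 hg'.1), by have := hg.1.2.1; have := hg'.2.1; omega,
            by have := hg.1.2.2; have := hg'.2.2; omega⟩, by have := hg'.2.2; omega⟩)))
      (by
        rw [mul_sub, sub_mul, hc, mul_add, add_mul, ← mul_assoc, hdd, mul_assoc W, hdd, zero_mul,
          mul_zero, zero_add, add_zero, mul_assoc])
      (fun x y hy => by
        have e : (W * zm R G d) x y = 0 := by
          rw [mul_zm_apply]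
          refine Finset.sum_eq_zero fun z _ => ?_
          by_cases h4 : d z y = 0
          · rw [h4, zero_zsmul]
          · rw [hW0 x z (Or.inr (by have := (h.sup z y h4).2.2; omega)), zsmul_zero]
        rw [Matrix.sub_apply, Matrix.add_apply, e, add_zero, zm_mul_apply, sub_eq_zero]
        by_cases h4 : f y + m = n
        · exact (congrFun (hw1 y h4) x).symm
        · rw [h0 x y (by omega), show (fun z => W z y) = 0 from
            funext fun z => hW0 z y (Or.inr h4), XA_zero]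
          rfl)
    refine ⟨W + X, MSup2.add (hW.mono fun x y g hg =>
      ⟨⟨F.mono (by omega) hg.1.1, hg.1.2⟩, hg.2⟩) (h1.mono fun x y g hg =>
      ⟨⟨F.mono (by omega) hg.1.1, hg.1.2⟩, hg.2⟩), fun x y hx => ?_, ?_⟩
    · rw [Matrix.add_apply, hW0 x y (Or.inl hx), h2 x y hx, add_zero]
    · rw [mul_add, add_mul, add_add_add_comm, h3, add_sub_cancel]

theorem XCx.ext (h : XCx F β f d n) {b c : ℤ} {t : ℕ} {ψ : Matrix I I (SkewMonoidAlgebra R G)}
    (hψ : Lv F β f t b c ψ) (hc : zm R G d * ψ = ψ * zm R G d) :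
    ∃ X, Lv F β f (t + n) b (c + 1) X ∧ (∀ x y, f x = 0 → X x y = 0) ∧
      zm R G d * X + X * zm R G d = ψ :=
  h.ext_aux b c n t ψ hψ hc fun x y hy =>
    (hψ x y).eq_zero (sup_univ _) fun g hg _ => hg.2 (by omega)

end Pool.Agent.MP_f7db47_al.TW

end

section

/-!
Perturbation of the boundary matrix.
-/

namespace Pool.Agent.MP_f7db47_al.TW

open Matrix

universe v

variable {R : Type v} [Ring R] {G : Type} [Group G] [MulSemiringAction G R] {I : Type} [Fintype I]
  [DecidableEq I]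

/-- Filtered matrices of level `t`, with a further condition `c`. -/
def Fi (F : GN.FR G I) (β : I → ℤ) (f : I → ℕ) (c : I → I → Prop) (t : ℕ) (b e : ℤ)
    (M : Matrix I I (SkewMonoidAlgebra R G)) : Prop :=
  MSup2 (fun x y => {g | (F.rel t x g y ∧ β x ≤ β y + b ∧ β x + f x = β y + f y + e) ∧ c x y}) M

variable {F : GN.FR G I} {β : I → ℤ} {f : I → ℕ} {d : Matrix I I ℤ} {n : ℕ}
  {c c' c'' : I → I → Prop} {t t' t'' : ℕ} {b b' b'' e e' e'' : ℤ}
  {M M' : Matrix I I (SkewMonoidAlgebra R G)}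

omit [Fintype I] [DecidableEq I] in
theorem Fi.mono (h : Fi F β f c t b e M) (ht : t ≤ t') (hb : b ≤ b') (hc : ∀ x y, c x y → c' x y) :
    Fi F β f c' t' b' e M :=
  MSup2.mono h fun x y _ hg =>
    ⟨⟨F.mono ht hg.1.1, by have := hg.1.2.1; omega, hg.1.2.2⟩, hc x y hg.2⟩

omit [DecidableEq I] in
theorem Fi.mul (h : Fi F β f c t b e M) (h' : Fi F β f c' t' b' e' M') (ht : t + t' ≤ t'')
    (hb : b + b' ≤ b'') (he : e + e' = e'') (hc : ∀ x y z, c x y → c' y z → c'' x z) :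
    Fi F β f c'' t'' b'' e'' (M * M') :=
  MSup2.mul h h' fun x y z _ hg _ hg' =>
    ⟨⟨F.mono ht (F.comp hg.1.1 hg'.1.1), by have := hg.1.2.1; have := hg'.1.2.1; omega,
      by have := hg.1.2.2; have := hg'.1.2.2; omega⟩, hc x y z hg.2 hg'.2⟩

omit [Fintype I] [DecidableEq I] in
theorem Fi.eq_zero (h : Fi F β f c t b e M) (hn : ∀ x, f x ≤ n) (hb : b + n < e) : M = 0 := by
  ext1 x y
  exact (h x y).eq_zero (sup_univ _) fun g hg _ => by
    have := hg.1.2.1
    have := hg.1.2.2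
    have := hn x
    omega

theorem XCx.step (h : XCx F β f d n) {N E : Matrix I I (SkewMonoidAlgebra R G)}
    (hN : Fi F β f c t' (-1) e' N) (hE : Fi F β f (fun _ y => f y ≠ 0) t b e E)
    (hc : (zm R G d + N) * E = E * (zm R G d + N)) :
    ∃ X, Fi F β f (fun x y => f x ≠ 0 ∧ f y ≠ 0) (t + n) b (e + 1) X ∧
      Fi F β f (fun _ y => f y ≠ 0) t (b - 1) e (E - (zm R G d * X + X * zm R G d)) := by
  let ψ : Matrix I I (SkewMonoidAlgebra R G) := fun x y => if β x = β y + b then E x y else 0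
  have hψ : Lv F β f t b (e - b) ψ := fun x y => by
    simp only [ψ]
    split_ifs with h1
    · exact (hE x y).mono fun g hg => ⟨⟨hg.1.1, h1, by have := hg.1.2.2; omega⟩, hg.2⟩
    · exact sup_zero _
  obtain ⟨X, h1, h2, h3⟩ := h.ext hψ (by
    ext1 x y
    have e1 : (zm R G d * ψ) x y = if β x = β y + b then (zm R G d * E) x y else 0 := by
      rw [zm_mul_apply, zm_mul_apply, XA_act, XA_act, ← Finset.sum_const_zero (s := (Finset.univ : Finset I)),
        ← Finset.sum_ite_irrel]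
      refine Finset.sum_congr rfl fun z _ => ?_
      by_cases h4 : d x z = 0
      · rw [h4, zero_zsmul, zero_zsmul, ite_self]
      · simp only [ψ, (h.sup x z h4).2.1]
        split_ifs
        · rfl
        · exact zsmul_zero _
    have e2 : (ψ * zm R G d) x y = if β x = β y + b then (E * zm R G d) x y else 0 := by
      rw [mul_zm_apply, mul_zm_apply, ← Finset.sum_const_zero (s := (Finset.univ : Finset I)),
        ← Finset.sum_ite_irrel]
      refine Finset.sum_congr rfl fun z _ => ?_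
      by_cases h4 : d z y = 0
      · rw [h4, zero_zsmul, zero_zsmul, ite_self]
      · simp only [ψ, (h.sup z y h4).2.1]
        split_ifs
        · rfl
        · exact zsmul_zero _
    rw [e1, e2]
    split_ifs with h4
    · have e3 : zm R G d * E - E * zm R G d = E * N - N * E := by
        rw [add_mul, mul_add] at hc
        rw [sub_eq_sub_iff_add_eq_add, hc, add_comm]
      have e4 : Fi F β f (fun _ _ => True) (t + t') (b - 1) (e + e') (E * N - N * E) :=
        MSup2.sub (hE.mul hN le_rfl (by omega) rfl fun _ _ _ _ _ => trivial)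
          (hN.mul hE (by omega) (by omega) (add_comm _ _) fun _ _ _ _ _ => trivial)
      rw [← sub_eq_zero, ← Matrix.sub_apply, e3]
      exact (e4 x y).eq_zero (sup_univ _) fun g hg _ => by have := hg.1.2.1; omega
    · rfl)
  refine ⟨X, fun x y g hg => ?_, fun x y => ?_⟩
  · obtain ⟨⟨a1, a2, a3⟩, a4⟩ := h1 x y g hg
    exact ⟨⟨a1, a2.le, by omega⟩, fun h4 => hg (by rw [h2 x y h4]; rfl), a4⟩
  · rw [h3, Matrix.sub_apply]
    simp only [ψ]
    split_ifs with h4
    · rw [sub_self]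
      exact sup_zero _
    · rw [sub_zero]
      exact (hE x y).mono fun g hg => ⟨⟨hg.1.1, by have := hg.1.2.1; omega, hg.1.2.2⟩, hg.2⟩

theorem XCx.fi (h : XCx F β f d n) :
    Fi F β f (fun _ y => f y ≠ 0) 0 0 (-1) (zm R G d) :=
  zm_sup fun x y h1 => by
    obtain ⟨a1, a2, a3⟩ := h.sup x y h1
    exact ⟨⟨a1, by omega, by omega⟩, by omega⟩

/-- The levels. -/
def XB_lv (n : ℕ) : ℕ → ℕ
  | 0 => 1
  | k + 1 => 2 * (XB_lv n k + n)

theorem XB_one (n k : ℕ) : 1 ≤ XB_lv n k := by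
  induction k with
  | zero => exact le_rfl
  | succ k ih => rw [XB_lv]; omega

omit [DecidableEq I] in
theorem XB_zero (h : Fi F β f c t b e M) (h' : Fi F β f c' t' b' e' M')
    (hc : ∀ x y z, c x y → c' y z → False) : M * M' = 0 := by
  ext1 x y
  exact (h.mul h' le_rfl le_rfl rfl (c'' := fun _ _ => False) hc x y).eq_zero (sup_univ _)
    fun g hg _ => hg.2

theorem XCx.diff (h : XCx F β f d n) {D : Matrix I I (SkewMonoidAlgebra R G)}
    (hD : Fi F β f (fun x y => f x = 0 ∧ f y = 0) 1 (-1) (-1) D) (hDD : D * D = 0) (k : ℕ) :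
    ∃ X, Fi F β f (fun x y => f x ≠ 0 ∧ f y ≠ 0) (XB_lv n k) (-1) (-1) X ∧
      Fi F β f (fun _ y => f y ≠ 0) (XB_lv n k) (-1 - k) (-2)
        ((zm R G d + (D + X)) * (zm R G d + (D + X))) := by
  induction k with
  | zero =>
    refine ⟨0, msup2_zero _, ?_⟩
    have hdd : zm R G d * zm R G d = 0 := by rw [zm, ← map_mul, h.dd, map_zero]
    rw [add_zero, add_mul, mul_add, mul_add, hdd, hDD,
      XB_zero h.fi hD fun _ _ _ a1 a2 => a1 a2.1, add_zero, add_zero, zero_add]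
    exact hD.mul h.fi le_rfl (by omega) rfl fun _ _ _ _ a => a
  | succ k ih =>
    obtain ⟨X, h1, h2⟩ := ih
    have h0 := XB_one n k
    have hN : Fi F β f (fun x y => f y = 0 → f x = 0) (XB_lv n k) (-1) (-1) (D + X) :=
      MSup2.add (hD.mono h0 le_rfl fun _ _ a _ => a.1)
        (h1.mono le_rfl le_rfl fun _ _ a a' => absurd a' a.2)
    obtain ⟨Y, h3, h4⟩ := h.step hN h2 (mul_assoc _ _ _).symm
    rw [XB_lv]
    refine ⟨X - Y, MSup2.sub (h1.mono (by omega) le_rfl fun _ _ a => a)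
      (h3.mono (by omega) (by omega) fun _ _ a => a), ?_⟩
    have e1 : (zm R G d + (D + (X - Y))) * (zm R G d + (D + (X - Y))) =
        (zm R G d + (D + X)) * (zm R G d + (D + X)) - (zm R G d * Y + Y * zm R G d) -
          (D + X) * Y - Y * (D + X) + Y * Y := by noncomm_ring
    rw [e1]
    exact MSup2.add (MSup2.sub (MSup2.sub (h4.mono (by omega) (by omega) fun _ _ a => a)
      (hN.mul h3 (by omega) (by omega) rfl fun _ _ _ _ a => a.2))
      (h3.mul hN (by omega) (by omega) rfl fun _ _ _ a a' a'' => a.2 (a' a'')))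
      (h3.mul h3 (by omega) (by omega) rfl fun _ _ _ _ a => a.2)

theorem XCx.htpy (h : XCx F β f d n) {N H W : Matrix I I (SkewMonoidAlgebra R G)}
    (hN : Fi F β f (fun x y => f y = 0 → f x = 0) t' (-1) (-1) N)
    (hT : (zm R G d + N) * (zm R G d + N) = 0) (hW : (zm R G d + N) * W = W * (zm R G d + N))
    (hE : Fi F β f (fun _ y => f y ≠ 0) 1 1 0 ((zm R G d + N) * H + H * (zm R G d + N) - W))
    (k : ℕ) : ∃ Y, Fi F β f (fun x y => f x ≠ 0 ∧ f y ≠ 0) (1 + k * (n + t')) 1 1 Y ∧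
      Fi F β f (fun _ y => f y ≠ 0) (1 + k * (n + t')) (1 - k) 0
        ((zm R G d + N) * (H + Y) + (H + Y) * (zm R G d + N) - W) := by
  induction k with
  | zero => exact ⟨0, msup2_zero _, by simpa using hE⟩
  | succ k ih =>
    obtain ⟨X, h1, h2⟩ := ih
    obtain ⟨Y, h3, h4⟩ := h.step hN h2 (by
      rw [mul_sub, sub_mul, hW, mul_add _ (_ * _), add_mul (_ * _), ← mul_assoc, hT,
        mul_assoc (H + X), hT, zero_mul, mul_zero, zero_add, add_zero, mul_assoc])
    rw [add_mul k, one_mul]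
    refine ⟨X - Y, MSup2.sub (h1.mono (by omega) le_rfl fun _ _ a => a)
      (h3.mono (by omega) (by omega) fun _ _ a => a), ?_⟩
    have e1 : (zm R G d + N) * (H + (X - Y)) + (H + (X - Y)) * (zm R G d + N) - W =
        (zm R G d + N) * (H + X) + (H + X) * (zm R G d + N) - W -
          (zm R G d * Y + Y * zm R G d) - N * Y - Y * N := by noncomm_ring
    rw [e1]
    exact MSup2.sub (MSup2.sub (h4.mono (by omega) (by omega) fun _ _ a => a)
      (hN.mul h3 (by omega) (by omega) rfl fun _ _ _ _ a => a.2))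
      (h3.mul hN (by omega) (by omega) rfl fun _ _ _ a a' a'' => a.2 (a' a''))

theorem XB_contr {T s₀ : Matrix I I (SkewMonoidAlgebra R G)}
    (hT : T * T = 0) (h0 : Fi F β f (fun _ _ => True) 0 0 1 s₀)
    (hE : Fi F β f (fun _ _ => True) 0 (-1) 0 (T * s₀ + s₀ * T - 1)) (k : ℕ) :
    ∃ s, Fi F β f (fun _ _ => True) 0 0 1 s ∧
      Fi F β f (fun _ _ => True) 0 (-1 - k) 0 (T * s + s * T - 1) := by
  induction k with
  | zero => exact ⟨s₀, h0, by simpa using hE⟩
  | succ k ih =>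
    obtain ⟨s, h1, h2⟩ := ih
    refine ⟨s - s * (T * s + s * T - 1),
      MSup2.sub h1 (h1.mul h2 le_rfl (by omega) rfl fun _ _ _ _ _ => trivial), ?_⟩
    have e1 : T * (s - s * (T * s + s * T - 1)) + (s - s * (T * s + s * T - 1)) * T - 1 =
        -((T * s + s * T - 1) * (T * s + s * T - 1)) + (s * (T * T) * s - s * s * (T * T)) := by
      noncomm_ring
    rw [e1, hT, mul_zero, mul_zero, zero_mul, sub_zero, add_zero]
    exact MSup2.neg (h2.mul h2 le_rfl (by omega) rfl fun _ _ _ _ _ => trivial)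

end Pool.Agent.MP_f7db47_al.TW

end

section

/-!
The transfer of complexes along a tower of carriers.
-/

namespace Pool.Agent.MP_f7db47_al.TW

open Matrix GN KN

universe v

section Cells

variable {J W : Type} [Fintype J] [DecidableEq J] [LinearOrder W] (K : J → Finset W)
  (Adj : J → W → W → Prop)

/-- All cliques, the empty ones first. -/
def XC_cel : J ⊕ CMainP K Adj → J × Finset W := Sum.elim (fun j => (j, ∅)) Subtype.val

variable {K Adj}

theorem XC_clq (x : J ⊕ CMainP K Adj) :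
    Clq (Adj (XC_cel K Adj x).1) (K (XC_cel K Adj x).1) (XC_cel K Adj x).2 := by
  rcases x with j | x
  · exact ⟨Finset.empty_subset _, fun _ h => absurd h (Finset.notMem_empty _)⟩
  · exact (CMain_P x).1

theorem XC_inj : Function.Injective (XC_cel K Adj) := by
  rintro (i | x) (j | y) h
  · exact congrArg Sum.inl (congrArg Prod.fst h)
  · exact absurd (congrArg Prod.snd h).symm (CMain_P y).2.ne_empty
  · exact absurd (congrArg Prod.snd h) (CMain_P x).2.ne_empty
  · exact congrArg Sum.inr (Subtype.ext h)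

theorem XC_mul (c c' : J → Finset W → (Finset W →₀ ℤ)) (x y : J ⊕ CMainP K Adj)
    (h : ∀ σ, c' (XC_cel K Adj y).1 (XC_cel K Adj y).2 σ ≠ 0 →
      Clq (Adj (XC_cel K Adj y).1) (K (XC_cel K Adj y).1) σ) :
    (CMainB ℤ (XC_cel K Adj) (XC_cel K Adj) c * CMainB ℤ (XC_cel K Adj) (XC_cel K Adj) c') x y =
      CMainB ℤ (XC_cel K Adj) (XC_cel K Adj) (fun j σ => lin (c j) (c' j σ)) x y := by
  classical
  have h0 : ∀ j, (∅ : Finset W) ∉ CMainS (Adj j) (K j) := fun j h1 => by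
    simpa using (CMain_mem_S.1 h1).2
  have hq : CMainSum ℤ (XC_cel K Adj) fun j => insert ∅ (CMainS (Adj j) (K j)) := fun F => by
    rw [Fintype.sum_sum_type]
    simp only [Finset.sum_insert (h0 _), Finset.sum_add_distrib]
    exact congrArg _ (CMain_sum_P ℤ F)
  rw [CMainB_mul_B hq]
  simp only [CMainB, Matrix.sum_apply, CMainE]
  refine Finset.sum_congr rfl fun j _ => ?_
  split_ifs with h1
  · obtain ⟨-, rfl⟩ := h1
    have h2 := CMain_C (c (XC_cel K Adj y).1) _ _ h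
    rw [eq_sub_iff_add_eq'] at h2
    rw [← h2, CMainC, CMainC, Finset.sum_insert (h0 _)]
  · rfl

theorem XC_htpy (s : J → Finset W → (Finset W →₀ ℤ)) (x : J ⊕ CMainP K Adj)
    (h1 : ∀ σ, s (XC_cel K Adj x).1 (XC_cel K Adj x).2 σ ≠ 0 →
      Clq (Adj (XC_cel K Adj x).1) (K (XC_cel K Adj x).1) σ)
    (h2 : bd (s (XC_cel K Adj x).1 (XC_cel K Adj x).2) + lin (s (XC_cel K Adj x).1)
      (bd1 (XC_cel K Adj x).2) = Finsupp.single (XC_cel K Adj x).2 1) (z : J ⊕ CMainP K Adj) :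
    ((CMainB ℤ (XC_cel K Adj) (XC_cel K Adj) fun _ => bd1) *
      CMainB ℤ (XC_cel K Adj) (XC_cel K Adj) s + CMainB ℤ (XC_cel K Adj) (XC_cel K Adj) s *
      CMainB ℤ (XC_cel K Adj) (XC_cel K Adj) fun _ => bd1) z x = (1 : Matrix _ _ ℤ) z x := by
  rw [Matrix.add_apply, XC_mul _ _ _ _ h1,
    XC_mul _ _ _ _ fun σ hσ => CMain_clq_sub (XC_clq x) (CMain_bd1 hσ).1, ← Matrix.add_apply,
    CMainB_add, ← CMainB_one (A := ℤ) XC_inj]
  simp only [CMainB, Matrix.sum_apply, CMainE]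
  refine Finset.sum_congr rfl fun j _ => ?_
  split_ifs with h3
  · obtain ⟨-, rfl⟩ := h3
    rw [← h2]
    rfl
  · rfl

end Cells

variable {G Λ W : Type} [Group G] [LinearOrder W] {F : GN.FR G (Λ × Finset W)} {K : Λ → Finset W}
  {Adj : Λ → W → W → Prop} {n : ℕ} {J : Type} [Fintype J] [DecidableEq J]

theorem XC_cx (hT : Tow F K Adj n) (l : J → Λ) (deg : J → ℤ) :
    XCx (F.pull fun x => Prod.map l id (XC_cel (fun j => K (l j)) (fun j => Adj (l j)) x))
      (fun x => deg (XC_cel _ _ x).1) (fun x => (XC_cel _ _ x).2.card)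
      (CMainB ℤ (XC_cel _ _) (XC_cel _ _) fun _ => bd1) n where
  dd := by
    ext x y
    rw [XC_mul _ (fun _ => bd1) _ _ fun σ hσ => CMain_clq_sub (XC_clq y) (CMain_bd1 hσ).1,
      ← CMainB_zero (p := XC_cel _ _) (q := XC_cel _ _)]
    refine congrFun (congrFun (CMainB_congr fun j x y _ _ => ?_) x) y
    rw [← CMain_bd_single]
    exact congrArg (fun c : Finset W →₀ ℤ => c _) (bd_bd _)
  sup := CMainZ_B fun j x y h1 h2 h3 => by
    obtain ⟨h4, h5⟩ := CMain_bd1 h3
    refine ⟨?_, by rw [h1, h2], h5⟩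
    have h6 := hT.face (l j) _ _ h4
    nth_rewrite 1 [← h1] at h6
    rw [← h2] at h6
    exact h6
  dim x := hT.dim _ _ (XC_clq x)
  fill t y g hy := by
    choose s hs using fun j => hT.fill t (l j) g _ _ (XC_clq y)
      (Finset.card_pos.1 (Nat.pos_of_ne_zero hy))
    refine ⟨CMainB ℤ (XC_cel _ _) (XC_cel _ _) s, fun x hx => ?_⟩
    obtain ⟨h1, h2⟩ := hs _ _ (XC_clq x) hx
    refine ⟨fun z hz => ?_, XC_htpy s x (fun σ hσ => (h1 σ hσ).1) h2⟩
    obtain ⟨h3, h4⟩ := CMainZ_B (Q := fun z x => (XC_cel _ _ z).1 = (XC_cel _ _ x).1 ∧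
      s (XC_cel _ _ x).1 (XC_cel _ _ x).2 (XC_cel _ _ z).2 ≠ 0)
      (fun j z x a1 a2 a3 => ⟨a1.trans a2.symm, a2 ▸ a3⟩) z x hz
    obtain ⟨-, h5, h6⟩ := h1 _ h4
    refine ⟨?_, by rw [h3], h5⟩
    rw [← h3] at h6
    exact h6

variable {R : Type v} [Ring R] [MulSemiringAction G R]

omit [Group G] [Fintype J] [DecidableEq J] [MulSemiringAction G R] in
theorem XC_blocks {I : Type} {X : Matrix (J ⊕ I) (J ⊕ I) (SkewMonoidAlgebra R G)}
    (h1 : ∀ i y, X (Sum.inl i) y = 0) (h2 : ∀ x j, X x (Sum.inl j) = 0) :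
    X = fromBlocks 0 0 0 X.toBlocks₂₂ := by
  ext1 (x | x) (y | y)
  · exact h1 _ _
  · exact h1 _ _
  · exact h2 _ _
  · rfl

theorem transferN (n : ℕ) : ∃ c : ℕ, ∀ (R : Type v) [Ring R] (G : Type) [Group G]
    [MulSemiringAction G R] (Λ W : Type) [LinearOrder W] (F : GN.FR G (Λ × Finset W))
    (K : Λ → Finset W) (Adj : Λ → W → W → Prop), Tow F K Adj n →
    ∀ (J : Type) [Fintype J] [DecidableEq J] (l : J → Λ) (deg : J → ℤ)
      (D : Matrix J J (SkewMonoidAlgebra R G)), D * D = 0 →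
      MSup2 (fun i j => {g | F.rel 1 (l i, ∅) g (l j, ∅) ∧ deg i = deg j + -1}) D →
      ∃ (J' : Type) (_ : Fintype J') (_ : DecidableEq J') (l' : J' → Cel K Adj) (deg' : J' → ℤ)
        (D' : Matrix J' J' (SkewMonoidAlgebra R G)) (ε : Matrix J J' (SkewMonoidAlgebra R G))
        (s : Matrix (J ⊕ J') (J ⊕ J') (SkewMonoidAlgebra R G)),
        (∀ x, ∃ j, deg j ≤ deg' x ∧ deg' x ≤ deg j + n) ∧
        MSup2 (fun x y => {g | F.rel c (l' x).1 g (l' y).1 ∧ deg' x = deg' y + -1}) D' ∧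
        MSup2 (fun i y => {_g | deg i = deg' y + -1}) ε ∧
        MSup2 (fun x y => {_g | Sum.elim deg deg' x = Sum.elim deg deg' y + 1}) s ∧
        D' * D' = 0 ∧ D * ε + ε * D' = 0 ∧
        fromBlocks D ε 0 D' * s + s * fromBlocks D ε 0 D' = 1 ∧
        ∀ (w : SkewMonoidAlgebra R G) (h : Matrix J J (SkewMonoidAlgebra R G)),
          (∀ x, w * x = x * w) → Sup {1} w →
          MSup2 (fun i j => {g | F.rel 1 (l i, ∅) g (l j, ∅) ∧ deg i = deg j + 1}) h →
          D * h + h * D = w • 1 → ∃ h' : Matrix J' J' (SkewMonoidAlgebra R G),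
            MSup2 (fun x y => {g | F.rel c (l' x).1 g (l' y).1 ∧ deg' x = deg' y + 1}) h' ∧
            D' * h' + h' * D' = w • 1 := by
  refine ⟨1 + (n + 2) * (n + XB_lv n (n + 2)), ?_⟩
  intro R _ G _ _ Λ W _ F K Adj hT J _ _ l deg D hDD hD
  have hC := XC_cx hT l deg
  choose s₀ hs₀ using fun j => XG1_contr (hT.acyc (l j))
  have hs1 := fun z x => XC_htpy (K := fun j => K (l j)) (Adj := fun j => Adj (l j)) s₀ x (fun σ hσ => ((hs₀ _ _ (XC_clq x)).1 σ hσ).1)
    (hs₀ _ _ (XC_clq x)).2 z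
  have hs2 := CMainZ_B (A := ℤ) (p := XC_cel (fun j => K (l j)) fun j => Adj (l j))
    (q := XC_cel (fun j => K (l j)) fun j => Adj (l j)) (c := s₀)
    (Q := fun z x => deg (XC_cel _ _ z).1 = deg (XC_cel _ _ x).1 ∧
      (XC_cel _ _ z).2.card = (XC_cel _ _ x).2.card + 1) fun j z x a1 a2 a3 =>
      ⟨by rw [a1, a2], ((hs₀ _ _ (XC_clq x)).1 _ (a2 ▸ a3)).2⟩
  generalize CMainB ℤ (XC_cel (fun j => K (l j)) fun j => Adj (l j)) (XC_cel _ _) s₀ = s₁
    at hs1 hs2
  generalize (CMainB ℤ (XC_cel (fun j => K (l j)) fun j => Adj (l j)) (XC_cel _ _)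
    fun _ => bd1) = d at hC hs1
  set F' := F.pull fun x => Prod.map l id (XC_cel (fun j => K (l j)) (fun j => Adj (l j)) x)
  set β := fun x => deg (XC_cel (fun j => K (l j)) (fun j => Adj (l j)) x).1
  set f := fun x => (XC_cel (fun j => K (l j)) (fun j => Adj (l j)) x).2.card
  replace hs2 : ∀ z x, s₁ z x ≠ 0 → β z = β x ∧ f z = f x + 1 := hs2
  have hb : ∀ (b : ℤ) (M : Matrix J J (SkewMonoidAlgebra R G)),
      MSup2 (fun i j => {g | F.rel 1 (l i, ∅) g (l j, ∅) ∧ deg i = deg j + b}) M →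
      Fi F' β f (fun x y => f x = 0 ∧ f y = 0) 1 b b (fromBlocks M 0 0 0) := by
    rintro b M hM (x | x) (y | y)
    · exact (hM x y).mono fun g hg => ⟨⟨hg.1, hg.2.le, by
        change deg x + ((0 : ℕ) : ℤ) = deg y + ((0 : ℕ) : ℤ) + b
        have := hg.2
        omega⟩, rfl, rfl⟩
    all_goals exact sup_zero _
  have hz : ∀ {t b e} {X : Matrix _ _ (SkewMonoidAlgebra R G)},
      Fi F' β f (fun x y => f x ≠ 0 ∧ f y ≠ 0) t b e X → X = fromBlocks 0 0 0 X.toBlocks₂₂ :=
    fun hX => XC_blocks (fun i y => (hX _ _).eq_zero (sup_univ _) fun _ hg _ => hg.2.1 rfl)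
      fun x j => (hX _ _).eq_zero (sup_univ _) fun _ hg _ => hg.2.2 rfl
  have hD0 := hb _ D hD
  obtain ⟨X, hX, hTT⟩ := hC.diff hD0 (by simp [fromBlocks_multiply, hDD]) (n + 2)
  replace hTT := hTT.eq_zero hC.dim (by omega)
  have h0 := XB_one n (n + 2)
  have hN : Fi F' β f (fun x y => f y = 0 → f x = 0) (XB_lv n (n + 2)) (-1) (-1)
      (fromBlocks D 0 0 0 + X) :=
    MSup2.add (hD0.mono h0 le_rfl fun _ _ a _ => a.1)
      (hX.mono le_rfl le_rfl fun _ _ a a' => absurd a' a.2)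
  have hc : XB_lv n (n + 2) ≤ 1 + (n + 2) * (n + XB_lv n (n + 2)) := by nlinarith
  have hTc : Fi F' β f (fun _ _ => True) (1 + (n + 2) * (n + XB_lv n (n + 2))) 0 (-1)
      (zm R G d + (fromBlocks D 0 0 0 + X)) :=
    MSup2.add (hC.fi.mono (Nat.zero_le _) le_rfl fun _ _ _ => trivial)
      (hN.mono hc (by omega) fun _ _ _ => trivial)
  obtain ⟨s, hs3, hs4⟩ := XB_contr (β := β) (f := f)
    (F := ⟨fun _ _ _ _ => True, fun _ => trivial, fun _ _ => trivial, fun _ _ => trivial⟩)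
    (s₀ := zm R G s₁) hTT (zm_sup fun x y a => ⟨⟨trivial, by have := (hs2 x y a).1; omega,
      by have := hs2 x y a; omega⟩, trivial⟩) (by
      have e1 : zm R G d * zm R G s₁ + zm R G s₁ * zm R G d = 1 := by
        rw [zm, zm, ← map_mul, ← map_mul, ← map_add, Matrix.ext hs1]
        exact RingHom.map_one _
      rw [add_mul, mul_add, add_add_add_comm, e1, add_sub_cancel_left]
      exact MSup2.add
        (MSup2.mul hN (zm_sup (S := fun x y => {_g | β x = β y ∧ f x = f y + 1}) hs2)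
          fun x y z _ a _ a' => ⟨⟨trivial, by have := a.1.2.1; have := a'.1; omega,
            by have := a.1.2.2; have := a'.1; have := a'.2; omega⟩, trivial⟩)
        (MSup2.mul (zm_sup (S := fun x y => {_g | β x = β y ∧ f x = f y + 1}) hs2) hN
          fun x y z _ a' _ a => ⟨⟨trivial, by have := a.1.2.1; have := a'.1; omega,
            by have := a.1.2.2; have := a'.1; have := a'.2; omega⟩, trivial⟩)) n
  replace hs4 := sub_eq_zero.1 (hs4.eq_zero hC.dim (by omega))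
  have hd0 : ∀ x j, zm R G d x (Sum.inl j) = 0 := fun x j =>
    (hC.fi _ _).eq_zero (sup_univ _) fun _ hg _ => hg.2 rfl
  obtain ⟨T, hT'⟩ : ∃ T, T = zm R G d + (fromBlocks D 0 0 0 + X) := ⟨_, rfl⟩
  have hTb : T = fromBlocks D T.toBlocks₁₂ 0 T.toBlocks₂₂ := by
    ext1 (x | x) (y | y)
    · rw [hT', hz hX]
      simp [hd0]
    · rfl
    · rw [hT', hz hX]
      simp [hd0]
    · rfl
  have hTT' := hTT
  rw [← hT', hTb, fromBlocks_multiply, ← fromBlocks_zero, fromBlocks_inj] at hTT'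
  have hdg : ∀ x, Sum.elim deg (fun x => β (Sum.inr x) + f (Sum.inr x)) x = β x + f x := by
    rintro (x | x)
    · exact (add_zero _).symm
    · rfl
  refine ⟨CMainP (fun j => K (l j)) fun j => Adj (l j), inferInstance, inferInstance,
    fun x => ⟨(l x.1.1, x.1.2), CMain_P x⟩, fun x => β (Sum.inr x) + f (Sum.inr x),
    T.toBlocks₂₂, T.toBlocks₁₂, s, fun x => ⟨x.1.1, ?_, ?_⟩, fun x y => ?_, fun x y => ?_,
    fun x y => (hs3 x y).mono fun g hg => ?_, by simpa using hTT'.2.2.2, hTT'.2.1,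
    by rw [← hTb, hT', hs4], fun w h hw hw1 hh hDh => ?_⟩
  · exact le_add_of_nonneg_right (Int.natCast_nonneg _)
  · exact add_le_add le_rfl (Int.ofNat_le.2 (hC.dim _))
  · exact ((hT' ▸ hTc) (Sum.inr x) (Sum.inr y)).mono fun g hg => ⟨hg.1.1, hg.1.2.2⟩
  · exact ((hT' ▸ hTc) (Sum.inl x) (Sum.inr y)).mono fun g hg =>
      (hdg (Sum.inl x)).trans hg.1.2.2
  · change _ = _
    rw [hdg, hdg]
    exact hg.1.2.2
  have hH := hb _ h hh
  obtain ⟨Y, hY, hE⟩ := hC.htpy (H := fromBlocks h 0 0 0) (W := w • 1) hN hTT (by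
      ext1 x y
      rw [smul_one_eq_diagonal, mul_diagonal, diagonal_mul, hw]) (by
      have e1 : fromBlocks D 0 0 0 * fromBlocks h 0 0 0 + fromBlocks h 0 0 0 * fromBlocks D 0 0 0 +
          fromBlocks 0 0 0 (w • 1) = w • (1 : Matrix (J ⊕ CMainP (fun j => K (l j))
            fun j => Adj (l j)) (J ⊕ CMainP (fun j => K (l j)) fun j => Adj (l j))
            (SkewMonoidAlgebra R G)) := by
        rw [← fromBlocks_one, fromBlocks_smul]
        simp [fromBlocks_multiply, fromBlocks_add, hDh]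
      rw [add_mul, add_mul, mul_add, mul_add, XB_zero hC.fi hH fun _ _ _ a a' => a a'.1,
        XB_zero hX hH fun _ _ _ a a' => a.2 a'.1, XB_zero hH hX fun _ _ _ a a' => a'.1 a.2, ← e1]
      have e2 : ∀ a b c e : Matrix (J ⊕ CMainP (fun j => K (l j)) fun j => Adj (l j))
          (J ⊕ CMainP (fun j => K (l j)) fun j => Adj (l j)) (SkewMonoidAlgebra R G),
          0 + (a + 0) + (b + (c + 0)) - (a + c + e) = b - e := fun _ _ _ _ => by abel
      rw [e2]
      refine MSup2.sub (hH.mul hC.fi le_rfl le_rfl rfl fun _ _ _ _ a => a) ?_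
      rintro (x | x) (y | y)
      iterate 3 exact sup_zero _
      by_cases e3 : x = y
      · subst e3
        simp only [fromBlocks_apply₂₂, Matrix.smul_apply, Matrix.one_apply_eq, smul_eq_mul, mul_one]
        refine hw1.mono fun g hg => ?_
        obtain rfl : g = 1 := hg
        exact ⟨⟨F'.mono zero_le_one (F'.refl _), by omega, by omega⟩,
          (CMain_P x).2.card_pos.ne'⟩
      · simp only [fromBlocks_apply₂₂, Matrix.smul_apply, Matrix.one_apply_ne e3, smul_zero]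
        exact sup_zero _) (n + 2)
  replace hE := sub_eq_zero.1 (hE.eq_zero hC.dim (by omega))
  refine ⟨Y.toBlocks₂₂, fun x y => (hY (Sum.inr x) (Sum.inr y)).mono fun g hg =>
    ⟨hg.1.1, hg.1.2.2⟩, ?_⟩
  rw [← hT', hTb, hz hY, fromBlocks_add, fromBlocks_multiply, fromBlocks_multiply, fromBlocks_add,
    ← fromBlocks_one, fromBlocks_smul, fromBlocks_inj] at hE
  simpa using hE.2.2.2

end Pool.Agent.MP_f7db47_al.TW

end

section

/-!
The transfer for complexes with supports.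
-/

namespace Pool.Agent.MP_f7db47_al.KN

open Matrix

universe v

variable {R : Type v} [Ring R] {G : Type} [Group G] [MulSemiringAction G R] {ι Λ : Type}

section Inc

variable (D : Subring R) [IsInvariantSubring G D]

/-- The additive inclusion of twisted group rings. -/
noncomputable def xt_add : SkewMonoidAlgebra D G →+ SkewMonoidAlgebra R G where
  toFun x := SkewMonoidAlgebra.ofCoeff (x.coeff.mapRange Subtype.val rfl)
  map_zero' := by ext; simp
  map_add' x y := by ext; simp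

omit [Group G] [MulSemiringAction G R] [IsInvariantSubring G D] in
theorem xt_single (g : G) (c : D) :
    xt_add D (SkewMonoidAlgebra.single g c) = SkewMonoidAlgebra.single g (c : R) :=
  congrArg SkewMonoidAlgebra.ofCoeff Finsupp.mapRange_single

/-- The inclusion of twisted group rings. -/
noncomputable def incD : SkewMonoidAlgebra D G →+* SkewMonoidAlgebra R G where
  __ := xt_add D
  map_one' := xt_single D 1 1
  map_mul' x y := by
    change xt_add D (x * y) = xt_add D x * xt_add D y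
    induction x using TW.Sk.induction_linear with
    | zero => simp
    | add x x' hx hx' => simp only [map_add, add_mul, hx, hx']
    | single g r =>
      induction y using TW.Sk.induction_linear with
      | zero => simp
      | add y y' hy hy' => simp only [map_add, mul_add, hy, hy']
      | single k s =>
        simp only [SkewMonoidAlgebra.single_mul_single, xt_single]
        rfl

theorem coeff_incD (x : SkewMonoidAlgebra D G) (g : G) : (incD D x).coeff g = x.coeff g := rfl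

theorem incD_single (g : G) (c : D) :
    incD D (SkewMonoidAlgebra.single g c) = SkewMonoidAlgebra.single g (c : R) := xt_single D g c

theorem incD_inj : Function.Injective (incD (G := G) D) := fun x y h =>
  SkewMonoidAlgebra.ext fun g => Subtype.ext (by rw [← coeff_incD, h, coeff_incD])

variable {D}

theorem exists_incD {x : SkewMonoidAlgebra R G} (h : ∀ g, x.coeff g ∈ D) : ∃ y, incD D y = x :=
  ⟨SkewMonoidAlgebra.ofCoeff (Finsupp.onFinset x.coeff.support (fun g => ⟨x.coeff g, h g⟩)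
    fun _ hg => Finsupp.mem_support_iff.2 fun e => hg (Subtype.ext e)),
    SkewMonoidAlgebra.ext fun _ => rfl⟩

variable {r : Λ → G → Λ → Prop} {d : ℤ} {I J : Type} {s : I → Λ × ℤ} {t : J → Λ × ℤ}

theorem xt_lift {M : Matrix I J (SkewMonoidAlgebra R G)} (h : Hm (ctl D r) d s t M) :
    ∃ M₀ : Matrix I J (SkewMonoidAlgebra D G), M₀.map (incD D) = M ∧
      TW.MSup2 (fun i j => {g | r (s i).1 g (t j).1 ∧ (s i).2 = (t j).2 + d}) M₀ := by
  choose M₀ hM using fun i j => exists_incD fun g => ((h i j).1 g).1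
  refine ⟨M₀, Matrix.ext hM, fun i j g hg => ?_⟩
  have h1 : (M i j).coeff g ≠ 0 := by
    rw [← hM, coeff_incD]
    exact fun e => hg (Subtype.ext e)
  exact ⟨((h i j).1 g).2 h1, (h i j).2 fun e => h1 (by rw [e]; rfl)⟩

theorem xt_back {M₀ : Matrix I J (SkewMonoidAlgebra D G)}
    (h : TW.MSup2 (fun i j => {g | r (s i).1 g (t j).1 ∧ (s i).2 = (t j).2 + d}) M₀) :
    Hm (ctl D r) d s t (M₀.map (incD D)) := fun i j => by
  have h1 : ∀ g, (incD D (M₀ i j)).coeff g ≠ 0 → _ := fun g hg =>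
    h i j g fun e => hg (by rw [coeff_incD, e]; rfl)
  refine ⟨fun g => ⟨((M₀ i j).coeff g).2, fun e => (h1 g e).1⟩, fun e => ?_⟩
  by_contra h2
  exact e (SkewMonoidAlgebra.ext fun g => by_contra fun e1 => h2 (h1 g e1).2)

theorem xt_inj {M N : Matrix I J (SkewMonoidAlgebra D G)} (h : M.map (incD D) = N.map (incD D)) :
    M = N := Matrix.map_injective (incD_inj D) h

theorem xt_htpy [Fintype I] [DecidableEq I] (w : SkewMonoidAlgebra D G)
    (M h : Matrix I I (SkewMonoidAlgebra D G)) : M * h + h * M = w • 1 ↔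
      M.map (incD D) * h.map (incD D) + h.map (incD D) * M.map (incD D) = incD D w • 1 := by
  have h1 : (w • (1 : Matrix I I (SkewMonoidAlgebra D G))).map (incD D) = incD D w • 1 := by
    ext1 i j
    simp only [Matrix.map_apply, Matrix.smul_apply, smul_eq_mul, map_mul, Matrix.one_apply]
    split_ifs <;> simp
  rw [← h1, ← Matrix.map_mul, ← Matrix.map_mul, ← Matrix.map_add _ (map_add _)]
  exact ⟨fun e => by rw [e], xt_inj⟩

end Inc

theorem hm_one {D : Subring R} {r : Λ → G → Λ → Prop} {I : Type} [DecidableEq I] {s : I → Λ × ℤ}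
    (h : ∀ i, r (s i).1 1 (s i).1) : Hm (ctl D r) 0 s s 1 := fun i j => by
  classical
  rw [Matrix.one_apply]
  split_ifs with e
  · subst e
    refine ⟨fun g => ?_, fun _ => by simp⟩
    rw [SkewMonoidAlgebra.coeff_one, Finsupp.single_apply]
    split_ifs with e1
    · exact ⟨one_mem D, fun _ => e1 ▸ h i⟩
    · exact ⟨zero_mem D, fun e2 => absurd rfl e2⟩
  · exact ⟨zero_mem _, fun e2 => absurd rfl e2⟩

theorem std_one {A : Type v} [Ring A] {X : Cx A Λ} (h : X.p = 1) : Std X :=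
  ⟨fun _ _ e => by rw [h, Matrix.one_apply_ne e], fun _ => Or.inl (by rw [h, Matrix.one_apply_eq])⟩

/-- It suffices to consider free complexes. -/
theorem VV.of_one {D : Subring R} {S : ι → Submonoid (SkewMonoidAlgebra R G)} {K : Finset ι}
    {r : Λ → G → Λ → Prop} {L : ℕ} (h : ∀ X, Obj (ctl D r) S K X → Bd L X → X.p = 1 →
      Cert (ful G D) S K Set.univ (X.lab fun _ => ())) : VV D S K Λ r L := fun X hX hB hS => by
  obtain ⟨Y, hs, hp⟩ := hS.trim hX.ok
  exact (hs.lab _).cert_iff.1 (h Y (hs.obj_iff.2 hX) (hs.wd hB) hp)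

theorem VV.tr (n : ℕ) : ∃ c : ℕ, ∀ (R : Type v) [Ring R] (G : Type) [Group G]
    [MulSemiringAction G R] (ι : Type) (D : Subring R) (S : ι → Submonoid (SkewMonoidAlgebra R G))
    (K₀ : Finset ι), Sca D S → ∀ (Λ W : Type) [LinearOrder W] (F : GN.FR G (Λ × Finset W))
    (K : Λ → Finset W) (Adj : Λ → W → W → Prop) (L : ℕ), Tow F K Adj n →
    VV D S K₀ (Cel K Adj) (fun x g y => F.rel c x.1 g y.1) (L + n) →
    VV D S K₀ Λ (fun a g b => F.rel 1 (a, ∅) g (b, ∅)) L := by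
  obtain ⟨c, hc⟩ := TW.transferN.{v} n
  refine ⟨c, fun R _ G _ _ ι D S K₀ hS Λ W _ F K Adj L hT hV => VV.of_one fun X hX hB hp => ?_⟩
  have : IsInvariantSubring G D := ⟨fun g _ hx => hS.inv g _ hx⟩
  obtain ⟨D₀, e0, hD₀⟩ := xt_lift hX.ok.hD
  obtain ⟨J', _, _, l', deg', D', ε, s, c1, c2, c3, c4, c5, c6, c7, c8⟩ :=
    hc D G Λ W F K Adj hT X.J (fun j => (X.t j).1) (fun j => (X.t j).2) D₀
      (xt_inj (by rw [Matrix.map_mul, e0, hX.ok.DD, Matrix.map_zero _ (map_zero _)])) hD₀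
  let Y : Cx (SkewMonoidAlgebra R G) (Cel K Adj) :=
    { J := J', t := fun x => (l' x, deg' x), p := 1, D := D'.map (incD D) }
  have hY : Obj (ctl D fun x g y => F.rel c x.1 g y.1) S K₀ Y := by
    refine ⟨⟨hm_one fun _ => F.mono (Nat.zero_le _) (F.refl _), xt_back c2, mul_one _, one_mul _,
      mul_one _, ?_⟩, fun a ha => ?_⟩
    · change D'.map (incD D) * D'.map (incD D) = 0
      rw [← Matrix.map_mul, c5, Matrix.map_zero _ (map_zero _)]
    · obtain ⟨w, hw, h, h1, h2⟩ := hX.tor a ha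
      obtain ⟨u, hu, e1⟩ := hS.sc a w hw
      obtain ⟨h₀, e2, h3⟩ := xt_lift h1
      have e3 : incD D (SkewMonoidAlgebra.single (1 : G) (⟨u, hu⟩ : D)) = w := by
        rw [incD_single, e1]
      obtain ⟨h', h4, h5⟩ := c8 (SkewMonoidAlgebra.single 1 ⟨u, hu⟩) h₀
        (fun x => incD_inj D (by rw [map_mul, map_mul, e3, hS.cen a w hw]))
        (fun g hg => by
          classical
          rw [SkewMonoidAlgebra.coeff_single, Finsupp.single_apply] at hg
          exact by_contra fun e => hg (if_neg fun e' => e e'.symm))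
        h3 ((xt_htpy _ _ _).2 (by rw [e0, e2, e3, h2, hp]))
      exact ⟨w, hw, h'.map (incD D), xt_back h4, e3 ▸ (xt_htpy _ _ _).1 h5⟩
  have hC := hV Y hY (fun x => by
    obtain ⟨j, h1, h2⟩ := c1 x
    obtain ⟨h3, h4⟩ := hB j
    change deg' x ∈ Set.Icc _ _
    constructor <;> push_cast <;> omega) (std_one rfl)
  obtain ⟨M, _, ⟨E⟩⟩ := exists_KS hS.good K₀ Set.univ
  have hX' := hX.lab ctl_ful
  have hY' := hY.lab ctl_ful
  have ht : Tw (ful G D) (X.lab fun _ => ()) (Y.lab fun _ => ()) (ε.map (incD D)) := by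
    refine ⟨⟨xt_back fun i j => (c3 i j).mono fun _ h => ⟨trivial, h⟩, ?_, Matrix.mul_one _⟩, ?_⟩
    · change X.p * ε.map (incD D) = _
      rw [hp, Matrix.one_mul]
    · change X.D * ε.map (incD D) + ε.map (incD D) * D'.map (incD D) = 0
      rw [← e0, ← Matrix.map_mul, ← Matrix.map_mul, ← Matrix.map_add _ (map_add _), c6,
        Matrix.map_zero _ (map_zero _)]
  have h0 := E.nul (hX'.ok.ext hY'.ok ht) (Wd.univ _) (by
    refine ⟨s.map (incD D), xt_back fun i j => (c4 i j).mono fun _ h => ⟨trivial, ?_⟩, ?_⟩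
    · rcases i with i | i <;> rcases j with j | j <;> exact h
    · have h1 := (xt_htpy 1 _ _).1 (c7.trans (one_smul _ _).symm)
      rw [Matrix.fromBlocks_map, e0, Matrix.map_zero _ (map_zero _), map_one] at h1
      refine h1.trans ?_
      change _ = (1 : SkewMonoidAlgebra R G) • fromBlocks X.p 0 0 1
      rw [hp, fromBlocks_one])
  rw [E.ext hX' hY' (Wd.univ _) (Wd.univ _) ht, (E.zero_iff hY' (Wd.univ _)).2 hC, add_zero] at h0
  exact (E.zero_iff hX' (Wd.univ _)).1 h0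

end Pool.Agent.MP_f7db47_al.KN

end

section

/-!
Induction for complexes with supports.
-/

namespace Pool.Agent.MP_f7db47_al.KN

open Matrix TW VC

universe v w

variable {R : Type v} [Ring R] {G : Type} [Group G] [MulSemiringAction G R] {ι Λ Λ' : Type}
  {D : Subring R} {S : ι → Submonoid (SkewMonoidAlgebra R G)} {K : Finset ι}
  {r : Λ → G → Λ → Prop} {r' : Λ' → G → Λ' → Prop} {m m' : Type}

theorem xs_hm {d : ℤ} {J : Type} {s : J → Λ × ℤ} {M : Matrix J J (SkewMonoidAlgebra R G)}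
    (h : Hm (ctl D r) d s s M) (φ : G → Matrix m m' ℤ) (l : m → Λ') (l' : m' → Λ')
    (hr : ∀ a g b x y, r a g b → φ g x y ≠ 0 → r' (l x) g (l' y)) :
    Hm (ctl D r') d (fun x : J × m => (l x.2, (s x.1).2)) (fun y : J × m' => (l' y.2, (s y.1).2))
      (ZLat_Tw φ M) := fun x y => by
  refine ⟨fun g => ?_, fun e => (h x.1 y.1).2 fun e1 => e (by rw [ZLat_Tw, e1, map_zero])⟩
  rw [ZLat_Tw, ZLat_coeff]
  exact ⟨zsmul_mem ((h x.1 y.1).1 g).1 _, fun e => hr _ _ _ _ _
    (((h x.1 y.1).1 g).2 (right_ne_zero_of_smul e)) (left_ne_zero_of_smul e)⟩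

theorem xs_ful {d : ℤ} {J : Type} {s : J → Unit × ℤ} {M : Matrix J J (SkewMonoidAlgebra R G)}
    (h : Hm (ful G D) d s s M) (φ : G → Matrix m m' ℤ) :
    Hm (ful G D) d (fun x : J × m => ((), (s x.1).2)) (fun y : J × m' => ((), (s y.1).2))
      (ZLat_Tw φ M) := xs_hm h φ (fun _ => ()) (fun _ => ()) fun _ _ _ _ _ _ _ => trivial

omit [Group G] [MulSemiringAction G R] in
theorem xs_zero {J : Type} (φ : G → Matrix m m' ℤ) :
    ZLat_Tw φ (0 : Matrix J J (SkewMonoidAlgebra R G)) = 0 :=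
  Matrix.ext fun _ _ => map_zero (ZLat_wt _)

omit [Group G] [MulSemiringAction G R] in
theorem xs_add {J : Type} (φ : G → Matrix m m' ℤ) (A B : Matrix J J (SkewMonoidAlgebra R G)) :
    ZLat_Tw φ (A + B) = ZLat_Tw φ A + ZLat_Tw φ B :=
  Matrix.ext fun _ _ => map_add (ZLat_wt _) _ _

theorem xs_smul {J : Type} (φ : G → Matrix m m' ℤ) (c : R)
    (A : Matrix J J (SkewMonoidAlgebra R G)) :
    ZLat_Tw φ (SkewMonoidAlgebra.single (1 : G) c • A) =
      SkewMonoidAlgebra.single (1 : G) c • ZLat_Tw φ A := by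
  ext x y g
  simp only [ZLat_Tw, Matrix.smul_apply, smul_eq_mul, ZLat_coeff,
    SkewMonoidAlgebra.coeff_single_one_mul, mul_smul_comm]

variable [Fintype m] [DecidableEq m] [Fintype m'] [DecidableEq m']

/-- The twist of a free complex by an integral representation. -/
@[reducible] noncomputable def Cx.tw (X : Cx (SkewMonoidAlgebra R G) Λ) (a : G → Matrix m m ℤ)
    (l : m → Λ') : Cx (SkewMonoidAlgebra R G) Λ' where
  J := X.J × m
  t x := (l x.2, (X.t x.1).2)
  p := 1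
  D := ZLat_Tw a X.D

theorem Obj.tw {X : Cx (SkewMonoidAlgebra R G) Λ} (hS : Sca D S) (h : Obj (ctl D r) S K X)
    (hp : X.p = 1) (a : G →* Matrix m m ℤ) (l : m → Λ')
    (hr : ∀ b g c x y, r b g c → a g x y ≠ 0 → r' (l x) g (l y)) :
    Obj (ctl D r') S K (X.tw a l) := by
  have h1 : ZLat_Tw a X.p = 1 := by rw [hp, ZLat_Tw_one (map_one a)]
  refine ⟨⟨(h1 ▸ xs_hm h.ok.hp a l l hr :), xs_hm h.ok.hD a l l hr, mul_one _, one_mul _, mul_one _,
    ?_⟩, fun i hi => ?_⟩
  · rw [ZLat_Tw_mul (map_mul a), h.ok.DD, xs_zero]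
  · obtain ⟨w, hw, s, h2, h3⟩ := h.tor i hi
    refine ⟨w, hw, ZLat_Tw a s, xs_hm h2 a l l hr, ?_⟩
    obtain ⟨c, -, rfl⟩ := hS.sc i w hw
    rw [ZLat_Tw_mul (map_mul a), ZLat_Tw_mul (map_mul a), ← xs_add, h3, xs_smul, h1]

/-- The invariant given by twisting a fixed free complex. -/
noncomputable def xs_swan (hS : Sca D S) {M : Type w} [AddCommGroup M]
    (E : KS (ful G D) S K Set.univ M) {X : Cx (SkewMonoidAlgebra R G) Unit}
    (hX : Obj (ful G D) S K X) (hp : X.p = 1) : Swan G M where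
  κ a := E.cls (X.tw a fun _ => ())
  conj {m m'} _ _ _ _ a b T T' h1 h2 h := by
    have h' : ∀ g, T' * b g = a g * T' := fun g => by
      rw [← Matrix.mul_one (T' * b g), ← h1, ← Matrix.mul_assoc, Matrix.mul_assoc T', ← h,
        ← Matrix.mul_assoc, h2, Matrix.one_mul]
    have key : ∀ {m m' : Type} [Fintype m] [DecidableEq m] [Fintype m'] [DecidableEq m']
        (a : G →* Matrix m m ℤ) (b : G →* Matrix m' m' ℤ) (T : Matrix m' m ℤ),
        (∀ g, T * a g = b g * T) → Ch (ful G D) (X.tw b fun _ => ()) (X.tw a fun _ => ())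
          (ZLat_Tw (fun g => T * a g) X.p) := fun a b T h => by
      refine ⟨⟨xs_ful hX.ok.hp _, Matrix.one_mul _, Matrix.mul_one _⟩, ?_⟩
      rw [ZLat_Tw_mul (φ := fun g => T * a g), ZLat_Tw_mul (φ := fun g => T * a g), hX.ok.Dp,
        hX.ok.pD]
      · intro g k
        rw [map_mul, Matrix.mul_assoc]
      · intro g k
        rw [← Matrix.mul_assoc, ← h, map_mul, Matrix.mul_assoc]
    refine E.he (hX.tw hS hp a _ fun _ _ _ _ _ _ _ => trivial)
      (hX.tw hS hp b _ fun _ _ _ _ _ _ _ => trivial) (Wd.univ _) (Wd.univ _)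
      (HE.of_iso (key a b T h) (key b a T' h') ?_ ?_)
    · rw [ZLat_Tw_mul (φ := a), hp, mul_one, ZLat_Tw_one (map_one a)]
      intro g k
      rw [h', Matrix.mul_assoc, ← Matrix.mul_assoc T', h2, Matrix.one_mul, map_mul]
    · rw [ZLat_Tw_mul (φ := b), hp, mul_one, ZLat_Tw_one (map_one b)]
      intro g k
      rw [h, Matrix.mul_assoc, ← Matrix.mul_assoc T, h1, Matrix.one_mul, map_mul]
  block {m m'} _ _ _ _ c a d b h := by
    have hc := hX.tw (r' := fun (_ : Unit) _ _ => True) hS hp c (fun _ => ())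
      fun _ _ _ _ _ _ _ => trivial
    have ha := hX.tw (r' := fun (_ : Unit) _ _ => True) hS hp a (fun _ => ())
      fun _ _ _ _ _ _ _ => trivial
    have hd := hX.tw (r' := fun (_ : Unit) _ _ => True) hS hp d (fun _ => ())
      fun _ _ _ _ _ _ _ => trivial
    have hs := (Sub.of_equiv (X' := X.tw c fun _ => ())
      (X := (X.tw a fun _ => ()).ext (X.tw d fun _ => ()) (ZLat_Tw b X.D))
      (Equiv.prodSumDistrib X.J m m') (by rintro ⟨i, x | x⟩ <;> rfl)
      (by simp only [fromBlocks_one, submatrix_one_equiv]) (by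
        rw [show (c : G → _) = _ from funext h]
        ext1 ⟨i, x | x⟩ ⟨j, y | y⟩
        · rfl
        · rfl
        · exact ZLat_wt_zero _
        · rfl)).1
    have ho := hs.obj_iff.1 hc
    have ht : Tw (ful G D) (X.tw a fun _ => ()) (X.tw d fun _ => ()) (ZLat_Tw b X.D) := by
      refine ⟨⟨xs_ful hX.ok.hD _, Matrix.one_mul _, Matrix.mul_one _⟩, ?_⟩
      have h1 := ho.ok.DD
      rw [fromBlocks_multiply, ← fromBlocks_zero, fromBlocks_inj] at h1
      exact h1.2.1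
    rw [E.he hc ho (Wd.univ _) (Wd.univ _) (hs.he ho.ok), E.ext ha hd (Wd.univ _) (Wd.univ _) ht]

theorem VV.swan (hS : Sca D S) (T : Finset G) (L : ℕ) (h : ∀ π : ℕ, π.Prime →
    ∃ (s : ℕ) (X₀ : Type) (_ : Finite X₀) (σ₀ : G →* Equiv.Perm X₀) (X : Fin s → Type)
      (_ : ∀ i, Finite (X i)) (σ : ∀ i, G →* Equiv.Perm (X i)),
      VV D S K X₀ (fun x g y => g ∈ T ∧ σ₀ g y = x) L ∧
      (∀ i, VV D S K (X i) (fun x g y => g ∈ T ∧ σ i g y = x) L) ∧
      (∀ i, ¬ π ∣ Nat.card (X i)) ∧ ∀ g, (∃! x, σ₀ g x = x) ∨ ∃ i, σ i g = 1) :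
    VV D S K Unit (fun _ g _ => g ∈ T) L := by
  refine VV.of_one fun Y hY hB hp => ?_
  obtain ⟨M, _, ⟨E⟩⟩ := exists_KS hS.good K Set.univ
  have hY' : Obj (ful G D) S K Y := hY.lab ctl_ful
  have key : ∀ {X : Type} (σ : G →* Equiv.Perm X),
      VV D S K X (fun x g y => g ∈ T ∧ σ g y = x) L →
      ∀ (Z : Type) [Fintype Z] [DecidableEq Z] (τ : G →* Equiv.Perm Z) (u : Z → X),
        (∀ g z, u (τ g z) = σ g (u z)) → (xs_swan hS E hY' hp).κ (permRep τ) = 0 := by
    intro X σ hV Z _ _ τ u he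
    have h1 := hY.tw (r' := fun x g y => g ∈ T ∧ σ g y = x) hS hp (permRep τ) u
      fun _ g _ x y h1 h2 => ⟨h1, by
        rw [← he]
        exact congrArg u (by_contra fun e => h2 (if_neg e))⟩
    exact (E.zero_iff (h1.lab ctl_ful) (Wd.univ _)).2 (hV _ h1 (fun x => hB x.1) (std_one rfl))
  change Cert _ _ _ _ Y
  rw [← E.zero_iff hY' (Wd.univ _), ← AddMonoid.addOrderOf_eq_one_iff,
    Nat.eq_one_iff_not_exists_prime_dvd]
  intro π hπ hd
  obtain ⟨n, X₀, _, σ₀, X, _, σ, c0, c1, c2, c3⟩ := h π hπ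
  have h2 := swan_fh (xs_swan hS E hY' hp) σ₀ σ (key σ₀ c0) (fun i => key (σ i) (c1 i)) c3
  have h3 : (xs_swan hS E hY' hp).κ (1 : G →* Matrix Unit Unit ℤ) = E.cls Y :=
    E.he (hY'.tw hS hp (1 : G →* Matrix Unit Unit ℤ) _ fun _ _ _ _ _ _ _ => trivial) hY' (Wd.univ _) (Wd.univ _)
      ((Sub.of_equiv (X' := Y.tw (1 : G →* Matrix Unit Unit ℤ) fun _ => ())
        (Equiv.prodUnique Y.J Unit) (fun _ => rfl) (by rw [hp, submatrix_one_equiv])
        (Matrix.ext fun _ _ => ZLat_wt_one _)).1.he hY'.ok)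
  rw [h3] at h2
  obtain ⟨i, -, hi⟩ := (hπ.prime.dvd_finsetProd_iff _).1
    (hπ.dvd_of_dvd_pow (hd.trans (addOrderOf_dvd_of_nsmul_eq_zero h2)))
  exact c2 i hi

end Pool.Agent.MP_f7db47_al.KN

end

section

/-!
The vanishing property for complexes with supports.
-/

namespace Pool.Agent.MP_f7db47_al.KN

open Matrix GN

universe v w

variable {R : Type v} [Ring R] {G : Type} [Group G] [MulSemiringAction G R] {ι : Type}
  {D : Subring R} {S : ι → Submonoid (SkewMonoidAlgebra R G)} {K : Finset ι}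

theorem xw_hm {I J : Type} [Fintype I] [Fintype J] (M : Matrix I J (SkewMonoidAlgebra R G)) :
    ∃ T : Finset G, ∀ T' : Finset G, T ⊆ T' → ∀ (d : ℤ) (s : I → Unit × ℤ) (t : J → Unit × ℤ),
      Hm (ful G D) d s t M → Hm (ctl D fun _ g _ => g ∈ T') d s t M := by
  classical
  refine ⟨Finset.univ.biUnion fun x : I × J => (M x.1 x.2).coeff.support,
    fun T' hT d s t h i j => ⟨fun g => ⟨((h i j).1 g).1, fun e => hT ?_⟩, (h i j).2⟩⟩
  exact Finset.mem_biUnion.2 ⟨(i, j), Finset.mem_univ _, Finsupp.mem_support_iff.2 e⟩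

/-- An object uses only finitely many group elements. -/
theorem Obj.fin {X : Cx (SkewMonoidAlgebra R G) Unit} (h : Obj (ful G D) S K X) :
    ∃ T : Finset G, Obj (ctl D fun _ g _ => g ∈ T) S K X := by
  classical
  obtain ⟨T₁, h1⟩ := xw_hm (D := D) X.p
  obtain ⟨T₂, h2⟩ := xw_hm (D := D) X.D
  choose w hw s hs e using h.tor
  choose T₃ h3 using fun a : K => xw_hm (D := D) (s a a.2)
  refine ⟨T₁ ∪ T₂ ∪ Finset.univ.biUnion T₃, ⟨h1 _ (fun x hx => by simp [hx]) _ _ _ h.ok.hp,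
    h2 _ (fun x hx => by simp [hx]) _ _ _ h.ok.hD, h.ok.pp, h.ok.pD, h.ok.Dp, h.ok.DD⟩,
    fun a ha => ⟨w a ha, hw a ha, s a ha, h3 ⟨a, ha⟩ _ (fun x hx => ?_) _ _ _ (hs a ha), e a ha⟩⟩
  exact Finset.mem_union_right _ (Finset.mem_biUnion.2 ⟨_, Finset.mem_univ _, hx⟩)

theorem VV.nullAll (hS : Sca D S) (hz : Stdz (ful G D) Std)
    (h : ∀ (T : Finset G) (L : ℕ), VV D S K Unit (fun _ g _ => g ∈ T) L) :
    NullAll (ful G D) S K := fun X hX => by
  obtain ⟨Y, h1, h2, h3⟩ := hz X hX.ok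
  obtain ⟨T, hT⟩ := (hX.he hS.good h1 h3).fin
  obtain ⟨L, hL⟩ := exists_bd Y
  exact Cert.he hS.good.mul (h T L Y hT hL h2) h3

variable (D S K) in
/-- Vanishing over spiders. -/
def Van (Q : Subgroup G → Prop) : Prop :=
  ∀ N k L : ℕ, ∃ r : ℕ, ∀ (Λ κ : Type) [Fintype κ] (P : κ → Spi G Λ),
    Fintype.card κ ≤ N → (∀ i a, 0 < (P i).ht a → Q ((P i).leg.grp a)) →
    (∀ a, ∃ i, r ≤ (P i).ht a) → VV D S K Λ (fun a g b => ∀ i, (P i).rel k a g b) L

/-- The vanishing property for complexes with supports. -/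
def mkVT (hS : Sca D S) {Q : Subgroup G → Prop} (h : Van D S K Q) : VT G Q where
  V := VV D S K
  pull := VV.pull
  tr n := (VV.tr.{v} n).imp fun _ hc => hc R G ι D S K hS
  van := h
  swan := VV.swan hS

theorem nullAll_of_vt (hS : Sca D S) (hz : Stdz (ful G D) Std) {Q : Subgroup G → Prop}
    (h : Van D S K Q) (hT : ∀ T : VT G Q, T.All) : NullAll (ful G D) S K :=
  VV.nullAll hS hz (hT (mkVT hS h))

theorem van_of_vn {κ : Type w} {C : Coef ι κ R} [C.Inv G] (h : ∀ N, VN G C N)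
    {Q : Subgroup G → Prop} (hQ : ∀ H, Q H → QG C H) (I : κ) (K : Finset ι) :
    Van (C.D I) (C.S G) K Q := fun N k L => by
  choose r hr using fun n => h n I K k L
  refine ⟨(Finset.range (N + 1)).sup r, fun Λ κ' _ P h1 h2 h3 => ?_⟩
  let e := Fintype.equivFin κ'
  refine VV.pull id (fun a g b c i => c (e.symm i)) le_rfl
    (hr _ Λ (fun i => P (e.symm i)) (fun i a c => hQ _ (h2 _ a c)) fun a => ?_)
  obtain ⟨i, hi⟩ := h3 a
  refine ⟨e i, ?_⟩
  rw [e.symm_apply_apply]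
  exact (Finset.le_sup (f := r) (Finset.mem_range.2 (Nat.lt_succ_of_le h1))).trans hi

/-- The form that is used for the reduction `Pp.Red`. -/
theorem nullAll_of_vn {κ : Type w} {C : Coef ι κ R} [C.Inv G] (h : ∀ N, VN G C N)
    {Q : Subgroup G → Prop} (hQ : ∀ H, Q H → QG C H) (hT : ∀ T : VT G Q, T.All) (I : κ)
    (hz : Stdz (ful G (C.D I)) Std) (K : Finset ι) : NullAll (ful G (C.D I)) (C.S G) K :=
  nullAll_of_vt (C.sca I) hz (van_of_vn h hQ I K) hT

end Pool.Agent.MP_f7db47_al.KN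

end

section

/-!
Controlled standard forms.
-/

namespace Pool.Agent.MP_f7db47_al.KN

open Matrix GN

universe v w

theorem xn_core {A : Type v} [Ring A] {Λ ι : Type} {𝓗 : ℕ → Fam A Λ} {S : ι → Submonoid A}
    (hH : Gr 𝓗 S) {k k₀ : ℕ} {X : Cx A Λ} (hX : Ok (𝓗 k) X) {E M : Type} [Fintype E]
    [DecidableEq E] [Fintype M] [DecidableEq M] {tE : E → Λ × ℤ} {tM : M → Λ × ℤ}
    {e : Matrix E E A} {m : Matrix M M A} {f : Matrix M (X.J ⊕ E) A} {g : Matrix (X.J ⊕ E) M A}
    (he : Hm (𝓗 0) 0 tE tE e) (hm : Hm (𝓗 0) 0 tM tM m)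
    (hf : Hm (𝓗 k₀) 0 tM (Sum.elim X.t tE) f) (hg : Hm (𝓗 k₀) 0 (Sum.elim X.t tE) tM g)
    (gf : g * f = fromBlocks X.p 0 0 e) (fg : f * g = m) (fp : f * fromBlocks X.p 0 0 e = f)
    (pg : fromBlocks X.p 0 0 e * g = g) :
    ∃ D, Ok (𝓗 (k₀ + k + k₀)) ⟨M ⊕ E, Sum.elim tM fun i => ((tE i).1, (tE i).2 + 1),
        fromBlocks m 0 0 e, D⟩ ∧ HE (𝓗 (k₀ + k + k₀)) X
        ⟨M ⊕ E, Sum.elim tM fun i => ((tE i).1, (tE i).2 + 1), fromBlocks m 0 0 e, D⟩ := by
  obtain ⟨a, b, rfl⟩ : ∃ a b, f = fromCols a b := ⟨_, _, (fromCols_toCols f).symm⟩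
  obtain ⟨c, d, rfl⟩ : ∃ c d, g = fromRows c d := ⟨_, _, (fromRows_toRows g).symm⟩
  rw [fromRows_mul_fromCols, fromBlocks_inj] at gf
  obtain ⟨ca, cb, da, db⟩ := gf
  rw [fromCols_mul_fromRows] at fg
  simp only [fromCols_mul_fromBlocks, fromBlocks_mul_fromRows, Matrix.mul_zero, Matrix.zero_mul,
    add_zero, zero_add, fromCols_ext_iff, fromRows_ext_iff] at fp pg
  obtain ⟨ap, be⟩ := fp
  obtain ⟨pc, ed⟩ := pg
  have ha : Hm (𝓗 k₀) 0 tM X.t a := fun i j => hf i (.inl j)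
  have hb : Hm (𝓗 k₀) 0 tM tE b := fun i j => hf i (.inr j)
  have hc : Hm (𝓗 k₀) 0 X.t tM c := fun i j => hg (.inl i) j
  have hd : Hm (𝓗 k₀) 0 tE tM d := fun i j => hg (.inr i) j
  have m0 := hH.mono (Nat.zero_le (k₀ + k + k₀))
  have m1 := hH.mono (Nat.le_add_left k₀ (k₀ + k))
  have ca' : ∀ {I : Type} (x : Matrix X.J I A), c * (a * x) = X.p * x := fun x => by
    rw [← Matrix.mul_assoc, ca]
  have da' : ∀ {I : Type} (x : Matrix X.J I A), d * (a * x) = 0 := fun x => by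
    rw [← Matrix.mul_assoc, da, Matrix.zero_mul]
  have pD : ∀ {I : Type} (x : Matrix X.J I A), X.p * (X.D * x) = X.D * x := fun x => by
    rw [← Matrix.mul_assoc, hX.pD]
  have DD : ∀ {I : Type} (x : Matrix X.J I A), X.D * (X.D * x) = 0 := fun x => by
    rw [← Matrix.mul_assoc, hX.DD, Matrix.zero_mul]
  have cb' : ∀ {I : Type} (x : Matrix E I A), c * (b * x) = 0 := fun x => by
    rw [← Matrix.mul_assoc, cb, Matrix.zero_mul]
  have db' : ∀ {I : Type} (x : Matrix E I A), d * (b * x) = e * x := fun x => by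
    rw [← Matrix.mul_assoc, db]
  have ee : e * e = e := by rw [← db' e, be, db]
  subst fg
  refine ⟨fromBlocks (a * X.D * c) b 0 0, ⟨Hm.blocks (hm.mono m0) (Hm.zero _ _) (Hm.zero _ _)
    ((he.mono m0).shift 1 1 (by omega)), Hm.blocks (Hm.mul_gr hH (Hm.mul_gr hH ha hX.hD rfl le_rfl)
    hc (by omega) le_rfl) ((hb.mono m1).shift_right 1 (by omega)) (Hm.zero _ _) (Hm.zero _ _),
    ?_, ?_, ?_, ?_⟩, fromRows a 0, fromCols c 0, 0, fromBlocks 0 0 d 0,
    ⟨⟨Hm.rows (ha.mono m1) (Hm.zero _ _), ?_, ?_⟩, ?_⟩,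
    ⟨⟨Hm.cols (hc.mono m1) (Hm.zero _ _), ?_, ?_⟩, ?_⟩, Hm.zero _ _,
    Hm.blocks (Hm.zero _ _) (Hm.zero _ _) ((hd.mono m1).shift_left 1 (by omega)) (Hm.zero _ _),
    ?_, ?_⟩ <;>
  first
  | (rw [fromRows_mul_fromCols]
     simp [fromBlocks_multiply, fromBlocks_add, Matrix.mul_assoc, db, da'])
  | simp [fromBlocks_multiply, fromBlocks_mul_fromRows, fromCols_mul_fromBlocks, fromRows_mul,
      mul_fromCols, fromCols_mul_fromRows, Matrix.mul_add, Matrix.add_mul, Matrix.mul_assoc, ca,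
      cb, da, db, ca', da', cb', db', pD, DD, ee, ap, be, pc, ed, hX.Dp]

variable {ι : Type} {κ : Type w} {R : Type v} [Ring R] {G : Type} [Group G]
  [MulSemiringAction G R]

theorem xn_std {D : Subring R} [IsInvariantSubring G D] {Λ Λ' I : Type} {l : I → Λ'}
    {e : Matrix I I (SkewMonoidAlgebra D G)} (h : TW.Std l e) {r : Λ → G → Λ → Prop}
    (hr : ∀ a, r a 1 a) (t : I → Λ × ℤ) : Hm (ctl D r) 0 t t (e.map (incD D)) ∧
      (∀ i j, i ≠ j → e.map (incD D) i j = 0) ∧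
      ∀ i, e.map (incD D) i i = 1 ∨ e.map (incD D) i i = 0 := by
  have h1 : ∀ i j, i ≠ j → e.map (incD D) i j = 0 := fun i j c => by
    rw [Matrix.map_apply, h.1 i j c, map_zero]
  have h2 : ∀ i, e.map (incD D) i i = 1 ∨ e.map (incD D) i i = 0 := fun i =>
    (h.2 i).imp (fun c => by rw [Matrix.map_apply, c, map_one])
      fun c => by rw [Matrix.map_apply, c, map_zero]
  refine ⟨fun i j => ?_, h1, h2⟩
  by_cases c : i = j
  · subst c
    refine ⟨?_, fun _ => by simp⟩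
    rcases h2 i with c | c <;> rw [c]
    exacts [one_mem_ctl D (hr _), zero_mem _]
  · rw [h1 i j c]
    exact ⟨zero_mem _, fun c => absurd rfl c⟩

theorem sn (C : Coef ι κ R) [C.Inv G] (N : ℕ) : SN G C N := fun I k L => by
  obtain ⟨k₀, h⟩ := TW.exists_q0 (R := C.D I) N k
  refine ⟨k₀ + k + k₀, fun Λ B S hB X hX hL => ?_⟩
  let B' : Gpd G (Λ × Set.Icc (-(L : ℤ)) L) :=
    { r := fun x g y => B.r x.1 g y.1 ∧ x.2 = y.2
      refl := fun x => ⟨B.refl _, rfl⟩
      symm := fun c => ⟨B.symm c.1, c.2.symm⟩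
      trans := fun c c' => ⟨B.trans c.1 c'.1, c.2.trans c'.2⟩ }
  obtain ⟨p, e0, hp⟩ := xt_lift hX.hp
  obtain ⟨E, M, _, _, _, _, lE, lM, e, m, f, g, he, hm, hi⟩ :=
    h G _ B' (fun i => (S i).pull (MonoidHom.id G) Prod.fst)
      (fun a => ((hB a.1).1 I).sub (Subgroup.inclusion fun _ hx => hx.1)
        (Subgroup.inclusion_injective _)) X.J (fun j => ((X.t j).1, ⟨(X.t j).2, hL j⟩)) p
      (xt_inj (by rw [Matrix.map_mul, e0, hX.pp]))
      fun i j => (hp i j).mono fun _ c => ⟨⟨c.1.1, Subtype.ext (by simpa using c.2)⟩, c.1.2⟩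
  obtain ⟨e1, e2, e3⟩ := xn_std he (CR B S).refl fun i => ((lE i).1, ((lE i).2 : ℤ))
  obtain ⟨m1, m2, m3⟩ := xn_std hm (CR B S).refl fun i => ((lM i).1, ((lM i).2 : ℤ))
  have e4 : (fromBlocks p 0 0 e).map (incD (C.D I)) = fromBlocks X.p 0 0 (e.map (incD _)) := by
    rw [fromBlocks_map, e0, Matrix.map_zero _ (map_zero _), Matrix.map_zero _ (map_zero _)]
  obtain ⟨D, h1, h2⟩ := xn_core (C.gr I (CR B S)) (k₀ := k₀) hX e1 m1 (f := f.map (incD _))
    (g := g.map (incD _))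
    (xt_back fun i j => (hi.cf i j).mono fun _ c => by
      rcases j with j | j <;>
        exact ⟨⟨c.1.1, c.2⟩, (congrArg Subtype.val c.1.2).trans (add_zero _).symm⟩)
    (xt_back fun i j => (hi.cg i j).mono fun _ c => by
      rcases i with i | i <;>
        exact ⟨⟨c.1.1, c.2⟩, (congrArg Subtype.val c.1.2).trans (add_zero _).symm⟩)
    (by rw [← Matrix.map_mul, hi.gf, e4]) (by rw [← Matrix.map_mul, hi.fg])
    (by rw [← e4, ← Matrix.map_mul, hi.fp]) (by rw [← e4, ← Matrix.map_mul, hi.pg])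
  refine ⟨_, h1, ⟨?_, ?_⟩, ?_, h2⟩
  · rintro (i | i) (j | j) c
    exacts [m2 i j fun d => c (congrArg _ d), rfl, rfl, e2 i j fun d => c (congrArg _ d)]
  · rintro (i | i)
    exacts [m3 i, e3 i]
  · rintro (i | i)
    · obtain ⟨c1, c2⟩ := (lM i).2.2
      change ((lM i).2 : ℤ) ∈ Set.Icc _ _
      constructor <;> push_cast <;> omega
    · obtain ⟨c1, c2⟩ := (lE i).2.2
      change ((lE i).2 : ℤ) + 1 ∈ Set.Icc _ _
      constructor <;> push_cast <;> omega

end Pool.Agent.MP_f7db47_al.KN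

end
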