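import Pool.Agent.Mg.Ff7db47n.N4
import Pool.Agent.Mg.Ff7db47.G00229f
import Pool.Agent.Mg.Ff7db47.G4b3290
import Pool.Agent.Mg.Ff7db47n.N3
import Pool.Agent.Mg.Ff7db47n.N5
import Pool.Agent.Mg.Ff7db47n.N1
import Pool.Agent.Mg.Ff7db47n.N2
import Pool.Agent.Mg.Ff7db47.G782c7c
import Pool.Agent.MP_f7db47_al.KN.O0

section

/-!
Abelian quotients and rational linear groups.
-/

namespace Pool.Agent.MP_f7db47_al.KN

open GN GF

variable {G₀ : Type} [Group G₀] {Q : Pp G₀}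

theorem XL1_sub (hs : Q.Sub) {G H : Type} [Group G] [Group H] {i : H →* G₀} {i' : G →* G₀}
    (f : G →* H) (hf : Function.Injective f) (e : ∀ x, i' x = i (f x)) (h : Q H i) : Q G i' := by
  have : i' = i.comp f := MonoidHom.ext e
  rw [this]
  exact hs f hf h

/-- The translations. -/
def XL1_tr (r : ℕ) : Multiplicative (Fin r → ℤ) →* VC.Wr (Fin r) :=
  MonoidHom.mk' (fun x => ⟨x.toAdd, 1⟩) fun _ _ => VC.Wr.ext rfl (mul_one _).symm

theorem abq_of (hs : Q.Sub) (hl : Q.Loc) (hf : Q.Flow) : Q.Abq := by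
  intro G A _ _ i hA φ h
  refine hl fun K hK => ?_
  have : Group.FG K := (Group.fg_iff_subgroup_fg K).2 hK
  let χ : K →* A := φ.comp K.subtype
  have : Group.FG χ.range := Group.fg_range χ
  obtain ⟨r, e, he⟩ := PT.ZAbq_emb (K := χ.range) fun g hg =>
    Subtype.ext (hA g (χ.range.subtype.isOfFinOrder hg))
  let f : K →* VC.Wr (Fin r) := (XL1_tr r).comp (e.comp χ.rangeRestrict)
  refine hf (VC.wr_pack (Fin r)) f (fun B ψ hψ => ?_) fun B hB => hB.elim
  let t : B.comap f →* B := (f.comp (B.comap f).subtype).codRestrict B fun g => g.2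
  let u : B.comap f ≃* (B.comap f).map K.subtype :=
    (B.comap f).equivMapOfInjective K.subtype K.subtype_injective
  refine XL1_sub hs u.toMonoidHom u.injective (fun _ => rfl)
    (h ((B.comap f).map K.subtype) ((ψ.comp t).comp u.symm.toMonoidHom) fun x hx => ?_)
  obtain ⟨x, rfl⟩ := u.surjective x
  have h1 : ψ (t x) = 1 := by simpa using hx
  have h2 : f x.1 = 1 := VC.Vab_tors rfl (B.subtype.isOfFinOrder (hψ _ h1))
  have h3 : e (χ.rangeRestrict x.1) = 1 :=
    Multiplicative.toAdd.injective (congrArg VC.Wr.b h2)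
  exact congrArg Subtype.val (he (h3.trans (map_one e).symm))

section

open Matrix

variable (Q) in
/-- The hypothesis of the induction. -/
def XL1_Hyp {G A : Type} [Group G] [Ring A] (i : G →* G₀) (ρ : G →* A) : Prop :=
  ∀ (H : Type) [Group H] (j : H →* G), Function.Injective j → ∀ φ : H →* GN.MZ,
    (∀ g, φ g = 1 → BMainQ (ρ (j g))) → Q H (i.comp j)

theorem XL1_comp {G H A : Type} [Group G] [Group H] [Ring A] {i : G →* G₀} {ρ : G →* A}
    (h : XL1_Hyp Q i ρ) (j : H →* G) (hj : Function.Injective j) :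
    XL1_Hyp Q (i.comp j) (ρ.comp j) :=
  fun K _ k hk φ hφ => h K (j.comp k) (hj.comp hk) φ hφ

theorem XL1_red (ha : Q.Abq) {d : ℕ}
    (ih : ∀ (V : Type) [AddCommGroup V] [Module ℚ V] [FiniteDimensional ℚ V],
      Module.finrank ℚ V ≤ d → ∀ (G : Type) [Group G] (i : G →* G₀) (ρ : G →* Module.End ℚ V),
        XL1_Hyp Q i ρ → Q G i)
    {V : Type} [AddCommGroup V] [Module ℚ V] [FiniteDimensional ℚ V]
    (hV : Module.finrank ℚ V ≤ d + 1) {H : Type} [Group H] (i : H →* G₀)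
    (ρ : H →* Module.End ℚ V) (hρ : XL1_Hyp Q i ρ) (W : Submodule ℚ V) (hb : W ≠ ⊥) (ht : W ≠ ⊤)
    (hW : ∀ g, W ≤ W.comap (ρ g)) : Q H i := by
  have d₁ : Module.finrank ℚ W ≤ d := by
    have := Submodule.finrank_lt ht
    omega
  have d₂ : Module.finrank ℚ (V ⧸ W) ≤ d := by
    have h1 := W.finrank_quotient_add_finrank
    have h2 : Module.finrank ℚ W ≠ 0 := fun e => hb (Submodule.finrank_eq_zero.1 e)
    omega
  let ρ₁ : H →* Module.End ℚ W := Representation.subrepresentation ρ W hW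
  let ρ₂ : H →* Module.End ℚ (V ⧸ W) := Representation.quotient ρ W hW
  refine ih W d₁ H i ρ₁ fun H₁ _ j₁ i₁ φ₁ q₁ => ?_
  refine ih (V ⧸ W) d₂ H₁ _ (ρ₂.comp j₁) fun H₂ _ j₂ i₂ φ₂ q₂ => ?_
  refine ha BMain_tf ((φ₁.comp j₂).prod φ₂) fun H₃ ψ hψ => ?_
  refine hρ H₃ (j₁.comp (j₂.comp H₃.subtype)) (i₁.comp (i₂.comp H₃.subtype_injective)) ψ
    fun g hg => ?_
  have e := hψ g hg
  exact BMain_blk W _ (ρ₁ (j₁ (j₂ g))) (ρ₂ (j₁ (j₂ g))) (fun _ => rfl) (fun _ => rfl)
    (q₁ _ (congrArg Prod.fst e)) (q₂ _ (congrArg Prod.snd e))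

theorem XL1_ind (hs : Q.Sub) (hl : Q.Loc) (hF : Q.Flow) (d : ℕ) :
    ∀ (V : Type) [AddCommGroup V] [Module ℚ V] [FiniteDimensional ℚ V],
      Module.finrank ℚ V ≤ d → ∀ (G : Type) [Group G] (i : G →* G₀) (ρ : G →* Module.End ℚ V),
        XL1_Hyp Q i ρ → Q G i := by
  have z : ∀ (V : Type) [AddCommGroup V] [Module ℚ V] [FiniteDimensional ℚ V],
      Module.finrank ℚ V = 0 → ∀ (G : Type) [Group G] (i : G →* G₀) (ρ : G →* Module.End ℚ V),
        XL1_Hyp Q i ρ → Q G i := by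
    intro V _ _ _ hV G _ i ρ hρ
    have : Subsingleton V := Module.finrank_zero_iff.1 hV
    exact hρ G (MonoidHom.id G) Function.injective_id 1 fun g _ =>
      ⟨1, one_pos, 1, LinearMap.ext fun u => Subsingleton.elim _ _⟩
  induction d with
  | zero => intro V _ _ _ hV; exact z V (Nat.le_zero.1 hV)
  | succ d ih =>
    intro V _ _ _ hV G _ i₀ ρ₀ hρ₀
    rcases Nat.eq_zero_or_pos (Module.finrank ℚ V) with h0 | h0
    · exact z V h0 G i₀ ρ₀ hρ₀
    obtain ⟨n, hn⟩ : ∃ n, Module.finrank ℚ V = n + 1 := ⟨_, (Nat.succ_pred_eq_of_pos h0).symm⟩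
    refine hl fun K hK => ?_
    have hρ := XL1_comp hρ₀ K.subtype K.subtype_injective
    change Q K (i₀.comp K.subtype)
    generalize ρ₀.comp K.subtype = ρ at hρ
    generalize i₀.comp K.subtype = i at hρ ⊢
    let b : Module.Basis (Fin (n + 1)) ℚ V := Module.finBasisOfFinrankEq ℚ V hn
    let e := LinearMap.toMatrixAlgEquiv b
    let f₀ : K →* GL (Fin (n + 1)) ℚ :=
      ((e : Module.End ℚ V →* Matrix (Fin (n + 1)) (Fin (n + 1)) ℚ).comp ρ).toHomUnits
    have hf₀ : ∀ g, (f₀ g).val = e (ρ g) := fun g => rfl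
    obtain ⟨F, hFZ⟩ := BMain_land ((Group.fg_iff_subgroup_fg K).2 hK) f₀
    obtain ⟨Z, hZ, hpk⟩ := packStmt n F
    let f : K →* GLZ Z (Fin (n + 1)) × GN.MZ := (f₀.codRestrict _ (hFZ Z hZ)).prod 1
    have hf : ∀ g, (f g).1.1.val = e (ρ g) := fun g => rfl
    refine hF hpk f (fun B φ hφ => ?_) (fun B hB => ?_)
    · let r : B.comap f →* B := (f.comp (B.comap f).subtype).codRestrict B fun g => g.2
      refine hρ _ (B.comap f).subtype (B.comap f).subtype_injective (φ.comp r) fun g hg => ?_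
      obtain ⟨k, hk, ek⟩ := isOfFinOrder_iff_pow_eq_one.1 (hφ _ hg)
      have e1 : f (g.1 ^ k) = 1 := by
        rw [map_pow]
        exact congrArg Subtype.val ek
      have e2 : e (ρ (g.1 ^ k)) = e 1 := by
        rw [← hf, e1, map_one]
        rfl
      refine ⟨k, hk, ?_⟩
      have e3 := e.injective e2
      rw [map_pow] at e3
      change IsNilpotent (ρ g.1 ^ k - 1)
      rw [e3, sub_self]
      exact IsNilpotent.zero
    · obtain ⟨W₀, hb, ht, hW⟩ := hB
      refine XL1_red (abq_of hs hl hF) ih hV _ (ρ.comp (B.comap f).subtype)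
        (XL1_comp hρ _ (B.comap f).subtype_injective)
        (W₀.comap (b.equivFun : V →ₗ[ℚ] (Fin (n + 1) → ℚ))) ?_ ?_ ?_
      · intro h
        apply hb
        rw [eq_bot_iff] at h ⊢
        intro u hu
        have : b.equivFun.symm u ∈ W₀.comap (b.equivFun : V →ₗ[ℚ] (Fin (n + 1) → ℚ)) := by
          change b.equivFun (b.equivFun.symm u) ∈ W₀
          rwa [LinearEquiv.apply_symm_apply]
        have h2 := h this
        rw [Submodule.mem_bot] at h2 ⊢
        exact b.equivFun.symm.map_eq_zero_iff.1 h2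
      · intro h
        apply ht
        rw [eq_top_iff] at h ⊢
        intro u _
        have h2 : b.equivFun (b.equivFun.symm u) ∈ W₀ :=
          h (Submodule.mem_top (x := b.equivFun.symm u))
        rwa [LinearEquiv.apply_symm_apply] at h2
      · intro g u hu
        have h1 := hW (f g.1) g.2 _ hu
        rw [hf] at h1
        have h2 : e (ρ g.1) *ᵥ b.repr u = b.repr (ρ g.1 u) :=
          LinearMap.toMatrix_mulVec_repr b b _ u
        change b.equivFun (ρ g.1 u) ∈ W₀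
        rw [Module.Basis.equivFun_apply, ← h2]
        exact h1

end

theorem glQ_of (hs : Q.Sub) (hl : Q.Loc) (hf : Q.Flow) {G : Type} [Group G] {i : G →* G₀} {n : ℕ}
    (f : G →* GL (Fin n) ℚ)
    (h : ∀ (H : Subgroup G) (φ : H →* MZ), (∀ g : H, φ g = 1 → QU (f g).val) → Q.on i H) :
    Q G i := by
  let e : Matrix (Fin n) (Fin n) ℚ ≃ₐ[ℚ] Module.End ℚ (Fin n → ℚ) := Matrix.toLinAlgEquiv'
  let ρ : G →* Module.End ℚ (Fin n → ℚ) :=
    (e : Matrix (Fin n) (Fin n) ℚ →* Module.End ℚ (Fin n → ℚ)).comp ((Units.coeHom _).comp f)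
  refine XL1_ind hs hl hf _ (Fin n → ℚ) le_rfl G i ρ fun H _ j hj φ hφ => ?_
  let t := MonoidHom.ofInjective hj
  refine XL1_sub hs t.toMonoidHom t.injective (fun _ => rfl)
    (h j.range (φ.comp t.symm.toMonoidHom) fun g hg => ?_)
  obtain ⟨m, hm, hn⟩ := hφ _ hg
  refine ⟨m, hm, ?_⟩
  have e1 : j (t.symm g) = g.1 := MonoidHom.apply_ofInjective_symm hj g
  have e2 : ρ (j (t.symm.toMonoidHom g)) ^ m - 1 = e ((f g).val ^ m - 1) := by
    rw [map_sub, map_pow, map_one]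
    change e (f (j (t.symm g))).val ^ m - 1 = _
    rw [e1]
  rw [e2] at hn
  exact (IsNilpotent.map_iff e.injective).1 hn

end Pool.Agent.MP_f7db47_al.KN

end

section

/-!
Linear groups over commutative rings.
-/

namespace Pool.Agent.MP_f7db47_al.KN

open GN GF

variable {G₀ : Type} [Group G₀] {Q : Pp G₀}

section aux

open Function Matrix GS

theorem XL2_sub (hs : Q.Sub) {G H : Type} [Group G] [Group H] {i : H →* G₀} {a : G →* G₀}
    (h : Q H i) (f : G →* H) (e : ∀ g, i (f g) = a g) (hf : Injective f) : Q G a := by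
  have h1 := hs f hf h
  rwa [show i.comp f = a from MonoidHom.ext e] at h1

theorem XL2_tf {A : Type} [CommGroup A] [IsMulTorsionFree A] (q : A) (hq : IsOfFinOrder q) :
    q = 1 :=
  by_contra fun e => isMulTorsionFree_iff_not_isOfFinOrder.1 inferInstance e hq

theorem XL2_glnF (hs : Q.Sub) (hl : Q.Loc) (h2 : Q.Lat2) {G : Type} [Group G] {a : G →* G₀}
    {K : Type} [Field K] [CharZero K] {n : ℕ} (f : G →* GL (Fin n) K)
    (h : ∀ H : Subgroup G, (∀ g ∈ ⁅H, H⁆, IsAlgebraic ℤ (f g).val.trace) → Q.on a H) :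
    Q G a := by
  refine hl fun M hM => ?_
  obtain ⟨A₀, f₀, hA, hf⟩ := GN.exists_fg_subring ((Group.fg_iff_subgroup_fg M).2 hM) K n
    (f.comp M.subtype)
  obtain ⟨ι, _, P, ρ, hρ⟩ := GZ.glnF_places A₀ hA n
  have hk : ∀ x : K, x ∈ (algebraicClosure ℚ K).toSubfield ↔ IsAlgebraic ℤ x := fun x =>
    (mem_algebraicClosure_iff (F := ℚ)).trans (IsFractionRing.isAlgebraic_iff ℤ ℚ K).symm
  refine h2 P n (fun l => (ρ l).comp f₀) (algebraicClosure ℚ K).toSubfield
    ((Units.coeHom _).comp (f.comp M.subtype)) (fun g hg => (hk _).2 ?_) fun H hH => ?_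
  · have h1 := (hρ (f₀ g) hg).algHom A₀.subtype.toIntAlgHom
    have h2 : A₀.subtype (f₀ g).val.trace = (f g).val.trace := by
      rw [AddMonoidHom.map_trace A₀.subtype]
      exact congrArg (fun u : GL (Fin n) K => u.val.trace) (hf g)
    exact h2 ▸ h1
  · refine XL2_sub hs (h (H.map M.subtype) ?_)
      (H.equivMapOfInjective _ M.subtype_injective).toMonoidHom (fun _ => rfl)
      (MulEquiv.injective _)
    rw [← Subgroup.map_commutator]
    rintro _ ⟨g, hg, rfl⟩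
    exact (hk _).1 (hH g hg)

theorem XL2_iso (hq : Q.Abq) {G : Type} [Group G] (H : Subgroup G) {a : H →* G₀}
    (h : ∀ (L : Subgroup H) (ψ : L →* MZ),
      (∀ x : L, ψ x = 1 → ∃ k : ℕ, 0 < k ∧ ((x : H) : G) ^ k ∈ ⁅H, H⁆) → Q.on a L) : Q H a := by
  refine hq (A := Abelianization H ⧸ CommGroup.torsion (Abelianization H)) XL2_tf
    ((QuotientGroup.mk' _).comp Abelianization.of) fun L ψ hψ => h L ψ fun x hx => ?_
  have h1 : IsOfFinOrder (Abelianization.of (x : H)) := (QuotientGroup.eq_one_iff _).1 (hψ x hx)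
  obtain ⟨k, hk, h2⟩ := isOfFinOrder_iff_pow_eq_one.1 h1
  refine ⟨k, hk, ?_⟩
  rw [← H.map_subtype_commutator]
  refine ⟨(x : H) ^ k, ?_, rfl⟩
  rw [← Abelianization.ker_of]
  exact (map_pow _ _ _).trans h2

theorem XL2_glQU (hs : Q.Sub) (hl : Q.Loc) (hf : Q.Flow) (h2 : Q.Lat2) {G K : Type} [Group G]
    {a : G →* G₀} [Field K] [CharZero K] {n : ℕ} (f : G →* GL (Fin n) K)
    (h : ∀ (H : Subgroup G) (φ : H →* MZ), (∀ g : H, φ g = 1 → QU (f g).val) → Q.on a H) :
    Q G a := by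
  have h' : ∀ (M : Type) [Group M] (i : M →* G), Injective i → ∀ φ : M →* MZ,
      (∀ g, φ g = 1 → QU (f (i g)).val) → Q M (a.comp i) := fun M _ i hi φ hφ => by
    let e := MonoidHom.ofInjective hi
    refine XL2_sub hs (h i.range (φ.comp e.symm.toMonoidHom) fun g hg => ?_) e.toMonoidHom
      (fun _ => rfl) e.injective
    obtain ⟨x, rfl⟩ := e.surjective g
    exact hφ x (by simpa using hg)
  refine XL2_glnF hs hl h2 f fun H hH => hl fun M hM => ?_
  let i : M →* G := H.subtype.comp M.subtype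
  have hi : Injective i := H.subtype_injective.comp M.subtype_injective
  obtain ⟨A, f₀, hA, hf₀⟩ :=
    GN.exists_fg_subring ((Group.fg_iff_subgroup_fg M).2 hM) K n (f.comp i)
  obtain ⟨L, _, _, ⟨ev⟩⟩ := Uni1_ev A hA
  obtain ⟨N, Ψ, hΨ⟩ := Lin_res L n
  have e : ∀ g, (f (i g)).val = A.subtype.mapMatrix (f₀ g).val := fun g =>
    congrArg Units.val (hf₀ g).symm
  refine glQ_of hs hl hf ((Units.map (Ψ.comp ev.mapMatrix).toMonoidHom).comp f₀)
    fun M₁ φ hφ => ?_
  let T := Abelianization H ⧸ CommGroup.torsion (Abelianization H)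
  let π : H →* T := (QuotientGroup.mk' _).comp Abelianization.of
  refine abq_of hs hl hf (A := Multiplicative ℤ × T) XL2_tf
    (φ.prod (π.comp (M.subtype.comp M₁.subtype))) fun M₂ ψ hψ => ?_
  refine h' M₂ (i.comp (M₁.subtype.comp M₂.subtype))
    (hi.comp (M₁.subtype_injective.comp M₂.subtype_injective)) ψ fun x hx => ?_
  have h0 := Prod.ext_iff.1 (hψ x hx)
  have h1 : IsOfFinOrder (Abelianization.of (x.1.1 : H)) := (QuotientGroup.eq_one_iff _).1 h0.2
  obtain ⟨k, hk, h2⟩ := isOfFinOrder_iff_pow_eq_one.1 h1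
  have h3 : i (x.1.1 ^ k) ∈ ⁅H, H⁆ := by
    rw [← H.map_subtype_commutator]
    refine ⟨(x.1.1 : H) ^ k, ?_, rfl⟩
    rw [← Abelianization.ker_of]
    exact (map_pow _ _ _).trans h2
  obtain ⟨m, hm, h4⟩ := Lin_qu A ev (f₀.comp (M₁.subtype.comp (zpowersHom M₁ (x.1 ^ k))))
    (fun j => by
      have h5 := hH _ (Subgroup.zpow_mem _ h3 j.toAdd)
      rw [← map_zpow, e, RingHom.mapMatrix_apply, ← AddMonoidHom.map_trace] at h5
      exact (isAlgebraic_algHom_iff A.subtype.toIntAlgHom A.subtype_injective).1 h5)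
    (fun j => by
      obtain ⟨m, hm, h5⟩ := hφ ((x.1 ^ k) ^ j.toAdd) (by
        rw [map_zpow, map_pow, show φ x.1 = 1 from h0.1, one_pow, _root_.one_zpow])
      refine ⟨m, hm, (IsNilpotent.map_iff hΨ).1 ?_⟩
      rw [map_sub, map_pow, map_one]
      exact h5) (Multiplicative.ofAdd 1)
  refine ⟨k * m, Nat.mul_pos hk hm, ?_⟩
  change IsNilpotent ((f (i x.1.1)).val ^ (k * m) - 1)
  rw [pow_mul, ← Units.val_pow_eq_pow_val, ← map_pow, ← map_pow, e]
  simpa using h4

variable {G : Type} [Group G]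

variable (Q) in
/-- Reduction to extensions by subgroups of `ℤ` of groups whose elements satisfy `P`. -/
def XL2_Red (P : G → Prop) : Prop :=
  ∀ (M : Type) [Group M] (a : M →* G₀) (i : M →* G), (∀ (H : Type) [Group H] (j : H →* M),
    Injective j → ∀ φ : H →* MZ, (∀ g, φ g = 1 → P (i (j g))) → Q H (a.comp j)) → Q M a

variable (Q) in
/-- Reduction to groups whose commutator subgroup satisfies `P`. -/
def XL2_Red2 (P : G → Prop) : Prop :=
  ∀ (M : Type) [Group M] (a : M →* G₀) (i : M →* G),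
    (∀ H : Subgroup M, (∀ g ∈ ⁅H, H⁆, P (i g)) → Q.on a H) → Q M a

theorem XL2_mono {P P' : G → Prop} (h : XL2_Red Q P) (hP : ∀ g, P g → P' g) : XL2_Red Q P' :=
  fun M _ a i hM => h M a i fun H _ j hj φ hφ => hM H j hj φ fun g hg => hP _ (hφ g hg)

theorem XL2_mono2 {P P' : G → Prop} (h : XL2_Red2 Q P) (hP : ∀ g, P g → P' g) : XL2_Red2 Q P' :=
  fun M _ a i hM => h M a i fun H hH => hM H fun g hg => hP _ (hH g hg)

theorem XL2_and (hq : Q.Abq) {P P' : G → Prop} (h : XL2_Red Q P) (h' : XL2_Red Q P') :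
    XL2_Red Q fun g => P g ∧ P' g :=
  fun M _ a i hM => h M a i fun H _ j hj φ hφ => h' H (a.comp j) (i.comp j)
    fun _ _ j₂ hj₂ φ₂ hφ₂ => hq (A := Multiplicative ℤ × Multiplicative ℤ) XL2_tf
      ((φ.comp j₂).prod φ₂) fun H₃ ψ hψ =>
      hM H₃ (j.comp (j₂.comp H₃.subtype)) (hj.comp (hj₂.comp H₃.subtype_injective)) ψ fun g hg =>
        ⟨hφ _ (congrArg Prod.fst (hψ g hg)), hφ₂ _ (congrArg Prod.snd (hψ g hg))⟩

theorem XL2_and2 (hs : Q.Sub) {P P' : G → Prop} (h : XL2_Red2 Q P) (h' : XL2_Red2 Q P') :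
    XL2_Red2 Q fun g => P g ∧ P' g :=
  fun M _ a i hM => h M a i fun H hH => h' H (a.comp H.subtype) (i.comp H.subtype) fun H₂ hH₂ =>
    XL2_sub hs (hM (H₂.map H.subtype) fun g hg => ⟨hH g (Subgroup.commutator_mono
      (Subgroup.map_subtype_le _) (Subgroup.map_subtype_le _) hg), by
        rw [← Subgroup.map_commutator] at hg
        obtain ⟨x, hx, rfl⟩ := hg
        exact hH₂ x hx⟩) (H₂.equivMapOfInjective _ H.subtype_injective).toMonoidHom
      (fun _ => rfl) (MulEquiv.injective _)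

theorem XL2_all (hq : Q.Abq) {ι : Type} {P : ι → G → Prop} (h : ∀ a, XL2_Red Q (P a))
    (s : Finset ι) : XL2_Red Q fun g => ∀ a ∈ s, P a g := by
  classical
  induction s using Finset.induction_on with
  | empty =>
    exact fun M _ _ i hM => hM M (MonoidHom.id _) injective_id 1 fun _ _ _ h => by simp at h
  | insert a s _ ih => exact XL2_mono (XL2_and hq (h a) ih) fun g hg => by simpa using hg

theorem XL2_all2 (hs : Q.Sub) {ι : Type} {P : ι → G → Prop} (h : ∀ a, XL2_Red2 Q (P a))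
    (s : Finset ι) : XL2_Red2 Q fun g => ∀ a ∈ s, P a g := by
  classical
  induction s using Finset.induction_on with
  | empty =>
    exact fun M _ _ i hM => XL2_sub hs (hM ⊤ fun _ _ _ h => by simp at h)
      Subgroup.topEquiv.symm.toMonoidHom (fun _ => rfl) (MulEquiv.injective _)
  | insert a s _ ih => exact XL2_mono2 (XL2_and2 hs (h a) ih) fun g hg => by simpa using hg

theorem XL2_red (hq : Q.Abq) {P : G → Prop} (h : XL2_Red2 Q P) :
    XL2_Red Q fun g => ∃ k, 0 < k ∧ P (g ^ k) :=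
  fun M _ a i hM => h M a i fun H hH => XL2_iso hq H fun L ψ hψ =>
    hM L (H.subtype.comp L.subtype) (H.subtype_injective.comp L.subtype_injective) ψ fun g hg => by
      obtain ⟨k, hk, h1⟩ := hψ g hg
      exact ⟨k, hk, map_pow i _ k ▸ hH _ h1⟩

theorem XL2_coeff (hL : Q.Lat2) (p : ℕ) [Fact p.Prime] {A : Type} [CommRing A] [IsDomain A]
    [Algebra (ZMod p) A] [Algebra.FiniteType (ZMod p) A] {n : ℕ} (f : G →* GL (Fin n) A)
    (c : ℕ) : XL2_Red2 Q fun g => IsIntegral (ZMod p) ((f g).val.charpoly.coeff c) := by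
  intro M _ a i hM
  obtain ⟨L, _, φ, m, w, hφ, h1, h2⟩ := PT.exists_vals p A
  choose P ρ hρ using fun l => GN.exists_place (w l) (h1 l) n
  obtain ⟨κ, _, _, Λ, hΛ⟩ := exists_compound L n c
  let _ : Algebra (ZMod p) L := (φ.comp (algebraMap (ZMod p) A)).toAlgebra
  let φ' : A →ₐ[ZMod p] L := { φ with commutes' := fun _ => rfl }
  have hk : ∀ x : GL (Fin n) A, (Λ (φ.mapMatrix x.val)).trace ∈
      (algebraicClosure (ZMod p) L).toSubfield ↔ IsIntegral (ZMod p) (x.val.charpoly.coeff c) :=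
    fun x => by
      have h3 : (φ.mapMatrix x.val).charpoly.coeff c = φ' (x.val.charpoly.coeff c) := by
        rw [RingHom.mapMatrix_apply, charpoly_map, Polynomial.coeff_map]; rfl
      rw [← isIntegral_algHom_iff φ' hφ, ← h3, ← mem_algebraicClosure_iff']
      rcases hΛ (φ.mapMatrix x.val) with e | e <;> rw [e]
      · rfl
      · exact neg_mem_iff
  refine hL P n (fun l => (ρ l).comp ((GeneralLinearGroup.map φ).comp (f.comp i)))
    (algebraicClosure (ZMod p) L).toSubfield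
    (Λ.comp (φ.mapMatrix.toMonoidHom.comp ((Units.coeHom _).comp (f.comp i))))
    (fun g hg => (hk _).2 (h2 _ fun l => ?_)) fun H hH => hM H fun g hg => (hk _).1 (hH g hg)
  have h3 : (GeneralLinearGroup.map φ (f (i g))).val.charpoly = (f (i g)).val.charpoly.map φ :=
    charpoly_map _ φ
  have := hρ l _ (hg l) c
  rwa [MonoidHom.comp_apply, MonoidHom.comp_apply, h3, Polynomial.coeff_map] at this

theorem XL2_domain (hs : Q.Sub) (hl : Q.Loc) (hf : Q.Flow) (h2 : Q.Lat2) {A : Type} [CommRing A]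
    [IsDomain A] (hA : Algebra.FiniteType ℤ A) {n : ℕ} (f : G →* GL (Fin n) A) :
    XL2_Red Q fun g => QU (f g).val := by
  have hc : CharP A (ringChar A) := ringChar.charP _
  rcases CharP.char_is_prime_or_zero A (ringChar A) with hp | hp
  · have : Fact (ringChar A).Prime := ⟨hp⟩
    let _ := ZMod.algebra A (ringChar A)
    have : Algebra.FiniteType (ZMod (ringChar A)) A :=
      Algebra.FiniteType.of_restrictScalars_finiteType ℤ _ _
    refine XL2_mono (XL2_red (abq_of hs hl hf)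
      (XL2_all2 hs (XL2_coeff h2 (ringChar A) f) (Finset.range (n + 1)))) ?_
    rintro g ⟨k, hk, h⟩
    obtain ⟨m, hm, h1⟩ := isOfFinOrder_iff_pow_eq_one.1
      (GN.finOrder_of_integral (ringChar A) A n (f (g ^ k)) fun c => by
        by_cases hc : c < n + 1
        · exact h c (Finset.mem_range.2 hc)
        · rw [Polynomial.coeff_eq_zero_of_natDegree_lt (by
            rw [charpoly_natDegree_eq_dim, Fintype.card_fin]; omega)]
          exact isIntegral_zero)
    refine ⟨k * m, Nat.mul_pos hk hm, ?_⟩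
    rw [← Units.val_pow_eq_pow_val, pow_mul, ← map_pow f g k, h1, Units.val_one, sub_self]
    exact IsNilpotent.zero
  · rw [hp] at hc
    have := CharP.charP_to_charZero A
    have hi := IsFractionRing.injective A (FractionRing A)
    have : CharZero (FractionRing A) := charZero_of_injective_algebraMap hi
    intro M _ a i hM
    refine XL2_glQU hs hl hf h2
      ((GeneralLinearGroup.map (algebraMap A (FractionRing A))).comp (f.comp i))
      fun H φ hφ => hM H H.subtype H.subtype_injective φ fun g hg => ?_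
    obtain ⟨m, hm, h1⟩ := hφ g hg
    refine ⟨m, hm, (IsNilpotent.map_iff (f := (algebraMap A (FractionRing A)).mapMatrix)
      (Matrix.map_injective hi)).1 ?_⟩
    rw [map_sub, map_pow, map_one]
    exact h1

end aux

theorem gl_of (hs : Q.Sub) (hl : Q.Loc) (hf : Q.Flow) (h2 : Q.Lat2) : Q.Gl := by
  intro G A _ _ a n f h
  refine hl fun M hM => ?_
  obtain ⟨A₀, f₀, hA, hf₀⟩ :=
    GN.exists_fg_subring ((Group.fg_iff_subgroup_fg M).2 hM) A n (f.comp M.subtype)
  have : IsNoetherianRing A₀ := Algebra.FiniteType.isNoetherianRing ℤ A₀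
  have : Finite (minimalPrimes A₀) := (minimalPrimes.finite_of_isNoetherianRing A₀).to_subtype
  have := Fintype.ofFinite (minimalPrimes A₀)
  refine XL2_all (abq_of hs hl hf) (fun T : minimalPrimes A₀ =>
    have := Ideal.minimalPrimes_isPrime T.2
    XL2_domain hs hl hf h2 (hA.of_surjective (Ideal.Quotient.mk T.1).toIntAlgHom
      Ideal.Quotient.mk_surjective)
      ((Matrix.GeneralLinearGroup.map (Ideal.Quotient.mk T.1)).comp f₀)) Finset.univ M _
    (MonoidHom.id _) fun H _ j hj φ hφ => ?_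
  have hi : Function.Injective (M.subtype.comp j) := M.subtype_injective.comp hj
  let e := MonoidHom.ofInjective hi
  refine XL2_sub hs (h _ (φ.comp e.symm.toMonoidHom) fun g hg => ?_) e.toMonoidHom
    (fun _ => rfl) e.injective
  obtain ⟨x, rfl⟩ := e.surjective g
  obtain ⟨m, hm, h1⟩ := GS.qu_of_primes (f₀ (j x)).val fun T =>
    hφ x (by simpa using hg) T (Finset.mem_univ T)
  have h3 := h1.map A₀.subtype.mapMatrix
  rw [map_sub, map_pow, map_one] at h3
  have h4 : A₀.subtype.mapMatrix (f₀ (j x)).val = (f (j x)).val := congrArg Units.val (hf₀ (j x))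
  exact ⟨m, hm, h4 ▸ h3⟩

end Pool.Agent.MP_f7db47_al.KN

end

section

/-!
The property given by invertible matrices over twisted group rings, and full theories.
-/

namespace Pool.Agent.MP_f7db47_al.KN

open GN GF Function

universe v

theorem polyZ_mz : PolyZ MZ :=
  PolyZ.ext _ (MonoidHom.id _) (PolyZ.triv _ ⟨fun a b => Subtype.ext (a.2.trans b.2.symm)⟩)

section

variable {G₀ : Type} [Group G₀]

/-- Passage to products with the integers. -/
def Pp.ProdZ (Q : Pp G₀) : Prop :=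
  ∀ {G : Type} [Group G] {i : G →* G₀}, Q G i → Q (G × MZ) (i.comp (MonoidHom.fst G MZ))

/-- Local sections on a finite set. -/
def Sec {G G' : Type} [Group G] [Group G'] (S : Finset G) (q : G' →* G) (s : G → G') : Prop :=
  (∀ g ∈ S, q (s g) = g) ∧ ∀ g ∈ S, ∀ h ∈ S, g * h ∈ S → s (g * h) = s g * s h

/-- Passage to colimits. -/
def Pp.Colim (Q : Pp G₀) : Prop :=
  ∀ {G : Type} [Group G] {i : G →* G₀},
    (∀ S : Finset G, ∃ (G' : Type) (_ : Group G') (q : G' →* G) (s : G → G'),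
      Sec S q s ∧ Q G' (i.comp q)) → Q G i

/-- The reduction to finite-by-cyclic subgroups. -/
theorem Pp.fj {Q : Pp G₀} (hs : Q.Sub) (hl : Q.Loc) (hf : Q.Flow) (h2 : Q.Lat2) (hh : Q.Fh)
    (hz : Q.ProdZ) (hc : Q.Colim) {Γ G : Type} [Group Γ] [Group G] (hΓ : VD.FJ Γ) (i : G →* G₀)
    (f : G →* Γ) (h : ∀ B : Subgroup Γ, (∃ φ : B →* Multiplicative ℤ, Finite φ.ker) →
      Q.on i (B.comap f)) : Q G i :=
  hΓ G₀ ⟨Q, hs, hl, hf⟩ ⟨hh, gl_of hs hl hf h2, hz, fun h => hc fun S => by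
    obtain ⟨G', _, q, s, h1, h2, h3⟩ := h S
    exact ⟨G', _, q, s, ⟨h1, h2⟩, h3⟩⟩ G i f h

variable {κ : Sort*} {Q : κ → Pp G₀}

theorem Pp.Sub.all (h : ∀ k, (Q k).Sub) : Pp.Sub fun G _ i => ∀ k, Q k G i :=
  fun f hf a k => h k f hf (a k)

theorem Pp.Loc.all (h : ∀ k, (Q k).Loc) : Pp.Loc fun G _ i => ∀ k, Q k G i :=
  fun a k => h k fun K hK => a K hK k

theorem Pp.Flow.all (h : ∀ k, (Q k).Flow) : Pp.Flow fun G _ i => ∀ k, Q k G i :=
  fun hP f a b k => h k hP f (fun B φ hφ => a B φ hφ k) fun B hB => b B hB k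

theorem Pp.Lat2.all (h : ∀ k, (Q k).Lat2) : Pp.Lat2 fun G _ i => ∀ k, Q k G i := by
  intro G _ i ι _ P n ρ F κ _ _ _ k₀ f hE hH k
  exact h k P n ρ k₀ f hE fun H a => hH H a k

theorem Pp.Fh.all (h : ∀ k, (Q k).Fh) : Pp.Fh fun G _ i => ∀ k, Q k G i :=
  fun h1 N G _ i a k => h k (h1 k) N G i fun r S₀ π hπ =>
    (a r S₀ π hπ).pull (MonoidHom.id G) (fun _ hg => hg) fun _ hK => hK k

theorem Pp.ProdZ.all (h : ∀ k, (Q k).ProdZ) : Pp.ProdZ fun G _ i => ∀ k, Q k G i :=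
  fun a k => h k (a k)

theorem Pp.Colim.all (h : ∀ k, (Q k).Colim) : Pp.Colim fun G _ i => ∀ k, Q k G i :=
  fun a k => h k fun S => by
    obtain ⟨G', _, q, s, h1, h2⟩ := a S
    exact ⟨G', _, q, s, h1, h2 k⟩

end

/-- Pulling back a local section to a subgroup of a product. -/
theorem Sec.pull {G G' P Δ : Type} [Group G] [Group G'] [Group P] [Group Δ] [DecidableEq G]
    (f : Δ →* G × P) (hf : Injective f) (S : Finset Δ) {q : G' →* G} {s : G → G'}
    (h : Sec (S.image fun x => (f x).1) q s) :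
    ∃ (Δ' : Type) (_ : Group Δ') (f' : Δ' →* G' × P) (q' : Δ' →* Δ) (s' : Δ → Δ'),
      Injective f' ∧ (∀ x, q (f' x).1 = (f (q' x)).1) ∧ Sec S q' s' := by
  classical
  let Δ' : Subgroup (Δ × G') := MonoidHom.eqLocus
    ((MonoidHom.fst G P).comp (f.comp (MonoidHom.fst Δ G'))) (q.comp (MonoidHom.snd Δ G'))
  have hm : ∀ x ∈ S, (x, s (f x).1) ∈ Δ' := fun x hx =>
    (h.1 _ (Finset.mem_image_of_mem _ hx)).symm
  refine ⟨Δ', inferInstance, ((MonoidHom.snd Δ G').comp Δ'.subtype).prod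
    ((MonoidHom.snd G P).comp (f.comp ((MonoidHom.fst Δ G').comp Δ'.subtype))),
    (MonoidHom.fst Δ G').comp Δ'.subtype, fun x => if hx : x ∈ S then ⟨_, hm x hx⟩ else 1,
    fun x y e => ?_, fun x => x.2.symm, fun g hg => ?_, fun g hg k hk hgk => ?_⟩
  · have e1 : x.1.2 = y.1.2 := congrArg Prod.fst e
    refine Subtype.ext (Prod.ext (hf (Prod.ext ?_ (congrArg Prod.snd e :))) e1)
    exact x.2.trans ((congrArg q e1).trans y.2.symm)
  · simp only [dif_pos hg]
    rfl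
  · simp only [dif_pos hg, dif_pos hk, dif_pos hgk]
    refine Subtype.ext (Prod.ext rfl ?_)
    have := h.2 _ (Finset.mem_image_of_mem _ hg) _ (Finset.mem_image_of_mem _ hk)
      (Finset.mem_image.2 ⟨_, hgk, by rw [map_mul]; rfl⟩)
    change s (f (g * k)).1 = _
    rw [map_mul]
    exact this

section Lift

variable {R : Type v} [Ring R] {G G' : Type} [Group G] [Group G'] [MulSemiringAction G R]
  [MulSemiringAction G' R] {S : Finset G} {q : G' →* G} {s : G → G'}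

omit [Group G] [MulSemiringAction G R] in
theorem sup_ind {U : Set G} {motive : SkewMonoidAlgebra R G → Prop} {x : SkewMonoidAlgebra R G}
    (hx : TW.Sup U x) (zero : motive 0) (add : ∀ x y, motive x → motive y → motive (x + y))
    (single : ∀ g ∈ U, ∀ r, motive (SkewMonoidAlgebra.single g r)) : motive x := by
  rw [← TW.Sk.sum_coeff_single x, Finsupp.sum]
  exact Finset.sum_induction _ _ add zero fun g hg => single g (hx g (Finsupp.mem_support_iff.1 hg)) _

theorem Sec.map_lift [TW.Cp R q] (h : Sec S q s) {x : SkewMonoidAlgebra R G}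
    (hx : TW.Sup (S : Set G) x) : TW.mapR R q (SkewMonoidAlgebra.mapDomain s x) = x := by
  refine sup_ind (motive := fun x => TW.mapR R q (SkewMonoidAlgebra.mapDomain s x) = x) hx
    (by simp) (fun x y hx hy => by rw [map_add, map_add, hx, hy]) fun g hg r => ?_
  rw [SkewMonoidAlgebra.mapDomain_single, TW.mapR_single, h.1 g hg]

theorem Sec.lift_mul [hq : TW.Cp R q] (h : Sec S q s) {U U' : Set G} (hU : U ⊆ S) (hU' : U' ⊆ S)
    (hm : ∀ g ∈ U, ∀ k ∈ U', g * k ∈ S) {x y : SkewMonoidAlgebra R G} (hx : TW.Sup U x)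
    (hy : TW.Sup U' y) : SkewMonoidAlgebra.mapDomain s (x * y) =
      SkewMonoidAlgebra.mapDomain s x * SkewMonoidAlgebra.mapDomain s y := by
  refine sup_ind (motive := fun x => SkewMonoidAlgebra.mapDomain s (x * y) =
    SkewMonoidAlgebra.mapDomain s x * SkewMonoidAlgebra.mapDomain s y) hx (by simp)
    (fun x y hx hy => by rw [add_mul, map_add, map_add, hx, hy, add_mul]) fun g hg r => ?_
  refine sup_ind (motive := fun y => SkewMonoidAlgebra.mapDomain s (_ * y) =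
    SkewMonoidAlgebra.mapDomain s _ * SkewMonoidAlgebra.mapDomain s y) hy (by simp)
    (fun x y hx hy => by rw [mul_add, map_add, map_add, hx, hy, mul_add]) fun k hk r' => ?_
  simp only [SkewMonoidAlgebra.single_mul_single, SkewMonoidAlgebra.mapDomain_single]
  rw [h.2 g (hU hg) k (hU' hk) (hm g hg k hk), hq.eq, h.1 g (hU hg)]

omit [MulSemiringAction G R] [MulSemiringAction G' R] in
theorem Sec.one (h : Sec S q s) (h1 : 1 ∈ S) : s 1 = 1 := by
  have := h.2 1 h1 1 h1 (by rwa [mul_one])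
  rw [mul_one] at this
  exact left_eq_mul.1 this

omit [MulSemiringAction G R] [MulSemiringAction G' R] in
theorem Sec.lift_one (h : Sec S q s) (h1 : 1 ∈ S) :
    SkewMonoidAlgebra.mapDomain s (1 : SkewMonoidAlgebra R G) = 1 := by
  rw [SkewMonoidAlgebra.one_def, SkewMonoidAlgebra.mapDomain_single, h.one h1]
  rfl

theorem g1_colim (h : ∀ S : Finset G, ∃ (G' : Type) (_ : Group G') (_ : MulSemiringAction G' R)
    (q : G' →* G) (_ : TW.Cp R q) (s : G → G'), Sec S q s ∧ TW.G1 R G') : TW.G1 R G := by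
  classical
  intro J _ _ A B hAB hBA
  obtain ⟨a, ha, -⟩ := TW.exists_finset_msup A
  obtain ⟨b, hb, -⟩ := TW.exists_finset_msup B
  obtain ⟨G', _, _, q, _, s, hs, hG⟩ := h (insert 1 (a ∪ b ∪ (Finset.image₂ (· * ·) a b ∪
    Finset.image₂ (· * ·) b a)))
  have e : ∀ {A B : Matrix J J (SkewMonoidAlgebra R G)} {a b c : Finset G}, TW.MSup (a : Set G) A →
      TW.MSup (b : Set G) B → A * B = 1 → Sec c q s → 1 ∈ c → a ⊆ c → b ⊆ c →
      Finset.image₂ (· * ·) a b ⊆ c →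
      A.map (SkewMonoidAlgebra.mapDomain s) * B.map (SkewMonoidAlgebra.mapDomain s) = 1 := by
    intro A B a b c ha hb hAB hs h1 h2 h3 h4
    rw [← Matrix.map_one _ (map_zero (SkewMonoidAlgebra.mapDomain s)) (hs.lift_one h1), ← hAB]
    ext1 i k
    simp only [Matrix.mul_apply, Matrix.map_apply, map_sum]
    exact Finset.sum_congr rfl fun j _ => (hs.lift_mul h2 h3
      (fun g hg k hk => h4 (Finset.mem_image₂_of_mem hg hk)) (ha i j) (hb j k)).symm
  have h1 : a ⊆ insert 1 (a ∪ b ∪ (Finset.image₂ (· * ·) a b ∪ Finset.image₂ (· * ·) b a)) :=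
    fun x hx => by simp [hx]
  have h2 : b ⊆ insert 1 (a ∪ b ∪ (Finset.image₂ (· * ·) a b ∪ Finset.image₂ (· * ·) b a)) :=
    fun x hx => by simp [hx]
  have := TW.T_map q (hG J _ _
    (e ha hb hAB hs (Finset.mem_insert_self _ _) h1 h2 fun x hx => by simp only
      [Finset.mem_insert, Finset.mem_union, hx, true_or, or_true])
    (e hb ha hBA hs (Finset.mem_insert_self _ _) h2 h1 fun x hx => by simp only
      [Finset.mem_insert, Finset.mem_union, hx, or_true]))
  rwa [show (A.map (SkewMonoidAlgebra.mapDomain s)).map (TW.mapR R q) = A from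
    Matrix.ext fun i j => hs.map_lift ((ha i j).mono h1)] at this

end Lift

variable (R : Type v) [Ring R] (G₀ : Type) [Group G₀] [MulSemiringAction G₀ R]

/-- The property given by invertible matrices. -/
def Q0 : Pp G₀ := fun G _ i => letI := MulSemiringAction.compHom R i; TW.QQ R G

variable {R G₀}

theorem q0_iff {G : Type} [Group G] [MulSemiringAction G R] {i : G →* G₀}
    (h : ∀ (g : G) (x : R), g • x = i g • x) : Q0 R G₀ G i ↔ TW.QQ R G :=
  ⟨fun a => @TW.QQ.sub' R _ G G _ (MulSemiringAction.compHom R i) _ _ a (MonoidHom.id G) h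
    injective_id, fun a => @TW.QQ.sub' R _ G G _ _ _ (MulSemiringAction.compHom R i) a
    (MonoidHom.id G) (fun g x => (h g x).symm) injective_id⟩

theorem q0_sub : (Q0 R G₀).Sub := by
  intro G H _ _ i f hf h
  let _ := MulSemiringAction.compHom R i
  let _ := MulSemiringAction.compHom R (i.comp f)
  exact TW.QQ.sub' h f (fun _ _ => rfl) hf

theorem q0_loc : (Q0 R G₀).Loc := by
  intro G _ i h
  let _ := MulSemiringAction.compHom R i
  exact TW.qq_loc h

theorem q0_prodZ : (Q0 R G₀).ProdZ := by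
  intro G _ i h
  let _ := MulSemiringAction.compHom R i
  exact TW.QQ.prod_poly h polyZ_mz

theorem q0_colim : (Q0 R G₀).Colim := by
  classical
  intro G _ i h
  let _ := MulSemiringAction.compHom R i
  intro P _ hP Δ _ _ f hc hf
  refine g1_colim fun S => ?_
  obtain ⟨G', _, q, s, h1, h2⟩ := h (S.image fun x => (f x).1)
  obtain ⟨Δ', _, f', q', s', a1, a2, a3⟩ := h1.pull f hf S
  let _ := MulSemiringAction.compHom R (i.comp q)
  let _ := MulSemiringAction.compHom R q'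
  refine ⟨Δ', _, _, q', ⟨fun _ _ => rfl⟩, s', a3, @h2 P _ hP Δ' _ _ f' ⟨fun a x => ?_⟩ a1⟩
  exact (hc.eq (q' a) x).trans (congrArg (fun g => i g • x) (a2 a).symm)

variable [TW.NR R]

theorem q0_flow : (Q0 R G₀).Flow := (TW.thyTW R G₀).flow

theorem q0_lat2 : (Q0 R G₀).Lat2 := by
  intro G _ i ι _ P n ρ F κ _ _ _ k f hE hH
  let _ := MulSemiringAction.compHom R i
  exact TW.qq_lat2 P n ρ k f hE hH

theorem q0_fh : (Q0 R G₀).Fh := fun h1 N G _ i h => by
  obtain ⟨r, hr⟩ := (TW.thyTW R G₀).fh h1 N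
  exact hr G i (h r)

end Pool.Agent.MP_f7db47_al.KN

end

section

/-!
Vanishing over twisted group rings: change of groups, colimits, swindles and free models.
-/

namespace Pool.Agent.MP_f7db47_al.KN

open Matrix GN Function

universe v w

variable {ι : Type} {κ : Type w} {R : Type v} [Ring R] {G G' : Type} [Group G] [Group G']
  [MulSemiringAction G R] [MulSemiringAction G' R] {Λ : Type} {D : Subring R}
  {r r' : Λ → G → Λ → Prop} {C : Coef ι κ R}

theorem g0_single {a b : Λ} {g : G} {c : R} (hc : c ∈ D) (hr : r a g b) :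
    SkewMonoidAlgebra.single g c ∈ ctl D r a b := fun k => by
  classical
  rw [SkewMonoidAlgebra.coeff_single, Finsupp.single_apply]
  split_ifs with e
  exacts [⟨hc, fun _ => e ▸ hr⟩, ⟨zero_mem _, fun e => absurd rfl e⟩]

theorem g0_ind {a b : Λ} {motive : SkewMonoidAlgebra R G → Prop} {x : SkewMonoidAlgebra R G}
    (hx : x ∈ ctl D r a b) (zero : motive 0) (add : ∀ x y, motive x → motive y → motive (x + y))
    (single : ∀ g, r a g b → ∀ c ∈ D, motive (SkewMonoidAlgebra.single g c)) : motive x := by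
  rw [← TW.Sk.sum_coeff_single x, Finsupp.sum]
  exact Finset.sum_induction _ _ add zero fun g hg =>
    single g ((hx g).2 (Finsupp.mem_support_iff.1 hg)) _ (hx g).1

theorem g0_le (h : ∀ a g b, r a g b → r' a g b) : ctl D r ≤ ctl D r' :=
  fun _ _ _ hx g => ⟨(hx g).1, fun e => h _ _ _ ((hx g).2 e)⟩

theorem g0_memS {a : ι} {w : SkewMonoidAlgebra R G} :
    w ∈ C.S G a ↔ ∃ n : ℕ, w = SkewMonoidAlgebra.single 1 (C.u a ^ n) :=
  ⟨fun ⟨n, e⟩ => ⟨n, e.symm.trans (dg_pow _ n)⟩, fun ⟨n, e⟩ => ⟨n, (dg_pow _ n).trans e.symm⟩⟩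

theorem g0_fu [C.Inv G] (I : κ) : Good (ful G (C.D I)) (C.S G) := (C.sca I).good

theorem g0_lin (s : G → G') (c : R) (x : SkewMonoidAlgebra R G) :
    SkewMonoidAlgebra.mapDomain s (SkewMonoidAlgebra.single 1 c * x) =
      SkewMonoidAlgebra.single 1 c * SkewMonoidAlgebra.mapDomain s x := by
  induction x using TW.Sk.induction_linear with
  | zero => simp
  | add x y hx hy => rw [mul_add, map_add, map_add, hx, hy, mul_add]
  | single g d => simp only [SkewMonoidAlgebra.single_mul_single,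
      SkewMonoidAlgebra.mapDomain_single, one_mul, one_smul]

theorem g0_sf {q : Λ → G' → Λ → Prop} (s : G → G') (h : ∀ a g b, r a g b → q a (s g) b)
    (hm : ∀ ⦃a b c x y⦄, x ∈ ctl D r a b → y ∈ ctl D r b c → SkewMonoidAlgebra.mapDomain s (x * y) =
      SkewMonoidAlgebra.mapDomain s x * SkewMonoidAlgebra.mapDomain s y) :
    Sf (ctl D r) (ctl D q) (C.S G) (C.S G') (SkewMonoidAlgebra.mapDomain s) id where
  mem a b _ hx := g0_ind (motive := fun x => SkewMonoidAlgebra.mapDomain s x ∈ ctl D q a b) hx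
    (by rw [map_zero]; exact zero_mem _) (fun _ _ p q => by rw [map_add]; exact add_mem p q)
    fun g hg c hc => by
      rw [SkewMonoidAlgebra.mapDomain_single]
      exact g0_single hc (h _ _ _ hg)
  mul := hm
  lin a w hw := by
    obtain ⟨n, rfl⟩ := g0_memS.1 hw
    exact ⟨_, g0_memS.2 ⟨n, rfl⟩, fun _ _ x _ => g0_lin s _ x⟩

theorem g0_sf_hom {q : Λ → G' → Λ → Prop} (f : G →* G') [TW.Cp R f]
    (h : ∀ a g b, r a g b → q a (f g) b) :
    Sf (ctl D r) (ctl D q) (C.S G) (C.S G') (SkewMonoidAlgebra.mapDomain f) id :=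
  g0_sf f h fun _ _ _ x y _ _ => map_mul (TW.mapR R f) x y

theorem g0_hm_fin {d : ℤ} {J : Type} [Fintype J] {s : J → Λ × ℤ}
    {f : Matrix J J (SkewMonoidAlgebra R G)} (hf : Hm (ctl D r) d s s f) :
    ∃ T : Finset G, Hm (ctl D fun _ g _ => g ∈ T) d s s f := by
  obtain ⟨T, hT, -⟩ := TW.exists_finset_msup f
  exact ⟨T, fun i j => ⟨fun g => ⟨((hf i j).1 g).1, hT i j g⟩, (hf i j).2⟩⟩

/-- Objects have finite support. -/
theorem g0_fin {S : ι → Submonoid (SkewMonoidAlgebra R G)} {K : Finset ι}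
    {X : Cx (SkewMonoidAlgebra R G) Λ} (hX : Obj (ctl D r) S K X) :
    ∃ T : Finset G, Obj (ctl D fun _ g _ => g ∈ T) S K X := by
  classical
  obtain ⟨T₁, h1⟩ := g0_hm_fin hX.ok.hp
  obtain ⟨T₂, h2⟩ := g0_hm_fin hX.ok.hD
  choose w hw k hk e using fun a : K => hX.tor a.1 a.2
  choose T h3 using fun a : K => g0_hm_fin (hk a)
  refine ⟨T₁ ∪ T₂ ∪ Finset.univ.biUnion T, ⟨h1.mono (g0_le fun _ _ _ c => by simp [c]),
    h2.mono (g0_le fun _ _ _ c => by simp [c]), hX.ok.pp, hX.ok.pD, hX.ok.Dp, hX.ok.DD⟩,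
    fun a ha => ⟨_, hw ⟨a, ha⟩, _, (h3 ⟨a, ha⟩).mono (g0_le fun _ _ _ c => ?_), e _⟩⟩
  exact Finset.mem_union_right _ (Finset.mem_biUnion.2 ⟨_, Finset.mem_univ _, c⟩)

variable (C G) in
/-- Vanishing over the twisted group rings of `G`. -/
def NZ : Prop := ∀ (I : κ) (K : Finset ι), NullAll (ful G (C.D I)) (C.S G) K

theorem nz_colim (h : ∀ S : Finset G, ∃ (G' : Type) (_ : Group G') (_ : MulSemiringAction G' R)
    (q : G' →* G) (_ : TW.Cp R q) (s : G → G'), Sec S q s ∧ NZ G' C) : NZ G C := by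
  classical
  intro I K X hX
  obtain ⟨T, hT⟩ := g0_fin hX
  obtain ⟨G', _, _, q, _, s, hs, hG⟩ := h (T ∪ Finset.image₂ (· * ·) T T)
  have h1 : (T : Set G) ⊆ (T ∪ Finset.image₂ (· * ·) T T : Finset G) :=
    Finset.coe_subset.2 Finset.subset_union_left
  have h2 := hT.sf (g0_sf (C := C) (q := fun _ _ _ => True) s (fun _ _ _ _ => trivial)
    fun _ _ _ _ _ hx hy => hs.lift_mul h1 h1
      (fun g hg k hk => Finset.mem_union_right _ (Finset.mem_image₂_of_mem hg hk))
      (fun g => (hx g).2) fun g => (hy g).2)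
  have h3 := (hG I K _ h2).sf (g0_sf_hom (C := C) (q := fun _ _ _ => True) q
    fun _ _ _ _ => trivial) h2.ok
  have e : ∀ {d : ℤ} {f : Matrix X.J X.J (SkewMonoidAlgebra R G)},
      Hm (ctl (C.D I) fun _ g _ => g ∈ T) d X.t X.t f →
      (f.map (SkewMonoidAlgebra.mapDomain s)).map (SkewMonoidAlgebra.mapDomain q) = f :=
    fun hf => Matrix.ext fun i j => hs.map_lift fun g c => h1 (((hf i j).1 g).2 c)
  refine (Sub.cert_iff (Sub.of_equiv (X' := X) ?_ ?_ ?_ ?_).1).2 h3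
  exacts [Equiv.refl _, fun _ => rfl, (e hT.ok.hp).symm, (e hT.ok.hD).symm]

theorem NZ.nzs [C.Inv G'] (f : G' →* G) [TW.Cp R f] (hf : Injective f) (h : NZ G' C) :
    NZs C f.range := fun I K => by
  refine NullAll.pull (g0_sf_hom f fun _ g _ _ => ⟨g, rfl⟩) (TW.Sk.mapDomain_injective hf)
    (fun a b y hy => ⟨TW.Sk.comapDomain f hf y, fun g => ⟨(hy (f g)).1, fun _ => trivial⟩,
      TW.Sk.mapDomain_comapDomain (fun g hg => (hy g).2 (Finsupp.mem_support_iff.1 hg)) hf⟩)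
    (fun a w hw => ?_) (h I K)
  obtain ⟨n, rfl⟩ := g0_memS.1 hw
  exact ⟨_, g0_memS.2 ⟨n, rfl⟩, fun _ _ x _ => g0_lin f _ x⟩

section Incl

variable [IsInvariantSubring G D]

variable (G D) in
/-- The inclusion of twisted group rings. -/
noncomputable def incl : SkewMonoidAlgebra D G →+* SkewMonoidAlgebra R G :=
  SkewMonoidAlgebra.liftNCRingHom (SkewMonoidAlgebra.singleOneRingHom.comp D.subtype)
    (SkewMonoidAlgebra.of R G) (by
      intro x y
      change SkewMonoidAlgebra.single 1 (y • (x : R)) * SkewMonoidAlgebra.single y 1 =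
        SkewMonoidAlgebra.single y 1 * SkewMonoidAlgebra.single 1 (x : R)
      simp only [SkewMonoidAlgebra.single_mul_single, one_mul, mul_one, one_smul])

theorem incl_single (g : G) (d : D) :
    incl G D (SkewMonoidAlgebra.single g d) = SkewMonoidAlgebra.single g (d : R) := by
  refine (SkewMonoidAlgebra.liftNC_single _ _ _ _).trans ?_
  change SkewMonoidAlgebra.single 1 (d : R) * SkewMonoidAlgebra.single g 1 = _
  simp only [SkewMonoidAlgebra.single_mul_single, one_mul, mul_one, one_smul]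

theorem coeff_incl (x : SkewMonoidAlgebra D G) (g : G) : (incl G D x).coeff g = x.coeff g := by
  classical
  induction x using TW.Sk.induction_linear with
  | zero => simp
  | add x y hx hy => simp [hx, hy]
  | single k d =>
    rw [incl_single, SkewMonoidAlgebra.coeff_single, SkewMonoidAlgebra.coeff_single,
      Finsupp.single_apply, Finsupp.single_apply]
    split_ifs <;> rfl

theorem incl_inj : Injective (incl G D) := fun x y h => SkewMonoidAlgebra.ext fun g =>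
  Subtype.ext (by rw [← coeff_incl, ← coeff_incl, h])

theorem incl_mem (x : SkewMonoidAlgebra D G) : incl G D x ∈ ful G D () () :=
  fun g => ⟨coeff_incl x g ▸ (x.coeff g).2, fun _ => trivial⟩

theorem incl_surj {a b : Λ} {y : SkewMonoidAlgebra R G} (hy : y ∈ ctl D r a b) :
    ∃ x, incl G D x = y :=
  g0_ind (motive := fun y => ∃ x, incl G D x = y) hy ⟨0, map_zero _⟩
    (fun _ _ ⟨x, p⟩ ⟨x', q⟩ => ⟨x + x', by rw [map_add, p, q]⟩)
    fun g _ c hc => ⟨_, incl_single g ⟨c, hc⟩⟩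

end Incl

/-- Stable freeness along an injective homomorphism onto the family. -/
theorem sfree_of {B : Type v} [Ring B] [MulSemiringAction G B] {A : Type*} [Ring A]
    {H : Fam A Unit} (φ : SkewMonoidAlgebra B G →+* A) (hi : Injective φ)
    (hm : ∀ x, φ x ∈ H () ()) (hs : ∀ y ∈ H () (), ∃ x, φ x = y) (h : TW.G0 B G) : SFree H := by
  intro J _ _ p hp pp
  choose p' e using fun i j => hs _ (hp i j)
  obtain rfl : (Matrix.of p').map φ = p := Matrix.ext e
  have hq : Matrix.of p' * Matrix.of p' = Matrix.of p' :=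
    Matrix.map_injective hi (by simpa [Matrix.map_mul] using pp)
  obtain ⟨E, _, _, n, f, g, e1, e2⟩ := (h J _ hq).free hq
  refine ⟨E, inferInstance, inferInstance, n, f.map φ, g.map φ, fun _ _ => hm _, fun _ _ => hm _, ?_, ?_⟩
  · rw [← Matrix.map_mul, e1, fromBlocks_map, Matrix.map_zero _ (map_zero φ),
      Matrix.map_zero _ (map_zero φ), Matrix.map_one _ (map_zero φ) (map_one φ)]
  · rw [← Matrix.map_mul, e2, Matrix.map_one _ (map_zero φ) (map_one φ)]

theorem stdz_fu [h : C.Inv G] (I : κ) (h0 : TW.G0 (C.D I) G) :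
    Stdz (ful G (C.D I)) fun Y => Y.p = 1 :=
  stdz_of (g0_fu I).mul (g0_single (one_mem _) trivial)
    (sfree_of (incl G (C.D I)) incl_inj incl_mem (fun _ hy => incl_surj hy) h0)

/-- Vanishing for free objects with finite support suffices. -/
theorem nz_of_vv [C.Inv G] (h0 : ∀ I, TW.G0 (C.D I) G)
    (h : ∀ (I : κ) (K : Finset ι) (T : Finset G) (L : ℕ),
      VV (C.D I) (C.S G) K Unit (fun _ g _ => g ∈ T) L) :
    NZ G C := fun I K X hX => by
  obtain ⟨Y, hY, hp, e⟩ := stdz_fu I (h0 I) X hX.ok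
  obtain ⟨T, hT⟩ := g0_fin (hX.he (g0_fu I) hY e)
  obtain ⟨L, hL⟩ := exists_bd Y
  refine Cert.he (g0_fu I).mul ?_ e
  exact h I K T L Y hT hL ⟨fun i j c => by rw [hp, Matrix.one_apply_ne c],
    fun i => Or.inl (by rw [hp, Matrix.one_apply_eq])⟩

/-- A swindle that is compatible with the coefficients. -/
structure Coef.Fla (C : Coef ι κ R) (F : TW.Fl R) : Prop where
  σ : ∀ I, ∀ x ∈ C.D I, F.σ x ∈ C.D I
  a₀ : ∀ I, F.a₀ ∈ C.D I
  b₀ : ∀ I, F.b₀ ∈ C.D I
  a₁ : ∀ I, F.a₁ ∈ C.D I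
  b₁ : ∀ I, F.b₁ ∈ C.D I
  lin : ∀ a x, F.σ (C.u a * x) = C.u a * F.σ x

variable {F : TW.Fl R}

/-- The swindle on a subring. -/
def Coef.Fla.res (h : C.Fla F) (I : κ) : TW.Fl (C.D I) where
  σ := (F.σ.comp (C.D I).subtype.toAddMonoidHom).codRestrict (C.D I) fun x => h.σ I x x.2
  a₀ := ⟨_, h.a₀ I⟩
  b₀ := ⟨_, h.b₀ I⟩
  a₁ := ⟨_, h.a₁ I⟩
  b₁ := ⟨_, h.b₁ I⟩
  mul x y := Subtype.ext (F.mul x y)
  h0 := Subtype.ext F.h0
  h1 := Subtype.ext F.h1
  h01 := Subtype.ext F.h01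
  eq x := Subtype.ext (F.eq x)

theorem Coef.Fla.qq [C.Inv G] (h : C.Fla F) (hi : ∀ g : G, F.Inv fun x => g • x) (I : κ) :
    TW.QQ (C.D I) G :=
  (h.res I).qq fun g => ⟨fun x => Subtype.ext ((hi g).σ x), Subtype.ext (hi g).a₀,
    Subtype.ext (hi g).b₀, Subtype.ext (hi g).a₁, Subtype.ext (hi g).b₁⟩

theorem Coef.Fla.nz [C.Inv G] (h : C.Fla F) (hi : ∀ g : G, F.Inv fun x => g • x) : NZ G C := by
  intro I K
  have e : ∀ (g : G) (c : R), (F.skew hi).σ (SkewMonoidAlgebra.single g c) =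
      SkewMonoidAlgebra.single g (F.σ c) := fun g c => by
    refine (SkewMonoidAlgebra.liftNC_single _ _ _ _).trans ?_
    change SkewMonoidAlgebra.single 1 (F.σ c) * SkewMonoidAlgebra.single g 1 = _
    simp only [SkewMonoidAlgebra.single_mul_single, one_mul, mul_one, one_smul]
  have e' : ∀ (a : ι) (n : ℕ) (x : R), F.σ (C.u a ^ n * x) = C.u a ^ n * F.σ x := fun a n x => by
    induction n with
    | zero => simp
    | succ n ih => rw [pow_succ', mul_assoc, h.lin, ih, mul_assoc]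
  have m : ∀ c ∈ C.D I, ∀ ⦃i j x⦄, x ∈ ful G (C.D I) i j →
      SkewMonoidAlgebra.single 1 c * x ∈ ful G (C.D I) i j ∧
        x * SkewMonoidAlgebra.single 1 c ∈ ful G (C.D I) i j := fun c hc i j x hx =>
    ⟨(g0_fu I).mul (g0_single (a := i) (b := i) hc trivial) hx,
      (g0_fu I).mul hx (g0_single (a := j) (b := j) hc trivial)⟩
  refine swindle (g0_fu I) (σ := (F.skew hi).σ) ⟨fun a b x hx => ?_,
    fun _ _ _ x y _ _ => (F.skew hi).mul x y, fun a w hw => ⟨w, hw, fun _ _ x hx => ?_⟩⟩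
    (F.skew hi).mul ?_ (F.skew hi).h0 (F.skew hi).h1 (F.skew hi).h01 (F.skew hi).eq
  · exact g0_ind (motive := fun x => (F.skew hi).σ x ∈ ful G (C.D I) a b) hx
      (by rw [map_zero]; exact zero_mem _) (fun _ _ p q => by rw [map_add]; exact add_mem p q)
      fun g _ c hc => by rw [e]; exact g0_single (h.σ I c hc) trivial
  · obtain ⟨n, rfl⟩ := g0_memS.1 hw
    clear hx
    induction x using TW.Sk.induction_linear with
    | zero => simp
    | add x y hx hy => rw [mul_add, map_add, map_add, hx, hy, mul_add]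
    | single g d => simp only [SkewMonoidAlgebra.single_mul_single, e, e', one_mul, one_smul]
  · rintro _ (rfl | rfl | rfl | rfl)
    exacts [m _ (h.a₀ I), m _ (h.b₀ I), m _ (h.a₁ I), m _ (h.b₁ I)]

end Pool.Agent.MP_f7db47_al.KN

end

section

/-!
Scalars, localised filtrations and the coefficients given by controlled operators.
-/

set_option linter.unusedSectionVars false

namespace Pool.Agent.MP_f7db47_al.OB

open Function

universe v

variable {R : Type v} [Ring R] {Φ : ℕ → AddSubgroup R} {G : Type} [Group G] {V : Type}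
  [MulAction G V] {c : R} {e : ℕ} {a b : FF R G V}

variable (G V) in
/-- Scalar operators. -/
noncomputable def sc : R →+* FF R G V :=
  Module.toModuleEnd (MonoidAlgebra R G)ᵐᵒᵖ (Ix V →₀ MonoidAlgebra R G)

lemma op_sc (c : R) (z : Ix V →₀ MonoidAlgebra R G) : (sc G V c).op z = c • z := rfl

lemma ent_sc (c : R) (a : FF R G V) (i j : Ix V) :
    ent (sc G V c * a).op i j = c • ent a.op i j := rfl

lemma op_smul' (hc : ∀ x, c * x = x * c) {Y Z : Type} (a : Op (MonoidAlgebra R G) Y Z)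
    (z : Z →₀ MonoidAlgebra R G) : a (c • z) = c • a z := by
  have e : ∀ {Y : Type} (z : Y →₀ MonoidAlgebra R G),
      c • z = MulOpposite.op (MonoidAlgebra.single (1 : G) c) • z := fun z => by
    ext i g
    rw [Finsupp.smul_apply, Finsupp.smul_apply, op_smul_eq_mul, MonoidAlgebra.coeff_mul_single_one,
      MonoidAlgebra.coeff_smul, Finsupp.smul_apply, smul_eq_mul, hc]
  rw [e, e, map_smul]

lemma sc_cen (hc : ∀ x, c * x = x * c) (a : FF R G V) : sc G V c * a = a * sc G V c :=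
  FF.ext fun z => (op_smul' hc a.op z).symm

lemma Sp.sc {E : Ix V → G → Ix V → Prop} (h : Sp E a.op) (c : R) : Sp E (sc G V c * a).op :=
  fun i j g k => h i j g (right_ne_zero_of_mul k)

lemma sp_sc_iff {E : Ix V → G → Ix V → Prop} (hc : IsUnit c) :
    Sp E (sc G V c * a).op ↔ Sp E a.op := by
  obtain ⟨w, rfl⟩ := hc
  refine ⟨fun h => ?_, fun h => h.sc _⟩
  have := h.sc (↑w⁻¹ : R)
  rwa [← mul_assoc, ← map_mul, w.inv_mul, map_one, one_mul] at this

lemma sg_sc (hc : ∀ x, c * x = x * c) (v : V) (a : FF R G V) :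
    sg v (sc G V c * a) = sc G V c * sg v a := FF.ext fun z => by
  have e : ∀ z, amp (sc G V c * a).op z = c • amp a.op z :=
    amp_ext (a := amp (sc G V c * a).op) (b := DistribSMul.toLinearMap _ _ c ∘ₗ amp a.op)
      fun k z => by
        rw [LinearMap.comp_apply, amp_push, amp_push]
        exact op_smul' hc _ _
  change push _ (jx v) (amp (sc G V c * a).op _) = c • push _ (jx v) (amp a.op _)
  rw [e, op_smul' hc]

/-- The localised filtration. -/
def locF (Φ : ℕ → AddSubgroup R) (c : R) (e : ℕ) : ℕ → AddSubgroup R :=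
  fun d => (Φ ((e + 1) * d)).comap (AddMonoidHom.mulLeft (c ^ d))

lemma mem_locF {d : ℕ} {x : R} : x ∈ locF Φ c e d ↔ c ^ d * x ∈ Φ ((e + 1) * d) := Iff.rfl

variable [hΦ : Flt Φ]

lemma pow_mul_mem (he : c ∈ Φ e) (n : ℕ) {d : ℕ} {x : R} (hx : x ∈ Φ d) :
    c ^ n * x ∈ Φ (e * n + d) := by
  induction n with
  | zero => simpa using hx
  | succ n ih =>
    rw [pow_succ', mul_assoc]
    exact hΦ.mono (le_of_eq (by ring)) (hΦ.mul he ih)

lemma flt_loc (hc : ∀ x, c * x = x * c) (he : c ∈ Φ e) : Flt (locF Φ c e) where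
  one := by
    rw [mem_locF, pow_zero, one_mul]
    exact hΦ.one
  mul {d d' x y} hx hy := by
    have := hΦ.mul hx hy
    rw [mem_locF, mul_add, pow_add, mul_assoc, ← mul_assoc (c ^ d'),
      (Commute.pow_left (hc x) d').eq, mul_assoc, ← mul_assoc]
    exact this
  mono := monotone_nat_of_le_succ fun d x hx => by
    rw [mem_locF, pow_succ', mul_assoc]
    exact hΦ.mono (by nlinarith) (hΦ.mul he hx)

lemma le_loc (he : c ∈ Φ e) {d : ℕ} {x : R} (hx : x ∈ Φ d) : x ∈ locF Φ c e d :=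
  hΦ.mono (le_of_eq (by ring)) (pow_mul_mem he d hx)

lemma Bd.sc (he : c ∈ Φ e) (h : Bd Φ a.op) : Bd Φ (sc G V c * a).op := by
  obtain ⟨d, h⟩ := h
  exact ⟨e + d, fun i j g => hΦ.mul he (h i j g)⟩

lemma bd_loc (he : c ∈ Φ e) :
    Bd (locF Φ c e) a.op ↔ ∃ n : ℕ, Bd Φ (sc G V (c ^ n) * a).op := by
  refine ⟨fun ⟨d, h⟩ => ⟨d, _, fun i j g => h i j g⟩, fun ⟨n, d, h⟩ => ⟨d + n, fun i j g => ?_⟩⟩
  have := pow_mul_mem he d (h i j g)
  rw [mem_locF, pow_add, mul_assoc]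
  exact hΦ.mono (by nlinarith) this

lemma MM.sc (he : c ∈ Φ e) (h : MM Φ a) : MM Φ (sc G V c * a) :=
  ⟨⟨h.1.1.imp fun _ k => ⟨k.1, k.2.sc c⟩, h.1.2.sc he⟩, Sp.sc h.2 c⟩

lemma mm_sc (he : c ∈ Φ e) : MM Φ (sc G V c) :=
  mul_one (sc G V c) ▸ MM.sc he ⟨cg_one, dg_one⟩

lemma mm_loc (hu : IsUnit c) (he : c ∈ Φ e) :
    MM (locF Φ c e) a ↔ ∃ n : ℕ, MM Φ (sc G V (c ^ n) * a) := by
  constructor
  · rintro ⟨⟨⟨E, h1, h2⟩, h3⟩, h4⟩
    obtain ⟨n, h⟩ := (bd_loc he).1 h3
    exact ⟨n, ⟨⟨E, h1, h2.sc _⟩, h⟩, Sp.sc h4 _⟩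
  · rintro ⟨n, ⟨⟨E, h1, h2⟩, h3⟩, h4⟩
    exact ⟨⟨⟨E, h1, (sp_sc_iff (hu.pow n)).1 h2⟩, (bd_loc he).2 ⟨n, h3⟩⟩,
      (sp_sc_iff (hu.pow n)).1 h4⟩

lemma dd_loc (hu : IsUnit c) (he : c ∈ Φ e) [Flt (locF Φ c e)] (x : FF R G V × FF R G V) :
    x ∈ DD (locF Φ c e) G V ↔ ∃ n : ℕ, (sc G V c, sc G V c) ^ n * x ∈ DD Φ G V := by
  have e1 : ∀ n : ℕ, (sc G V c, sc G V c) ^ n * x =
      (sc G V (c ^ n) * x.1, sc G V (c ^ n) * x.2) := fun n => by
    rw [map_pow]
    rfl
  have e2 : ∀ n : ℕ, c ^ n ∈ Φ (e * n + 0) := fun n => mul_one (c ^ n) ▸ pow_mul_mem he n hΦ.one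
  simp only [e1]
  constructor
  · rintro ⟨h1, h2, S, h3, h4⟩
    obtain ⟨n, h1⟩ := (mm_loc hu he).1 h1
    obtain ⟨m, h2⟩ := (mm_loc hu he).1 h2
    refine ⟨m + n, ?_, ?_, S, h3, ?_⟩
    · have := h1.sc (e2 m)
      rwa [← mul_assoc, ← map_mul, ← pow_add] at this
    · have := h2.sc (e2 n)
      rwa [← mul_assoc, ← map_mul, ← pow_add, add_comm] at this
    · have := h4.sc (c ^ (m + n))
      rwa [mul_sub] at this
  · rintro ⟨n, h1, h2, S, h3, h4⟩
    refine ⟨(mm_loc hu he).2 ⟨n, h1⟩, (mm_loc hu he).2 ⟨n, h2⟩, S, h3,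
      (sp_sc_iff (hu.pow n)).1 ?_⟩
    rwa [mul_sub]

omit hΦ

noncomputable instance : MulSemiringAction G (FF R G V × FF R G V) where
  smul g x := (cj g x.1, cj g x.2)
  one_smul _ := Prod.ext (cj_one _) (cj_one _)
  mul_smul _ _ _ := Prod.ext (cj_cj _ _ _) (cj_cj _ _ _)
  smul_zero _ := Prod.ext (cj_eq (by simp)) (cj_eq (by simp))
  smul_add _ _ _ := Prod.ext (cj_add _ _ _) (cj_add _ _ _)
  smul_one _ := Prod.ext (cj_eq (by simp)) (cj_eq (by simp))
  smul_mul _ _ _ := Prod.ext (cj_mul _ _ _) (cj_mul _ _ _)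

variable {ι : Type}

/-- Filtrations that contain the given units. -/
structure Adm (u : ι → Rˣ) : Type v where
  Φ : ℕ → AddSubgroup R
  flt : Flt Φ
  mem : ∀ i, ∃ d, (u i : R) ∈ Φ d

attribute [instance] Adm.flt

variable (G V) in
/-- The doubles of the rings of controlled operators. -/
noncomputable def coef {u : ι → Rˣ} (hu : ∀ i x, (u i : R) * x = x * u i) :
    KN.Coef ι (Adm u) (FF R G V × FF R G V) where
  D I := DD I.Φ G V
  u i := (sc G V (u i), sc G V (u i))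
  unit i := ((u i).isUnit.map ((sc G V).prod (sc G V)) :)
  cen i _ := Prod.ext (sc_cen (hu i) _) (sc_cen (hu i) _)
  mem i I := (I.mem i).elim fun _ h => (dg _ (mm_sc h)).2
  loc i I := by
    obtain ⟨e, he⟩ := I.mem i
    have := flt_loc (hu i) he
    exact ⟨⟨locF I.Φ (u i) e, this, fun j => (I.mem j).imp fun _ h => le_loc he h⟩,
      dd_loc (u i).isUnit he⟩

variable {u : ι → Rˣ} (hu : ∀ i x, (u i : R) * x = x * u i)

instance : (coef G V hu).Inv G where
  D I g x hx := (g • (⟨x, hx⟩ : DD I.Φ G V)).2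
  u i g := Prod.ext (cj_eq (sc_cen (hu i) (ta R V g)).symm) (cj_eq (sc_cen (hu i) (ta R V g)).symm)

lemma coef_nr (I : Adm u) : TW.NR ((coef G V hu).D I) := inferInstanceAs (TW.NR (DD I.Φ G V))

variable (R G) in
/-- The swindle on pairs of operators. -/
noncomputable def fl2 (v : V) : TW.Fl (FF R G V × FF R G V) where
  σ := AddMonoidHom.mk' (fun x => (sg v x.1, sg v x.2))
    fun _ _ => Prod.ext (sg_add v _ _) (sg_add v _ _)
  a₀ := (a0 R G v, a0 R G v)
  b₀ := (b0 R G v, b0 R G v)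
  a₁ := (a1 R G v, a1 R G v)
  b₁ := (b1 R G v, b1 R G v)
  mul _ _ := Prod.ext (sg_mul v _ _) (sg_mul v _ _)
  h0 := Prod.ext (fl_h0 v) (fl_h0 v)
  h1 := Prod.ext (fl_h1 v) (fl_h1 v)
  h01 := Prod.ext (fl_h01 v) (fl_h01 v)
  eq x := Prod.ext (fl_eq v x.1) (fl_eq v x.2)

lemma fl2_fla (v : V) : (coef G V hu).Fla (fl2 R G v) where
  σ I x hx := (sgD v (⟨x, hx⟩ : DD I.Φ G V)).2
  a₀ I := (fl I.Φ G v).a₀.2
  b₀ I := (fl I.Φ G v).b₀.2
  a₁ I := (fl I.Φ G v).a₁.2
  b₁ I := (fl I.Φ G v).b₁.2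
  lin i _ := Prod.ext (sg_sc (hu i) v _) (sg_sc (hu i) v _)

lemma fl2_inv {v : V} {h : G} (hv : h • v = v) : (fl2 R G v).Inv fun x => h • x := by
  have hv' : h⁻¹ • v = v := inv_smul_eq_iff.2 hv.symm
  have e : ∀ a : FF R G V, sg v (cj h a) = cj h (sg v a) := fun a => FF.ext fun z => by
    simp only [sg, cj, FF.of_op, op_mul, op_ta, LinearMap.comp_apply, amp_comp, tau_push hv,
      pull_tau hv']
  have : Flt (fun _ => (⊤ : AddSubgroup R)) := ⟨trivial, fun _ _ => trivial, monotone_const⟩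
  have k := fl_inv (Φ := fun _ => (⊤ : AddSubgroup R)) hv
  exact ⟨fun x => Prod.ext (e x.1) (e x.2), congrArg Subtype.val k.a₀, congrArg Subtype.val k.b₀,
    congrArg Subtype.val k.a₁, congrArg Subtype.val k.b₁⟩

end Pool.Agent.MP_f7db47_al.OB

end

section

/-!
The full theory given by twisted group rings.
-/

namespace Pool.Agent.MP_f7db47_al.KN

open Matrix GN GF Function

universe v w

section

variable {G₀ : Type} [Group G₀] {Q : Pp G₀}

theorem Pp.Colim.loc (h : Q.Colim) : Q.Loc := by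
  classical
  intro G _ i hK
  have e : ∀ {S : Finset G} {g : G}, g ∈ S → g ∈ Subgroup.closure (S : Set G) :=
    fun hg => Subgroup.subset_closure hg
  refine h fun S => ⟨Subgroup.closure (S : Set G), inferInstance, Subgroup.subtype _,
    fun g => if c : g ∈ Subgroup.closure (S : Set G) then ⟨g, c⟩ else 1, ⟨fun g hg => ?_,
      fun g hg k hk hgk => ?_⟩, hK _ ⟨S, rfl⟩⟩
  · simp only [dif_pos (e hg)]
    rfl
  · simp only [dif_pos (e hg), dif_pos (e hk), dif_pos (e hgk)]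
    rfl

end

variable {ι : Type} {κ : Type w} {R : Type v} [Ring R] (C : Coef ι κ R) (G₀ : Type) [Group G₀]
  [MulSemiringAction G₀ R]

/-- Vanishing for a group over `G₀`. -/
def NZp : Pp G₀ := fun G _ i => letI := MulSemiringAction.compHom R i; NZ G C

variable [hC : C.Inv G₀]

/-- The property in low degrees, for all subrings. -/
def QA : Pp G₀ := fun G _ i => ∀ I, Q0 (C.D I) G₀ G i

/-- The full property. -/
def QF : Pp G₀ := fun G _ i => QA C G₀ G i ∧ ∀ (P : Type) [Group P], PolyZ P →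
  ∀ (Δ : Type) [Group Δ] (f : Δ →* G × P), Injective f →
    NZp C G₀ Δ (i.comp ((MonoidHom.fst G P).comp f))

/-- Abstract vanishing properties exist. -/
def MkVT : Prop := ∀ (G : Type) [Group G] [MulSemiringAction G R] [C.Inv G] (I : κ) (K : Finset ι)
  (Q : Subgroup G → Prop), (∀ H, Q H → QG C H) → ∃ T : VT G Q, T.V = VV (C.D I) (C.S G) K

variable {C G₀}

theorem inv_comp {G : Type} [Group G] (i : G →* G₀) :
    letI := MulSemiringAction.compHom R i; C.Inv G :=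
  letI := MulSemiringAction.compHom R i
  ⟨fun I g => hC.D I (i g), fun a g => hC.u a (i g)⟩

theorem qa_sub : (QA C G₀).Sub := Pp.Sub.all fun _ => q0_sub

theorem qf_sub : (QF C G₀).Sub := fun f hf h => ⟨qa_sub f hf h.1, fun P _ hP Δ _ g hg =>
  h.2 P hP Δ ((f.prodMap (MonoidHom.id P)).comp g) ((hf.prodMap injective_id).comp hg)⟩

theorem qa_prod {G P : Type} [Group G] [Group P] {i : G →* G₀} (h : QA C G₀ G i) (hP : PolyZ P) :
    QA C G₀ (G × P) (i.comp (MonoidHom.fst G P)) := fun I => by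
  let _ := MulSemiringAction.compHom (C.D I) i
  exact TW.QQ.prod_poly (h I) hP

theorem qf_prod {G P : Type} [Group G] [Group P] {i : G →* G₀} (h : QF C G₀ G i) (hP : PolyZ P) :
    QF C G₀ (G × P) (i.comp (MonoidHom.fst G P)) := ⟨qa_prod h.1 hP, fun P' _ hP' Δ _ g hg =>
  h.2 (P × P') (polyZ_prod hP hP') Δ
    ((MulEquiv.prodAssoc (M := G) (N := P) (P := P')).toMonoidHom.comp g)
    ((MulEquiv.prodAssoc (M := G) (N := P) (P := P')).injective.comp hg)⟩

theorem qf_prodZ : (QF C G₀).ProdZ := fun h => qf_prod h polyZ_mz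

theorem qf_colim : (QF C G₀).Colim := by
  classical
  intro G _ i h
  refine ⟨Pp.Colim.all (fun _ => q0_colim) fun S => ?_, fun P _ hP Δ _ f hf => ?_⟩
  · obtain ⟨G', _, q, s, h1, h2⟩ := h S
    exact ⟨G', _, q, s, h1, h2.1⟩
  let _ := MulSemiringAction.compHom R (i.comp ((MonoidHom.fst G P).comp f))
  refine nz_colim fun S => ?_
  obtain ⟨G', _, q, s, h1, h2⟩ := h (S.image fun x => (f x).1)
  obtain ⟨Δ', _, f', q', s', a1, a2, a3⟩ := h1.pull f hf S
  let a := MulSemiringAction.compHom R ((i.comp q).comp ((MonoidHom.fst G' P).comp f'))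
  exact ⟨Δ', _, a, q', ⟨fun g x => congrArg (fun k => i k • x) (a2 g)⟩, s', a3, h2.2 P hP Δ' f' a1⟩

theorem QF.nz {G : Type} [Group G] {i : G →* G₀} (h : QF C G₀ G i) : NZp C G₀ G i :=
  h.2 PUnit (PolyZ.triv _ inferInstance) G (MonoidHom.inl _ _) fun _ _ e => congrArg Prod.fst e

theorem qf_qg {G : Type} [Group G] (i : G →* G₀) (H : Subgroup G) (h : (QF C G₀).on i H) :
    letI := MulSemiringAction.compHom R i; haveI := inv_comp (C := C) i; QG C H := by
  let _ := MulSemiringAction.compHom R i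
  have := inv_comp (C := C) i
  refine ⟨fun I => (q0_iff fun _ _ => rfl).1 (h.1 I), fun H' hH => ?_⟩
  have h2 : NZ H' C := (XR_le qf_sub i H H' hH h).nz
  have : C.Inv H' := inv_comp (C := C) (i.comp H'.subtype)
  have h3 := h2.nzs H'.subtype H'.subtype_injective
  rwa [Subgroup.range_subtype] at h3

theorem qf_red (hT : MkVT C) : (QF C G₀).Red (QA C G₀) := by
  intro _ G _ i h0 h
  refine ⟨h0, fun P _ hP Δ _ f hf => ?_⟩
  let p : Δ →* G := (MonoidHom.fst G P).comp f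
  let _ := MulSemiringAction.compHom R (i.comp p)
  have := inv_comp (C := C) (i.comp p)
  refine nz_of_vv (fun I => ((q0_iff fun _ _ => rfl).1 (qa_sub f hf (qa_prod h0 hP) I)).g0)
    fun I K S L => ?_
  obtain ⟨T, e⟩ := hT Δ I K _ (qf_qg (i.comp p))
  rw [← e]
  refine h Δ p (fun B hB => ?_) T S L
  exact qf_sub (((p.comp (B.comap p).subtype).codRestrict B fun x => x.2).prod
    ((MonoidHom.snd G P).comp (f.comp (B.comap p).subtype)))
    (fun x y c => Subtype.ext (hf (Prod.ext (congrArg (fun z => (z.1 : G)) c)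
      (congrArg (fun z => z.2) c)))) (qf_prod hB hP)

/-- The reduction to finite-by-cyclic subgroups. -/
theorem qf_fj (hT : MkVT C) (hN : ∀ I, TW.NR (C.D I)) {Γ G : Type} [Group Γ] [Group G]
    (hΓ : VD.FJ Γ) (i : G →* G₀) (f : G →* Γ)
    (h : ∀ B : Subgroup Γ, (∃ φ : B →* Multiplicative ℤ, Finite φ.ker) →
      (QF C G₀).on i (B.comap f)) : QF C G₀ G i :=
  Pp.fj qf_sub (Pp.Colim.loc qf_colim)
    ((qf_red hT).flow (fun _ _ _ a => a.1) qf_sub (Pp.Flow.all fun _ => q0_flow))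
    ((qf_red hT).lat2 (fun _ _ _ a => a.1) qf_sub (Pp.Lat2.all fun _ => q0_lat2))
    ((qf_red hT).fh (fun _ _ _ a => a.1) qf_sub (Pp.Fh.all fun _ => q0_fh))
    qf_prodZ qf_colim hΓ i f h

/-- Groups that preserve a swindle. -/
theorem qf_fla {F : TW.Fl R} (hF : C.Fla F) {G : Type} [Group G] {i : G →* G₀}
    (h : ∀ g : G, F.Inv fun x => i g • x) : QF C G₀ G i := by
  refine ⟨fun I => ?_, fun P _ _ Δ _ f _ => ?_⟩
  · let _ := MulSemiringAction.compHom R i
    have := inv_comp (C := C) i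
    exact (q0_iff fun _ _ => rfl).2 (hF.qq h I)
  · let _ := MulSemiringAction.compHom R (i.comp ((MonoidHom.fst G P).comp f))
    have := inv_comp (C := C) (i.comp ((MonoidHom.fst G P).comp f))
    exact hF.nz fun g => h (f g).1

/-- The group theoretic conclusion. -/
theorem nz_fj (hT : MkVT C) (hN : ∀ I, TW.NR (C.D I)) {Γ : Type} [Group Γ] (hΓ : VD.FJ Γ)
    (f : G₀ →* Γ) (h : ∀ B : Subgroup Γ, (∃ φ : B →* Multiplicative ℤ, Finite φ.ker) →
      ∃ F : TW.Fl R, C.Fla F ∧ ∀ g, f g ∈ B → F.Inv fun x => g • x) :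
    NZ G₀ C ∧ ∀ I, TW.QQ (C.D I) G₀ := by
  have := qf_fj hT hN hΓ (MonoidHom.id G₀) f fun B hB => by
    obtain ⟨F, h1, h2⟩ := h B hB
    exact qf_fla h1 fun g => h2 g g.2
  exact ⟨this.nz, fun I => (q0_iff fun _ _ => rfl).1 (this.1 I)⟩

end Pool.Agent.MP_f7db47_al.KN

end

section

/-!
From the twisted group ring of the double to the ideal of small operators.
-/

set_option linter.unusedSectionVars false

namespace Pool.Agent.MP_f7db47_al.OB

open Function

universe v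

variable {R : Type v} [Ring R] {Φ : ℕ → AddSubgroup R} [Flt Φ] {G : Type} [Group G] {V : Type}
  [MulAction G V] {a b : FF R G V} {ι : Type} {u : ι → Rˣ}

variable (Φ G V) in
/-- Controlled operators, as a family with one label. -/
def cgF : KN.Fam (FF R G V) Unit := fun _ _ =>
  { carrier := {a | CG Φ a}
    add_mem' := CG.add
    zero_mem' := cg_zero
    neg_mem' := CG.neg }

variable (Φ G V) in
/-- Small controlled operators, as a family with one label. -/
def ssF : KN.Fam (FF R G V) Unit := fun _ _ => SS Φ G V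

variable (G V u) in
/-- The monoids of scalars. -/
noncomputable def scS : ι → Submonoid (FF R G V) := fun i => Submonoid.powers (sc G V (u i))

lemma ss_idl : KN.Idl (ssF Φ G V) (cgF Φ G V) :=
  ⟨fun _ _ _ h => h.1, fun _ _ _ _ _ h h' => ⟨CG.mul h h'.1, h'.2.left (And.left h)⟩,
    fun _ _ _ _ _ h h' => ⟨CG.mul h.1 h', h.2.right (And.left h')⟩⟩

lemma cg_scS (hm : ∀ i, ∃ d, (u i : R) ∈ Φ d) {i : ι} {w : FF R G V} (hw : w ∈ scS G V u i) :
    CG Φ w := by
  obtain ⟨n, rfl⟩ := hw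
  obtain ⟨d, hd⟩ := hm i
  have := mm_sc (G := G) (V := V) (mul_one ((u i : R) ^ n) ▸ pow_mul_mem hd n Flt.one)
  rw [map_pow] at this
  exact this.1

lemma cen_scS (hu : ∀ i x, (u i : R) * x = x * u i) : KN.Cen (scS G V u) := by
  rintro i _ ⟨n, rfl⟩ x
  exact (Commute.pow_left (sc_cen (hu i) x) n).eq

lemma cg_good (hu : ∀ i x, (u i : R) * x = x * u i) (hm : ∀ i, ∃ d, (u i : R) ∈ Φ d) :
    KN.Good (cgF Φ G V) (scS G V u) :=
  ⟨fun _ _ _ _ _ => CG.mul, cen_scS hu, fun _ _ hw _ _ _ => (cg_scS hm hw).mul⟩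

lemma ss_good (hu : ∀ i x, (u i : R) * x = x * u i) (hm : ∀ i, ∃ d, (u i : R) ∈ Φ d) :
    KN.Good (ssF Φ G V) (scS G V u) :=
  ⟨fun _ _ _ _ _ h => ss_idl.left (b := ()) h.1, cen_scS hu,
    fun _ _ hw _ _ _ => ss_idl.left (b := ()) (cg_scS hm hw)⟩

lemma sm_common (T : Finset (FF R G V)) (h : ∀ x ∈ T, Sm x) :
    ∃ U, Small U ∧ ∀ x ∈ T, Sp (fun i _ j => i ∈ U ∧ j ∈ U) x.op := by
  classical
  induction T using Finset.induction_on with
  | empty => exact ⟨∅, small_empty, fun _ c => absurd c (Finset.notMem_empty _)⟩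
  | insert y T _ ih =>
    obtain ⟨U, h1, h2⟩ := ih fun x hx => h x (Finset.mem_insert_of_mem hx)
    obtain ⟨S, h3, h4⟩ := h y (Finset.mem_insert_self _ _)
    refine ⟨_, h1.union h3, fun x hx => ?_⟩
    rcases Finset.mem_insert.1 hx with rfl | hx
    · exact h4.mono fun _ _ _ c => ⟨Or.inr c.1, Or.inr c.2⟩
    · exact (h2 x hx).mono fun _ _ _ c => ⟨Or.inl c.1, Or.inl c.2⟩

lemma ss_lu : KN.LU (ssF Φ G V) := fun _ T hT => by
  obtain ⟨U, h1, h2⟩ := sm_common T fun x hx => (hT x hx).choose_spec.2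
  let q : FF R G V := .of (push _ (Subtype.val : U → Ix V) ∘ₗ pull _ Subtype.val_injective)
  have hq : Sp (fun i g j => (g = 1 ∧ i = j) ∧ j ∈ U) q.op := by
    refine ((sp_push _).comp (sp_pull _)).mono ?_
    rintro _ _ _ ⟨k, _, _, ⟨rfl, rfl⟩, ⟨rfl, rfl⟩, rfl⟩
    exact ⟨⟨mul_one _, rfl⟩, k.2⟩
  refine ⟨q, ⟨⟨⟨_, good_smul 1, hq.mono fun _ _ _ c => ⟨c.1.1, by rw [one_smul, c.1.2]⟩⟩,
    (bd_push _).comp (bd_pull _)⟩, U, h1, hq.mono fun _ _ _ c => ⟨c.1.2 ▸ c.2, c.2⟩⟩,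
    FF.ext fun z => ?_, fun x hx => FF.ext' fun j => ?_⟩
  · simp only [q, FF.of_op, op_mul, LinearMap.comp_apply, pull_push]
  · refine Finsupp.mapDomain_comapDomain _ Subtype.val_injective _ fun i hi => ?_
    rw [Subtype.range_coe]
    by_contra c
    refine Finsupp.mem_support_iff.1 hi (MonoidAlgebra.coeff_injective (Finsupp.ext fun g => ?_))
    by_contra d
    exact c (h2 x hx i j g d).1

variable (R G V) in
/-- The evaluation. -/
noncomputable def ev : SkewMonoidAlgebra (FF R G V × FF R G V) G →+* FF R G V × FF R G V :=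
  SkewMonoidAlgebra.liftNCRingHom (RingHom.id _) ((ta R V).prod (ta R V)) (by
    intro x y
    exact Prod.ext (cj_tau y x.1) (cj_tau y x.2))

lemma ev_single (g : G) (x : FF R G V × FF R G V) :
    ev R G V (SkewMonoidAlgebra.single g x) = (x.1 * ta R V g, x.2 * ta R V g) :=
  SkewMonoidAlgebra.liftNC_single _ _ _ _

variable {x : SkewMonoidAlgebra (FF R G V × FF R G V) G}

lemma ev_mem {i j : Unit} (hx : x ∈ KN.ful G (DD Φ G V) i j) :
    ev R G V x ∈ KN.dbl (cgF Φ G V) (ssF Φ G V) i j := by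
  refine KN.g0_ind (motive := fun x => ev R G V x ∈ KN.dbl (cgF Φ G V) (ssF Φ G V) i j) hx
    (by rw [map_zero]; exact zero_mem _) (fun _ _ p q => by rw [map_add]; exact add_mem p q)
    fun g _ d hd => ?_
  rw [ev_single]
  have h1 := hd.1.1.mul (cg_tau g)
  have h2 := hd.2.1.1.mul (cg_tau g)
  refine ⟨h1, h2, h2.sub h1, ?_⟩
  have := hd.2.2.right (cg0_tau g)
  rwa [sub_mul] at this

lemma pt_ev {i j : Unit} (hx : x ∈ KN.ful G (DD Φ G V) i j) (g : G) :
    (pt g).prodMap (pt g) (ev R G V x) = x.coeff g * (ta R V g, ta R V g) := by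
  refine KN.g0_ind (motive := fun x => (pt g).prodMap (pt g) (ev R G V x) =
    x.coeff g * (ta R V g, ta R V g)) hx (by rw [map_zero, map_zero]; simp) (fun x y p q => by
      rw [map_add, map_add, p, q, SkewMonoidAlgebra.coeff_add, Finsupp.add_apply, add_mul])
    fun k _ d hd => ?_
  have h1 := hd.1.2.mul (dg_tau k)
  have h2 := hd.2.1.2.mul (dg_tau k)
  rw [one_mul] at h1 h2
  rw [ev_single, SkewMonoidAlgebra.coeff_single]
  by_cases c : k = g
  · subst c
    rw [Finsupp.single_eq_same]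
    exact Prod.ext (part_eq h1) (part_eq h2)
  · rw [Finsupp.single_eq_of_ne' c, zero_mul]
    exact Prod.ext (part_ne h1 c) (part_ne h2 c)

lemma ev_inj {i j : Unit} (hx : x ∈ KN.ful G (DD Φ G V) i j) (h : ev R G V x = 0) : x = 0 :=
  SkewMonoidAlgebra.ext fun g => by
    have := pt_ev hx g
    rw [h, map_zero] at this
    exact (((ta R V).prod (ta R V)).toHomUnits g).mul_left_eq_zero.1 this.symm

lemma ev_surj {i j : Unit} {y : FF R G V × FF R G V}
    (hy : y ∈ KN.dbl (cgF Φ G V) (ssF Φ G V) i j) :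
    ∃ x ∈ KN.ful G (DD Φ G V) i j, ev R G V x = y := by
  classical
  have c1 : ∀ {a : FF R G V}, CG Φ a → ∀ g, MM Φ (pt g a * ta R V g⁻¹) := fun {a} h g => by
    obtain ⟨⟨E, a1, a2⟩, a5⟩ := h
    exact ⟨CG.mul ⟨⟨E, a1, (a2.part g).mono fun _ _ _ c => c.2⟩, a5.part g⟩ (cg_tau _),
      mul_inv_cancel g ▸ Dg.mul (a := pt g a) ((a2.part g).mono fun _ _ _ c => c.1) (dg_tau g⁻¹)⟩
  have c2 : ∀ {a : FF R G V}, CG Φ a → ∃ F : Finset G, ∀ F', F ⊆ F' →
      ∑ g ∈ F', pt g a * ta R V g⁻¹ * ta R V g = a := fun {a} h => by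
    obtain ⟨⟨E, a1, a2⟩, -⟩ := h
    obtain ⟨F, b1, b2⟩ := a1.gfin
    refine ⟨b1.toFinset, fun F' hF => Eq.trans (Finset.sum_congr rfl fun g _ => ?_)
      (sum_part (a := a.op) (F := F') (a2.mono fun _ _ _ c =>
        hF (b1.mem_toFinset.2 (b2 _ _ _ c))))⟩
    rw [mul_assoc, tau_inv, mul_one]
    rfl
  obtain ⟨h1, h2, -, S, h3, h4⟩ := hy
  obtain ⟨F₁, d1⟩ := c2 h1
  obtain ⟨F₂, d2⟩ := c2 h2
  refine ⟨∑ g ∈ F₁ ∪ F₂, SkewMonoidAlgebra.single g
    (pt g y.1 * ta R V g⁻¹, pt g y.2 * ta R V g⁻¹), sum_mem fun g _ =>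
      KN.g0_single ⟨c1 h1 g, c1 h2 g, ?_⟩ trivial, ?_⟩
  · have : Sm (pt g (y.2 - y.1) * ta R V g⁻¹) :=
      Sm.right ⟨S, h3, (h4.part g).mono fun _ _ _ c => c.2⟩ (cg0_tau _)
    rwa [map_sub, sub_mul] at this
  · simp only [map_sum, ev_single]
    exact Prod.ext (Prod.fst_sum.trans (d1 _ Finset.subset_union_left))
      (Prod.snd_sum.trans (d2 _ Finset.subset_union_right))

/-- Vanishing over the ideal of small operators. -/
theorem ss_null (hu : ∀ i x, (u i : R) * x = x * u i) (h : KN.NZ G (coef G V hu)) (I : Adm u)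
    (h0 : TW.G0 ((coef G V hu).D I) G) (K : Finset ι) :
    KN.NullAll (ssF I.Φ G V) (scS G V u) K := by
  have e : ∀ (i : ι) (n : ℕ), ev R G V (SkewMonoidAlgebra.single 1 ((coef G V hu).u i ^ n)) =
      ((RingHom.id _).prod (RingHom.id _)) (sc G V (u i : R) ^ n) := fun i n => by
    rw [ev_single, map_one, mul_one, mul_one]
    rfl
  have hG := KN.dbl_good (cg_good (G := G) (V := V) hu I.mem) (ss_good hu I.mem) ss_idl
  refine KN.exc (cg_good hu I.mem) (ss_good hu I.mem) ss_idl ss_lu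
    (KN.stdz_of hG.mul ⟨cg_one, cg_one, (sub_self (1 : FF R G V)).symm ▸ zero_mem _⟩
      (KN.sfree_of ((ev R G V).comp (KN.incl G ((coef G V hu).D I))) ?_
        (fun x => ev_mem (KN.incl_mem x)) (fun y hy => ?_) h0))
    (KN.NullAll.pull' (φ := (ev R G V).toAddMonoidHom) (KN.g0_fu I) ⟨fun _ _ _ => ev_mem,
      fun _ _ _ x y _ _ => map_mul (ev R G V) x y, fun i w hw => ?_⟩ (fun _ _ _ => ev_inj)
      (fun _ _ _ => ev_surj) ?_ (h I K))
  · exact (injective_iff_map_eq_zero _).2 fun x hx =>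
      KN.incl_inj ((ev_inj (KN.incl_mem x) hx).trans (map_zero _).symm)
  · obtain ⟨x, h1, rfl⟩ := ev_surj hy
    obtain ⟨x, rfl⟩ := KN.incl_surj (D := (coef G V hu).D I) h1
    exact ⟨x, rfl⟩
  · obtain ⟨n, rfl⟩ := KN.g0_memS.1 hw
    exact ⟨_, ⟨_, ⟨n, rfl⟩, (e i n).symm⟩, fun _ _ x _ => map_mul (ev R G V) _ x⟩
  · rintro i _ ⟨_, ⟨n, rfl⟩, rfl⟩
    exact ⟨_, KN.g0_memS.2 ⟨n, rfl⟩, fun _ _ x _ =>
      (map_mul (ev R G V) _ x).trans (congrArg (· * _) (e i n))⟩

/-- Vanishing for groups over a group with the fibred reduction property. -/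
theorem ss_null_fj (hu : ∀ i x, (u i : R) * x = x * u i) (hT : KN.MkVT (coef G V hu))
    {Γ : Type} [Group Γ] (hΓ : VD.FJ Γ) (f : G →* Γ)
    (hV : ∀ (B : Subgroup Γ) (φ : B →* Multiplicative ℤ), Finite φ.ker →
      ∃ v : V, ∀ g, f g ∈ B → g • v = v) (I : Adm u) (K : Finset ι) :
    KN.NullAll (ssF I.Φ G V) (scS G V u) K := by
  obtain ⟨h1, h2⟩ := KN.nz_fj hT (coef_nr hu) hΓ f fun B ⟨φ, hφ⟩ => by
    obtain ⟨v, hv⟩ := hV B φ hφ
    exact ⟨fl2 R G v, fl2_fla hu v, fun g hg => fl2_inv (hv g hg)⟩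
  exact ss_null hu h1 I (h2 I).g0 K

end Pool.Agent.MP_f7db47_al.OB

end

section

/-!
Complexes over the ideal of small operators and complexes over the obstruction category.
-/

set_option linter.unusedSectionVars false

namespace Pool.Agent.MP_f7db47_al.OB

open Function

universe v

variable {R : Type v} [Ring R] {Φ : ℕ → AddSubgroup R} [Flt Φ] {G : Type} [Group G] {V : Type}
  [MulAction G V] {ι : Type} {u : ι → Rˣ}

section Big

variable {K I : Type} [Fintype K] [DecidableEq K] {A B : Matrix K K (FF R G V)}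
  {e : I → K × Ix V}

lemma ne_coeff {x : MonoidAlgebra R G} (h : x ≠ 0) : ∃ g, x.coeff g ≠ 0 := by
  by_contra! d
  exact h (MonoidAlgebra.coeff_injective (Finsupp.ext d))

lemma ctrl_big (hA : ∀ k l, CG Φ (A k l)) {M : Obj V} {e : M.I → K × Ix V}
    (h2 : ∀ i, M.t i = (e i).2.t) (h3 : ∀ i, M.x i = (e i).2.p.1) :
    Ctrl Φ M ((big A).submatrix e e) := by
  choose E c1 c2 using fun k : K × K => (hA k.1 k.2).1
  choose D c3 using fun k : K × K => (hA k.1 k.2).2
  have hE := good_fin c1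
  have e1 : ∀ y g z, (big A y z).coeff g ≠ 0 → ∃ k, E k y.2 g z.2 :=
    fun y g z c => ⟨(y.1, z.1), c2 _ _ _ g c⟩
  refine ⟨⟨Finset.univ.sup D, fun i j g => Flt.mono (Finset.le_sup (Finset.mem_univ _))
    (c3 ((e i).1, (e j).1) _ _ g)⟩,
    hE.gfin.imp fun F c => ⟨c.1, fun i j g d => c.2 _ _ _ (e1 _ _ _ d)⟩, ?_, ?_⟩
  · obtain ⟨α, hα⟩ := hE.l.band
    obtain ⟨β, hβ⟩ := hE.r.band
    refine ⟨α + β, fun i j c => ?_⟩
    obtain ⟨g, hg⟩ := ne_coeff c
    have f1 := hα _ _ ⟨g, e1 _ _ _ hg⟩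
    have f2 := hβ _ _ ⟨g, e1 _ _ _ hg⟩
    rw [h2, h2]
    omega
  · refine fun ε hε => (hE.ctl ε hε).imp fun T c i j g d k => ?_
    rw [h3, h3]
    exact c _ _ _ (e1 _ _ _ d) (h2 i ▸ k)

/-- The matrix is supported on the range of `e`. -/
def Supp (e : I → K × Ix V) (A : Matrix K K (FF R G V)) : Prop :=
  ∀ y z, big A y z ≠ 0 → y ∈ Set.range e ∧ z ∈ Set.range e

lemma big_ne {y z : K × Ix V} (h : big (A * B) y z ≠ 0) :
    ∃ w, big A y w ≠ 0 ∧ big B w z ≠ 0 := by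
  by_contra! c
  refine h ((big_mul A B y z).trans (finsum_eq_zero_of_forall_eq_zero fun w => ?_))
  by_cases d : big A y w = 0
  · rw [d, zero_mul]
  · rw [c w d, mul_zero]

lemma Supp.mul (h : Supp e A) (h' : Supp e B) : Supp e (A * B) := fun _ _ c =>
  (big_ne c).elim fun _ d => ⟨(h _ _ d.1).1, (h' _ _ d.2).2⟩

lemma Supp.sand {p : Matrix K K (FF R G V)} (h : Supp e p) (h1 : p * A = A) (h2 : A * p = A) :
    Supp e A := fun _ _ c =>
  ⟨(big_ne (h1.symm ▸ c)).elim fun _ d => (h _ _ d.1).1,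
    (big_ne (h2.symm ▸ c)).elim fun _ d => (h _ _ d.2).2⟩

lemma Supp.add (h : Supp e A) (h' : Supp e B) : Supp e (A + B) := fun y z c => by
  by_cases d : big A y z = 0
  · exact h' y z fun k => c (by rw [big_add, Matrix.add_apply, d, k, add_zero])
  · exact h y z d

lemma supp_zero : Supp e (0 : Matrix K K (FF R G V)) := fun _ _ c => absurd rfl c

lemma big_sc (c : R) (A : Matrix K K (FF R G V)) : big (sc G V c • A) = c • big A := rfl

lemma Supp.sc (h : Supp e A) (c : R) : Supp e (sc G V c • A) := fun y z d =>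
  h y z fun k => d (by rw [big_sc, Matrix.smul_apply, k, smul_zero])

lemma Supp.ext (h : Supp e A) (h' : Supp e B)
    (k : (big A).submatrix e e = (big B).submatrix e e) : A = B := by
  have : ∀ y z, big A y z = big B y z := fun y z => by
    by_cases c : y ∈ Set.range e ∧ z ∈ Set.range e
    · obtain ⟨⟨i, rfl⟩, j, rfl⟩ := c
      exact congrFun (congrFun k i) j
    · exact (by_contra fun d => c (h y z d) : _ = _).trans
        (by_contra fun d => c (h' y z d) : _ = _).symm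
  exact Matrix.ext fun i j => ent_inj (Matrix.ext fun x y => this (i, x) (j, y))

lemma mul_big (he : Injective e) (h : Supp e A) (B : Matrix K K (FF R G V)) :
    mulM ((big A).submatrix e e) ((big B).submatrix e e) = (big (A * B)).submatrix e e := by
  ext1 i k
  rw [Matrix.submatrix_apply, big_mul, mulM]
  refine Eq.trans (finsum_mem_range (f := fun w => big A (e i) w * big B w (e k)) he).symm ?_
  rw [finsum_mem_def, Set.indicator_eq_self.2]
  exact fun w hw => (h _ _ (left_ne_zero_of_mul hw)).2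

end Big

/-- A presentation of a complex over the small operators. -/
structure Pres (X : KN.Cx (FF R G V) Unit) (Y : Raw R G V) (e : Y.M.I → X.J × Ix V) : Prop where
  inj : Injective e
  t : ∀ i, Y.M.t i = (e i).2.t
  x : ∀ i, Y.M.x i = (e i).2.p.1
  deg : ∀ i, Y.deg i = (X.t (e i).1).2
  p : Y.p = (big X.p).submatrix e e
  D : Y.D = (big X.D).submatrix e e
  sup : Supp e X.p

variable {X X' : KN.Cx (FF R G V) Unit} {Y Y' : Raw R G V} {e : Y.M.I → X.J × Ix V}

lemma Pres.mor (h : Pres X Y e) {d : ℤ} {a : Matrix X.J X.J (FF R G V)}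
    (ha : KN.Hm (ssF Φ G V) d X.t X.t a) : Y.Mor Φ d ((big a).submatrix e e) :=
  ⟨ctrl_big (fun k l => (ha k l).1.1) h.t h.x, fun i j c => by
    rw [h.deg, h.deg]
    exact (ha _ _).2 fun d => c (congrArg (fun a : FF R G V => ent a.op _ _) d)⟩

lemma Pres.null (h : Pres X Y e) (hX : KN.Ok (ssF Φ G V) X) {c : R} (hc : ∀ x, c * x = x * c)
    (k : KN.Nul (ssF Φ G V) (sc G V c) X) : Y.Null Φ c := by
  obtain ⟨s, h1, h2⟩ := k.sand ss_idl.lr hX (sc_cen hc)
  refine ⟨_, h.mor h1.hm, ?_⟩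
  rw [h.D, h.p, mul_big h.inj (h.sup.sand hX.pD hX.Dp), mul_big h.inj (h.sup.sand h1.pl h1.pr)]
  exact congrArg (fun A => (big A).submatrix e e) h2

lemma Pres.null_one (h : Pres X Y e) (hX : KN.Ok (ssF Φ G V) X) (k : KN.Nul (ssF Φ G V) 1 X) :
    Y.Null Φ 1 := h.null hX (fun x => by simp) (by rwa [map_one])

variable [Fintype ι] (hu : ∀ i x, (u i : R) * x = x * u i)

include hu

lemma Pres.isN (h : Pres X Y e) (hX : KN.Obj (ssF Φ G V) (scS G V u) Finset.univ X) :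
    Y.IsN Φ u where
  bd := (Set.finite_range fun j => (X.t j).2).subset (by
    rintro _ ⟨i, rfl⟩
    exact ⟨_, (h.deg i).symm⟩)
  hp := h.p ▸ h.mor hX.ok.hp
  hD := h.D ▸ h.mor hX.ok.hD
  pp := by rw [h.p, mul_big h.inj h.sup, hX.ok.pp]
  pD := by rw [h.p, h.D, mul_big h.inj h.sup, hX.ok.pD]
  Dp := by rw [h.p, h.D, mul_big h.inj (h.sup.sand hX.ok.pD hX.ok.Dp), hX.ok.Dp]
  DD := by
    rw [h.D, mul_big h.inj (h.sup.sand hX.ok.pD hX.ok.Dp), hX.ok.DD]
    rfl
  tor i := by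
    obtain ⟨_, ⟨n, rfl⟩, k⟩ := hX.tor i (Finset.mem_univ i)
    exact ⟨n, h.null hX.ok (fun x => (Commute.pow_left (hu i x) n).eq) (by rwa [map_pow])⟩

omit hu

/-- Restriction to a subset of the basis. -/
def Raw.res (Y : Raw R G V) (U : Set Y.M.I) : Raw R G V where
  M := { I := U
         t := fun i => Y.M.t i
         x := fun i => Y.M.x i
         fin := fun n => (Y.M.fin n).preimage Subtype.val_injective.injOn
         nonneg := fun i => Y.M.nonneg i
         total := fun i => Y.M.total i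
         cpt := Y.M.cpt.imp fun _ c => ⟨c.1, fun i => c.2 i⟩ }
  deg i := Y.deg i.1
  p := Y.p.submatrix Subtype.val Subtype.val
  D := Y.D.submatrix Subtype.val Subtype.val

variable (Φ u) in
/-- The class in the Grothendieck group. -/
noncomputable def cl (Y : Raw R G V) :
    FreeAbelianGroup (Raw R G V) ⧸ AddSubgroup.closure (Rel Φ G V u) :=
  QuotientAddGroup.mk (FreeAbelianGroup.of Y)

lemma cl_ext {Y'' : Raw R G V} (h' : Y'.IsN Φ u) (h : Y.IsN Φ u) (h'' : Y''.IsN Φ u)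
    (k : Y'.IsExt Y Y'') : cl Φ u Y = cl Φ u Y' + cl Φ u Y'' := by
  have := (QuotientAddGroup.eq_zero_iff _).2
    (AddSubgroup.subset_closure (k := Rel Φ G V u) (Or.inl ⟨_, _, _, h', h, h'', k, rfl⟩))
  rwa [sub_sub, QuotientAddGroup.mk_sub, QuotientAddGroup.mk_add, sub_eq_zero] at this

lemma cl_null (h : Y.IsN Φ u) (k : Y.Null Φ 1) : cl Φ u Y = 0 :=
  (QuotientAddGroup.eq_zero_iff _).2 (AddSubgroup.subset_closure (Or.inr ⟨_, h, k, rfl⟩))

include hu

lemma cl_le {e' : Y'.M.I → X.J × Ix V} (h : Pres X Y e) (h' : Pres X Y' e')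
    (hX : KN.Obj (ssF Φ G V) (scS G V u) Finset.univ X) (k : Set.range e' ⊆ Set.range e) :
    cl Φ u Y = cl Φ u Y' := by
  choose φ hφ using fun i => k ⟨i, rfl⟩
  have hD := h'.sup.sand hX.ok.pD hX.ok.Dp
  have z1 : ∀ {A : Matrix X.J X.J (FF R G V)}, Supp e' A → ∀ y z,
      y ∉ Set.range e' ∨ z ∉ Set.range e' → big A y z = 0 := fun hA y z c =>
    by_contra fun d => c.elim (fun c => c (hA y z d).1) fun c => c (hA y z d).2
  have o1 : KN.Ok (ssF Φ G V) (X.re 0 0) :=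
    ⟨KN.Hm.zero _ _, KN.Hm.zero _ _, mul_zero _, mul_zero _, mul_zero _, mul_zero _⟩
  have o2 : KN.Nul (ssF Φ G V) 1 (X.re 0 0) := ⟨0, KN.Hm.zero _ _, by simp⟩
  have hZ : Pres (X.re 0 0) (Y.res {j | e j ∉ Set.range e'}) fun j => e j.1 :=
    ⟨h.inj.comp Subtype.val_injective, fun i => h.t i.1, fun i => h.x i.1, fun i => h.deg i.1,
      Matrix.ext fun i j => (congrFun (congrFun h.p i.1) j.1).trans (z1 h'.sup _ _ (Or.inl i.2)),
      Matrix.ext fun i j => (congrFun (congrFun h.D i.1) j.1).trans (z1 hD _ _ (Or.inl i.2)),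
      supp_zero⟩
  have hφ' : e ∘ φ = e' := funext hφ
  rw [cl_ext (h'.isN hu hX) (h.isN hu hX) (hZ.isN hu ⟨o1, o2.tor⟩) ⟨φ, Subtype.val, ⟨?_, ?_⟩,
    ⟨fun i => by rw [h.t, h'.t, hφ], fun i => by rw [h.x, h'.x, hφ],
      fun i => by rw [h.deg, h'.deg, hφ], by rw [h.p, h'.p, Matrix.submatrix_submatrix, hφ'],
      by rw [h.D, h'.D, Matrix.submatrix_submatrix, hφ']⟩,
    ⟨fun _ => rfl, fun _ => rfl, fun _ => rfl, rfl, rfl⟩, fun i j => ?_⟩,
    cl_null (hZ.isN hu ⟨o1, o2.tor⟩) (hZ.null_one o1 o2), add_zero]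
  · exact Injective.sumElim (fun i j c => h'.inj (by rw [← hφ, ← hφ, c])) Subtype.val_injective
      fun i j c => j.2 ⟨i, by rw [← hφ, c]⟩
  · intro j
    by_cases c : e j ∈ Set.range e'
    · obtain ⟨i, hi⟩ := c
      exact ⟨Sum.inl i, h.inj ((hφ i).trans hi)⟩
    · exact ⟨Sum.inr ⟨j, c⟩, rfl⟩
  · rw [h.p, h.D]
    exact ⟨z1 h'.sup _ _ (Or.inr j.2), z1 h'.sup _ _ (Or.inl j.2), z1 hD _ _ (Or.inl j.2)⟩

lemma cl_eq {e' : Y'.M.I → X.J × Ix V} (h : Pres X Y e) (h' : Pres X Y' e')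
    (hX : KN.Obj (ssF Φ G V) (scS G V u) Finset.univ X) : cl Φ u Y = cl Φ u Y' := by
  have hZ : Pres X (Y.res {j | e j ∈ Set.range e'}) fun j => e j.1 :=
    ⟨h.inj.comp Subtype.val_injective, fun i => h.t i.1, fun i => h.x i.1, fun i => h.deg i.1,
      Matrix.ext fun i j => congrFun (congrFun h.p i.1) j.1,
      Matrix.ext fun i j => congrFun (congrFun h.D i.1) j.1, fun y z c => by
        obtain ⟨⟨i, rfl⟩, j, rfl⟩ := h.sup y z c
        exact ⟨⟨⟨i, (h'.sup _ _ c).1⟩, rfl⟩, ⟨j, (h'.sup _ _ c).2⟩, rfl⟩⟩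
  refine (cl_le hu h hZ hX ?_).trans (cl_le hu h' hZ hX ?_).symm
  · rintro _ ⟨i, rfl⟩
    exact ⟨_, rfl⟩
  · rintro _ ⟨i, rfl⟩
    exact i.2

omit hu

lemma exists_pres (hX : KN.Ok (ssF Φ G V) X) : ∃ Y e, Pres X Y e := by
  classical
  obtain ⟨U, h1, h2⟩ := sm_common (Finset.univ.image fun k : X.J × X.J => X.p k.1 k.2)
    fun x hx => by
      obtain ⟨k, -, rfl⟩ := Finset.mem_image.1 hx
      exact (hX.hp _ _).1.2
  obtain ⟨K, c3, c4⟩ := h1.2
  refine ⟨⟨{  I := {y : X.J × Ix V // y.2 ∈ U}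
              t := fun y => y.1.2.t
              x := fun y => y.1.2.p.1
              fin := fun n => ((Set.finite_univ.prod (h1.1 n)).preimage
                Subtype.val_injective.injOn).subset fun y c => ⟨trivial, y.2, c⟩
              nonneg := fun y => y.1.2.p.2.1
              total := fun y => y.1.2.p.2.2
              cpt := ⟨K, c3, fun y => c4 _ y.2⟩ }, fun y => (X.t y.1.1).2,
      (big X.p).submatrix Subtype.val Subtype.val, (big X.D).submatrix Subtype.val Subtype.val⟩,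
    Subtype.val, Subtype.val_injective,
    fun _ => rfl, fun _ => rfl, fun _ => rfl, rfl, rfl, fun y z c => ?_⟩
  obtain ⟨g, hg⟩ := ne_coeff c
  have := h2 _ (Finset.mem_image_of_mem _ (Finset.mem_univ (y.1, z.1))) _ _ g hg
  exact ⟨⟨⟨y, this.1⟩, rfl⟩, ⟨z, this.2⟩, rfl⟩

lemma Pres.ext {e' : Y'.M.I → X'.J × Ix V} (h : Pres X Y e) (h' : Pres X' Y' e')
    (t : Matrix X.J X'.J (FF R G V)) : ∃ W E, Pres (X.ext X' t) W E ∧ Y.IsExt W Y' := by
  let E : (Y.M.sum Y'.M).I → (X.J ⊕ X'.J) × Ix V :=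
    Sum.elim (Prod.map Sum.inl id ∘ e) (Prod.map Sum.inr id ∘ e')
  refine ⟨⟨Y.M.sum Y'.M, Sum.elim Y.deg Y'.deg, (big (X.ext X' t).p).submatrix E E,
    (big (X.ext X' t).D).submatrix E E⟩, E, ⟨?_, ?_, ?_, ?_, rfl, rfl, ?_⟩,
    Sum.inl, Sum.inr, Sum.elim_inl_inr ▸ bijective_id,
    ⟨fun _ => rfl, fun _ => rfl, fun _ => rfl, h.p, h.D⟩,
    ⟨fun _ => rfl, fun _ => rfl, fun _ => rfl, h'.p, h'.D⟩, fun _ _ => ⟨rfl, rfl, rfl⟩⟩
  · exact Injective.sumElim ((Sum.inl_injective.prodMap injective_id).comp h.inj)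
      ((Sum.inr_injective.prodMap injective_id).comp h'.inj)
      fun _ _ c => Sum.inl_ne_inr (congrArg Prod.fst c)
  · rintro (i | i)
    exacts [h.t i, h'.t i]
  · rintro (i | i)
    exacts [h.x i, h'.x i]
  · rintro (i | i)
    exacts [h.deg i, h'.deg i]
  · rintro ⟨k | k, y⟩ ⟨l | l, z⟩ c
    · obtain ⟨⟨i, a⟩, j, b⟩ := h.sup (k, y) (l, z) c
      exact ⟨⟨Sum.inl i, congrArg (Prod.map Sum.inl id) a⟩,
        Sum.inl j, congrArg (Prod.map Sum.inl id) b⟩
    · exact absurd rfl c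
    · exact absurd rfl c
    · obtain ⟨⟨i, a⟩, j, b⟩ := h'.sup (k, y) (l, z) c
      exact ⟨⟨Sum.inr i, congrArg (Prod.map Sum.inr id) a⟩,
        Sum.inr j, congrArg (Prod.map Sum.inr id) b⟩

end Pool.Agent.MP_f7db47_al.OB

end

section

/-!
Vanishing of the Grothendieck group of complexes with supports.
-/

set_option linter.unusedSectionVars false

namespace Pool.Agent.MP_f7db47_al.OB

open Function

universe v

variable {R : Type v} [Ring R] {Φ : ℕ → AddSubgroup R} [Flt Φ] {G : Type} [Group G] {V : Type}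
  [MulAction G V] {ι : Type} {u : ι → Rˣ}

lemma Ctrl.le {M : Obj V} {a b : Matrix M.I M.I (MonoidAlgebra R G)} (h : Ctrl Φ M a)
    (k : ∀ i j, b i j = a i j ∨ b i j = 0) : Ctrl Φ M b := by
  have k1 : ∀ {i j g}, (b i j).coeff g ≠ 0 → (a i j).coeff g ≠ 0 := fun {i j g} c =>
    (k i j).elim (fun d => d ▸ c) fun d => absurd (by rw [d]; rfl) c
  obtain ⟨⟨d, h1⟩, ⟨F, h2, h3⟩, ⟨α, h4⟩, h5⟩ := h
  refine ⟨⟨d, fun i j g => (k i j).elim (fun c => c ▸ h1 i j g) fun c => c ▸ zero_mem _⟩,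
    ⟨F, h2, fun i j g c => h3 i j g (k1 c)⟩, ⟨α, fun i j c => h4 i j ?_⟩,
    fun ε hε => (h5 ε hε).imp fun _ c i j g e => c i j g (k1 e)⟩
  exact (k i j).elim (fun d => d ▸ c) fun d => absurd d c

lemma ss_hat' {M : Obj V} {e : M.I → Ix V} (he : Injective e) (ht : ∀ i, M.t i = (e i).t)
    (hx : ∀ i, M.x i = (e i).p.1) {a : Matrix M.I M.I (MonoidAlgebra R G)} (ha : Ctrl Φ M a) :
    hat he (opOf a ha.fin) ∈ SS Φ G V := by
  have h0 : Ctrl Φ M (0 : Matrix M.I M.I (MonoidAlgebra R G)) := ha.le fun _ _ => Or.inr rfl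
  have := sub_mem (ss_hat he ht hx ha) (ss_hat he ht hx h0)
  rwa [sub_sub_sub_cancel_right, show opOf _ h0.fin = 0 from ent_inj (ent_opOf _ _),
    show hat he (0 : Op (MonoidAlgebra R G) M.I M.I) = 0 from FF.ext fun _ => map_zero (push _ e),
    sub_zero] at this

lemma exists_blk {Y : Raw R G V} {J : Type} [Fintype J] [DecidableEq J] (s : J → Unit × ℤ)
    {δ : Y.M.I → J} (hδ : ∀ i, Y.deg i = (s (δ i)).2) {e : Y.M.I → Ix V} (he : Injective e)
    (ht : ∀ i, Y.M.t i = (e i).t) (hx : ∀ i, Y.M.x i = (e i).p.1) {d : ℤ}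
    {a : Matrix Y.M.I Y.M.I (MonoidAlgebra R G)} (ha : Y.Mor Φ d a) :
    ∃ A, KN.Hm (ssF Φ G V) d s s A ∧ Supp (fun i => (δ i, e i)) A ∧
      (big A).submatrix (fun i => (δ i, e i)) (fun i => (δ i, e i)) = a := by
  have h1 : ∀ n m : J, Ctrl Φ Y.M (Matrix.of fun i j => if δ i = n ∧ δ j = m then a i j else 0) :=
    fun n m => ha.1.le fun i j => by
      rw [Matrix.of_apply]
      split_ifs
      exacts [Or.inl rfl, Or.inr rfl]
  let A : Matrix J J (FF R G V) := fun n m => hat he (opOf _ (h1 n m).fin)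
  have h2 : ∀ n m i j, big A (n, e i) (m, e j) = if δ i = n ∧ δ j = m then a i j else 0 :=
    fun n m i j => (ent_hat he _ i j).trans (congrFun (congrFun (ent_opOf _ _) i) j)
  have h3 : ∀ y z, big A y z ≠ 0 → ∃ i j, (δ i, e i) = y ∧ (δ j, e j) = z ∧ a i j ≠ 0 := by
    rintro ⟨n, y⟩ ⟨m, z⟩ c
    obtain ⟨g, hg⟩ := ne_coeff c
    obtain ⟨i, j, rfl, rfl, -⟩ :=
      Sp.hat he (E := fun _ _ _ => True) (fun _ _ _ _ => trivial) y z g hg
    rw [h2] at c
    split_ifs at c with k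
    · exact ⟨i, j, by rw [k.1], by rw [k.2], c⟩
    · exact absurd rfl c
  refine ⟨A, fun n m => ⟨ss_hat' he ht hx (h1 n m), fun c => ?_⟩, fun y z c => ?_,
    Matrix.ext fun i j => (h2 _ _ i j).trans (if_pos ⟨rfl, rfl⟩)⟩
  · by_contra k
    refine c (ent_inj (Matrix.ext fun y z => by_contra fun l => k ?_))
    obtain ⟨i, j, a1, a2, a3⟩ := h3 (n, y) (m, z) l
    rw [← (Prod.mk.inj a1).1, ← (Prod.mk.inj a2).1, ← hδ, ← hδ]
    exact ha.2 i j a3
  · obtain ⟨i, j, a1, a2, -⟩ := h3 y z c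
    exact ⟨⟨i, a1⟩, j, a2⟩

variable [Fintype ι]

lemma exists_cx {Y : Raw R G V} (hY : Y.IsN Φ u) :
    ∃ X e, KN.Obj (ssF Φ G V) (scS G V u) Finset.univ X ∧ Pres X Y e := by
  obtain ⟨e, he, ht, hx⟩ := exists_emb Y.M
  let δ : Y.M.I → hY.bd.toFinset := fun i => ⟨Y.deg i, hY.bd.mem_toFinset.2 ⟨i, rfl⟩⟩
  let s : hY.bd.toFinset → Unit × ℤ := fun n => ((), n.1)
  have hE : Injective fun i => (δ i, e i) := fun _ _ c => he (congrArg Prod.snd c)
  obtain ⟨p, p1, p2, p3⟩ := exists_blk s (δ := δ) (fun _ => rfl) he ht hx hY.hp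
  obtain ⟨D, d1, d2, d3⟩ := exists_blk s (δ := δ) (fun _ => rfl) he ht hx hY.hD
  refine ⟨⟨hY.bd.toFinset, s, p, D⟩, _, ⟨⟨p1, d1, (p2.mul p2).ext p2 ?_, (p2.mul d2).ext d2 ?_,
    (d2.mul p2).ext d2 ?_, (d2.mul d2).ext supp_zero ?_⟩, fun i _ => ?_⟩,
    hE, ht, hx, fun _ => rfl, p3.symm, d3.symm, p2⟩
  · rw [← mul_big hE p2, p3, hY.pp]
  · rw [← mul_big hE p2, p3, d3, hY.pD]
  · rw [← mul_big hE d2, p3, d3, hY.Dp]
  · rw [← mul_big hE d2, d3, hY.DD]
    rfl
  · obtain ⟨n, k, k1, k2⟩ := hY.tor i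
    obtain ⟨h, h1, h2, h3⟩ := exists_blk s (δ := δ) (fun _ => rfl) he ht hx k1
    refine ⟨_, ⟨n, (map_pow _ _ _).symm⟩, h, h1,
      ((d2.mul h2).add (h2.mul d2)).ext (p2.sc _) ?_⟩
    rw [big_add, Matrix.submatrix_add, Pi.add_apply, Pi.add_apply, ← mul_big hE d2,
      ← mul_big hE h2, d3, h3, k2, ← p3]
    rfl

/-- Vanishing over the small operators gives vanishing over the obstruction category. -/
theorem k0zero (hu : ∀ i x, (u i : R) * x = x * u i) (hm : ∀ i, ∃ d, (u i : R) ∈ Φ d)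
    (h : KN.NullAll (ssF Φ G V) (scS G V u) Finset.univ) : K0Zero Φ G V u := by
  classical
  let κ : KN.Cx (FF R G V) Unit → _ := fun X =>
    if c : ∃ Y e, Pres X Y e then cl Φ u c.choose else 0
  have k : ∀ {X Y e}, KN.Obj (ssF Φ G V) (scS G V u) Finset.univ X → Pres X Y e →
      κ X = cl Φ u Y := fun {X Y e} hX c => by
    have c' : ∃ Y e, Pres X Y e := ⟨Y, e, c⟩
    exact (dif_pos c').trans (cl_eq hu c'.choose_spec.choose_spec c hX)
  intro Y hY
  obtain ⟨X, e, hX, c⟩ := exists_cx hY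
  refine (QuotientAddGroup.eq_zero_iff _).1 ((k hX c).symm.trans
    ((h X hX).inv (ss_good hu hm) (fun X X' t a b ht => ?_) (fun X a b => ?_) hX))
  · obtain ⟨Y, e, c⟩ := exists_pres a.ok
    obtain ⟨Y', e', c'⟩ := exists_pres b.ok
    obtain ⟨W, E, d, d'⟩ := c.ext c' t
    have o := a.ext (ss_good hu hm) ht b
    rw [k a c, k b c', k o d, cl_ext (c.isN hu a) (d.isN hu o) (c'.isN hu b) d']
  · obtain ⟨Y, e, c⟩ := exists_pres a
    rw [k ⟨a, b.tor⟩ c, cl_null (c.isN hu ⟨a, b.tor⟩) (c.null_one a b)]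

/-- The conclusion, from the vanishing theorem over spiders. -/
theorem k0zero_fj (hu : ∀ i x, (u i : R) * x = x * u i) (hm : ∀ i, ∃ d, (u i : R) ∈ Φ d)
    (hv : ∀ (Δ : Type) [Group Δ] [MulSemiringAction Δ (FF R G V × FF R G V)]
      [(coef G V hu).Inv Δ] (N : ℕ), KN.VN Δ (coef G V hu) N)
    {Γ : Type} [Group Γ] (hΓ : VD.FJ Γ) (f : G →* Γ)
    (hV : ∀ (B : Subgroup Γ) (φ : B →* Multiplicative ℤ), Finite φ.ker →
      ∃ v : V, ∀ g, f g ∈ B → g • v = v) : K0Zero Φ G V u :=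
  k0zero hu hm (ss_null_fj hu (fun Δ _ _ _ I K _ hQ =>
    ⟨KN.mkVT ((coef G V hu).sca I) (KN.van_of_vn (hv Δ) hQ I K), rfl⟩) hΓ f hV
    ⟨Φ, inferInstance, hm⟩ _)

end Pool.Agent.MP_f7db47_al.OB

end
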