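import Pool.Agent.Mg.Ff7db47n.N1
import Pool.Agent.Mg.Ff7db47.Gea59e8
import Pool.Agent.Mg.Ff7db47n.N2

section

/-!
Folding of index sets and germs of sequences: definitions.
-/

namespace Pool.Agent.MP_f7db47_al.KN

open Matrix Filter OB

universe v w

section

variable {A : Type v} [Ring A] {Λ ι : Type}

/-- The elements of `H` between labels in `U`. -/
def rs (H : Fam A Λ) (U : Set Λ) : Fam A Λ := fun a b =>
  { carrier := {x | x ∈ H a b ∧ (x ≠ 0 → a ∈ U ∧ b ∈ U)}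
    zero_mem' := ⟨zero_mem _, fun h => absurd rfl h⟩
    add_mem' := fun {x y} h h' => ⟨add_mem h.1 h'.1, fun e => by
      by_cases e1 : x = 0
      · exact h'.2 fun e2 => e (by rw [e1, e2, add_zero])
      · exact h.2 e1⟩
    neg_mem' := fun {x} h => ⟨neg_mem h.1, fun e => h.2 fun e1 => e (by rw [e1, neg_zero])⟩ }

/-- The idempotent is diagonal with entries in `E`. -/
def StdE (E : Set A) (X : Cx A Λ) : Prop := (∀ i j, i ≠ j → X.p i j = 0) ∧ ∀ i, X.p i i ∈ E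

/-- Products of `H₁` and `H₂` lie in `H₃`. -/
def Mul3 (H₁ H₂ H₃ : Fam A Λ) : Prop :=
  ∀ ⦃a b c : Λ⦄ ⦃x y : A⦄, x ∈ H₁ a b → y ∈ H₂ b c → x * y ∈ H₃ a c

/-- A fully faithful functor that extends to a labelled ring `T`. -/
structure Fn.FF {A' : Type w} [Ring A'] {Λ' : Type} {H : Fam A Λ} {G : Fam A' Λ'} (Φ : Fn H G)
    (T : Fam A Λ) : Prop where
  lr : LR T
  le : H ≤ T
  mul : ∀ ⦃a b c x y⦄, x ∈ T a b → y ∈ T b c → Φ.F a c (x * y) = Φ.F a b x * Φ.F b c y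
  inj : ∀ ⦃a b x y⦄, x ∈ T a b → y ∈ T a b → Φ.F a b x = Φ.F a b y → x = y
  surj : ∀ a b (M : Matrix (Φ.κ a) (Φ.κ b) A'), (∀ i j, M i j ∈ G (Φ.lab a i) (Φ.lab b j)) →
    ∃ x ∈ H a b, Φ.F a b x = M

/-- The integers of absolute value at most `L`. -/
abbrev Bx (L : ℕ) : Type := Set.Icc (-(L : ℤ)) L

/-- A complex with one index in each degree. -/
@[reducible] noncomputable def box (L : ℕ) (μ : Bx L → Λ) (p D : Matrix (Bx L) (Bx L) A) : Cx A Λ where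
  J := Bx L
  t b := (μ b, b.1)
  p := p
  D := D

/-- A certificate whose three complexes have one index in each degree. -/
def CertB (H : Fam A Λ) (S : ι → Submonoid A) (K : Finset ι) (L : ℕ) (X : Cx A Λ) : Prop :=
  ∃ (a b c : Bx L → Λ) (p D q E r F t t' : Matrix (Bx L) (Bx L) A),
    Simd H S K Set.univ (box L a p D) (box L b q E) (box L c r F) t t' ∧
    HE H ((box L a p D).ext (box L b q E) t) (X.sum (box L c r F)) ∧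
    HE H ((box L a p D).ext (box L b q E) t') (box L c r F)

/-- Finite lists of labels. -/
structure Lab (Λ : Type) : Type where
  n : ℕ
  l : Fin n → Λ

instance : Nonempty (Lab Λ) := ⟨⟨0, Fin.elim0⟩⟩

/-- Column finite matrices. -/
def Opn (A : Type v) [Ring A] : Type v := Op A ℕ ℕ

noncomputable instance : Ring (Opn A) := inferInstanceAs (Ring (Module.End Aᵐᵒᵖ (ℕ →₀ A)))

/-- The entries. -/
noncomputable def en (x : Opn A) : Matrix ℕ ℕ A := ent (show Op A ℕ ℕ from x)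

theorem en_inj {x y : Opn A} (h : en x = en y) : x = y := ent_inj h

theorem en_zero : en (0 : Opn A) = 0 := rfl

theorem en_add (x y : Opn A) : en (x + y) = en x + en y := rfl

theorem en_neg (x : Opn A) : en (-x) = -en x := rfl

theorem en_sub (x y : Opn A) : en (x - y) = en x - en y := rfl

theorem en_one : en (1 : Opn A) = 1 := ent_id

theorem en_mul (x y : Opn A) (i k : ℕ) : en (x * y) i k = ∑ᶠ j, en x i j * en y j k :=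
  ent_comp' (show Op A ℕ ℕ from x) (show Op A ℕ ℕ from y) i k

theorem exists_en (a : Matrix ℕ ℕ A) (h : ∀ j, {i | a i j ≠ 0}.Finite) : ∃ x : Opn A, en x = a :=
  ⟨opOf a h, ent_opOf a h⟩

/-- Finite matrices with entries in `H`. -/
def fold (H : Fam A Λ) : Fam (Opn A) (Lab Λ) := fun a b =>
  { carrier := {x | (∀ (i : Fin a.n) (j : Fin b.n), en x i j ∈ H (a.l i) (b.l j)) ∧
      ∀ m n, en x m n ≠ 0 → m < a.n ∧ n < b.n}
    zero_mem' := ⟨fun _ _ => zero_mem _, fun _ _ h => absurd rfl h⟩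
    add_mem' := fun {x y} h h' => ⟨fun i j => add_mem (h.1 i j) (h'.1 i j), fun m n e => by
      by_cases e1 : en x m n = 0
      · exact h'.2 m n fun e2 => e (by rw [en_add, Matrix.add_apply, e1, e2, add_zero])
      · exact h.2 m n e1⟩
    neg_mem' := fun {x} h => ⟨fun i j => neg_mem (h.1 i j), fun m n e => h.2 m n fun e1 =>
      e (by rw [en_neg, Matrix.neg_apply, e1, neg_zero])⟩ }

/-- The functor that reads off the entries. -/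
@[reducible] noncomputable def unfFn (H : Fam A Λ) : Fn (fold H) H where
  κ a := Fin a.n
  lab a := a.l
  F a b := AddMonoidHom.mk' (fun x => Matrix.of fun (i : Fin a.n) (j : Fin b.n) => en x i j)
    fun _ _ => rfl
  mem _ _ _ h := h.1
  mul a b c x y hx _ := by
    ext i k
    change en (x * y) i k = ∑ j : Fin b.n, en x i j * en y j k
    rw [en_mul, Fin.sum_univ_eq_sum_range (fun j => en x i j * en y j k)]
    refine finsum_eq_sum_of_support_subset _ fun j hj => ?_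
    exact Finset.mem_coe.2 (Finset.mem_range.2 (hx.2 i j (left_ne_zero_of_mul hj)).2)

/-- The unfolded complex. -/
@[reducible] noncomputable def unf (X : Cx (Opn A) (Lab Λ)) : Cx A Λ := (unfFn ⊤).obj X

/-- The unfolded matrix. -/
noncomputable abbrev unfM {I J : Type} (s : I → Lab Λ × ℤ) (t : J → Lab Λ × ℤ)
    (f : Matrix I J (Opn A)) : Matrix (Σ i, Fin (s i).1.n) (Σ j, Fin (t j).1.n) A :=
  (unfFn ⊤).mat s t f

theorem unf_eq (H : Fam A Λ) (X : Cx (Opn A) (Lab Λ)) : (unfFn H).obj X = unf X := rfl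

variable (A) in
/-- Scalar matrices. -/
noncomputable def sc : A →+* Opn A := Module.toModuleEnd Aᵐᵒᵖ (ℕ →₀ A)

theorem en_sc (a : A) (x : Opn A) (m n : ℕ) : en (sc A a * x) m n = a * en x m n := rfl

/-- The monoids of scalar matrices. -/
noncomputable def fS (S : ι → Submonoid A) : ι → Submonoid (Opn A) := fun a => (S a).map (sc A)

variable (A) in
/-- Coordinate projections. -/
def CP : Set (Opn A) :=
  {x | ∀ m n, (m ≠ n → en x m n = 0) ∧ (en x m m = 1 ∨ en x m m = 0)}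

end

section

variable {B : Type v} [Ring B] {Λ : ℕ → Type} {ι : Type}

/-- Germs of sequences. -/
abbrev Gm (B : Type v) : Type v := Germ (atTop : Filter ℕ) B

/-- Germs of sequences of bounded level. -/
def gH (𝓗 : ∀ ν, ℕ → Fam B (Λ ν)) : Fam (Gm B) (∀ ν, Λ ν) := fun a b =>
  { carrier := {x | ∃ f : ℕ → B, x = ↑f ∧
      ∀ᶠ k in atTop, ∀ᶠ ν in atTop, f ν ∈ 𝓗 ν k (a ν) (b ν)}
    zero_mem' := ⟨0, rfl, .of_forall fun _ => .of_forall fun _ => zero_mem _⟩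
    add_mem' := by
      rintro _ _ ⟨f, rfl, h⟩ ⟨g, rfl, h'⟩
      exact ⟨f + g, rfl, (h.and h').mono fun _ c => (c.1.and c.2).mono fun _ d => add_mem d.1 d.2⟩
    neg_mem' := by
      rintro _ ⟨f, rfl, h⟩
      exact ⟨-f, rfl, h.mono fun _ c => c.mono fun _ d => neg_mem d⟩ }

/-- Germs of sequences in a set. -/
def gE (E : Set B) : Set (Gm B) := {x | ∃ f : ℕ → B, x = ↑f ∧ ∀ᶠ ν in atTop, f ν ∈ E}

/-- Germs of sequences in the monoids. -/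
def gS (S : ι → Submonoid B) : ι → Submonoid (Gm B) := fun a =>
  { carrier := gE (S a)
    one_mem' := ⟨1, rfl, .of_forall fun _ => one_mem _⟩
    mul_mem' := by
      rintro _ _ ⟨f, rfl, h⟩ ⟨g, rfl, h'⟩
      exact ⟨f * g, rfl, (h.and h').mono fun _ d => mul_mem d.1 d.2⟩ }

/-- The germ of a sequence of matrices. -/
def gm {I J : Type} (f : ℕ → Matrix I J B) : Matrix I J (Gm B) :=
  Matrix.of fun i j => ((fun ν => f ν i j : ℕ → B) : Gm B)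

/-- A sequence of complexes of the same shape. -/
structure SX (B : Type v) [Ring B] (Λ : ℕ → Type) : Type (max 1 v) where
  J : Type
  [fin : Fintype J]
  [dec : DecidableEq J]
  t : J → (∀ ν, Λ ν) × ℤ
  p : ℕ → Matrix J J B
  D : ℕ → Matrix J J B

attribute [instance] SX.fin SX.dec

/-- The germ. -/
@[reducible] def SX.germ (X : SX B Λ) : Cx (Gm B) (∀ ν, Λ ν) where
  J := X.J
  t := X.t
  p := gm X.p
  D := gm X.D

/-- The terms. -/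
@[reducible] def SX.tm (X : SX B Λ) (ν : ℕ) : Cx B (Λ ν) where
  J := X.J
  t j := ((X.t j).1 ν, (X.t j).2)
  p := X.p ν
  D := X.D ν

/-- The extension. -/
@[reducible] def SX.ext (X Y : SX B Λ) (t : ℕ → Matrix X.J Y.J B) : SX B Λ where
  J := X.J ⊕ Y.J
  t := Sum.elim X.t Y.t
  p ν := fromBlocks (X.p ν) 0 0 (Y.p ν)
  D ν := fromBlocks (X.D ν) (t ν) 0 (Y.D ν)

/-- A sequence of complexes with one index in each degree. -/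
@[reducible] noncomputable def SX.box (L : ℕ) (μ : ∀ ν, Bx L → Λ ν) (p D : ℕ → Matrix (Bx L) (Bx L) B) :
    SX B Λ where
  J := Bx L
  t b := (fun ν => μ ν b, b.1)
  p := p
  D := D

theorem SX.tm_box (L : ℕ) (μ : ∀ ν, Bx L → Λ ν) (p D : ℕ → Matrix (Bx L) (Bx L) B) (ν : ℕ) :
    (SX.box L μ p D).tm ν = KN.box L (μ ν) (p ν) (D ν) := rfl

end

section

variable {A : Type v} [Ring A] {Λ : ℕ → Type} {ι : Type}

/-- Germs of folded families. -/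
noncomputable abbrev gF (𝓗 : ∀ ν, ℕ → Fam A (Λ ν)) : Fam (Gm (Opn A)) (∀ ν, Lab (Λ ν)) :=
  gH fun ν k => fold (𝓗 ν k)

/-- Uniform standard forms along a sequence. -/
def SQ (𝓗 : ∀ ν, ℕ → Fam A (Λ ν)) : Prop :=
  ∀ k L : ℕ, ∃ k' L' : ℕ, ∀ᶠ ν in atTop, ∀ X, Ok (𝓗 ν k) X → Bd L X →
    ∃ Y, Ok (𝓗 ν k') Y ∧ Std Y ∧ Bd L' Y ∧ HE (𝓗 ν k') X Y

/-- Uniform certificates along a sequence. -/
def CQ (𝓗 : ∀ ν, ℕ → Fam A (Λ ν)) (S : ι → Submonoid A) (K : Finset ι) : Prop :=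
  ∀ k L : ℕ, ∃ k' L' : ℕ, ∀ᶠ ν in atTop, Qt (𝓗 ν k) (𝓗 ν k') S K Std L L'

/-- Neighbourhoods of a region. -/
structure Reg (𝓗 : ∀ ν, ℕ → Fam A (Λ ν)) (U : ∀ ν, ℕ → Set (Λ ν)) : Prop where
  mono : ∀ ν, Monotone (U ν)
  spread : ∀ ν j k ⦃a b x⦄, x ∈ 𝓗 ν j a b → x ≠ 0 →
    (a ∈ U ν k → b ∈ U ν (k + j)) ∧ (b ∈ U ν k → a ∈ U ν (k + j))

/-- The families supported near a region. -/
abbrev rsq (𝓗 : ∀ ν, ℕ → Fam A (Λ ν)) (U : ∀ ν, ℕ → Set (Λ ν)) : ∀ ν, ℕ → Fam A (Λ ν) :=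
  fun ν k => rs (𝓗 ν k) (U ν k)

end

end Pool.Agent.MP_f7db47_al.KN

end

section

/-!
Restriction to a set of labels, change of labels, extensions of certificates.
-/

namespace Pool.Agent.MP_f7db47_al.KN

open Matrix

universe v w

variable {A : Type v} [Ring A] {Λ Λ' ι : Type} {H H' : Fam A Λ} {S : ι → Submonoid A}
  {K : Finset ι} {W : Set ℤ} {X X' Y : Cx A Λ} {w : A}

theorem rs_le (H : Fam A Λ) (U : Set Λ) : rs H U ≤ H := fun _ _ _ h => h.1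

theorem rs_mono {U U' : Set Λ} (h : H ≤ H') (hU : U ⊆ U') : rs H U ≤ rs H' U' :=
  fun _ _ _ c => ⟨h _ _ c.1, fun e => ⟨hU (c.2 e).1, hU (c.2 e).2⟩⟩

theorem Gr.rs {𝓗 : ℕ → Fam A Λ} (h : Gr 𝓗 S) {U : ℕ → Set Λ} (hU : Monotone U) :
    Gr (fun k => rs (𝓗 k) (U k)) S :=
  ⟨fun _ _ e => rs_mono (h.mono e) (hU e), fun k k' _ _ _ _ _ hx hy => ⟨h.mul hx.1 hy.1, fun e =>
    ⟨hU (Nat.le_add_right k k') (hx.2 (left_ne_zero_of_mul e)).1,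
      hU (Nat.le_add_left k' k) (hy.2 (right_ne_zero_of_mul e)).2⟩⟩, h.cen,
    fun a w hw _ _ _ _ hx => ⟨h.stab a w hw hx.1, fun e => hx.2 (right_ne_zero_of_mul e)⟩⟩

theorem IsLoc.rs (hU : Uni S) {a : ι} (h : IsLoc H (S a) H') (U : Set Λ) :
    IsLoc (rs H U) (S a) (rs H' U) := fun i j x =>
  ⟨fun c => ((h i j x).1 c.1).imp fun _ d =>
      ⟨d.1, d.2, fun e => c.2 (right_ne_zero_of_mul e)⟩,
    fun ⟨w, hw, c⟩ => ⟨(h i j x).2 ⟨w, hw, c.1⟩, fun e =>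
      c.2 fun d => e ((hU a w hw).mul_right_eq_zero.1 d)⟩⟩

theorem Sub.std (h : Sub X' X) (hX : Std X) : Std X' := by
  obtain ⟨e, he, -, hp, -⟩ := h
  rw [Std, hp]
  exact ⟨fun i j c => hX.1 _ _ fun d => c (he d), fun i => hX.2 _⟩

theorem Sub.std' (h : Sub X' X) (hX : Std X') : Std X := by
  obtain ⟨e, -, -, hp, -, sp, -⟩ := h
  rw [Std, hp] at hX
  refine ⟨fun i j c => by_contra fun d => ?_, fun i => or_iff_not_imp_right.2 fun d => ?_⟩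
  · obtain ⟨⟨a, rfl⟩, b, rfl⟩ := sp i j d
    exact d (hX.1 a b fun u => c (congrArg e u))
  · obtain ⟨⟨a, rfl⟩, -⟩ := sp i i d
    exact (hX.2 a).resolve_right d

/-- An object that is supported on `U` comes from an object with labels in `U`. -/
theorem restr {U : Set Λ} (hX : Obj (rs H U) S K X) :
    ∃ X' : Cx A U, Obj (fun a b : U => H a b) S K X' ∧ Sub (X'.lab Subtype.val) X := by
  classical
  have s := Sub.res hX.ok (fun j => (X.t j).1 ∈ U) fun i j c => (hX.ok.hp i j).1.2 c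
  have o := (s.obj_iff.2 hX).mono (rs_le H U)
  exact ⟨{ J := {j // (X.t j).1 ∈ U}
           t := fun j => (⟨_, j.2⟩, (X.t j).2)
           p := X.p.submatrix Subtype.val Subtype.val
           D := X.D.submatrix Subtype.val Subtype.val },
    ⟨⟨o.ok.hp, o.ok.hD, o.ok.pp, o.ok.pD, o.ok.Dp, o.ok.DD⟩, o.tor⟩, s⟩

theorem obj_empty : Obj H S ∅ X ↔ Ok H X :=
  ⟨fun h => h.ok, fun h => ⟨h, fun a ha => absurd ha (Finset.notMem_empty a)⟩⟩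

section

variable {G : Fam A Λ'} {π : Λ → Λ'}

theorem Tw.relab (hπ : ∀ ⦃a b x⦄, x ∈ H a b → x ∈ G (π a) (π b)) {t : Matrix X.J Y.J A}
    (h : Tw H X Y t) : Tw G (X.lab π) (Y.lab π) t := ⟨⟨h.hm.lab hπ, h.pl, h.pr⟩, h.cm⟩

theorem HE.relab (hπ : ∀ ⦃a b x⦄, x ∈ H a b → x ∈ G (π a) (π b)) (h : HE H X Y) :
    HE G (X.lab π) (Y.lab π) := by
  obtain ⟨f, g, a, b, c⟩ := h
  exact ⟨f, g, a, b, ⟨⟨c.hf.hm.lab hπ, c.hf.pl, c.hf.pr⟩, c.hf.cm⟩,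
    ⟨⟨c.hg.hm.lab hπ, c.hg.pl, c.hg.pr⟩, c.hg.cm⟩, c.hh.lab hπ, c.hk.lab hπ, c.gf, c.fg⟩

theorem lab_ext (π : Λ → Λ') (t : Matrix X.J Y.J A) :
    (X.ext Y t).lab π = (X.lab π).ext (Y.lab π) t :=
  congrArg (fun s => Cx.mk (X.J ⊕ Y.J) s (fromBlocks X.p 0 0 Y.p) (fromBlocks X.D t 0 Y.D))
    (by funext j; rcases j with j | j <;> rfl)

theorem Cert.relab (hπ : ∀ ⦃a b x⦄, x ∈ H a b → x ∈ G (π a) (π b)) (h : Cert H S K W X) :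
    Cert G S K W (X.lab π) := by
  obtain ⟨P, Q, B, t, t', c, e, e'⟩ := h
  have a := e.relab hπ
  have a' := e'.relab hπ
  rw [lab_ext, lab_ext] at a
  rw [lab_ext] at a'
  exact ⟨P.lab π, Q.lab π, B.lab π, t, t', ⟨c.oP.lab hπ, c.oQ.lab hπ, c.oB.lab hπ, c.wP, c.wQ,
    c.wB, c.ht.relab hπ, c.ht'.relab hπ⟩, a, a'⟩

end

/-- Sums of objects; no products are needed. -/
theorem Obj.sum_sc (hS : ∀ a, ∀ w ∈ S a, Sc H w) (h : Obj H S K X) (h' : Obj H S K Y) :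
    Obj H S K (X.sum Y) := by
  refine ⟨h.ok.sum h'.ok, fun a ha => ?_⟩
  obtain ⟨u, hu, c⟩ := h.tor a ha
  obtain ⟨u', hu', c'⟩ := h'.tor a ha
  obtain ⟨s, s1, s2⟩ := c.smul (hS a u' hu')
  obtain ⟨s', s1', s2'⟩ := c'.smul (hS a u hu)
  rw [(hS a u hu).1] at s2'
  exact ⟨u' * u, mul_mem hu' hu, fromBlocks s 0 0 s',
    Hm.blocks s1 (Hm.zero _ _) (Hm.zero _ _) s1',
    by simp [fromBlocks_multiply, fromBlocks_add, fromBlocks_smul, s2, s2']⟩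

/-- Extensions of trivial objects; no products are needed. -/
theorem Cert.ext_sc (hS : ∀ a, ∀ w ∈ S a, Sc H w) (hX : Obj H S K X) (hY : Obj H S K Y)
    (wX : Wd W X) (wY : Wd W Y) {t : Matrix X.J Y.J A} (ht : Tw H X Y t) (h : Cert H S K W X)
    (h' : Cert H S K W Y) : Cert H S K W (X.ext Y t) := by
  obtain ⟨P, Q, B, s, s', c, e, e'⟩ := h
  obtain ⟨P₂, Q₂, B₂, r, r', d, f, f'⟩ := h'
  have u := sub_ext_sum (X := X) (X' := Y) (Y := B) (Y' := B₂) 0 0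
  rw [fromBlocks_zero] at u
  exact ⟨(P.sum P₂).sum X, (Q.sum Q₂).sum Y, (X.sum B).sum (Y.sum B₂), _, _,
    ⟨(c.oP.sum_sc hS d.oP).sum_sc hS hX, (c.oQ.sum_sc hS d.oQ).sum_sc hS hY,
      (hX.sum_sc hS c.oB).sum_sc hS (hY.sum_sc hS d.oB), (c.wP.ext d.wP _).ext wX _,
      (c.wQ.ext d.wQ _).ext wY _, (wX.ext c.wB _).ext (wY.ext d.wB _) _,
      tw_sum (tw_sum c.ht d.ht) ht, tw_sum (tw_sum c.ht' d.ht') (Tw.zero _ _)⟩,
    ((sub_ext_sum _ _).trans ((sub_ext_sum _ _).sum (Sub.refl _))).he_left.2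
      ((sub_sum_comm _ _).he_right.2 ((e.sum f).sum (HE.refl (hX.ok.ext hY.ok ht)))),
    ((sub_ext_sum _ _).trans ((sub_ext_sum _ _).sum (Sub.refl _))).he_left.2
      (((sub_sum_comm _ _).trans u).he_right.1 ((e'.sum f').sum (HE.refl (hX.ok.sum hY.ok))))⟩

theorem f0_he [IsEmpty X.J] [IsEmpty Y.J] : HE H X Y :=
  ⟨0, 0, 0, 0, Ch.zero _ _, Ch.zero _ _, Hm.zero _ _, Hm.zero _ _,
    Matrix.ext fun i => isEmptyElim i, Matrix.ext fun i => isEmptyElim i⟩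

theorem Cert.of_empty [IsEmpty X.J] : Cert H S K W X :=
  ⟨Cx.zero A Λ, Cx.zero A Λ, Cx.zero A Λ, 0, 0, ⟨Obj.zero, Obj.zero, Obj.zero, fun j => j.elim,
    fun j => j.elim, fun j => j.elim, Tw.zero _ _, Tw.zero _ _⟩, f0_he, f0_he⟩

end Pool.Agent.MP_f7db47_al.KN

end

section

/-!
Germs of sequences of matrices.
-/

namespace Pool.Agent.MP_f7db47_al.KN

open Matrix Filter

universe v w

variable {B : Type v} [Ring B] {Λ : ℕ → Type} {ι : Type} {𝓗 𝓗' : ∀ ν, ℕ → Fam B (Λ ν)}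
  {S : ι → Submonoid B} {K : Finset ι} {I J M : Type} {X Y : SX B Λ}

theorem g1_rep (x : Gm B) : ∃ f : ℕ → B, (↑f : Gm B) = x := Germ.inductionOn x fun f => ⟨f, rfl⟩

theorem g1_ev {P : ℕ → ℕ → Prop} (hP : ∀ k k' ν, k ≤ k' → P k ν → P k' ν) :
    (∀ᶠ k in atTop, ∀ᶠ ν in atTop, P k ν) ↔ ∃ k, ∀ᶠ ν in atTop, P k ν :=
  ⟨fun h => h.exists, fun ⟨k, h⟩ =>
    (eventually_ge_atTop k).mono fun k' hk => h.mono fun ν => hP k k' ν hk⟩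

theorem g1_and {P Q : ℕ → ℕ → Prop} (h : ∀ᶠ k in atTop, ∀ᶠ ν in atTop, P k ν)
    (h' : ∀ᶠ k in atTop, ∀ᶠ ν in atTop, Q k ν) :
    ∀ᶠ k in atTop, ∀ᶠ ν in atTop, P k ν ∧ Q k ν := (h.and h').mono fun _ c => c.1.and c.2

theorem gm_surj (f : Matrix I J (Gm B)) : ∃ g, gm g = f := by
  choose g hg using fun i j => g1_rep (f i j)
  exact ⟨fun ν => Matrix.of fun i j => g i j ν, Matrix.ext hg⟩

theorem gm_eq [Finite I] [Finite J] {f g : ℕ → Matrix I J B} :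
    gm f = gm g ↔ ∀ᶠ ν in atTop, f ν = g ν := by
  simp only [← Matrix.ext_iff, eventually_all]
  exact forall₂_congr fun i j => Germ.coe_eq

theorem gm_zero : gm (fun _ => (0 : Matrix I J B)) = 0 := rfl

theorem gm_add (f g : ℕ → Matrix I J B) : gm f + gm g = gm fun ν => f ν + g ν := rfl

theorem gm_sub (f g : ℕ → Matrix I J B) : gm f - gm g = gm fun ν => f ν - g ν := rfl

theorem gm_mul [Fintype J] (f : ℕ → Matrix I J B) (g : ℕ → Matrix J M B) :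
    gm f * gm g = gm fun ν => f ν * g ν := by
  ext i k
  have h := map_sum (Germ.coeRingHom (R := B) (atTop : Filter ℕ))
    (fun j => (fun ν => f ν i j) * fun ν => g ν j k) Finset.univ
  refine h.symm.trans (congrArg (fun u : ℕ → B => (↑u : Gm B)) (funext fun ν => ?_))
  rw [Finset.sum_apply]
  rfl

theorem gm_smul (w : ℕ → B) (f : ℕ → Matrix I J B) :
    (↑w : Gm B) • gm f = gm fun ν => w ν • f ν := rfl

theorem g1_mem {a b : ∀ ν, Λ ν} {f : ℕ → B} :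
    (↑f : Gm B) ∈ gH 𝓗 a b ↔ ∀ᶠ k in atTop, ∀ᶠ ν in atTop, f ν ∈ 𝓗 ν k (a ν) (b ν) :=
  ⟨fun ⟨_, e, h⟩ => h.mono fun _ c => (c.and (Germ.coe_eq.1 e)).mono fun _ d => d.2 ▸ d.1,
    fun h => ⟨f, rfl, h⟩⟩

theorem g1_memE {E : Set B} {f : ℕ → B} : (↑f : Gm B) ∈ gE E ↔ ∀ᶠ ν in atTop, f ν ∈ E :=
  ⟨fun ⟨_, e, h⟩ => (h.and (Germ.coe_eq.1 e)).mono fun _ d => d.2 ▸ d.1, fun h => ⟨f, rfl, h⟩⟩

theorem g1_zero {f : ℕ → B} : (↑f : Gm B) = 0 ↔ ∀ᶠ ν in atTop, f ν = 0 :=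
  Germ.coe_eq (g := 0)

theorem g1_hm [Finite I] [Finite J] {d : ℤ}
    {s : I → (∀ ν, Λ ν) × ℤ} {t : J → (∀ ν, Λ ν) × ℤ} {f : ℕ → Matrix I J B} :
    Hm (gH 𝓗) d s t (gm f) ↔ ∀ᶠ k in atTop, ∀ᶠ ν in atTop,
      Hm (𝓗 ν k) d (fun i => ((s i).1 ν, (s i).2)) (fun j => ((t j).1 ν, (t j).2)) (f ν) := by
  simp only [Hm, eventually_all, eventually_and, eventually_const]
  refine forall₂_congr fun i j => and_congr g1_mem ?_
  by_cases e : (s i).2 = (t j).2 + d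
  · simp [e]
  · simp only [e, imp_false, not_not]
    exact g1_zero

theorem hm_gm [Finite I] [Finite J] (hm : ∀ ν, Monotone (𝓗 ν)) {d : ℤ}
    {s : I → (∀ ν, Λ ν) × ℤ} {t : J → (∀ ν, Λ ν) × ℤ} {f : ℕ → Matrix I J B} :
    Hm (gH 𝓗) d s t (gm f) ↔ ∃ k, ∀ᶠ ν in atTop,
      Hm (𝓗 ν k) d (fun i => ((s i).1 ν, (s i).2)) (fun j => ((t j).1 ν, (t j).2)) (f ν) :=
  g1_hm.trans (g1_ev fun _ _ ν c h => h.mono (hm ν c))

theorem SX.surj (Z : Cx (Gm B) (∀ ν, Λ ν)) : ∃ X : SX B Λ, X.germ = Z := by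
  obtain ⟨p, hp⟩ := gm_surj Z.p
  obtain ⟨D, hD⟩ := gm_surj Z.D
  refine ⟨⟨Z.J, Z.t, p, D⟩, ?_⟩
  cases Z
  simp only [SX.germ, hp, hD]

theorem g1_blocks {I' J' : Type} (a : ℕ → Matrix I J B) (b : ℕ → Matrix I J' B)
    (c : ℕ → Matrix I' J B) (d : ℕ → Matrix I' J' B) :
    (gm fun ν => fromBlocks (a ν) (b ν) (c ν) (d ν)) = fromBlocks (gm a) (gm b) (gm c) (gm d) := by
  ext (i | i) (j | j) <;> rfl

theorem SX.germ_ext (t : ℕ → Matrix X.J Y.J B) :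
    (X.ext Y t).germ = X.germ.ext Y.germ (gm t) := by
  simp only [SX.germ, SX.ext, Cx.ext, g1_blocks, gm_zero]

theorem SX.tm_ext (t : ℕ → Matrix X.J Y.J B) (ν : ℕ) :
    (X.ext Y t).tm ν = (X.tm ν).ext (Y.tm ν) (t ν) := by
  simp only [SX.tm, SX.ext, Cx.ext]
  congr 1
  funext j
  cases j <;> rfl

theorem g1_eq [Finite I] [Finite J] {f g : ℕ → Matrix I J B} :
    gm f = gm g ↔ ∀ᶠ _k : ℕ in atTop, ∀ᶠ ν in atTop, f ν = g ν := by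
  rw [eventually_const, gm_eq]

theorem g1_ok : Ok (gH 𝓗) X.germ ↔ ∀ᶠ k in atTop, ∀ᶠ ν in atTop, Ok (𝓗 ν k) (X.tm ν) := by
  have e : ∀ {A : Type v} [Ring A] {L : Type} (H : Fam A L) (Z : Cx A L), Ok H Z ↔
      Hm H 0 Z.t Z.t Z.p ∧ Hm H (-1) Z.t Z.t Z.D ∧ Z.p * Z.p = Z.p ∧ Z.p * Z.D = Z.D ∧
        Z.D * Z.p = Z.D ∧ Z.D * Z.D = 0 := fun H Z =>
    ⟨fun h => ⟨h.1, h.2, h.3, h.4, h.5, h.6⟩, fun ⟨a, b, c, d, e, f⟩ => ⟨a, b, c, d, e, f⟩⟩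
  simp only [e, eventually_and, g1_hm, gm_mul, ← gm_zero, g1_eq]

theorem g1_mp {d : ℤ} {f : ℕ → Matrix X.J Y.J B} : Mp (gH 𝓗) d X.germ Y.germ (gm f) ↔
    ∀ᶠ k in atTop, ∀ᶠ ν in atTop, Mp (𝓗 ν k) d (X.tm ν) (Y.tm ν) (f ν) := by
  have e : ∀ {A : Type v} [Ring A] {L : Type} (H : Fam A L) (Z W : Cx A L) f, Mp H d Z W f ↔
      Hm H d Z.t W.t f ∧ Z.p * f = f ∧ f * W.p = f := fun H Z W f =>
    ⟨fun h => ⟨h.1, h.2, h.3⟩, fun ⟨a, b, c⟩ => ⟨a, b, c⟩⟩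
  simp only [e, eventually_and, g1_hm, gm_mul, g1_eq]

theorem g1_ch {f : ℕ → Matrix X.J Y.J B} : Ch (gH 𝓗) X.germ Y.germ (gm f) ↔
    ∀ᶠ k in atTop, ∀ᶠ ν in atTop, Ch (𝓗 ν k) (X.tm ν) (Y.tm ν) (f ν) := by
  have e : ∀ {A : Type v} [Ring A] {L : Type} (H : Fam A L) (Z W : Cx A L) f, Ch H Z W f ↔
      Mp H 0 Z W f ∧ Z.D * f = f * W.D := fun H Z W f =>
    ⟨fun h => ⟨h.1, h.2⟩, fun ⟨a, b⟩ => ⟨a, b⟩⟩
  simp only [e, eventually_and, gm_mul, g1_eq]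
  exact and_congr g1_mp Iff.rfl

theorem g1_hed {f : ℕ → Matrix Y.J X.J B} {g : ℕ → Matrix X.J Y.J B} {h : ℕ → Matrix X.J X.J B}
    {l : ℕ → Matrix Y.J Y.J B} : HEd (gH 𝓗) X.germ Y.germ (gm f) (gm g) (gm h) (gm l) ↔
    ∀ᶠ k in atTop, ∀ᶠ ν in atTop, HEd (𝓗 ν k) (X.tm ν) (Y.tm ν) (f ν) (g ν) (h ν) (l ν) := by
  have e : ∀ {A : Type v} [Ring A] {L : Type} (H : Fam A L) (Z W : Cx A L) f g h l,
      HEd H Z W f g h l ↔ Ch H W Z f ∧ Ch H Z W g ∧ Hm H 1 Z.t Z.t h ∧ Hm H 1 W.t W.t l ∧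
        g * f + (Z.D * h + h * Z.D) = Z.p ∧ f * g + (W.D * l + l * W.D) = W.p :=
    fun H Z W f g h l =>
    ⟨fun h => ⟨h.1, h.2, h.3, h.4, h.5, h.6⟩, fun ⟨a, b, c, d, e, f⟩ => ⟨a, b, c, d, e, f⟩⟩
  simp only [e, eventually_and, g1_hm, gm_mul, gm_add, g1_eq]
  exact and_congr g1_ch (and_congr g1_ch Iff.rfl)

theorem g1_nul (hm : ∀ ν, Monotone (𝓗 ν)) {T : Set B} :
    (∃ w ∈ gE T, Nul (gH 𝓗) w X.germ) ↔
      ∀ᶠ k in atTop, ∀ᶠ ν in atTop, ∃ w ∈ T, Nul (𝓗 ν k) w (X.tm ν) := by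
  constructor
  · rintro ⟨_, ⟨w, rfl, hw⟩, h, h1, h2⟩
    obtain ⟨h, rfl⟩ := gm_surj h
    simp only [gm_mul, gm_add, gm_smul, gm_eq] at h2
    exact (g1_hm.1 h1).mono fun k c => (c.and (hw.and h2)).mono fun ν d =>
      ⟨w ν, d.2.1, h ν, d.1, d.2.2⟩
  · intro h
    obtain ⟨k, hk⟩ := h.exists
    have : Nonempty B := ⟨0⟩
    obtain ⟨w, hw⟩ := hk.choice
    have h2 : ∀ᶠ ν in atTop, ∃ h : Matrix X.J X.J B, Hm (𝓗 ν k) 1 (X.tm ν).t (X.tm ν).t h ∧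
        X.D ν * h + h * X.D ν = w ν • X.p ν := hw.mono fun ν c => c.2
    obtain ⟨h, hh⟩ := h2.choice
    refine ⟨↑w, ⟨w, rfl, hw.mono fun _ c => c.1⟩, gm h,
      (hm_gm hm).2 ⟨k, hh.mono fun _ c => c.1⟩, ?_⟩
    simp only [gm_mul, gm_add, gm_smul, gm_eq]
    exact hh.mono fun _ c => c.2

theorem ok_germ (hm : ∀ ν, Monotone (𝓗 ν)) :
    Ok (gH 𝓗) X.germ ↔ ∃ k, ∀ᶠ ν in atTop, Ok (𝓗 ν k) (X.tm ν) :=
  g1_ok.trans (g1_ev fun _ _ ν c h => h.mono (hm ν c))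

theorem obj_germ (hm : ∀ ν, Monotone (𝓗 ν)) :
    Obj (gH 𝓗) (gS S) K X.germ ↔ ∃ k, ∀ᶠ ν in atTop, Obj (𝓗 ν k) S K (X.tm ν) := by
  refine Iff.trans ?_ (g1_ev fun _ _ ν c h => h.mono (hm ν c))
  have e : ∀ {A : Type v} [Ring A] {L : Type} (H : Fam A L) (S : ι → Submonoid A) (Z : Cx A L),
      Obj H S K Z ↔ Ok H Z ∧ ∀ a ∈ K, ∃ w ∈ S a, Nul H w Z := fun H S Z =>
    ⟨fun h => ⟨h.1, h.2⟩, fun ⟨a, b⟩ => ⟨a, b⟩⟩
  simp only [e, eventually_and, g1_ok, eventually_all_finset]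
  exact and_congr Iff.rfl (forall₂_congr fun a _ => g1_nul hm (T := S a))

theorem tw_germ (hm : ∀ ν, Monotone (𝓗 ν)) {t : ℕ → Matrix X.J Y.J B} :
    Tw (gH 𝓗) X.germ Y.germ (gm t) ↔
      ∃ k, ∀ᶠ ν in atTop, Tw (𝓗 ν k) (X.tm ν) (Y.tm ν) (t ν) := by
  refine Iff.trans ?_ (g1_ev fun _ _ ν c h => h.mono (hm ν c))
  have e : ∀ {A : Type v} [Ring A] {L : Type} (H : Fam A L) (Z W : Cx A L) f, Tw H Z W f ↔
      Mp H (-1) Z W f ∧ Z.D * f + f * W.D = 0 := fun H Z W f =>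
    ⟨fun h => ⟨h.1, h.2⟩, fun ⟨a, b⟩ => ⟨a, b⟩⟩
  simp only [e, eventually_and, gm_mul, gm_add, ← gm_zero, g1_eq]
  exact and_congr g1_mp Iff.rfl

theorem cut_germ (hm : ∀ ν, Monotone (𝓗 ν)) {e : ℕ → Matrix X.J X.J B} :
    Cut (gH 𝓗) X.germ (gm e) ↔ ∃ k, ∀ᶠ ν in atTop, Cut (𝓗 ν k) (X.tm ν) (e ν) := by
  refine Iff.trans ?_ (g1_ev fun _ _ ν c h => ⟨h.1.mono (hm ν c), h.2, h.3, h.4, h.5⟩)
  have e : ∀ {A : Type v} [Ring A] {L : Type} (H : Fam A L) (Z : Cx A L) e, Cut H Z e ↔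
      Hm H 0 Z.t Z.t e ∧ e * e = e ∧ Z.p * e = e ∧ e * Z.p = e ∧ e * Z.D * e = Z.D * e :=
    fun H Z e => ⟨fun h => ⟨h.1, h.2, h.3, h.4, h.5⟩, fun ⟨a, b, c, d, e⟩ => ⟨a, b, c, d, e⟩⟩
  simp only [e, eventually_and, g1_hm, gm_mul, g1_eq]

theorem he_germ (hm : ∀ ν, Monotone (𝓗 ν)) :
    HE (gH 𝓗) X.germ Y.germ ↔ ∃ k, ∀ᶠ ν in atTop, HE (𝓗 ν k) (X.tm ν) (Y.tm ν) := by
  constructor
  · rintro ⟨f, g, h, l, H⟩
    obtain ⟨f, rfl⟩ := gm_surj f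
    obtain ⟨g, rfl⟩ := gm_surj g
    obtain ⟨h, rfl⟩ := gm_surj h
    obtain ⟨l, rfl⟩ := gm_surj l
    exact (g1_hed.1 H).exists.imp fun k c => c.mono fun ν d => ⟨_, _, _, _, d⟩
  · rintro ⟨k, H0⟩
    have H : ∀ᶠ ν in atTop, ∃ (f : Matrix Y.J X.J B) (g : Matrix X.J Y.J B)
      (h : Matrix X.J X.J B) (l : Matrix Y.J Y.J B), HEd (𝓗 ν k) (X.tm ν) (Y.tm ν) f g h l := H0
    obtain ⟨f, H⟩ := H.choice
    obtain ⟨g, H⟩ := H.choice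
    obtain ⟨h, H⟩ := H.choice
    obtain ⟨l, H⟩ := H.choice
    refine ⟨gm f, gm g, gm h, gm l, g1_hed.2 ((eventually_ge_atTop k).mono fun k' c =>
      H.mono fun ν d => ?_)⟩
    exact ⟨d.1.mono (hm ν c), d.2.mono (hm ν c), d.3.mono (hm ν c), d.4.mono (hm ν c), d.5, d.6⟩

theorem stdE_germ {E : Set B} : StdE (gE E) X.germ ↔ ∀ᶠ ν in atTop, StdE E (X.tm ν) := by
  simp only [StdE, eventually_and, eventually_all]
  exact and_congr (forall₃_congr fun i j _ => g1_zero) (forall_congr' fun i => g1_memE)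

end Pool.Agent.MP_f7db47_al.KN

end

section

/-!
Properties of the families of germs.
-/

namespace Pool.Agent.MP_f7db47_al.KN

open Matrix Filter

universe v w

variable {B : Type v} [Ring B] {Λ : ℕ → Type} {ι : Type} {𝓗 𝓗' : ∀ ν, ℕ → Fam B (Λ ν)}
  {S : ι → Submonoid B} {K : Finset ι} {I J M : Type} {X Y : SX B Λ}

theorem m2_choice {α : ℕ → Type w} [∀ ν, Nonempty (α ν)] {P : ∀ ν, α ν → Prop}
    (h : ∀ᶠ ν in atTop, ∃ a, P ν a) : ∃ f : ∀ ν, α ν, ∀ᶠ ν in atTop, P ν (f ν) :=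
  ⟨fun ν => Classical.epsilon (P ν), h.mono fun _ c => Classical.epsilon_spec c⟩

theorem m2_mem (hm : ∀ ν, Monotone (𝓗 ν)) {a b : ∀ ν, Λ ν} {f : ℕ → B} (k : ℕ)
    (h : ∀ᶠ ν in atTop, f ν ∈ 𝓗 ν k (a ν) (b ν)) : (f : Gm B) ∈ gH 𝓗 a b :=
  ⟨f, rfl, (eventually_ge_atTop k).mono fun _ c => h.mono fun ν d => hm ν c _ _ d⟩

theorem cert_germ [∀ ν, Nonempty (Λ ν)] (hm : ∀ ν, Monotone (𝓗 ν)) {k L : ℕ}
    (h : ∀ᶠ ν in atTop, CertB (𝓗 ν k) S K L (X.tm ν)) :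
    Cert (gH 𝓗) (gS S) K Set.univ X.germ := by
  obtain ⟨a, h⟩ := m2_choice h
  obtain ⟨b, h⟩ := m2_choice h
  obtain ⟨c, h⟩ := m2_choice h
  obtain ⟨p, h⟩ := m2_choice h
  obtain ⟨D, h⟩ := m2_choice h
  obtain ⟨q, h⟩ := m2_choice h
  obtain ⟨E, h⟩ := m2_choice h
  obtain ⟨r, h⟩ := m2_choice h
  obtain ⟨F, h⟩ := m2_choice h
  obtain ⟨t, h⟩ := m2_choice h
  obtain ⟨t', h⟩ := m2_choice h
  refine ⟨(SX.box L a p D).germ, (SX.box L b q E).germ, (SX.box L c r F).germ, gm t, gm t',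
    ⟨(obj_germ hm).2 ⟨k, h.mono fun _ e => e.1.oP⟩, (obj_germ hm).2 ⟨k, h.mono fun _ e => e.1.oQ⟩,
      (obj_germ hm).2 ⟨k, h.mono fun _ e => e.1.oB⟩, Wd.univ _, Wd.univ _, Wd.univ _,
      (tw_germ hm).2 ⟨k, h.mono fun _ e => e.1.ht⟩, (tw_germ hm).2 ⟨k, h.mono fun _ e => e.1.ht'⟩⟩,
    ?_, ?_⟩
  · have e1 : X.germ.sum (SX.box L c r F).germ = (X.ext (SX.box L c r F) fun _ => 0).germ := by
      rw [SX.germ_ext, gm_zero]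
    rw [e1, ← SX.germ_ext]
    refine (he_germ hm).2 ⟨k, h.mono fun ν e => ?_⟩
    rw [SX.tm_ext, SX.tm_ext]
    exact e.2.1
  · rw [← SX.germ_ext]
    refine (he_germ hm).2 ⟨k, h.mono fun ν e => ?_⟩
    rw [SX.tm_ext]
    exact e.2.2

theorem he_germ_box [∀ ν, Nonempty (Λ ν)] (hm : ∀ ν, Monotone (𝓗 ν)) {E : Set B} {k L : ℕ}
    (h : ∀ᶠ ν in atTop, ∃ μ p D, Ok (𝓗 ν k) (box L μ p D) ∧ StdE E (box L μ p D) ∧
      HE (𝓗 ν k) (X.tm ν) (box L μ p D)) :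
    ∃ Z, Ok (gH 𝓗) Z ∧ StdE (gE E) Z ∧ HE (gH 𝓗) X.germ Z := by
  obtain ⟨μ, h⟩ := m2_choice h
  obtain ⟨p, h⟩ := m2_choice h
  obtain ⟨D, h⟩ := m2_choice h
  exact ⟨(SX.box L μ p D).germ, (ok_germ hm).2 ⟨k, h.mono fun _ e => e.1⟩,
    stdE_germ.2 (h.mono fun _ e => e.2.1), (he_germ hm).2 ⟨k, h.mono fun _ e => e.2.2⟩⟩

theorem gH_le (hm : ∀ ν, Monotone (𝓗' ν)) (h : ∀ k, ∃ k', ∀ ν, 𝓗 ν k ≤ 𝓗' ν k') :
    gH 𝓗 ≤ gH 𝓗' := by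
  rintro a b _ ⟨f, rfl, hf⟩
  obtain ⟨k, hk⟩ := hf.exists
  obtain ⟨k', hk'⟩ := h k
  exact m2_mem hm k' (hk.mono fun ν c => hk' ν _ _ c)

theorem gH_mul3 {𝓗₁ 𝓗₂ 𝓗₃ : ∀ ν, ℕ → Fam B (Λ ν)} (hm : ∀ ν, Monotone (𝓗₃ ν))
    (h : ∀ k, ∃ k', ∀ ν, Mul3 (𝓗₁ ν k) (𝓗₂ ν k) (𝓗₃ ν k')) :
    Mul3 (gH 𝓗₁) (gH 𝓗₂) (gH 𝓗₃) := by
  rintro a b c _ _ ⟨f, rfl, hf⟩ ⟨g, rfl, hg⟩
  obtain ⟨k, h1, h2⟩ := (hf.and hg).exists
  obtain ⟨k', hk'⟩ := h k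
  exact m2_mem (f := f * g) hm k' ((h1.and h2).mono fun ν d => hk' ν d.1 d.2)

theorem gH_good (h : ∀ ν, Gr (𝓗 ν) S) : Good (gH 𝓗) (gS S) where
  mul := gH_mul3 (fun ν => (h ν).mono) fun k => ⟨k + k, fun ν => (h ν).mul (k := k) (k' := k)⟩
  cen := by
    rintro a _ ⟨f, rfl, hf⟩ x
    induction x using Germ.inductionOn with
    | h g => exact Germ.coe_eq.2 (hf.mono fun ν c => (h ν).cen a _ c (g ν))
  stab := by
    rintro a _ ⟨f, rfl, hf⟩ i j _ ⟨g, rfl, hg⟩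
    exact ⟨f * g, rfl, hg.mono fun _ c => (hf.and c).mono fun ν d => (h ν).stab a _ d.1 d.2⟩

theorem gS_uni (h : Uni S) : Uni (gS S) := by
  rintro a _ ⟨f, rfl, hf⟩
  obtain ⟨g, hg⟩ := m2_choice (hf.mono fun ν c => isUnit_iff_exists.1 (h a _ c))
  exact isUnit_iff_exists.2 ⟨(g : Gm B), Germ.coe_eq.2 (hg.mono fun _ c => c.1),
    Germ.coe_eq.2 (hg.mono fun _ c => c.2)⟩

theorem gH_loc (hm : ∀ ν, Monotone (𝓗 ν)) {a : ι}
    (h : ∀ ν k, IsLoc (𝓗 ν k) (S a) (𝓗' ν k)) : IsLoc (gH 𝓗) (gS S a) (gH 𝓗') := by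
  intro i j x
  constructor
  · rintro ⟨f, rfl, hf⟩
    obtain ⟨k, hk⟩ := hf.exists
    obtain ⟨w, hw⟩ := m2_choice (hk.mono fun ν c => (h ν k _ _ _).1 c)
    exact ⟨(w : Gm B), ⟨w, rfl, hw.mono fun _ c => c.1⟩,
      m2_mem (f := w * f) hm k (hw.mono fun _ c => c.2)⟩
  · rintro ⟨_, ⟨w, rfl, hw⟩, g, e, hg⟩
    induction x using Germ.inductionOn with
    | h f =>
      have e1 : ∀ᶠ ν in atTop, w ν * f ν = g ν := Germ.coe_eq.1 e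
      exact ⟨f, rfl, hg.mono fun k c => (hw.and (e1.and c)).mono fun ν d =>
        (h ν k _ _ _).2 ⟨w ν, d.1, d.2.1 ▸ d.2.2⟩⟩

theorem gH_lu (hm : ∀ ν, Monotone (𝓗 ν))
    (h : ∀ ν k a, ∃ e ∈ 𝓗 ν k a a, e * e = e ∧ ∀ b, ∀ x ∈ 𝓗 ν k a b, e * x = x) :
    LU (gH 𝓗) := by
  intro a T hT
  have h1 : ∀ x ∈ T, ∀ᶠ k in atTop, ∃ (b : ∀ ν, Λ ν) (f : ℕ → B), x = ↑f ∧
      ∀ᶠ ν in atTop, f ν ∈ 𝓗 ν k (a ν) (b ν) := fun x hx => by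
    obtain ⟨b, f, e, c⟩ := hT x hx
    exact c.mono fun _ d => ⟨b, f, e, d⟩
  obtain ⟨k, hk⟩ := ((eventually_all_finset T).2 h1).exists
  choose e h2 h3 h4 using fun ν => h ν k (a ν)
  refine ⟨(e : Gm B), m2_mem hm k (.of_forall h2), Germ.coe_eq.2 (.of_forall h3), fun x hx => ?_⟩
  obtain ⟨b, f, rfl, c⟩ := hk x hx
  exact Germ.coe_eq.2 (c.mono fun ν d => h4 ν _ _ d)

end Pool.Agent.MP_f7db47_al.KN

end

section

/-!
Fully faithful functors.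
-/

namespace Pool.Agent.MP_f7db47_al.KN

open Matrix

universe v w

variable {A : Type v} [Ring A] {Λ Λ' ι : Type} {H H' : Fam A Λ} {S : ι → Submonoid A}
  {K : Finset ι} {W : Set ℤ} {X X' Y : Cx A Λ} {w : A}
  {A' : Type w} [Ring A'] {G : Fam A' Λ'} {Φ : Fn H G} {T : Fam A Λ}

section

variable {d : ℤ} {J₁ J₂ : Type} {s : J₁ → Λ × ℤ} {t : J₂ → Λ × ℤ}

theorem Fn.FF.mat_inj (hΦ : Φ.FF T) {f g : Matrix J₁ J₂ A} {d' : ℤ} (hf : Hm T d s t f)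
    (hg : Hm T d' s t g) (h : Φ.mat s t f = Φ.mat s t g) : f = g :=
  Matrix.ext fun i j => hΦ.inj (hf i j).1 (hg i j).1
    (Matrix.ext fun a b => congrFun₂ h ⟨i, a⟩ ⟨j, b⟩)

theorem Fn.FF.mat_mul (hΦ : Φ.FF T) [Fintype J₂] {J₃ : Type} {u : J₃ → Λ × ℤ} {d' : ℤ}
    {f : Matrix J₁ J₂ A} {g : Matrix J₂ J₃ A} (hf : Hm T d s t f) (hg : Hm T d' t u g) :
    Φ.mat s u (f * g) = Φ.mat s t f * Φ.mat t u g := by
  ext x y
  rw [Matrix.mul_apply, Fintype.sum_sigma, Fn.mat, Matrix.mul_apply, map_sum, Matrix.sum_apply]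
  refine Finset.sum_congr rfl fun j _ => ?_
  rw [hΦ.mul (hf x.1 j).1 (hg j y.1).1, Matrix.mul_apply]
  rfl

theorem Fn.FF.mat_surj (hΦ : Φ.FF T)
    {M : Matrix (Σ i, Φ.κ (s i).1) (Σ j, Φ.κ (t j).1) A'}
    (hM : Hm G d (fun x : Σ i, Φ.κ (s i).1 => (Φ.lab _ x.2, (s x.1).2))
      (fun x : Σ i, Φ.κ (t i).1 => (Φ.lab _ x.2, (t x.1).2)) M) :
    ∃ f, Hm H d s t f ∧ Φ.mat s t f = M := by
  have h : ∀ i j, ∃ x, (x ∈ H (s i).1 (t j).1 ∧ (x ≠ 0 → (s i).2 = (t j).2 + d)) ∧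
      ∀ a b, Φ.F (s i).1 (t j).1 x a b = M ⟨i, a⟩ ⟨j, b⟩ := fun i j => by
    by_cases e : (s i).2 = (t j).2 + d
    · obtain ⟨x, h1, h2⟩ := hΦ.surj (s i).1 (t j).1 (Matrix.of fun a b => M ⟨i, a⟩ ⟨j, b⟩)
        fun a b => (hM ⟨i, a⟩ ⟨j, b⟩).1
      exact ⟨x, ⟨h1, fun _ => e⟩, fun a b => congrFun₂ h2 a b⟩
    · refine ⟨0, ⟨zero_mem _, fun h => absurd rfl h⟩, fun a b => ?_⟩
      rw [map_zero]
      exact (not_not.1 fun h => e ((hM ⟨i, a⟩ ⟨j, b⟩).2 h)).symm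
  choose f h1 h2 using h
  exact ⟨f, h1, Matrix.ext fun x y => h2 x.1 y.1 x.2 y.2⟩

theorem f1_hm (hΦ : Φ.FF T) [Fintype J₂] {J₃ : Type} {u : J₃ → Λ × ℤ} {d' e : ℤ}
    {f : Matrix J₁ J₂ A} {g : Matrix J₂ J₃ A} (hf : Hm H d s t f) (hg : Hm H d' t u g)
    (he : e = d + d') : Hm T e s u (f * g) := (hf.mono hΦ.le).mul hΦ.lr (hg.mono hΦ.le) he

theorem f1_eq (hΦ : Φ.FF T) [Fintype J₂] {J₃ : Type} {u : J₃ → Λ × ℤ} {d' e : ℤ}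
    {f : Matrix J₁ J₂ A} {g : Matrix J₂ J₃ A} {k : Matrix J₁ J₃ A} (hf : Hm H d s t f)
    (hg : Hm H d' t u g) (hk : Hm H e s u k) (h : Φ.mat s t f * Φ.mat t u g = Φ.mat s u k) :
    f * g = k :=
  hΦ.mat_inj (f1_hm hΦ hf hg rfl) (hk.mono hΦ.le) ((Φ.mat_mul hf hg).trans h)

end

theorem Ok.of_fn (hΦ : Φ.FF T) (hp : Hm H 0 X.t X.t X.p) (hD : Hm H (-1) X.t X.t X.D)
    (h : Ok G (Φ.obj X)) : Ok H X :=
  ⟨hp, hD, f1_eq hΦ hp hp hp h.pp, f1_eq hΦ hp hD hD h.pD, f1_eq hΦ hD hp hD h.Dp,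
    f1_eq (e := 0) hΦ hD hD (Hm.zero _ _) (h.DD.trans Φ.mat_zero.symm)⟩

theorem f1_mp (hΦ : Φ.FF T) (hX : Ok H X) (hY : Ok H Y) {d : ℤ}
    {t' : Matrix (Φ.obj X).J (Φ.obj Y).J A'} (h : Mp G d (Φ.obj X) (Φ.obj Y) t') :
    ∃ t, Mp H d X Y t ∧ Φ.mat X.t Y.t t = t' := by
  obtain ⟨t, h1, rfl⟩ := hΦ.mat_surj h.hm
  exact ⟨t, ⟨h1, f1_eq hΦ hX.hp h1 h1 h.pl, f1_eq hΦ h1 hY.hp h1 h.pr⟩, rfl⟩

theorem f1_ch (hΦ : Φ.FF T) (hX : Ok H X) (hY : Ok H Y)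
    {t' : Matrix (Φ.obj X).J (Φ.obj Y).J A'} (h : Ch G (Φ.obj X) (Φ.obj Y) t') :
    ∃ t, Ch H X Y t ∧ Φ.mat X.t Y.t t = t' := by
  obtain ⟨t, h1, rfl⟩ := f1_mp hΦ hX hY h.toMp
  refine ⟨t, ⟨h1, hΦ.mat_inj (f1_hm hΦ hX.hD h1.hm rfl) (f1_hm hΦ h1.hm hY.hD rfl) ?_⟩, rfl⟩
  rw [Φ.mat_mul hX.hD h1.hm, Φ.mat_mul h1.hm hY.hD]
  exact h.cm

theorem f1_gf (hΦ : Φ.FF T) (hX : Ok H X) {f : Matrix Y.J X.J A} {g : Matrix X.J Y.J A}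
    {h : Matrix X.J X.J A} (hf : Hm H 0 Y.t X.t f) (hg : Hm H 0 X.t Y.t g)
    (hh : Hm H 1 X.t X.t h) (e : Φ.mat X.t Y.t g * Φ.mat Y.t X.t f +
      ((Φ.obj X).D * Φ.mat X.t X.t h + Φ.mat X.t X.t h * (Φ.obj X).D) = (Φ.obj X).p) :
    g * f + (X.D * h + h * X.D) = X.p := by
  refine hΦ.mat_inj ((f1_hm (e := 0) hΦ hg hf rfl).add
    ((f1_hm hΦ hX.hD hh rfl).add (f1_hm hΦ hh hX.hD rfl))) (hX.hp.mono hΦ.le) ?_
  rw [Φ.mat_add, Φ.mat_add, Φ.mat_mul hg hf, Φ.mat_mul hX.hD hh, Φ.mat_mul hh hX.hD]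
  exact e

theorem Tw.of_fn (hΦ : Φ.FF T) (hX : Ok H X) (hY : Ok H Y)
    {t' : Matrix (Φ.obj X).J (Φ.obj Y).J A'} (h : Tw G (Φ.obj X) (Φ.obj Y) t') :
    ∃ t, Tw H X Y t ∧ Φ.mat X.t Y.t t = t' := by
  obtain ⟨t, h1, rfl⟩ := f1_mp hΦ hX hY h.toMp
  refine ⟨t, ⟨h1, hΦ.mat_inj (d' := 0) ((f1_hm (e := -2) hΦ hX.hD h1.hm rfl).add
    (f1_hm hΦ h1.hm hY.hD rfl)) (Hm.zero _ _) ?_⟩, rfl⟩
  rw [Φ.mat_add, Φ.mat_mul hX.hD h1.hm, Φ.mat_mul h1.hm hY.hD, Φ.mat_zero]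
  exact h.cm

theorem HE.of_fn (hΦ : Φ.FF T) (hX : Ok H X) (hY : Ok H Y) (h : HE G (Φ.obj X) (Φ.obj Y)) :
    HE H X Y := by
  obtain ⟨f', g', a', b', c⟩ := h
  obtain ⟨f, hf, rfl⟩ := f1_ch hΦ hY hX c.hf
  obtain ⟨g, hg, rfl⟩ := f1_ch hΦ hX hY c.hg
  obtain ⟨a, ha, rfl⟩ := hΦ.mat_surj c.hh
  obtain ⟨b, hb, rfl⟩ := hΦ.mat_surj c.hk
  exact ⟨f, g, a, b, hf, hg, ha, hb, f1_gf hΦ hX hf.hm hg.hm ha c.gf,
    f1_gf hΦ hY hg.hm hf.hm hb c.fg⟩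

theorem Nul.of_fn (hΦ : Φ.FF T) (hX : Ok H X) (hw : Sc H w) {w' : A'}
    (e : ∀ ⦃i j x⦄, x ∈ H i j → Φ.F i j (w * x) = w' • Φ.F i j x) (h : Nul G w' (Φ.obj X)) :
    Nul H w X := by
  obtain ⟨s', h1, h2⟩ := h
  obtain ⟨s, hs, rfl⟩ := hΦ.mat_surj h1
  refine ⟨s, hs, hΦ.mat_inj ((f1_hm (e := 0) hΦ hX.hD hs rfl).add (f1_hm hΦ hs hX.hD rfl))
    ((hX.hp.smul hw).mono hΦ.le) ?_⟩
  rw [Φ.mat_add, Φ.mat_mul hX.hD hs, Φ.mat_mul hs hX.hD, a9_smul Φ hX.hp e]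
  exact h2

theorem Cut.of_fn (hΦ : Φ.FF T) (hX : Ok H X) {e : Matrix X.J X.J A} (he : Hm H 0 X.t X.t e)
    (h : Cut G (Φ.obj X) (Φ.mat X.t X.t e)) : Cut H X e := by
  have h1 := f1_hm hΦ he hX.hD rfl
  refine ⟨he, f1_eq hΦ he he he h.ee, f1_eq hΦ hX.hp he he h.pe, f1_eq hΦ he hX.hp he h.ep,
    hΦ.mat_inj (h1.mul hΦ.lr (he.mono hΦ.le) rfl) (f1_hm hΦ hX.hD he rfl) ?_⟩
  rw [hΦ.mat_mul h1 (he.mono hΦ.le), Φ.mat_mul he hX.hD, Φ.mat_mul hX.hD he]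
  exact h.De

end Pool.Agent.MP_f7db47_al.KN

end

section

/-!
The folded families.
-/

namespace Pool.Agent.MP_f7db47_al.KN

open Matrix

universe v w

variable {A : Type v} [Ring A] {Λ Λ' ι : Type} {H H' : Fam A Λ} {S : ι → Submonoid A}
  {K : Finset ι} {W : Set ℤ} {X X' Y : Cx A Λ} {w : A} {Z : Cx (Opn A) (Lab Λ)}

theorem f2_mul {x : Opn A} (y : Opn A) {N : ℕ} (hx : ∀ m n, en x m n ≠ 0 → n < N) (i k : ℕ) :
    en (x * y) i k = ∑ j : Fin N, en x i j * en y j k := by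
  rw [en_mul, Fin.sum_univ_eq_sum_range (fun j => en x i j * en y j k)]
  refine finsum_eq_sum_of_support_subset _ fun j hj => ?_
  exact Finset.mem_coe.2 (Finset.mem_range.2 (hx i j (left_ne_zero_of_mul hj)))

theorem f2_mul3 {H₁ H₂ H₃ : Fam A Λ} (h : Mul3 H₁ H₂ H₃) :
    Mul3 (fold H₁) (fold H₂) (fold H₃) := by
  intro a b c x y hx hy
  have e := f2_mul y fun m n h => (hx.2 m n h).2
  refine ⟨fun i k => ?_, fun m n hne => ?_⟩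
  · rw [e]
    exact sum_mem fun j _ => h (hx.1 i j) (hy.1 j k)
  · rw [e] at hne
    obtain ⟨j, -, hj⟩ := Finset.exists_ne_zero_of_sum_ne_zero hne
    exact ⟨(hx.2 _ _ (left_ne_zero_of_mul hj)).1, (hy.2 _ _ (right_ne_zero_of_mul hj)).2⟩

theorem f2_mono (h : H ≤ H') : fold H ≤ fold H' :=
  fun _ _ _ hx => ⟨fun i j => h _ _ (hx.1 i j), hx.2⟩

theorem unf_ff (H : Fam A Λ) : (unfFn H).FF (fold ⊤) where
  lr := f2_mul3 fun _ _ _ _ _ _ _ => trivial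
  le := f2_mono le_top
  mul := (unfFn (⊤ : Fam A Λ)).mul
  inj a b x y hx hy h := by
    refine en_inj (Matrix.ext fun m n => ?_)
    by_cases hmn : m < a.n ∧ n < b.n
    · exact congrFun (congrFun h ⟨m, hmn.1⟩) ⟨n, hmn.2⟩
    · rw [not_not.1 (mt (hx.2 m n) hmn), not_not.1 (mt (hy.2 m n) hmn)]
  surj a b M hM := by
    obtain ⟨x, hx⟩ := exists_en (A := A)
      (Matrix.of fun m n => if h : m < a.n ∧ n < b.n then M ⟨m, h.1⟩ ⟨n, h.2⟩ else 0)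
      fun j => (Set.finite_Iio a.n).subset fun i hi => by
        by_contra hc
        exact hi (dif_neg fun h => hc h.1)
    have e : ∀ (i : Fin a.n) (j : Fin b.n), en x i j = M i j := fun i j => by
      rw [hx]
      exact dif_pos ⟨i.2, j.2⟩
    refine ⟨x, ⟨fun i j => e i j ▸ hM i j, fun m n hne => ?_⟩, Matrix.ext e⟩
    by_contra hc
    rw [hx] at hne
    exact hne (dif_neg hc)

theorem fold_mono (h : H ≤ H') : fold H ≤ fold H' := f2_mono h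

theorem Mul3.fold {H₁ H₂ H₃ : Fam A Λ} (h : Mul3 H₁ H₂ H₃) :
    Mul3 (fold H₁) (fold H₂) (fold H₃) := f2_mul3 h

theorem f2_sc (x : Opn A) (w : A) (m n : ℕ) : en (x * sc A w) m n = en x m n * w := by
  have e : ∀ j, en (sc A w) j n = w * (1 : Matrix ℕ ℕ A) j n := fun j => by
    rw [← en_one, ← en_sc, mul_one]
  rw [en_mul, finsum_eq_single _ n fun j hj => by rw [e, one_apply_ne hj, mul_zero, mul_zero], e,
    one_apply_eq, mul_one]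

theorem Sc.fold (h : Sc H w) : Sc (fold H) (sc A w) :=
  ⟨fun x => en_inj (Matrix.ext fun m n => by rw [en_sc, f2_sc, h.1]),
    fun _ _ x hx => ⟨fun i j => h.2 (hx.1 i j), fun m n hne =>
      hx.2 m n (right_ne_zero_of_mul (a := w) hne)⟩⟩

theorem Gr.fold {𝓗 : ℕ → Fam A Λ} (h : Gr 𝓗 S) : Gr (fun k => fold (𝓗 k)) (fS S) where
  mono _ _ hk := f2_mono (h.mono hk)
  mul k k' := f2_mul3 (h.mul (k := k) (k' := k'))
  cen := by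
    rintro a _ ⟨w, hw, rfl⟩
    exact (h.sc hw 0).fold.1
  stab := by
    rintro a _ ⟨w, hw, rfl⟩ k
    exact (h.sc hw k).fold.2

theorem Uni.fold (h : Uni S) : Uni (fS S) := by
  rintro a _ ⟨w, hw, rfl⟩
  exact (h a w hw).map (sc A)

theorem unf_lin (H : Fam A Λ) (S : ι → Submonoid A) : (unfFn H).Lin (fS S) S := by
  rintro a _ ⟨w, hw, rfl⟩
  exact ⟨w, hw, fun _ _ _ _ => rfl⟩

theorem f2_common {T : Submonoid A} (hS : ∀ w ∈ T, Sc H w) {κ : Type} (U : Finset κ)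
    (a b : κ → Λ) (x : κ → A) (h : ∀ k, ∃ w ∈ T, w * x k ∈ H (a k) (b k)) :
    ∃ w ∈ T, ∀ k ∈ U, w * x k ∈ H (a k) (b k) := by
  classical
  induction U using Finset.induction_on with
  | empty => exact ⟨1, one_mem _, fun _ hk => absurd hk (Finset.notMem_empty _)⟩
  | insert k U _ ih =>
    obtain ⟨w, hw, e⟩ := ih
    obtain ⟨w', hw', e'⟩ := h k
    refine ⟨w * w', mul_mem hw hw', fun l hl => ?_⟩
    rcases Finset.mem_insert.1 hl with rfl | hl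
    · rw [mul_assoc]
      exact (hS w hw).2 e'
    · rw [(hS w hw).1, mul_assoc]
      exact (hS w' hw').2 (e l hl)

theorem IsLoc.fold (hS : ∀ a, ∀ w ∈ S a, Sc H w) (hU : Uni S) {a : ι} (h : IsLoc H (S a) H') :
    IsLoc (fold H) (fS S a) (fold H') := by
  intro b c x
  constructor
  · intro hx
    obtain ⟨w, hw, e⟩ := f2_common (hS a) (Finset.univ : Finset (Fin b.n × Fin c.n))
      (fun k => b.l k.1) (fun k => c.l k.2) (fun k => en x k.1 k.2)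
      fun k => (h _ _ _).1 (hx.1 k.1 k.2)
    exact ⟨_, ⟨w, hw, rfl⟩, fun i j => e (i, j) (Finset.mem_univ _), fun m n hne =>
      hx.2 m n (right_ne_zero_of_mul (a := w) hne)⟩
  · rintro ⟨_, ⟨w, hw, rfl⟩, hx⟩
    exact ⟨fun i j => (h _ _ _).2 ⟨w, hw, hx.1 i j⟩, fun m n hne =>
      hx.2 m n fun e => hne ((hU a w hw).mul_right_eq_zero.1 e)⟩

/-- Local units. -/
theorem fold_unit (h1 : ∀ a, (1 : A) ∈ H a a) (U : Set Λ) (a : Lab Λ) :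
    ∃ e ∈ fold (rs H U) a a, e * e = e ∧ ∀ b, ∀ x ∈ fold (rs H U) a b, e * x = x := by
  classical
  obtain ⟨e, he⟩ := exists_en (A := A)
    (diagonal fun m => if ∃ h : m < a.n, a.l ⟨m, h⟩ ∈ U then 1 else 0)
    fun j => (Set.finite_singleton j).subset fun i hi => by
      by_contra hc
      exact hi (diagonal_apply_ne _ hc)
  have e1 : ∀ m n, en e m n ≠ 0 → m = n ∧ ∃ h : m < a.n, a.l ⟨m, h⟩ ∈ U := fun m n hne => by
    rw [he] at hne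
    have hmn : m = n := by
      by_contra hc
      exact hne (diagonal_apply_ne _ hc)
    subst hmn
    refine ⟨rfl, ?_⟩
    by_contra hc
    exact hne ((diagonal_apply_eq _ _).trans (if_neg hc))
  have e2 : ∀ m, (∃ h : m < a.n, a.l ⟨m, h⟩ ∈ U) → en e m m = 1 := fun m hm => by
    rw [he]
    exact (diagonal_apply_eq _ _).trans (if_pos hm)
  have e3 : e ∈ fold (rs H U) a a := by
    refine ⟨fun i j => ?_, fun m n hne => ?_⟩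
    · by_cases h0 : en e i j = 0
      · rw [h0]
        exact zero_mem _
      · obtain ⟨hij, hi⟩ := e1 _ _ h0
        obtain rfl : i = j := Fin.ext hij
        rw [e2 _ hi]
        exact ⟨h1 _, fun _ => ⟨hi.2, hi.2⟩⟩
    · obtain ⟨rfl, hm, -⟩ := e1 _ _ hne
      exact ⟨hm, hm⟩
  have e4 : ∀ b, ∀ x ∈ fold (rs H U) a b, e * x = x := fun b x hx => by
    refine en_inj (Matrix.ext fun m n => ?_)
    rw [en_mul, finsum_eq_single _ m fun j hj => by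
      rw [not_not.1 (mt (e1 m j) fun h => hj h.1.symm), zero_mul]]
    by_cases h0 : en x m n = 0
    · rw [h0, mul_zero]
    · have hb := hx.2 m n h0
      rw [e2 m ⟨hb.1, ((hx.1 ⟨m, hb.1⟩ ⟨n, hb.2⟩).2 h0).1⟩, one_mul]
  exact ⟨e, e3, e4 a e e3, e4⟩

theorem obj_unf (hS : ∀ a, ∀ w ∈ S a, Sc H w) (hZ : Ok (fold H) Z) :
    Obj H S K (unf Z) ↔ Obj (fold H) (fS S) K Z := by
  refine ⟨fun h => ⟨hZ, fun a ha => ?_⟩, fun h => Obj.fn (unfFn H) (unf_lin H S) h⟩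
  obtain ⟨w, hw, hn⟩ := h.tor a ha
  exact ⟨_, ⟨w, hw, rfl⟩,
    Nul.of_fn (unf_ff H) hZ (hS a w hw).fold (w' := w) (fun _ _ _ _ => rfl) hn⟩

theorem std_unf (hp : Hm (fold H) 0 Z.t Z.t Z.p) : Std (unf Z) ↔ StdE (CP A) Z := by
  constructor
  · rintro ⟨h1, h2⟩
    have key : ∀ i j m n, en (Z.p i j) m n ≠ 0 → i = j ∧ m = n := fun i j m n hne => by
      have hb := (hp i j).1.2 m n hne
      have e := not_not.1 (mt (h1 ⟨i, m, hb.1⟩ ⟨j, n, hb.2⟩) hne)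
      exact ⟨congrArg Sigma.fst e, congrArg (fun x : (unf Z).J => (x.2 : ℕ)) e⟩
    refine ⟨fun i j hij => en_inj (Matrix.ext fun m n => ?_), fun i m n => ⟨fun hmn => ?_, ?_⟩⟩
    · exact not_not.1 (mt (key i j m n) fun h => hij h.1)
    · exact not_not.1 (mt (key i i m n) fun h => hmn h.2)
    · by_cases hm : m < (Z.t i).1.n
      · exact h2 ⟨i, m, hm⟩
      · exact Or.inr (not_not.1 (mt ((hp i i).1.2 m m) fun h => hm h.1))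
  · rintro ⟨h1, h2⟩
    refine ⟨?_, fun x => (h2 x.1 x.2 x.2).2⟩
    rintro ⟨i, m⟩ ⟨j, n⟩ hne
    change en (Z.p i j) m n = 0
    by_cases hij : i = j
    · subst hij
      exact (h2 i m n).1 fun e => hne (by rw [Fin.ext e])
    · rw [h1 i j hij]
      rfl

theorem wd_unf (h : Wd W Z) : Wd W (unf Z) := fun x => h x.1

end Pool.Agent.MP_f7db47_al.KN

end

section

/-!
Complexes with one index in each degree.
-/

namespace Pool.Agent.MP_f7db47_al.KN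

open Matrix

universe v w

variable {A : Type v} [Ring A] {Λ Λ' ι : Type} {H H' : Fam A Λ} {S : ι → Submonoid A}
  {K : Finset ι} {W : Set ℤ} {X X' Y : Cx A Λ} {w : A} {Z : Cx (Opn A) (Lab Λ)} {L : ℕ}

theorem exists_box (hX : Ok H X) (hL : Bd L X) :
    ∃ μ p D, Ok (fold H) (box L μ p D) ∧ Sub (unf (box L μ p D)) X ∧ Sub X (unf (box L μ p D)) := by
  classical
  let deg : X.J → Bx L := fun j => ⟨(X.t j).2, hL j⟩
  let n : Bx L → ℕ := fun b => Fintype.card {j // deg j = b}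
  let q : ∀ b, Fin (n b) ≃ {j // deg j = b} := fun b => (Fintype.equivFin _).symm
  let μ : Bx L → Lab Λ := fun b => ⟨n b, fun i => (X.t (q b i).1).1⟩
  let e : (Σ b, Fin (n b)) ≃ X.J := (Equiv.sigmaCongrRight q).trans (Equiv.sigmaFiberEquiv deg)
  let s : Bx L → Lab Λ × ℤ := fun b => (μ b, b.1)
  have ht : ∀ x : Σ b, Fin (n b), ((μ x.1).l x.2, (x.1 : ℤ)) = X.t (e x) := by
    rintro ⟨b, i⟩
    exact Prod.ext rfl (congrArg Subtype.val (q b i).2).symm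
  have key : ∀ (d : ℤ) (M : Matrix X.J X.J A), Hm H d X.t X.t M →
      ∃ f, Hm (fold H) d s s f ∧ (unfFn H).mat s s f = M.submatrix e e := fun d M hM =>
    (unf_ff H).mat_surj (s := s) (t := s) (M := M.submatrix e e) fun x y => by
      have h1 := hM (e x) (e y)
      rw [← ht x, ← ht y] at h1
      exact h1
  obtain ⟨p, hp, ep⟩ := key 0 X.p hX.hp
  obtain ⟨D, hD, eD⟩ := key (-1) X.D hX.hD
  have c := Sub.of_equiv (X' := unf (box L μ p D)) (X := X) e ht ep eD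
  exact ⟨μ, p, D, Ok.of_fn (X := box L μ p D) (unf_ff H) hp hD (c.1.ok_iff.2 hX), c⟩

theorem f3_of_ok {t : Matrix X.J Y.J A} (h : Ok H (X.ext Y t)) : Tw H X Y t := by
  have h1 := congrArg toBlocks₁₂ h.pD
  have h2 := congrArg toBlocks₁₂ h.Dp
  have h3 := congrArg toBlocks₁₂ h.DD
  simp only [fromBlocks_multiply, toBlocks_fromBlocks₁₂, Matrix.zero_mul, Matrix.mul_zero,
    add_zero, zero_add] at h1 h2 h3
  exact ⟨⟨fun i j => h.hD (.inl i) (.inr j), h1, h2⟩, h3⟩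

theorem f3_tw {P P' Q Q' : Cx A Λ} {t : Matrix P.J Q.J A} (hP : Ok H P) (hQ : Ok H Q)
    (h : Sub P' P) (h' : Sub Q' Q) (c : Tw H P Q t) :
    ∃ t', Tw H P' Q' t' ∧ Sub (P'.ext Q' t') (P.ext Q t) := by
  obtain ⟨e, he, ht, hp, hD, sp, sD⟩ := h
  obtain ⟨e', he', ht', hp', hD', sp', sD'⟩ := h'
  have st : ∀ i j, t i j ≠ 0 → i ∈ Set.range e ∧ j ∈ Set.range e' := fun i j d => by
    constructor
    · rw [← c.pl, mul_apply] at d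
      obtain ⟨k, -, hk⟩ := Finset.exists_ne_zero_of_sum_ne_zero d
      exact (sp _ _ (left_ne_zero_of_mul hk)).1
    · rw [← c.pr, mul_apply] at d
      obtain ⟨k, -, hk⟩ := Finset.exists_ne_zero_of_sum_ne_zero d
      exact (sp' _ _ (right_ne_zero_of_mul hk)).2
  have key : ∀ (M : Matrix P.J P.J A) (T : Matrix P.J Q.J A) (N : Matrix Q.J Q.J A),
      (∀ i j, M i j ≠ 0 → i ∈ Set.range e ∧ j ∈ Set.range e) →
      (∀ i j, T i j ≠ 0 → i ∈ Set.range e ∧ j ∈ Set.range e') →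
      (∀ i j, N i j ≠ 0 → i ∈ Set.range e' ∧ j ∈ Set.range e') → ∀ i j,
      fromBlocks M T 0 N i j ≠ 0 →
        i ∈ Set.range (Sum.map e e') ∧ j ∈ Set.range (Sum.map e e') := by
    rintro M T N hM hT hN (i | i) (j | j) d
    · obtain ⟨⟨a, rfl⟩, b, rfl⟩ := hM i j d
      exact ⟨⟨.inl a, rfl⟩, .inl b, rfl⟩
    · obtain ⟨⟨a, rfl⟩, b, rfl⟩ := hT i j d
      exact ⟨⟨.inl a, rfl⟩, .inr b, rfl⟩
    · exact absurd rfl d
    · obtain ⟨⟨a, rfl⟩, b, rfl⟩ := hN i j d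
      exact ⟨⟨.inr a, rfl⟩, .inr b, rfl⟩
  have s : Sub (P'.ext Q' (t.submatrix e e')) (P.ext Q t) := by
    refine ⟨Sum.map e e', he.sumMap he', ?_, ?_, ?_,
      key _ _ _ sp (fun _ _ d => absurd rfl d) sp', key _ _ _ sD st sD'⟩
    · rintro (i | i)
      exacts [ht i, ht' i]
    · simp only [hp, hp']
      ext (i | i) (j | j) <;> rfl
    · simp only [hD, hD']
      ext (i | i) (j | j) <;> rfl
  exact ⟨_, f3_of_ok (s.ok_iff.2 (hP.ext hQ c)), s⟩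

theorem f3_fold {P Q : Cx A Λ} {P' Q' : Cx (Opn A) (Lab Λ)} {t : Matrix P.J Q.J A} (hP : Ok H P)
    (hQ : Ok H Q) (oP : Ok (fold H) P') (oQ : Ok (fold H) Q') (h : Sub (unf P') P)
    (h' : Sub (unf Q') Q) (c : Tw H P Q t) :
    ∃ u, Tw (fold H) P' Q' u ∧ Sub (unf (P'.ext Q' u)) (P.ext Q t) := by
  obtain ⟨t', c', s⟩ := f3_tw hP hQ h h' c
  obtain ⟨u, hu, rfl⟩ := Tw.of_fn (unf_ff H) oP oQ (t' := t') c'
  exact ⟨u, hu, (sub_fn_ext (unfFn H) u).1.trans s⟩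

theorem certB_of (hS : ∀ a, ∀ w ∈ S a, Sc H w) (hZ : Ok (fold H) Z)
    (h : Cert H S K (Set.Icc (-(L : ℤ)) L) (unf Z)) : CertB (fold H) (fS S) K L Z := by
  obtain ⟨P, Q, B, t, t', c, e, e'⟩ := h
  obtain ⟨a, p, D, oP, sP, -⟩ := exists_box c.oP.ok c.wP
  obtain ⟨b, q, E, oQ, sQ, -⟩ := exists_box c.oQ.ok c.wQ
  obtain ⟨d, r, F, oB, sB, -⟩ := exists_box c.oB.ok c.wB
  obtain ⟨u, hu, s⟩ := f3_fold c.oP.ok c.oQ.ok oP oQ sP sQ c.ht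
  obtain ⟨u', hu', s'⟩ := f3_fold c.oP.ok c.oQ.ok oP oQ sP sQ c.ht'
  have s0 := (sub_fn_ext (unfFn H) (0 : Matrix Z.J (box L d r F).J (Opn A))).1
  rw [Fn.mat_zero] at s0
  have s1 : Sub (unf (Z.sum (box L d r F))) ((unf Z).sum B) :=
    Sub.trans s0 ((Sub.refl _).sum sB)
  exact ⟨a, b, d, p, D, q, E, r, F, u, u',
    ⟨(obj_unf hS oP).1 (sP.obj_iff.2 c.oP), (obj_unf hS oQ).1 (sQ.obj_iff.2 c.oQ),
      (obj_unf hS oB).1 (sB.obj_iff.2 c.oB), Wd.univ _, Wd.univ _, Wd.univ _, hu, hu'⟩,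
    HE.of_fn (unf_ff H) (oP.ext oQ hu) (hZ.sum oB) (s.he_left.2 (s1.he_right.2 e)),
    HE.of_fn (unf_ff H) (oP.ext oQ hu') oB (s'.he_left.2 (sB.he_right.2 e'))⟩

theorem std_box (hZ : Ok (fold H) Z) (hY : Ok H Y) (hs : Std Y) (hL : Bd L Y)
    (h : HE H (unf Z) Y) : ∃ μ p D, Ok (fold H) (box L μ p D) ∧ StdE (CP A) (box L μ p D) ∧
      HE (fold H) Z (box L μ p D) := by
  obtain ⟨μ, p, D, o, s, -⟩ := exists_box hY hL
  exact ⟨μ, p, D, o, (std_unf o.hp).1 (s.std hs), HE.of_fn (unf_ff H) hZ o (s.he_right.2 h)⟩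

end Pool.Agent.MP_f7db47_al.KN

end

section

/-!
Germs of folded families.
-/

namespace Pool.Agent.MP_f7db47_al.KN

open Matrix Filter

universe v w

variable {A : Type v} [Ring A] {Λ : ℕ → Type} {ι : Type} {𝓗 : ∀ ν, ℕ → Fam A (Λ ν)}
  {S : ι → Submonoid A} {K : Finset ι} {U U₁ U₂ : ∀ ν, ℕ → Set (Λ ν)}

theorem m3_mono (hG : ∀ ν, Gr (𝓗 ν) S) (ν : ℕ) : Monotone fun k => fold (𝓗 ν k) :=
  fun _ _ h => fold_mono ((hG ν).mono h)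

theorem m3_rs (hG : ∀ ν, Gr (𝓗 ν) S) (hU : Reg 𝓗 U) (ν : ℕ) : Gr (rsq 𝓗 U ν) S :=
  (hG ν).rs (hU.mono ν)

theorem gstd (hG : ∀ ν, Gr (𝓗 ν) S) (h : SQ 𝓗) : Stdz (gF 𝓗) (StdE (gE (CP A))) := by
  intro X hX
  obtain ⟨X, rfl⟩ := SX.surj X
  obtain ⟨k, hk⟩ := (ok_germ (m3_mono hG)).1 hX
  obtain ⟨L, hL⟩ := exists_bd X.germ
  obtain ⟨k', L', hq⟩ := h k L
  refine he_germ_box (m3_mono hG) (k := max k k') (L := L') ((hk.and hq).mono fun ν c => ?_)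
  obtain ⟨Y, hY, hs, hb, e⟩ := c.2 (unf (X.tm ν)) (c.1.fn (unfFn _)) (wd_unf hL)
  exact std_box (c.1.mono (m3_mono hG ν (le_max_left k k')))
    (hY.mono ((hG ν).mono (le_max_right k k'))) hs hb (e.mono ((hG ν).mono (le_max_right k k')))

theorem gnull (hG : ∀ ν, Gr (𝓗 ν) S) (h : SQ 𝓗) (h' : CQ 𝓗 S K) :
    NullAll (gF 𝓗) (gS (fS S)) K := by
  intro X hX
  have hg : Good (gF 𝓗) (gS (fS S)) := gH_good fun ν => (hG ν).fold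
  obtain ⟨Y, hY, hs, e⟩ := gstd hG h X hX.ok
  have ho := hX.he hg hY e
  obtain ⟨Y, rfl⟩ := SX.surj Y
  obtain ⟨k, hk⟩ := (obj_germ (m3_mono hG)).1 ho
  obtain ⟨L, hL⟩ := exists_bd Y.germ
  obtain ⟨k', L', hq⟩ := h' k L
  refine Cert.he hg.mul (cert_germ (m3_mono hG) (k := max k k') (L := L')
    ((hk.and (hq.and (stdE_germ.1 hs))).mono fun ν c => ?_)) e
  refine certB_of (fun _ _ hw => (hG ν).sc hw _) (c.1.ok.mono (m3_mono hG ν (le_max_left k k')))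
    (Cert.mono ?_ ((hG ν).mono (le_max_right k k')) subset_rfl)
  exact c.2.1 _ ((obj_unf (fun _ _ hw => (hG ν).sc hw _) c.1.ok).2 c.1) (wd_unf hL)
    ((std_unf c.1.ok.hp).2 c.2.2)

theorem gF_good (hG : ∀ ν, Gr (𝓗 ν) S) : Good (gF 𝓗) (gS (fS S)) :=
  gH_good fun ν => (hG ν).fold

theorem gF_idl (hG : ∀ ν, Gr (𝓗 ν) S) (hU : Reg 𝓗 U) : Idl (gF (rsq 𝓗 U)) (gF 𝓗) := by
  refine ⟨gH_le (m3_mono hG) fun k => ⟨k, fun ν => fold_mono (rs_le _ _)⟩,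
    gH_mul3 (m3_mono (m3_rs hG hU)) fun k => ⟨k + k, fun ν => Mul3.fold ?_⟩,
    gH_mul3 (m3_mono (m3_rs hG hU)) fun k => ⟨k + k, fun ν => Mul3.fold ?_⟩⟩
  · intro a b c x y hx hy
    refine ⟨(hG ν).mul hx hy.1, fun e => ?_⟩
    have h1 := hy.2 (right_ne_zero_of_mul e)
    exact ⟨(hU.spread ν k k hx (left_ne_zero_of_mul e)).2 h1.1,
      hU.mono ν (Nat.le_add_right k k) h1.2⟩
  · intro a b c x y hx hy
    refine ⟨(hG ν).mul hx.1 hy, fun e => ?_⟩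
    have h1 := hx.2 (left_ne_zero_of_mul e)
    exact ⟨hU.mono ν (Nat.le_add_right k k) h1.1,
      (hU.spread ν k k hy (right_ne_zero_of_mul e)).1 h1.2⟩

theorem gF_lu (hG : ∀ ν, Gr (𝓗 ν) S) (hU : Reg 𝓗 U) (h1 : ∀ ν k a, (1 : A) ∈ 𝓗 ν k a a) :
    LU (gF (rsq 𝓗 U)) :=
  gH_lu (m3_mono (m3_rs hG hU)) fun ν k a => fold_unit (h1 ν k) (U ν k) a

theorem Reg.inter (h1 : Reg 𝓗 U₁) (h2 : Reg 𝓗 U₂) : Reg 𝓗 fun ν k => U₁ ν k ∩ U₂ ν k :=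
  ⟨fun ν _ _ h => Set.inter_subset_inter (h1.mono ν h) (h2.mono ν h), fun ν j k _ _ _ hx e =>
    ⟨fun c => ⟨(h1.spread ν j k hx e).1 c.1, (h2.spread ν j k hx e).1 c.2⟩,
      fun c => ⟨(h1.spread ν j k hx e).2 c.1, (h2.spread ν j k hx e).2 c.2⟩⟩⟩

theorem gF_cross (hG : ∀ ν, Gr (𝓗 ν) S) (h1 : Reg 𝓗 U₁) (h2 : Reg 𝓗 U₂) :
    Mul3 (gF (rsq 𝓗 U₂)) (gF (rsq 𝓗 U₁)) (gF (rsq 𝓗 fun ν k => U₁ ν k ∩ U₂ ν k)) := by
  refine gH_mul3 (m3_mono (m3_rs hG (h1.inter h2))) fun k => ⟨k + k, fun ν => Mul3.fold ?_⟩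
  intro a b c x y hx hy
  refine ⟨(hG ν).mul hx.1 hy.1, fun e => ?_⟩
  have e1 := left_ne_zero_of_mul e
  have e2 := right_ne_zero_of_mul e
  exact ⟨⟨(h1.spread ν k k hx.1 e1).2 (hy.2 e2).1, h2.mono ν (Nat.le_add_right k k) (hx.2 e1).1⟩,
    h1.mono ν (Nat.le_add_right k k) (hy.2 e2).2, (h2.spread ν k k hy.1 e2).1 (hx.2 e1).2⟩

theorem gF_rs_le (hG : ∀ ν, Gr (𝓗 ν) S) (h2 : Reg 𝓗 U₂) (h : ∀ ν k, U₁ ν k ⊆ U₂ ν k) :
    gF (rsq 𝓗 U₁) ≤ gF (rsq 𝓗 U₂) :=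
  gH_le (m3_mono (m3_rs hG h2)) fun k => ⟨k, fun ν => fold_mono (rs_mono le_rfl (h ν k))⟩

theorem gF_loc (hG : ∀ ν, Gr (𝓗 ν) S) (hu : Uni S) (hU : Reg 𝓗 U) {𝓗' : ∀ ν, ℕ → Fam A (Λ ν)}
    {a : ι} (h : ∀ ν k, IsLoc (𝓗 ν k) (S a) (𝓗' ν k)) :
    IsLoc (gF (rsq 𝓗 U)) (gS (fS S) a) (gF (rsq 𝓗' U)) :=
  gH_loc (m3_mono (m3_rs hG hU)) fun ν k =>
    ((h ν k).rs hu _).fold (fun _ _ hw => (m3_rs hG hU ν).sc hw k) hu

end Pool.Agent.MP_f7db47_al.KN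

end

section

/-!
Cutting a sequence of complexes.
-/

namespace Pool.Agent.MP_f7db47_al.KN

open Matrix Filter

universe v w

variable {A : Type v} [Ring A] {Λ : ℕ → Type} {ι : Type} {𝓗 : ∀ ν, ℕ → Fam A (Λ ν)}
  {S : ι → Submonoid A} {K : Finset ι} {U U₁ U₂ : ∀ ν, ℕ → Set (Λ ν)}

/-- The slanted cut. -/
theorem slant {Λ : Type} {H : Fam A Λ} {U₁ : ℕ → Set Λ} {U₂ : Set Λ} (hm : Monotone U₁) {k L : ℕ}
    (hs : ∀ j ⦃a b x⦄, x ∈ H a b → x ≠ 0 → b ∈ U₁ j → a ∈ U₁ (j + k))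
    (hc : ∀ a, a ∈ U₁ 0 ∨ a ∈ U₂) {X : Cx A Λ} (hX : Ok H X) (hL : Bd L X) (hd : Std X) :
    ∃ e, Cut H X e ∧ Hm (rs H (U₁ (2 * L * k))) 0 X.t X.t e ∧ Hm (rs H U₂) 0 X.t X.t (X.p - e) ∧
      Std (X.re e 0) ∧ Std (X.re (X.p - e) 0) := by
  classical
  let V : Set X.J := {j | (X.t j).1 ∈ U₁ (((L : ℤ) - (X.t j).2).toNat * k)}
  have dg : ∀ {i j}, X.p i j ≠ 0 → i = j := fun {i j} h => by_contra fun c => h (hd.1 i j c)
  have comm : X.p * ind A V = ind A V * X.p := by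
    ext i j
    rw [ind_mul_apply, mul_ind_apply]
    by_cases c : i = j
    · rw [c]
    · simp [hd.1 i j c]
  have vv : ind A V * ind A V = ind A V := by rw [ind_mul_ind, Set.inter_self]
  have dv : ind A V * (X.D * ind A V) = X.D * ind A V := by
    ext i j
    rw [ind_mul_apply, mul_ind_apply]
    split_ifs with h1 h2
    · rfl
    · rfl
    · by_contra c
      have c' : X.D i j ≠ 0 := fun e => c e.symm
      have e1 := (hX.hD i j).2 c'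
      have e2 := hL j
      have e3 : ((L : ℤ) - (X.t i).2).toNat = ((L : ℤ) - (X.t j).2).toNat + 1 := by
        have := e2.2
        omega
      refine h1 ?_
      change _ ∈ U₁ _
      rw [e3, add_mul, one_mul]
      exact hs _ (hX.hD i j).1 c' ‹_›
    · rfl
  have he : Hm H 0 X.t X.t (ind A V * X.p) := hX.hp.ind_mul V
  refine ⟨ind A V * X.p, ⟨he, ?_, ?_, ?_, ?_⟩, fun i j => ⟨⟨(he i j).1, fun c => ?_⟩, (he i j).2⟩,
    fun i j => ⟨⟨((hX.hp.sub he) i j).1, fun c => ?_⟩, ((hX.hp.sub he) i j).2⟩,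
    ⟨fun i j c => ?_, fun i => ?_⟩, fun i j c => ?_, fun i => ?_⟩
  · rw [Matrix.mul_assoc, ← Matrix.mul_assoc X.p, comm, Matrix.mul_assoc, hX.pp,
      ← Matrix.mul_assoc, vv]
  · rw [← Matrix.mul_assoc, comm, Matrix.mul_assoc, hX.pp]
  · rw [Matrix.mul_assoc, hX.pp]
  · rw [Matrix.mul_assoc _ X.p, hX.pD, ← Matrix.mul_assoc, Matrix.mul_assoc _ X.D, dv,
      Matrix.mul_assoc]
  · rw [ind_mul_apply] at c
    split_ifs at c with h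
    · obtain rfl := dg c
      have : (X.t i).1 ∈ U₁ (2 * L * k) := hm (Nat.mul_le_mul_right k (by
        have := (hL i).1
        omega)) h
      exact ⟨this, this⟩
    · exact absurd rfl c
  · rw [Matrix.sub_apply, ind_mul_apply] at c
    split_ifs at c with h
    · exact absurd (sub_self _) c
    · obtain rfl := dg (by rwa [sub_zero] at c)
      have := (hc (X.t i).1).resolve_left fun d => h (hm (Nat.zero_le _) d)
      exact ⟨this, this⟩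
  · change (ind A V * X.p) i j = 0
    rw [ind_mul_apply, hd.1 i j c, ite_self]
  · change (ind A V * X.p) i i = 1 ∨ (ind A V * X.p) i i = 0
    rw [ind_mul_apply]
    split_ifs
    exacts [hd.2 i, Or.inr rfl]
  · change (X.p - ind A V * X.p) i j = 0
    rw [Matrix.sub_apply, ind_mul_apply, hd.1 i j c, ite_self, sub_self]
  · change (X.p - ind A V * X.p) i i = 1 ∨ (X.p - ind A V * X.p) i i = 0
    rw [Matrix.sub_apply, ind_mul_apply]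
    split_ifs
    · exact Or.inr (sub_self _)
    · rw [sub_zero]
      exact hd.2 i

/-- The slanted cut for a folded complex. -/
theorem m4_slant {Λ : Type} {H : Fam A Λ} {U₁ : ℕ → Set Λ} {U₂ : Set Λ} (hm : Monotone U₁)
    {k L : ℕ} (hs : ∀ j ⦃a b x⦄, x ∈ H a b → x ≠ 0 → b ∈ U₁ j → a ∈ U₁ (j + k))
    (hc : ∀ a, a ∈ U₁ 0 ∨ a ∈ U₂) {Z : Cx (Opn A) (Lab Λ)} (hZ : Ok (fold H) Z) (hL : Bd L Z)
    (hd : Std (unf Z)) :
    ∃ e, Cut (fold H) Z e ∧ Hm (fold (rs H (U₁ (2 * L * k)))) 0 Z.t Z.t e ∧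
      Hm (fold (rs H U₂)) 0 Z.t Z.t (Z.p - e) ∧
      StdE (CP A) (Z.re e 0) ∧ StdE (CP A) (Z.re (Z.p - e) 0) := by
  obtain ⟨e, c1, c2, c3, c4, c5⟩ := slant hm hs hc (X := unf Z) (hZ.fn (unfFn H)) (wd_unf hL) hd
  obtain ⟨f, f1, f2⟩ := (unf_ff _).mat_surj c2
  obtain ⟨g, g1, g2⟩ := (unf_ff _).mat_surj c3
  have f3 := f1.mono (fold_mono (rs_le _ _))
  have g3 := g1.mono (fold_mono (rs_le _ _))
  have f4 : (unfFn H).mat Z.t Z.t f = e := f2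
  have g4 : (unfFn H).mat Z.t Z.t g = (unfFn H).mat Z.t Z.t Z.p - e := g2
  have e1 : Z.p - f = g := by
    refine (unf_ff H).mat_inj ((hZ.hp.sub f3).mono (unf_ff H).le) (g3.mono (unf_ff H).le) ?_
    rw [sub_eq_add_neg, Fn.mat_add, Fn.mat_neg, f4, g4, sub_eq_add_neg]
  refine ⟨f, Cut.of_fn (unf_ff H) hZ f3 (f4 ▸ c1), f1, e1 ▸ g1, ?_, ?_⟩
  · refine (std_unf (Z := Z.re f 0) f3).1 ?_
    subst f4
    exact c4
  · rw [e1]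
    refine (std_unf (Z := Z.re g 0) g3).1 ?_
    have : Std ((unf Z).re ((unfFn H).mat Z.t Z.t g) 0) := g4 ▸ c5
    exact this

theorem m4_stdE {B : Type v} [Ring B] {Λ : Type} {E : Set B} {X Y : Cx B Λ}
    (hX : StdE E X) (hY : StdE E Y) (t : Matrix X.J Y.J B) : StdE E (X.ext Y t) := by
  refine ⟨?_, ?_⟩
  · rintro (i | i) (j | j) c
    exacts [hX.1 i j fun e => c (congrArg _ e), rfl, rfl, hY.1 i j fun e => c (congrArg _ e)]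
  · rintro (i | i)
    exacts [hX.2 i, hY.2 i]

/-- Unfolding the terms of a germ. -/
theorem m4_down (hG : ∀ ν, Gr (𝓗 ν) S) (hU : Reg 𝓗 U) {Y : SX (Opn A) fun ν => Lab (Λ ν)}
    (h : Obj (gF (rsq 𝓗 U)) (gS (fS S)) K Y.germ) (hs : StdE (gE (CP A)) Y.germ) :
    ∃ k, ∀ᶠ ν in atTop, Obj (rs (𝓗 ν k) (U ν k)) S K (unf (Y.tm ν)) ∧ Std (unf (Y.tm ν)) ∧
      Ok (fold (𝓗 ν k)) (Y.tm ν) := by
  obtain ⟨k, hk⟩ := (obj_germ fun ν => ((hG ν).rs (hU.mono ν)).fold.mono).1 h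
  refine ⟨k, (hk.and (stdE_germ.1 hs)).mono fun ν c => ⟨?_, (std_unf c.1.ok.hp).2 c.2,
    c.1.ok.mono (fold_mono (rs_le _ _))⟩⟩
  exact c.1.fn (unfFn _) (unf_lin _ S)

theorem m4_fin (hG : ∀ ν, Gr (𝓗 ν) S) (r1 : Reg 𝓗 U₁) (r2 : Reg 𝓗 U₂)
    {X : SX (Opn A) fun ν => Lab (Λ ν)} {Y₁ Y₂ : Cx (Gm (Opn A)) (∀ ν, Lab (Λ ν))}
    {τ : Matrix Y₁.J Y₂.J (Gm (Opn A))} (hX : Ok (gF 𝓗) X.germ)
    (d1 : Obj (gF (rsq 𝓗 U₁)) (gS (fS S)) K Y₁) (d2 : Obj (gF (rsq 𝓗 U₂)) (gS (fS S)) K Y₂)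
    (s1 : StdE (gE (CP A)) Y₁) (s2 : StdE (gE (CP A)) Y₂) (d3 : Tw (gF 𝓗) Y₁ Y₂ τ)
    (d4 : HE (gF 𝓗) (Y₁.ext Y₂ τ) X.germ) :
    ∃ k' L' : ℕ, ∀ᶠ ν in atTop, ∃ (Y₁ Y₂ : Cx A (Λ ν)) (τ : Matrix Y₁.J Y₂.J A),
      Obj (rs (𝓗 ν k') (U₁ ν k')) S K Y₁ ∧ Obj (rs (𝓗 ν k') (U₂ ν k')) S K Y₂ ∧
      Std Y₁ ∧ Std Y₂ ∧ Bd L' Y₁ ∧ Bd L' Y₂ ∧ Tw (𝓗 ν k') Y₁ Y₂ τ ∧
      HE (𝓗 ν k') (Y₁.ext Y₂ τ) (unf (X.tm ν)) := by
  have mH : ∀ ν, Monotone fun k => fold (𝓗 ν k) := fun ν => (hG ν).fold.mono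
  obtain ⟨L, hL⟩ := exists_bd (Y₁.ext Y₂ τ)
  obtain ⟨Y₁, rfl⟩ := SX.surj Y₁
  obtain ⟨Y₂, rfl⟩ := SX.surj Y₂
  obtain ⟨τ, rfl⟩ := gm_surj τ
  rw [← SX.germ_ext] at d4
  obtain ⟨k₁, e1⟩ := m4_down hG r1 d1 s1
  obtain ⟨k₂, e2⟩ := m4_down hG r2 d2 s2
  obtain ⟨k₃, e3⟩ := (tw_germ mH).1 d3
  obtain ⟨k₄, e4⟩ := (he_germ mH).1 d4
  obtain ⟨k₅, e5⟩ := (ok_germ mH).1 hX
  refine ⟨k₁ + k₂ + k₃ + k₄ + k₅, L, ?_⟩
  filter_upwards [e1, e2, e3, e4, e5] with ν f1 f2 f3 f4 f5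
  rw [SX.tm_ext] at f4
  generalize hk : k₁ + k₂ + k₃ + k₄ + k₅ = k
  have g1 := f1.2.2.mono (mH ν (show k₁ ≤ k by omega))
  have g2 := f2.2.2.mono (mH ν (show k₂ ≤ k by omega))
  have g3 := f3.mono (mH ν (show k₃ ≤ k by omega))
  have g4 := f4.mono (mH ν (show k₄ ≤ k by omega))
  have g5 := f5.mono (mH ν (show k₅ ≤ k by omega))
  have g6 := (sub_fn_ext (unfFn _) (τ ν)).1.he_left.1 (g4.fn (unfFn _) (g1.ext g2 g3) g5)
  exact ⟨unf (Y₁.tm ν), unf (Y₂.tm ν), _,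
    f1.1.mono (rs_mono ((hG ν).mono (by omega)) (r1.mono ν (by omega))),
    f2.1.mono (rs_mono ((hG ν).mono (by omega)) (r2.mono ν (by omega))), f1.2.1, f2.2.1,
    wd_unf fun j => hL (.inl j), wd_unf fun j => hL (.inr j), g3.fn (unfFn _) g1 g2, g6⟩

theorem gcut {κ : Type w} (𝓗 : κ → ∀ ν, ℕ → Fam A (Λ ν)) (hG : ∀ I ν, Gr (𝓗 I ν) S) (hu : Uni S)
    (h1 : ∀ I ν k a, (1 : A) ∈ 𝓗 I ν k a a)
    (hl : ∀ a I, ∃ I', ∀ ν k, IsLoc (𝓗 I ν k) (S a) (𝓗 I' ν k))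
    (r1 : ∀ I, Reg (𝓗 I) U₁) (r2 : ∀ I, Reg (𝓗 I) U₂) (hc : ∀ ν a, a ∈ U₁ ν 0 ∨ a ∈ U₂ ν 0)
    (hs : ∀ I, SQ (rsq (𝓗 I) fun ν k => U₁ ν k ∩ U₂ ν k))
    (hq : ∀ I K, CQ (rsq (𝓗 I) fun ν k => U₁ ν k ∩ U₂ ν k) S K)
    (I : κ) (K : Finset ι) (k L : ℕ) (X : ∀ ν, Cx A (Λ ν))
    (hX : ∀ ν, Obj (𝓗 I ν k) S K (X ν) ∧ Bd L (X ν) ∧ Std (X ν)) :
    ∃ k' L' : ℕ, ∀ᶠ ν in atTop, ∃ (Y₁ Y₂ : Cx A (Λ ν)) (τ : Matrix Y₁.J Y₂.J A),
      Obj (rs (𝓗 I ν k') (U₁ ν k')) S K Y₁ ∧ Obj (rs (𝓗 I ν k') (U₂ ν k')) S K Y₂ ∧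
      Std Y₁ ∧ Std Y₂ ∧ Bd L' Y₁ ∧ Bd L' Y₂ ∧ Tw (𝓗 I ν k') Y₁ Y₂ τ ∧
      HE (𝓗 I ν k') (Y₁.ext Y₂ τ) (X ν) := by
  have rz := fun I => (r1 I).inter (r2 I)
  have gz : ∀ I ν, Gr (rsq (𝓗 I) (fun ν k => U₁ ν k ∩ U₂ ν k) ν) S :=
    fun I ν => (hG I ν).rs ((rz I).mono ν)
  have mH : ∀ ν, Monotone fun k => fold (𝓗 I ν k) := fun ν => (hG I ν).fold.mono
  have m1 : ∀ ν, Monotone fun k => fold (rs (𝓗 I ν k) (U₁ ν k)) :=
    fun ν => ((hG I ν).rs ((r1 I).mono ν)).fold.mono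
  have m2 : ∀ ν, Monotone fun k => fold (rs (𝓗 I ν k) (U₂ ν k)) :=
    fun ν => ((hG I ν).rs ((r2 I).mono ν)).fold.mono
  choose μ p D b1 b2 b3 using fun ν => exists_box (hX ν).1.ok (hX ν).2.1
  have b4 : ∀ ν, Obj (fold (𝓗 I ν k)) (fS S) K (box L (μ ν) (p ν) (D ν)) := fun ν =>
    (obj_unf (fun _ _ hw => (hG I ν).sc hw k) (b1 ν)).1 ((b2 ν).obj_iff.2 (hX ν).1)
  choose e c1 c2 c3 c4 c5 using fun ν => m4_slant ((r1 I).mono ν)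
    (fun j _ _ _ hx c => ((r1 I).spread ν k j hx c).2) (hc ν) (b1 ν) (fun b => b.2)
    ((b2 ν).std (hX ν).2.2)
  let 𝒳 : SX (Opn A) fun ν => Lab (Λ ν) := SX.box L μ p D
  have a1 : Obj (gF (𝓗 I)) (gS (fS S)) K 𝒳.germ := (obj_germ mH).2 ⟨k, .of_forall b4⟩
  have a2 : Cut (gF (𝓗 I)) 𝒳.germ (gm e) := (cut_germ mH).2 ⟨k, .of_forall c1⟩
  have a3 : Hm (gF (rsq (𝓗 I) U₁)) 0 𝒳.germ.t 𝒳.germ.t (gm e) :=
    (hm_gm m1).2 ⟨max k (2 * L * k), .of_forall fun ν => (c2 ν).mono (fold_mono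
      (rs_mono ((hG I ν).mono (le_max_left _ _)) ((r1 I).mono ν (le_max_right _ _))))⟩
  have a4 : Hm (gF (rsq (𝓗 I) U₂)) 0 𝒳.germ.t 𝒳.germ.t (𝒳.germ.p - gm e) := by
    change Hm _ 0 _ _ (gm p - gm e)
    rw [gm_sub]
    exact (hm_gm m2).2 ⟨k, .of_forall fun ν => (c3 ν).mono (fold_mono
      (rs_mono le_rfl ((r2 I).mono ν (Nat.zero_le _))))⟩
  have a5 : StdE (gE (CP A)) (𝒳.germ.sub (gm e)) :=
    (stdE_germ (X := SX.box L μ e fun _ => 0)).2 (.of_forall c4)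
  have a6 : StdE (gE (CP A)) (𝒳.germ.quo (gm e)) := by
    have := (stdE_germ (X := SX.box L μ (fun ν => p ν - e ν) fun _ => 0)).2 (.of_forall c5)
    change StdE _ (𝒳.germ.re (gm fun ν => p ν - e ν) (gm fun _ => 0)) at this
    rw [← gm_sub] at this
    exact this
  obtain ⟨Z, t₁, t₂, τ, d0, d1, d2, d3, d4⟩ := cut (gF_good (hG I)) (gF_good (gz I))
    (gS_uni hu.fold) (gF_idl (hG I) (rz I)) (gF_idl (hG I) (r1 I)) (gF_idl (hG I) (r2 I))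
    (gF_rs_le (hG I) (r1 I) fun _ _ => Set.inter_subset_left)
    (gF_rs_le (hG I) (r2 I) fun _ _ => Set.inter_subset_right)
    (gF_cross (hG I) (r1 I) (r2 I)) (gF_lu (hG I) (rz I) (h1 I))
    (fun a _ => (hl a I).elim fun I' h => ⟨_, gF_loc (hG I) hu (rz I) h,
      fun K' _ _ => gnull (gz I') (hs I') (hq I' K')⟩)
    (gstd (gz I) (hs I)) a1 a2 a3 a4
  obtain ⟨k', L', h⟩ := m4_fin (hG I) (r1 I) (r2 I) a1.ok d1 d2
    (m4_stdE a5 (Y := Z.sh (-1)) d0 t₁) (m4_stdE a6 d0 t₂) d3 d4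
  refine ⟨k', L', h.mono fun ν ⟨Y₁, Y₂, τ, f1, f2, f3, f4, f5, f6, f7, f8⟩ => ?_⟩
  exact ⟨Y₁, Y₂, τ, f1, f2, f3, f4, f5, f6, f7, (b2 ν).he_right.1 f8⟩

end Pool.Agent.MP_f7db47_al.KN

end
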