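import Pool.Agent.Mg.Ff7db47n.N5
import Pool.Agent.Mg.Ff7db47n.N6
import Pool.Agent.Mg.Ff7db47n.N1
import Pool.Agent.Mg.Ff7db47n.N2

section

/-!
Certificates over a groupoid.
-/

namespace Pool.Agent.MP_f7db47_al.KN

open Matrix GN

universe v w

section Gen

variable {A : Type v} [Ring A] {Λ ι : Type} {H : Fam A Λ} {S : ι → Submonoid A} {K : Finset ι}

theorem c2_sub_mul {J : Type} [Fintype J] (U : J → Prop) [DecidablePred U] (M N : Matrix J J A)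
    (h : ∀ i j, U i → ¬U j → M i j = 0) :
    M.submatrix (Subtype.val : {j // U j} → J) (Subtype.val : {j // U j} → J) *
      N.submatrix (Subtype.val : {j // U j} → J) (Subtype.val : {j // U j} → J) =
      (M * N).submatrix Subtype.val Subtype.val := by
  ext i k
  simp only [Matrix.mul_apply, submatrix_apply]
  rw [← Finset.sum_subtype (Finset.univ.filter U) (by simp) (fun j => M i j * N j k)]
  exact Finset.sum_subset (Finset.subset_univ _) fun j _ hj => by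
    rw [h _ _ i.2 (by simpa using hj), zero_mul]

/-- Restriction to a union of blocks. -/
theorem Tor.res {X : Cx A Λ} (hX : Obj H S K X) (U : X.J → Prop) [DecidablePred U]
    (hU : ∀ i j, U i → ¬U j → ∀ x ∈ H (X.t i).1 (X.t j).1, x = 0) :
    Tor H S K (X.res (Subtype.val : {j // U j} → X.J)) := fun a ha => by
  obtain ⟨w, hw, h, h1, h2⟩ := hX.tor a ha
  refine ⟨w, hw, h.submatrix Subtype.val Subtype.val, h1.submatrix _ _, ?_⟩
  dsimp only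
  rw [c2_sub_mul U _ _ fun i j a b => hU i j a b _ (hX.ok.hD i j).1,
    c2_sub_mul U _ _ fun i j a b => hU i j a b _ (h1 i j).1]
  exact Matrix.ext fun i j => congrFun (congrFun h2 i.1) j.1

/-- Certificates can be found block by block. -/
theorem cert_of_blocks (hH : Good H S) (r : Λ → Λ → Prop) (r1 : ∀ a, r a a)
    (r2 : ∀ a b c, ¬(r a c ↔ r b c) → ∀ x ∈ H a b, x = 0) (P : Λ × ℤ → Prop)
    (h : ∀ c (Y : Cx A Λ), Obj H S K Y → (∀ j, P (Y.t j) ∧ r (Y.t j).1 c) →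
      Cert H S K Set.univ Y) (X : Cx A Λ) (hX : Obj H S K X) (hP : ∀ j, P (X.t j)) :
    Cert H S K Set.univ X := by
  classical
  induction hn : Fintype.card X.J using Nat.strong_induction_on generalizing X with
  | _ n ih =>
    rcases isEmpty_or_nonempty X.J with h0 | ⟨⟨m⟩⟩
    · exact Cert.of_nul hH hX.ok (Wd.univ _) ⟨0, Hm.zero _ _, Subsingleton.elim _ _⟩
    let U : X.J → Prop := fun j => r (X.t j).1 (X.t m).1
    have h1 : ∀ i j, ¬U i → U j → ∀ x ∈ H (X.t i).1 (X.t j).1, x = 0 :=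
      fun i j a b => r2 _ _ _ fun e => a (e.2 b)
    obtain ⟨a1, a2, t, a3, a4⟩ := tri_res hH.mul hX.ok U
      (fun i j a b => h1 i j a b _ (hX.ok.hp i j).1) fun i j a b => h1 i j a b _ (hX.ok.hD i j).1
    have o1 : Obj H S K _ := ⟨a1, Tor.res hX U fun i j a b => r2 _ _ _ fun e => b (e.1 a)⟩
    have o2 : Obj H S K _ := ⟨a2, Tor.res hX (fun j => ¬U j)
      fun i j a b => h1 i j a (not_not.1 b)⟩
    refine Cert.he hH.mul (Cert.ext hH o1 o2 (Wd.univ _) (Wd.univ _) a3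
      (h _ _ o1 fun j => ⟨hP _, j.2⟩) (ih _ ?_ _ o2 (fun j => hP _) rfl)) a4
    rw [← hn]
    exact Fintype.card_subtype_lt (x := m) fun e => e (r1 _)

/-- Transport to one label. -/
theorem he_transport (hH : LR H) {X : Cx A Λ} (hX : Ok H X) (c : Λ) (u u' : X.J → A)
    (hu : ∀ j, u j ∈ H (X.t j).1 c) (hu' : ∀ j, u' j ∈ H c (X.t j).1) (e : ∀ j, u j * u' j = 1) :
    ∃ p D, Ok H ((X.re p D).lab fun _ => c) ∧ HE H X ((X.re p D).lab fun _ => c) := by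
  have h1 : Hm H 0 X.t (fun j => (c, (X.t j).2)) (diagonal u) := fun i j => by
    rw [diagonal_apply]
    split_ifs with e
    · exact ⟨hu i, fun _ => by simp [e]⟩
    · exact ⟨zero_mem _, fun e => absurd rfl e⟩
  have h2 : Hm H 0 (fun j => (c, (X.t j).2)) X.t (diagonal u') := fun i j => by
    rw [diagonal_apply]
    split_ifs with e
    · exact ⟨e ▸ hu' i, fun _ => by simp [e]⟩
    · exact ⟨zero_mem _, fun e => absurd rfl e⟩
  have h3 : ∀ M : Matrix X.J X.J A, diagonal u * (diagonal u' * M) = M := fun M => by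
    rw [← Matrix.mul_assoc, diagonal_mul_diagonal, funext e, diagonal_one, Matrix.one_mul]
  have h4 : diagonal u * diagonal u' = 1 := by rw [diagonal_mul_diagonal, funext e, diagonal_one]
  have pp : ∀ M : Matrix X.J X.J A, X.p * (X.p * M) = X.p * M := fun M => by
    rw [← Matrix.mul_assoc, hX.pp]
  have pD : ∀ M : Matrix X.J X.J A, X.p * (X.D * M) = X.D * M := fun M => by
    rw [← Matrix.mul_assoc, hX.pD]
  have Dp : ∀ M : Matrix X.J X.J A, X.D * (X.p * M) = X.D * M := fun M => by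
    rw [← Matrix.mul_assoc, hX.Dp]
  have DD : ∀ M : Matrix X.J X.J A, X.D * (X.D * M) = 0 := fun M => by
    rw [← Matrix.mul_assoc, hX.DD, Matrix.zero_mul]
  refine ⟨diagonal u' * (X.p * diagonal u), diagonal u' * (X.D * diagonal u),
    ⟨h2.mul hH (hX.hp.mul hH h1 rfl) (by omega), h2.mul hH (hX.hD.mul hH h1 rfl) (by omega),
    ?_, ?_, ?_, ?_⟩, HE.of_iso (f := diagonal u' * X.p) (g := X.p * diagonal u)
    ⟨⟨h2.mul hH hX.hp rfl, ?_, ?_⟩, ?_⟩ ⟨⟨hX.hp.mul hH h1 rfl, ?_, ?_⟩, ?_⟩ ?_ ?_⟩ <;>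
  simp only [Matrix.mul_assoc, h3, pp, pD, Dp, DD, hX.pp, hX.pD, hX.Dp, Matrix.mul_zero]

end Gen

variable {ι : Type} {κ : Type w} {R : Type v} [Ring R] {G : Type} [Group G]
  [MulSemiringAction G R] {Λ : Type}

theorem single_mem_ctl (D : Subring R) {r : Λ → G → Λ → Prop} {a b : Λ} {g : G} (h : r a g b) :
    SkewMonoidAlgebra.single g (1 : R) ∈ ctl D r a b := fun k => by
  classical
  rw [SkewMonoidAlgebra.coeff_single_apply]
  split_ifs with e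
  · exact ⟨one_mem D, fun _ => e ▸ h⟩
  · exact ⟨zero_mem D, fun c => absurd rfl c⟩

/-- Only the vertex groups of the labels that occur are needed. -/
theorem cert_gpd (C : Coef ι κ R) [C.Inv G] (I : κ) (K : Finset ι) (B : Gpd G Λ)
    (X : Cx (SkewMonoidAlgebra R G) Λ) (hX : Obj (ctl (C.D I) B.r) (C.S G) K X)
    (hB : ∀ j, NZs C (B.grp (X.t j).1)) : Cert (ctl (C.D I) B.r) (C.S G) K Set.univ X := by
  refine cert_of_blocks (C.good I B) (fun a b => ∃ g, B.r a g b) (fun a => ⟨1, B.refl a⟩)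
    (fun a b c h x hx => SkewMonoidAlgebra.ext fun g => by_contra fun e => h
      ⟨fun ⟨_, h⟩ => ⟨_, B.trans (B.symm ((hx g).2 e)) h⟩,
        fun ⟨_, h⟩ => ⟨_, B.trans ((hx g).2 e) h⟩⟩) (fun a => NZs C (B.grp a.1))
    (fun c₀ Y hY h => ?_) X hX hB
  rcases isEmpty_or_nonempty Y.J with h0 | ⟨⟨m⟩⟩
  · exact Cert.of_nul (C.good I B) hY.ok (Wd.univ _) ⟨0, Hm.zero _ _, Subsingleton.elim _ _⟩
  obtain ⟨g₀, hg₀⟩ := (h m).2
  choose γ₀ hγ₀ using fun j => (h j).2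
  obtain ⟨γ, hγ⟩ : ∃ γ : Y.J → G, ∀ j, B.r (Y.t j).1 (γ j) (Y.t m).1 :=
    ⟨_, fun j => B.trans (hγ₀ j) (B.symm hg₀)⟩
  obtain ⟨p, D, h1, h2⟩ := he_transport (C.good I B).mul hY.ok (Y.t m).1
    (fun j => SkewMonoidAlgebra.single (γ j) 1) (fun j => SkewMonoidAlgebra.single (γ j)⁻¹ 1)
    (fun j => single_mem_ctl _ (hγ j)) (fun j => single_mem_ctl _ (B.symm (hγ j))) fun j => by
      rw [SkewMonoidAlgebra.single_mul_single, mul_inv_cancel, smul_one, one_mul]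
      rfl
  have h3 := hY.he (C.good I B) h1 h2
  exact Cert.he (C.good I B).mul (Cert.relab (π := fun _ => (Y.t m).1) (fun _ _ _ hx => hx)
    ((h m).1 I K ((Y.re p D).lab fun _ => ())
      ⟨⟨h1.hp, h1.hD, h1.pp, h1.pD, h1.Dp, h1.DD⟩, h3.tor⟩)) h2

theorem null_gpd (C : Coef ι κ R) [C.Inv G] (B : Gpd G Λ) (hB : ∀ a, NZs C (B.grp a)) (I : κ)
    (K : Finset ι) : NullAll (ctl (C.D I) B.r) (C.S G) K :=
  fun X hX => cert_gpd C I K B X hX fun _ => hB _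

theorem qn_zero (C : Coef ι κ R) [C.Inv G] : QN G C 0 := fun I K k L =>
  ⟨0, L + K.card + 1, fun _ B S hB X hX hL _ => by
    have h1 := hX.mono (H' := ctl (C.D I) B.r) fun _ _ _ hx g =>
      ⟨(hx g).1, fun e => ((hx g).2 e).1⟩
    exact (window (C.good I B) h1 hL (null_gpd C B (fun a => (hB a).2 _ le_rfl) I K X h1)).mono
      (fun _ _ _ hx g => ⟨(hx g).1, fun e => ⟨(hx g).2 e, fun i => i.elim0⟩⟩) subset_rfl⟩

end Pool.Agent.MP_f7db47_al.KN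

end

section

/-!
Regions that split into blocks.
-/

namespace Pool.Agent.MP_f7db47_al.KN

open Matrix GN

universe v w

variable {ι : Type} {κ : Type w} {R : Type v} [Ring R] {G : Type} [Group G]
  [MulSemiringAction G R] {Λ : Type} (C : Coef ι κ R) [C.Inv G]

/-- The blocks of a region. -/
def blk (B : Gpd G Λ) (s : Spi G Λ) (U : Set Λ) (m : Λ → ℕ) : Gpd G U where
  r a g b := B.r a g b ∧ m a = m b ∧ (m a ≠ 0 → s.leg.r a g b)
  refl a := ⟨B.refl _, rfl, fun _ => s.leg.refl _⟩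
  symm h := ⟨B.symm h.1, h.2.1.symm, fun e => s.leg.symm (h.2.2 (h.2.1 ▸ e))⟩
  trans h h' := ⟨B.trans h.1 h'.1, h.2.1.trans h'.2.1,
    fun e => s.leg.trans (h.2.2 e) (h'.2.2 (h.2.1 ▸ e))⟩

/-- Close labels lie in the same block, and the blocks have diameter at most `c`. -/
structure Blk (s : Spi G Λ) (U : Set Λ) (m : Λ → ℕ) (k c : ℕ) : Prop where
  near : ∀ a ∈ U, ∀ b ∈ U, ∀ g, s.rel k a g b → m a = m b ∧ (m a ≠ 0 → s.leg.r a g b)
  far : ∀ a ∈ U, ∀ b ∈ U, ∀ g, m a = m b → (m a ≠ 0 → s.leg.r a g b) → s.rel c a g b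

variable {C} {N k k' k'' c L L' : ℕ} {I : κ} {K : Finset ι} {B : Gpd G Λ}
  {S : Fin (N + 1) → Spi G Λ} {U U' : Set Λ} {m : Λ → ℕ}

theorem c3_mono {s : Spi G Λ} {a b : Λ} {g : G} (h : s.rel k a g b) (hk : k ≤ k') :
    s.rel k' a g b :=
  ⟨h.1.trans (by omega), h.2.1.trans (by omega), fun e => (h.2.2 e).trans hk⟩

/-- The remaining spiders. -/
def c3_S (S : Fin (N + 1) → Spi G Λ) (U : Set Λ) : Fin N → Spi G U :=
  fun i => (S i.succ).pull (MonoidHom.id G) Subtype.val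

theorem c3_in (D : Subring R) (hb : Blk (S 0) U m k c) :
    (fun a b : U => ctl D ((CR B S).rel k) a b) ≤
      ctl D ((CR (blk B (S 0) U m) (c3_S S U)).rel k) := fun a b _ hx g =>
  ⟨(hx g).1, fun e => ⟨⟨((hx g).2 e).1, hb.near a a.2 b b.2 g (((hx g).2 e).2 0)⟩,
    fun i => ((hx g).2 e).2 i.succ⟩⟩

theorem c3_out (D : Subring R) (hb : Blk (S 0) U m k c) (hU : U ⊆ U') (h1 : k' ≤ k'')
    (h2 : c ≤ k'') ⦃a b : U⦄ ⦃x : SkewMonoidAlgebra R G⦄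
    (hx : x ∈ ctl D ((CR (blk B (S 0) U m) (c3_S S U)).rel k') a b) :
    x ∈ rs (ctl D ((CR B S).rel k'')) U' a.1 b.1 :=
  ⟨fun g => ⟨(hx g).1, fun e => ⟨((hx g).2 e).1.1, fun i => Fin.cases
    (c3_mono (hb.far a a.2 b b.2 g ((hx g).2 e).1.2.1 ((hx g).2 e).1.2.2) h2)
    (fun i => c3_mono (s := S i.succ) (((hx g).2 e).2 i) h1) i⟩⟩, fun _ => ⟨hU a.2, hU b.2⟩⟩

theorem blk_qt (hQ : ∀ (Λ : Type) (B : Gpd G Λ) (S : Fin N → Spi G Λ), (∀ a, QG C (B.grp a)) →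
      Qt (ctl (C.D I) ((CR B S).rel k)) (ctl (C.D I) ((CR B S).rel k')) (C.S G) K Std L L')
    (hb : Blk (S 0) U m k c) (hB : ∀ a, QG C ((blk B (S 0) U m).grp a)) (hU : U ⊆ U')
    (h1 : k' ≤ k'') (h2 : c ≤ k'') :
    Qt (rs (ctl (C.D I) ((CR B S).rel k)) U) (rs (ctl (C.D I) ((CR B S).rel k'')) U') (C.S G) K
      Std L L' := by
  intro X hX hL hS
  obtain ⟨X', h3, h4⟩ := restr hX
  exact h4.cert_iff.1 (Cert.relab (c3_out _ hb hU h1 h2)
    (hQ U _ (c3_S S U) hB X' (h3.mono (c3_in _ hb)) (h4.wd hL) (h4.std hS)))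

theorem blk_sn (hQ : ∀ (Λ : Type) (B : Gpd G Λ) (S : Fin N → Spi G Λ), (∀ a, QG C (B.grp a)) →
      ∀ X, Ok (ctl (C.D I) ((CR B S).rel k)) X → Bd L X →
        ∃ Y, Ok (ctl (C.D I) ((CR B S).rel k')) Y ∧ Std Y ∧ Bd L' Y ∧
          HE (ctl (C.D I) ((CR B S).rel k')) X Y)
    (hb : Blk (S 0) U m k c) (hB : ∀ a, QG C ((blk B (S 0) U m).grp a)) (hU : U ⊆ U')
    (h1 : k' ≤ k'') (h2 : c ≤ k'') (X : Cx (SkewMonoidAlgebra R G) Λ)
    (hX : Ok (rs (ctl (C.D I) ((CR B S).rel k)) U) X) (hL : Bd L X) :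
    ∃ Y, Ok (rs (ctl (C.D I) ((CR B S).rel k'')) U') Y ∧ Std Y ∧ Bd L' Y ∧
      HE (rs (ctl (C.D I) ((CR B S).rel k'')) U') X Y := by
  obtain ⟨X', h3, h4⟩ := restr ((obj_empty (S := C.S G)).2 hX)
  obtain ⟨Y, a1, a2, a3, a4⟩ := hQ U _ (c3_S S U) hB X' (h3.ok.mono (c3_in _ hb)) (h4.wd hL)
  exact ⟨Y.lab Subtype.val, a1.lab (c3_out _ hb hU h1 h2), a2, a3,
    h4.he_left.1 (a4.relab (c3_out _ hb hU h1 h2))⟩

/-- The slabs of a given parity. -/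
def slab (s : Spi G Λ) (w T k : ℕ) : Set Λ :=
  {a | ∃ n, n % 2 = T ∧ n * w ≤ s.ht a + k ∧ s.ht a < (n + 1) * w + k}

variable {s : Spi G Λ} {w : ℕ}

theorem slab_mono (s : Spi G Λ) (w T : ℕ) : Monotone (slab s w T) := by
  rintro k k' h a ⟨n, h1, h2, h3⟩
  exact ⟨n, h1, by omega, by omega⟩

theorem slab_near {T j : ℕ} {a b : Λ} (h : s.ht b ≤ s.ht a + j) (h' : s.ht a ≤ s.ht b + j)
    (ha : a ∈ slab s w T k) : b ∈ slab s w T (k + j) := by
  obtain ⟨n, h1, h2, h3⟩ := ha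
  exact ⟨n, h1, by omega, by omega⟩

theorem slab_cover (hw : 0 < w) (a : Λ) : a ∈ slab s w 0 0 ∨ a ∈ slab s w 1 0 :=
  (Nat.mod_two_eq_zero_or_one (s.ht a / w)).imp
    (fun h => ⟨_, h, Nat.div_mul_le_self _ _, (Nat.div_lt_iff_lt_mul hw).1 (Nat.lt_succ_self _)⟩)
    fun h => ⟨_, h, Nat.div_mul_le_self _ _, (Nat.div_lt_iff_lt_mul hw).1 (Nat.lt_succ_self _)⟩

theorem c3_lt {n n' : ℕ} (h : n * w < n' * w + w + w) : n < n' + 2 :=
  Nat.lt_of_mul_lt_mul_right (a := w) (by rw [add_mul]; omega)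

theorem c3_le {n n' : ℕ} (h : n * w < n' * w + w) : n ≤ n' :=
  Nat.lt_succ_iff.1 (Nat.lt_of_mul_lt_mul_right (a := w) (by rwa [Nat.succ_mul]))

theorem slab_blk (hw : 3 * k < w) (T : ℕ) : ∃ m, Blk s (slab s w T k) m k (2 * w + 2 * k) := by
  have h : ∀ a, ∃ n, a ∈ slab s w T k →
      n % 2 = T ∧ n * w ≤ s.ht a + k ∧ s.ht a < n * w + w + k := fun a => by
    by_cases ha : a ∈ slab s w T k
    · obtain ⟨n, h1, h2, h3⟩ := ha
      exact ⟨n, fun _ => ⟨h1, h2, by rwa [Nat.succ_mul] at h3⟩⟩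
    · exact ⟨0, fun c => absurd c ha⟩
  choose m hm using h
  refine ⟨m, fun a ha b hb g h => ?_, fun a ha b hb g e h => ?_⟩
  · obtain ⟨a1, a2, a3⟩ := hm a ha
    obtain ⟨b1, b2, b3⟩ := hm b hb
    obtain ⟨c1, c2, c3⟩ := h
    have d1 := c3_lt (w := w) (n := m a) (n' := m b) (by omega)
    have d2 := c3_lt (w := w) (n := m b) (n' := m a) (by omega)
    refine ⟨by omega, fun e => by_contra fun e' => e ?_⟩
    have := c3 e'
    exact Nat.le_zero.1 (c3_le (w := w) (by omega))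
  · obtain ⟨a1, a2, a3⟩ := hm a ha
    obtain ⟨b1, b2, b3⟩ := hm b hb
    rw [← e] at b2 b3
    refine ⟨by omega, by omega, fun e' => ?_⟩
    have : m a = 0 := by_contra fun c => e' (h c)
    rw [this] at a3 b3
    omega

theorem c3_zone (hw : 3 * k < w) {a : Λ} (ha : a ∈ slab s w 0 k ∩ slab s w 1 k) :
    ∃ c, (s.ht a + k) / w = c ∧ 1 ≤ c ∧ c * w ≤ s.ht a + k ∧ s.ht a < c * w + k := by
  have key : ∀ n n', n < n' → n' * w ≤ s.ht a + k → s.ht a < (n + 1) * w + k →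
      ∃ c, (s.ht a + k) / w = c ∧ 1 ≤ c ∧ c * w ≤ s.ht a + k ∧ s.ht a < c * w + k :=
    fun n n' h h1 h2 => by
      have := Nat.mul_le_mul_right w (show n + 1 ≤ n' from h)
      exact ⟨n', Nat.div_eq_of_lt_le h1 (by rw [Nat.succ_mul]; omega), by omega, h1, by omega⟩
  obtain ⟨⟨n, a1, a2, a3⟩, n', b1, b2, b3⟩ := ha
  rcases lt_or_gt_of_ne (show n ≠ n' by omega) with h | h
  exacts [key n n' h b2 a3, key n' n h a2 b3]

theorem zone_blk (hw : 3 * k < w) :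
    Blk s (slab s w 0 k ∩ slab s w 1 k) (fun a => (s.ht a + k) / w) k (2 * k) := by
  refine ⟨fun a ha b hb g h => ?_, fun a ha b hb g e h => ?_⟩
  · obtain ⟨c, a1, a2, a3, a4⟩ := c3_zone hw ha
    obtain ⟨d, b1, b2, b3, b4⟩ := c3_zone hw hb
    obtain ⟨c1, c2, c3⟩ := h
    refine ⟨a1.trans ((le_antisymm (c3_le (w := w) (by omega))
      (c3_le (w := w) (by omega))).trans b1.symm), fun _ => by_contra fun e' => ?_⟩
    have := c3 e'
    have := Nat.mul_le_mul_right w a2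
    omega
  · obtain ⟨c, a1, a2, a3, a4⟩ := c3_zone hw ha
    obtain ⟨d, b1, b2, b3, b4⟩ := c3_zone hw hb
    obtain rfl : c = d := a1.symm.trans (e.trans b1)
    exact ⟨by omega, by omega, fun e' => absurd (h (by omega)) e'⟩

theorem zone_blk1 (hw : 3 * k < w) :
    Blk s ({a | s.ht a ≤ w + k} ∩ {a | w ≤ s.ht a + k}) (fun _ => 1) k (2 * k) := by
  refine ⟨fun a ha b _ g h => ⟨rfl, fun _ => by_contra fun e => ?_⟩, fun a ha b hb g _ h => ?_⟩
  · have a1 : w ≤ s.ht a + k := ha.2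
    have := h.2.2 e
    omega
  · have a1 : s.ht a ≤ w + k := ha.1
    have a2 : w ≤ s.ht a + k := ha.2
    have b1 : s.ht b ≤ w + k := hb.1
    have b2 : w ≤ s.ht b + k := hb.2
    exact ⟨by omega, by omega, fun e => absurd (h one_ne_zero) e⟩

end Pool.Agent.MP_f7db47_al.KN

end

section

/-!
Controlled certificates over spiders.
-/

namespace Pool.Agent.MP_f7db47_al.KN

open Matrix GN Filter

universe v w

variable {ι : Type} {κ : Type w} {R : Type v} [Ring R] {G : Type} [Group G]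
  [MulSemiringAction G R] {Λ : Type} (C : Coef ι κ R) [C.Inv G]

theorem c4_ex {D : Subring R} {r : Λ → G → Λ → Prop} {a b : Λ} {x : SkewMonoidAlgebra R G}
    (hx : x ∈ ctl D r a b) (h : x ≠ 0) : ∃ g, r a g b :=
  by_contra fun e => h (SkewMonoidAlgebra.ext fun g => by_contra fun e1 => e ⟨g, (hx g).2 e1⟩)

theorem c4_reg {N : ℕ} {Λ : ℕ → Type} (D : Subring R) (B : ∀ ν, Gpd G (Λ ν))
    (S : ∀ ν, Fin (N + 1) → Spi G (Λ ν)) {U : ∀ ν, ℕ → Set (Λ ν)} (h1 : ∀ ν, Monotone (U ν))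
    (h2 : ∀ ν j k a b, (S ν 0).ht b ≤ (S ν 0).ht a + j → (S ν 0).ht a ≤ (S ν 0).ht b + j →
      a ∈ U ν k → b ∈ U ν (k + j)) : Reg (fun ν k => ctl D ((CR (B ν) (S ν)).rel k)) U :=
  ⟨h1, fun ν j k a b _ hx e => by
    obtain ⟨g, -, hg⟩ := c4_ex hx e
    exact ⟨h2 ν j k a b (hg 0).2.1 (hg 0).1, h2 ν j k b a (hg 0).1 (hg 0).2.1⟩⟩

/-- The cut along the first spider. -/
theorem c4_cut {N : ℕ} (h : QN G C N) {Λ : ℕ → Type} (B : ∀ ν, Gpd G (Λ ν))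
    (S : ∀ ν, Fin (N + 1) → Spi G (Λ ν)) {U₁ U₂ : ∀ ν, ℕ → Set (Λ ν)}
    (m1 : ∀ ν, Monotone (U₁ ν)) (m2 : ∀ ν, Monotone (U₂ ν))
    (n1 : ∀ ν j k a b, (S ν 0).ht b ≤ (S ν 0).ht a + j → (S ν 0).ht a ≤ (S ν 0).ht b + j →
      a ∈ U₁ ν k → b ∈ U₁ ν (k + j))
    (n2 : ∀ ν j k a b, (S ν 0).ht b ≤ (S ν 0).ht a + j → (S ν 0).ht a ≤ (S ν 0).ht b + j →
      a ∈ U₂ ν k → b ∈ U₂ ν (k + j)) (hc : ∀ ν a, a ∈ U₁ ν 0 ∨ a ∈ U₂ ν 0)
    (hz : ∀ k, ∀ᶠ ν in atTop, ∃ m, Blk (S ν 0) (U₁ ν k ∩ U₂ ν k) m k (2 * k) ∧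
      ∀ a, QG C ((blk (B ν) (S ν 0) (U₁ ν k ∩ U₂ ν k) m).grp a))
    (I : κ) (K : Finset ι) (k L : ℕ) (X : ∀ ν, Cx (SkewMonoidAlgebra R G) (Λ ν))
    (hX : ∀ ν, Obj (ctl (C.D I) ((CR (B ν) (S ν)).rel k)) (C.S G) K (X ν) ∧ Bd L (X ν) ∧
      Std (X ν)) :
    ∃ k' L' : ℕ, ∀ᶠ ν in atTop, ∃ (Y₁ Y₂ : Cx (SkewMonoidAlgebra R G) (Λ ν))
      (τ : Matrix Y₁.J Y₂.J (SkewMonoidAlgebra R G)),
      Obj (rs (ctl (C.D I) ((CR (B ν) (S ν)).rel k')) (U₁ ν k')) (C.S G) K Y₁ ∧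
      Obj (rs (ctl (C.D I) ((CR (B ν) (S ν)).rel k')) (U₂ ν k')) (C.S G) K Y₂ ∧
      Std Y₁ ∧ Std Y₂ ∧ Bd L' Y₁ ∧ Bd L' Y₂ ∧ Tw (ctl (C.D I) ((CR (B ν) (S ν)).rel k')) Y₁ Y₂ τ ∧
      HE (ctl (C.D I) ((CR (B ν) (S ν)).rel k')) (Y₁.ext Y₂ τ) (X ν) := by
  have hU : ∀ ν {k k'}, k ≤ k' → U₁ ν k ∩ U₂ ν k ⊆ U₁ ν k' ∩ U₂ ν k' := fun ν _ _ e =>
    Set.inter_subset_inter (m1 ν e) (m2 ν e)
  refine gcut (fun I ν k => ctl (C.D I) ((CR (B ν) (S ν)).rel k)) (fun I _ => C.gr I _) C.uni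
    (fun _ ν _ a => one_mem_ctl _ ((CR (B ν) (S ν)).mono (Nat.zero_le _) ((CR _ _).refl a)))
    (fun a I => (C.isLoc a I).imp fun _ c _ _ => c _ _) (fun _ => c4_reg _ B S m1 n1)
    (fun _ => c4_reg _ B S m2 n2) hc (fun I k L => ?_) (fun I K k L => ?_) I K k L X hX
  · obtain ⟨k', hk⟩ := sn (G := G) C N I k L
    exact ⟨k' + 2 * k, L + 1, (hz k).mono fun ν ⟨_, c1, c2⟩ =>
      blk_sn hk c1 c2 (hU ν (by omega)) (by omega) (by omega)⟩
  · obtain ⟨k', L', hk⟩ := h I K k L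
    exact ⟨k' + 2 * k, L', (hz k).mono fun ν ⟨_, c1, c2⟩ =>
      blk_qt hk c1 c2 (hU ν (by omega)) (by omega) (by omega)⟩

theorem qn_succ {N : ℕ} (h : QN G C N) : QN G C (N + 1) := by
  intro I K k L
  by_contra hn
  simp only [not_exists, not_forall, Qt] at hn
  choose Λ B S hB X h1 h2 h3 h4 using fun ν => hn ν ν
  have hb : ∀ ν U m a, QG C ((blk (B ν) (S ν 0) U m).grp a) := fun ν U m a =>
    (hB ν a).le fun _ c => c.1
  obtain ⟨k₁, L₁, c⟩ := c4_cut C h B S (fun ν => slab_mono (S ν 0) (ν / 12 + 1) 0)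
    (fun ν => slab_mono (S ν 0) (ν / 12 + 1) 1) (fun _ _ _ _ _ => slab_near)
    (fun _ _ _ _ _ => slab_near) (fun _ => slab_cover (Nat.succ_pos _))
    (fun k => (eventually_ge_atTop (36 * k)).mono fun ν e =>
      ⟨_, zone_blk (by omega), hb ν _ _⟩) I K k L X fun ν => ⟨h1 ν, h2 ν, h3 ν⟩
  obtain ⟨k₂, L₂, c'⟩ := h I K k₁ L₁
  obtain ⟨ν, e, Y₁, Y₂, τ, a1, a2, b1, b2, d1, d2, ht, he⟩ :=
    ((eventually_ge_atTop (36 * k₁ + 6 * k₂ + L₁ + L₂ + 12)).and c).exists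
  have hG := C.gr I (CR (B ν) (S ν))
  have hm := hG.mono (show k₁ ≤ k₂ + (2 * (ν / 12 + 1) + 2 * k₁) by omega)
  have hW : ∀ {n : ℕ}, n ≤ ν → Set.Icc (-(n : ℤ)) n ⊆ Set.Icc (-(ν : ℤ)) ν := fun e =>
    Set.Icc_subset_Icc (by omega) (by omega)
  have key : ∀ T Y, Obj (rs (ctl (C.D I) ((CR (B ν) (S ν)).rel k₁))
      (slab (S ν 0) (ν / 12 + 1) T k₁)) (C.S G) K Y → Bd L₁ Y → Std Y →
      Cert (ctl (C.D I) ((CR (B ν) (S ν)).rel (k₂ + (2 * (ν / 12 + 1) + 2 * k₁)))) (C.S G) K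
        (Set.Icc (-(ν : ℤ)) ν) Y := fun T Y y1 y2 y3 => by
    obtain ⟨m, hm⟩ := slab_blk (s := S ν 0) (show 3 * k₁ < ν / 12 + 1 by omega) T
    exact (blk_qt c' hm (hb ν _ _) (Set.subset_univ _) (Nat.le_add_right _ _)
      (Nat.le_add_left _ _) Y y1 y2 y3).mono (rs_le _ _) (hW (by omega))
  exact h4 ν ((Cert.he_gr hG (Cert.ext_sc (fun _ _ hw => hG.sc hw _)
    (a1.mono ((rs_le _ _).trans hm)) (a2.mono ((rs_le _ _).trans hm)) (d1.mono (hW (by omega)))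
    (d2.mono (hW (by omega))) (ht.mono hm) (key _ _ a1 d1 b1) (key _ _ a2 d2 b2))
    (he.symm.mono hm)).mono (hG.mono (by omega)) subset_rfl)

theorem qn_all (N : ℕ) : QN G C N := by
  induction N with
  | zero => exact qn_zero C
  | succ N ih => exact qn_succ C ih

end Pool.Agent.MP_f7db47_al.KN

end

section

/-!
The vanishing theorem.
-/

namespace Pool.Agent.MP_f7db47_al.KN

open Matrix GN Filter

universe v w

variable {ι : Type} {κ : Type w} {R : Type v} [Ring R] {G : Type} [Group G]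
  [MulSemiringAction G R] {Λ : Type} (C : Coef ι κ R) [C.Inv G]

theorem vn_succ {N : ℕ} (h : VN G C N) : VN G C (N + 1) := by
  intro I K k L
  by_contra hn
  simp only [not_exists, not_forall, VV] at hn
  choose Λ S hS hr X h1 h2 h3 h4 using hn
  have hb : ∀ ν (U : Set (Λ ν)) (a : U), 0 < (S ν 0).ht a →
      QG C ((blk (Gpd.full G _) (S ν 0) U fun _ => 1).grp a) := fun ν U a e =>
    (hS ν 0 a e).le fun _ c => c.2.2 one_ne_zero
  obtain ⟨k₁, L₁, c⟩ := c4_cut C (qn_all C N) (fun ν => Gpd.full G (Λ ν)) S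
    (U₁ := fun ν k => {a | (S ν 0).ht a ≤ ν / 2 + k})
    (U₂ := fun ν k => {a | ν / 2 ≤ (S ν 0).ht a + k})
    (fun _ _ _ e _ c => c.trans (Nat.add_le_add_left e _))
    (fun _ _ _ e _ c => le_trans c (Nat.add_le_add_left e _))
    (fun _ _ _ _ _ c1 c2 c3 => by simp only [Set.mem_ofPred_eq] at c3 ⊢; omega)
    (fun _ _ _ _ _ c1 c2 c3 => by simp only [Set.mem_ofPred_eq] at c3 ⊢; omega)
    (fun ν a => le_total ((S ν 0).ht a) (ν / 2))
    (fun k => (eventually_ge_atTop (6 * k + 2)).mono fun ν e =>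
      ⟨_, zone_blk1 (by omega), fun a => hb ν _ a (by
        have := a.2.2
        simp only [Set.mem_ofPred_eq] at this
        omega)⟩) I K k L X
    fun ν => ⟨(h1 ν).mono fun _ _ _ hx g => ⟨(hx g).1, fun e => ⟨trivial, (hx g).2 e⟩⟩, h2 ν, h3 ν⟩
  obtain ⟨r, c'⟩ := h I K k₁ L₁
  obtain ⟨ν, e, Y₁, Y₂, τ, a1, a2, b1, b2, d1, -, ht, he⟩ :=
    ((eventually_ge_atTop (6 * k₁ + r + 2)).and c).exists
  have hG := (C.sca (G := G) I).good
  obtain ⟨Z₁, z1, s1⟩ := restr a1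
  obtain ⟨Z₂, z2, s2⟩ := restr a2
  have p1 := c' _ (fun i => (S ν i.succ).pull (MonoidHom.id G) Subtype.val)
    (fun i a e => (hS ν i.succ a.1 e).le fun _ c => c) (fun a => by
      obtain ⟨i, hi⟩ := hr ν a.1
      have := a.2
      simp only [Set.mem_ofPred_eq] at this
      induction i using Fin.cases with
      | zero => omega
      | succ i => exact ⟨i, le_trans (by omega) hi⟩) Z₁
    (z1.mono fun _ _ _ hx g => ⟨(hx g).1, fun e i => ((hx g).2 e).2 i.succ⟩) (s1.wd d1) (s1.std b1)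
  have p2 := null_gpd C (blk (Gpd.full G _) (S ν 0) _ fun _ => 1) (fun a => (hb ν _ a (by
      have := a.2
      simp only [Set.mem_ofPred_eq] at this
      omega)).2 _ le_rfl) I K Z₂ (z2.mono fun a b _ hx g => ⟨(hx g).1, fun e =>
      ⟨trivial, rfl, fun _ => by_contra fun e1 => by
        have := (((hx g).2 e).2 0).2.2 e1
        have h1 := a.2
        have h2 := b.2
        simp only [Set.mem_ofPred_eq] at h1 h2
        omega⟩⟩)
  have he' := he.symm.relab ctl_ful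
  rw [lab_ext] at he'
  exact h4 ν (Cert.he hG.mul (Cert.ext hG ((a1.mono (rs_le _ _)).lab ctl_ful)
    ((a2.mono (rs_le _ _)).lab ctl_ful) (Wd.univ _) (Wd.univ _) (ht.relab ctl_ful)
    ((s1.lab _).cert_iff.1 p1) ((s2.lab _).cert_iff.1 (p2.relab ctl_ful :))) he')

theorem van (N : ℕ) : VN G C N := by
  induction N with
  | zero =>
    refine fun I K k L => ⟨0, fun Λ S _ h X _ _ _ => ?_⟩
    have : IsEmpty (X.lab fun _ => ()).J := ⟨fun j => (h (X.t j).1).elim fun i _ => i.elim0⟩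
    exact Cert.of_empty
  | succ N ih => exact vn_succ C ih

end Pool.Agent.MP_f7db47_al.KN

end
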